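import Pool.Agent.Lib.MP_6bd702_occ.OccDefs
import Pool.Agent.Lib.MP_6bd702_pr_h60.AnnSharp

/-!
# An occupied cell gives two strands and a corridor across every annulus around the cell
-/

set_option autoImplicit false

namespace Pool.Agent.Occ

open Relation Pool.Agent.Perc Pool.Agent.PercD Pool.Agent.Perc3
open Pool.Agent.PercS5 (Ev Av shE shE' shE_shE' MM_shift MM_unshift PathP SegP Stp Adj trim
  exists_path first_exit')

variable {ω : Cfg} {n a ρ q d w D y : ℤ} {c : ℤ × ℤ} {K : ℕ}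

/-- The coarse cell of a face. -/
def cc (q : ℤ) (f : ℤ × ℤ) : ℤ × ℤ := (f.1 / q, f.2 / q)

/-- The lattice point of a coarse cell, in coordinates with origin `z`. -/
def cg (q : ℤ) (z κ : ℤ × ℤ) : ℤ × ℤ := (κ.1 * q - z.1, κ.2 * q - z.2)

theorem div_step (hq : 0 < q) (x : ℤ) : (x + 1) / q = x / q ∨ (x + 1) / q = x / q + 1 := by
  have h1 : x / q ≤ (x + 1) / q := Int.ediv_le_ediv hq (by omega)
  have h2 : (x + 1) / q ≤ (x + q) / q := Int.ediv_le_ediv hq (by omega)
  rw [Int.add_ediv_of_dvd_right (dvd_refl q), Int.ediv_self (by omega)] at h2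
  omega

theorem cc_step (hq : 0 < q) {f g : ℤ × ℤ} (h : Adj4 f g) :
    cc q f = cc q g ∨ Adj (cc q f) (cc q g) := by
  unfold cc Adj
  obtain ⟨f1, f2⟩ := f
  obtain ⟨g1, g2⟩ := g
  unfold Adj4 at h
  simp only [Prod.mk.injEq] at h ⊢
  rcases h with ⟨rfl, rfl | rfl⟩ | ⟨rfl, rfl | rfl⟩
  · rcases div_step hq f1 with h | h
    · left; exact ⟨h.symm, rfl⟩
    · right; right; rw [h]; simp
  · rcases div_step hq g1 with h | h
    · left; exact ⟨h, rfl⟩
    · right; right; rw [h]; simp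
  · rcases div_step hq f2 with h | h
    · left; exact ⟨rfl, h.symm⟩
    · right; left; rw [h]; simp
  · rcases div_step hq g2 with h | h
    · left; exact ⟨rfl, h⟩
    · right; left; rw [h]; simp

/-- The coarse cells which contain a clear face. -/
def Bc (q ρ : ℤ) (S : Set (ℤ × ℤ)) (κ : ℤ × ℤ) : Prop := ∃ f, Clr ρ S f ∧ cc q f = κ

theorem chain_cc {F S : Set (ℤ × ℤ)} (hq : 0 < q) {g h : ℤ × ℤ} (hc : ChC F ρ S g h) :
    ReflTransGen (Stp (Bc q ρ S)) (cc q g) (cc q h) := by
  induction hc with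
  | refl => exact ReflTransGen.refl
  | tail _ hs ih =>
    obtain ⟨h1, -, -, h4, h5⟩ := hs
    rcases cc_step hq h1 with h | h
    · rw [← h]; exact ih
    · exact ih.tail ⟨h, ⟨_, h4, rfl⟩, ⟨_, h5, rfl⟩⟩

theorem cc_near (hq : 0 < q) (f : ℤ × ℤ) :
    (cc q f).1 * q ≤ f.1 ∧ f.1 < (cc q f).1 * q + q ∧ (cc q f).2 * q ≤ f.2 ∧
      f.2 < (cc q f).2 * q + q := by
  unfold cc
  simp only
  have h1 := Int.ediv_mul_le f.1 (show q ≠ 0 by omega)
  have h2 := Int.lt_ediv_add_one_mul_self f.1 hq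
  have h3 := Int.ediv_mul_le f.2 (show q ≠ 0 by omega)
  have h4 := Int.lt_ediv_add_one_mul_self f.2 hq
  rw [add_mul, one_mul] at h2 h4
  exact ⟨h1, h2, h3, h4⟩

/-- The points which are near a clear face, in coordinates with origin `z`. -/
def Pc (q ρ : ℤ) (S : Set (ℤ × ℤ)) (z p : ℤ × ℤ) : Prop :=
  ∃ f, Clr ρ S f ∧ |p.1 + z.1 - f.1| ≤ 2 * q ∧ |p.2 + z.2 - f.2| ≤ 2 * q

theorem cg_step {S : Set (ℤ × ℤ)} {z : ℤ × ℤ} (hq : 0 < q) (κ κ' : ℤ × ℤ)
    (h : Stp (Bc q ρ S) κ κ') :
    ∃ v, SegP (Pc q ρ S z) (cg q z κ) v ∧ SegP (Pc q ρ S z) v (cg q z κ') := by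
  obtain ⟨hadj, ⟨f, hf, rfl⟩, ⟨f', hf', rfl⟩⟩ := h
  have h1 := cc_near hq f
  have h2 := cc_near hq f'
  refine ⟨cg q z (cc q f), ⟨Or.inl rfl, ?_⟩, ?_, ?_⟩
  · intro p p1 p2 p3 p4
    rw [min_self] at p1 p3
    rw [max_self] at p2 p4
    refine ⟨f, hf, ?_, ?_⟩
    · unfold cg at p1 p2
      simp only at p1 p2
      rw [abs_le]; omega
    · unfold cg at p3 p4
      simp only at p3 p4
      rw [abs_le]; omega
  · unfold cg
    simp only
    rcases hadj with ⟨h, -⟩ | ⟨-, h⟩
    · left; rw [h]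
    · right; rw [h]
  · intro p p1 p2 p3 p4
    unfold cg at p1 p2 p3 p4
    simp only at p1 p2 p3 p4
    refine ⟨f, hf, ?_⟩
    rcases hadj with ⟨e, h⟩ | ⟨h, e⟩
    · rw [e] at p1 p2 h1
      rw [abs_eq (by norm_num)] at h
      rw [min_self] at p1
      rw [max_self] at p2
      rcases h with h | h
      · have e2 : (cc q f').2 * q = (cc q f).2 * q - q := by
          rw [show (cc q f').2 = (cc q f).2 - 1 by omega]; ring
        rw [e2] at p3 p4
        rw [min_eq_right (by omega)] at p3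
        rw [max_eq_left (by omega)] at p4
        rw [abs_le, abs_le]; omega
      · have e2 : (cc q f').2 * q = (cc q f).2 * q + q := by
          rw [show (cc q f').2 = (cc q f).2 + 1 by omega]; ring
        rw [e2] at p3 p4
        rw [min_eq_left (by omega)] at p3
        rw [max_eq_right (by omega)] at p4
        rw [abs_le, abs_le]; omega
    · rw [e] at p3 p4 h1
      rw [abs_eq (by norm_num)] at h
      rw [min_self] at p3
      rw [max_self] at p4
      rcases h with h | h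
      · have e2 : (cc q f').1 * q = (cc q f).1 * q - q := by
          rw [show (cc q f').1 = (cc q f).1 - 1 by omega]; ring
        rw [e2] at p1 p2
        rw [min_eq_right (by omega)] at p1
        rw [max_eq_left (by omega)] at p2
        rw [abs_le, abs_le]; omega
      · have e2 : (cc q f').1 * q = (cc q f).1 * q + q := by
          rw [show (cc q f').1 = (cc q f).1 + 1 by omega]; ring
        rw [e2] at p1 p2
        rw [min_eq_left (by omega)] at p1
        rw [max_eq_right (by omega)] at p2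
        rw [abs_le, abs_le]; omega

/-- The coarse cells whose lattice points are in the box. -/
noncomputable def cS (q w : ℤ) (z : ℤ × ℤ) : Finset (ℤ × ℤ) :=
  Finset.Icc (-((w - z.1) / q)) ((z.1 + w) / q) ×ˢ Finset.Icc (-((w - z.2) / q)) ((z.2 + w) / q)

theorem mem_cS (hq : 0 < q) {z κ : ℤ × ℤ} :
    κ ∈ cS q w z ↔ |(cg q z κ).1| ≤ w ∧ |(cg q z κ).2| ≤ w := by
  have key : ∀ x t : ℤ, (-((w - t) / q) ≤ x ∧ x ≤ (t + w) / q) ↔ |x * q - t| ≤ w := by
    intro x t
    rw [neg_le, Int.le_ediv_iff_mul_le hq, Int.le_ediv_iff_mul_le hq, neg_mul, abs_le]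
    omega
  unfold cS cg
  rw [Finset.mem_product, Finset.mem_Icc, Finset.mem_Icc, key, key]

theorem card_cS (hq : 0 < q) (hK : 2 * w < K * q) (z : ℤ × ℤ) : (cS q w z).card ≤ K ^ 2 := by
  have key : ∀ t : ℤ, (Finset.Icc (-((w - t) / q)) ((t + w) / q)).card ≤ K := by
    intro t
    rw [Int.card_Icc]
    have h1 := Int.ediv_mul_le (w - t) (show q ≠ 0 by omega)
    have h2 := Int.ediv_mul_le (t + w) (show q ≠ 0 by omega)
    have h3 : ((w - t) / q + (t + w) / q) * q < K * q := by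
      rw [add_mul]; omega
    have h4 : (w - t) / q + (t + w) / q < K := lt_of_mul_lt_mul_right h3 hq.le
    omega
  unfold cS
  rw [Finset.card_product, pow_two]
  exact Nat.mul_le_mul (key _) (key _)

/-! ### The deterministic statement -/

theorem mem_Wn {f : ℤ × ℤ} : f ∈ Wn n a ↔ (0 ≤ f.1 ∧ f.1 < n * a) ∧ 0 ≤ f.2 ∧ f.2 < n * a := by
  unfold Wn
  rw [Perc.mem_RF, and_assoc]

/-- **The deterministic statement.** -/
theorem ev_of_occ (hq : 0 < q) (hqa : 4 * q ≤ a) (ha : 8 ≤ a) (hn : 0 < n) (hmid : Mid n c)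
    (hocc : OccC n a ρ ω (eL y) c) (hd : 2 * a ≤ d) (hdw : d < w) (hw : 8 * w ≤ n * a)
    (hK : 2 * w < K * q) (hρ : D + 2 * q ≤ ρ) :
    shiftC (c.1 * a) (c.2 * a) ω ∈ Ev w w d D (2 * K ^ 2) := by
  obtain ⟨⟨f, ⟨hfW, b, hb, hside⟩, hfc⟩, g, h, hg, hgW, hgC, hh, hch⟩ := hocc
  set z : ℤ × ℤ := (c.1 * a, c.2 * a) with hz
  have hz1 : z.1 = c.1 * a := rfl
  have hz2 : z.2 = c.2 * a := rfl
  have ha0 : 0 < a := by omega
  have hna : a ≤ n * a := by nlinarith [hn]
  obtain ⟨m1, m2, m3, m4⟩ := hmid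
  have hc1 : 3 * (n * a) ≤ 8 * z.1 := by rw [hz1]; nlinarith
  have hc2 : 8 * z.1 < 5 * (n * a) := by rw [hz1]; nlinarith
  have hc3 : 3 * (n * a) ≤ 8 * z.2 := by rw [hz2]; nlinarith
  have hc4 : 8 * z.2 < 5 * (n * a) := by rw [hz2]; nlinarith
  have hw0 : 0 < w := by omega
  -- the box is in the window
  have hbox : ∀ f : ℤ × ℤ, f ∈ RF (z.1 - w) (z.1 + w) (z.2 - w) (z.2 + w) → f ∈ Wn n a := by
    intro f hf
    rw [Perc.mem_RF] at hf
    rw [mem_Wn]
    omega
  -- the unit edge in the cell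
  have hbin : Pool.Agent.PercD.InE z (2 * a) b := by
    obtain ⟨f1, f2⟩ := f
    unfold InC at hfc
    simp only [add_mul, one_mul] at hfc
    rw [← hz1, ← hz2] at hfc
    unfold Pool.Agent.PercD.InE InR
    rcases hside with rfl | rfl | rfl | rfl
    · simp only [bo, ua_mk, ub_false]; omega
    · simp only [le', ua_mk, ub_true]; omega
    · simp only [to', ua_mk, ub_false]; omega
    · simp only [ri, ua_mk, ub_true]; omega
  -- the component reaches the boundary of the box
  have hInK : ∀ x, x ∈ MM ω (BR z w) b → Pool.Agent.PercD.InE z w x := by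
    intro x hx
    induction hx with
    | refl =>
      unfold Pool.Agent.PercD.InE InR at hbin ⊢
      omega
    | tail _ hs _ =>
      obtain ⟨f, hf, hm⟩ := hs
      exact inE_of_side hf hm.right
  have hreach : ∃ t ∈ MM ω (BR z w) b, BdR z w t := by
    have h1 : eL y ∈ MM ω (Wn n a) b := MM_symm hb
    rcases first_exit' (F := (BR z w : Set (ℤ × ℤ))) h1 with h2 | ⟨t, ht, f', -, hf', hsd⟩
    · exfalso
      have h3 := (hInK _ h2).1
      unfold InR eL at h3
      rw [ua_mk] at h3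
      simp only at h3
      omega
    · exact ⟨t, ht, bd_of_side (hInK _ ht) hsd hf'⟩
  obtain ⟨t, ht, htb⟩ := hreach
  -- the corridor
  set S : Set (ℤ × ℤ) := SS ω (Wn n a) (eL y) with hS
  have hchain := chain_cc hq hch
  have hgn := cc_near hq g
  have hhn := cc_near hq h
  unfold NearC at hg
  simp only [add_mul, one_mul] at hg
  rw [← hz1, ← hz2] at hg
  have hga : cc q g ∈ cS q w z := by
    rw [mem_cS hq]
    unfold cg
    simp only
    rw [abs_le, abs_le]
    omega
  have hhb : cc q h ∉ cS q w z := by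
    rw [mem_cS hq]
    unfold cg
    simp only
    rw [abs_le, abs_le]
    rintro ⟨-, -, h5⟩
    rw [hh] at hhn
    omega
  obtain ⟨b', l, hb', hl1, hl2, hl3⟩ := exists_path (g := cg q z) (P := Pc q ρ S z)
    (fun x y h => cg_step hq x y h) hga hhb hchain
  rw [mem_cS hq] at hb' hga
  obtain ⟨l', k1, k2, k3, k4⟩ := trim l (cg q z (cc q g)) (L := w) (w := w) hga.1 hga.2 hl1
    (by rw [hl2]; exact hb')
  have hin1 : |(cg q z (cc q g)).1| < d ∧ |(cg q z (cc q g)).2| < d := by
    unfold cg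
    simp only
    rw [abs_lt, abs_lt]
    omega
  have hCorr : Corr w w d (cg q z (cc q g)) l' := ⟨PathP.rectil l' k1, hin1, k3, k4⟩
  have hFG : ∀ f ∈ (BR z w : Set (ℤ × ℤ)),
      (f.1 - z.1, f.2 - z.2) ∈ (RF (-w) w (-w) w : Finset (ℤ × ℤ)) := by
    intro f hf
    rw [mem_BR'] at hf
    rw [Perc.mem_RF]
    simp only
    omega
  have hGF : ∀ f ∈ ((RF (-w) w (-w) w : Finset (ℤ × ℤ)) : Set (ℤ × ℤ)),
      (f.1 + z.1, f.2 + z.2) ∈ (BR z w : Set (ℤ × ℤ)) := by
    intro f hf
    rw [Finset.mem_coe, Perc.mem_RF] at hf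
    rw [mem_BR']
    simp only
    omega
  refine ⟨shE' z b, ?_, ⟨shE' z t, MM_shift (fun f hf => Finset.mem_coe.2 (hFG f hf)) ht, ?_⟩,
    cg q z (cc q g), l', hCorr, ?_, ?_⟩
  · -- the unit edge is in the inner box
    obtain ⟨x, v, s⟩ := b
    unfold Pool.Agent.PercD.InE InR at hbin ⊢
    unfold shE'
    cases s
    · simp only [ua_mk, ub_false] at hbin ⊢
      omega
    · simp only [ua_mk, ub_true] at hbin ⊢
      omega
  · obtain ⟨x, v, s⟩ := t
    unfold BdR BdE at htb
    unfold BdE shE'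
    simp only at htb ⊢
    rcases htb with ⟨h0, h⟩ | ⟨h0, h⟩
    · exact Or.inl ⟨h0, by omega, by omega, by omega⟩
    · exact Or.inr ⟨h0, by omega, by omega, by omega⟩
  · calc l'.length ≤ l.length := k2
      _ ≤ 2 * (cS q w z).card := hl3
      _ ≤ 2 * K ^ 2 := Nat.mul_le_mul le_rfl (card_cS hq hK z)
  · rintro f' ⟨hf', s, hs, hsd⟩ x hx
    -- the visited face is a visited face of the window
    have h1 := MM_unshift hGF hs
    rw [shE_shE'] at h1
    have h2 : shE z s ∈ MM ω (Wn n a) (eL y) := by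
      refine MM_trans hb (MM_mono ?_ h1)
      intro f hf
      refine Finset.mem_coe.2 (hbox f ?_)
      rw [mem_BR'] at hf
      rw [Perc.mem_RF]
      omega
    have h3 : (f'.1 + z.1, f'.2 + z.2) ∈ S := by
      refine ⟨?_, shE z s, h2, ?_⟩
      · refine Finset.mem_coe.2 (hbox _ ?_)
        rw [Finset.mem_coe, Perc.mem_RF] at hf'
        rw [Perc.mem_RF]
        simp only
        omega
      · obtain ⟨x1, x2⟩ := f'
        rcases hsd with rfl | rfl | rfl | rfl
        · left; rfl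
        · right; left; rfl
        · right; right; left
          simp only [to', shE, Prod.mk.injEq, and_true, true_and]
          omega
        · right; right; right
          simp only [ri, shE, Prod.mk.injEq, and_true]
          omega
    obtain ⟨p, hp, hp1, hp2⟩ := PathP.onPath l' k1 x hx
    have h4 := hp _ h3
    simp only at h4 hp1 hp2
    rw [lt_max_iff, lt_abs, lt_abs] at h4
    rw [abs_le] at hp1 hp2
    rw [lt_max_iff, lt_abs, lt_abs]
    omega

end Pool.Agent.Occ
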