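import Pool.Agent.Lib.MP_6bd702_occ.PtDefs
import Pool.Agent.Lib.MP_6bd702_occ.TwoUpDet

/-!
# An occupied cell of a window gives two strands and a corridor across the annuli around it
-/

set_option autoImplicit false

namespace Pool.Agent.Occ

open Relation Pool.Agent.Perc Pool.Agent.PercD Pool.Agent.Perc3 Pool.Agent.Perc6
open Pool.Agent.PercS5 (Ev Av shE shE' shE_shE' MM_shift MM_unshift PathP SegP Stp Adj trim
  exists_path first_exit')

variable {ω : Cfg} {col x y M q η d w D : ℤ} {z : ℤ × ℤ} {K : ℕ}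

/-- The corner of the cell. -/
def zc (x y M q η : ℤ) (z : ℤ × ℤ) : ℤ × ℤ :=
  (x + q * η * (M + z.1), y + q * η * (M + z.2))

theorem mem_Wd {f : ℤ × ℤ} : f ∈ Wd x y M q η ↔ x ≤ f.1 ∧ f.1 < x + 4 * (M * q * η) ∧ y ≤ f.2 ∧
    f.2 < y + 4 * (M * q * η) := by
  unfold Wd
  exact Perc.mem_RF

/-- The point is at distance more than `h` from the vertices of the cluster. -/
def Pf (ω : Cfg) (col x y s h : ℤ) (z p : ℤ × ℤ) : Prop :=
  ∀ r : ℤ × ℤ, par r = col → Rim ω x y s r → h < max |p.1 + z.1 - r.1| |p.2 + z.2 - r.2|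

theorem sq_step {s h : ℤ} {z : ℤ × ℤ} (h0 : 0 ≤ h) (hh : 2 * h ≤ η) (t t' : ℤ × ℤ)
    (hs : Stp (FreeSq ω col x y s η) t t') :
    ∃ v, SegP (Pf ω col x y s h z) (cg η (z.1 - x - h, z.2 - y - h) t) v ∧
      SegP (Pf ω col x y s h z) v (cg η (z.1 - x - h, z.2 - y - h) t') := by
  obtain ⟨hadj, ⟨-, hf⟩, ⟨-, hf'⟩⟩ := hs
  have e1 : ∀ i : ℤ, η * (i + 1) = η * i + η := fun i => by ring
  have e2 : ∀ i : ℤ, i * η = η * i := fun i => by ring
  refine ⟨_, ⟨Or.inl rfl, ?_⟩, ?_, ?_⟩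
  · intro p p1 p2 p3 p4 r hr hR
    rw [min_self] at p1 p3
    rw [max_self] at p2 p4
    have h1 := hf r
    unfold cg at p1 p2 p3 p4
    simp only at p1 p2 p3 p4
    rw [e2] at p1 p2 p3 p4
    rw [e1, e1] at h1
    have h2 : ¬ (x + η * t.1 ≤ r.1 ∧ r.1 ≤ x + (η * t.1 + η) ∧ y + η * t.2 ≤ r.2 ∧
        r.2 ≤ y + (η * t.2 + η)) := fun h => h1 h.1 h.2.1 h.2.2.1 h.2.2.2 hr hR
    rw [lt_max_iff, lt_abs, lt_abs]
    omega
  · unfold cg
    simp only
    rcases hadj with ⟨h, -⟩ | ⟨-, h⟩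
    · left; rw [h]
    · right; rw [h]
  · intro p p1 p2 p3 p4 r hr hR
    have h1 := hf r
    have h1' := hf' r
    unfold cg at p1 p2 p3 p4
    simp only at p1 p2 p3 p4
    rw [e2, e2] at p1 p2 p3 p4
    rw [e1, e1] at h1 h1'
    have h2 : ¬ (x + η * t.1 ≤ r.1 ∧ r.1 ≤ x + (η * t.1 + η) ∧ y + η * t.2 ≤ r.2 ∧
        r.2 ≤ y + (η * t.2 + η)) := fun h => h1 h.1 h.2.1 h.2.2.1 h.2.2.2 hr hR
    have h2' : ¬ (x + η * t'.1 ≤ r.1 ∧ r.1 ≤ x + (η * t'.1 + η) ∧ y + η * t'.2 ≤ r.2 ∧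
        r.2 ≤ y + (η * t'.2 + η)) := fun h => h1' h.1 h.2.1 h.2.2.1 h.2.2.2 hr hR
    rw [lt_max_iff, lt_abs, lt_abs]
    clear h1 h1' hf hf'
    rcases hadj with ⟨e, h⟩ | ⟨h, e⟩
    · rw [e] at p1 p2 h2
      rw [abs_eq (by norm_num)] at h
      rw [min_self] at p1
      rw [max_self] at p2
      rcases h with h | h
      · have e3 : η * t.2 = η * t'.2 + η := by
          rw [show t.2 = t'.2 + 1 by omega]; ring
        rw [e3] at p3 p4 h2
        rw [min_eq_right (by omega)] at p3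
        rw [max_eq_left (by omega)] at p4
        omega
      · have e3 : η * t'.2 = η * t.2 + η := by
          rw [show t'.2 = t.2 + 1 by omega]; ring
        rw [e3] at p3 p4 h2'
        rw [min_eq_left (by omega)] at p3
        rw [max_eq_right (by omega)] at p4
        omega
    · rw [e] at p3 p4 h2
      rw [abs_eq (by norm_num)] at h
      rw [min_self] at p3
      rw [max_self] at p4
      rcases h with h | h
      · have e3 : η * t.1 = η * t'.1 + η := by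
          rw [show t.1 = t'.1 + 1 by omega]; ring
        rw [e3] at p1 p2 h2
        rw [min_eq_right (by omega)] at p1
        rw [max_eq_left (by omega)] at p2
        omega
      · have e3 : η * t'.1 = η * t.1 + η := by
          rw [show t'.1 = t.1 + 1 by omega]; ring
        rw [e3] at p1 p2 h2'
        rw [min_eq_left (by omega)] at p1
        rw [max_eq_right (by omega)] at p2
        omega

theorem cor_of_side {f' z₀ u u' : ℤ × ℤ} {s : UE} (hsd : IsSide f' s)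
    (hj : Joins (shE z₀ s) u u') : (u.1 = f'.1 + z₀.1 ∨ u.1 = f'.1 + z₀.1 + 1) ∧
      (u.2 = f'.2 + z₀.2 ∨ u.2 = f'.2 + z₀.2 + 1) := by
  obtain ⟨f1, f2⟩ := f'
  obtain ⟨u1, u2⟩ := u
  rcases hsd with rfl | rfl | rfl | rfl
  · simp only [shE, bo] at hj
    rcases hj with ⟨h, -⟩ | ⟨h, -⟩
    · rw [ua_mk, Prod.mk.injEq] at h; simp only; omega
    · rw [ub_false, Prod.mk.injEq] at h; simp only; omega
  · simp only [shE, le'] at hj
    rcases hj with ⟨h, -⟩ | ⟨h, -⟩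
    · rw [ua_mk, Prod.mk.injEq] at h; simp only; omega
    · rw [ub_true, Prod.mk.injEq] at h; simp only; omega
  · simp only [shE, to'] at hj
    rcases hj with ⟨h, -⟩ | ⟨h, -⟩
    · rw [ua_mk, Prod.mk.injEq] at h; simp only; omega
    · rw [ub_false, Prod.mk.injEq] at h; simp only; omega
  · simp only [shE, ri] at hj
    rcases hj with ⟨h, -⟩ | ⟨h, -⟩
    · rw [ua_mk, Prod.mk.injEq] at h; simp only; omega
    · rw [ub_true, Prod.mk.injEq] at h; simp only; omega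

/-- **The deterministic statement.** -/
theorem ev_of_occAt (hM : 1 ≤ M) (hq : 1 ≤ q) (h1η : 2 ≤ η) (hD : 2 * (D + 1) ≤ η)
    (hmid : MidZ M z) (hocc : OccAt ω col x y M q η z) (hd : 2 * (q * η) ≤ d) (hdw : d < w)
    (hw : w ≤ M * q * η) (hK : 2 * w < K * η) :
    shiftC (zc x y M q η z).1 (zc x y M q η z).2 ω ∈ Ev w w d D (2 * K ^ 2) := by
  obtain ⟨⟨b, p, p', hj, hp, hpc, hpc', ⟨v, hv, hv2⟩, v', hv', hv2'⟩, t, t', ht, ht0, hft,
    hchain⟩ := hocc
  set z₀ : ℤ × ℤ := zc x y M q η z with hz₀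
  set T : ℤ := M * q * η with hT
  set a : ℤ := q * η with ha
  have ha2 : 2 ≤ a := by nlinarith
  have hηa : η ≤ a := by nlinarith
  have haT : a ≤ T := by
    have : T = M * a := by rw [hT, ha]; ring
    rw [this]; nlinarith [hM]
  obtain ⟨m1, m2, m3, m4⟩ := hmid
  have hz1 : z₀.1 = x + a * (M + z.1) := rfl
  have hz2 : z₀.2 = y + a * (M + z.2) := rfl
  have hMa : a * M = T := by rw [hT, ha]; ring
  have pos : ∀ i : ℤ, 3 * M ≤ 4 * i → 4 * i < 5 * M →
      7 * T ≤ 4 * (a * (M + i)) ∧ 4 * (a * (M + i)) < 9 * T := by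
    intro i h1 h2
    have e : a * (M + i) = T + a * i := by rw [← hMa]; ring
    have h3 : a * (3 * M) ≤ a * (4 * i) := mul_le_mul_of_nonneg_left h1 (by omega)
    have h4 : a * (4 * i) < a * (5 * M) := mul_lt_mul_of_pos_left h2 (by omega)
    have e3 : a * (3 * M) = 3 * T := by rw [← hMa]; ring
    have e4 : a * (4 * i) = 4 * (a * i) := by ring
    have e5 : a * (5 * M) = 5 * T := by rw [← hMa]; ring
    rw [e]
    omega
  have hp1 := pos _ m1 m2
  have hp2 := pos _ m3 m4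
  have hw0 : 0 < w := by omega
  set A1 : ℤ := a * (M + z.1) with hA1
  set A2 : ℤ := a * (M + z.2) with hA2
  -- the box is in the window
  have hbox : ∀ f : ℤ × ℤ, f ∈ BR z₀ w → f ∈ Wd x y M q η := by
    intro f hf
    rw [mem_BR, hz1, hz2] at hf
    rw [mem_Wd]
    omega
  -- the unit edge in the cell
  have hcell : ∀ p : ℤ × ℤ, InCell x y M q η z p →
      (x + A1 ≤ p.1 ∧ p.1 ≤ x + A1 + a) ∧ y + A2 ≤ p.2 ∧ p.2 ≤ y + A2 + a := by
    rintro p ⟨h1, h2, h3, h4⟩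
    have e1 : q * η * (M + z.1) = A1 := rfl
    have e2 : q * η * (M + z.2) = A2 := rfl
    have e3 : q * η * (M + z.1 + 1) = A1 + a := by rw [hA1, ha]; ring
    have e4 : q * η * (M + z.2 + 1) = A2 + a := by rw [hA2, ha]; ring
    rw [e1] at h1
    rw [e2] at h3
    rw [e3] at h2
    rw [e4] at h4
    omega
  have hc := hcell p hpc
  have hc' := hcell p' hpc'
  have hbin : InE z₀ (2 * a) b := by
    unfold InE InR
    rw [hz1, hz2]
    rcases hj with ⟨rfl, rfl⟩ | ⟨rfl, rfl⟩ <;> omega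
  -- the component reaches the boundary of the window
  have hpR : InR x (x + 4 * T) y (y + 4 * T) p := by unfold InR; omega
  have hpR' : InR x (x + 4 * T) y (y + 4 * T) p' := by unfold InR; omega
  have hOn : ∀ p v : ℤ × ℤ, InR x (x + 4 * T) y (y + 4 * T) p →
      Conn ω (RF x (x + 4 * T) y (y + 4 * T)) p v → (v.2 = y + 4 * T ∨ v.2 = y) →
      ToBd x (x + 4 * T) y (y + 4 * T) ω p := by
    intro p v hp hv h
    refine ⟨v, hv, ?_⟩
    have hin : InR x (x + 4 * T) y (y + 4 * T) v := by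
      rcases Relation.ReflTransGen.cases_tail hv with h1 | ⟨b, -, hb⟩
      · rw [h1]; exact hp
      · obtain ⟨f, hf, -, -, h2⟩ := hb.exists_face
        exact IsCor.inR hf h2
    unfold InR at hin
    unfold OnBd
    omega
  obtain ⟨e, he, hebd⟩ := exists_tip hj hpR hpR' (by omega) (by omega)
    (hOn p v hpR hv (Or.inl hv2)) (hOn p' v' hpR' hv' (Or.inr hv2'))
  -- the component reaches the boundary of the box
  have hInK : ∀ x, x ∈ MM ω (BR z₀ w) b → InE z₀ w x := by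
    intro x hx
    induction hx with
    | refl =>
      unfold InE InR at hbin ⊢
      omega
    | tail _ hs _ =>
      obtain ⟨f, hf, hm⟩ := hs
      exact inE_of_side hf hm.right
  have hreach : ∃ t ∈ MM ω (BR z₀ w) b, BdR z₀ w t := by
    rcases first_exit' (F := (BR z₀ w : Set (ℤ × ℤ))) he with h2 | ⟨t, ht, f', -, hf', hsd⟩
    · exfalso
      have h3 := hInK _ h2
      unfold InE InR at h3
      rw [hz1, hz2] at h3
      obtain ⟨e1, e2, s⟩ := e
      unfold BdE at hebd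
      simp only at hebd
      rcases hebd with ⟨rfl, h4, h5, h6⟩ | ⟨rfl, h4, h5, h6⟩
      · rw [ua_mk, ub_false] at h3
        simp only at h3
        omega
      · rw [ua_mk, ub_true] at h3
        simp only at h3
        omega
    · exact ⟨t, ht, bd_of_side (hInK _ ht) hsd hf'⟩
  obtain ⟨r, hr, hrb⟩ := hreach
  -- the corridor
  set h : ℤ := η / 2 with hh
  have hh1 : 2 * h ≤ η := by omega
  have hh2 : η ≤ 2 * h + 1 := by omega
  have hchain' : ReflTransGen (Stp (FreeSq ω col x y (4 * T) η)) t t' := by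
    refine Relation.ReflTransGen.mono ?_ _ _ hchain
    rintro s s' ⟨h1, h2, h3⟩
    exact ⟨h1.imp id fun h => ⟨h.2, h.1⟩, h2, h3⟩
  set zz : ℤ × ℤ := (z₀.1 - x - h, z₀.2 - y - h) with hzz
  have hzz1 : zz.1 = A1 - h := by rw [hzz, hz1]; simp only; ring
  have hzz2 : zz.2 = A2 - h := by rw [hzz, hz2]; simp only; ring
  have hstart : ∀ i j : ℤ, q * (M + i) ≤ j → j < q * (M + i + 1) →
      a * (M + i) ≤ j * η ∧ j * η + η ≤ a * (M + i) + a := by
    intro i j h1 h2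
    have h3 := mul_le_mul_of_nonneg_right h1 (show 0 ≤ η by omega)
    have h4 := mul_le_mul_of_nonneg_right (show j + 1 ≤ q * (M + i + 1) by omega)
      (show 0 ≤ η by omega)
    have e1 : q * (M + i) * η = a * (M + i) := by rw [ha]; ring
    have e2 : q * (M + i + 1) * η = a * (M + i) + a := by rw [ha]; ring
    have e3 : (j + 1) * η = j * η + η := by ring
    rw [e1] at h3
    rw [e2, e3] at h4
    exact ⟨h3, h4⟩
  have hs1 := hstart _ _ ht.1 ht.2.1
  have hs2 := hstart _ _ ht.2.2.1 ht.2.2.2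
  rw [← hA1] at hs1
  rw [← hA2] at hs2
  have hga : t ∈ cS η w zz := by
    rw [mem_cS (by omega)]
    unfold cg
    simp only
    rw [abs_le, abs_le, hzz1, hzz2]
    omega
  have hhb : t' ∉ cS η w zz := by
    rw [mem_cS (by omega)]
    unfold cg
    simp only
    rw [abs_le, abs_le, hzz2, ht0]
    omega
  obtain ⟨b', l, hb', hl1, hl2, hl3⟩ := exists_path (g := cg η zz) (P := Pf ω col x y (4 * T) h z₀)
    (fun s s' hs => sq_step (by omega) hh1 s s' hs) hga hhb hchain'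
  rw [mem_cS (by omega)] at hb' hga
  obtain ⟨l', k1, k2, k3, k4⟩ := trim l (cg η zz t) (L := w) (w := w) hga.1 hga.2 hl1
    (by rw [hl2]; exact hb')
  have hin1 : |(cg η zz t).1| < d ∧ |(cg η zz t).2| < d := by
    unfold cg
    simp only
    rw [abs_lt, abs_lt, hzz1, hzz2]
    omega
  have hCorr : Corr w w d (cg η zz t) l' := ⟨PathP.rectil l' k1, hin1, k3, k4⟩
  have hFG : ∀ f ∈ (BR z₀ w : Set (ℤ × ℤ)),
      (f.1 - z₀.1, f.2 - z₀.2) ∈ (RF (-w) w (-w) w : Finset (ℤ × ℤ)) := by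
    intro f hf
    rw [mem_BR'] at hf
    rw [Perc.mem_RF]
    simp only
    omega
  have hGF : ∀ f ∈ ((RF (-w) w (-w) w : Finset (ℤ × ℤ)) : Set (ℤ × ℤ)),
      (f.1 + z₀.1, f.2 + z₀.2) ∈ (BR z₀ w : Set (ℤ × ℤ)) := by
    intro f hf
    rw [Finset.mem_coe, Perc.mem_RF] at hf
    rw [mem_BR']
    simp only
    omega
  refine ⟨shE' z₀ b, ?_, ⟨shE' z₀ r, MM_shift (fun f hf => Finset.mem_coe.2 (hFG f hf)) hr, ?_⟩,
    cg η zz t, l', hCorr, ?_, ?_⟩
  · -- the unit edge is in the inner box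
    have hc1 : 0 ≤ p.1 - z₀.1 ∧ p.1 - z₀.1 ≤ a ∧ 0 ≤ p.2 - z₀.2 ∧ p.2 - z₀.2 ≤ a := by
      rw [hz1, hz2]; omega
    have hc1' : 0 ≤ p'.1 - z₀.1 ∧ p'.1 - z₀.1 ≤ a ∧ 0 ≤ p'.2 - z₀.2 ∧ p'.2 - z₀.2 ≤ a := by
      rw [hz1, hz2]; omega
    obtain ⟨b1, b2, s⟩ := b
    unfold InE InR shE'
    rcases hj with ⟨rfl, rfl⟩ | ⟨rfl, rfl⟩
    · cases s
      · simp only [ua_mk, ub_false] at hc1 hc1' ⊢; omega
      · simp only [ua_mk, ub_true] at hc1 hc1' ⊢; omega
    · cases s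
      · simp only [ua_mk, ub_false] at hc1 hc1' ⊢; omega
      · simp only [ua_mk, ub_true] at hc1 hc1' ⊢; omega
  · obtain ⟨x, v, s⟩ := r
    unfold BdR BdE at hrb
    unfold BdE shE'
    simp only at hrb ⊢
    rcases hrb with ⟨h0, h⟩ | ⟨h0, h⟩
    · exact Or.inl ⟨h0, by omega, by omega, by omega⟩
    · exact Or.inr ⟨h0, by omega, by omega, by omega⟩
  · calc l'.length ≤ l.length := k2
      _ ≤ 2 * (cS η w zz).card := hl3
      _ ≤ 2 * K ^ 2 := Nat.mul_le_mul le_rfl (card_cS (by omega) hK zz)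
  · rintro f' ⟨hf', s, hs, hsd⟩ g hg
    have h1 := MM_unshift hGF hs
    rw [shE_shE'] at h1
    have h2 : shE z₀ s ∈ MM ω (RF x (x + 4 * T) y (y + 4 * T)) b :=
      MM_mono (fun f hf => Finset.mem_coe.2 (hbox f (Finset.mem_coe.1 hf))) h1
    obtain ⟨u, u', hju, hpu, hcu⟩ := MM_conn hj h2
    have hRim : Rim ω x y (4 * T) u := ⟨v, ((hcu.mono SS_sub).symm).trans hv, Or.inr (Or.inr hv2)⟩
    have h3 := PathP.onPath l' k1 g hg u (hpu.trans hp) hRim
    simp only at h3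
    have h4 := cor_of_side hsd hju
    rw [lt_max_iff, lt_abs, lt_abs] at h3 ⊢
    omega

end Pool.Agent.Occ
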