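import Pool.Agent.Lib.MP_6bd702_occ.BallC
import Pool.Agent.Lib.MP_6bd702_perc3.TopDone

/-!
# Bad balls are unlikely
-/

set_option autoImplicit false

namespace Pool.Agent.Occ.Ball

open Finset Relation Pool.Agent.Perc Pool.Agent.Perc.Q Pool.Agent.Perc.Q.CO
  Pool.Agent.Perc.Q.LegsAux Pool.Agent.PercT

variable {ω : Cfg} {F : Finset (ℤ × ℤ)} {e₀ a b : (ℤ × ℤ) × (ℤ × ℤ)} {f : ℤ × ℤ}
  {x₀ x₁ y₀ y₁ w R y : ℤ} {j : Fin 3}

/-- An arm in the faces of `F` which are not visited by the strand of `e₀`. -/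
def XA (F : Finset (ℤ × ℤ)) (e₀ : (ℤ × ℤ) × (ℤ × ℤ)) (p : ℤ × ℤ) (g R : ℤ) : Set Cfg :=
  {ω | ∃ u v, dT u p ≤ g ∧ R ≤ dT v p ∧
    ConnQ TQ ω ((F : Set (ℤ × ℤ)) \ Vis TQ ω (F : Set (ℤ × ℤ)) e₀) u v}

/-- An arm. -/
def BA (W : Finset (ℤ × ℤ)) (p : ℤ × ℤ) (g R : ℤ) : Set Cfg :=
  {ξ | ∃ u v, dT u p ≤ g ∧ R ≤ dT v p ∧ ConnQ TQ ξ (W : Set (ℤ × ℤ)) u v}

theorem depOn_orb (P : Set ((ℤ × ℤ) × (ℤ × ℤ)) → Prop) :
    DepOn (F : Set (ℤ × ℤ)) {ω : Cfg | P (Orb TQ ω (F : Set (ℤ × ℤ)) e₀)} := by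
  intro ω ω' h
  have : Orb TQ ω' (F : Set (ℤ × ℤ)) e₀ = Orb TQ ω (F : Set (ℤ × ℤ)) e₀ :=
    Orb_congr fun f hf => h f (Vis_sub hf)
  simp only [Set.mem_ofPred_eq, this]

theorem depOn_XA (p : ℤ × ℤ) (g R : ℤ) : DepOn (F : Set (ℤ × ℤ)) (XA F e₀ p g R) := by
  have key : ∀ ω ω' : Cfg, (∀ f ∈ (F : Set (ℤ × ℤ)), ω f = ω' f) → ω ∈ XA F e₀ p g R →
      ω' ∈ XA F e₀ p g R := by
    rintro ω ω' h ⟨u, v, h1, h2, h3⟩
    refine ⟨u, v, h1, h2, ?_⟩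
    rw [Vis_congr fun f hf => h f (Vis_sub hf)]
    exact h3.congr fun f hf => h f hf.1
  exact fun ω ω' h => ⟨key ω ω' h, key ω' ω fun f hf => (h f hf).symm⟩

/-- Exploration of the strand of `e₀`. -/
theorem pr_explore {W : Finset (ℤ × ℤ)} (hFW : F ⊆ W) (P : Set ((ℤ × ℤ) × (ℤ × ℤ)) → Prop)
    {p : ℤ × ℤ} {g R : ℤ} {q : ℝ} (hq : pr W (BA W p g R) ≤ q) :
    pr W ({ω : Cfg | P (Orb TQ ω (F : Set (ℤ × ℤ)) e₀)} ∩ XA F e₀ p g R) ≤
      q * pr W {ω : Cfg | P (Orb TQ ω (F : Set (ℤ × ℤ)) e₀)} := by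
  refine pr_mix_le (S := fun ω => Vis TQ ω (F : Set (ℤ × ℤ)) e₀)
    (fun ω ω' h => Vis_congr h) (fun ω hω ω' h => ?_) (fun _ => BA W p g R) _ (fun ω _ => hq)
    (fun ω _ ξ h => ?_)
  · simp only [Set.mem_ofPred_eq] at hω ⊢
    rw [Orb_congr h]
    exact hω
  · obtain ⟨u, v, h1, h2, h3⟩ := h
    refine ⟨u, v, h1, h2, ?_⟩
    have e1 : Vis TQ (mix (Vis TQ ω (F : Set (ℤ × ℤ)) e₀) ω ξ) (F : Set (ℤ × ℤ)) e₀ =
        Vis TQ ω (F : Set (ℤ × ℤ)) e₀ := Vis_congr fun f hf => (mix_of_mem hf).symm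
    rw [e1] at h3
    exact (h3.congr fun f hf => mix_of_notMem hf.2).mono fun f hf => hFW hf.1

theorem pr_indep {S S' W : Finset (ℤ × ℤ)} {A B : Set Cfg} (hA : DepOn (S : Set (ℤ × ℤ)) A)
    (hB : DepOn (S' : Set (ℤ × ℤ)) B) (hd : Disjoint S S') (hS : S ⊆ W) (hS' : S' ⊆ W) :
    pr W (A ∩ B) = pr S A * pr W B := by
  have h1 : DepOn ((S ∪ S' : Finset (ℤ × ℤ)) : Set (ℤ × ℤ)) (A ∩ B) := by
    intro ω ω' h
    exact and_congr (hA ω ω' fun f hf => h f (by rw [mem_coe] at hf ⊢; exact mem_union_left _ hf))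
      (hB ω ω' fun f hf => h f (by rw [mem_coe] at hf ⊢; exact mem_union_right _ hf))
  rw [pr_eq_of_depOn h1 (union_subset hS hS'), pr_inter_of_disjoint hA hB hd,
    pr_eq_of_depOn hB hS']

theorem dT_corner (f : ℤ × ℤ) (k : ZMod 4) (hf : 0 ≤ f.2) :
    (f.1 ≤ (TQ.c f k).1 ∧ (TQ.c f k).1 ≤ f.1 + 1) ∧ f.2 ≤ (TQ.c f k).2 ∧ (TQ.c f k).2 ≤ f.2 + 1 := by
  rw [cT hf, ZQ_c]
  rcases k4_cases k with rfl | rfl | rfl | rfl
  · rw [cor0_0]; omega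
  · rw [cor0_1]; simp only; omega
  · rw [cor0_2]; simp only; omega
  · rw [cor0_3]; simp only; omega

theorem corner_low (g : ℤ × ℤ) (k : ZMod 4) (hg : g.2 < 0) : (TQ.c g k).2 ≤ 0 := by
  change (corT emP g k).2 ≤ 0
  rw [corT_low hg]
  have h : (cor0 g k).2 ≤ 0 := by
    rcases k4_cases k with rfl | rfl | rfl | rfl
    · rw [cor0_0]; omega
    · rw [cor0_1]; simp only; omega
    · rw [cor0_2]; simp only; omega
    · rw [cor0_3]; simp only; omega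
  unfold twV
  split_ifs
  · exact le_rfl
  · exact h

/-- The bad ball on the right side. -/
theorem bad_right {r : ℤ} (hw : 64 ≤ w) (h1 : w ≤ 4 * y) (h2 : 2 * y < w) (hr : r ≤ w / 8)
    (hf : f ∈ Vis TQ ω (BW w) (leg j)) (hfr : f ∈ FbR w r y)
    (hbad : f ∉ Vis TQ ω (FbR w (w / 8) y : Set (ℤ × ℤ)) (ine w y)) :
    ω ∈ XA (FbR w (w / 8) y) (ine w y) (w, y) (r + 1) (w / 8 - 1) := by
  have hF : FbR w (w / 8) y ⊆ BW w := by
    intro f hf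
    unfold FbR at hf
    rw [rf_iff] at hf
    rw [BdAux.mem_BW]
    omega
  have hfr' := hfr
  unfold FbR at hfr'
  rw [rf_iff] at hfr'
  have hfF : f ∈ FbR w (w / 8) y := by
    unfold FbR
    rw [rf_iff]
    omega
  have hfar : ∀ g ∈ BW w, g ∉ FbR w (w / 8) y → ∀ k, w / 8 - 1 ≤ dT (TQ.c g k) (w, y) := by
    intro g hg hgF k
    unfold FbR at hgF
    rw [rf_iff] at hgF
    rw [BdAux.mem_BW] at hg
    rw [le_dT]
    rcases lt_or_ge g.2 0 with h3 | h3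
    · have := corner_low g k h3
      simp only
      omega
    · have := dT_corner g k h3
      simp only
      omega
  have hcore : ∀ x, Core x → w / 8 - 1 ≤ dT (x, 0) (w, y) := by
    intro x hx
    unfold Core at hx
    rw [le_dT]
    simp only
    omega
  obtain ⟨u, v, ⟨k, rfl⟩, hv, hc⟩ := arm_gen (R := w / 8 - 1) (p := (w, y)) rfl
    (by omega) (by omega) hF (ini_BW (by omega) (by omega) (by omega) hF) hf hfF hbad hfar hcore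
  refine ⟨_, v, ?_, hv, hc⟩
  have := dT_corner f k (by omega)
  rw [dT_le]
  simp only
  omega

/-- The bad ball on the left side. -/
theorem bad_left {r : ℤ} (hw : 64 ≤ w) (h1 : w ≤ 4 * y) (h2 : 2 * y < w) (hr : r ≤ w / 8)
    (hf : f ∈ Vis TQ ω (BW w) (leg j)) (hfr : f ∈ FbL w r y)
    (hbad : f ∉ Vis TQ ω (FbL w (w / 8) y : Set (ℤ × ℤ)) (ine w (4 * w + 1 - y))) :
    ω ∈ XA (FbL w (w / 8) y) (ine w (4 * w + 1 - y)) (-(w + 2), y) (r + 1) (w / 8 - 1) := by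
  have hF : FbL w (w / 8) y ⊆ BW w := by
    intro f hf
    unfold FbL at hf
    rw [rf_iff] at hf
    rw [BdAux.mem_BW]
    omega
  have hfr' := hfr
  unfold FbL at hfr'
  rw [rf_iff] at hfr'
  have hfF : f ∈ FbL w (w / 8) y := by
    unfold FbL
    rw [rf_iff]
    omega
  have hfar : ∀ g ∈ BW w, g ∉ FbL w (w / 8) y → ∀ k, w / 8 - 1 ≤ dT (TQ.c g k) (-(w + 2), y) := by
    intro g hg hgF k
    unfold FbL at hgF
    rw [rf_iff] at hgF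
    rw [BdAux.mem_BW] at hg
    rw [le_dT]
    rcases lt_or_ge g.2 0 with h3 | h3
    · have := corner_low g k h3
      simp only
      omega
    · have := dT_corner g k h3
      simp only
      omega
  have hcore : ∀ x, Core x → w / 8 - 1 ≤ dT (x, 0) (-(w + 2), y) := by
    intro x hx
    unfold Core at hx
    rw [le_dT]
    simp only
    omega
  obtain ⟨u, v, ⟨k, rfl⟩, hv, hc⟩ := arm_gen (R := w / 8 - 1) (p := (-(w + 2), y)) rfl
    (by omega) (by omega) hF (ini_BW (by omega) (by omega) (by omega) hF) hf hfF hbad hfar hcore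
  refine ⟨_, v, ?_, hv, hc⟩
  have := dT_corner f k (by omega)
  rw [dT_le]
  simp only
  omega

/-- The event `ER` in terms of the orbit in the twisted plane. -/
theorem er_eq (hw : 64 ≤ w) (h1 : w ≤ 4 * y) (h2 : 2 * y < w) :
    ER w y = {ω : Cfg | ∃ c ∈ Orb TQ ω (FbR w (w / 8) y : Set (ℤ × ℤ)) (ine w y),
      Ter ZQ (FbR w (w / 8) y : Set (ℤ × ℤ)) c ∧ ¬ (c.1.1 = w ∧ c.2.1 = w)} := by
  have hup : ∀ f ∈ (FbR w (w / 8) y : Set (ℤ × ℤ)), 0 ≤ f.2 := by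
    intro f hf
    unfold FbR at hf
    rw [mem_coe, rf_iff] at hf
    omega
  ext ω
  unfold ER
  rw [Set.mem_ofPred_eq, Set.mem_ofPred_eq, orb_TZ hup, ine_right (by omega) (by omega) (by omega)]

theorem el_eq (hw : 64 ≤ w) (h1 : w ≤ 4 * y) (h2 : 2 * y < w) :
    EL w y = {ω : Cfg | ∃ c ∈ Orb TQ ω (FbL w (w / 8) y : Set (ℤ × ℤ)) (ine w (4 * w + 1 - y)),
      Ter ZQ (FbL w (w / 8) y : Set (ℤ × ℤ)) c ∧ ¬ (c.1.1 = -(w + 2) ∧ c.2.1 = -(w + 2))} := by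
  have hup : ∀ f ∈ (FbL w (w / 8) y : Set (ℤ × ℤ)), 0 ≤ f.2 := by
    intro f hf
    unfold FbL at hf
    rw [mem_coe, rf_iff] at hf
    omega
  ext ω
  unfold EL
  rw [Set.mem_ofPred_eq, Set.mem_ofPred_eq, orb_TZ hup, ine_left (by omega) (by omega) (by omega)]

/-- One port and one height. -/
theorem pr_one {d W : Finset (ℤ × ℤ)} {A : Set Cfg} (hA : DepOn (d : Set (ℤ × ℤ)) A)
    (hd : Disjoint d F) (hdW : d ⊆ W) (hFW : F ⊆ W) (P : Set ((ℤ × ℤ) × (ℤ × ℤ)) → Prop)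
    {p : ℤ × ℤ} {g R : ℤ} {q : ℝ} (hq : pr W (BA W p g R) ≤ q) :
    pr W (A ∩ ({ω : Cfg | P (Orb TQ ω (F : Set (ℤ × ℤ)) e₀)} ∩ XA F e₀ p g R)) ≤
      pr d A * (q * pr W {ω : Cfg | P (Orb TQ ω (F : Set (ℤ × ℤ)) e₀)}) := by
  have hB : DepOn (F : Set (ℤ × ℤ))
      ({ω : Cfg | P (Orb TQ ω (F : Set (ℤ × ℤ)) e₀)} ∩ XA F e₀ p g R) := by
    intro ω ω' h
    exact and_congr (depOn_orb P ω ω' h) (depOn_XA p g R ω ω' h)
  rw [pr_indep hA hB hd hdW hFW]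
  exact mul_le_mul_of_nonneg_left (pr_explore hFW P hq) (pr_nonneg _ _)

end Pool.Agent.Occ.Ball

namespace Pool.Agent.Occ

open Finset Relation Pool.Agent.Perc Pool.Agent.Perc.Q Pool.Agent.Perc.Q.CO Ball

/-- XB -/
theorem ballLow : BallLow := by
  classical
  intro q hq
  obtain ⟨C, hC, hq3⟩ := q3_upper_done
  obtain ⟨K, w₁, hK, hKR⟩ := sum_ER
  obtain ⟨K', w₂, hK', hKL⟩ := sum_EL
  set q₁ : ℝ := q / (4 * C * (K + K')) with hq₁
  have hq₁0 : 0 < q₁ := by positivity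
  obtain ⟨M, hM, hball⟩ := ball hq₁0
  refine ⟨8 * M + 16, w₁ + w₂ + 64, by omega, fun r w hw hr hrw => ?_⟩
  have hrM : M * (r + 1) ≤ w / 4 := by
    have h1 : M * (r + 1) ≤ M * (2 * r) := Nat.mul_le_mul_left _ (by omega)
    have h2 : 4 * (M * (2 * r)) ≤ (8 * M + 16) * r := by nlinarith
    omega
  have hr8 : r ≤ w / 8 := by
    have : 16 * r ≤ (8 * M + 16) * r := Nat.mul_le_mul_right _ (by omega)
    omega
  set W : Finset (ℤ × ℤ) := BW ((2 * w : ℕ) : ℤ) with hW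
  set d : ℕ := w / 2 with hd
  have hd1 : 1 ≤ d := by omega
  have hwd : w ≤ 4 * d := by omega
  have c1 : (64 : ℤ) ≤ w := by exact_mod_cast (by omega : 64 ≤ w)
  have c8 : ((w / 8 : ℕ) : ℤ) = (w : ℤ) / 8 := by push_cast; rfl
  have c4 : ((w / 4 : ℕ) : ℤ) = (w : ℤ) / 4 := by push_cast; rfl
  have cd : (d : ℤ) = (w : ℤ) / 2 := by rw [hd]; push_cast; rfl
  have c2 : ((2 * w : ℕ) : ℤ) = 2 * (w : ℤ) := by push_cast; ring
  have hr8' : (r : ℤ) ≤ (w : ℤ) / 8 := by rw [← c8]; exact_mod_cast hr8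
  -- the arm
  have harm : ∀ p : ℤ × ℤ, (w : ℤ) ≤ max |p.1| |p.2| →
      pr W (BA W p ((r : ℤ) + 1) ((w : ℤ) / 8 - 1)) ≤ q₁ := by
    intro p hp
    have h1 := hball (r + 1) (w / 4) (by omega) hrM p W (le_trans (by
      exact_mod_cast Nat.div_le_self w 4) hp)
    refine (pr_mono W ?_).trans h1
    rintro ξ ⟨u, v, a1, a2, a3⟩
    refine ⟨u, v, by push_cast; exact a1, le_trans ?_ a2, a3⟩
    have : w / 4 / 4 ≤ w / 8 - 1 := by omega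
    have h2 : ((w / 4 / 4 : ℕ) : ℤ) ≤ ((w / 8 - 1 : ℕ) : ℤ) := by exact_mod_cast this
    rw [Nat.cast_sub (by omega), c8] at h2
    exact_mod_cast h2
  have hA : DepOn (BW (d : ℤ) : Set (ℤ × ℤ)) (Arm3 (d : ℤ)) := depOn_arm3' (d : ℤ)
  have hdW : BW (d : ℤ) ⊆ W := BW_sub (by rw [c2]; omega)
  -- right
  have hR : ∀ y ∈ Hts (w : ℤ), pr W (Arm3 (d : ℤ) ∩ (ER w y ∩
      XA (FbR w ((w : ℤ) / 8) y) (ine w y) (w, y) ((r : ℤ) + 1) ((w : ℤ) / 8 - 1))) ≤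
        q3 d * (q₁ * pr W (ER w y)) := by
    intro y hy
    unfold Hts at hy
    rw [mem_filter, mem_Ico] at hy
    rw [er_eq c1 hy.2.1 hy.2.2]
    refine pr_one hA ?_ hdW ?_ (fun O => ∃ c ∈ O,
      Ter ZQ (FbR (w : ℤ) ((w : ℤ) / 8) y : Set (ℤ × ℤ)) c ∧ ¬ (c.1.1 = (w : ℤ) ∧ c.2.1 = w))
      (harm _ ?_)
    · rw [disjoint_left]
      intro f hf hf'
      unfold FbR at hf'
      rw [rf_iff] at hf'
      rw [BdAux.mem_BW] at hf
      omega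
    · intro f hf
      unfold FbR at hf
      rw [rf_iff] at hf
      rw [hW, BdAux.mem_BW, c2]
      omega
    · simp only
      exact le_max_of_le_left (le_abs_self _)
  have hL : ∀ y ∈ Hts (w : ℤ), pr W (Arm3 (d : ℤ) ∩ (Ball.EL w y ∩
      XA (FbL w ((w : ℤ) / 8) y) (ine w (4 * w + 1 - y)) (-((w : ℤ) + 2), y) ((r : ℤ) + 1)
        ((w : ℤ) / 8 - 1))) ≤ q3 d * (q₁ * pr W (Ball.EL w y)) := by
    intro y hy
    unfold Hts at hy
    rw [mem_filter, mem_Ico] at hy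
    rw [el_eq c1 hy.2.1 hy.2.2]
    refine pr_one hA ?_ hdW ?_ (fun O => ∃ c ∈ O,
      Ter ZQ (FbL (w : ℤ) ((w : ℤ) / 8) y : Set (ℤ × ℤ)) c ∧
        ¬ (c.1.1 = -((w : ℤ) + 2) ∧ c.2.1 = -((w : ℤ) + 2)))
      (harm _ ?_)
    · rw [disjoint_left]
      intro f hf hf'
      unfold FbL at hf'
      rw [rf_iff] at hf'
      rw [BdAux.mem_BW] at hf
      omega
    · intro f hf
      unfold FbL at hf
      rw [rf_iff] at hf
      rw [hW, BdAux.mem_BW, c2]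
      omega
    · simp only
      exact le_max_of_le_left (by rw [abs_neg]; exact le_trans (by omega) (le_abs_self _))
  -- inclusion
  have hincl : ∀ ω ∈ Arm3 ((2 * w : ℕ) : ℤ) ∩ BallBad w r,
      ω ∈ {ω | ∃ y ∈ Hts (w : ℤ), ω ∈ Arm3 (d : ℤ) ∩ (ER w y ∩
        XA (FbR w ((w : ℤ) / 8) y) (ine w y) (w, y) ((r : ℤ) + 1) ((w : ℤ) / 8 - 1))} ∪
      {ω | ∃ y ∈ Hts (w : ℤ), ω ∈ Arm3 (d : ℤ) ∩ (Ball.EL w y ∩
      XA (FbL w ((w : ℤ) / 8) y) (ine w (4 * w + 1 - y)) (-((w : ℤ) + 2), y) ((r : ℤ) + 1)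
        ((w : ℤ) / 8 - 1))} := by
    rintro ω ⟨hω, i, ya, yb, ⟨hp, ⟨-, ht1⟩, ⟨-, ht2⟩⟩, hbad⟩
    have hω' : ω ∈ Arm3 (d : ℤ) := arm3Anti d (2 * w) hd1 (by omega) ω hω
    unfold Ports at hp
    rw [mem_filter, mem_product, mem_Ico, mem_Ico] at hp
    obtain ⟨⟨p1, p2⟩, p3, p4, p5, p6, -⟩ := hp
    simp only at p1 p2 p3 p4 p5 p6
    rcases hbad with ⟨f, hf, hfr, hb⟩ | ⟨f, hf, hfr, hb⟩
    · left
      refine ⟨ya, by unfold Hts; rw [mem_filter, mem_Ico]; exact ⟨p1, p3, p4⟩, hω',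
        er_of_tip c1 p3 p4 ht1, ?_⟩
      rcases hf with hf | hf
      · exact bad_right c1 p3 p4 hr8' hf hfr hb
      · exact bad_right c1 p3 p4 hr8' hf hfr hb
    · right
      refine ⟨yb, by unfold Hts; rw [mem_filter, mem_Ico]; exact ⟨p2, p5, p6⟩, hω',
        el_of_tip c1 p5 p6 ht2, ?_⟩
      rcases hf with hf | hf
      · exact bad_left c1 p5 p6 hr8' hf hfr hb
      · exact bad_left c1 p5 p6 hr8' hf hfr hb
  have hsR := hKR w (by omega) W (by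
    intro f hf
    rw [rf_iff] at hf
    rw [hW, BdAux.mem_BW, c2]
    omega)
  have hsL := hKL w (by omega) W (by
    intro f hf
    rw [rf_iff] at hf
    rw [hW, BdAux.mem_BW, c2]
    omega)
  have h3 := hq3 d hd1
  have h4 : q3 d * q₁ * (K + K') ≤ q * (w : ℝ) ^ (-(2 / 3) : ℝ) := by
    have e1 : (d : ℝ) ^ (-(2 / 3 : ℝ)) ≤ 4 * (w : ℝ) ^ (-(2 / 3) : ℝ) := by
      have hw0 : (0 : ℝ) < w := by exact_mod_cast (by omega : 0 < w)
      have h5 : (w : ℝ) / 4 ≤ d := by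
        have : (w : ℝ) ≤ 4 * d := by exact_mod_cast hwd
        linarith
      calc (d : ℝ) ^ (-(2 / 3 : ℝ)) ≤ ((w : ℝ) / 4) ^ (-(2 / 3 : ℝ)) :=
            Real.rpow_le_rpow_of_nonpos (by positivity) h5 (by norm_num)
        _ = (w : ℝ) ^ (-(2 / 3) : ℝ) * (4 : ℝ) ^ (2 / 3 : ℝ) := by
            rw [Real.div_rpow hw0.le (by norm_num), div_eq_mul_inv, ← Real.rpow_neg (by norm_num),
              neg_neg]
        _ ≤ (w : ℝ) ^ (-(2 / 3) : ℝ) * 4 := by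
            refine mul_le_mul_of_nonneg_left ?_ (by positivity)
            calc (4 : ℝ) ^ (2 / 3 : ℝ) ≤ (4 : ℝ) ^ (1 : ℝ) :=
                  Real.rpow_le_rpow_of_exponent_le (by norm_num) (by norm_num)
              _ = 4 := Real.rpow_one 4
        _ = 4 * (w : ℝ) ^ (-(2 / 3) : ℝ) := mul_comm _ _
    calc q3 d * q₁ * (K + K') ≤ (C * (d : ℝ) ^ (-(2 / 3 : ℝ))) * q₁ * (K + K') :=
          mul_le_mul_of_nonneg_right (mul_le_mul_of_nonneg_right h3 hq₁0.le) (by positivity)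
      _ ≤ (C * (4 * (w : ℝ) ^ (-(2 / 3) : ℝ))) * q₁ * (K + K') :=
          mul_le_mul_of_nonneg_right (mul_le_mul_of_nonneg_right
            (mul_le_mul_of_nonneg_left e1 hC.le) hq₁0.le) (by positivity)
      _ = q * (w : ℝ) ^ (-(2 / 3) : ℝ) := by
          rw [hq₁]
          field_simp
  refine le_trans ?_ h4
  have h6 := (pr_mono W hincl).trans (pr_union_le W _ _)
  refine h6.trans ?_
  have h7 := (PercL.pr_biUnion_le (W := W) (Hts (w : ℤ)) (fun y => Arm3 (d : ℤ) ∩ (ER w y ∩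
        XA (FbR w ((w : ℤ) / 8) y) (ine w y) (w, y) ((r : ℤ) + 1) ((w : ℤ) / 8 - 1)))).trans
      (sum_le_sum hR)
  have h8 := (PercL.pr_biUnion_le (W := W) (Hts (w : ℤ)) (fun y => Arm3 (d : ℤ) ∩ (Ball.EL w y ∩
        XA (FbL w ((w : ℤ) / 8) y) (ine w (4 * w + 1 - y)) (-((w : ℤ) + 2), y) ((r : ℤ) + 1)
        ((w : ℤ) / 8 - 1)))).trans (sum_le_sum hL)
  rw [← mul_sum, ← mul_sum] at h7 h8
  have hq30 : 0 ≤ q3 d := q3_nonneg d
  have h9 : q3 d * (q₁ * ∑ y ∈ Hts (w : ℤ), pr W (ER w y)) ≤ q3 d * (q₁ * K) :=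
    mul_le_mul_of_nonneg_left (mul_le_mul_of_nonneg_left hsR hq₁0.le) hq30
  have h10 : q3 d * (q₁ * ∑ y ∈ Hts (w : ℤ), pr W (Ball.EL w y)) ≤ q3 d * (q₁ * K') :=
    mul_le_mul_of_nonneg_left (mul_le_mul_of_nonneg_left hsL hq₁0.le) hq30
  calc _ ≤ q3 d * (q₁ * K) + q3 d * (q₁ * K') := add_le_add (h7.trans h9) (h8.trans h10)
    _ = q3 d * q₁ * (K + K') := by ring

end Pool.Agent.Occ
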