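import Pool.Agent.Lib.MP_6bd702_perc3.StrandRect
import Pool.Agent.Lib.MP_6bd702_perc3.Legs

/-!
# A fresh arm near a tip: deterministic part, in a complex of quadrangles
-/

set_option autoImplicit false

namespace Pool.Agent.Occ.Ball

open Finset Relation Pool.Agent.Perc Pool.Agent.Perc.Q

variable {V Φ : Type} {Q : QC V Φ} {ω : Φ → Bool} {F G : Set Φ} {e e₀ a b : V × V} {f : Φ}
  {k : ZMod 4}

theorem nx_out (h : Nx Q ω F a b) : ∃ f ∈ F, ∃ k, b = (Q.c f (k + 1), Q.c f k) := by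
  obtain ⟨f, hf, k, -, ⟨-, rfl⟩ | ⟨-, rfl⟩⟩ := h
  · exact ⟨f, hf, k + 1, by rw [z1]⟩
  · exact ⟨f, hf, k + 3, by rw [add_assoc, show (3 : ZMod 4) + 1 = 0 from rfl, add_zero]⟩

theorem ini_of_out {g : Φ} (hg : g ∉ F) (k : ZMod 4) : Ini Q F (Q.c g (k + 1), Q.c g k) := by
  intro f hf l h
  simp only [Prod.mk.injEq] at h
  exact hg ((Q.inj h.2 h.1).1 ▸ hf)

/-- Every mark of an orbit in `G` belongs to the orbit in `F` of an entry mark. -/
theorem exists_entry (he : Ini Q F e) (ha : a ∈ Orb Q ω G e) :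
    ∃ b ∈ Orb Q ω G e, Ini Q F b ∧ a ∈ Orb Q ω F b ∧
      (b = e ∨ ∃ g ∈ G, g ∉ F ∧ ∃ k, b = (Q.c g (k + 1), Q.c g k)) := by
  change ReflTransGen _ _ _ at ha
  induction ha with
  | refl => exact ⟨e, ReflTransGen.refl, he, ReflTransGen.refl, Or.inl rfl⟩
  | @tail c d hc hs ih =>
    obtain ⟨f, hf, k, h1, h2⟩ := hs
    by_cases hF : f ∈ F
    · obtain ⟨b, i1, i2, i3, i4⟩ := ih
      exact ⟨b, i1, i2, ReflTransGen.tail i3 ⟨f, hF, k, h1, h2⟩, i4⟩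
    · obtain ⟨g, hg, l, hl⟩ := nx_out (Q := Q) (ω := ω) (F := {f}) ⟨f, rfl, k, h1, h2⟩
      have hgf : g = f := hg
      subst hgf
      refine ⟨d, ReflTransGen.tail hc ⟨g, hf, k, h1, h2⟩, ?_, ReflTransGen.refl,
        Or.inr ⟨g, hf, hF, l, hl⟩⟩
      rw [hl]
      exact ini_of_out hF l

/-- Reversal. -/
theorem orb_rev (ha : a ∈ Orb Q ω F e) : e.swap ∈ Orb Q ω F a.swap := by
  change ReflTransGen _ _ _ at ha
  induction ha with
  | refl => exact ReflTransGen.refl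
  | tail _ hs ih => exact ReflTransGen.head hs.rev ih

theorem un_nx (he₀ : Ini Q F e₀) (h : Nx Q ω F a b) : a ∈ Un Q ω F e₀ ↔ b ∈ Un Q ω F e₀ := by
  obtain ⟨f, hf, k, rfl, ⟨h1, rfl⟩ | ⟨h1, rfl⟩⟩ := h
  · rw [un_iff he₀ hf h1, ← Un_swap (a := (Q.c f (k + 1), Q.c f (k + 2)))]
    rfl
  · have h2 : ω f = ev (k + 3) := by rw [h1, ev_add_three]
    have h3 := un_iff he₀ hf h2
    rw [add_assoc, add_assoc, show (3 : ZMod 4) + 1 = 0 from rfl,
      show (3 : ZMod 4) + 2 = 1 from rfl, add_zero] at h3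
    rw [← h3, ← Un_swap (a := (Q.c f (k + 3), Q.c f k))]
    rfl

theorem orb_un (he₀ : Ini Q F e₀) (h : a ∈ Orb Q ω F b) :
    b ∈ Un Q ω F e₀ ↔ a ∈ Un Q ω F e₀ := by
  change ReflTransGen _ _ _ at h
  induction h with
  | refl => exact Iff.rfl
  | tail _ hs ih => exact ih.trans (un_nx he₀ hs)

/-- A colour function on the corners. -/
def Col (Q : QC V Φ) (F : Set Φ) (κ : V → ZMod 2) : Prop :=
  ∀ f ∈ F, ∀ k, κ (Q.c f (k + 1)) = κ (Q.c f k) + 1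

theorem Col.two {κ : V → ZMod 2} (hκ : Col Q F κ) (hf : f ∈ F) (k : ZMod 4) :
    κ (Q.c f (k + 2)) = κ (Q.c f k) := by
  rw [← z1, hκ f hf, hκ f hf, add_assoc, show (1 : ZMod 2) + 1 = 0 from rfl, add_zero]

theorem Col.conn {κ : V → ZMod 2} (hκ : Col Q F κ) {u v : V} (h : ConnQ Q ω F u v) :
    κ u = κ v := by
  induction h with
  | refl => rfl
  | tail _ hb ih =>
    obtain ⟨f, hf, k, -, rfl, rfl⟩ := hb
    rw [ih, hκ.two hf]

/-- The fresh arm: a mark `a` of a face `f` which is not visited by the strand of `e₀`; the orbit of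
`b` in `F` contains `a`. Then one of the ends of `a` is joined to the same end of `b` by faces which
are not visited by the strand of `e₀`. -/
theorem fresh_arm {χ κ : V → ZMod 2} (he₀ : Ini Q F e₀)
    (hχ : ∀ f ∈ F, ∀ k, χ (Q.c f k) + χ (Q.c f (k + 1)) =
      cochain Q ω F e₀ (Q.c f k) (Q.c f (k + 1)))
    (hκ : Col Q F κ) (ha : (Q.c f k, Q.c f (k + 1)) ∈ Orb Q ω F b) (hf : f ∈ F)
    (hbad : f ∉ Vis Q ω F e₀) :
    ConnQ Q ω (F \ Vis Q ω F e₀) (Q.c f k) b.1 ∨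
      ConnQ Q ω (F \ Vis Q ω F e₀) (Q.c f (k + 1)) b.2 := by
  classical
  set φ := χ (Q.c f k) with hφ
  have hnu : (Q.c f k, Q.c f (k + 1)) ∉ Un Q ω F e₀ := fun h => hbad (vis_of_un he₀ hf h)
  have hφ' : χ (Q.c f (k + 1)) = φ := by
    have h1 := hχ f hf k
    unfold cochain at h1
    rw [if_neg hnu, ← hφ] at h1
    have h2 : ∀ x y : ZMod 2, x + y = 0 → y = x := by decide
    exact h2 _ _ h1
  set κ₂ : ZMod 2 := κ e₀.1 + 1 + φ + χ e₀.1 with hκ₂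
  -- the marks of the strand of e₀
  have hπ : ∀ g ∈ F, ∀ l, (Q.c g l, Q.c g (l + 1)) ∈ Orb Q ω F e₀ →
      ¬ (χ (Q.c g l) = φ ∧ κ (Q.c g l) = κ₂) ∧
        ¬ (χ (Q.c g (l + 1)) = φ ∧ κ (Q.c g (l + 1)) = κ₂) := by
    intro g hg l hl
    obtain ⟨m1, m2⟩ := marks hl
    have m3 := m1.mono Vis_sub
    have c1 : χ e₀.1 = χ (Q.c g l) := pot_conn he₀ hχ m3
    have c2 : κ e₀.1 = κ (Q.c g l) := hκ.conn m3
    have c3 := hχ g hg l
    have c4 := hκ g hg l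
    unfold cochain at c3
    have hun : (Q.c g l, Q.c g (l + 1)) ∈ Un Q ω F e₀ := Or.inl hl
    rw [if_pos hun] at c3
    have h2 : ∀ x y z x' z' p c : ZMod 2, z + z' = 1 → x' = x + 1 → y = z → c = x →
        ¬ (z = p ∧ x = c + 1 + p + y) ∧ ¬ (z' = p ∧ x' = c + 1 + p + y) := by decide
    exact h2 _ _ _ _ _ _ _ c3 c4 c1 c2
  -- a face of the strand of b with a bond of the colour κ₂ on the side φ is fresh
  have hfree : ∀ g ∈ F, ∀ l, ω g = ev l → χ (Q.c g l) = φ → κ (Q.c g l) = κ₂ →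
      g ∉ Vis Q ω F e₀ := by
    rintro g hg l hl h1 h2 ⟨-, m, hm⟩
    have h3 : χ (Q.c g l) = χ (Q.c g (l + 2)) :=
      pot_conn he₀ hχ (ReflTransGen.single ⟨g, hg, l, hl, rfl, rfl⟩)
    have h4 := hκ.two hg l
    obtain ⟨p1, p2⟩ := hπ g hg m hm
    rcases z4_cases m l with rfl | h | h | h
    · exact p1 ⟨h1, h2⟩
    · have hm' : m + 1 = l + 2 := by rw [h, z1]
      rw [hm', ← h3, h4] at p2
      exact p2 ⟨h1, h2⟩
    · rw [h, ← h3, h4] at p1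
      exact p1 ⟨h1, h2⟩
    · have hm' : m + 1 = l := by
        rw [h, add_assoc, show (3 : ZMod 4) + 1 = 0 from rfl, add_zero]
      rw [hm'] at p2
      exact p2 ⟨h1, h2⟩
  -- along the orbit of b
  have key : ∀ x, ReflTransGen (Nx Q ω F) x (Q.c f k, Q.c f (k + 1)) →
      (χ x.1 = φ ∧ χ x.2 = φ ∧ κ x.1 = κ (Q.c f k) ∧ κ x.2 = κ (Q.c f (k + 1))) ∧
      (κ (Q.c f k) = κ₂ → ConnQ Q ω (F \ Vis Q ω F e₀) (Q.c f k) x.1) ∧
      (κ (Q.c f (k + 1)) = κ₂ → ConnQ Q ω (F \ Vis Q ω F e₀) (Q.c f (k + 1)) x.2) := by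
    intro x hx
    induction hx using ReflTransGen.head_induction_on with
    | refl => exact ⟨⟨rfl, hφ', rfl, rfl⟩, fun _ => ReflTransGen.refl, fun _ => ReflTransGen.refl⟩
    | @head x y hs _ ih =>
      obtain ⟨⟨i1, i2, i3, i4⟩, i5, i6⟩ := ih
      obtain ⟨g, hg, l, rfl, ⟨h1, rfl⟩ | ⟨h1, rfl⟩⟩ := hs
      · simp only at i1 i2 i3 i4 i5 i6 ⊢
        have h3 : χ (Q.c g l) = χ (Q.c g (l + 2)) :=
          pot_conn he₀ hχ (ReflTransGen.single ⟨g, hg, l, h1, rfl, rfl⟩)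
        have h4 := hκ.two hg l
        refine ⟨⟨h3.trans i1, i2, h4.symm.trans i3, i4⟩, fun h => (i5 h).tail ?_, i6⟩
        have hfr := hfree g hg l h1 (h3.trans i1) (h4.symm.trans (i3.trans h))
        exact BondQ.symm ⟨g, ⟨hg, hfr⟩, l, h1, rfl, rfl⟩
      · have h1' : ω g = ev (l + 1) := by rw [h1, ev_add_one]
        simp only at i1 i2 i3 i4 i5 i6 ⊢
        have h3 : χ (Q.c g (l + 1)) = χ (Q.c g (l + 3)) := by
          have := pot_conn he₀ hχ (ReflTransGen.single ⟨g, hg, l + 1, h1', rfl, rfl⟩)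
          rwa [z2] at this
        have h4 := hκ.two hg (l + 1)
        rw [z2] at h4
        refine ⟨⟨i1, h3.trans i2, i3, h4.symm.trans i4⟩, i5, fun h => (i6 h).tail ?_⟩
        have hfr := hfree g hg (l + 1) h1' (h3.trans i2) (h4.symm.trans (i4.trans h))
        have := BondQ.symm (Q := Q) (ω := ω) (F := F \ Vis Q ω F e₀)
          ⟨g, ⟨hg, hfr⟩, l + 1, h1', rfl, rfl⟩
        rwa [z2] at this
  obtain ⟨-, k1, k2⟩ := key b ha
  have h5 := hκ f hf k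
  have h6 : ∀ x y z : ZMod 2, y = x + 1 → x = z ∨ y = z := by decide
  rcases h6 _ _ κ₂ h5 with h | h
  · exact Or.inl (k1 h)
  · exact Or.inr (k2 h)

end Pool.Agent.Occ.Ball
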