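import Pool.Agent.Lib.MP_6bd702_occ.OccDefs
import Pool.Agent.Lib.MP_6bd702_perc6_h22.BKRect

/-!
# The expected number of strands which cross the window
-/

set_option autoImplicit false

namespace Pool.Agent.Occ

open Finset Filter Pool.Agent.Perc Pool.Agent.PercL Pool.Agent.Perc3
open Pool.Agent.PercN (LT mem_LT pr_LT_le)

/-- The expected value of the number of elements of a random set, from an exponential tail. -/
theorem sum_card_le {q : ℝ} (hq : 0 < q) (hq1 : q < 1) (S : Finset (ℤ × ℤ)) (I : Finset ℤ)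
    (A : ℤ → Set Cfg) (N : Cfg → Finset ℤ) (hN : ∀ ω i, i ∈ N ω ↔ i ∈ I ∧ ω ∈ A i)
    (hT : ∀ k : ℕ, pr S {ω | 2 * k ≤ (N ω).card + 1} ≤ q ^ k) :
    ∑ t ∈ I, pr S (A t) ≤ 2 / (1 - q) := by
  classical
  have e1 : ∑ t ∈ I, pr S (A t) = (∑ T ∈ S.powerset, ((N (cfg T)).card : ℝ)) / 2 ^ S.card := by
    have : ∀ t ∈ I, pr S (A t) =
        (∑ T ∈ S.powerset, if cfg T ∈ A t then (1 : ℝ) else 0) / 2 ^ S.card := by
      intro t _
      rw [ProbA.pr_eq_sum]
    rw [sum_congr rfl this, ← sum_div, sum_comm]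
    congr 1
    refine sum_congr rfl fun T _ => ?_
    rw [Finset.sum_ite, sum_const_zero, add_zero, sum_const, nsmul_eq_mul, mul_one]
    congr 2
    ext t
    rw [mem_filter, hN]
  have e4 : ∀ T ∈ S.powerset, ((N (cfg T)).card : ℝ) ≤
      ∑ k ∈ range (I.card + 1), if 2 * (k + 1) ≤ (N (cfg T)).card + 1 then (2 : ℝ) else 0 := by
    intro T _
    have hle : (N (cfg T)).card ≤ I.card := card_le_card fun i hi => ((hN _ _).1 hi).1
    rw [Finset.sum_ite, sum_const_zero, add_zero, sum_const, nsmul_eq_mul]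
    have h1 : range (((N (cfg T)).card + 1) / 2) ⊆
        (range (I.card + 1)).filter fun k => 2 * (k + 1) ≤ (N (cfg T)).card + 1 := by
      intro k hk
      rw [mem_range] at hk
      rw [mem_filter, mem_range]
      omega
    have h2 := card_le_card h1
    rw [card_range] at h2
    have h3 : (N (cfg T)).card ≤ ((range (I.card + 1)).filter fun k =>
        2 * (k + 1) ≤ (N (cfg T)).card + 1).card * 2 := by omega
    exact_mod_cast h3
  have e5 : ∀ k : ℕ, (∑ T ∈ S.powerset, if 2 * (k + 1) ≤ (N (cfg T)).card + 1 then (2 : ℝ)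
        else 0) / 2 ^ S.card = 2 * pr S {ω | 2 * (k + 1) ≤ (N ω).card + 1} := by
    intro k
    rw [ProbA.pr_eq_sum, mul_div_assoc', mul_sum]
    refine congrArg (fun x : ℝ => x / 2 ^ S.card) (sum_congr rfl fun T _ => ?_)
    by_cases h : 2 * (k + 1) ≤ (N (cfg T)).card + 1
    · rw [if_pos h, if_pos (show cfg T ∈ {ω | 2 * (k + 1) ≤ (N ω).card + 1} from h), mul_one]
    · rw [if_neg h, if_neg (show cfg T ∉ {ω | 2 * (k + 1) ≤ (N ω).card + 1} from h), mul_zero]
  rw [e1]
  calc (∑ T ∈ S.powerset, ((N (cfg T)).card : ℝ)) / 2 ^ S.card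
      ≤ (∑ T ∈ S.powerset, ∑ k ∈ range (I.card + 1),
          if 2 * (k + 1) ≤ (N (cfg T)).card + 1 then (2 : ℝ) else 0) / 2 ^ S.card :=
        div_le_div_of_nonneg_right (sum_le_sum e4) (by positivity)
    _ = ∑ k ∈ range (I.card + 1), 2 * pr S {ω | 2 * (k + 1) ≤ (N ω).card + 1} := by
        rw [sum_comm, sum_div]
        exact sum_congr rfl fun k _ => e5 k
    _ ≤ ∑ k ∈ range (I.card + 1), 2 * q ^ k :=
        sum_le_sum fun k _ => mul_le_mul_of_nonneg_left ((hT (k + 1)).trans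
          (pow_le_pow_of_le_one hq.le hq1.le (by omega))) (by norm_num)
    _ = 2 * ∑ k ∈ range (I.card + 1), q ^ k := by rw [mul_sum]
    _ ≤ 2 * (1 - q)⁻¹ := by
        refine mul_le_mul_of_nonneg_left ?_ (by norm_num)
        rw [← tsum_geometric_of_lt_one hq.le hq1]
        exact (summable_geometric_of_lt_one hq.le hq1).sum_le_tsum _ fun i _ => by positivity
    _ = 2 / (1 - q) := by rw [div_eq_mul_inv]

/-- The right end of a strand. -/
theorem right_range {n a : ℤ} {ω : Cfg} (hna : 0 < n * a) {y y' : ℤ}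
    (h : ((n * a, y', true) : UE) ∈ MM ω (Wn n a) (eL y)) : 0 ≤ y' ∧ y' < n * a := by
  rcases Relation.ReflTransGen.cases_tail h with h1 | ⟨b, -, f, hf, hm⟩
  · unfold eL at h1
    simp only [Prod.mk.injEq] at h1
    omega
  · have hs := hm.right
    obtain ⟨x, z⟩ := f
    rw [mem_coe] at hf
    unfold Wn RF at hf
    rw [mem_product, mem_Ico, mem_Ico] at hf
    simp only at hf
    unfold IsSide bo ri to' le' at hs
    simp only [Prod.mk.injEq, and_true, and_false, false_or, Bool.true_eq_false] at hs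
    omega

theorem muTot : MuTot := by
  classical
  obtain ⟨q, hq, hq1, H⟩ := pr_LT_le 1
  refine ⟨2 / (1 - q), fun n a hn ha => ?_⟩
  have hna : (0 : ℤ) < (n : ℤ) * a := by positivity
  unfold EL
  refine sum_card_le hq hq1 (Wn n a) (Ico 0 (n * a)) (fun y => {ω | Lr n a ω (eL y)})
    (fun ω => LT ω 0 (n * a) 0 (n * a)) ?_ ?_
  · intro ω y
    rw [mem_LT, mem_Ico]
    refine and_congr Iff.rfl ?_
    constructor
    · rintro ⟨g, -, -, hg⟩
      exact ⟨g, hg⟩
    · rintro ⟨g, hg⟩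
      obtain ⟨h1, h2⟩ := right_range hna hg
      exact ⟨g, h1, h2, hg⟩
  · intro k
    refine H 0 (n * a) 0 (n * a) (Wn n a) hna hna ?_ (Finset.Subset.refl _) k
    push_cast
    omega

end Pool.Agent.Occ
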