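import Pool.Agent.Lib.MP_6bd702_occ.XDefs
import Pool.Agent.Lib.MP_6bd702_occ.OMu
import Pool.Agent.Lib.MP_6bd702_perc3.Base

/-!
# The number of strands of a port which leave the half box

The heights of a port are cut into at most `80` blocks of length `ρ = w / 40`. The strands of a block
which leave the half box of radius `w / 8` through another side cross the half box of radius `4 ρ` of
the block, hence they give disjoint connections of one colour across an annulus of ratio `4`.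
-/

set_option autoImplicit false

namespace Pool.Agent.Occ.Ball

open Finset Pool.Agent.Perc Pool.Agent.Perc.Q
open Pool.Agent.PercN (Wit conn_open pr_Wit_le depOn_Wit)

/-- The strand which enters the half box of radius `w / 8` on the left of the line `x = w` at the
height `y` leaves it through another side than the right one. -/
def ER (w y : ℤ) : Set Cfg :=
  {ω | ∃ c ∈ Orb ZQ ω (FbR w (w / 8) y : Set (ℤ × ℤ)) ((w, y), (w, y + 1)),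
    Ter ZQ (FbR w (w / 8) y : Set (ℤ × ℤ)) c ∧ ¬ (c.1.1 = w ∧ c.2.1 = w)}

/-- The same for the half box on the right of the line `x = -(w + 2)`. -/
def EL (w y : ℤ) : Set Cfg :=
  {ω | ∃ c ∈ Orb ZQ ω (FbL w (w / 8) y : Set (ℤ × ℤ)) ((-(w + 2), y + 1), (-(w + 2), y)),
    Ter ZQ (FbL w (w / 8) y : Set (ℤ × ℤ)) c ∧ ¬ (c.1.1 = -(w + 2) ∧ c.2.1 = -(w + 2))}

/-- The heights of the ports. -/
noncomputable def Hts (w : ℤ) : Finset ℤ := (Ico 0 w).filter fun y => w ≤ 4 * y ∧ 2 * y < w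

/-! ### Disjoint arms -/

theorem incD_ArmB (col : ℤ) (p : ℤ × ℤ) (r R : ℤ) : IncD (parD col) (ArmB col p r R) := by
  rintro ω ω' h ⟨u, v, h1, h2, h3, h4, h5, h6, h7⟩
  exact ⟨u, v, h1, h2, h3, h4, h5, h6, incD_conn col _ h5 ω ω' h h7⟩

theorem wit_arm {ω : Cfg} {k : ℕ} {c r R : ℤ} {p : ℤ × ℤ} {K : Fin k → Finset (ℤ × ℤ)}
    (h1 : ∀ i, K i ⊆ RFb p R) (h2 : ∀ i j, i ≠ j → Disjoint (K i) (K j))
    (h3 : ∀ i, ∃ u v : ℤ × ℤ, (p.1 - r ≤ u.1 ∧ u.1 ≤ p.1 + r ∧ p.2 - r ≤ u.2 ∧ u.2 ≤ p.2 + r) ∧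
      (u.1 + u.2 - c) % 2 = 0 ∧ OnBd (p.1 - R) (p.1 + R) (p.2 - R) (p.2 + R) v ∧
      Conn ω (K i) u v) : ω ∈ Wit (parD c) (RFb p R) (ArmB c p r R) k := by
  refine ⟨fun i => (K i).filter fun f => flip (parD c) ω f = true,
    fun i => (filter_subset _ _).trans (h1 i), fun i f hf => (mem_filter.1 hf).2,
    fun i j hij => disjoint_filter_filter (h2 i j hij), fun i => ?_⟩
  obtain ⟨u, v, ⟨e1, e2, e3, e4⟩, e5, e6, e7⟩ := h3 i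
  exact ⟨u, v, e1, e2, e3, e4, e5, e6, conn_open (by exact_mod_cast h1 i) e5 e7⟩

/-- The tail of the number of disjoint arms. -/
theorem pr_wit_arm : ∃ q : ℝ, 0 < q ∧ q < 1 ∧ ∀ (k : ℕ) (col : ℤ) (p : ℤ × ℤ) (r : ℤ)
    (W : Finset (ℤ × ℤ)), 0 < r → RFb p (4 * r) ⊆ W →
    pr W (Wit (parD col) (RFb p (4 * r)) (ArmB col p r (4 * r)) k) ≤ q ^ k := by
  obtain ⟨c, hc, h⟩ := pr_ArmB_le
  refine ⟨max (1 - c) (1 / 2), by positivity, max_lt (by linarith) (by norm_num), ?_⟩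
  intro k col p r W hr hW
  rw [pr_eq_of_depOn (depOn_Wit _ _ _ _) hW]
  refine (pr_Wit_le (depOn_ArmB col p r (4 * r)) (incD_ArmB col p r (4 * r)) k).trans ?_
  exact pow_le_pow_left₀ (pr_nonneg _ _) ((h col p r hr).trans (le_max_left _ _)) k

/-! ### Blocks -/

/-- The sum over the heights from the tails of the blocks. -/
theorem sum_blocks {q : ℝ} (hq : 0 < q) (hq1 : q < 1) {w : ℕ} (hw : 40 ≤ w) {W : Finset (ℤ × ℤ)}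
    (A : ℤ → Set Cfg) (hT : ∀ (m : ℕ) (J : Cfg → Finset ℤ),
      (∀ ω, ∀ j ∈ J ω, j ∈ Hts w ∧ (m : ℤ) * ((w : ℤ) / 40) ≤ j ∧
        j < (m : ℤ) * ((w : ℤ) / 40) + (w : ℤ) / 40 ∧ ω ∈ A j) →
      ∀ k : ℕ, pr W {ω | 2 * k ≤ (J ω).card + 1} ≤ q ^ k) :
    ∑ y ∈ Hts w, pr W (A y) ≤ 80 * (2 / (1 - q)) := by
  classical
  have hρ : (1 : ℤ) ≤ (w : ℤ) / 40 := by omega
  have hw80 : (w : ℤ) < 80 * ((w : ℤ) / 40) := by omega
  set ρ := (w : ℤ) / 40 with hρd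
  have hmap : ∀ y ∈ Hts w, (y / ρ).toNat ∈ range 80 := by
    intro y hy
    unfold Hts at hy
    rw [mem_filter, mem_Ico] at hy
    rw [mem_range]
    have h1 : 0 ≤ y / ρ := Int.ediv_nonneg hy.1.1 (by omega)
    have h2 : y / ρ < 80 := by
      apply Int.ediv_lt_of_lt_mul (by omega)
      omega
    omega
  rw [← sum_fiberwise_of_maps_to hmap]
  have hb : ∀ m ∈ range 80, ∑ y ∈ Hts w with (y / ρ).toNat = m, pr W (A y) ≤ 2 / (1 - q) := by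
    intro m _
    refine sum_card_le hq hq1 W ((Hts w).filter fun y => (y / ρ).toNat = m) A
      (fun ω => ((Hts w).filter fun y => (y / ρ).toNat = m).filter fun y => ω ∈ A y)
      (fun ω i => by rw [mem_filter]) ?_
    refine hT m _ ?_
    intro ω j hj
    rw [mem_filter, mem_filter] at hj
    obtain ⟨⟨h1, h2⟩, h3⟩ := hj
    have hy := h1
    unfold Hts at hy
    rw [mem_filter, mem_Ico] at hy
    have h4 : 0 ≤ j / ρ := Int.ediv_nonneg hy.1.1 (by omega)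
    have h5 : (m : ℤ) = j / ρ := by omega
    refine ⟨h1, ?_, ?_, h3⟩
    · rw [h5]
      exact Int.ediv_mul_le _ (by omega)
    · rw [h5]
      have := Int.lt_ediv_add_one_mul_self j (show 0 < ρ by omega)
      linarith
  refine (sum_le_sum hb).trans ?_
  rw [sum_const, card_range, nsmul_eq_mul]
  norm_num

/-! ### The right side -/

theorem cross_R {ω : Cfg} {w ρ y y₀ : ℤ} (hρ : 1 ≤ ρ) (hw : 5 * ρ ≤ w / 8) (h0 : y₀ ≤ y)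
    (h1 : y < y₀ + ρ) (h : ω ∈ ER w y) :
    (∃ x, ((x, y₀ + 4 * ρ), (x + 1, y₀ + 4 * ρ)) ∈ Orb ZQ ω
      (RF (w - 4 * ρ) w (y₀ - 4 * ρ) (y₀ + 4 * ρ) : Finset (ℤ × ℤ)) ((w, y), (w, y + 1))) ∨
    (∃ z, ((w - 4 * ρ, z), (w - 4 * ρ, z + 1)) ∈ Orb ZQ ω
      (RF (w - 4 * ρ) w (y₀ - 4 * ρ) (y₀ + 4 * ρ) : Finset (ℤ × ℤ)) ((w, y), (w, y + 1))) ∨
    ∃ x, ((x + 1, y₀ - 4 * ρ), (x, y₀ - 4 * ρ)) ∈ Orb ZQ ω
      (RF (w - 4 * ρ) w (y₀ - 4 * ρ) (y₀ + 4 * ρ) : Finset (ℤ × ℤ)) ((w, y), (w, y + 1)) := by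
  obtain ⟨c, hc, hcT, hcn⟩ := h
  have hsub : ((RF (w - 4 * ρ) w (y₀ - 4 * ρ) (y₀ + 4 * ρ) : Finset (ℤ × ℤ)) : Set (ℤ × ℤ)) ⊆
      (FbR w (w / 8) y : Set (ℤ × ℤ)) := by
    intro f hf
    rw [mem_coe, rf_iff] at hf
    rw [mem_coe]
    unfold FbR
    rw [rf_iff]
    omega
  rcases exit_cases (ω := ω) (ini_of_ter (ter_right (x₀ := w - 4 * ρ) (x₁ := w) (y₀ := y₀ - 4 * ρ)
    (y₁ := y₀ + 4 * ρ) y)) ⟨(w - 1, y), by rw [rf_iff]; simp only; omega, 1, by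
      simp only [ZQ_c, k11, cor0_1, cor0_2, sub_add_cancel]⟩ with
    ⟨z, -, h2⟩ | ⟨x, -, h2⟩ | ⟨z, -, h2⟩ | ⟨x, -, h2⟩
  · exfalso
    have h3 : ((w, z + 1), (w, z)) ∈ Orb ZQ ω (FbR w (w / 8) y : Set (ℤ × ℤ))
        ((w, y), (w, y + 1)) := Orb_mono hsub h2
    have h4 := ter_unique h3 hc (ter_right z) hcT
    rw [← h4] at hcn
    exact hcn ⟨rfl, rfl⟩
  · exact Or.inl ⟨x, h2⟩
  · exact Or.inr (Or.inl ⟨z, h2⟩)
  · exact Or.inr (Or.inr ⟨x, h2⟩)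

theorem wit_R {ω : Cfg} {w ρ y₀ : ℤ} {k : ℕ} (hρ : 1 ≤ ρ) (hw : 5 * ρ ≤ w / 8) {J : Finset ℤ}
    (hJ : ∀ j ∈ J, y₀ ≤ j ∧ j < y₀ + ρ ∧ ω ∈ ER w j) (hk : 2 * k ≤ J.card + 1) :
    ω ∈ Wit (parD 0) (RFb (w, y₀) (4 * ρ)) (ArmB 0 (w, y₀) ρ (4 * ρ)) k := by
  obtain ⟨K, h1, h2, h3⟩ := dis_gen (ω := ω) (x₀ := w - 4 * ρ) (x₁ := w) (y₀ := y₀ - 4 * ρ)
    (y₁ := y₀ + 4 * ρ) (c := 0) (k := k) (s := fun l => (w, l)) (a := y₀) (b := y₀ + ρ)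
    (T := fun t => (∃ x, t = ((x, y₀ + 4 * ρ), (x + 1, y₀ + 4 * ρ))) ∨
      (∃ z, t = ((w - 4 * ρ, z), (w - 4 * ρ, z + 1))) ∨
      ∃ x, t = ((x + 1, y₀ - 4 * ρ), (x, y₀ - 4 * ρ))) (J := J)
    (fun l h1 h2 => by simp only; omega)
    (fun l h1 h2 => ⟨(w - 1, l), by rw [rf_iff]; simp only; omega, 1, by
      simp only [ZQ_c, k11, cor0_1, cor0_2, sub_add_cancel]⟩)
    (fun l _ _ => ter_right l)
    (fun l l' h => (Prod.mk.inj h).2)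
    (by
      rintro t (⟨x, rfl⟩ | ⟨z, rfl⟩ | ⟨x, rfl⟩)
      · exact ter_top x
      · exact ter_left z
      · exact ter_bot x)
    (by
      rintro l h1 h2 (⟨x, h⟩ | ⟨z, h⟩ | ⟨x, h⟩) <;> simp only [Prod.mk.injEq] at h <;> omega)
    (fun l _ _ => by simp only; omega)
    (fun j hj => by
      obtain ⟨h1, h2, h3⟩ := hJ j hj
      refine ⟨h1, h2, ?_⟩
      rcases cross_R hρ hw h1 h2 h3 with ⟨x, h⟩ | ⟨z, h⟩ | ⟨x, h⟩
      · exact ⟨_, h, Or.inl ⟨x, rfl⟩⟩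
      · exact ⟨_, h, Or.inr (Or.inl ⟨z, rfl⟩)⟩
      · exact ⟨_, h, Or.inr (Or.inr ⟨x, rfl⟩)⟩) hk
  refine wit_arm (fun i => (h1 i).trans fun f hf => ?_) h2 fun i => ?_
  · rw [rf_iff] at hf
    rw [mem_RFb]
    simp only
    omega
  · obtain ⟨u, v, ⟨j, j1, j2, rfl⟩, ⟨t, ht, hv⟩, hr, hp, -, hc⟩ := h3 i
    refine ⟨(w, j), v, by simp only; omega, hp, ?_, hc⟩
    have hv' : v.1 = w - 4 * ρ ∨ v.2 = y₀ - 4 * ρ ∨ v.2 = y₀ + 4 * ρ := by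
      rcases ht with ⟨x, rfl⟩ | ⟨z, rfl⟩ | ⟨x, rfl⟩
      · exact Or.inr (Or.inr (by rcases hv with rfl | rfl <;> rfl))
      · exact Or.inl (by rcases hv with rfl | rfl <;> rfl)
      · exact Or.inr (Or.inl (by rcases hv with rfl | rfl <;> rfl))
    unfold OnBd
    simp only
    omega

theorem sum_ER : ∃ (K : ℝ) (w₀ : ℕ), 0 < K ∧ ∀ w : ℕ, w₀ ≤ w → ∀ W : Finset (ℤ × ℤ),
    RF ((w : ℤ) / 2) (2 * w) 0 w ⊆ W → ∑ y ∈ Hts w, pr W (ER w y) ≤ K := by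
  obtain ⟨q, hq, hq1, H⟩ := pr_wit_arm
  refine ⟨80 * (2 / (1 - q)), 40, by
    have : 0 < 1 - q := by linarith
    positivity, fun w hw W hW => ?_⟩
  refine sum_blocks hq hq1 hw (fun y => ER w y) fun m J hJ k => ?_
  have hρ : (1 : ℤ) ≤ (w : ℤ) / 40 := by omega
  have hw8 : 5 * ((w : ℤ) / 40) ≤ (w : ℤ) / 8 := by omega
  set ρ := (w : ℤ) / 40 with hρd
  set y₀ := (m : ℤ) * ρ with hy₀
  rcases Nat.eq_zero_or_pos k with rfl | hk0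
  · rw [pow_zero]
    exact pr_le_one _ _
  by_cases hne : ∃ ω, 2 * k ≤ (J ω).card + 1
  · obtain ⟨ω₁, hω₁⟩ := hne
    have hpos : 0 < (J ω₁).card := by omega
    obtain ⟨j, hj⟩ := card_pos.1 hpos
    obtain ⟨j1, j2, j3, -⟩ := hJ ω₁ j hj
    unfold Hts at j1
    rw [mem_filter, mem_Ico] at j1
    refine (pr_mono _ (B := Wit (parD 0) (RFb ((w : ℤ), y₀) (4 * ρ))
      (ArmB 0 ((w : ℤ), y₀) ρ (4 * ρ)) k) fun ω hω => ?_).trans (H k 0 ((w : ℤ), y₀) ρ W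
      (by omega) (Subset.trans (fun f hf => ?_) hW))
    · exact wit_R hρ hw8 (fun j hj => ⟨(hJ ω j hj).2.1, (hJ ω j hj).2.2.1, (hJ ω j hj).2.2.2⟩) hω
    · rw [mem_RFb] at hf
      simp only at hf
      rw [rf_iff]
      omega
  · have h0 : pr W {ω | 2 * k ≤ (J ω).card + 1} ≤ pr W ∅ :=
      pr_mono _ fun ω hω => absurd ⟨ω, hω⟩ hne
    refine h0.trans (le_trans (le_of_eq ?_) (pow_nonneg hq.le k))
    unfold pr
    simp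

/-! ### The left side -/

theorem cross_L {ω : Cfg} {w ρ y y₀ : ℤ} (hρ : 1 ≤ ρ) (hw : 5 * ρ ≤ w / 8) (h0 : y₀ ≤ y)
    (h1 : y < y₀ + ρ) (h : ω ∈ EL w y) :
    (∃ x, ((x, y₀ + 4 * ρ), (x + 1, y₀ + 4 * ρ)) ∈ Orb ZQ ω
      (RF (-(w + 2)) (-(w + 2) + 4 * ρ) (y₀ - 4 * ρ) (y₀ + 4 * ρ) : Finset (ℤ × ℤ))
        ((-(w + 2), y + 1), (-(w + 2), y))) ∨
    (∃ z, ((-(w + 2) + 4 * ρ, z + 1), (-(w + 2) + 4 * ρ, z)) ∈ Orb ZQ ω
      (RF (-(w + 2)) (-(w + 2) + 4 * ρ) (y₀ - 4 * ρ) (y₀ + 4 * ρ) : Finset (ℤ × ℤ))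
        ((-(w + 2), y + 1), (-(w + 2), y))) ∨
    ∃ x, ((x + 1, y₀ - 4 * ρ), (x, y₀ - 4 * ρ)) ∈ Orb ZQ ω
      (RF (-(w + 2)) (-(w + 2) + 4 * ρ) (y₀ - 4 * ρ) (y₀ + 4 * ρ) : Finset (ℤ × ℤ))
        ((-(w + 2), y + 1), (-(w + 2), y)) := by
  obtain ⟨c, hc, hcT, hcn⟩ := h
  have hsub : ((RF (-(w + 2)) (-(w + 2) + 4 * ρ) (y₀ - 4 * ρ) (y₀ + 4 * ρ) : Finset (ℤ × ℤ)) :
      Set (ℤ × ℤ)) ⊆ (FbL w (w / 8) y : Set (ℤ × ℤ)) := by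
    intro f hf
    rw [mem_coe, rf_iff] at hf
    rw [mem_coe]
    unfold FbL
    rw [rf_iff]
    omega
  rcases exit_cases (ω := ω) (ini_of_ter (ter_left (x₀ := -(w + 2)) (x₁ := -(w + 2) + 4 * ρ)
    (y₀ := y₀ - 4 * ρ) (y₁ := y₀ + 4 * ρ) y)) ⟨(-(w + 2), y), by rw [rf_iff]; simp only; omega, 3,
      by simp only [ZQ_c, k31, cor0_3, cor0_0]⟩ with
    ⟨z, -, h2⟩ | ⟨x, -, h2⟩ | ⟨z, -, h2⟩ | ⟨x, -, h2⟩
  · exact Or.inr (Or.inl ⟨z, h2⟩)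
  · exact Or.inl ⟨x, h2⟩
  · exfalso
    have h3 : ((-(w + 2), z), (-(w + 2), z + 1)) ∈ Orb ZQ ω (FbL w (w / 8) y : Set (ℤ × ℤ))
        ((-(w + 2), y + 1), (-(w + 2), y)) := Orb_mono hsub h2
    have h4 := ter_unique h3 hc (ter_left z) hcT
    rw [← h4] at hcn
    exact hcn ⟨rfl, rfl⟩
  · exact Or.inr (Or.inr ⟨x, h2⟩)

theorem wit_L {ω : Cfg} {w ρ y₀ : ℤ} {k : ℕ} (hρ : 1 ≤ ρ) (hw : 5 * ρ ≤ w / 8) {J : Finset ℤ}
    (hJ : ∀ j ∈ J, y₀ ≤ j ∧ j < y₀ + ρ ∧ ω ∈ EL w j) (hk : 2 * k ≤ J.card + 1) :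
    ω ∈ Wit (parD 0) (RFb (-(w + 2), y₀) (4 * ρ)) (ArmB 0 (-(w + 2), y₀) ρ (4 * ρ)) k := by
  classical
  have hcard : (J.image fun y => -(y + 1)).card = J.card :=
    card_image_of_injective _ fun a b (h : -(a + 1) = -(b + 1)) => by omega
  obtain ⟨K, h1, h2, h3⟩ := dis_gen (ω := ω) (x₀ := -(w + 2)) (x₁ := -(w + 2) + 4 * ρ)
    (y₀ := y₀ - 4 * ρ) (y₁ := y₀ + 4 * ρ) (c := 0) (k := k) (s := fun l => (-(w + 2), -l))
    (a := -(y₀ + ρ)) (b := -y₀)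
    (T := fun t => (∃ x, t = ((x, y₀ + 4 * ρ), (x + 1, y₀ + 4 * ρ))) ∨
      (∃ z, t = ((-(w + 2) + 4 * ρ, z + 1), (-(w + 2) + 4 * ρ, z))) ∨
      ∃ x, t = ((x + 1, y₀ - 4 * ρ), (x, y₀ - 4 * ρ))) (J := J.image fun y => -(y + 1))
    (fun l h1 h2 => by simp only; omega)
    (fun l h1 h2 => ⟨(-(w + 2), -(l + 1)), by rw [rf_iff]; simp only; omega, 3, by
      simp only [ZQ_c, k31, cor0_3, cor0_0, show -(l + 1) + 1 = -l by ring]⟩)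
    (fun l _ _ => by
      have h := ter_left (x₀ := -(w + 2)) (x₁ := -(w + 2) + 4 * ρ) (y₀ := y₀ - 4 * ρ)
        (y₁ := y₀ + 4 * ρ) (-(l + 1))
      rwa [show -(l + 1) + 1 = -l by ring] at h)
    (fun l l' h => by have := (Prod.mk.inj h).2; omega)
    (by
      rintro t (⟨x, rfl⟩ | ⟨z, rfl⟩ | ⟨x, rfl⟩)
      · exact ter_top x
      · exact ter_right z
      · exact ter_bot x)
    (by
      rintro l h1 h2 (⟨x, h⟩ | ⟨z, h⟩ | ⟨x, h⟩) <;> simp only [Prod.mk.injEq] at h <;> omega)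
    (fun l _ _ => by simp only; omega)
    (fun j hj => by
      obtain ⟨y, hy, rfl⟩ := mem_image.1 hj
      obtain ⟨h1, h2, h3⟩ := hJ y hy
      refine ⟨by omega, by omega, ?_⟩
      rw [show -(-(y + 1)) = y + 1 by ring, show -(-(y + 1) + 1) = y by ring]
      rcases cross_L hρ hw h1 h2 h3 with ⟨x, h⟩ | ⟨z, h⟩ | ⟨x, h⟩
      · exact ⟨_, h, Or.inl ⟨x, rfl⟩⟩
      · exact ⟨_, h, Or.inr (Or.inl ⟨z, rfl⟩)⟩
      · exact ⟨_, h, Or.inr (Or.inr ⟨x, rfl⟩)⟩) (by rw [hcard]; exact hk)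
  refine wit_arm (fun i => (h1 i).trans fun f hf => ?_) h2 fun i => ?_
  · rw [rf_iff] at hf
    rw [mem_RFb]
    simp only
    omega
  · obtain ⟨u, v, ⟨j, j1, j2, rfl⟩, ⟨t, ht, hv⟩, hr, hp, -, hc⟩ := h3 i
    refine ⟨(-(w + 2), -j), v, by simp only; omega, hp, ?_, hc⟩
    have hv' : v.1 = -(w + 2) + 4 * ρ ∨ v.2 = y₀ - 4 * ρ ∨ v.2 = y₀ + 4 * ρ := by
      rcases ht with ⟨x, rfl⟩ | ⟨z, rfl⟩ | ⟨x, rfl⟩
      · exact Or.inr (Or.inr (by rcases hv with rfl | rfl <;> rfl))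
      · exact Or.inl (by rcases hv with rfl | rfl <;> rfl)
      · exact Or.inr (Or.inl (by rcases hv with rfl | rfl <;> rfl))
    unfold OnBd
    simp only
    omega

theorem sum_EL : ∃ (K : ℝ) (w₀ : ℕ), 0 < K ∧ ∀ w : ℕ, w₀ ≤ w → ∀ W : Finset (ℤ × ℤ),
    RF (-(2 * w)) (-((w : ℤ) / 2)) 0 w ⊆ W → ∑ y ∈ Hts w, pr W (EL w y) ≤ K := by
  obtain ⟨q, hq, hq1, H⟩ := pr_wit_arm
  refine ⟨80 * (2 / (1 - q)), 40, by
    have : 0 < 1 - q := by linarith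
    positivity, fun w hw W hW => ?_⟩
  refine sum_blocks hq hq1 hw (fun y => EL w y) fun m J hJ k => ?_
  have hρ : (1 : ℤ) ≤ (w : ℤ) / 40 := by omega
  have hw8 : 5 * ((w : ℤ) / 40) ≤ (w : ℤ) / 8 := by omega
  set ρ := (w : ℤ) / 40 with hρd
  set y₀ := (m : ℤ) * ρ with hy₀
  rcases Nat.eq_zero_or_pos k with rfl | hk0
  · rw [pow_zero]
    exact pr_le_one _ _
  by_cases hne : ∃ ω, 2 * k ≤ (J ω).card + 1
  · obtain ⟨ω₁, hω₁⟩ := hne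
    have hpos : 0 < (J ω₁).card := by omega
    obtain ⟨j, hj⟩ := card_pos.1 hpos
    obtain ⟨j1, j2, j3, -⟩ := hJ ω₁ j hj
    unfold Hts at j1
    rw [mem_filter, mem_Ico] at j1
    refine (pr_mono _ (B := Wit (parD 0) (RFb (-((w : ℤ) + 2), y₀) (4 * ρ))
      (ArmB 0 (-((w : ℤ) + 2), y₀) ρ (4 * ρ)) k) fun ω hω => ?_).trans (H k 0 (-((w : ℤ) + 2), y₀) ρ
      W (by omega) (Subset.trans (fun f hf => ?_) hW))
    · exact wit_L hρ hw8 (fun j hj => ⟨(hJ ω j hj).2.1, (hJ ω j hj).2.2.1, (hJ ω j hj).2.2.2⟩) hω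
    · rw [mem_RFb] at hf
      simp only at hf
      rw [rf_iff]
      omega
  · have h0 : pr W {ω | 2 * k ≤ (J ω).card + 1} ≤ pr W ∅ :=
      pr_mono _ fun ω hω => absurd ⟨ω, hω⟩ hne
    refine h0.trans (le_trans (le_of_eq ?_) (pow_nonneg hq.le k))
    unfold pr
    simp

end Pool.Agent.Occ.Ball
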