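import Pool.Agent.Lib.MP_6bd702_occ.BallA
import Pool.Agent.Lib.MP_6bd702_occ.BallB
import Pool.Agent.Lib.MP_6bd702_perc3.CloseOut

/-!
# A fresh arm near a tip in a port
-/

set_option autoImplicit false

namespace Pool.Agent.Occ.Ball

open Finset Relation Pool.Agent.Perc Pool.Agent.Perc.Q Pool.Agent.Perc.Q.CO
  Pool.Agent.Perc.Q.LegsAux

variable {ω : Cfg} {F : Finset (ℤ × ℤ)} {e₀ a b : (ℤ × ℤ) × (ℤ × ℤ)} {f : ℤ × ℤ}
  {x₀ x₁ y₀ y₁ w R y : ℤ} {j : Fin 3}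

theorem cT (h : 0 ≤ f.2) (k : ZMod 4) : TQ.c f k = ZQ.c f k := corT_up h k

theorem nx_TZ {F : Set (ℤ × ℤ)} (hF : ∀ f ∈ F, 0 ≤ f.2) :
    Nx TQ ω F a b ↔ Nx ZQ ω F a b := by
  constructor <;> rintro ⟨f, hf, k, h1, h2⟩ <;> refine ⟨f, hf, k, ?_, ?_⟩
  · rw [← cT (hF f hf), ← cT (hF f hf)]; exact h1
  · rw [← cT (hF f hf), ← cT (hF f hf), ← cT (hF f hf), ← cT (hF f hf)]; exact h2
  · rw [cT (hF f hf), cT (hF f hf)]; exact h1
  · rw [cT (hF f hf), cT (hF f hf), cT (hF f hf), cT (hF f hf)]; exact h2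

theorem orb_TZ {F : Set (ℤ × ℤ)} (hF : ∀ f ∈ F, 0 ≤ f.2) (e : (ℤ × ℤ) × (ℤ × ℤ)) :
    Orb TQ ω F e = Orb ZQ ω F e := by
  ext a
  constructor
  · exact fun h => rtg_mono (fun _ _ h => (nx_TZ hF).1 h) h
  · exact fun h => rtg_mono (fun _ _ h => (nx_TZ hF).2 h) h

theorem ter_TZ {F : Set (ℤ × ℤ)} (hF : ∀ f ∈ F, 0 ≤ f.2) :
    Ter TQ F a ↔ Ter ZQ F a := by
  constructor <;> intro h f hf k h1
  · refine h f hf k ?_
    rw [cT (hF f hf), cT (hF f hf)]; exact h1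
  · refine h f hf k ?_
    rw [← cT (hF f hf), ← cT (hF f hf)]; exact h1

/-- The parity of a vertex. -/
def kp (v : ℤ × ℤ) : ZMod 2 := ((v.1 + v.2 : ℤ) : ZMod 2)

theorem col_up {F : Set (ℤ × ℤ)} (hF : ∀ f ∈ F, 0 ≤ f.2) : Col TQ F kp := by
  intro f hf k
  rw [cT (hF f hf), cT (hF f hf), ZQ_c, ZQ_c]
  have h11 : (1 : ZMod 2) + 1 = 0 := rfl
  rcases k4_cases k with rfl | rfl | rfl | rfl
  · rw [k01, cor0_0, cor0_1]
    unfold kp
    push_cast
    ring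
  · rw [k11, cor0_1, cor0_2]
    unfold kp
    push_cast
    ring
  · rw [k21, cor0_2, cor0_3]
    unfold kp
    push_cast
    linear_combination (-1 : ZMod 2) * h11
  · rw [k31, cor0_3, cor0_0]
    unfold kp
    push_cast
    linear_combination (-1 : ZMod 2) * h11

/-- The potential of the strand of `e₀`. -/
theorem exists_pot (hF : F = RF x₀ x₁ y₀ y₁) (hy : 0 ≤ y₀) (he₀ : Ini TQ (F : Set (ℤ × ℤ)) e₀) :
    ∃ χ : ℤ × ℤ → ZMod 2, ∀ f ∈ (F : Set (ℤ × ℤ)), ∀ k, χ (TQ.c f k) + χ (TQ.c f (k + 1)) =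
      cochain TQ ω (F : Set (ℤ × ℤ)) e₀ (TQ.c f k) (TQ.c f (k + 1)) := by
  have hup : ∀ f ∈ (F : Set (ℤ × ℤ)), 0 ≤ f.2 := by
    intro f hf
    rw [mem_coe, hF, rf_iff] at hf
    omega
  have h1 : ∀ f ∈ (RF x₀ x₁ y₀ y₁ : Finset (ℤ × ℤ)), f ∈ (F : Set (ℤ × ℤ)) := by
    intro f hf
    rw [mem_coe, hF]; exact hf
  obtain ⟨χ, hχ⟩ := sc_rect (x₀ := x₀) (x₁ := x₁) (y₀ := y₀) (y₁ := y₁)
    (cochain TQ ω (F : Set (ℤ × ℤ)) e₀) (fun p q => cochain_symm p q) (fun f hf => by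
      have hf' := h1 f hf
      rw [← cochain_even (ω := ω) he₀ hf']
      refine sum_congr rfl fun k _ => ?_
      rw [cT (hup f hf'), cT (hup f hf')])
  refine ⟨χ, fun f hf k => ?_⟩
  rw [cT (hup f hf), cT (hup f hf)]
  refine hχ f ?_ k
  rw [mem_coe, hF] at hf
  exact hf

theorem leg_ends (i : Fin 3) : (∃ x, Core x ∧ (leg i).1 = (x, 0)) ∧ ∃ x, Core x ∧ (leg i).2 = (x, 0) := by
  refine ⟨leg_core i, ?_⟩
  rw [mark_eq]
  exact leg_core _

/-- A face visited by a leg but not by the strand of `e₀` gives an arm in the faces which are not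
visited by the strand of `e₀`. -/
theorem arm_gen (hF : F = RF x₀ x₁ y₀ y₁) (hy : 0 ≤ y₀) (hw : 0 < w) (hFG : F ⊆ BW w)
    (he₀ : Ini TQ (F : Set (ℤ × ℤ)) e₀) (hf : f ∈ Vis TQ ω (BW w) (leg j)) (hfF : f ∈ F)
    (hbad : f ∉ Vis TQ ω (F : Set (ℤ × ℤ)) e₀) {p : ℤ × ℤ}
    (hfar : ∀ g ∈ BW w, g ∉ F → ∀ k, R ≤ dT (TQ.c g k) p)
    (hcore : ∀ x, Core x → R ≤ dT (x, 0) p) :
    ∃ u v, (∃ k, u = TQ.c f k) ∧ R ≤ dT v p ∧
      ConnQ TQ ω ((F : Set (ℤ × ℤ)) \ Vis TQ ω (F : Set (ℤ × ℤ)) e₀) u v := by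
  have hup : ∀ f ∈ (F : Set (ℤ × ℤ)), 0 ≤ f.2 := by
    intro f hf
    rw [mem_coe, hF, rf_iff] at hf
    omega
  obtain ⟨χ, hχ⟩ := exists_pot (ω := ω) hF hy he₀
  obtain ⟨-, k, hk⟩ := hf
  have hi : Ini TQ (F : Set (ℤ × ℤ)) (leg j) := fun f hf => ini_leg hw j f (hFG hf)
  obtain ⟨b, hb, hbi, hab, hcase⟩ := exists_entry (F := (F : Set (ℤ × ℤ))) hi hk
  have hends : R ≤ dT b.1 p ∧ R ≤ dT b.2 p := by
    rcases hcase with rfl | ⟨g, hg, hgF, l, rfl⟩
    · obtain ⟨⟨x, hx, h1⟩, x', hx', h2⟩ := leg_ends j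
      rw [h1, h2]
      exact ⟨hcore x hx, hcore x' hx'⟩
    · exact ⟨hfar g hg hgF _, hfar g hg hgF _⟩
  rcases fresh_arm he₀ hχ (col_up hup) hab hfF hbad with h | h
  · exact ⟨_, _, ⟨k, rfl⟩, hends.1, h⟩
  · exact ⟨_, _, ⟨k + 1, rfl⟩, hends.2, h⟩

/-! ### The two sides -/

theorem ine_right (hw : 0 < w) (h0 : 0 ≤ y) (h1 : y < w) : ine w y = ((w, y), (w, y + 1)) := by
  have h := ine_R hw (show -w ≤ y by omega) h1
  rwa [if_pos h0] at h

theorem ine_left (hw : 0 < w) (h0 : 0 ≤ y) (h1 : y < w) :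
    ine w (4 * w + 1 - y) = ((-(w + 2), y + 1), (-(w + 2), y)) := by
  have h := ine_L hw (j := -(y + 1)) (by omega) (by omega)
  rw [show -(y + 1) + 4 * w + 2 = 4 * w + 1 - y by ring] at h
  rw [h]
  simp only [Prod.map, neg_neg]
  rw [show -(-(y + 1) + 1) = y by ring, chF_up (by simp only; omega), chF_up (by simp only; omega)]

theorem ini_BW (hw : 0 < w) {t : ℤ} (h0 : 0 ≤ t) (h1 : t < 8 * w + 3) (hFG : F ⊆ BW w) :
    Ini TQ (F : Set (ℤ × ℤ)) (ine w t) := fun f hf => ini_out hw h0 h1 f (hFG hf)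

/-- A tip of a leg on the right side gives the event `ER`. -/
theorem er_of_tip (hw : 64 ≤ w) (h1 : w ≤ 4 * y) (h2 : 2 * y < w)
    (h : (ine w y).swap ∈ Orb TQ ω (BW w) (leg j)) : ω ∈ ER w y := by
  have hF : FbR w (w / 8) y ⊆ BW w := by
    intro f hf
    unfold FbR at hf
    rw [rf_iff] at hf
    rw [BdAux.mem_BW]
    omega
  have hup : ∀ f ∈ (FbR w (w / 8) y : Set (ℤ × ℤ)), 0 ≤ f.2 := by
    intro f hf
    unfold FbR at hf
    rw [mem_coe, rf_iff] at hf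
    omega
  have hi : Ini TQ (FbR w (w / 8) y : Set (ℤ × ℤ)) (ine w y) :=
    ini_BW (by omega) (by omega) (by omega) hF
  obtain ⟨c, hc, hct⟩ := exists_ter (ω := ω) (FbR w (w / 8) y).finite_toSet hi
  have he := ine_right (w := w) (y := y) (by omega) (by omega) (by omega)
  rw [he] at hc hi h
  refine ⟨c, ?_, (ter_TZ hup).1 hct, ?_⟩
  · rw [← orb_TZ hup]; exact hc
  rintro ⟨c1, c2⟩
  rcases Orb_pred hc with rfl | ⟨b, -, hb⟩
  · refine hct (w - 1, y) ?_ 1 ?_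
    · unfold FbR
      rw [mem_coe, rf_iff]
      simp only
      omega
    · rw [cT (by simp only; omega), cT (by simp only; omega), k11, ZQ_c, ZQ_c, cor0_1, cor0_2]
      simp only [sub_add_cancel]
  obtain ⟨g, hg, l, rfl⟩ := nx_out hb
  have hg0 := hup g hg
  have hg' : g ∈ FbR w (w / 8) y := hg
  unfold FbR at hg'
  rw [rf_iff] at hg'
  simp only [cT hg0, ZQ_c] at c1 c2
  have hl : l = 1 := by
    rcases k4_cases l with rfl | rfl | rfl | rfl
    · rw [cor0_0] at c2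
      rw [k01, cor0_1] at c1
      simp only at c1 c2
      omega
    · rfl
    · rw [cor0_2] at c2
      rw [k21, cor0_3] at c1
      simp only at c1 c2
      omega
    · rw [cor0_3] at c2
      rw [k31, cor0_0] at c1
      simp only at c1 c2
      omega
  subst hl
  rw [cor0_1] at c2
  simp only at c2
  have hsw : (TQ.c g (1 + 1), TQ.c g 1) = (ine w g.2).swap := by
    rw [ine_right (by omega) (by omega) (by omega), cT hg0, cT hg0, k11, ZQ_c, ZQ_c, cor0_1, cor0_2]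
    simp only [Prod.swap_prod_mk, Prod.mk.injEq, and_true]
    omega
  have t1 : Ter TQ (BW w : Set (ℤ × ℤ)) (ine w g.2).swap := ter_ine (by omega) (by omega) (by omega)
  have t2 : Ter TQ (BW w : Set (ℤ × ℤ)) (leg j).swap := (ini_leg (by omega) j).ter_swap
  have o1 := Orb_mono hF hc
  have o2 := orb_rev h
  rw [hsw] at o1
  have e2 : (((w, y), (w, y + 1)) : (ℤ × ℤ) × (ℤ × ℤ)).swap.swap = ((w, y), (w, y + 1)) := rfl
  rw [e2] at o2
  have h3 := ter_unique o1 o2 t1 t2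
  obtain ⟨⟨x, hx, hx1⟩, -⟩ := leg_ends j
  have h4 : (ine w g.2).1 = (leg j).1 := congrArg (fun z => z.2) h3
  rw [ine_right (by omega) (by omega) (by omega), hx1] at h4
  have h5 := (Prod.mk.inj h4).1
  unfold Core at hx
  omega

/-- A tip of a leg on the left side gives the event `EL`. -/
theorem el_of_tip (hw : 64 ≤ w) (h1 : w ≤ 4 * y) (h2 : 2 * y < w)
    (h : (ine w (4 * w + 1 - y)).swap ∈ Orb TQ ω (BW w) (leg j)) : ω ∈ EL w y := by
  have hF : FbL w (w / 8) y ⊆ BW w := by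
    intro f hf
    unfold FbL at hf
    rw [rf_iff] at hf
    rw [BdAux.mem_BW]
    omega
  have hup : ∀ f ∈ (FbL w (w / 8) y : Set (ℤ × ℤ)), 0 ≤ f.2 := by
    intro f hf
    unfold FbL at hf
    rw [mem_coe, rf_iff] at hf
    omega
  have hi : Ini TQ (FbL w (w / 8) y : Set (ℤ × ℤ)) (ine w (4 * w + 1 - y)) :=
    ini_BW (by omega) (by omega) (by omega) hF
  obtain ⟨c, hc, hct⟩ := exists_ter (ω := ω) (FbL w (w / 8) y).finite_toSet hi
  have he := ine_left (w := w) (y := y) (by omega) (by omega) (by omega)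
  rw [he] at hc hi h
  refine ⟨c, ?_, (ter_TZ hup).1 hct, ?_⟩
  · rw [← orb_TZ hup]; exact hc
  rintro ⟨c1, c2⟩
  rcases Orb_pred hc with rfl | ⟨b, -, hb⟩
  · refine hct (-(w + 2), y) ?_ 3 ?_
    · unfold FbL
      rw [mem_coe, rf_iff]
      simp only
      omega
    · rw [cT (by simp only; omega), cT (by simp only; omega), k31, ZQ_c, ZQ_c, cor0_3, cor0_0]
  obtain ⟨g, hg, l, rfl⟩ := nx_out hb
  have hg0 := hup g hg
  have hg' : g ∈ FbL w (w / 8) y := hg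
  unfold FbL at hg'
  rw [rf_iff] at hg'
  simp only [cT hg0, ZQ_c] at c1 c2
  have hl : l = 3 := by
    rcases k4_cases l with rfl | rfl | rfl | rfl
    · rw [cor0_0] at c2
      rw [k01, cor0_1] at c1
      simp only at c1 c2
      omega
    · rw [cor0_1] at c2
      rw [k11, cor0_2] at c1
      simp only at c1 c2
      omega
    · rw [cor0_2] at c2
      rw [k21, cor0_3] at c1
      simp only at c1 c2
      omega
    · rfl
  subst hl
  rw [cor0_3] at c2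
  simp only at c2
  have hsw : (TQ.c g (3 + 1), TQ.c g 3) = (ine w (4 * w + 1 - g.2)).swap := by
    rw [ine_left (by omega) (by omega) (by omega), cT hg0, cT hg0, k31, ZQ_c, ZQ_c, cor0_3, cor0_0]
    simp only [Prod.swap_prod_mk, Prod.mk.injEq, and_true]
    exact ⟨Prod.ext (by simp only; omega) rfl, by omega⟩
  have t1 : Ter TQ (BW w : Set (ℤ × ℤ)) (ine w (4 * w + 1 - g.2)).swap :=
    ter_ine (by omega) (by omega) (by omega)
  have t2 : Ter TQ (BW w : Set (ℤ × ℤ)) (leg j).swap := (ini_leg (by omega) j).ter_swap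
  have o1 := Orb_mono hF hc
  have o2 := orb_rev h
  rw [hsw] at o1
  have e2 : (((-(w + 2), y + 1), (-(w + 2), y)) : (ℤ × ℤ) × (ℤ × ℤ)).swap.swap =
    ((-(w + 2), y + 1), (-(w + 2), y)) := rfl
  rw [e2] at o2
  have h3 := ter_unique o1 o2 t1 t2
  obtain ⟨⟨x, hx, hx1⟩, -⟩ := leg_ends j
  have h4 : (ine w (4 * w + 1 - g.2)).1 = (leg j).1 := congrArg (fun z => z.2) h3
  rw [ine_left (by omega) (by omega) (by omega), hx1] at h4
  have h5 := (Prod.mk.inj h4).1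
  unfold Core at hx
  omega

end Pool.Agent.Occ.Ball
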