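import Pool.Agent.Lib.MP_6bd702_perc3.Duality
import Pool.Agent.Lib.MP_6bd702_percw.LowDefs

/-!
# Occupied and visible cells of a strand in a window: definitions

The window is a square of `n × n` cells of side `a`. A strand enters through a unit edge of the left
side and leaves through the right side. A cell is occupied if it is visited and if a chain of
neighbouring faces at distance more than `ρ` from the strand leads from it to the upper side of the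
window.
-/

set_option autoImplicit false

namespace Pool.Agent.Occ

open Finset Filter Pool.Agent.Perc Pool.Agent.PercL Pool.Agent.Perc3

/-- The faces of the window. -/
noncomputable def Wn (n a : ℤ) : Finset (ℤ × ℤ) := RF 0 (n * a) 0 (n * a)

/-- The unit edge of the left side of the window. -/
def eL (y : ℤ) : UE := (0, y, true)

/-- The component of the unit edge `e` of the left side reaches the right side. -/
def Lr (n a : ℤ) (ω : Cfg) (e : UE) : Prop := ∃ y, ((n * a, y, true) : UE) ∈ MM ω (Wn n a) e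

/-- The face `f` is in the cell `c`. -/
def InC (a : ℤ) (c f : ℤ × ℤ) : Prop :=
  c.1 * a ≤ f.1 ∧ f.1 < (c.1 + 1) * a ∧ c.2 * a ≤ f.2 ∧ f.2 < (c.2 + 1) * a

/-- The face `f` is at distance at most one from the cell `c`. -/
def NearC (a : ℤ) (c f : ℤ × ℤ) : Prop :=
  c.1 * a - 1 ≤ f.1 ∧ f.1 ≤ (c.1 + 1) * a ∧ c.2 * a - 1 ≤ f.2 ∧ f.2 ≤ (c.2 + 1) * a

/-- The face `f` is at distance more than `ρ` from the faces of `S`. -/
def Clr (ρ : ℤ) (S : Set (ℤ × ℤ)) (f : ℤ × ℤ) : Prop := ∀ g ∈ S, ρ < max |f.1 - g.1| |f.2 - g.2|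

/-- Chains of neighbouring faces of `F` at distance more than `ρ` from `S`. -/
def ChC (F : Set (ℤ × ℤ)) (ρ : ℤ) (S : Set (ℤ × ℤ)) : ℤ × ℤ → ℤ × ℤ → Prop :=
  Relation.ReflTransGen fun f g => Adj4 f g ∧ f ∈ F ∧ g ∈ F ∧ Clr ρ S f ∧ Clr ρ S g

/-- The cell `c` is occupied: it is visited by the component of `e` and a chain of faces at distance
more than `ρ` from the component leads from a face next to the cell to the upper row of the
window. -/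
def OccC (n a ρ : ℤ) (ω : Cfg) (e : UE) (c : ℤ × ℤ) : Prop :=
  (∃ f ∈ SS ω (Wn n a) e, InC a c f) ∧
    ∃ g h, NearC a c g ∧ g ∈ Wn n a ∧ Clr ρ (SS ω (Wn n a) e) g ∧ h.2 = n * a - 1 ∧
      ChC (Wn n a) ρ (SS ω (Wn n a) e) g h

/-- The cells of the middle of the window. -/
def Mid (n : ℤ) (c : ℤ × ℤ) : Prop := 3 * n ≤ 8 * c.1 ∧ 8 * c.1 < 5 * n ∧ 3 * n ≤ 8 * c.2 ∧ 8 * c.2 < 5 * n

/-- The distance of two cells, at least one. -/
noncomputable def dC (c c' : ℤ × ℤ) : ℝ := max 1 (max (|c.1 - c'.1| : ℤ) (|c.2 - c'.2| : ℤ))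

/-- The expected number of unit edges `e` of the left side with the property `A e`. -/
noncomputable def EL (n a : ℤ) (A : UE → Set Cfg) : ℝ := ∑ y ∈ Ico 0 (n * a), pr (Wn n a) (A (eL y))

/-- (O1) One point estimate from below. -/
def OneLow : Prop := ∃ c₀ : ℝ, 0 < c₀ ∧ ∃ n₀ : ℕ, ∀ n : ℕ, n₀ ≤ n → ∃ k : ℕ, 0 < k ∧
  ∀ᶠ a : ℕ in atTop, ∀ ρ : ℤ, 0 ≤ ρ → k * ρ ≤ a → ∀ c : ℤ × ℤ, Mid n c →
    c₀ * (n : ℝ) ^ (-(2 / 3) : ℝ) ≤ EL n a fun e => {ω | Lr n a ω e ∧ OccC n a ρ ω e c}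

/-- (O2) Two point estimate from above. -/
def TwoUp : Prop := ∃ C : ℝ, 0 < C ∧ ∃ n₀ : ℕ, ∀ n : ℕ, n₀ ≤ n → ∀ k : ℕ, ∀ᶠ a : ℕ in atTop,
  ∀ ρ : ℤ, (a : ℤ) ≤ k * ρ → ∀ c c' : ℤ × ℤ, Mid n c → Mid n c' →
    EL n a (fun e => {ω | Lr n a ω e ∧ OccC n a ρ ω e c ∧ OccC n a ρ ω e c'}) ≤
      C * (n : ℝ) ^ (-(2 / 3) : ℝ) * dC c c' ^ (-(2 / 3) : ℝ)

/-- The expected number of strands which cross the window. -/
def MuTot : Prop := ∃ C : ℝ, ∀ n a : ℕ, 0 < n → 0 < a → EL n a (fun e => {ω | Lr n a ω e}) ≤ C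

open Classical in
/-- The occupied cells of the middle carry a probability measure of energy at most `A`. -/
def GoodW (s A : ℝ) (n a ρ : ℤ) (ω : Cfg) (e : UE) : Prop :=
  ∃ p : ℤ × ℤ → ℝ, (∀ c, 0 ≤ p c) ∧ (∀ c, p c ≠ 0 → Mid n c ∧ OccC n a ρ ω e c) ∧
    ∑ c ∈ Ico 0 n ×ˢ Ico 0 n, p c = 1 ∧
    ∑ c ∈ Ico 0 n ×ˢ Ico 0 n, ∑ c' ∈ Ico 0 n ×ˢ Ico 0 n, p c * p c' * (dC c c' / n) ^ (-s) ≤ A

/-- The hypothesis on the occupied cells. -/
def OccHyp : Prop := ∀ s : ℝ, 0 < s → s < 4 / 3 → ∃ c₀ A : ℝ, 0 < c₀ ∧ ∃ n₀ : ℕ, ∀ n : ℕ, n₀ ≤ n →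
  ∃ k : ℕ, 0 < k ∧ ∀ᶠ a : ℕ in atTop, ∀ ρ : ℤ, 0 ≤ ρ → k * ρ ≤ a →
    c₀ ≤ EL n a fun e => {ω | Lr n a ω e ∧ GoodW s A n a ρ ω e}

end Pool.Agent.Occ
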