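import Pool.Agent.Lib.MP_6bd702_occ.XDefs
import Pool.Agent.Lib.MP_6bd702_perc3.T3Tip
import Pool.Agent.Lib.MP_6bd702_perc3.T2All
import Pool.Agent.Lib.MP_6bd702_perc3.T2Par
import Pool.Agent.Lib.MP_6bd702_perc3.T2Close
import Pool.Agent.Lib.MP_6bd702_perc3.Routes

/-!
# The row XC: close inner tips are unlikely
-/

set_option autoImplicit false

namespace Pool.Agent.Occ

open Finset Pool.Agent.Perc Pool.Agent.Perc.Q Pool.Agent.Perc3

namespace XC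

variable {d w g r : ℤ} {ω : Cfg}

/-- The tips of different legs are different. -/
theorem tip_ne (hw : 0 < w) {i j : Fin 3} (hij : i ≠ j) {t t' : ℤ} (h : TipL w ω i t)
    (h' : TipL w ω j t') : t ≠ t' := by
  rintro rfl
  have h4 := LegsAux.orb_eq (LegsAux.ini_leg hw i) (LegsAux.ini_leg hw j) h.2 h'.2
  have h5 : ine 0 (i : ℕ) = ine 0 (j : ℕ) := Prod.swap_injective h4
  have h6 := ine_inj (r := 0) le_rfl (by omega) (by omega) (by omega) (by omega) h5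
  exact hij (Fin.ext (by exact_mod_cast h6))

/-- Two different tips belong to an alternating triple of crossing strands. -/
theorem exists_triple' (hr : 0 < r) (hrw : r < w) {i j : Fin 3} (hij : i ≠ j) {t t' : ℤ}
    (h : TipL w ω i t) (h' : TipL w ω j t') :
    ∃ s ∈ TA w, ω ∈ Rea3 r w s ∧ ∃ k l, k ≠ l ∧ s k = t ∧ s l = t' := by
  have hne := tip_ne (by omega) hij h h'
  have h1 := (vis_tip hr hrw le_rfl h.1.1 h.1.2 h.2).2
  have h2 := (vis_tip hr hrw le_rfl h'.1.1 h'.1.2 h'.2).2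
  have main : ∃ s : Fin 3 → ℤ, Alt w s ∧ (∀ i, Rea r w ω (s i)) ∧ (∃ i, s i = t) ∧
      ∃ i, s i = t' := by
    rcases lt_or_gt_of_ne hne with hlt | hlt
    · exact exists_triple hr.le hrw h.1.1 hlt h'.1.2 h1 h2
    · obtain ⟨s, k1, k2, k3, k4⟩ := exists_triple hr.le hrw h'.1.1 hlt h.1.2 h2 h1
      exact ⟨s, k1, k2, k4, k3⟩
  obtain ⟨s, hA, hS, ⟨k, hk⟩, l, hl⟩ := main
  refine ⟨s, mem_TA.2 hA, hS, k, l, ?_, hk, hl⟩
  rintro rfl
  exact hne (hk.symm.trans hl)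

/-- The event is covered by the events of the triples. -/
theorem cover (hr : 0 < r) (hrd : r ≤ d) (hdw : d < w) (hω : ω ∈ Arm3 w)
    (h : ω ∈ CloseL d w g) :
    ∃ s ∈ TA w, ω ∈ Rea3 r w s ∩ CloseI d w g s ∨ ω ∈ SpecI d w g s := by
  have hw : 1 ≤ w := by omega
  obtain ⟨i, t, x, hT, hx, hxO, hcase⟩ := h
  rcases hcase with hns | ⟨j, t', x', hji, hT', hx', hxO', hnear⟩
  · obtain ⟨t', h0, h1, h2⟩ := LegsAux.exit_leg hw hω (i + 1)
    have hT' : TipL w ω (i + 1) t' := ⟨⟨h0, h1⟩, h2⟩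
    have hi : i ≠ i + 1 := by
      fin_cases i <;> decide
    obtain ⟨s, hs, hR, k, l, hkl, hk, hl⟩ := exists_triple' hr (by omega) hi hT hT'
    refine ⟨s, hs, Or.inr ⟨rea3_mono hr.le hrd hdw (mem_TA.1 hs) hR, k, x, ?_, hns⟩⟩
    refine ⟨hx.1, hx.2, ?_⟩
    rw [hk]
    exact hxO
  · obtain ⟨s, hs, hR, k, l, hkl, hk, hl⟩ := exists_triple' hr (by omega) hji.symm hT hT'
    refine ⟨s, hs, Or.inl ⟨hR, rea3_mono hr.le hrd hdw (mem_TA.1 hs) hR, k, l, x, x', hkl, ?_,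
      ?_, hnear⟩⟩
    · refine ⟨hx.1, hx.2, ?_⟩
      rw [hk]
      exact hxO
    · refine ⟨hx'.1, hx'.2, ?_⟩
      rw [hl]
      exact hxO'

/-- The closeness event depends on the faces of the annulus. -/
theorem depOn_closeI (d w g : ℤ) (t : Fin 3 → ℤ) :
    DepOn ((BW w \ BW d : Finset (ℤ × ℤ)) : Set (ℤ × ℤ)) (CloseI d w g t) := by
  intro ω ω' h
  rw [coe_sdiff] at h
  constructor
  · exact closeI_congr fun f hf => h f (VS_sub hf)
  · exact closeI_congr fun f hf => (h f (VS_sub hf)).symm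

theorem specI_congr {ω' : Cfg} {t : Fin 3 → ℤ} (h : ∀ f ∈ VS d w t ω, ω f = ω' f)
    (hω : ω ∈ SpecI d w g t) : ω' ∈ SpecI d w g t := by
  obtain ⟨h1, i, s, h2, h3⟩ := hω
  exact ⟨rea3_congr h h1, i, s, (TipI.congr h).2 h2, h3⟩

theorem depOn_specI (d w g : ℤ) (t : Fin 3 → ℤ) :
    DepOn ((BW w \ BW d : Finset (ℤ × ℤ)) : Set (ℤ × ℤ)) (SpecI d w g t) := by
  intro ω ω' h
  rw [coe_sdiff] at h
  constructor
  · exact specI_congr fun f hf => h f (VS_sub hf)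
  · exact specI_congr fun f hf => (h f (VS_sub hf)).symm

theorem dep_mono {S S' : Set (ℤ × ℤ)} (h : S ⊆ S') {A : Set Cfg} (hA : DepOn S A) :
    DepOn S' A := fun ω ω' h' => hA ω ω' fun f hf => h' f (h hf)

theorem dep_inter {S : Set (ℤ × ℤ)} {A B : Set Cfg} (hA : DepOn S A) (hB : DepOn S B) :
    DepOn S (A ∩ B) := fun ω ω' h => and_congr (hA ω ω' h) (hB ω ω' h)

/-- Independence. -/
theorem pr_arm_inter {W : ℤ} (hrw : r ≤ w) (hwW : w ≤ W) {A : Set Cfg}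
    (hA : DepOn ((BW w \ BW r : Finset (ℤ × ℤ)) : Set (ℤ × ℤ)) A) :
    pr (BW W) (Arm3 r ∩ A) = pr (BW r) (Arm3 r) * pr (BW w) A := by
  have h1 := pr_inter_of_disjoint (TwE.depOn_arm3 r) hA
    (by rw [disjoint_comm]; exact sdiff_disjoint)
  have e : BW r ∪ BW w \ BW r = BW w := union_sdiff_of_subset (BW_mono hrw)
  rw [e] at h1
  have h2 : DepOn ((BW w : Finset (ℤ × ℤ)) : Set (ℤ × ℤ)) (Arm3 r ∩ A) := by
    refine dep_inter (dep_mono ?_ (TwE.depOn_arm3 r)) (dep_mono ?_ hA)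
    · exact BW_mono hrw
    · exact coe_subset.2 sdiff_subset
  rw [pr_eq_of_depOn h2 (BW_sub hwW), h1, pr_eq_of_depOn hA sdiff_subset]

end XC

/-- XC -/
theorem closeLow : CloseLow := by
  obtain ⟨C, hC, haT⟩ := aT_le_top Rt.portsP Rt.routesP
  obtain ⟨C', hC', hq3⟩ := q3_upper_top Rt.portsP
  intro q hq
  set q' : ℝ := q / (6 * C * C') with hq'
  have hq'0 : 0 < q' := by positivity
  obtain ⟨M₁, hM₁, hc⟩ := closeInP q' hq'0
  obtain ⟨M₂, hM₂, hs⟩ := specInP q' hq'0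
  refine ⟨2 * (M₁ + M₂), by omega, ?_⟩
  intro g d w hg hMd hdw hd2
  obtain ⟨r, rfl⟩ : ∃ r, d = 2 * r := ⟨d / 2, by omega⟩
  have hMr : (M₁ + M₂) * g ≤ r := by
    have : 2 * ((M₁ + M₂) * g) ≤ 2 * r := by rw [← mul_assoc]; exact hMd
    omega
  have h1 : M₁ * g ≤ r := le_trans (Nat.mul_le_mul_right g (by omega)) hMr
  have h2 : M₂ * g ≤ 2 * r := le_trans (Nat.mul_le_mul_right g (by omega)) (hMr.trans (by omega))
  have hM1g : 1 ≤ M₁ * g := Nat.mul_pos hM₁ hg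
  have hr1 : 1 ≤ r := by omega
  have hrZ : (0 : ℤ) < (r : ℤ) := by exact_mod_cast hr1
  have hsub : ∀ ω ∈ Arm3 ((2 * w : ℕ) : ℤ) ∩ CloseL ((2 * r : ℕ) : ℤ) w g,
      ∃ s ∈ TA w, ω ∈ Arm3 (r : ℤ) ∩ (Rea3 r w s ∩ CloseI (2 * r) w g s ∪ SpecI (2 * r) w g s) := by
    rintro ω ⟨hA, hCl⟩
    have hAw : ω ∈ Arm3 (w : ℤ) := arm3Anti w (2 * w) (by omega) (by omega) ω hA
    have hAr : ω ∈ Arm3 (r : ℤ) := arm3Anti r w hr1 (by omega) ω hAw
    rw [show (((2 * r : ℕ) : ℤ)) = 2 * (r : ℤ) by push_cast; ring] at hCl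
    obtain ⟨s, hs, h⟩ := XC.cover (r := r) hrZ (by omega) (by omega) hAw hCl
    exact ⟨s, hs, hAr, h⟩
  have hsum := pr_sum_le (BW ((2 * w : ℕ) : ℤ)) (TA w)
    (Arm3 ((2 * w : ℕ) : ℤ) ∩ CloseL ((2 * r : ℕ) : ℤ) w g)
    (fun s => Arm3 (r : ℤ) ∩ (Rea3 r w s ∩ CloseI (2 * r) w g s ∪ SpecI (2 * r) w g s)) hsub
  have hterm : ∀ s ∈ TA w, pr (BW ((2 * w : ℕ) : ℤ))
      (Arm3 (r : ℤ) ∩ (Rea3 r w s ∩ CloseI (2 * r) w g s ∪ SpecI (2 * r) w g s)) ≤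
      q3 r * (q' * pr (BW w) (Rea3 (2 * r) w s) + q' * pr (BW w) (Rea3 (2 * (2 * r)) w s)) := by
    intro s hsT
    have hAlt := mem_TA.1 hsT
    have hdis : (BW w \ BW (2 * r) : Finset (ℤ × ℤ)) ⊆ BW w \ BW r :=
      sdiff_subset_sdiff subset_rfl (BW_sub (by omega))
    have hd1 : DepOn ((BW w \ BW r : Finset (ℤ × ℤ)) : Set (ℤ × ℤ))
        (Rea3 r w s ∩ CloseI (2 * r) w g s ∪ SpecI (2 * r) w g s) := by
      intro ω ω' h
      have a1 := depOn_rea3 r w s ω ω' h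
      have a2 := XC.dep_mono (coe_subset.2 hdis) (XC.depOn_closeI (2 * r) w g s) ω ω' h
      have a3 := XC.dep_mono (coe_subset.2 hdis) (XC.depOn_specI (2 * r) w g s) ω ω' h
      rw [Set.mem_union, Set.mem_union, Set.mem_inter_iff, Set.mem_inter_iff, a1, a2, a3]
    rw [XC.pr_arm_inter (by omega) (by omega) hd1]
    refine mul_le_mul_of_nonneg_left ?_ (q3_nonneg r)
    refine (pr_union_le _ _ _).trans (add_le_add ?_ ?_)
    · exact hc g r w hg h1 (by omega) s hAlt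
    · have := hs g (2 * r) w hg h2 (by omega) s hAlt
      push_cast at this
      exact this
  refine (hsum.trans (sum_le_sum hterm)).trans ?_
  rw [← mul_sum, sum_add_distrib, ← mul_sum, ← mul_sum]
  change q3 r * (q' * aT (2 * r) w + q' * aT (2 * (2 * r)) w) ≤ _
  have e1 := haT (2 * r) w (by omega) (by omega)
  have e2 := haT (2 * (2 * r)) w (by omega) (by omega)
  have e3 := hq3 r hr1
  push_cast at e1 e2
  have hr0 : (0 : ℝ) < r := by exact_mod_cast hr1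
  have hw0 : (0 : ℝ) < w := by
    have : 0 < w := by omega
    exact_mod_cast this
  have key : ∀ m : ℝ, 0 < m → (m * r / w) ^ (2 / 3 : ℝ) =
      m ^ (2 / 3 : ℝ) * ((r : ℝ) ^ (2 / 3 : ℝ) * (w : ℝ) ^ (-(2 / 3) : ℝ)) := by
    intro m hm
    rw [Real.div_rpow (by positivity) hw0.le, Real.mul_rpow hm.le hr0.le, Real.rpow_neg hw0.le]
    ring
  have p2 : (2 : ℝ) ^ (2 / 3 : ℝ) ≤ 2 := by
    calc (2 : ℝ) ^ (2 / 3 : ℝ) ≤ (2 : ℝ) ^ (1 : ℝ) :=
          Real.rpow_le_rpow_of_exponent_le (by norm_num) (by norm_num)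
      _ = 2 := Real.rpow_one _
  have p4 : (4 : ℝ) ^ (2 / 3 : ℝ) ≤ 4 := by
    calc (4 : ℝ) ^ (2 / 3 : ℝ) ≤ (4 : ℝ) ^ (1 : ℝ) :=
          Real.rpow_le_rpow_of_exponent_le (by norm_num) (by norm_num)
      _ = 4 := Real.rpow_one _
  set X : ℝ := (r : ℝ) ^ (2 / 3 : ℝ) * (w : ℝ) ^ (-(2 / 3) : ℝ) with hX
  have hX0 : 0 ≤ X := by positivity
  have f1 : aT (2 * r) w ≤ C * (2 * X) := by
    refine e1.trans (mul_le_mul_of_nonneg_left ?_ hC.le)
    rw [key 2 (by norm_num)]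
    exact mul_le_mul_of_nonneg_right p2 hX0
  have f2 : aT (2 * (2 * r)) w ≤ C * (4 * X) := by
    refine e2.trans (mul_le_mul_of_nonneg_left ?_ hC.le)
    rw [show (2 : ℝ) * (2 * r) / w = 4 * r / w by ring, key 4 (by norm_num)]
    exact mul_le_mul_of_nonneg_right p4 hX0
  have hcancel : (r : ℝ) ^ (-(2 / 3) : ℝ) * (r : ℝ) ^ (2 / 3 : ℝ) = 1 := by
    rw [← Real.rpow_add hr0]
    norm_num
  calc q3 r * (q' * aT (2 * r) w + q' * aT (2 * (2 * r)) w)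
      ≤ (C' * (r : ℝ) ^ (-(2 / 3) : ℝ)) * (q' * (C * (2 * X)) + q' * (C * (4 * X))) := by
        refine mul_le_mul e3 ?_ ?_ (by positivity)
        · exact add_le_add (mul_le_mul_of_nonneg_left f1 hq'0.le)
            (mul_le_mul_of_nonneg_left f2 hq'0.le)
        · exact add_nonneg (mul_nonneg hq'0.le (aT_nonneg _ _))
            (mul_nonneg hq'0.le (aT_nonneg _ _))
    _ = q' * (6 * C * C') * ((r : ℝ) ^ (-(2 / 3) : ℝ) * (r : ℝ) ^ (2 / 3 : ℝ)) *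
          (w : ℝ) ^ (-(2 / 3) : ℝ) := by
        rw [hX]
        ring
    _ = q * (w : ℝ) ^ (-(2 / 3) : ℝ) := by
        rw [hcancel, mul_one, hq', div_mul_cancel₀ _ (by positivity)]

end Pool.Agent.Occ
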