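import Pool.Agent.Lib.MP_6bd702_occ.XTAx
import Pool.Agent.Lib.MP_6bd702_perc3.T3Pair
import Pool.Agent.Lib.MP_6bd702_perc3.T3Prob
import Pool.Agent.Lib.MP_6bd702_perc3.S2Top
import Pool.Agent.Lib.MP_6bd702_perc3.Routes
import Pool.Agent.Lib.MP_6bd702_percw.LowMix

/-!
# The lower bound in the twisted plane (row XT)
-/

set_option autoImplicit false

namespace Pool.Agent.Occ

open Finset Filter Topology Pool.Agent.Perc Pool.Agent.Perc.Q Pool.Agent.Perc3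
open Pool.Agent.PercL (pr_biUnion_le)

namespace XTAux

theorem lea3_of {W : ℤ} (hW : 1 ≤ W) {ω : Cfg} (h : ω ∈ Arm3 W) : Lea3 W ω := by
  intro j
  obtain ⟨t, h0, h1, h2⟩ := LegsAux.exit_leg hW h j
  refine ⟨t, h0, h1, ?_⟩
  rw [LegsAux.an_zero W]
  exact h2

/-- The deterministic implication. -/
theorem px_of_ev {K m : ℕ} (hK : ∀ (σ d w : ℤ) (r : ℕ) (i : Fin 3) (ω : Cfg) (t₁ t₂ : ℤ),
    16 * (m + 7) ≤ σ → 16 * σ ≤ d → d < w → w ≤ K * σ → 16 * σ + 3 ≤ r → Lea3 w ω →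
    ω ∉ NT r d w w i → (0 ≤ t₁ ∧ t₁ < 8 * w + 3) → (0 ≤ t₂ ∧ t₂ < 8 * w + 3) →
    (ine w t₁).swap ∈ Orb TQ ω (BW w) (leg i) →
    (ine w t₂).swap ∈ Orb TQ ω (BW w) (leg (i + 1)) →
    lcf 1 ω ∈ PairT (w + σ) (d - σ) d w (2 * m + 12) σ m t₁ t₂ (epsT w t₁ t₂))
    {N A Ni Ai σ : ℤ} {r : ℕ} (hσ : 16 * ((m : ℤ) + 7) ≤ σ) (hσA : σ ≤ A)
    (hσd : 16 * σ ≤ Ni * Ai) (hdw : 4 * (Ni * Ai) < N * A) (hA : 100 * A ≤ N * A)
    (hKσ : N * A ≤ K * σ) (hr : 16 * σ + 3 ≤ r) {ω : Cfg}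
    (hω : ω ∈ Arm3 (N * A)) {i : Fin 3} {ya yb : ℤ} (hPE : PortEv (N * A) ω i ya yb)
    (hN : ω ∉ NT r (Ni * Ai) (N * A) (N * A) i) (hclose : ω ∉ CloseL (Ni * Ai) (N * A) (20 * Ai))
    (hball : ω ∉ BallBad (N * A) (7 * A)) : lcf 1 ω ∈ PX N A Ni Ai σ m ya yb := by
  obtain ⟨hP, hT1, hT2⟩ := hPE
  have hP' := mem_Ports hP
  simp only at hP'
  have h1 := hK σ (Ni * Ai) (N * A) r i ω ya (4 * (N * A) + 1 - yb) hσ hσd (by omega) hKσ hr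
    (lea3_of (by omega) hω) hN hT1.1 hT2.1 hT1.2 hT2.2
  have h2 : epsT (N * A) ya (4 * (N * A) + 1 - yb) = 0 := by
    unfold epsT
    rw [if_neg (by omega)]
  rw [h2] at h1
  exact ⟨h1, ax_of hσ hσA hσd hdw hA ⟨hP, hT1, hT2⟩ hclose hball h1⟩

/-- The covering of the event. -/
theorem ev_cover {K m : ℕ} (hK : ∀ (σ d w : ℤ) (r : ℕ) (i : Fin 3) (ω : Cfg) (t₁ t₂ : ℤ),
    16 * (m + 7) ≤ σ → 16 * σ ≤ d → d < w → w ≤ K * σ → 16 * σ + 3 ≤ r → Lea3 w ω →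
    ω ∉ NT r d w w i → (0 ≤ t₁ ∧ t₁ < 8 * w + 3) → (0 ≤ t₂ ∧ t₂ < 8 * w + 3) →
    (ine w t₁).swap ∈ Orb TQ ω (BW w) (leg i) →
    (ine w t₂).swap ∈ Orb TQ ω (BW w) (leg (i + 1)) →
    lcf 1 ω ∈ PairT (w + σ) (d - σ) d w (2 * m + 12) σ m t₁ t₂ (epsT w t₁ t₂))
    {N A Ni Ai σ r : ℕ} (hσ : 16 * (m + 7) ≤ σ) (hσA : σ ≤ A)
    (hσd : 16 * σ ≤ Ni * Ai) (hdw : 4 * (Ni * Ai) < N * A) (hA : 100 * A ≤ N * A)
    (hKσ : N * A ≤ K * σ) (hr : 16 * σ + 3 ≤ r) :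
    pr (BW ((2 * (N * A) : ℕ) : ℤ)) {ω | ω ∈ Arm3 ((2 * (N * A) : ℕ) : ℤ) ∧
        ∃ i ya yb, PortEv ((N * A : ℕ) : ℤ) ω i ya yb} ≤
      pr (BW ((Ni * Ai : ℕ) : ℤ)) (Arm3 ((Ni * Ai : ℕ) : ℤ)) *
        ∑ p ∈ Ports (N * A), pr (BW (N * A)) {ω | lcf 1 ω ∈ PX N A Ni Ai σ m p.1 p.2} +
      ∑ i : Fin 3, pr (BW ((2 * (N * A) : ℕ) : ℤ)) (Arm3 ((2 * (N * A) : ℕ) : ℤ) ∩
        NT r ((Ni * Ai : ℕ) : ℤ) ((N * A : ℕ) : ℤ) ((N * A : ℕ) : ℤ) i) +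
      pr (BW ((2 * (N * A) : ℕ) : ℤ)) (Arm3 ((2 * (N * A) : ℕ) : ℤ) ∩
        CloseL ((Ni * Ai : ℕ) : ℤ) ((N * A : ℕ) : ℤ) ((20 * Ai : ℕ) : ℤ)) +
      pr (BW ((2 * (N * A) : ℕ) : ℤ)) (Arm3 ((2 * (N * A) : ℕ) : ℤ) ∩
        BallBad ((N * A : ℕ) : ℤ) ((7 * A : ℕ) : ℤ)) := by
  set W : ℤ := ((2 * (N * A) : ℕ) : ℤ) with hW
  set X : Set Cfg := {ω | ∃ p ∈ Ports ((N : ℤ) * A), ω ∈
    {ω | lcf 1 ω ∈ PX N A Ni Ai σ m p.1 p.2}} with hX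
  set U : Fin 3 → Set Cfg := fun i => Arm3 W ∩
    NT r ((Ni * Ai : ℕ) : ℤ) ((N * A : ℕ) : ℤ) ((N * A : ℕ) : ℤ) i with hU
  set E2 : Set Cfg := Arm3 W ∩ CloseL ((Ni * Ai : ℕ) : ℤ) ((N * A : ℕ) : ℤ) ((20 * Ai : ℕ) : ℤ)
    with hE2
  set E3 : Set Cfg := Arm3 W ∩ BallBad ((N * A : ℕ) : ℤ) ((7 * A : ℕ) : ℤ) with hE3
  have hNA : ((N * A : ℕ) : ℤ) = (N : ℤ) * A := by push_cast; ring
  have hNi : ((Ni * Ai : ℕ) : ℤ) = (Ni : ℤ) * Ai := by push_cast; ring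
  have hdwZ : 4 * ((Ni : ℤ) * Ai) < (N : ℤ) * A := by exact_mod_cast hdw
  have hd0 : 1 ≤ Ni * Ai := by omega
  -- the cover
  have h1 : pr (BW W) {ω | ω ∈ Arm3 W ∧ ∃ i ya yb, PortEv ((N * A : ℕ) : ℤ) ω i ya yb} ≤
      pr (BW W) ((((Arm3 ((Ni * Ai : ℕ) : ℤ) ∩ X) ∪ {ω | ∃ i ∈ (univ : Finset (Fin 3)), ω ∈ U i}) ∪
        E2) ∪ E3) := by
    refine pr_mono _ ?_
    rintro ω ⟨hω, i, ya, yb, hPE⟩
    by_cases g3 : ω ∈ E3
    · exact Or.inr g3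
    by_cases g2 : ω ∈ E2
    · exact Or.inl (Or.inr g2)
    by_cases g1 : ω ∈ U i
    · exact Or.inl (Or.inl (Or.inr ⟨i, mem_univ i, g1⟩))
    refine Or.inl (Or.inl (Or.inl ⟨?_, ?_⟩))
    · exact arm3Anti (Ni * Ai) (2 * (N * A)) hd0 (by omega) ω hω
    · refine ⟨(ya, yb), ?_, ?_⟩
      · rw [← hNA]
        exact hPE.1
      · have hσZ : 16 * ((m : ℤ) + 7) ≤ σ := by exact_mod_cast hσ
        have hσdZ : 16 * (σ : ℤ) ≤ (Ni : ℤ) * Ai := by exact_mod_cast hσd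
        have hAZ : 100 * (A : ℤ) ≤ (N : ℤ) * A := by exact_mod_cast hA
        have hKZ : (N : ℤ) * A ≤ K * (σ : ℤ) := by exact_mod_cast hKσ
        refine px_of_ev (r := r) hK hσZ (by exact_mod_cast hσA) hσdZ hdwZ hAZ hKZ
          (by exact_mod_cast hr) ?_ (i := i) ?_ ?_ ?_ ?_
        · rw [← hNA]
          exact arm3Anti (N * A) (2 * (N * A)) (by omega) (by omega) ω hω
        · rw [← hNA]
          exact hPE
        · intro h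
          exact g1 ⟨hω, by rw [hNi, hNA]; exact h⟩
        · intro h
          refine g2 ⟨hω, ?_⟩
          rw [hNi, hNA]
          push_cast
          exact h
        · intro h
          refine g3 ⟨hω, ?_⟩
          rw [hNA]
          push_cast
          exact h
  -- independence
  have hsub1 : BW ((Ni * Ai : ℕ) : ℤ) ∪ (BW ((N : ℤ) * A) \ BW ((Ni : ℤ) * Ai)) ⊆ BW W := by
    intro f hf
    rw [Finset.mem_union, Finset.mem_sdiff, BdAux.mem_BW, BdAux.mem_BW, BdAux.mem_BW] at hf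
    rw [BdAux.mem_BW, hW]
    push_cast at hf ⊢
    omega
  have hdX : DepOn ((BW ((N : ℤ) * A) \ BW ((Ni : ℤ) * Ai) : Finset (ℤ × ℤ)) : Set (ℤ × ℤ)) X := by
    intro ω ω' h
    exact exists_congr fun p => and_congr_right fun _ =>
      depOn_px (N : ℤ) A Ni Ai σ m p.1 p.2 ω ω' h
  have hdisj : Disjoint (BW ((Ni * Ai : ℕ) : ℤ)) (BW ((N : ℤ) * A) \ BW ((Ni : ℤ) * Ai)) := by
    rw [hNi]
    exact disjoint_sdiff
  have h2 : pr (BW W) (Arm3 ((Ni * Ai : ℕ) : ℤ) ∩ X) =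
      pr (BW ((Ni * Ai : ℕ) : ℤ)) (Arm3 ((Ni * Ai : ℕ) : ℤ)) *
        pr (BW ((N : ℤ) * A) \ BW ((Ni : ℤ) * Ai)) X := by
    have h3 := pr_inter_of_disjoint (depOn_arm3' ((Ni * Ai : ℕ) : ℤ)) hdX hdisj
    rw [← h3]
    refine pr_eq_of_depOn ?_ hsub1
    intro ω ω' h
    refine and_congr (depOn_arm3' _ ω ω' fun f hf => h f ?_) (hdX ω ω' fun f hf => h f ?_)
    · rw [coe_union]
      exact Or.inl hf
    · rw [coe_union]
      exact Or.inr hf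
  have h3 : pr (BW ((N : ℤ) * A) \ BW ((Ni : ℤ) * Ai)) X ≤
      ∑ p ∈ Ports ((N : ℤ) * A), pr (BW ((N : ℤ) * A)) {ω | lcf 1 ω ∈ PX N A Ni Ai σ m p.1 p.2} := by
    refine (pr_biUnion_le _ _).trans (le_of_eq (Finset.sum_congr rfl fun p _ => ?_))
    exact (pr_eq_of_depOn (depOn_px (N : ℤ) A Ni Ai σ m p.1 p.2) sdiff_subset).symm
  have h4 := pr_union_le (BW W) (((Arm3 ((Ni * Ai : ℕ) : ℤ) ∩ X) ∪
    {ω | ∃ i ∈ (univ : Finset (Fin 3)), ω ∈ U i}) ∪ E2) E3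
  have h5 := pr_union_le (BW W) ((Arm3 ((Ni * Ai : ℕ) : ℤ) ∩ X) ∪
    {ω | ∃ i ∈ (univ : Finset (Fin 3)), ω ∈ U i}) E2
  have h6 := pr_union_le (BW W) (Arm3 ((Ni * Ai : ℕ) : ℤ) ∩ X)
    {ω | ∃ i ∈ (univ : Finset (Fin 3)), ω ∈ U i}
  have h7 := pr_biUnion_le (W := BW W) (univ : Finset (Fin 3)) U
  have h8 : pr (BW W) (Arm3 ((Ni * Ai : ℕ) : ℤ) ∩ X) ≤
      pr (BW ((Ni * Ai : ℕ) : ℤ)) (Arm3 ((Ni * Ai : ℕ) : ℤ)) *
        ∑ p ∈ Ports ((N : ℤ) * A),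
          pr (BW ((N : ℤ) * A)) {ω | lcf 1 ω ∈ PX N A Ni Ai σ m p.1 p.2} := by
    rw [h2]
    exact mul_le_mul_of_nonneg_left h3 (pr_nonneg _ _)
  exact h1.trans (h4.trans (add_le_add (h5.trans (add_le_add (h6.trans (add_le_add h8 h7)) le_rfl))
    le_rfl))

/-- The final computation. -/
theorem final_real {cP C3 V D S x : ℝ}
    (h : cP * V ≤ C3 * D * S + cP / 8 * V + cP / 8 * V + cP / 8 * V) (hDV : D * x = V)
    (hD0 : 0 < D) (hC3 : 0 < C3) (hx : 0 ≤ x) (hcP : 0 < cP) : cP / (4 * C3) * x ≤ S := by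
  have e10 : cP / 2 * x ≤ C3 * S := by
    have h6 : D * (cP / 2 * x) ≤ D * (C3 * S) := by
      rw [← hDV] at h
      have h7 : 0 ≤ cP * (D * x) := by positivity
      linarith
    exact le_of_mul_le_mul_left h6 hD0
  have h8 : cP / 4 * x ≤ C3 * S := by
    have h7 : 0 ≤ cP * x := by positivity
    linarith
  calc cP / (4 * C3) * x = (cP / 4 * x) / C3 := by field_simp
    _ ≤ (C3 * S) / C3 := div_le_div_of_nonneg_right h8 hC3.le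
    _ = S := by field_simp

/-- The bound for one near touch. -/
theorem nt_real {cP C1 C3 B k D V ρ q P : ℝ} (hB : B = 3 * C1 * C3 * k) (hC1 : 0 < C1)
    (hC3 : 0 < C3) (hk : 0 < k) (hcP : 0 < cP) (hρ : ρ ≤ q) (hq : q ≤ cP / 8 / B)
    (hP : P ≤ C3 * D) (hP0 : 0 ≤ P) (hDV : D ≤ k * V) : C1 * ρ * P ≤ cP / 24 * V := by
  have hB0 : 0 < B := by rw [hB]; positivity
  have h6 : C1 * ρ ≤ C1 * (cP / 8 / B) := mul_le_mul_of_nonneg_left (hρ.trans hq) hC1.le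
  calc C1 * ρ * P ≤ C1 * (cP / 8 / B) * (C3 * D) := mul_le_mul h6 hP hP0 (by positivity)
    _ ≤ C1 * (cP / 8 / B) * (C3 * (k * V)) := by
        refine mul_le_mul_of_nonneg_left ?_ (by positivity)
        exact mul_le_mul_of_nonneg_left hDV hC3.le
    _ = cP / 24 * V := by
        rw [hB]
        field_simp
        ring

/-- The powers. -/
theorem pow_real {d w κ : ℝ} (hd0 : 0 < d) (hw0 : 0 < w) (h : w ≤ κ * d) :
    d ^ (-(2 / 3 : ℝ)) * (d / w) ^ ((2 : ℝ) / 3) = w ^ (-(2 / 3 : ℝ)) ∧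
      d ^ (-(2 / 3 : ℝ)) ≤ κ ^ ((2 : ℝ) / 3) * w ^ (-(2 / 3 : ℝ)) := by
  have h6 : d ^ ((2 : ℝ) / 3) ≠ 0 := (Real.rpow_pos_of_pos hd0 _).ne'
  have h7 : w ^ ((2 : ℝ) / 3) ≠ 0 := (Real.rpow_pos_of_pos hw0 _).ne'
  constructor
  · rw [Real.div_rpow hd0.le hw0.le, Real.rpow_neg hd0.le, Real.rpow_neg hw0.le]
    field_simp
  · have h8 : w / d ≤ κ := by rwa [div_le_iff₀ hd0]
    have h9 : (w / d) ^ ((2 : ℝ) / 3) ≤ κ ^ ((2 : ℝ) / 3) :=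
      Real.rpow_le_rpow (by positivity) h8 (by norm_num)
    have h10 : d ^ (-(2 / 3 : ℝ)) = (w / d) ^ ((2 : ℝ) / 3) * w ^ (-(2 / 3 : ℝ)) := by
      rw [Real.div_rpow hw0.le hd0.le, Real.rpow_neg hd0.le, Real.rpow_neg hw0.le]
      field_simp
    rw [h10]
    exact mul_le_mul_of_nonneg_right h9 (by positivity)

end XTAux

open XTAux

/-- XT -/
theorem ttLow (h1 : PortLow) (h2 : CloseLow) (h3 : BallLow) : TTLow := by
  obtain ⟨cP, wP, hcP, hP⟩ := h1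
  obtain ⟨M2, hM2, hC⟩ := h2 (cP / 8) (by positivity)
  obtain ⟨M3, wB, hM3, hB⟩ := h3 (cP / 8) (by positivity)
  obtain ⟨C1, β, hC1, hβ, hN⟩ := nt_prob
  obtain ⟨C3, hC3, hq⟩ := q3_upper_top Rt.portsP
  refine ⟨100 * M3, 100 * M2, cP / (4 * C3) * (((100 * M2 : ℕ) : ℝ) / ((100 * M3 : ℕ) : ℝ)) ^
    ((2 : ℝ) / 3), ?_, by omega, by omega, ?_⟩
  · have : (0 : ℝ) < M2 := by exact_mod_cast hM2
    have : (0 : ℝ) < M3 := by exact_mod_cast hM3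
    push_cast
    positivity
  set N : ℕ := 100 * M3 with hNdef
  set Ni : ℕ := 100 * M2 with hNidef
  intro K
  set B : ℝ := 3 * C1 * C3 * ((N : ℝ) * K + 1) ^ ((2 : ℝ) / 3) with hBdef
  have hB0 : 0 < B := by positivity
  -- the choice of `Q`
  obtain ⟨Q, hQ100, hQ⟩ : ∃ Q : ℕ, 100 ≤ Q ∧ (Q : ℝ) ^ (-β) ≤ cP / 8 / B := by
    have h4 : Tendsto (fun Q : ℕ => (Q : ℝ) ^ (-β)) atTop (𝓝 0) :=
      (tendsto_rpow_neg_atTop hβ).comp tendsto_natCast_atTop_atTop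
    have h5 := h4.eventually_lt_const (show (0 : ℝ) < cP / 8 / B by positivity)
    obtain ⟨Q, hQ1, hQ2⟩ := (h5.and (eventually_ge_atTop 100)).exists
    exact ⟨Q, hQ2, hQ1.le⟩
  obtain ⟨m, hK⟩ := pairT_of_legs (2 * N * K * Q)
  refine ⟨Q, m, 16 * (m + 7) * Q + wP + wB + 1, hQ100, ?_⟩
  intro A Ai ha0 hA1 hA2
  set σ : ℕ := Ai / Q with hσdef
  have hσ : 16 * (m + 7) ≤ σ := by
    rw [hσdef, Nat.le_div_iff_mul_le (by omega)]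
    omega
  refine ⟨hσ, ?_⟩
  have hσAi : σ * Q ≤ Ai := Nat.div_mul_le_self _ _
  have hσAi' : Ai < Q * (σ + 1) := Nat.lt_mul_div_succ Ai (by omega)
  have hAi2 : Ai ≤ 2 * Q * σ := by nlinarith
  have hσ100 : 100 * σ ≤ Ai := by nlinarith
  have hNi100 : 100 * Ai ≤ Ni * Ai := Nat.mul_le_mul_right _ (by omega)
  have hN100 : 100 * A ≤ N * A := Nat.mul_le_mul_right _ (by omega)
  have hA1' : Ni * Ai + 4 * Ai ≤ A := by
    have : (Ni + 4) * Ai = Ni * Ai + 4 * Ai := by ring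
    omega
  have hKσ : N * A ≤ 2 * N * K * Q * σ := by
    calc N * A ≤ N * (K * Ai) := Nat.mul_le_mul_left _ hA2
      _ ≤ N * (K * (2 * Q * σ)) := Nat.mul_le_mul_left _ (Nat.mul_le_mul_left _ hAi2)
      _ = 2 * N * K * Q * σ := by ring
  set r : ℕ := 16 * σ + 3 with hr
  have hmain := ev_cover (r := r) hK (N := N) (A := A) (Ni := Ni) (Ai := Ai) (σ := σ) hσ (by omega)
    (by omega) (by omega) hN100 hKσ le_rfl
  -- the inputs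
  have e1 := hP (N * A) (by omega)
  have e2 := hC (20 * Ai) (Ni * Ai) (N * A) (by omega)
    (by rw [hNidef]; nlinarith) (by omega) (by
      rw [hNidef, show 100 * M2 * Ai = 2 * (50 * M2 * Ai) by ring]
      exact Nat.mul_mod_right 2 _)
  have e3 := hB (7 * A) (N * A) (by omega) (by omega) (by rw [hNdef]; nlinarith)
  have e4 := fun i => hN r (Ni * Ai) (N * A) (2 * (N * A)) i (by omega) (by omega) (by omega)
    (by omega)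
  have e5 := hq (Ni * Ai) (by omega)
  unfold q3 at e5
  -- real numbers
  have hd0 : (0 : ℝ) < ((Ni * Ai : ℕ) : ℝ) := by
    have : 0 < Ni * Ai := by omega
    exact_mod_cast this
  have hw0 : (0 : ℝ) < ((N * A : ℕ) : ℝ) := by
    have : 0 < N * A := by omega
    exact_mod_cast this
  have hwd : ((N * A : ℕ) : ℝ) ≤ ((N : ℝ) * K + 1) * ((Ni * Ai : ℕ) : ℝ) := by
    have h7 : N * A ≤ (N * K + 1) * (Ni * Ai) := by
      calc N * A ≤ N * (K * Ai) := Nat.mul_le_mul_left _ hA2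
        _ = (N * K) * Ai := by ring
        _ ≤ (N * K + 1) * (Ni * Ai) := Nat.mul_le_mul (by omega) (by omega)
    have h8 : ((N * A : ℕ) : ℝ) ≤ (((N * K + 1) * (Ni * Ai) : ℕ) : ℝ) := Nat.cast_le.2 h7
    rw [Nat.cast_mul (N * K + 1), Nat.cast_add, Nat.cast_mul N K, Nat.cast_one] at h8
    exact h8
  obtain ⟨hDV, hDK⟩ := pow_real hd0 hw0 hwd
  have hD0 : 0 < ((Ni * Ai : ℕ) : ℝ) ^ (-(2 / 3 : ℝ)) := Real.rpow_pos_of_pos hd0 _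
  have hrd : ((r : ℝ) / ((Ni * Ai : ℕ) : ℝ)) ^ β ≤ (Q : ℝ) ^ (-β) := by
    have hQ0 : (0 : ℝ) < Q := by
      have : 0 < Q := by omega
      exact_mod_cast this
    have h6 : (r : ℝ) / ((Ni * Ai : ℕ) : ℝ) ≤ (Q : ℝ)⁻¹ := by
      rw [div_le_iff₀ hd0, inv_mul_eq_div, le_div_iff₀ hQ0]
      have h7 : r * Q ≤ Ni * Ai := by
        have h71 : 3 ≤ σ := by omega
        calc r * Q ≤ (17 * σ) * Q := Nat.mul_le_mul_right _ (by omega)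
          _ = 17 * (σ * Q) := by ring
          _ ≤ 17 * Ai := Nat.mul_le_mul_left _ hσAi
          _ ≤ Ni * Ai := by omega
      have h8 : ((r * Q : ℕ) : ℝ) ≤ ((Ni * Ai : ℕ) : ℝ) := Nat.cast_le.2 h7
      rw [Nat.cast_mul r Q] at h8
      exact h8
    rw [Real.rpow_neg hQ0.le, ← Real.inv_rpow hQ0.le]
    exact Real.rpow_le_rpow (by positivity) h6 hβ.le
  have e6 := fun i => (e4 i).trans (nt_real hBdef hC1 hC3 (by positivity) hcP hrd hQ e5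
    (pr_nonneg _ _) hDK)
  have e7 := Finset.sum_le_card_nsmul (univ : Finset (Fin 3)) _ _ fun i _ => e6 i
  rw [Finset.card_univ, Fintype.card_fin, nsmul_eq_mul] at e7
  have e7' := e7.trans (le_of_eq (show ((3 : ℕ) : ℝ) * (cP / 24 *
    ((N * A : ℕ) : ℝ) ^ (-(2 / 3 : ℝ))) = cP / 8 * ((N * A : ℕ) : ℝ) ^ (-(2 / 3 : ℝ)) by
      push_cast; ring))
  have hS0 : 0 ≤ ∑ p ∈ Ports ((N : ℤ) * A),
      pr (BW ((N : ℤ) * A)) {ω | lcf 1 ω ∈ PX N A Ni Ai σ m p.1 p.2} :=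
    sum_nonneg fun _ _ => pr_nonneg _ _
  have e8 := mul_le_mul_of_nonneg_right e5 hS0
  have e9 := e1.trans (hmain.trans (add_le_add (add_le_add (add_le_add e8 e7') e2) e3))
  have e10 := final_real e9 hDV hD0 hC3 (by positivity) hcP
  refine le_trans (le_of_eq ?_) e10
  rw [mul_assoc, ← Real.mul_rpow (by positivity) (by positivity), div_mul_div_comm,
    Nat.cast_mul Ni Ai, Nat.cast_mul N A]

end Pool.Agent.Occ
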