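import Pool.Agent.Lib.MP_6bd702_occ.ZM
import Pool.Agent.Lib.MP_6bd702_occ.XP
import Pool.Agent.Lib.MP_6bd702_occ.XC
import Pool.Agent.Lib.MP_6bd702_occ.XT
import Pool.Agent.Lib.MP_6bd702_occ.Ball
import Pool.Agent.Lib.MP_6bd702_occ.OSum2
import Pool.Agent.Lib.MP_6bd702_perc3.TTBound

/-!
# The occupied cells of a window
-/

set_option autoImplicit false

namespace Pool.Agent.Occ

open Pool.Agent.Perc.TTBd

/-- Many cells of a window are occupied with positive probability. -/
theorem occHyp : Perc6.OccHyp 0 :=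
  occHyp_of_pt (onePt ttBound (zLow (ttLow portLow closeLow ballLow)) (Or.inl rfl))
    (twoPt ttBound 0)

end Pool.Agent.Occ
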