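import Pool.Agent.Lib.MP_6bd702_perc6.Defs

/-!
# One point and two point estimates for the occupied cells of a window: definitions
-/

set_option autoImplicit false

namespace Pool.Agent.Occ

open Finset Pool.Agent.Perc Pool.Agent.PercL Pool.Agent.Perc6

/-- The faces of the window `[x, x + 4 M q η] × [y, y + 4 M q η]`. -/
noncomputable def Wd (x y M q η : ℤ) : Finset (ℤ × ℤ) :=
  RF x (x + 4 * (M * q * η)) y (y + 4 * (M * q * η))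

/-- The walls `P` and `D` are admissible for the window. -/
structure Walls (col x y M q η : ℤ) (δ : ℝ) (W SP SD : Finset (ℤ × ℤ)) (P D : Set Cfg) : Prop where
  sub : Wd x y M q η ⊆ W
  subP : SP ⊆ W
  subD : SD ⊆ W
  disj : Disjoint SP SD
  depP : DepOn SP P
  depD : DepOn SD D
  incP : IncD (parD col) P
  incD : IncD (parD (col + 1)) D
  upP : ∀ f ∈ SP, f ∈ Wd x y M q η → y + 3 * (M * q * η) ≤ f.2
  lowD : ∀ f ∈ SD, f ∈ Wd x y M q η → 2 * f.2 < 2 * y + M * q * η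
  prP : δ ≤ pr W P
  prD : δ ≤ pr W D

/-- The cells in the middle of the window. -/
def MidZ (M : ℤ) (z : ℤ × ℤ) : Prop := 3 * M ≤ 4 * z.1 ∧ 4 * z.1 < 5 * M ∧ 3 * M ≤ 4 * z.2 ∧ 4 * z.2 < 5 * M

/-- (O1) One point estimate from below. -/
def OnePt (col : ℤ) : Prop := ∀ δ : ℝ, 0 < δ → ∃ (c₀ : ℝ) (M₀ : ℕ), 0 < c₀ ∧ 1 ≤ M₀ ∧
  ∀ M : ℕ, M₀ ≤ M → ∃ q n₀ : ℕ, 1 ≤ q ∧ ∀ (η x y : ℤ), (n₀ : ℤ) ≤ η → 1 ≤ η →
  ∀ (W SP SD : Finset (ℤ × ℤ)) (P D : Set Cfg), Walls col x y M q η δ W SP SD P D →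
  ∀ z : ℤ × ℤ, MidZ M z →
    c₀ * (M : ℝ) ^ (-(2 / 3) : ℝ) ≤ pr W (P ∩ D ∩ {ω | OccAt ω col x y M q η z})

/-- (O2) Two point estimate from above. -/
def TwoPt (col : ℤ) : Prop := ∃ (C : ℝ) (M₀ : ℕ), 0 < C ∧ ∀ M q : ℕ, M₀ ≤ M → 1 ≤ M → 1 ≤ q →
  ∃ n₀ : ℕ, ∀ (η x y : ℤ), (n₀ : ℤ) ≤ η → 1 ≤ η → ∀ z z' : ℤ × ℤ, MidZ M z → MidZ M z' →
    pr (Wd x y M q η) {ω | OccAt ω col x y M q η z ∧ OccAt ω col x y M q η z'} ≤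
      C * (M : ℝ) ^ (-(2 / 3) : ℝ) * dsup z z' ^ (-(2 / 3) : ℝ)

end Pool.Agent.Occ
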