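import Pool.Agent.Lib.MP_6bd702_occ.TwoUpDet
import Pool.Agent.Lib.MP_6bd702_occ.OMu

/-!
# The two point estimate for occupied cells from above
-/

set_option autoImplicit false

namespace Pool.Agent.Occ

open Finset Filter Pool.Agent.Perc Pool.Agent.PercL Pool.Agent.Perc3
open Pool.Agent.PercD (BR mem_BR mem_BR' pr_indep MM_congr')
open Pool.Agent.PercN (LT mem_LT pr_LT_le)
open Pool.Agent.PercS5 (Ev Av depOn_Av AnF_sub_RF TTBound av_sharp Ev_sub_Av first_exit')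

variable {ω : Cfg} {n a ρ q d w D y b : ℤ} {z z' c c' : ℤ × ℤ} {M : ℕ}

/-! ### The strip on the left side -/

/-- The component of the unit edge crosses the strip on the left side. -/
def XS (n a b y : ℤ) : Set Cfg :=
  {ω | ∃ g, 0 ≤ g ∧ g < n * a ∧ ((b, g, true) : UE) ∈ MM ω (RF 0 b 0 (n * a)) (eL y)}

theorem depOn_XS (n a b y : ℤ) : DepOn (RF 0 b 0 (n * a) : Set (ℤ × ℤ)) (XS n a b y) := by
  intro ω ω' h
  unfold XS
  simp only [Set.mem_ofPred_eq, MM_congr' h]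

theorem xs_of_lr (hb : 0 < b) (hbn : b < n * a) (hy : 0 ≤ y) (hy' : y < n * a)
    (h : Lr n a ω (eL y)) : ω ∈ XS n a b y := by
  obtain ⟨y', hy1⟩ := h
  have hIn : ∀ x, x ∈ MM ω (RF 0 b 0 (n * a)) (eL y) →
      InR 0 b 0 (n * a) (ua x) ∧ InR 0 b 0 (n * a) (ub x) := by
    intro x hx
    induction hx with
    | refl =>
      unfold InR eL
      rw [ua_mk, ub_true]
      simp only
      omega
    | tail _ hs _ =>
      obtain ⟨f, hf, hm⟩ := hs
      rw [mem_coe, Perc.mem_RF] at hf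
      obtain ⟨x, v⟩ := f
      unfold InR
      rcases hm.right with rfl | rfl | rfl | rfl
      · simp only [bo, ua_mk, ub_false] at hf ⊢; omega
      · simp only [le', ua_mk, ub_true] at hf ⊢; omega
      · simp only [to', ua_mk, ub_false] at hf ⊢; omega
      · simp only [ri, ua_mk, ub_true] at hf ⊢; omega
  rcases first_exit' (F := (RF 0 b 0 (n * a) : Set (ℤ × ℤ))) hy1 with h2 | ⟨t, ht, f, hf, hf', hsd⟩
  · exfalso
    have h3 := (hIn _ h2).1
    unfold InR at h3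
    rw [ua_mk] at h3
    simp only at h3
    omega
  · have h3 := hIn _ ht
    rw [mem_coe, mem_Wn] at hf
    rw [mem_coe, Perc.mem_RF] at hf'
    obtain ⟨x, v⟩ := f
    unfold InR at h3
    rcases hsd with rfl | rfl | rfl | rfl
    · simp only [bo, ua_mk, ub_false] at h3 hf hf'; omega
    · simp only [le', ua_mk, ub_true] at h3 hf hf'
      have hx : x = b := by omega
      subst hx
      exact ⟨v, by omega, by omega, ht⟩
    · simp only [to', ua_mk, ub_false] at h3 hf hf'; omega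
    · simp only [ri, ua_mk, ub_true] at h3 hf hf'; omega

theorem sum_XS : ∃ C : ℝ, 0 < C ∧ ∀ n a b : ℤ, 0 < b → 0 < n * a → n * a ≤ 16 * b →
    ∑ y ∈ Ico 0 (n * a), pr (RF 0 b 0 (n * a)) (XS n a b y) ≤ C := by
  obtain ⟨q, hq, hq1, H⟩ := pr_LT_le 16
  refine ⟨2 / (1 - q), div_pos (by norm_num) (by linarith), fun n a b hb hna hle => ?_⟩
  refine sum_card_le hq hq1 (RF 0 b 0 (n * a)) (Ico 0 (n * a)) (fun y => XS n a b y)
    (fun ω => LT ω 0 b 0 (n * a)) ?_ ?_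
  · intro ω y
    rw [mem_LT, mem_Ico]
    exact Iff.rfl
  · intro k
    refine H 0 b 0 (n * a) _ hb hna ?_ (Finset.Subset.refl _) k
    push_cast
    omega

/-! ### The annuli -/

/-- Two strands and a corridor across the annulus, if it is not empty. -/
def XA (z : ℤ × ℤ) (d w D : ℤ) (M : ℕ) : Set Cfg :=
  {ω | d < w → shiftC z.1 z.2 ω ∈ Av w w d D M}

/-- The faces of the annulus. -/
noncomputable def AZ (z : ℤ × ℤ) (d w : ℤ) : Finset (ℤ × ℤ) := BR z w \ BR z d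

theorem mem_AZ {f : ℤ × ℤ} : f ∈ AZ z d w ↔
    (z.1 - w ≤ f.1 ∧ f.1 < z.1 + w ∧ z.2 - w ≤ f.2 ∧ f.2 < z.2 + w) ∧
      ¬ (z.1 - d ≤ f.1 ∧ f.1 < z.1 + d ∧ z.2 - d ≤ f.2 ∧ f.2 < z.2 + d) := by
  unfold AZ
  rw [Finset.mem_sdiff, mem_BR, mem_BR]

theorem shift_mem_AZ {f : ℤ × ℤ} (hf : f ∈ AnF w w d) : (f.1 + z.1, f.2 + z.2) ∈ AZ z d w := by
  rw [mem_AnF] at hf
  rw [mem_AZ]
  simp only
  omega

theorem depOn_XA (z : ℤ × ℤ) (d w D : ℤ) (M : ℕ) :
    DepOn (AZ z d w : Set (ℤ × ℤ)) (XA z d w D M) := by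
  intro ω ω' h
  have h1 := depOn_Av w w d D M (shiftC z.1 z.2 ω) (shiftC z.1 z.2 ω') fun f hf => by
    unfold shiftC
    exact h _ (mem_coe.2 (shift_mem_AZ (mem_coe.1 hf)))
  unfold XA
  simp only [Set.mem_ofPred_eq, h1]

theorem pr_XA (hTT : TTBound) : ∃ C : ℝ, 1 ≤ C ∧ ∀ (z : ℤ × ℤ) (d w : ℤ) (M : ℕ)
    (S : Finset (ℤ × ℤ)) (x : ℝ), 0 < x → 4 * ((M : ℤ) + 6) ≤ d → AZ z d w ⊆ S →
      (d < w → (d : ℝ) ≤ x * w) → (w ≤ d → 1 ≤ x) →
      pr S (XA z d w (8 * (M + 6)) M) ≤ C * x ^ (2 / 3 : ℝ) := by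
  obtain ⟨C, hC, H⟩ := av_sharp hTT
  refine ⟨max C 1, le_max_right _ _, fun z d w M S x hx hM hS h1 h2 => ?_⟩
  have hC1 : (1 : ℝ) ≤ max C 1 := le_max_right _ _
  rcases lt_or_ge d w with hdw | hdw
  · have e1 : XA z d w (8 * (M + 6)) M = {ω | shiftC z.1 z.2 ω ∈ Av w w d (8 * (M + 6)) M} := by
      ext ω
      unfold XA
      simp only [Set.mem_ofPred_eq, hdw, true_imp_iff]
    have e2 := TwoArm.pr_shift (S' := S) (depOn_Av w w d (8 * (M + 6)) M) z.1 z.2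
      fun f hf => hS (shift_mem_AZ hf)
    have e3 := pr_eq_of_depOn (depOn_Av w w d (8 * (M + 6)) M) (AnF_sub_RF (L := w) (w := w) (d := d))
    rw [e1, e2, ← e3]
    refine (H w d M hM hdw.le).trans ?_
    have hw0 : (0 : ℝ) < w := by
      have : 0 < w := by omega
      exact_mod_cast this
    have hd0 : (0 : ℝ) ≤ d := by
      have : 0 ≤ d := by omega
      exact_mod_cast this
    refine mul_le_mul (le_max_left _ _) (Real.rpow_le_rpow (by positivity) ?_ (by norm_num))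
      (by positivity) (by positivity)
    rw [div_le_iff₀ hw0]
    exact h1 hdw
  · refine (pr_le_one _ _).trans ?_
    have h3 : 1 ≤ x ^ (2 / 3 : ℝ) := Real.one_le_rpow (h2 hdw) (by norm_num)
    nlinarith

/-! ### The product -/

theorem pr_four {W S0 S1 S2 S3 : Finset (ℤ × ℤ)} {A0 A1 A2 A3 : Set Cfg} (h0 : DepOn S0 A0)
    (h1 : DepOn S1 A1) (h2 : DepOn S2 A2) (h3 : DepOn S3 A3) (w0 : S0 ⊆ W) (w1 : S1 ⊆ W)
    (w2 : S2 ⊆ W) (w3 : S3 ⊆ W) (d01 : Disjoint S0 S1) (d02 : Disjoint S0 S2)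
    (d03 : Disjoint S0 S3) (d12 : Disjoint S1 S2) (d13 : Disjoint S1 S3) (d23 : Disjoint S2 S3) :
    pr W (A0 ∩ (A1 ∩ (A2 ∩ A3))) = pr S0 A0 * (pr S1 A1 * (pr S2 A2 * pr S3 A3)) := by
  have g2 : DepOn (S2 ∪ S3 : Finset (ℤ × ℤ)) (A2 ∩ A3) := by
    intro ω ω' h
    exact and_congr (h2 ω ω' fun f hf => h f (mem_coe.2 (mem_union_left _ (mem_coe.1 hf))))
      (h3 ω ω' fun f hf => h f (mem_coe.2 (mem_union_right _ (mem_coe.1 hf))))
  have g1 : DepOn (S1 ∪ (S2 ∪ S3) : Finset (ℤ × ℤ)) (A1 ∩ (A2 ∩ A3)) := by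
    intro ω ω' h
    exact and_congr (h1 ω ω' fun f hf => h f (mem_coe.2 (mem_union_left _ (mem_coe.1 hf))))
      (g2 ω ω' fun f hf => h f (mem_coe.2 (mem_union_right _ (mem_coe.1 hf))))
  rw [pr_indep h0 g1 (disjoint_union_right.2 ⟨d01, disjoint_union_right.2 ⟨d02, d03⟩⟩) w0
      (union_subset w1 (union_subset w2 w3)),
    pr_indep h1 g2 (disjoint_union_right.2 ⟨d12, d13⟩) subset_union_left subset_union_right,
    pr_indep h2 h3 d23 subset_union_left subset_union_right]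

theorem real_prod {x n : ℝ} (hx : 0 < x) (hn : 0 < n) :
    (8 / x) ^ (2 / 3 : ℝ) * ((8 / x) ^ (2 / 3 : ℝ) * (32 * x / n) ^ (2 / 3 : ℝ)) =
      2048 ^ (2 / 3 : ℝ) * n ^ (-(2 / 3) : ℝ) * x ^ (-(2 / 3) : ℝ) := by
  rw [← Real.mul_rpow (by positivity) (by positivity),
    ← Real.mul_rpow (by positivity) (by positivity)]
  have e : 8 / x * (8 / x * (32 * x / n)) = 2048 * (n⁻¹ * x⁻¹) := by
    field_simp
    norm_num
  rw [e, Real.mul_rpow (by norm_num) (by positivity), Real.mul_rpow (by positivity) (by positivity),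
    Real.inv_rpow hn.le, Real.inv_rpow hx.le, Real.rpow_neg hn.le, Real.rpow_neg hx.le, mul_assoc]

theorem mid_pos (ha : 0 < a) (hc : Mid n c) : 3 * (n * a) ≤ 8 * (c.1 * a) ∧
    8 * (c.1 * a) < 5 * (n * a) ∧ 3 * (n * a) ≤ 8 * (c.2 * a) ∧ 8 * (c.2 * a) < 5 * (n * a) := by
  obtain ⟨m1, m2, m3, m4⟩ := hc
  have h1 := mul_le_mul_of_nonneg_right m1 ha.le
  have h2 := mul_lt_mul_of_pos_right m2 ha
  have h3 := mul_le_mul_of_nonneg_right m3 ha.le
  have h4 := mul_lt_mul_of_pos_right m4 ha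
  refine ⟨?_, ?_, ?_, ?_⟩ <;> linarith

/-- **The two point estimate from above.** -/
theorem twoUp (hTT : TTBound) : TwoUp := by
  obtain ⟨C, hC, H⟩ := pr_XA hTT
  obtain ⟨C', hC', H'⟩ := sum_XS
  refine ⟨C' * (C ^ 3 * 2048 ^ (2 / 3 : ℝ)), by positivity, 1, fun n hn k => ?_⟩
  rcases Nat.eq_zero_or_pos k with rfl | hk
  · filter_upwards [eventually_ge_atTop 1] with a ha ρ h
    exfalso
    push_cast at h
    omega
  set M : ℕ := 2 * (2 * k * n) ^ 2 with hM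
  set D : ℤ := 8 * ((M : ℤ) + 6) with hD
  filter_upwards [eventually_ge_atTop (4 * k * (8 * (M + 6)))] with a ha ρ hρ c c' hc hc'
  have hD0 : 48 ≤ D := by omega
  have hk1 : (1 : ℤ) ≤ k := by exact_mod_cast hk
  have haD : 4 * k * D ≤ a := by
    have : ((4 * k * (8 * (M + 6)) : ℕ) : ℤ) ≤ a := by exact_mod_cast ha
    rw [hD]
    push_cast at this
    linarith
  have hn1 : (1 : ℤ) ≤ n := by exact_mod_cast hn
  set q : ℤ := a / (4 * k) with hq
  have hqD : D ≤ q := by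
    rw [hq, Int.le_ediv_iff_mul_le (by omega)]
    linarith
  have hq1 : 4 * k * q ≤ a := Int.mul_ediv_self_le (by omega)
  have hq2 : (a : ℤ) < 4 * k * (q + 1) := by
    have := Int.lt_mul_ediv_self_add (x := (a : ℤ)) (show 0 < 4 * (k : ℤ) by omega)
    linarith
  have hq0 : 0 < q := by omega
  have hkq : q ≤ k * q := by nlinarith
  have hqa : 4 * q ≤ a := by linarith
  have haq : (a : ℤ) < 8 * k * q := by nlinarith
  have ha48 : (48 : ℤ) ≤ a := by omega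
  have hρ' : D + 2 * q ≤ ρ := by
    have h1 : 4 * (k : ℤ) * q ≤ k * ρ := hq1.trans hρ
    have h2 : (4 * q) * (k : ℤ) ≤ ρ * k := by linarith
    have h3 : 4 * q ≤ ρ := le_of_mul_le_mul_right h2 (by omega)
    omega
  have hna : 48 ≤ (n : ℤ) * a := by nlinarith
  set K : ℕ := 2 * k * n with hK
  have hKw : ∀ w : ℤ, 8 * w ≤ n * a → 2 * w < K * q := by
    intro w hw
    have h1 : (n : ℤ) * a < n * (8 * k * q) := mul_lt_mul_of_pos_left haq (by omega)
    have h2 : ((K : ℤ)) * q = 2 * k * n * q := by rw [hK]; push_cast; ring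
    rw [h2]
    nlinarith
  -- the distance of the cells
  set r : ℤ := max |c.1 - c'.1| |c.2 - c'.2| with hr
  set r' : ℤ := max 1 r with hr'
  have hr0 : 0 ≤ r := le_max_of_le_left (abs_nonneg _)
  have hr1 : 1 ≤ r' := le_max_left _ _
  have hrr : r ≤ r' := le_max_right _ _
  have h4r : 4 * r ≤ n := by
    obtain ⟨m1, m2, m3, m4⟩ := hc
    obtain ⟨m1', m2', m3', m4'⟩ := hc'
    have h1 : |c.1 - c'.1| ≤ r := le_max_left _ _
    rcases max_cases |c.1 - c'.1| |c.2 - c'.2| with ⟨h, -⟩ | ⟨h, -⟩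
    · rw [hr, h]
      rcases abs_cases (c.1 - c'.1) with ⟨h, -⟩ | ⟨h, -⟩ <;> rw [h] <;> omega
    · rw [hr, h]
      rcases abs_cases (c.2 - c'.2) with ⟨h, -⟩ | ⟨h, -⟩ <;> rw [h] <;> omega
  set z : ℤ × ℤ := (c.1 * a, c.2 * a) with hz
  set z' : ℤ × ℤ := (c'.1 * a, c'.2 * a) with hz'
  set w₁ : ℤ := r * a / 2 with hw₁
  set w₂ : ℤ := n * a / 8 with hw₂
  set d₂ : ℤ := 2 * (r' * a) with hd₂
  set b : ℤ := n * a / 8 with hb
  have hw1a : 2 * w₁ ≤ r * a := by omega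
  have hw1b : r * a ≤ 2 * w₁ + 1 := by omega
  have hw2a : 8 * w₂ ≤ n * a := by omega
  have hw2b : n * a ≤ 8 * w₂ + 7 := by omega
  have hra0 : 0 ≤ r * a := by positivity
  have hr'a : (a : ℤ) ≤ r' * a := by nlinarith
  have hrr'a : r * a ≤ r' * a := mul_le_mul_of_nonneg_right hrr (by omega)
  have h4ra : 4 * (r * a) ≤ n * a := by nlinarith
  have h8w1 : 8 * w₁ ≤ n * a := by omega
  -- positions
  have hpz := mid_pos (show 0 < (a : ℤ) by omega) hc
  have hpz' := mid_pos (show 0 < (a : ℤ) by omega) hc'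
  -- the distance of the centres
  have hzz : |z.1 - z'.1| ≤ r * a ∧ |z.2 - z'.2| ≤ r * a := by
    have e1 : z.1 - z'.1 = (c.1 - c'.1) * a := by rw [hz, hz']; ring
    have e2 : z.2 - z'.2 = (c.2 - c'.2) * a := by rw [hz, hz']; ring
    have e3 : |(a : ℤ)| = a := abs_of_nonneg (by omega)
    rw [e1, e2, abs_mul, abs_mul, e3]
    exact ⟨mul_le_mul_of_nonneg_right (le_max_left _ _) (by omega),
      mul_le_mul_of_nonneg_right (le_max_right _ _) (by omega)⟩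
  have hzz' : |z.1 - z'.1| = r * a ∨ |z.2 - z'.2| = r * a := by
    have e1 : z.1 - z'.1 = (c.1 - c'.1) * a := by rw [hz, hz']; ring
    have e2 : z.2 - z'.2 = (c.2 - c'.2) * a := by rw [hz, hz']; ring
    have e3 : |(a : ℤ)| = a := abs_of_nonneg (by omega)
    rw [e1, e2, abs_mul, abs_mul, e3]
    rcases max_cases |c.1 - c'.1| |c.2 - c'.2| with ⟨h, -⟩ | ⟨h, -⟩
    · left; rw [hr, h]
    · right; rw [hr, h]
  have hz1 : z.1 = c.1 * a := rfl
  have hz2 : z.2 = c.2 * a := rfl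
  have hz1' : z'.1 = c'.1 * a := rfl
  have hz2' : z'.2 = c'.2 * a := rfl
  rw [← hz1, ← hz2] at hpz
  rw [← hz1', ← hz2'] at hpz'
  -- the supports
  have w0 : RF 0 b 0 ((n : ℤ) * a) ⊆ Wn n a := by
    intro f hf
    rw [Perc.mem_RF] at hf
    rw [mem_Wn]
    omega
  have w1 : AZ z (2 * a) w₁ ⊆ Wn n a := by
    intro f hf
    rw [mem_AZ] at hf
    rw [mem_Wn]
    omega
  have w2 : AZ z' (2 * a) w₁ ⊆ Wn n a := by
    intro f hf
    rw [mem_AZ] at hf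
    rw [mem_Wn]
    omega
  have w3 : AZ z d₂ w₂ ⊆ Wn n a := by
    intro f hf
    rw [mem_AZ] at hf
    rw [mem_Wn]
    omega
  have d01 : Disjoint (RF 0 b 0 ((n : ℤ) * a)) (AZ z (2 * a) w₁) := by
    rw [Finset.disjoint_left]
    intro f hf hf'
    rw [Perc.mem_RF] at hf
    rw [mem_AZ] at hf'
    omega
  have d02 : Disjoint (RF 0 b 0 ((n : ℤ) * a)) (AZ z' (2 * a) w₁) := by
    rw [Finset.disjoint_left]
    intro f hf hf'
    rw [Perc.mem_RF] at hf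
    rw [mem_AZ] at hf'
    omega
  have d03 : Disjoint (RF 0 b 0 ((n : ℤ) * a)) (AZ z d₂ w₂) := by
    rw [Finset.disjoint_left]
    intro f hf hf'
    rw [Perc.mem_RF] at hf
    rw [mem_AZ] at hf'
    omega
  have d12 : Disjoint (AZ z (2 * a) w₁) (AZ z' (2 * a) w₁) := by
    rw [Finset.disjoint_left]
    intro f hf hf'
    rw [mem_AZ] at hf hf'
    obtain ⟨hf, -⟩ := hf
    obtain ⟨hf', -⟩ := hf'
    rcases hzz' with h | h
    · rcases abs_cases (z.1 - z'.1) with ⟨h', -⟩ | ⟨h', -⟩ <;> rw [h'] at h <;> omega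
    · rcases abs_cases (z.2 - z'.2) with ⟨h', -⟩ | ⟨h', -⟩ <;> rw [h'] at h <;> omega
  have d13 : Disjoint (AZ z (2 * a) w₁) (AZ z d₂ w₂) := by
    rw [Finset.disjoint_left]
    intro f hf hf'
    rw [mem_AZ] at hf hf'
    omega
  have d23 : Disjoint (AZ z' (2 * a) w₁) (AZ z d₂ w₂) := by
    rw [Finset.disjoint_left]
    intro f hf hf'
    rw [mem_AZ] at hf hf'
    rw [abs_le, abs_le] at hzz
    omega
  -- the inclusion of the events
  have hincl : ∀ y ∈ Ico (0 : ℤ) (n * a),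
      {ω | Lr n a ω (eL y) ∧ OccC n a ρ ω (eL y) c ∧ OccC n a ρ ω (eL y) c'} ⊆
      XS n a b y ∩ (XA z (2 * a) w₁ D M ∩ (XA z' (2 * a) w₁ D M ∩ XA z d₂ w₂ D M)) := by
    rintro y hy ω ⟨h1, h2, h3⟩
    rw [mem_Ico] at hy
    have key : ∀ (c : ℤ × ℤ) (d w : ℤ), Mid n c → OccC n a ρ ω (eL y) c → 2 * a ≤ d →
        8 * w ≤ n * a → ω ∈ XA (c.1 * a, c.2 * a) d w D M := by
      intro c d w hc h hd hw hdw
      exact Ev_sub_Av (by omega) hdw hdw
        (ev_of_occ hq0 hqa (by omega) (by omega) hc h hd hdw hw (hKw w hw) hρ')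
    exact ⟨xs_of_lr (by omega) (by omega) hy.1 hy.2 h1, key c _ _ hc h2 le_rfl h8w1,
      key c' _ _ hc' h3 le_rfl h8w1, key c _ _ hc h2 (by omega) hw2a⟩
  -- the bounds
  have hMd : 4 * ((M : ℤ) + 6) ≤ 2 * a := by omega
  have hr'0 : (0 : ℝ) < r' := by
    have : 0 < r' := by omega
    exact_mod_cast this
  have hn0 : (0 : ℝ) < n := by exact_mod_cast hn
  have har : (0 : ℝ) < a := by
    have : (0 : ℤ) < a := by omega
    exact_mod_cast this
  have x1 : 2 * (a : ℤ) < w₁ → ((2 * a : ℤ) : ℝ) ≤ 8 / r' * w₁ := by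
    intro h
    have h1 : r' = r := by
      rw [hr']
      refine max_eq_right ?_
      by_contra hcon
      have h0 : r = 0 := by omega
      rw [h0] at hw1a
      omega
    rw [div_mul_eq_mul_div, le_div_iff₀ hr'0, h1]
    have h2 : 2 * (a : ℤ) * r ≤ 8 * w₁ := by
      have : 2 * (a : ℤ) * r = 2 * (r * a) := by ring
      rw [this]
      omega
    exact_mod_cast h2
  have x1' : w₁ ≤ 2 * (a : ℤ) → (1 : ℝ) ≤ 8 / r' := by
    intro h
    rw [one_le_div hr'0]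
    have h1 : r' ≤ 8 := by
      rw [hr']
      refine max_le (by norm_num) ?_
      have h2 : r * (a : ℤ) < 5 * a := by omega
      have h3 : r < 5 := lt_of_mul_lt_mul_right h2 (by omega)
      omega
    exact_mod_cast h1
  have x3 : d₂ < w₂ → ((d₂ : ℤ) : ℝ) ≤ 32 * r' / n * w₂ := by
    intro h
    rw [div_mul_eq_mul_div, le_div_iff₀ hn0]
    have h2 : (n : ℤ) * a ≤ 16 * w₂ := by omega
    have h3 : (n : ℝ) * a ≤ 16 * w₂ := by exact_mod_cast h2
    have h4 : (d₂ : ℝ) = 2 * (r' * a) := by rw [hd₂]; push_cast; ring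
    rw [h4]
    nlinarith
  have x3' : w₂ ≤ d₂ → (1 : ℝ) ≤ 32 * r' / n := by
    intro h
    rw [one_le_div hn0]
    have h1 : (n : ℤ) * a < (16 * r' + 1) * a := by
      have : (16 * r' + 1) * (a : ℤ) = 16 * (r' * a) + a := by ring
      rw [this]
      omega
    have h2 : (n : ℤ) < 16 * r' + 1 := lt_of_mul_lt_mul_right h1 (by omega)
    have h3 : (n : ℤ) ≤ 32 * r' := by omega
    exact_mod_cast h3
  have b1 := H z (2 * a) w₁ M (AZ z (2 * a) w₁) (8 / r') (by positivity) hMd (Subset.refl _) x1 x1'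
  have b2 := H z' (2 * a) w₁ M (AZ z' (2 * a) w₁) (8 / r') (by positivity) hMd (Subset.refl _) x1
    x1'
  have b3 := H z d₂ w₂ M (AZ z d₂ w₂) (32 * r' / n) (by positivity) (by omega) (Subset.refl _) x3
    x3'
  have hS := H' n a b (by omega) (by omega) (by omega)
  have hdC : dC c c' = r' := by
    unfold dC
    rw [hr', hr]
    push_cast
    rfl
  unfold EL
  rw [hdC]
  set Y : ℝ := pr (AZ z (2 * a) w₁) (XA z (2 * a) w₁ D M) *
    (pr (AZ z' (2 * a) w₁) (XA z' (2 * a) w₁ D M) * pr (AZ z d₂ w₂) (XA z d₂ w₂ D M)) with hY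
  have hY0 : 0 ≤ Y := mul_nonneg (pr_nonneg _ _) (mul_nonneg (pr_nonneg _ _) (pr_nonneg _ _))
  have hYle : Y ≤ C ^ 3 * (2048 ^ (2 / 3 : ℝ) * (n : ℝ) ^ (-(2 / 3) : ℝ) *
      (r' : ℝ) ^ (-(2 / 3) : ℝ)) := by
    rw [← real_prod hr'0 hn0]
    calc Y ≤ (C * (8 / r') ^ (2 / 3 : ℝ)) * ((C * (8 / r') ^ (2 / 3 : ℝ)) *
          (C * (32 * r' / n) ^ (2 / 3 : ℝ))) := by
          refine mul_le_mul b1 (mul_le_mul b2 b3 (pr_nonneg _ _) (by positivity))
            (mul_nonneg (pr_nonneg _ _) (pr_nonneg _ _)) (by positivity)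
      _ = _ := by ring
  calc ∑ y ∈ Ico (0 : ℤ) (n * a), pr (Wn n a)
        {ω | Lr n a ω (eL y) ∧ OccC n a ρ ω (eL y) c ∧ OccC n a ρ ω (eL y) c'}
      ≤ ∑ y ∈ Ico (0 : ℤ) (n * a), pr (RF 0 b 0 (n * a)) (XS n a b y) * Y := by
        refine sum_le_sum fun y hy => (pr_mono _ (hincl y hy)).trans (le_of_eq ?_)
        exact pr_four (depOn_XS n a b y) (depOn_XA _ _ _ _ _) (depOn_XA _ _ _ _ _)
          (depOn_XA _ _ _ _ _) w0 w1 w2 w3 d01 d02 d03 d12 d13 d23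
    _ = (∑ y ∈ Ico (0 : ℤ) (n * a), pr (RF 0 b 0 (n * a)) (XS n a b y)) * Y := by rw [sum_mul]
    _ ≤ C' * (C ^ 3 * (2048 ^ (2 / 3 : ℝ) * (n : ℝ) ^ (-(2 / 3) : ℝ) *
        (r' : ℝ) ^ (-(2 / 3) : ℝ))) := mul_le_mul hS hYle hY0 hC'.le
    _ = C' * (C ^ 3 * 2048 ^ (2 / 3 : ℝ)) * (n : ℝ) ^ (-(2 / 3) : ℝ) *
        (r' : ℝ) ^ (-(2 / 3) : ℝ) := by ring

end Pool.Agent.Occ
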