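import Pool.Agent.Lib.MP_6bd702_occ.AtDet
import Pool.Agent.Lib.MP_6bd702_occ.TwoUp

/-!
# The two point estimate for the occupied cells of a window
-/

set_option autoImplicit false

namespace Pool.Agent.Occ

open Finset Filter Pool.Agent.Perc Pool.Agent.PercL Pool.Agent.Perc3 Pool.Agent.Perc6
open Pool.Agent.PercD (BR mem_BR mem_BR' pr_indep)
open Pool.Agent.PercS5 (Ev Av Ev_sub_Av TTBound)

variable {ω : Cfg} {col x y M q η d w D r : ℤ} {z z' : ℤ × ℤ}

theorem pr_three {W S1 S2 S3 : Finset (ℤ × ℤ)} {A1 A2 A3 : Set Cfg}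
    (h1 : DepOn S1 A1) (h2 : DepOn S2 A2) (h3 : DepOn S3 A3) (w1 : S1 ⊆ W)
    (w2 : S2 ⊆ W) (w3 : S3 ⊆ W) (d12 : Disjoint S1 S2) (d13 : Disjoint S1 S3)
    (d23 : Disjoint S2 S3) :
    pr W (A1 ∩ (A2 ∩ A3)) = pr S1 A1 * (pr S2 A2 * pr S3 A3) := by
  have g2 : DepOn (S2 ∪ S3 : Finset (ℤ × ℤ)) (A2 ∩ A3) := by
    intro ω ω' h
    exact and_congr (h2 ω ω' fun f hf => h f (mem_coe.2 (mem_union_left _ (mem_coe.1 hf))))
      (h3 ω ω' fun f hf => h f (mem_coe.2 (mem_union_right _ (mem_coe.1 hf))))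
  rw [pr_indep h1 g2 (disjoint_union_right.2 ⟨d12, d13⟩) w1 (union_subset w2 w3),
    pr_indep h2 h3 d23 subset_union_left subset_union_right]

theorem real_prod' {x n : ℝ} (hx : 0 < x) (hn : 0 < n) :
    (8 / x) ^ (2 / 3 : ℝ) * ((8 / x) ^ (2 / 3 : ℝ) * (2 * x / n) ^ (2 / 3 : ℝ)) =
      128 ^ (2 / 3 : ℝ) * n ^ (-(2 / 3) : ℝ) * x ^ (-(2 / 3) : ℝ) := by
  rw [← Real.mul_rpow (by positivity) (by positivity),
    ← Real.mul_rpow (by positivity) (by positivity)]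
  have e : 8 / x * (8 / x * (2 * x / n)) = 128 * (n⁻¹ * x⁻¹) := by
    field_simp
    norm_num
  rw [e, Real.mul_rpow (by norm_num) (by positivity), Real.mul_rpow (by positivity) (by positivity),
    Real.inv_rpow hn.le, Real.inv_rpow hx.le, Real.rpow_neg hn.le, Real.rpow_neg hx.le, mul_assoc]

/-- Two annuli around different points. -/
theorem disj_ann {u v : ℤ × ℤ} {d w R : ℤ} (h : |u.1 - v.1| = R ∨ |u.2 - v.2| = R)
    (hw : 2 * w ≤ R) : Disjoint (AZ u d w) (AZ v d w) := by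
  rw [Finset.disjoint_left]
  intro f hf hf'
  rw [mem_AZ] at hf hf'
  obtain ⟨hf, -⟩ := hf
  obtain ⟨hf', -⟩ := hf'
  rcases h with h | h
  · rcases abs_cases (u.1 - v.1) with ⟨h', -⟩ | ⟨h', -⟩ <;> rw [h'] at h <;> omega
  · rcases abs_cases (u.2 - v.2) with ⟨h', -⟩ | ⟨h', -⟩ <;> rw [h'] at h <;> omega

/-- An annulus around a point in the hole of another annulus. -/
theorem disj_ann' {u v : ℤ × ℤ} {d w R d' w' : ℤ} (h : |u.1 - v.1| ≤ R ∧ |u.2 - v.2| ≤ R)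
    (hw : R + w ≤ d') : Disjoint (AZ v d w) (AZ u d' w') := by
  rw [Finset.disjoint_left]
  intro f hf hf'
  rw [mem_AZ] at hf hf'
  obtain ⟨hf, -⟩ := hf
  obtain ⟨-, hf'⟩ := hf'
  rw [abs_le, abs_le] at h
  omega

/-- The position of a cell. -/
theorem cell_pos {a T : ℤ} (ha : 0 < a) (hT : a * M = T) {i : ℤ} (h1 : 3 * M ≤ 4 * i)
    (h2 : 4 * i < 5 * M) : 7 * T ≤ 4 * (a * (M + i)) ∧ 4 * (a * (M + i)) < 9 * T := by
  have e : a * (M + i) = T + a * i := by rw [← hT]; ring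
  have h3 : a * (3 * M) ≤ a * (4 * i) := mul_le_mul_of_nonneg_left h1 ha.le
  have h4 : a * (4 * i) < a * (5 * M) := mul_lt_mul_of_pos_left h2 ha
  have e3 : a * (3 * M) = 3 * T := by rw [← hT]; ring
  have e4 : a * (4 * i) = 4 * (a * i) := by ring
  have e5 : a * (5 * M) = 5 * T := by rw [← hT]; ring
  rw [e]
  omega

/-- **The two point estimate.** -/
theorem twoPt (hTT : TTBound) (col : ℤ) : TwoPt col := by
  obtain ⟨C, hC, H⟩ := pr_XA hTT
  refine ⟨C ^ 3 * 128 ^ (2 / 3 : ℝ), 1, by positivity, fun M q _ hM hq => ?_⟩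
  set K : ℕ := 2 * M * q + 1 with hK
  set N : ℕ := 2 * K ^ 2 with hN
  set D : ℤ := 8 * ((N : ℤ) + 6) with hD
  refine ⟨2 * (8 * (N + 6) + 1), fun η x y hη _ z z' hz hz' => ?_⟩
  have hη' : 2 * (D + 1) ≤ η := by
    rw [hD]; push_cast at hη; linarith
  have hM1 : (1 : ℤ) ≤ M := by exact_mod_cast hM
  have hq1 : (1 : ℤ) ≤ q := by exact_mod_cast hq
  have hη2 : 2 ≤ η := by omega
  set a : ℤ := q * η with ha
  have hηa : η ≤ a := by nlinarith
  set T : ℤ := M * q * η with hT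
  have haM : a * M = T := by rw [hT, ha]; ring
  have haT : a ≤ T := by nlinarith
  have hKw : ∀ w : ℤ, w ≤ T → 2 * w < K * η := by
    intro w hw
    have : (K : ℤ) * η = 2 * T + η := by rw [hK, hT]; push_cast; ring
    rw [this]
    omega
  -- the distance of the cells
  set r : ℤ := max |z.1 - z'.1| |z.2 - z'.2| with hr
  set r' : ℤ := max 1 r with hr'
  have hr0 : 0 ≤ r := le_max_of_le_left (abs_nonneg _)
  have hr1 : 1 ≤ r' := le_max_left _ _
  have hrr : r ≤ r' := le_max_right _ _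
  have h2r : 2 * r ≤ M := by
    obtain ⟨m1, m2, m3, m4⟩ := hz
    obtain ⟨m1', m2', m3', m4'⟩ := hz'
    rcases max_cases |z.1 - z'.1| |z.2 - z'.2| with ⟨h, -⟩ | ⟨h, -⟩
    · rw [hr, h]
      rcases abs_cases (z.1 - z'.1) with ⟨h, -⟩ | ⟨h, -⟩ <;> rw [h] <;> omega
    · rw [hr, h]
      rcases abs_cases (z.2 - z'.2) with ⟨h, -⟩ | ⟨h, -⟩ <;> rw [h] <;> omega
  set u : ℤ × ℤ := zc x y M q η z with hu
  set v : ℤ × ℤ := zc x y M q η z' with hv
  set w₁ : ℤ := r * a / 2 with hw₁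
  set d₂ : ℤ := 2 * (r' * a) with hd₂
  have hw1a : 2 * w₁ ≤ r * a := by omega
  have hw1b : r * a ≤ 2 * w₁ + 1 := by omega
  have hra0 : 0 ≤ r * a := mul_nonneg hr0 (by omega)
  have hr'a : a ≤ r' * a := by nlinarith
  have hrr'a : r * a ≤ r' * a := mul_le_mul_of_nonneg_right hrr (by omega)
  have h2ra : 2 * (r * a) ≤ T := by nlinarith
  -- positions
  have hp1 := cell_pos (by omega) haM hz.1 hz.2.1
  have hp2 := cell_pos (by omega) haM hz.2.2.1 hz.2.2.2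
  have hp1' := cell_pos (by omega) haM hz'.1 hz'.2.1
  have hp2' := cell_pos (by omega) haM hz'.2.2.1 hz'.2.2.2
  have hu1 : u.1 = x + a * (M + z.1) := rfl
  have hu2 : u.2 = y + a * (M + z.2) := rfl
  have hv1 : v.1 = x + a * (M + z'.1) := rfl
  have hv2 : v.2 = y + a * (M + z'.2) := rfl
  have e1 : u.1 - v.1 = (z.1 - z'.1) * a := by rw [hu1, hv1]; ring
  have e2 : u.2 - v.2 = (z.2 - z'.2) * a := by rw [hu2, hv2]; ring
  have e3 : |a| = a := abs_of_nonneg (by omega)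
  have hzz : |u.1 - v.1| ≤ r * a ∧ |u.2 - v.2| ≤ r * a := by
    rw [e1, e2, abs_mul (z.1 - z'.1) a, abs_mul (z.2 - z'.2) a, e3]
    exact ⟨mul_le_mul_of_nonneg_right (le_max_left _ _) (by omega),
      mul_le_mul_of_nonneg_right (le_max_right _ _) (by omega)⟩
  have hzz' : |u.1 - v.1| = r * a ∨ |u.2 - v.2| = r * a := by
    rw [e1, e2, abs_mul (z.1 - z'.1) a, abs_mul (z.2 - z'.2) a, e3]
    rcases max_cases |z.1 - z'.1| |z.2 - z'.2| with ⟨h, -⟩ | ⟨h, -⟩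
    · left; rw [hr, h]
    · right; rw [hr, h]
  -- the supports
  have hsub : ∀ z : ℤ × ℤ, MidZ M z → ∀ d w : ℤ, w ≤ T → AZ (zc x y M q η z) d w ⊆ Wd x y M q η := by
    intro z hz d w hw f hf
    have hp1 := cell_pos (show 0 < a by omega) haM hz.1 hz.2.1
    have hp2 := cell_pos (show 0 < a by omega) haM hz.2.2.1 hz.2.2.2
    rw [mem_AZ] at hf
    rw [mem_Wd]
    have h1 : (zc x y M q η z).1 = x + a * (M + z.1) := rfl
    have h2 : (zc x y M q η z).2 = y + a * (M + z.2) := rfl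
    rw [h1, h2] at hf
    obtain ⟨hf, -⟩ := hf
    clear_value T a
    omega
  have hw1T : w₁ ≤ T := by omega
  have s1 := hsub z hz (2 * a) w₁ hw1T
  have s2 := hsub z' hz' (2 * a) w₁ hw1T
  have s3 := hsub z hz d₂ T le_rfl
  rw [← hu] at s1 s3
  rw [← hv] at s2
  have d12 : Disjoint (AZ u (2 * a) w₁) (AZ v (2 * a) w₁) := disj_ann hzz' hw1a
  have d13 : Disjoint (AZ u (2 * a) w₁) (AZ u d₂ T) :=
    disj_ann' (R := 0) (by rw [sub_self, sub_self, abs_zero]; exact ⟨le_rfl, le_rfl⟩) (by omega)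
  have d23 : Disjoint (AZ v (2 * a) w₁) (AZ u d₂ T) := disj_ann' hzz (by omega)
  -- the inclusion of the events
  have hincl : {ω | OccAt ω col x y M q η z ∧ OccAt ω col x y M q η z'} ⊆
      XA u (2 * a) w₁ D N ∩ (XA v (2 * a) w₁ D N ∩ XA u d₂ T D N) := by
    rintro ω ⟨h2, h3⟩
    have key : ∀ (z : ℤ × ℤ) (d w : ℤ), MidZ M z → OccAt ω col x y M q η z → 2 * a ≤ d →
        w ≤ T → ω ∈ XA (zc x y M q η z) d w D N := by
      intro z d w hz h hd hw hdw
      exact Ev_sub_Av (by omega) hdw hdw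
        (ev_of_occAt hM1 hq1 hη2 hη' hz h hd hdw hw (hKw w hw))
    exact ⟨key z _ _ hz h2 le_rfl hw1T, key z' _ _ hz' h3 le_rfl hw1T,
      key z _ _ hz h2 (by omega) le_rfl⟩
  -- the bounds
  have hMd : 4 * ((N : ℤ) + 6) ≤ 2 * a := by omega
  have hr'0 : (0 : ℝ) < r' := by
    have : 0 < r' := by omega
    exact_mod_cast this
  have hM0 : (0 : ℝ) < M := by exact_mod_cast hM
  have x1 : 2 * a < w₁ → ((2 * a : ℤ) : ℝ) ≤ 8 / r' * w₁ := by
    intro h
    have h1 : r' = r := by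
      rw [hr']
      refine max_eq_right ?_
      by_contra hcon
      have h0 : r = 0 := by omega
      rw [h0] at hw1a
      omega
    rw [div_mul_eq_mul_div, le_div_iff₀ hr'0, h1]
    have h2 : 2 * a * r ≤ 8 * w₁ := by
      have : 2 * a * r = 2 * (r * a) := by ring
      rw [this]
      omega
    exact_mod_cast h2
  have x1' : w₁ ≤ 2 * a → (1 : ℝ) ≤ 8 / r' := by
    intro h
    rw [one_le_div hr'0]
    have h1 : r' ≤ 8 := by
      rw [hr']
      refine max_le (by norm_num) ?_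
      have h2 : r * a < 5 * a := by omega
      have h3 : r < 5 := lt_of_mul_lt_mul_right h2 (by omega)
      omega
    exact_mod_cast h1
  have x3 : d₂ < T → ((d₂ : ℤ) : ℝ) ≤ 2 * r' / M * T := by
    intro h
    rw [div_mul_eq_mul_div, le_div_iff₀ hM0]
    have h2 : d₂ * M ≤ 2 * r' * T := by
      rw [hd₂, ← haM]
      exact le_of_eq (by ring)
    exact_mod_cast h2
  have x3' : T ≤ d₂ → (1 : ℝ) ≤ 2 * r' / M := by
    intro h
    rw [one_le_div hM0]
    have h1 : (M : ℤ) * a ≤ 2 * r' * a := by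
      have : 2 * r' * a = d₂ := by rw [hd₂]; ring
      rw [this, mul_comm, haM]
      exact h
    have h2 : (M : ℤ) ≤ 2 * r' := le_of_mul_le_mul_right h1 (by omega)
    exact_mod_cast h2
  have b1 := H u (2 * a) w₁ N (AZ u (2 * a) w₁) (8 / r') (by positivity) hMd (Subset.refl _) x1 x1'
  have b2 := H v (2 * a) w₁ N (AZ v (2 * a) w₁) (8 / r') (by positivity) hMd (Subset.refl _) x1
    x1'
  have b3 := H u d₂ T N (AZ u d₂ T) (2 * r' / M) (by positivity) (by omega) (Subset.refl _) x3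
    x3'
  have hdC : dsup z z' = r' := by
    unfold dsup
    rw [hr', hr, max_comm]
    push_cast
    rfl
  rw [hdC]
  calc pr (Wd x y M q η) {ω | OccAt ω col x y M q η z ∧ OccAt ω col x y M q η z'}
      ≤ pr (AZ u (2 * a) w₁) (XA u (2 * a) w₁ D N) *
        (pr (AZ v (2 * a) w₁) (XA v (2 * a) w₁ D N) * pr (AZ u d₂ T) (XA u d₂ T D N)) := by
        refine (pr_mono _ hincl).trans (le_of_eq ?_)
        exact pr_three (depOn_XA _ _ _ _ _) (depOn_XA _ _ _ _ _) (depOn_XA _ _ _ _ _) s1 s2 s3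
          d12 d13 d23
    _ ≤ (C * (8 / r') ^ (2 / 3 : ℝ)) * ((C * (8 / r') ^ (2 / 3 : ℝ)) *
          (C * (2 * r' / M) ^ (2 / 3 : ℝ))) := by
        refine mul_le_mul b1 (mul_le_mul b2 b3 (pr_nonneg _ _) (by positivity))
          (mul_nonneg (pr_nonneg _ _) (pr_nonneg _ _)) (by positivity)
    _ = C ^ 3 * ((8 / r') ^ (2 / 3 : ℝ) * ((8 / r') ^ (2 / 3 : ℝ) *
          (2 * r' / M) ^ (2 / 3 : ℝ))) := by ring
    _ = C ^ 3 * 128 ^ (2 / 3 : ℝ) * (M : ℝ) ^ (-(2 / 3) : ℝ) * (r' : ℝ) ^ (-(2 / 3) : ℝ) := by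
        rw [real_prod' hr'0 hM0]; ring

end Pool.Agent.Occ
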