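import Pool.Agent.Lib.MP_6bd702_perc3.T3Defs

/-!
# Two legs with tips in the ports, separated inner tips and good balls: definitions

Outer box `BW w`, inner box `BW d`. The two ports are the heights `w / 4 ≤ y < w / 2` of the right and
of the left side. `Ai` is the mesh at the inner box, `A` the mesh at the outer box.
-/

set_option autoImplicit false

namespace Pool.Agent.Occ

open Finset Pool.Agent.Perc Pool.Agent.Perc.Q Pool.Agent.Perc3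

/-- The lifted boundary edge of the right side at the height `y`. -/
def eR (w y : ℤ) : LE := bdL w y 0

/-- The lifted boundary edge of the left side at the height `y`. -/
def eLf (w y : ℤ) : LE := bdL w (4 * w + 1 - y) 0

/-- The additional conditions on the two lifted components: they are different, the inner tips are
at distance at least `g` from the special positions and from each other, the visited faces at
distance at most `6 A` of the outer tips have the index `0`. -/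
structure AX (ζ : LF → Bool) (A g d w n ya yb : ℤ) : Prop where
  ne : eLf w yb ∉ ML ζ (LAT d w n) {eR w ya}
  away₁ : ∀ s i, 0 ≤ s → s < 8 * d + 3 → bdL d s i ∈ ML ζ (LAT d w n) {eR w ya} → Away d g s
  away₂ : ∀ s i, 0 ≤ s → s < 8 * d + 3 → bdL d s i ∈ ML ζ (LAT d w n) {eLf w yb} → Away d g s
  near : ∀ s i s' i', 0 ≤ s → s < 8 * d + 3 → bdL d s i ∈ ML ζ (LAT d w n) {eR w ya} →
    0 ≤ s' → s' < 8 * d + 3 → bdL d s' i' ∈ ML ζ (LAT d w n) {eLf w yb} → ¬ Near d g s s'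
  ball₁ : ∀ s ∈ SL ζ (LAT d w n) ({eR w ya} ∪ {eLf w yb}), |s.1.1 - w| ≤ 6 * A →
    |s.1.2 - ya| ≤ 6 * A → s.2 = 0
  ball₂ : ∀ s ∈ SL ζ (LAT d w n) ({eR w ya} ∪ {eLf w yb}), |s.1.1 + w| ≤ 6 * A →
    |s.1.2 - yb| ≤ 6 * A → s.2 = 0

/-- The complete event on the cover. `w = N A`, `d = Ni Ai`, `n = 2 m + 12`. -/
def PX (N A Ni Ai σ : ℤ) (m : ℕ) (ya yb : ℤ) : Set (LF → Bool) :=
  {ζ | ζ ∈ PairT (N * A + σ) (Ni * Ai - σ) (Ni * Ai) (N * A) (2 * m + 12) σ m ya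
      (4 * (N * A) + 1 - yb) 0 ∧
    AX ζ A (20 * Ai) (Ni * Ai) (N * A) (2 * m + 12) ya yb}

/-- The pairs of ports of the same parity. -/
noncomputable def Ports (w : ℤ) : Finset (ℤ × ℤ) :=
  ((Ico 0 w) ×ˢ (Ico 0 w)).filter fun p => w ≤ 4 * p.1 ∧ 2 * p.1 < w ∧ w ≤ 4 * p.2 ∧ 2 * p.2 < w ∧
    (p.1 + p.2) % 2 = 0

/-- The lower bound in the twisted plane. -/
def TTLow : Prop := ∃ (N Ni : ℕ) (c : ℝ), 0 < c ∧ 100 ≤ N ∧ 100 ≤ Ni ∧ ∀ K : ℕ, ∃ Q m a₀ : ℕ,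
  100 ≤ Q ∧ ∀ A Ai : ℕ, a₀ ≤ Ai → (Ni + 4) * Ai ≤ A → A ≤ K * Ai →
    16 * (m + 7) ≤ Ai / Q ∧
    c * ((Ai : ℝ) / A) ^ ((2 : ℝ) / 3) ≤ ∑ p ∈ Ports (N * A),
      pr (BW (N * A)) {ω | lcf 1 ω ∈ PX N A Ni Ai ((Ai / Q : ℕ) : ℤ) m p.1 p.2}

/-- The lower bound in the square grid. -/
def ZLow : Prop := ∃ (N Ni : ℕ) (c : ℝ), 0 < c ∧ 100 ≤ N ∧ 100 ≤ Ni ∧ ∀ K : ℕ, ∃ Q m a₀ : ℕ,
  100 ≤ Q ∧ ∀ A Ai : ℕ, a₀ ≤ Ai → (Ni + 4) * Ai ≤ A → A ≤ K * Ai →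
    16 * (m + 7) ≤ Ai / Q ∧ ∀ W : Finset (ℤ × ℤ),
    RF (-(N * A + 2 * m + 14)) (N * A + 2 * m + 12) (-(N * A)) (N * A) ⊆ W →
    c * ((Ai : ℝ) / A) ^ ((2 : ℝ) / 3) ≤ ∑ p ∈ Ports (N * A),
      pr W {ω | lcf 0 ω ∈ PX N A Ni Ai ((Ai / Q : ℕ) : ℤ) m p.1 p.2}

/-! ### The four inputs -/

/-- `t` is the tip of the leg `i` on the boundary of `BW w`. -/
def TipL (w : ℤ) (ω : Cfg) (i : Fin 3) (t : ℤ) : Prop :=
  (0 ≤ t ∧ t < 8 * w + 3) ∧ (ine w t).swap ∈ Orb TQ ω (BW w) (leg i)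

/-- The legs `i` and `i + 1` have their tips in the two ports, of the same parity; the counterclockwise
arc from `t₁` to `t₂` (the upper side) is the sector `i`. -/
def PortEv (w : ℤ) (ω : Cfg) (i : Fin 3) (ya yb : ℤ) : Prop :=
  (ya, yb) ∈ Ports w ∧ TipL w ω i ya ∧ TipL w ω (i + 1) (4 * w + 1 - yb)

/-- The legs have their tips in the ports. -/
def PortLow : Prop := ∃ (c : ℝ) (w₀ : ℕ), 0 < c ∧ ∀ w : ℕ, w₀ ≤ w →
  c * (w : ℝ) ^ (-(2 / 3) : ℝ) ≤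
    pr (BW ((2 * w : ℕ) : ℤ)) {ω | ω ∈ Arm3 ((2 * w : ℕ) : ℤ) ∧ ∃ i ya yb, PortEv w ω i ya yb}

/-- The strand which enters the box of radius `w` at the tip `t` of a leg has its inner tip near a
special position, or near the inner tip of another leg. -/
def CloseL (d w g : ℤ) : Set Cfg :=
  {ω | ∃ i t s, TipL w ω i t ∧ (0 ≤ s ∧ s < 8 * d + 3) ∧ ine d s ∈ Orb TQ ω (An d w) (ine w t) ∧
    (¬ Away d g s ∨ ∃ j t' s', j ≠ i ∧ TipL w ω j t' ∧ (0 ≤ s' ∧ s' < 8 * d + 3) ∧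
      ine d s' ∈ Orb TQ ω (An d w) (ine w t') ∧ Near d g s s')}

/-- Close inner tips are unlikely. -/
def CloseLow : Prop := ∀ q : ℝ, 0 < q → ∃ M : ℕ, 0 < M ∧ ∀ g d w : ℕ, 1 ≤ g → M * g ≤ d →
  4 * d < w → d % 2 = 0 → pr (BW ((2 * w : ℕ) : ℤ)) (Arm3 ((2 * w : ℕ) : ℤ) ∩ CloseL d w g) ≤
    q * (w : ℝ) ^ (-(2 / 3) : ℝ)

/-- The faces of `BW w` at distance at most `R` of the tip on the right side at the height `y`. -/
noncomputable def FbR (w R y : ℤ) : Finset (ℤ × ℤ) := RF (w - R) w (y - R) (y + R)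

/-- The same for the left side. -/
noncomputable def FbL (w R y : ℤ) : Finset (ℤ × ℤ) := RF (-(w + 2)) (-(w + 2) + R) (y - R) (y + R)

/-- Some face visited by the legs before they leave `BW w`, at distance at most `r` of the tip in a
port, does not belong to the strand of the tip in the half box of radius `w / 8`. -/
def BallBad (w r : ℤ) : Set Cfg :=
  {ω | ∃ i ya yb, PortEv w ω i ya yb ∧
    ((∃ f ∈ Vis TQ ω (BW w) (leg i) ∪ Vis TQ ω (BW w) (leg (i + 1)), f ∈ FbR w r ya ∧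
        f ∉ Vis TQ ω (FbR w (w / 8) ya) (ine w ya)) ∨
      ∃ f ∈ Vis TQ ω (BW w) (leg i) ∪ Vis TQ ω (BW w) (leg (i + 1)), f ∈ FbL w r yb ∧
        f ∉ Vis TQ ω (FbL w (w / 8) yb) (ine w (4 * w + 1 - yb)))}

/-- Bad balls are unlikely. -/
def BallLow : Prop := ∀ q : ℝ, 0 < q → ∃ M w₀ : ℕ, 0 < M ∧ ∀ r w : ℕ, w₀ ≤ w → 1 ≤ r → M * r ≤ w →
  pr (BW ((2 * w : ℕ) : ℤ)) (Arm3 ((2 * w : ℕ) : ℤ) ∩ BallBad w r) ≤ q * (w : ℝ) ^ (-(2 / 3) : ℝ)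

end Pool.Agent.Occ
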