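import Pool.Agent.Lib.MP_6bd702_occ.XTDet

/-!
# The additional conditions on the two lifted components (row XT)
-/

set_option autoImplicit false

namespace Pool.Agent.Occ.XTAux

open Finset Pool.Agent.Perc Pool.Agent.Perc.Q Pool.Agent.Perc3 Relation
open Pool.Agent.Perc3.LiftAux Pool.Agent.Perc3.TipAux

variable {d w A σ g ya yb : ℤ} {m : ℕ} {ω : Cfg} {i : Fin 3}

theorem mem_Ports {w : ℤ} {p : ℤ × ℤ} (h : p ∈ Ports w) :
    w ≤ 4 * p.1 ∧ 2 * p.1 < w ∧ w ≤ 4 * p.2 ∧ 2 * p.2 < w ∧ (p.1 + p.2) % 2 = 0 := by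
  unfold Ports at h
  rw [mem_filter] at h
  exact h.2

/-- The faces visited by the strand which enters at a tip. -/
theorem vis_sub (hd : 0 < d) (hdw : d < w) {t : ℤ} (h : TipL w ω i t) {f : ℤ × ℤ}
    (hf : f ∈ Vis TQ ω (An d w) (ine w t)) : f ∈ Vis TQ ω (BW w : Set (ℤ × ℤ)) (leg i) := by
  have h1 := (vis_tip hd hdw le_rfl h.1.1 h.1.2 h.2).1 hf
  unfold VT at h1
  rw [LegsAux.an_zero w] at h1
  exact h1.1

/-- The conditions on the inner tips and on the balls. -/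
theorem ax_of (hσ : 16 * ((m : ℤ) + 7) ≤ σ) (hσA : σ ≤ A) (hσd : 16 * σ ≤ d) (hdw : 4 * d < w)
    (hA : 100 * A ≤ w) (hPE : PortEv w ω i ya yb) (hclose : ω ∉ CloseL d w g)
    (hball : ω ∉ BallBad w (7 * A))
    (hpt : lcf 1 ω ∈ PairT (w + σ) (d - σ) d w (2 * m + 12) σ m ya (4 * w + 1 - yb) 0) :
    AX (lcf 1 ω) A g d w (2 * m + 12) ya yb := by
  obtain ⟨hP, hT1, hT2⟩ := hPE
  have hP' := mem_Ports hP
  simp only at hP'
  have hn0 : (0 : ℤ) ≤ 2 * m + 12 := by omega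
  have hn : (2 * m + 12 : ℤ) + 2 ≤ d := by omega
  have hdw' : d < w := by omega
  have hd : 0 < d := by omega
  have ht1 : 0 ≤ ya ∧ ya < 8 * w + 3 := by omega
  have ht2 : 0 ≤ 4 * w + 1 - yb ∧ 4 * w + 1 - yb < 8 * w + 3 := by omega
  have hi : i + 1 ≠ i := by
    fin_cases i <;> decide
  have hR1 : Rea d w ω ya := (vis_tip hd hdw' le_rfl ht1.1 ht1.2 hT1.2).2
  obtain ⟨-, -, u, l, μ, hc, -, -, hS⟩ := hpt
  -- the common part of the two balls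
  have key : ∀ (X : Set (ℤ × ℤ)) (t : ℤ), X ⊆ An d w → (∀ f ∈ X, 0 < f.2) → 0 ≤ t →
      t < 8 * w + 3 → ({bdL w t 0} : Set LE) ⊆ {bdL w ya 0} ∪ {bdL w (4 * w + 1 - yb) 0} →
      ∀ s ∈ SL (lcf 1 ω) (LAT d w (2 * m + 12))
        ({bdL w ya 0} ∪ {bdL w (4 * w + 1 - yb) 0}), pj 1 s ∈ Vis TQ ω X (ine w t) →
      s.2 = 0 := by
    intro X t hXA hX h0 h1 hE s hs hv
    refine index_zero (L := w + σ) (d₀ := d - σ) (n := 2 * m + 12) (D := σ) (μ := μ) hc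
      (by omega) (by omega) (by omega) (by omega) hS hs (Finset.mem_coe.1 (SL_sub hs)) ?_
    exact sl_mono hE (sl_zero hXA hX hn0 hd.le hdw' h0 h1 hv)
  have hvis : ∀ s ∈ SL (lcf 1 ω) (LAT d w (2 * m + 12))
      ({bdL w ya 0} ∪ {bdL w (4 * w + 1 - yb) 0}), pj 1 s ∈
        Vis TQ ω (BW w : Set (ℤ × ℤ)) (leg i) ∪ Vis TQ ω (BW w : Set (ℤ × ℤ)) (leg (i + 1)) := by
    intro s hs
    rcases sl_union hs with h | h
    · exact Or.inl (vis_sub hd hdw' hT1 (projS hn0 hn hdw' ht1.1 ht1.2 h))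
    · exact Or.inr (vis_sub hd hdw' hT2 (projS hn0 hn hdw' ht2.1 ht2.2 h))
  have hbw : ∀ s ∈ SL (lcf 1 ω) (LAT d w (2 * m + 12))
      ({bdL w ya 0} ∪ {bdL w (4 * w + 1 - yb) 0}), pj 1 s ∈ BW w ∧ |s.2| ≤ 2 * m + 12 := by
    intro s hs
    have h1 := mem_LAT.1 (Finset.mem_coe.1 (SL_sub hs))
    exact ⟨h1.1.1, h1.2⟩
  refine ⟨?_, ?_, ?_, ?_, ?_, ?_⟩
  · intro h
    have h1 := proj_ne hn0 hn hdw' ht1.1 ht1.2 ht2.1 ht2.2 hR1 h
    omega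
  · intro s j hs0 hs1 h
    have h1 := proj_in hn0 hn hdw' ht1.1 ht1.2 hs0 hs1 h
    by_contra hcon
    exact hclose ⟨i, ya, s, hT1, ⟨hs0, hs1⟩, h1, Or.inl hcon⟩
  · intro s j hs0 hs1 h
    have h1 := proj_in hn0 hn hdw' ht2.1 ht2.2 hs0 hs1 h
    by_contra hcon
    exact hclose ⟨i + 1, _, s, hT2, ⟨hs0, hs1⟩, h1, Or.inl hcon⟩
  · intro s j s' j' hs0 hs1 h hs0' hs1' h' hcon
    have h1 := proj_in hn0 hn hdw' ht1.1 ht1.2 hs0 hs1 h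
    have h2 := proj_in hn0 hn hdw' ht2.1 ht2.2 hs0' hs1' h'
    exact hclose ⟨i, ya, s, hT1, ⟨hs0, hs1⟩, h1, Or.inr ⟨i + 1, _, s', hi, hT2, ⟨hs0', hs1'⟩,
      h2, hcon⟩⟩
  · intro s hs h1 h2
    have hv := hvis s hs
    obtain ⟨hb, hsn⟩ := hbw s hs
    have hXA : ((FbR w (w / 8) ya : Finset (ℤ × ℤ)) : Set (ℤ × ℤ)) ⊆ An d w := by
      intro f hf
      rw [mem_coe, FbR, mem_RF] at hf
      refine ⟨?_, ?_⟩
      · rw [mem_coe, BdAux.mem_BW]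
        omega
      · rw [mem_coe, BdAux.mem_BW]
        omega
    refine key (FbR w (w / 8) ya : Finset (ℤ × ℤ)) ya hXA ?_ ht1.1 ht1.2
      Set.subset_union_left s hs ?_
    · intro f hf
      rw [mem_coe, FbR, mem_RF] at hf
      omega
    · by_contra hcon
      refine hball ⟨i, ya, yb, ⟨hP, hT1, hT2⟩, Or.inl ⟨pj 1 s, hv, ?_, hcon⟩⟩
      rw [FbR, mem_RF]
      rw [BdAux.mem_BW] at hb
      rw [abs_le] at h1 h2 hsn
      unfold pj at hb ⊢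
      simp only [one_mul] at hb ⊢
      omega
  · intro s hs h1 h2
    have hv := hvis s hs
    obtain ⟨hb, hsn⟩ := hbw s hs
    have hXA : ((FbL w (w / 8) yb : Finset (ℤ × ℤ)) : Set (ℤ × ℤ)) ⊆ An d w := by
      intro f hf
      rw [mem_coe, FbL, mem_RF] at hf
      refine ⟨?_, ?_⟩
      · rw [mem_coe, BdAux.mem_BW]
        omega
      · rw [mem_coe, BdAux.mem_BW]
        omega
    refine key (FbL w (w / 8) yb : Finset (ℤ × ℤ)) (4 * w + 1 - yb) hXA ?_ ht2.1 ht2.2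
      Set.subset_union_right s hs ?_
    · intro f hf
      rw [mem_coe, FbL, mem_RF] at hf
      omega
    · by_contra hcon
      refine hball ⟨i, ya, yb, ⟨hP, hT1, hT2⟩, Or.inr ⟨pj 1 s, hv, ?_, hcon⟩⟩
      rw [FbL, mem_RF]
      rw [BdAux.mem_BW] at hb
      rw [abs_le] at h1 h2 hsn
      unfold pj at hb ⊢
      simp only [one_mul] at hb ⊢
      omega

/-! ### Dependence -/

theorem ml_congr {ζ ζ' : LF → Bool} {Ft : Set LF} (h : ∀ s ∈ Ft, ζ s = ζ' s) (E : Set LE) :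
    ML ζ' Ft E = ML ζ Ft E := ML_eq fun s hs => h s (SL_sub hs)

theorem sl_congr {ζ ζ' : LF → Bool} {Ft : Set LF} (h : ∀ s ∈ Ft, ζ s = ζ' s) (E : Set LE) :
    SL ζ' Ft E = SL ζ Ft E := by
  unfold SL
  rw [ml_congr h]

theorem pairT_congr {L d₀ d w n D : ℤ} {m : ℕ} {t₁ t₂ ε : ℤ} {ζ ζ' : LF → Bool}
    (h : ∀ s ∈ LAT d w n, ζ s = ζ' s) :
    ζ ∈ PairT L d₀ d w n D m t₁ t₂ ε → ζ' ∈ PairT L d₀ d w n D m t₁ t₂ ε := by
  rintro ⟨h1, h2, u, l, μ, h3, h4, h5, h6⟩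
  have h' : ∀ s ∈ (LAT d w n : Set LF), ζ s = ζ' s := fun s hs => h s (Finset.mem_coe.1 hs)
  refine ⟨?_, ?_, u, l, μ, h3, h4, h5, ?_⟩
  · obtain ⟨s, j, h7, h8⟩ := h1
    exact ⟨s, j, h7, by rw [ml_congr h']; exact h8⟩
  · obtain ⟨s, j, h7, h8⟩ := h2
    exact ⟨s, j, h7, by rw [ml_congr h']; exact h8⟩
  · rw [sl_congr h']
    exact h6

theorem ax_congr {A g d w n ya yb : ℤ} {ζ ζ' : LF → Bool} (h : ∀ s ∈ LAT d w n, ζ s = ζ' s)
    (hA : AX ζ A g d w n ya yb) : AX ζ' A g d w n ya yb := by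
  have h' : ∀ s ∈ (LAT d w n : Set LF), ζ s = ζ' s := fun s hs => h s (Finset.mem_coe.1 hs)
  have e1 := fun E => ml_congr h' E
  have e2 := fun E => sl_congr h' E
  obtain ⟨a1, a2, a3, a4, a5, a6⟩ := hA
  refine ⟨?_, ?_, ?_, ?_, ?_, ?_⟩
  · rw [e1]; exact a1
  · rw [e1]; exact a2
  · rw [e1]; exact a3
  · rw [e1, e1]; exact a4
  · rw [e2]; exact a5
  · rw [e2]; exact a6

theorem px_congr {N A Ni Ai σ : ℤ} {m : ℕ} {ya yb : ℤ} {ζ ζ' : LF → Bool}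
    (h : ∀ s ∈ LAT (Ni * Ai) (N * A) (2 * m + 12), ζ s = ζ' s) :
    ζ ∈ PX N A Ni Ai σ m ya yb → ζ' ∈ PX N A Ni Ai σ m ya yb :=
  fun h1 => ⟨pairT_congr h h1.1, ax_congr h h1.2⟩

theorem depOn_px (N A Ni Ai σ : ℤ) (m : ℕ) (ya yb : ℤ) :
    DepOn ((BW (N * A) \ BW (Ni * Ai) : Finset (ℤ × ℤ)) : Set (ℤ × ℤ))
      {ω | lcf 1 ω ∈ PX N A Ni Ai σ m ya yb} := by
  intro ω ω' h
  have h' : ∀ s ∈ LAT (Ni * Ai) (N * A) (2 * m + 12), lcf 1 ω s = lcf 1 ω' s := by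
    intro s hs
    rw [mem_LAT] at hs
    refine h _ ?_
    rw [mem_coe, mem_sdiff]
    exact hs.1
  exact ⟨px_congr h', px_congr fun s hs => (h' s hs).symm⟩

end Pool.Agent.Occ.XTAux
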