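import Pool.Agent.Lib.MP_6bd702_occ.XDefs
import Pool.Agent.Lib.MP_6bd702_perc3.T3Lift
import Pool.Agent.Lib.MP_6bd702_perc3.T3Tip
import Pool.Agent.Lib.MP_6bd702_perc3.T3Geo
import Pool.Agent.Lib.MP_6bd702_perc3.T2Mono

/-!
# The two lifted components of the legs: the projection, the inner tips and the balls
(row XT, deterministic part)
-/

set_option autoImplicit false

namespace Pool.Agent.Occ.XTAux

open Finset Pool.Agent.Perc Pool.Agent.Perc.Q Pool.Agent.Perc3 Relation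
open Pool.Agent.Perc3.LiftAux Pool.Agent.Perc3.TipAux

variable {d w n t : ℤ} {ω : Cfg} {E : Set LE} {F : Set (ℤ × ℤ)} {e : (ℤ × ℤ) × (ℤ × ℤ)}

/-- Two lifted faces with a common lifted side. -/
theorem un_of_lft (hn : n + 2 ≤ d) {s s' : LF} (hs : s ∈ LAT d w n) (hs' : s' ∈ LAT d w n)
    {k k' : ZMod 4} (h : lft s (sd s.1 k) = lft s' (sd s'.1 k'))
    (hU : (TQ.c (pj 1 s') k', TQ.c (pj 1 s') (k' + 1)) ∈ Un TQ ω F e) :
    (TQ.c (pj 1 s) k, TQ.c (pj 1 s) (k + 1)) ∈ Un TQ ω F e := by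
  rcases adj_of_lft hn hs hs' h with ⟨rfl, rfl⟩ | ⟨h1, h2⟩
  · exact hU
  · rw [← h1, ← h2]
    exact Un_swap.2 hU

/-- The lift of a starting edge. -/
theorem start (hd : 0 ≤ d) (hdw : d < w) (h0 : 0 ≤ t) (h1 : t < 8 * w + 3) :
    ∃ f ∈ An d w, ∃ k, ine w t = (TQ.c f k, TQ.c f (k + 1)) ∧
      shS (fun _ => 0) f k = bdL w t 0 := by
  obtain ⟨f, hf, hf', k, hk⟩ := ine_face (r := w) (by omega) h0 h1
  obtain ⟨f', k', h2, h3, h4, h5⟩ := ine_in (r := w) (by omega) h0 h1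
  rw [hk] at h2
  obtain ⟨rfl, rfl⟩ := TQ.inj (Prod.mk.inj h2).1 (Prod.mk.inj h2).2
  exact ⟨f, ⟨hf, fun h => hf' (Finset.mem_coe.1 (BW_mono (show d ≤ w - 1 by omega)
    (Finset.mem_coe.2 h)))⟩, k, hk, shS_eq h3 h4 h5 _⟩

/-- The projection of the lifted component of a boundary edge. -/
theorem projB (hn0 : 0 ≤ n) (hn : n + 2 ≤ d) (hdw : d < w) (h0 : 0 ≤ t) (h1 : t < 8 * w + 3)
    {c : LE} (hc : c ∈ ML (lcf 1 ω) (LAT d w n) {bdL w t 0}) :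
    ∃ s ∈ LAT d w n, ∃ k, c = lft s (sd s.1 k) ∧
      (TQ.c (pj 1 s) k, TQ.c (pj 1 s) (k + 1)) ∈ Un TQ ω (An d w) (ine w t) := by
  have hini := ini_outer (d := d) (by omega) hdw h0 h1
  refine ML_induction (P := fun c => ∃ s ∈ LAT d w n, ∃ k, c = lft s (sd s.1 k) ∧
      (TQ.c (pj 1 s) k, TQ.c (pj 1 s) (k + 1)) ∈ Un TQ ω (An d w) (ine w t)) ?_ ?_ c hc
  · rintro c rfl
    obtain ⟨f, hf, k, h2, h3⟩ := start (d := d) (by omega) hdw h0 h1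
    refine ⟨shF (fun _ => 0) f, shF_mem hf (by simpa using hn0), k, h3.symm, ?_⟩
    rw [pj_shF, ← h2]
    exact Or.inl mem_Orb_self
  · rintro b b' s hs ⟨a, a', hm, rfl, rfl⟩ _ ⟨s₀, hs₀, k₀, h2, h3⟩
    have hs' : s ∈ LAT d w n := Finset.mem_coe.1 hs
    obtain ⟨k, hk, hka⟩ := mt_iff.1 hm
    have hval : ω (pj 1 s) = ev k := hk
    have hsA : pj 1 s ∈ An d w := pj_mem hs'
    rcases hka with ⟨rfl, rfl⟩ | ⟨rfl, rfl⟩
    · have h4 := un_of_lft hn hs' hs₀ h2 h3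
      refine ⟨s, hs', k + 1, rfl, ?_⟩
      rw [z1]
      exact (un_iff hini hsA hval).1 h4
    · have h4 := un_of_lft hn hs' hs₀ h2 h3
      refine ⟨s, hs', k, rfl, ?_⟩
      rw [z1] at h4
      exact (un_iff hini hsA hval).2 h4

/-- The projection of the visited lifted faces. -/
theorem projS (hn0 : 0 ≤ n) (hn : n + 2 ≤ d) (hdw : d < w) (h0 : 0 ≤ t) (h1 : t < 8 * w + 3)
    {s : LF} (hs : s ∈ SL (lcf 1 ω) (LAT d w n) {bdL w t 0}) :
    pj 1 s ∈ Vis TQ ω (An d w) (ine w t) := by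
  obtain ⟨hs', a, ha, hm⟩ := hs
  obtain ⟨k, rfl⟩ := isSide_iff.1 ha
  obtain ⟨s₀, hs₀, k₀, h2, h3⟩ := projB hn0 hn hdw h0 h1 hm
  exact vis_of_un (ini_outer (by omega) hdw h0 h1) (pj_mem (Finset.mem_coe.1 hs'))
    (un_of_lft hn (Finset.mem_coe.1 hs') hs₀ h2 h3)

/-- The inner tips. -/
theorem proj_in (hn0 : 0 ≤ n) (hn : n + 2 ≤ d) (hdw : d < w) (h0 : 0 ≤ t) (h1 : t < 8 * w + 3)
    {x i : ℤ} (hx0 : 0 ≤ x) (hx1 : x < 8 * d + 3)
    (h : bdL d x i ∈ ML (lcf 1 ω) (LAT d w n) {bdL w t 0}) :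
    ine d x ∈ Orb TQ ω (An d w) (ine w t) := by
  obtain ⟨s₀, hs₀, k₀, h2, h3⟩ := projB hn0 hn hdw h0 h1 h
  obtain ⟨f, k, g1, g2, g3, g4⟩ := ine_out (r := d) (by omega) hx0 hx1
  obtain ⟨f', hf'1, hf'2, k', g5⟩ := ine_opp (r := d) (by omega) hx0 hx1
  rw [g1] at g5
  obtain ⟨rfl, rfl⟩ := TQ.inj (Prod.mk.inj g5).1 (Prod.mk.inj g5).2
  have hfA : f ∈ An d w := ⟨Finset.mem_coe.1 (BW_mono (show d + 1 ≤ w by omega)
    (Finset.mem_coe.2 hf'1)), hf'2⟩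
  -- the index
  have hi : i = s₀.2 := by
    have h4 := congrArg Prod.snd h2
    have h5 := congrArg Prod.fst h2
    unfold bdL lft at h4 h5
    simp only at h4 h5
    rw [← h5, if_neg] at h4
    · exact h4
    · rintro ⟨⟨h6, h7, -⟩, -⟩
      rw [← g2] at h6 h7
      unfold shE at h6 h7
      simp only at h6 h7
      rcases g3 with g3 | g3
      · rw [g3] at h6
        exact Bool.noConfusion h6
      · exact g3 h7
  have hin : |i| ≤ n := by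
    rw [hi]
    rw [mem_LAT] at hs₀
    exact hs₀.2
  have h6 : shS (fun _ => i) f k = bdL d x i := shS_eq g2 g3 g4 _
  have h7 := un_of_lft (ω := ω) (F := An d w) (e := ine w t) hn
    (shF_mem (N := fun _ => i) hfA hin) hs₀ (k := k) (k' := k₀) (h6.trans h2) h3
  rw [pj_shF, ← g1] at h7
  rcases h7 with h7 | h7
  · exfalso
    have h8 := eq_of_ini h7 (ini_inner (by omega) hdw hx0 hx1)
    have h9 : bd d (x + 1) = bd w t := (Prod.mk.inj h8).1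
    exact bd_ne (by omega) hdw (by omega) (by omega) h0 (by omega) h9
  · rwa [Prod.swap_swap] at h7

/-- The components of two tips are different. -/
theorem proj_ne (hn0 : 0 ≤ n) (hn : n + 2 ≤ d) (hdw : d < w) (h0 : 0 ≤ t) (h1 : t < 8 * w + 3)
    {t' : ℤ} (h0' : 0 ≤ t') (h1' : t' < 8 * w + 3) (hR : Rea d w ω t)
    (h : bdL w t' 0 ∈ ML (lcf 1 ω) (LAT d w n) {bdL w t 0}) : t' = t := by
  obtain ⟨s₀, hs₀, k₀, h2, h3⟩ := projB hn0 hn hdw h0 h1 h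
  obtain ⟨f, hf, k, h4, h5⟩ := start (d := d) (by omega) hdw h0' h1'
  have h7 := un_of_lft (ω := ω) (F := An d w) (e := ine w t) hn
    (shF_mem (N := fun _ => 0) hf (by simpa using hn0)) hs₀ (k := k) (k' := k₀)
    (h5.trans h2) h3
  rw [pj_shF, ← h4] at h7
  rcases h7 with h7 | h7
  · exact ine_inj (by omega) h0' h1' h0 h1 (eq_of_ini h7 (ini_outer (by omega) hdw h0' h1'))
  · exact absurd h7 (hR.not_out (by omega) hdw h0' h1')

/-! ### The balls -/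

/-- The index `0` is compatible with the cover in a region above the axis. -/
theorem isIndT_zero {X : Set (ℤ × ℤ)} (hX : ∀ f ∈ X, 0 < f.2) : IsIndT X (fun _ => 0) := by
  intro f hf g hg k l h1 h2
  have hf' := hX f hf
  have hg' := hX g hg
  obtain ⟨hl, h⟩ := BdAux.side_eq (f := f) (g := g) (k := k) (l := l) (by rw [h1, h2])
  subst hl
  have e : ∀ (f : ℤ × ℤ) (k : ZMod 4), 0 < f.2 → shS (fun _ => 0) f k = (sd f k, 0) := by
    intro f k hf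
    unfold shS lft shF
    simp only [sub_zero]
    rw [if_neg (by omega)]
  rw [e f k hf', e g _ hg']
  congr 1
  rcases h with ⟨rfl, h3, h4⟩ | ⟨rfl, h3, h4⟩ | ⟨rfl, h3, h4⟩ | ⟨rfl, h3, h4⟩
  · rw [BdAux.zp0, sd_0, sd_2]
    simp only [Prod.mk.injEq, and_true]
    omega
  · rw [BdAux.zp1, sd_1, sd_3]
    simp only [Prod.mk.injEq, and_true]
    omega
  · rw [BdAux.zp2, sd_2, sd_0]
    simp only [Prod.mk.injEq, and_true]
    omega
  · rw [BdAux.zp3, sd_3, sd_1]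
    simp only [Prod.mk.injEq, and_true]
    omega

/-- The lifts with index `0` of the sides of a strand in a region above the axis. -/
theorem claimX {X : Set (ℤ × ℤ)} (hXA : X ⊆ An d w) (hX : ∀ f ∈ X, 0 < f.2) (hn0 : 0 ≤ n)
    {f₀ : ℤ × ℤ} {k₀ : ZMod 4} (hini : Ini TQ X (TQ.c f₀ k₀, TQ.c f₀ (k₀ + 1)))
    {a : (ℤ × ℤ) × (ℤ × ℤ)} (ha : a ∈ Orb TQ ω X (TQ.c f₀ k₀, TQ.c f₀ (k₀ + 1))) :
    ∀ g ∈ X, ∀ l, (a = (TQ.c g l, TQ.c g (l + 1)) ∨ a = (TQ.c g (l + 1), TQ.c g l)) →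
      shS (fun _ => 0) g l ∈ ML (lcf 1 ω) (LAT d w n) {shS (fun _ => 0) f₀ k₀} := by
  induction ha with
  | refl =>
    rintro g hg l (h | h)
    · obtain ⟨rfl, rfl⟩ := TQ.inj (Prod.mk.inj h).1 (Prod.mk.inj h).2
      exact mem_ML_of_mem rfl
    · exact absurd h (hini g hg l)
  | @tail a b hab hs ih =>
    obtain ⟨f, hf, k, rfl, hs⟩ := hs
    have h1 := ih f hf k (Or.inl rfl)
    have hmem : shF (fun _ => 0) f ∈ (LAT d w n : Set LF) :=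
      Finset.mem_coe.2 (shF_mem (hXA hf) (by simpa using hn0))
    have hb : b ∈ Orb TQ ω X (TQ.c f₀ k₀, TQ.c f₀ (k₀ + 1)) :=
      Orb_step hab ⟨f, hf, k, rfl, hs⟩
    -- the matched side
    have key : ∀ k', (TQ.c f (k' + 1), TQ.c f k') = b →
        MtL (lcf 1 ω) (shF (fun _ => 0) f) (shS (fun _ => 0) f k) (shS (fun _ => 0) f k') →
        ∀ g ∈ X, ∀ l, (b = (TQ.c g l, TQ.c g (l + 1)) ∨ b = (TQ.c g (l + 1), TQ.c g l)) →
          shS (fun _ => 0) g l ∈ ML (lcf 1 ω) (LAT d w n) {shS (fun _ => 0) f₀ k₀} := by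
      intro k' hk' hm g hg l hl
      have h2 := ML_step hmem hm h1
      rw [← hk'] at hl
      rcases hl with hl | hl
      · rw [← isIndT_zero hX f hf g hg k' l (Prod.mk.inj hl).1.symm (Prod.mk.inj hl).2.symm]
        exact h2
      · obtain ⟨rfl, rfl⟩ := TQ.inj (Prod.mk.inj hl).2 (Prod.mk.inj hl).1
        exact h2
    rcases hs with ⟨h2, rfl⟩ | ⟨h2, rfl⟩
    · refine key (k + 1) (by rw [z1]) ?_
      refine ⟨sd (shF (fun _ => 0) f).1 k, sd (shF (fun _ => 0) f).1 (k + 1), ?_, rfl, rfl⟩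
      rw [lcf_shF]
      exact mt_iff.2 ⟨k, h2, Or.inl ⟨rfl, rfl⟩⟩
    · refine key (k + 3) (by rw [z5]) ?_
      refine ⟨sd (shF (fun _ => 0) f).1 k, sd (shF (fun _ => 0) f).1 (k + 3), ?_, rfl, rfl⟩
      rw [lcf_shF]
      exact mt_iff.2 ⟨k + 3, by rw [ev_add_three]; exact h2, Or.inr ⟨by rw [z5], rfl⟩⟩

/-- The faces which are visited by the strand in a region above the axis. -/
theorem sl_zero {X : Set (ℤ × ℤ)} (hXA : X ⊆ An d w) (hX : ∀ f ∈ X, 0 < f.2) (hn0 : 0 ≤ n)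
    (hd : 0 ≤ d) (hdw : d < w) (h0 : 0 ≤ t) (h1 : t < 8 * w + 3) {f : ℤ × ℤ}
    (hf : f ∈ Vis TQ ω X (ine w t)) :
    ((f, 0) : LF) ∈ SL (lcf 1 ω) (LAT d w n) {bdL w t 0} := by
  obtain ⟨f₀, hf₀, k₀, h2, h3⟩ := start (d := d) hd hdw h0 h1
  obtain ⟨hfX, k, hk⟩ := hf
  have hini : Ini TQ X (ine w t) := fun g hg l => ini_outer hd hdw h0 h1 g (hXA hg) l
  rw [h2] at hini hk
  have h4 := claimX (n := n) hXA hX hn0 hini hk f hfX k (Or.inl rfl)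
  rw [h3] at h4
  have h5 : shF (fun _ => 0) f = (f, 0) := by
    unfold shF
    simp
  have h6 : ((f, 0) : LF) ∈ LAT d w n := by
    rw [← h5]
    exact shF_mem (hXA hfX) (by simpa using hn0)
  refine ⟨Finset.mem_coe.2 h6, sd f k, isSide_iff.2 ⟨k, rfl⟩, ?_⟩
  unfold shS at h4
  rwa [h5] at h4

theorem sl_union {ζ : LF → Bool} {Ft : Set LF} {E₁ E₂ : Set LE} {s : LF}
    (h : s ∈ SL ζ Ft (E₁ ∪ E₂)) : s ∈ SL ζ Ft E₁ ∨ s ∈ SL ζ Ft E₂ := by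
  obtain ⟨hs, a, ha, e, he | he, hr⟩ := h
  · exact Or.inl ⟨hs, a, ha, e, he, hr⟩
  · exact Or.inr ⟨hs, a, ha, e, he, hr⟩

theorem sl_mono {ζ : LF → Bool} {Ft : Set LF} {E₁ E₂ : Set LE} (h : E₁ ⊆ E₂) {s : LF}
    (hs : s ∈ SL ζ Ft E₁) : s ∈ SL ζ Ft E₂ := by
  obtain ⟨hs, a, ha, hm⟩ := hs
  exact ⟨hs, a, ha, ML_mono (fun _ h => h) h hm⟩

/-- The index is determined by the projection. -/
theorem index_zero {L d₀ D μ : ℤ} {u : ℤ × ℤ} {l : List (ℤ × ℤ)} {S : Set LF}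
    (hc : Corr L L d₀ u l) (h1 : 1 < d₀) (hd : d₀ + n ≤ d) (hw : w + n + 2 ≤ L) (hD : n < D)
    (hS : ∀ s ∈ S, FarP D u l s.1 ∧ s.2 = ind L L u l s.1 - μ) {s : LF} (hs : s ∈ S)
    (hsL : s ∈ LAT d w n) (h0 : ((pj 1 s, 0) : LF) ∈ S) : s.2 = 0 := by
  obtain ⟨-, h2⟩ := hS s hs
  obtain ⟨h3, h4⟩ := hS _ h0
  simp only at h3 h4
  have hsn : |-s.2| ≤ n := by
    rw [abs_neg]
    rw [mem_LAT] at hsL
    exact hsL.2
  have h5 := ind_move hc h1 hd hw hD (pj_mem hsL) h3 hsn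
  have h6 : ((pj 1 s).1 + -s.2, (pj 1 s).2) = s.1 := by
    unfold pj
    simp
  rw [h6] at h5
  omega

end Pool.Agent.Occ.XTAux
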