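import Pool.Agent.Lib.MP_6bd702_occ.XDefs
import Pool.Agent.Lib.MP_6bd702_perc3.T3Cmp

/-!
# Row XZ: the lower bound in the square grid from the lower bound in the twisted plane
-/

set_option autoImplicit false

namespace Pool.Agent.Occ

open Finset Pool.Agent.Perc Pool.Agent.Perc.Q Pool.Agent.Perc3

/-- The additional conditions are determined by the visited faces. -/
theorem detBy_AX (A g d w n ya yb : ℤ) :
    DetBy (fun ζ => SL ζ (LAT d w n) (ST w ya (4 * w + 1 - yb) 0))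
      {ζ | AX ζ A g d w n ya yb} := by
  have key : ∀ ζ ζ' : LF → Bool,
      (∀ s ∈ SL ζ (LAT d w n) (ST w ya (4 * w + 1 - yb) 0), ζ s = ζ' s) →
      AX ζ A g d w n ya yb → AX ζ' A g d w n ya yb := by
    intro ζ ζ' h H
    have h0 : SL ζ' (LAT d w n) ({eR w ya} ∪ {eLf w yb}) =
        SL ζ (LAT d w n) ({eR w ya} ∪ {eLf w yb}) := stopping_SL _ _ ζ ζ' h
    have h1 : ML ζ' (LAT d w n) {eR w ya} = ML ζ (LAT d w n) {eR w ya} :=
      ML_eq fun s hs => h s (by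
        change s ∈ SL ζ (LAT d w n) ({eR w ya} ∪ {eLf w yb})
        simp only [SL_union]
        exact Or.inl hs)
    have h2 : ML ζ' (LAT d w n) {eLf w yb} = ML ζ (LAT d w n) {eLf w yb} :=
      ML_eq fun s hs => h s (by
        change s ∈ SL ζ (LAT d w n) ({eR w ya} ∪ {eLf w yb})
        simp only [SL_union]
        exact Or.inr hs)
    refine ⟨?_, ?_, ?_, ?_, ?_, ?_⟩
    · rw [h1]; exact H.ne
    · rw [h1]; exact H.away₁
    · rw [h2]; exact H.away₂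
    · rw [h1, h2]; exact H.near
    · rw [h0]; exact H.ball₁
    · rw [h0]; exact H.ball₂
  intro ζ ζ' h
  refine ⟨key ζ ζ' h, key ζ' ζ fun s hs => ?_⟩
  have h0 : SL ζ' (LAT d w n) (ST w ya (4 * w + 1 - yb) 0) =
      SL ζ (LAT d w n) (ST w ya (4 * w + 1 - yb) 0) := stopping_SL _ _ ζ ζ' h
  have hs' : s ∈ SL ζ (LAT d w n) (ST w ya (4 * w + 1 - yb) 0) := h0 ▸ hs
  exact (h s hs').symm

/-- The probabilities of `PX` in the square grid and in the twisted plane. -/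
theorem pr_PX_eq {N A Ni Ai σ : ℤ} {m : ℕ} {ya yb : ℤ} (hσ : 16 * (m + 7) ≤ σ)
    (hd : 3 * σ ≤ Ni * Ai) {W : Finset (ℤ × ℤ)}
    (hW : RF (-(N * A + 2 * m + 14)) (N * A + 2 * m + 12) (-(N * A)) (N * A) ⊆ W) :
    pr W {ω | lcf 0 ω ∈ PX N A Ni Ai σ m ya yb} =
      pr (BW (N * A)) {ω | lcf 1 ω ∈ PX N A Ni Ai σ m ya yb} := by
  refine pr_pairT_eq (L := N * A + σ) (d₀ := Ni * Ai - σ) (d := Ni * Ai) (w := N * A)
    (n := 2 * m + 12) (D := σ) (m := m) (t₁ := ya) (t₂ := 4 * (N * A) + 1 - yb) (ε := 0)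
    (by omega) (by omega) (by omega) (by omega) (by omega)
    (detBy_AX A (20 * Ai) (Ni * Ai) (N * A) (2 * m + 12) ya yb) ?_ subset_rfl
  intro s hs
  refine hW ?_
  obtain ⟨⟨h1, h2⟩, h3⟩ := mem_LAT.1 hs
  rw [mem_BW] at h1
  unfold pj at h1 ⊢
  rw [abs_le] at h3
  rw [mem_RF]
  simp only [one_mul, zero_mul, add_zero] at h1 ⊢
  omega

/-- XZ -/
theorem zLow (h : TTLow) : ZLow := by
  obtain ⟨N, Ni, c, hc, hN, hNi, h⟩ := h
  refine ⟨N, Ni, c, hc, hN, hNi, fun K => ?_⟩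
  obtain ⟨Q, m, a₀, hQ, h⟩ := h K
  refine ⟨Q, m, a₀, hQ, fun A Ai h1 h2 h3 => ?_⟩
  obtain ⟨h4, h5⟩ := h A Ai h1 h2 h3
  refine ⟨h4, fun W hW => ?_⟩
  refine h5.trans (le_of_eq (Finset.sum_congr rfl fun p _ => ?_))
  refine (pr_PX_eq ?_ ?_ hW).symm
  · exact_mod_cast h4
  · have h6 : 3 * (Ai / Q) ≤ Ni * Ai := by
      have h7 : Ai / Q ≤ Ai := Nat.div_le_self _ _
      nlinarith
    exact_mod_cast h6

end Pool.Agent.Occ
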