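import Pool.Agent.Lib.MP_6bd702_occ.ZDefs

/-!
# Row ZA: cochains, dual paths, potentials on rectangles
-/

set_option autoImplicit false

namespace Pool.Agent.Occ

open Finset Pool.Agent.Perc Pool.Agent.Perc3 Pool.Agent.PercD

variable {x₀ x₁ y₀ y₁ : ℤ} {c c' : Co} {f g : ℤ × ℤ} {a : UE} {l l' : List (ℤ × ℤ)}

/-- Every closed cochain of a rectangle has a potential, with a prescribed value. -/
theorem exists_potC (h : ∀ f ∈ RF x₀ x₁ y₀ y₁, bdC c f = 0) (p : ℤ × ℤ) (z : ZMod 2) :
    ∃ Φ, PotC (RF x₀ x₁ y₀ y₁) c Φ ∧ Φ p = z := by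
  set M : Set UE := {a | c a = 1} with hM
  have hc : ∀ a, c a = ind2 (a ∈ M) := by
    intro a
    rcases z2_cases (c a) with h0 | h0
    · rw [h0, ind2_neg]
      intro hcon
      have : c a = 1 := hcon
      rw [h0] at this
      exact absurd this (by decide)
    · rw [h0]
      exact (ind2_pos (show a ∈ M from h0)).symm
  have hE : ∀ f ∈ RF x₀ x₁ y₀ y₁, EvenAt M f := by
    intro f hf
    have := h f hf
    unfold bdC at this
    rw [hc, hc, hc, hc] at this
    exact this
  refine ⟨fun w => pot x₀ y₀ M w + (z + pot x₀ y₀ M p), ?_, ?_⟩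
  · intro f hf a ha
    rw [mem_coe, mem_RF] at hf
    have key : pot x₀ y₀ M (ub a) = pot x₀ y₀ M (ua a) + c a := by
      rw [hc]
      rcases ha with rfl | rfl | rfl | rfl
      · unfold bo
        rw [ua_mk, ub_false]
        exact pot_hor hE hf.1 hf.2.1 hf.2.2.1 hf.2.2.2.le
      · unfold le'
        rw [ua_mk, ub_true]
        exact pot_ver hf.2.2.1
      · unfold to'
        rw [ua_mk, ub_false]
        exact pot_hor hE hf.1 hf.2.1 (by omega) (by omega)
      · unfold ri
        rw [ua_mk, ub_true]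
        exact pot_ver hf.2.2.1
    show pot x₀ y₀ M (ub a) + (z + pot x₀ y₀ M p) = pot x₀ y₀ M (ua a) + (z + pot x₀ y₀ M p) + c a
    rw [key]
    ring
  · show pot x₀ y₀ M p + (z + pot x₀ y₀ M p) = z
    generalize pot x₀ y₀ M p = t
    revert t z
    decide

theorem bdC_add : bdC (fun a => c a + c' a) f = bdC c f + bdC c' f := by
  unfold bdC
  ring

theorem bdC_cM {ω : Cfg} {F : Set (ℤ × ℤ)} {e : UE} (hf : f ∈ F) : bdC (cM (MM ω F e)) f = 0 :=
  evenAt_MM hf

theorem bo_ne_ri : bo f ≠ ri f := by simp [bo, ri]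
theorem bo_ne_le : bo f ≠ le' f := by simp [bo, le']
theorem bo_ne_to : bo f ≠ to' f := by simp [bo, to']
theorem ri_ne_le : ri f ≠ le' f := by simp [ri, le']
theorem ri_ne_to : ri f ≠ to' f := by simp [ri, to']
theorem le_ne_to : le' f ≠ to' f := by simp [le', to']

/-- If exactly one side of the face is in `M`. -/
theorem bdC_cM_one {M : Set UE} {e : UE} (he : IsSide f e) (hM : e ∈ M)
    (h : ∀ a, IsSide f a → a ∈ M → a = e) : bdC (cM M) f = 1 := by
  have h1 : ∀ a, IsSide f a → a ≠ e → cM M a = 0 := fun a ha hne =>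
    ind2_neg fun hm => hne (h a ha hm)
  have h2 : cM M e = 1 := ind2_pos hM
  unfold bdC
  rcases he with rfl | rfl | rfl | rfl
  · rw [h2, h1 (ri f) (Or.inr (Or.inr (Or.inr rfl))) bo_ne_ri.symm,
      h1 (to' f) (Or.inr (Or.inr (Or.inl rfl))) bo_ne_to.symm,
      h1 (le' f) (Or.inr (Or.inl rfl)) bo_ne_le.symm]
    decide
  · rw [h2, h1 (ri f) (Or.inr (Or.inr (Or.inr rfl))) ri_ne_le,
      h1 (to' f) (Or.inr (Or.inr (Or.inl rfl))) le_ne_to.symm,
      h1 (bo f) (Or.inl rfl) bo_ne_le]
    decide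
  · rw [h2, h1 (ri f) (Or.inr (Or.inr (Or.inr rfl))) ri_ne_to,
      h1 (bo f) (Or.inl rfl) bo_ne_to,
      h1 (le' f) (Or.inr (Or.inl rfl)) le_ne_to]
    decide
  · rw [h2, h1 (bo f) (Or.inl rfl) bo_ne_ri,
      h1 (to' f) (Or.inr (Or.inr (Or.inl rfl))) ri_ne_to.symm,
      h1 (le' f) (Or.inr (Or.inl rfl)) ri_ne_le.symm]
    decide

theorem bdC_cM_zero {M : Set UE} (h : ∀ a, IsSide f a → a ∉ M) : bdC (cM M) f = 0 := by
  have h1 : ∀ a, IsSide f a → cM M a = 0 := fun a ha => ind2_neg (h a ha)
  unfold bdC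
  rw [h1 (bo f) (Or.inl rfl), h1 (ri f) (Or.inr (Or.inr (Or.inr rfl))),
    h1 (to' f) (Or.inr (Or.inr (Or.inl rfl))), h1 (le' f) (Or.inr (Or.inl rfl))]
  decide

/-- The common side is a side of exactly the two faces. -/
theorem side_cr (h : Adj4 f g) {k : ℤ × ℤ} : IsSide k (cr f g) ↔ k = f ∨ k = g := by
  obtain ⟨x, y⟩ := f
  obtain ⟨x', y'⟩ := g
  obtain ⟨x'', y''⟩ := k
  unfold Adj4 at h
  unfold cr IsSide
  simp only [bo, ri, to', le', Prod.mk.injEq] at h ⊢
  by_cases h1 : x' = x + 1
  · rw [if_pos h1]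
    simp only [Prod.mk.injEq, Bool.true_eq_false, and_false, false_or, and_true]
    omega
  · rw [if_neg h1]
    by_cases h2 : x = x' + 1
    · rw [if_pos h2]
      simp only [Prod.mk.injEq, Bool.true_eq_false, and_false, false_or, and_true]
      omega
    · rw [if_neg h2]
      by_cases h3 : y' = y + 1
      · rw [if_pos h3]
        simp only [Prod.mk.injEq, Bool.false_eq_true, and_false, false_or, and_true, or_false]
        omega
      · rw [if_neg h3]
        simp only [Prod.mk.injEq, Bool.false_eq_true, and_false, false_or, and_true, or_false]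
        omega

theorem adj_ne (h : Adj4 f g) : f ≠ g := by
  rintro rfl
  unfold Adj4 at h
  omega

theorem bdC_cr (h : Adj4 f g) (k : ℤ × ℤ) :
    bdC (fun a => ind2 (a = cr f g)) k = ind2 (some f = some k) + ind2 (some g = some k) := by
  have e : (fun a => ind2 (a = cr f g)) = cM {cr f g} := by
    funext a
    rfl
  rw [e]
  have hne := adj_ne h
  by_cases hk : k = f ∨ k = g
  · rw [bdC_cM_one (M := {cr f g}) ((side_cr h).2 hk) rfl (fun a _ ha => Set.mem_singleton_iff.1 ha)]
    rcases hk with rfl | rfl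
    · rw [ind2_pos rfl, ind2_neg (by simpa using hne.symm)]
      decide
    · rw [ind2_neg (by simpa using hne), ind2_pos rfl]
      decide
  · rw [bdC_cM_zero fun a ha ham => hk ((side_cr h).1 (by rw [← show a = cr f g from ham]; exact ha))]
    rw [not_or] at hk
    rw [ind2_neg (by simpa using fun h' : f = k => hk.1 h'.symm),
      ind2_neg (by simpa using fun h' : g = k => hk.2 h'.symm)]
    decide

/-- The boundary of a dual path. -/
theorem bdC_xp (h : IsCh l) : bdC (xp l) f = ind2 (l.head? = some f) + ind2 (l.getLast? = some f) := by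
  induction l with
  | nil =>
    rw [List.head?_nil, List.getLast?_nil, ind2_neg (by simp)]
    unfold bdC xp
    decide
  | cons p l ih =>
    cases l with
    | nil =>
      have e : bdC (xp [p]) f = 0 := by
        unfold bdC xp
        decide
      rw [e, List.head?_cons, List.getLast?_singleton, z2_add_self]
    | cons q l =>
      have e : bdC (xp (p :: q :: l)) f =
          bdC (fun a => ind2 (a = cr p q)) f + bdC (xp (q :: l)) f := by
        rw [← bdC_add]
        rfl
      rw [e, ih h.2, bdC_cr h.1, List.head?_cons, List.head?_cons, List.getLast?_cons_cons]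
      generalize ind2 (some p = some f) = t1
      generalize ind2 (some q = some f) = t2
      generalize ind2 ((q :: l).getLast? = some f) = t3
      revert t1 t2 t3
      decide

/-- A face next to a crossed unit edge is on the path. -/
theorem xp_side (h : IsCh l) (ha : IsSide f a) (hf : f ∉ l) : xp l a = 0 := by
  induction l with
  | nil => rfl
  | cons p l ih =>
    cases l with
    | nil => rfl
    | cons q l =>
      show ind2 (a = cr p q) + xp (q :: l) a = 0
      rw [ih h.2 fun hm => hf (List.mem_cons_of_mem _ hm), ind2_neg, add_zero]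
      rintro rfl
      rcases (side_cr h.1).1 ha with rfl | rfl
      · exact hf List.mem_cons_self
      · exact hf (List.mem_cons_of_mem _ List.mem_cons_self)

theorem xp_append (h : l.getLast? = some f) (h' : l'.head? = some g) (a : UE) :
    xp (l ++ l') a = xp l a + ind2 (a = cr f g) + xp l' a := by
  induction l with
  | nil => simp at h
  | cons p l ih =>
    cases l with
    | nil =>
      rw [List.getLast?_singleton, Option.some.injEq] at h
      subst h
      cases l' with
      | nil => simp at h'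
      | cons q l' =>
        rw [List.head?_cons, Option.some.injEq] at h'
        subst h'
        show ind2 (a = cr p q) + xp (q :: l') a = 0 + ind2 (a = cr p q) + xp (q :: l') a
        rw [zero_add]
    | cons q l =>
      rw [List.getLast?_cons_cons] at h
      have := ih h
      show ind2 (a = cr p q) + xp ((q :: l) ++ l') a =
        (ind2 (a = cr p q) + xp (q :: l) a) + ind2 (a = cr f g) + xp l' a
      rw [this]
      ring

theorem IsCh.append (h1 : IsCh l) (h2 : IsCh l') (h : ∀ f g, l.getLast? = some f →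
    l'.head? = some g → Adj4 f g) : IsCh (l ++ l') := by
  induction l with
  | nil => exact h2
  | cons p l ih =>
    cases l with
    | nil =>
      cases l' with
      | nil => trivial
      | cons q l' => exact ⟨h p q (by simp) (by simp), h2⟩
    | cons q l =>
      exact ⟨h1.1, ih h1.2 fun f g hf hg => h f g (by rw [List.getLast?_cons_cons]; exact hf) hg⟩

/-! ### Straight rows -/

theorem cast_list (l : List ℕ) : (do let a ← l; pure ((a : ℤ))) = l.map (fun n : ℕ => (n : ℤ)) := by
  show List.flatMap (fun a : ℕ => [(a : ℤ)]) l = _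
  induction l with
  | nil => rfl
  | cons a l ih => rw [List.flatMap_cons, ih, List.map_cons]; rfl

/-- The list of the first values of a sequence. -/
def seqL (u : ℕ → ℤ × ℤ) (n : ℕ) : List (ℤ × ℤ) := (List.range n).map u

theorem seqL_succ (u : ℕ → ℤ × ℤ) (n : ℕ) : seqL u (n + 1) = seqL u n ++ [u n] := by
  unfold seqL
  rw [List.range_succ, List.map_append, List.map_singleton]

theorem seqL_last (u : ℕ → ℤ × ℤ) (n : ℕ) : (seqL u (n + 1)).getLast? = some (u n) := by
  rw [seqL_succ, List.getLast?_concat]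

theorem seqL_head (u : ℕ → ℤ × ℤ) (n : ℕ) : (seqL u (n + 1)).head? = some (u 0) := by
  unfold seqL
  rw [List.range_succ_eq_map, List.map_cons, List.head?_cons]

theorem isCh_seqL {u : ℕ → ℤ × ℤ} (h : ∀ i, Adj4 (u i) (u (i + 1))) (n : ℕ) :
    IsCh (seqL u n) := by
  induction n with
  | zero => trivial
  | succ n ih =>
    rw [seqL_succ]
    refine ih.append (l' := [u n]) trivial fun f g hf hg => ?_
    rw [List.head?_cons, Option.some.injEq] at hg
    subst hg
    cases n with
    | zero => simp [seqL] at hf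
    | succ n =>
      rw [seqL_last, Option.some.injEq] at hf
      subst hf
      exact h n

theorem mem_seqL {u : ℕ → ℤ × ℤ} {n : ℕ} : f ∈ seqL u n ↔ ∃ i < n, u i = f := by
  unfold seqL
  rw [List.mem_map]
  simp only [List.mem_range]

theorem isCh_eRow {w y X : ℤ} (h : w ≤ X) : IsCh (eRow w y X) ∧ (eRow w y X).head? = some (w, y) ∧
    (eRow w y X).getLast? = some (X, y) ∧ ∀ f, f ∈ eRow w y X ↔ f.2 = y ∧ w ≤ f.1 ∧ f.1 ≤ X := by
  obtain ⟨n, hn⟩ : ∃ n : ℕ, (X - w + 1).toNat = n + 1 := ⟨(X - w).toNat, by omega⟩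
  have hX : X = w + n := by omega
  have e : eRow w y X = seqL (fun i => (w + i, y)) (n + 1) := by
    unfold eRow seqL
    rw [hn, cast_list, List.map_map]
    rfl
  rw [e]
  refine ⟨isCh_seqL (fun i => Or.inl ⟨rfl, Or.inl ?_⟩) _, ?_, ?_, fun f => ?_⟩
  · show w + ((i + 1 : ℕ) : ℤ) = w + i + 1
    push_cast; ring
  · rw [seqL_head]
    simp
  · rw [seqL_last, hX]
  · rw [mem_seqL]
    constructor
    · rintro ⟨i, hi, rfl⟩
      refine ⟨rfl, ?_, ?_⟩
      · show w ≤ w + (i : ℤ)
        omega
      · show w + (i : ℤ) ≤ X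
        omega
    · rintro ⟨h1, h2, h3⟩
      refine ⟨(f.1 - w).toNat, by omega, ?_⟩
      ext
      · show w + (((f.1 - w).toNat : ℕ) : ℤ) = f.1
        omega
      · exact h1.symm

theorem isCh_wRow {w y X : ℤ} (h : X - 1 ≤ -(w + 3)) : IsCh (wRow w y X) ∧
    (wRow w y X).head? = some (-(w + 3), y) ∧ (wRow w y X).getLast? = some (X - 1, y) ∧
    ∀ f, f ∈ wRow w y X ↔ f.2 = y ∧ X - 1 ≤ f.1 ∧ f.1 ≤ -(w + 3) := by
  obtain ⟨n, hn⟩ : ∃ n : ℕ, (-(w + 3) - (X - 1) + 1).toNat = n + 1 :=
    ⟨(-(w + 3) - (X - 1)).toNat, by omega⟩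
  have hX : X - 1 = -(w + 3) - n := by omega
  have e : wRow w y X = seqL (fun i => (-(w + 3) - i, y)) (n + 1) := by
    unfold wRow seqL
    rw [hn, cast_list, List.map_map]
    rfl
  rw [e]
  refine ⟨isCh_seqL (fun i => Or.inl ⟨rfl, Or.inr ?_⟩) _, ?_, ?_, fun f => ?_⟩
  · show -(w + 3) - (i : ℤ) = -(w + 3) - ((i + 1 : ℕ) : ℤ) + 1
    push_cast; ring
  · rw [seqL_head]
    simp
  · rw [seqL_last, hX]
  · rw [mem_seqL]
    constructor
    · rintro ⟨i, hi, rfl⟩
      refine ⟨rfl, ?_, ?_⟩
      · show X - 1 ≤ -(w + 3) - (i : ℤ)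
        omega
      · show -(w + 3) - (i : ℤ) ≤ -(w + 3)
        omega
    · rintro ⟨h1, h2, h3⟩
      refine ⟨(-(w + 3) - f.1).toNat, by omega, ?_⟩
      ext
      · show -(w + 3) - (((-(w + 3) - f.1).toNat : ℕ) : ℤ) = f.1
        omega
      · exact h1.symm

theorem ind2_or {P Q : Prop} (h : ¬ (P ∧ Q)) : ind2 P + ind2 Q = ind2 (P ∨ Q) := by
  by_cases hP : P
  · by_cases hQ : Q
    · exact absurd ⟨hP, hQ⟩ h
    · rw [ind2_pos hP, ind2_neg hQ, ind2_pos (Or.inl hP)]
      decide
  · by_cases hQ : Q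
    · rw [ind2_neg hP, ind2_pos hQ, ind2_pos (Or.inr hQ)]
      decide
    · rw [ind2_neg hP, ind2_neg hQ, ind2_neg (by tauto)]
      decide

theorem xp_seqL_succ (u : ℕ → ℤ × ℤ) (n : ℕ) (a : UE) :
    xp (seqL u (n + 2)) a = xp (seqL u (n + 1)) a + ind2 (a = cr (u n) (u (n + 1))) := by
  rw [seqL_succ, xp_append (seqL_last u n) (List.head?_cons) a]
  show _ + _ + 0 = _
  rw [add_zero]

/-- The crossed unit edges of the rows. -/
theorem xp_eRow {w y X : ℤ} (h : w ≤ X) (a : UE) :
    xp (eRow w y X) a = ind2 (a.2.2 = true ∧ a.2.1 = y ∧ w < a.1 ∧ a.1 ≤ X) := by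
  obtain ⟨n, hn⟩ : ∃ n : ℕ, (X - w + 1).toNat = n + 1 := ⟨(X - w).toNat, by omega⟩
  have hX : X = w + n := by omega
  have e : eRow w y X = seqL (fun i => (w + i, y)) (n + 1) := by
    unfold eRow seqL
    rw [hn, cast_list, List.map_map]
    rfl
  rw [e, hX]
  clear e hX hn h
  obtain ⟨x, z, b⟩ := a
  induction n with
  | zero =>
    rw [ind2_neg (by simp only; omega)]
    rfl
  | succ n ih =>
    rw [xp_seqL_succ, ih]
    have e2 : cr (w + ((n : ℕ) : ℤ), y) (w + ((n + 1 : ℕ) : ℤ), y) = (w + n + 1, y, true) := by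
      unfold cr
      rw [if_pos (by simp only; push_cast; ring)]
      rfl
    rw [e2, ind2_or (by simp only [Prod.mk.injEq]; omega)]
    refine ind2_congr ?_
    simp only [Prod.mk.injEq]
    push_cast
    cases b <;> simp only [Bool.false_eq_true, false_and, and_false, or_false, true_and, and_true]
    all_goals omega

theorem xp_wRow {w y X : ℤ} (h : X - 1 ≤ -(w + 3)) (a : UE) :
    xp (wRow w y X) a = ind2 (a.2.2 = true ∧ a.2.1 = y ∧ X ≤ a.1 ∧ a.1 ≤ -(w + 3)) := by
  obtain ⟨n, hn⟩ : ∃ n : ℕ, (-(w + 3) - (X - 1) + 1).toNat = n + 1 :=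
    ⟨(-(w + 3) - (X - 1)).toNat, by omega⟩
  have hX : X = -(w + 3) - n + 1 := by omega
  have e : wRow w y X = seqL (fun i => (-(w + 3) - i, y)) (n + 1) := by
    unfold wRow seqL
    rw [hn, cast_list, List.map_map]
    rfl
  rw [e, hX]
  clear e hX hn h
  obtain ⟨x, z, b⟩ := a
  induction n with
  | zero =>
    rw [ind2_neg (by simp only; omega)]
    rfl
  | succ n ih =>
    rw [xp_seqL_succ, ih]
    have e2 : cr (-(w + 3) - ((n : ℕ) : ℤ), y) (-(w + 3) - ((n + 1 : ℕ) : ℤ), y) =
        (-(w + 3) - n, y, true) := by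
      unfold cr
      rw [if_neg (by simp only; push_cast; omega), if_pos (by simp only; push_cast; ring)]
      rfl
    rw [e2, ind2_or (by simp only [Prod.mk.injEq]; omega)]
    refine ind2_congr ?_
    simp only [Prod.mk.injEq]
    push_cast
    cases b <;> simp only [Bool.false_eq_true, false_and, and_false, or_false, true_and, and_true]
    all_goals omega

/-- A chain of neighbouring faces as a list. -/
theorem exists_list {P : ℤ × ℤ → Prop} {f g : ℤ × ℤ} (hf : P f)
    (h : Relation.ReflTransGen (fun f g => Adj4 f g ∧ P f ∧ P g) f g) :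
    ∃ l, IsCh l ∧ l.head? = some f ∧ l.getLast? = some g ∧ ∀ k ∈ l, P k := by
  induction h with
  | refl => exact ⟨[f], trivial, rfl, rfl, fun k hk => by
      rw [List.mem_singleton] at hk
      rw [hk]; exact hf⟩
  | @tail b c _ hs ih =>
    obtain ⟨l, h1, h2, h3, h4⟩ := ih
    refine ⟨l ++ [c], h1.append trivial fun p q hp hq => ?_, ?_, ?_, ?_⟩
    · rw [h3, Option.some.injEq] at hp
      rw [List.head?_cons, Option.some.injEq] at hq
      subst hp hq
      exact hs.1
    · cases l with
      | nil => simp at h2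
      | cons q l => exact h2
    · rw [List.getLast?_concat]
    · intro k hk
      rw [List.mem_append, List.mem_singleton] at hk
      rcases hk with hk | rfl
      · exact h4 k hk
      · exact hs.2.2

end Pool.Agent.Occ
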