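import Pool.Agent.Lib.MP_6bd702_occ.ZDefs

/-!
# Row ZB: two strands and their sectors; landing lemmas

`Φ₁ + Φ₂ = 1` is the D side (`Φ₁ = 1` next to the first strand, `Φ₂ = 1` next to the second one).
-/

set_option autoImplicit false

namespace Pool.Agent.Occ

open Finset Pool.Agent.Perc Pool.Agent.Perc3 Pool.Agent.PercD Pool.Agent.Perc6

/-- Two different strands with potentials: `uᵢ` the ends of colour P, `vᵢ` the ends of colour D. -/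
structure Sec (η : Cfg) (D₀ : Set (ℤ × ℤ)) (t₁ t₂ : UE) (u₁ v₁ u₂ v₂ : ℤ × ℤ)
    (Φ₁ Φ₂ : ℤ × ℤ → ZMod 2) : Prop where
  j₁ : Joins t₁ u₁ v₁
  j₂ : Joins t₂ u₂ v₂
  par_u : par u₁ = par u₂
  s₁ : ∃ f ∈ D₀, IsSide f t₁
  s₂ : ∃ f ∈ D₀, IsSide f t₂
  ne : t₂ ∉ MM η D₀ t₁
  pot₁ : ∀ f ∈ SS η D₀ t₁ ∪ SS η D₀ t₂, ∀ a, IsSide f a →
    Φ₁ (ub a) = Φ₁ (ua a) + ind2 (a ∈ MM η D₀ t₁)
  pot₂ : ∀ f ∈ SS η D₀ t₁ ∪ SS η D₀ t₂, ∀ a, IsSide f a →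
    Φ₂ (ub a) = Φ₂ (ua a) + ind2 (a ∈ MM η D₀ t₂)
  v₁₁ : Φ₁ v₁ = 1
  v₂₁ : Φ₂ v₁ = 0
  v₁₂ : Φ₁ v₂ = 0
  v₂₂ : Φ₂ v₂ = 1

variable {η ξ : Cfg} {D₀ : Set (ℤ × ℤ)} {t₁ t₂ : UE} {u₁ v₁ u₂ v₂ : ℤ × ℤ}
  {Φ₁ Φ₂ Θ : ℤ × ℤ → ZMod 2} {f p q : ℤ × ℤ} {G : Set (ℤ × ℤ)}

namespace ZBaux

/-- The component in the set of the visited faces. -/
theorem mm_vis {V : Set (ℤ × ℤ)} {t : UE} (h1 : SS η D₀ t ⊆ V) (h2 : V ⊆ D₀) :
    MM η V t = MM η D₀ t := (MM_eq_of_closed h2 h1).symm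

theorem ss_vis {V : Set (ℤ × ℤ)} {t : UE} (h1 : SS η D₀ t ⊆ V) (h2 : V ⊆ D₀) :
    SS η V t = SS η D₀ t := by
  ext f
  constructor
  · rintro ⟨hf, a, ha, hs⟩
    rw [mm_vis h1 h2] at ha
    exact ⟨h2 hf, a, ha, hs⟩
  · intro hf
    have hf0 := hf
    obtain ⟨hf', a, ha, hs⟩ := hf
    exact ⟨h1 hf0, a, by rw [mm_vis h1 h2]; exact ha, hs⟩

theorem isPot_of {V : Set (ℤ × ℤ)} {t : UE} {Φ : ℤ × ℤ → ZMod 2} (h1 : SS η D₀ t ⊆ V)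
    (h2 : V ⊆ D₀)
    (h : ∀ f ∈ V, ∀ a, IsSide f a → Φ (ub a) = Φ (ua a) + ind2 (a ∈ MM η D₀ t)) :
    IsPot V (MM η V t) Φ := by
  intro f hf a ha
  rw [mm_vis h1 h2, h f hf a ha]
  by_cases hm : a ∈ MM η D₀ t
  · rw [ind2_pos hm]
    simp [hm]
  · rw [ind2_neg hm]
    simp [hm]

theorem conn_symm {F₁ : Set (ℤ × ℤ)} {p q : ℤ × ℤ} (hc : Conn η F₁ p q) : Conn η F₁ q p := by
  induction hc with
  | refl => exact Relation.ReflTransGen.refl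
  | tail _ hb ih => exact Relation.ReflTransGen.head hb.symm' ih

theorem exists_bond (η : Cfg) (f : ℤ × ℤ) : ∃ p q, Bond η {f} p q := by
  cases h : η f
  · exact ⟨(f.1, f.2 + 1), (f.1 + 1, f.2), f.1, f.2, rfl, Or.inr ⟨h, Or.inl ⟨rfl, rfl⟩⟩⟩
  · exact ⟨(f.1, f.2), (f.1 + 1, f.2 + 1), f.1, f.2, rfl, Or.inl ⟨h, Or.inl ⟨rfl, rfl⟩⟩⟩

/-- A corner with the parity of the ends of the bond is an end of the bond. -/
theorem bond_cor {g p q r : ℤ × ℤ} (hb : Bond η {g} p q) (hr : IsCor g r) (h2 : par r = par p) :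
    r = p ∨ r = q := by
  obtain ⟨x, y, hxy, h⟩ := hb
  rw [Set.mem_singleton_iff] at hxy
  subst hxy
  obtain ⟨r1, r2⟩ := r
  unfold IsCor at hr
  simp only at hr
  unfold par at h2
  rcases h with ⟨-, (⟨rfl, rfl⟩ | ⟨rfl, rfl⟩)⟩ | ⟨-, (⟨rfl, rfl⟩ | ⟨rfl, rfl⟩)⟩ <;>
    simp only [Prod.mk.injEq] at h2 ⊢ <;> omega

theorem par_two {t : UE} {u v : ℤ × ℤ} (h : Joins t u v) (k : ℤ) (hk : k = 0 ∨ k = 1) :
    k = par u ∨ k = par v := by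
  have h1 := h.par_ne
  have h4 := par_cases u
  have h5 := par_cases v
  omega

end ZBaux

open ZBaux

theorem Sec.sub (η : Cfg) (D₀ : Set (ℤ × ℤ)) (t₁ t₂ : UE) :
    SS η D₀ t₁ ∪ SS η D₀ t₂ ⊆ D₀ := Set.union_subset SS_sub SS_sub

theorem Sec.isPot₁ (H : Sec η D₀ t₁ t₂ u₁ v₁ u₂ v₂ Φ₁ Φ₂) :
    IsPot (SS η D₀ t₁ ∪ SS η D₀ t₂) (MM η (SS η D₀ t₁ ∪ SS η D₀ t₂) t₁) Φ₁ :=
  isPot_of Set.subset_union_left (Sec.sub η D₀ t₁ t₂) H.pot₁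

theorem Sec.isPot₂ (H : Sec η D₀ t₁ t₂ u₁ v₁ u₂ v₂ Φ₁ Φ₂) :
    IsPot (SS η D₀ t₁ ∪ SS η D₀ t₂) (MM η (SS η D₀ t₁ ∪ SS η D₀ t₂) t₂) Φ₂ :=
  isPot_of Set.subset_union_right (Sec.sub η D₀ t₁ t₂) H.pot₂

theorem Sec.side₁ (H : Sec η D₀ t₁ t₂ u₁ v₁ u₂ v₂ Φ₁ Φ₂) :
    ∃ f ∈ SS η D₀ t₁ ∪ SS η D₀ t₂, IsSide f t₁ := by
  obtain ⟨f, hf, hs⟩ := H.s₁
  exact ⟨f, Or.inl ⟨hf, t₁, mem_MM_self, hs⟩, hs⟩

theorem Sec.side₂ (H : Sec η D₀ t₁ t₂ u₁ v₁ u₂ v₂ Φ₁ Φ₂) :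
    ∃ f ∈ SS η D₀ t₁ ∪ SS η D₀ t₂, IsSide f t₂ := by
  obtain ⟨f, hf, hs⟩ := H.s₂
  exact ⟨f, Or.inr ⟨hf, t₂, mem_MM_self, hs⟩, hs⟩

theorem Sec.par_v (H : Sec η D₀ t₁ t₂ u₁ v₁ u₂ v₂ Φ₁ Φ₂) : par v₁ = par v₂ := by
  have h1 := H.j₁.par_ne
  have h2 := H.j₂.par_ne
  have h3 := H.par_u
  have h4 := par_cases u₁
  have h5 := par_cases v₁
  have h6 := par_cases u₂
  have h7 := par_cases v₂
  omega

theorem ZBaux.mm_symm_not {t t' : UE} (h : t' ∉ MM η D₀ t) : t ∉ MM η D₀ t' := by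
  intro h'
  have key : ∀ x, x ∈ MM η D₀ t' → t' ∈ MM η D₀ x := by
    intro x hx
    change Relation.ReflTransGen _ t' x at hx
    change Relation.ReflTransGen _ x t'
    induction hx with
    | refl => exact Relation.ReflTransGen.refl
    | tail _ hs ih =>
      obtain ⟨f, hf, hm⟩ := hs
      exact Relation.ReflTransGen.head ⟨f, hf, hm.symm⟩ ih
  exact h (key t h')

theorem Sec.swap (H : Sec η D₀ t₁ t₂ u₁ v₁ u₂ v₂ Φ₁ Φ₂) :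
    Sec η D₀ t₂ t₁ u₂ v₂ u₁ v₁ Φ₂ Φ₁ where
  j₁ := H.j₂
  j₂ := H.j₁
  par_u := H.par_u.symm
  s₁ := H.s₂
  s₂ := H.s₁
  ne := mm_symm_not H.ne
  pot₁ := by rw [Set.union_comm]; exact H.pot₂
  pot₂ := by rw [Set.union_comm]; exact H.pot₁
  v₁₁ := H.v₂₂
  v₂₁ := H.v₁₂
  v₁₂ := H.v₂₁
  v₂₂ := H.v₁₁

theorem Sec.ss₁ (η : Cfg) (D₀ : Set (ℤ × ℤ)) (t₁ t₂ : UE) :
    SS η (SS η D₀ t₁ ∪ SS η D₀ t₂) t₁ = SS η D₀ t₁ :=
  ss_vis Set.subset_union_left (Sec.sub η D₀ t₁ t₂)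

theorem Sec.ss₂ (η : Cfg) (D₀ : Set (ℤ × ℤ)) (t₁ t₂ : UE) :
    SS η (SS η D₀ t₁ ∪ SS η D₀ t₂) t₂ = SS η D₀ t₂ :=
  ss_vis Set.subset_union_right (Sec.sub η D₀ t₁ t₂)

/-- A corner of a face visited by the first strand, on the side of `v₁`. -/
theorem Sec.cor₁ (H : Sec η D₀ t₁ t₂ u₁ v₁ u₂ v₂ Φ₁ Φ₂) (hf : f ∈ SS η D₀ t₁)
    (hq : IsCor f q) (hp : par q = par v₁) (h : Φ₁ q = 1) : Conn η (SS η D₀ t₁) v₁ q := by
  have := H.isPot₁.ss_conn H.j₁.symm H.side₁ (by rw [Sec.ss₁]; exact hf) hq hp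
    (by rw [h, H.v₁₁])
  rwa [Sec.ss₁] at this

theorem Sec.cor₂ (H : Sec η D₀ t₁ t₂ u₁ v₁ u₂ v₂ Φ₁ Φ₂) (hf : f ∈ SS η D₀ t₂)
    (hq : IsCor f q) (hp : par q = par v₂) (h : Φ₂ q = 1) : Conn η (SS η D₀ t₂) v₂ q :=
  H.swap.cor₁ hf hq hp h

theorem Sec.Φu₁ (H : Sec η D₀ t₁ t₂ u₁ v₁ u₂ v₂ Φ₁ Φ₂) : Φ₁ u₁ = 0 := by
  have h := H.isPot₁.ne H.j₁ H.side₁
  rw [H.v₁₁] at h
  rcases z2_cases (Φ₁ u₁) with h1 | h1
  · exact h1
  · exact absurd h1 h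

/-- The potential of the second strand at the ends of the first one. -/
theorem Sec.Φu₂₁ (H : Sec η D₀ t₁ t₂ u₁ v₁ u₂ v₂ Φ₁ Φ₂) : Φ₂ u₁ = 0 := by
  obtain ⟨f, hf, hs⟩ := H.side₁
  have h := H.isPot₂.joins hf hs H.j₁
  rw [mm_vis Set.subset_union_right (Sec.sub η D₀ t₁ t₂)] at h
  have h2 : Φ₂ u₁ = Φ₂ v₁ := by
    by_contra hne
    exact mm_symm_not H.ne (h.2 hne)
  rw [h2, H.v₂₁]

/-- On a face visited by the first strand there is a corner of the colour of `v₁` with the values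
of `v₁`, joined to `v₁`, and a corner of the colour of `u₁` with the values `0`. -/
theorem Sec.mark₁ (H : Sec η D₀ t₁ t₂ u₁ v₁ u₂ v₂ Φ₁ Φ₂) (hf : f ∈ SS η D₀ t₁) :
    ∃ r s, IsCor f r ∧ IsCor f s ∧ par r = par v₁ ∧ par s = par u₁ ∧ Φ₁ r = 1 ∧ Φ₂ r = 0 ∧
      Φ₁ s = 0 ∧ Φ₂ s = 0 ∧ Conn η (SS η D₀ t₁) v₁ r ∧ Conn η (SS η D₀ t₁) u₁ s := by
  obtain ⟨hfD, a, ha, hside⟩ := hf
  obtain ⟨r, s, hj, hr, hc⟩ := MM_conn H.j₁.symm ha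
  obtain ⟨s', r', hj', hs', hc'⟩ := MM_conn H.j₁ ha
  obtain ⟨rfl, rfl⟩ := hj.symm.of_par hj' (by
    have h1 := hj.par_ne
    have h2 := H.j₁.par_ne
    have h3 := par_cases r
    have h4 := par_cases s
    have h5 := par_cases u₁
    have h6 := par_cases v₁
    omega)
  have e1 : ∀ {x y}, Conn η (SS η D₀ t₁) x y → Conn η (SS η D₀ t₁ ∪ SS η D₀ t₂) x y :=
    fun h => h.mono Set.subset_union_left
  refine ⟨r, s, hside.cor_left hj, hside.cor_left hj.symm, hr, hs', ?_, ?_, ?_, ?_, hc, hc'⟩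
  · rw [← H.isPot₁.conn (e1 hc), H.v₁₁]
  · rw [← H.isPot₂.conn (e1 hc), H.v₂₁]
  · rw [← H.isPot₁.conn (e1 hc'), H.Φu₁]
  · rw [← H.isPot₂.conn (e1 hc'), H.Φu₂₁]

/-- The second potential is constant on a face which the second strand does not visit. -/
theorem Sec.fresh₂ (H : Sec η D₀ t₁ t₂ u₁ v₁ u₂ v₂ Φ₁ Φ₂) (hf : f ∈ SS η D₀ t₁ ∪ SS η D₀ t₂)
    (hf2 : f ∉ SS η D₀ t₂) (hp : IsCor f p) (hq : IsCor f q) : Φ₂ p = Φ₂ q :=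
  H.isPot₂.fresh hf (by rw [Sec.ss₂]; exact hf2) hp hq

theorem Sec.fresh₁ (H : Sec η D₀ t₁ t₂ u₁ v₁ u₂ v₂ Φ₁ Φ₂) (hf : f ∈ SS η D₀ t₁ ∪ SS η D₀ t₂)
    (hf1 : f ∉ SS η D₀ t₁) (hp : IsCor f p) (hq : IsCor f q) : Φ₁ p = Φ₁ q :=
  H.isPot₁.fresh hf (by rw [Sec.ss₁]; exact hf1) hp hq

/-- A D corner of a visited face on the D side is a D mark of the first or of the second strand. -/
theorem Sec.marksD (H : Sec η D₀ t₁ t₂ u₁ v₁ u₂ v₂ Φ₁ Φ₂)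
    (hf : f ∈ SS η D₀ t₁ ∪ SS η D₀ t₂) (hq : IsCor f q) (hp : par q = par v₁)
    (h : Φ₁ q + Φ₂ q = 1) :
    (Φ₁ q = 1 ∧ Φ₂ q = 0 ∧ Conn η (SS η D₀ t₁) v₁ q) ∨
      (Φ₁ q = 0 ∧ Φ₂ q = 1 ∧ Conn η (SS η D₀ t₂) v₂ q) := by
  have key : ∀ {D₀ : Set (ℤ × ℤ)} {t₁ t₂ : UE} {u₁ v₁ u₂ v₂ : ℤ × ℤ} {Φ₁ Φ₂ : ℤ × ℤ → ZMod 2}
      (H : Sec η D₀ t₁ t₂ u₁ v₁ u₂ v₂ Φ₁ Φ₂) (hf : f ∈ SS η D₀ t₁ ∪ SS η D₀ t₂)
      (hp : par q = par v₁) (h1 : Φ₁ q = 1) (h2 : Φ₂ q = 0), Conn η (SS η D₀ t₁) v₁ q := by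
    intro D₀ t₁ t₂ u₁ v₁ u₂ v₂ Φ₁ Φ₂ H hf hp h1 h2
    by_cases hf1 : f ∈ SS η D₀ t₁
    · exact H.cor₁ hf1 hq hp h1
    · exfalso
      have hf2 : f ∈ SS η D₀ t₂ := hf.resolve_left hf1
      obtain ⟨r, s, hr, hs, -, -, h3, h4, -⟩ := H.swap.mark₁ hf2
      have := H.fresh₁ hf hf1 hq hr
      rw [h1, h4] at this
      exact absurd this (by decide)
  rcases z2_cases (Φ₁ q) with h1 | h1
  · have h2 : Φ₂ q = 1 := by rw [h1, zero_add] at h; exact h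
    right
    exact ⟨h1, h2, key H.swap (by rw [Set.union_comm]; exact hf) (hp.trans H.par_v) h2 h1⟩
  · have h2 : Φ₂ q = 0 := by
      rcases z2_cases (Φ₂ q) with h2 | h2
      · exact h2
      · rw [h1, h2] at h
        exact absurd h (by decide)
    left
    exact ⟨h1, h2, key H hf hp h1 h2⟩

/-- A P corner of a visited face on the P side. -/
theorem Sec.marksP (H : Sec η D₀ t₁ t₂ u₁ v₁ u₂ v₂ Φ₁ Φ₂)
    (hf : f ∈ SS η D₀ t₁ ∪ SS η D₀ t₂) (hq : IsCor f q) (hp : par q = par u₁)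
    (h : Φ₁ q + Φ₂ q = 0) :
    Conn η (SS η D₀ t₁) u₁ q ∨ Conn η (SS η D₀ t₂) u₂ q := by
  have key : ∀ {D₀ : Set (ℤ × ℤ)} {t₁ t₂ : UE} {u₁ v₁ u₂ v₂ : ℤ × ℤ} {Φ₁ Φ₂ : ℤ × ℤ → ZMod 2}
      (H : Sec η D₀ t₁ t₂ u₁ v₁ u₂ v₂ Φ₁ Φ₂) (hf : f ∈ SS η D₀ t₁)
      (hp : par q = par u₁) (h : Φ₁ q + Φ₂ q = 0), Conn η (SS η D₀ t₁) u₁ q := by
    intro D₀ t₁ t₂ u₁ v₁ u₂ v₂ Φ₁ Φ₂ H hf hp h
    have hV : f ∈ SS η D₀ t₁ ∪ SS η D₀ t₂ := Or.inl hf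
    rcases z2_cases (Φ₁ q) with h1 | h1
    · have := H.isPot₁.ss_conn H.j₁ H.side₁ (by rw [Sec.ss₁]; exact hf) hq hp
        (by rw [h1, H.Φu₁])
      rwa [Sec.ss₁] at this
    · exfalso
      have h2 : Φ₂ q = 1 := by
        rcases z2_cases (Φ₂ q) with h2 | h2
        · rw [h1, h2] at h
          exact absurd h (by decide)
        · exact h2
      obtain ⟨r, s, hr, hs, hpr, hps, h3, h4, h5, h6, -⟩ := H.mark₁ hf
      -- the face is visited by the second strand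
      by_cases hf2 : f ∈ SS η D₀ t₂
      · obtain ⟨r', s', hr', hs', hpr', hps', h3', h4', h5', h6', -⟩ := H.swap.mark₁ hf2
        obtain ⟨a, b, hb⟩ := exists_bond η f
        have hbV : Bond η (SS η D₀ t₁ ∪ SS η D₀ t₂) a b := hb.of_single hV
        have hab := H.isPot₁.bond hbV
        rcases ZBaux.par_two H.j₁ (par a) (par_cases a) with hpa | hpa
        · have h7 : Φ₁ q = Φ₁ a := by
            rcases bond_cor hb hq (hp.trans hpa.symm) with rfl | rfl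
            · rfl
            · exact hab.symm
          have h8 : Φ₁ s = Φ₁ a := by
            rcases bond_cor hb hs (hps.trans hpa.symm) with rfl | rfl
            · rfl
            · exact hab.symm
          rw [← h8, h1, h5] at h7
          exact absurd h7 (by decide)
        · have h7 : Φ₁ r = Φ₁ a := by
            rcases bond_cor hb hr (hpr.trans hpa.symm) with rfl | rfl
            · rfl
            · exact hab.symm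
          have h8 : Φ₁ r' = Φ₁ a := by
            rcases bond_cor hb hr' (hpr'.trans (H.par_v.symm.trans hpa.symm)) with rfl | rfl
            · rfl
            · exact hab.symm
          rw [← h8, h3, h4'] at h7
          exact absurd h7 (by decide)
      · have := H.fresh₂ hV hf2 hq hs
        rw [h2, h6] at this
        exact absurd this (by decide)
  rcases hf with hf | hf
  · exact Or.inl (key H hf hp h)
  · exact Or.inr (key H.swap hf (hp.trans H.par_u) (by rw [add_comm]; exact h))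

/-- Landing of a D path next to the first strand. -/
theorem Sec.landD₁ (H : Sec η D₀ t₁ t₂ u₁ v₁ u₂ v₂ Φ₁ Φ₂)
    (hξ : ∀ f ∈ G, f ∉ SS η D₀ t₁ ∪ SS η D₀ t₂ → η f = ξ f)
    (hΦ : ∀ f ∈ G, f ∉ SS η D₀ t₁ ∪ SS η D₀ t₂ → ∀ p q, IsCor f p → IsCor f q →
      Φ₁ p = Φ₁ q ∧ Φ₂ p = Φ₂ q)
    (hc : Conn ξ G p q) (hp : par p = par v₁) (h1 : Φ₁ p = 1) (h2 : Φ₂ p = 0)
    (h3 : Φ₁ q + Φ₂ q = 0) : Conn η (G ∪ SS η D₀ t₁) p v₁ := by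
  have key : ∀ r, Conn ξ G p r →
      ((Φ₁ r = 1 ∧ Φ₂ r = 0) ∧ Conn η (G ∪ SS η D₀ t₁) p r) ∨
        Conn η (G ∪ SS η D₀ t₁) p v₁ := by
    intro r hr
    induction hr with
    | refl => exact Or.inl ⟨⟨h1, h2⟩, Relation.ReflTransGen.refl⟩
    | tail hc hb ih =>
      rename_i r r'
      rcases ih with ⟨⟨h4, h5⟩, h6⟩ | h
      · obtain ⟨g, hg, hbg, hcr, hcr'⟩ := hb.exists_face
        by_cases hV : g ∈ SS η D₀ t₁ ∪ SS η D₀ t₂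
        · right
          have hpr : par r = par v₁ := by rw [← Conn.par_eq hc]; exact hp
          rcases H.marksD hV hcr hpr (by rw [h4, h5, add_zero]) with h7 | h7
          · exact h6.trans ((conn_symm h7.2.2).mono Set.subset_union_right)
          · rw [h4] at h7
            exact absurd h7.1 (by decide)
        · left
          obtain ⟨h7, h8⟩ := hΦ g hg hV r r' hcr hcr'
          exact ⟨⟨by rw [← h7, h4], by rw [← h8, h5]⟩,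
            h6.tail ((Bond.congr (hξ g hg hV).symm hbg).of_single (Or.inl hg))⟩
      · exact Or.inr h
  rcases key q hc with ⟨⟨h4, h5⟩, -⟩ | h
  · rw [h4, h5] at h3
    exact absurd h3 (by decide)
  · exact h

/-- Landing of a D path next to the second strand. -/
theorem Sec.landD₂ (H : Sec η D₀ t₁ t₂ u₁ v₁ u₂ v₂ Φ₁ Φ₂)
    (hξ : ∀ f ∈ G, f ∉ SS η D₀ t₁ ∪ SS η D₀ t₂ → η f = ξ f)
    (hΦ : ∀ f ∈ G, f ∉ SS η D₀ t₁ ∪ SS η D₀ t₂ → ∀ p q, IsCor f p → IsCor f q →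
      Φ₁ p = Φ₁ q ∧ Φ₂ p = Φ₂ q)
    (hc : Conn ξ G p q) (hp : par p = par v₁) (h1 : Φ₁ p = 0) (h2 : Φ₂ p = 1)
    (h3 : Φ₁ q + Φ₂ q = 0) : Conn η (G ∪ SS η D₀ t₂) p v₂ :=
  H.swap.landD₁ (by rw [Set.union_comm]; exact hξ)
    (by
      rw [Set.union_comm]
      exact fun f hf hf' p q hp hq => (hΦ f hf hf' p q hp hq).symm)
    hc (hp.trans H.par_v) h2 h1 (by rw [add_comm]; exact h3)

/-- Landing of a P path. -/
theorem Sec.landP (H : Sec η D₀ t₁ t₂ u₁ v₁ u₂ v₂ Φ₁ Φ₂)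
    (hξ : ∀ f ∈ G, f ∉ SS η D₀ t₁ ∪ SS η D₀ t₂ → η f = ξ f)
    (hΦ : ∀ f ∈ G, f ∉ SS η D₀ t₁ ∪ SS η D₀ t₂ → ∀ p q, IsCor f p → IsCor f q →
      Φ₁ p + Φ₂ p = Φ₁ q + Φ₂ q)
    (hc : Conn ξ G p q) (hp : par p = par u₁) (h1 : Φ₁ p + Φ₂ p = 0) (h3 : Φ₁ q + Φ₂ q = 1) :
    Conn η (G ∪ SS η D₀ t₁) p u₁ ∨ Conn η (G ∪ SS η D₀ t₂) p u₂ := by
  have key : ∀ r, Conn ξ G p r →
      (Φ₁ r + Φ₂ r = 0 ∧ Conn η G p r) ∨
        (Conn η (G ∪ SS η D₀ t₁) p u₁ ∨ Conn η (G ∪ SS η D₀ t₂) p u₂) := by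
    intro r hr
    induction hr with
    | refl => exact Or.inl ⟨h1, Relation.ReflTransGen.refl⟩
    | tail hc hb ih =>
      rename_i r r'
      rcases ih with ⟨h4, h6⟩ | h
      · obtain ⟨g, hg, hbg, hcr, hcr'⟩ := hb.exists_face
        by_cases hV : g ∈ SS η D₀ t₁ ∪ SS η D₀ t₂
        · right
          have hpr : par r = par u₁ := by rw [← Conn.par_eq hc]; exact hp
          rcases H.marksP hV hcr hpr h4 with h7 | h7
          · exact Or.inl ((h6.mono Set.subset_union_left).trans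
              ((conn_symm h7).mono Set.subset_union_right))
          · exact Or.inr ((h6.mono Set.subset_union_left).trans
              ((conn_symm h7).mono Set.subset_union_right))
        · left
          exact ⟨by rw [← hΦ g hg hV r r' hcr hcr', h4],
            h6.tail ((Bond.congr (hξ g hg hV).symm hbg).of_single hg)⟩
      · exact Or.inr h
  rcases key q hc with ⟨h4, -⟩ | h
  · rw [h4] at h3
    exact absurd h3 (by decide)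
  · exact h

/-- A D path between two vertices on the P side with different values of `Θ` joins the D sides of
the two strands: `Θ` changes only together with `Φ₁`, on faces with `Φ₁ + Φ₂ = 1`, which are not
visited (the faces of the corridor). Invariant: `Θ` on the P side, `Θ + Φ₁ + [the current D cluster
is that of the first strand]` on the D side. -/
theorem Sec.ringD (H : Sec η D₀ t₁ t₂ u₁ v₁ u₂ v₂ Φ₁ Φ₂)
    (hξ : ∀ f ∈ G, f ∉ SS η D₀ t₁ ∪ SS η D₀ t₂ → η f = ξ f)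
    (hΦ : ∀ f ∈ G, f ∉ SS η D₀ t₁ ∪ SS η D₀ t₂ → ∀ p q, IsCor f p → IsCor f q →
      Φ₁ p + Φ₂ p = Φ₁ q + Φ₂ q ∧ Θ p + Φ₁ p = Θ q + Φ₁ q ∧ (Φ₁ p + Φ₂ p = 0 → Θ p = Θ q))
    (hΘ : ∀ f ∈ G, f ∈ SS η D₀ t₁ ∪ SS η D₀ t₂ → ∀ p q, IsCor f p → IsCor f q → Θ p = Θ q)
    (hc : Conn ξ G p q) (hp : par p = par v₁) (h1 : Φ₁ p + Φ₂ p = 0) (h3 : Φ₁ q + Φ₂ q = 0)
    (hne : Θ p ≠ Θ q) : Conn η (G ∪ (SS η D₀ t₁ ∪ SS η D₀ t₂)) v₁ v₂ := by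
  set W : Set (ℤ × ℤ) := G ∪ (SS η D₀ t₁ ∪ SS η D₀ t₂) with hW
  have m1 : SS η D₀ t₁ ⊆ W := fun x hx => Or.inr (Or.inl hx)
  have m2 : SS η D₀ t₂ ⊆ W := fun x hx => Or.inr (Or.inr hx)
  -- a corner of a visited face with the old value of `Θ`
  have arr : ∀ {g r' : ℤ × ℤ}, g ∈ SS η D₀ t₁ ∪ SS η D₀ t₂ → IsCor g r' → par r' = par v₁ →
      Θ r' = Θ p → Conn η W v₁ v₂ ∨
        (Φ₁ r' + Φ₂ r' = 0 ∧ Θ r' = Θ p) ∨
        (Φ₁ r' + Φ₂ r' = 1 ∧ Conn η W v₁ r' ∧ Θ r' + Φ₁ r' + 1 = Θ p) ∨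
        (Φ₁ r' + Φ₂ r' = 1 ∧ Conn η W v₂ r' ∧ Θ r' + Φ₁ r' = Θ p) := by
    intro g r' hV hcr' hpr' hθ
    right
    rcases z2_cases (Φ₁ r' + Φ₂ r') with h | h
    · exact Or.inl ⟨h, hθ⟩
    · rcases H.marksD hV hcr' hpr' h with h4 | h4
      · right; left
        refine ⟨h, h4.2.2.mono m1, ?_⟩
        rw [h4.1, hθ, add_assoc]
        rw [show (1 : ZMod 2) + 1 = 0 from by decide, add_zero]
      · right; right
        refine ⟨h, h4.2.2.mono m2, ?_⟩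
        rw [h4.1, hθ, add_zero]
  have key : ∀ r, Conn ξ G p r → Conn η W v₁ v₂ ∨
      (Φ₁ r + Φ₂ r = 0 ∧ Θ r = Θ p) ∨
      (Φ₁ r + Φ₂ r = 1 ∧ Conn η W v₁ r ∧ Θ r + Φ₁ r + 1 = Θ p) ∨
      (Φ₁ r + Φ₂ r = 1 ∧ Conn η W v₂ r ∧ Θ r + Φ₁ r = Θ p) := by
    intro r hr
    induction hr with
    | refl => exact Or.inr (Or.inl ⟨h1, rfl⟩)
    | tail hc hb ih =>
      rename_i r r'
      obtain ⟨g, hg, hbg, hcr, hcr'⟩ := hb.exists_face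
      have hpr : par r = par v₁ := by rw [← Conn.par_eq hc]; exact hp
      have hpr' : par r' = par v₁ := by rw [← hb.par_eq]; exact hpr
      by_cases hV : g ∈ SS η D₀ t₁ ∪ SS η D₀ t₂
      · have hθ := hΘ g hg hV r r' hcr hcr'
        rcases ih with h | ⟨h4, h5⟩ | ⟨h4, h5, h6⟩ | ⟨h4, h5, h6⟩
        · exact Or.inl h
        · exact arr hV hcr' hpr' (hθ.symm.trans h5)
        · rcases H.marksD hV hcr hpr h4 with h7 | h7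
          · apply arr hV hcr' hpr'
            rw [h7.1, add_assoc, show (1 : ZMod 2) + 1 = 0 from by decide, add_zero] at h6
            exact hθ.symm.trans h6
          · left
            exact h5.trans (conn_symm (h7.2.2.mono m2))
        · rcases H.marksD hV hcr hpr h4 with h7 | h7
          · left
            exact (h7.2.2.mono m1).trans (conn_symm h5)
          · apply arr hV hcr' hpr'
            rw [h7.1, add_zero] at h6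
            exact hθ.symm.trans h6
      · obtain ⟨h7, h8, h9⟩ := hΦ g hg hV r r' hcr hcr'
        have hb' : Bond η W r r' := (Bond.congr (hξ g hg hV).symm hbg).of_single (Or.inl hg)
        rcases ih with h | ⟨h4, h5⟩ | ⟨h4, h5, h6⟩ | ⟨h4, h5, h6⟩
        · exact Or.inl h
        · right; left
          exact ⟨by rw [← h7, h4], by rw [← h9 h4, h5]⟩
        · right; right; left
          exact ⟨by rw [← h7, h4], h5.tail hb', by rw [← h8, h6]⟩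
        · right; right; right
          exact ⟨by rw [← h7, h4], h5.tail hb', by rw [← h8, h6]⟩
  rcases key q hc with h | ⟨-, h5⟩ | ⟨h4, -⟩ | ⟨h4, -⟩
  · exact h
  · exact absurd h5.symm hne
  · rw [h3] at h4
    exact absurd h4 (by decide)
  · rw [h3] at h4
    exact absurd h4 (by decide)

end Pool.Agent.Occ
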