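import Pool.Agent.Lib.MP_6bd702_perc6.Defs
import Pool.Agent.Lib.MP_6bd702_perc.PlanarA

/-!
# The barrier: squares behind a path of the other colour are free
-/

set_option autoImplicit false

namespace Pool.Agent.Occ

open Finset Pool.Agent.Perc Pool.Agent.PercD Pool.Agent.PercL Pool.Agent.Perc6

/-- Four boundary points in alternating order: a connection of the lower side with itself and a
connection of the other parity from the lower side, in between, to the left, right or upper side
exclude each other. -/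
theorem no_alt {ω : Cfg} {x₀ x₁ y₀ y₁ : ℤ} {u w p z : ℤ × ℤ} (hu0 : x₀ ≤ u.1)
    (hu : u.2 = y₀) (hw : w.2 = y₀) (hup : u.1 < p.1) (hpw : p.1 < w.1) (hp : p.2 = y₀)
    (hpar : (p.1 + p.2) % 2 ≠ (u.1 + u.2) % 2) (h : Conn ω (RF x₀ x₁ y₀ y₁) u w)
    (hc : Conn ω (RF x₀ x₁ y₀ y₁) p z) (hz : z.1 = x₀ ∨ z.1 = x₁ ∨ z.2 = y₁) : False := by
  obtain ⟨β, h1, h2, h3, h4, h5⟩ := PlanarA.exists_chain h
  have hβ : ∀ f, β f ≠ 0 → x₀ ≤ f.1 := fun f hf => (PlanarA.mem_RF.mp (h1 f hf)).1.1
  have hβ0 : ∀ f, f ∉ RF x₀ x₁ y₀ y₁ → β f = 0 := by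
    intro f hf
    by_contra h0
    exact hf (h1 f h0)
  set P := u.1 + u.2 with hP
  -- the potential does not change across the higher rows
  have agree : ∀ x Y : ℤ, x₀ ≤ x → y₀ < Y → (x + Y - P) % 2 ≠ 0 →
      PlanarA.pre x₀ β x Y = PlanarA.pre x₀ β x (Y - 1) := by
    intro x Y hx hY hxP
    refine PlanarA.pre_agree (p := P) hβ ?_ (x - x₀ + 1).toNat x (by omega) hxP
    intro x' hx'
    rw [h4 (x', Y) hx']
    have e1 : (x', Y) ≠ u := by
      intro h0
      rw [← h0] at hu
      simp only at hu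
      omega
    have e2 : (x', Y) ≠ w := by
      intro h0
      rw [← h0] at hw
      simp only at hw
      omega
    simp [PlanarA.ind, e1, e2]
  -- constant along the path
  have hconst : ∀ q, Conn ω (RF x₀ x₁ y₀ y₁) p q →
      PlanarA.pre x₀ β p.1 p.2 = PlanarA.pre x₀ β q.1 q.2 := by
    intro q hq
    induction hq with
    | refl => rfl
    | tail hab hb ih =>
      rename_i a b
      rw [ih]
      have hpa := Conn.parity hab
      obtain ⟨x, y, hxy, hb⟩ := hb
      have hm := PlanarA.mem_RF.mp (Finset.mem_coe.mp hxy)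
      simp only at hm
      have hb0 : β (x, y) = 0 := by
        by_contra h0
        have h6 := h3 _ h0
        simp only at h6
        rcases hb with ⟨hω, ⟨rfl, rfl⟩ | ⟨rfl, rfl⟩⟩ | ⟨hω, ⟨rfl, rfl⟩ | ⟨rfl, rfl⟩⟩
        · have := h6.mp hω; simp only at hpa; omega
        · have := h6.mp hω; simp only at hpa; omega
        · simp only at hpa
          have := h6.mpr (by omega)
          rw [hω] at this
          exact absurd this (by simp)
        · simp only at hpa
          have := h6.mpr (by omega)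
          rw [hω] at this
          exact absurd this (by simp)
      have hs := PlanarA.pre_succ hβ x y
      rw [hb0, add_zero] at hs
      have ag1 : (x + 1 + (y + 1) - P) % 2 ≠ 0 →
          PlanarA.pre x₀ β (x + 1) (y + 1) = PlanarA.pre x₀ β (x + 1) y := by
        intro h7
        have := agree (x + 1) (y + 1) (by omega) (by omega) h7
        rwa [add_sub_cancel_right] at this
      have ag2 : (x + (y + 1) - P) % 2 ≠ 0 →
          PlanarA.pre x₀ β x (y + 1) = PlanarA.pre x₀ β x y := by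
        intro h7
        have := agree x (y + 1) (by omega) (by omega) h7
        rwa [add_sub_cancel_right] at this
      rcases hb with ⟨hω, ⟨rfl, rfl⟩ | ⟨rfl, rfl⟩⟩ | ⟨hω, ⟨rfl, rfl⟩ | ⟨rfl, rfl⟩⟩
      · simp only at hpa ⊢
        rw [ag1 (by omega), hs]
      · simp only at hpa ⊢
        rw [ag1 (by omega), hs]
      · simp only at hpa ⊢
        rw [ag2 (by omega), hs]
      · simp only at hpa ⊢
        rw [ag2 (by omega), hs]
  -- the lower row
  have hrow : ∀ n : ℕ, ∀ x : ℤ, x = x₀ - 1 + n → (x + y₀ - P) % 2 ≠ 0 →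
      PlanarA.pre x₀ β x y₀ = (if u.1 < x then 1 else 0) + (if w.1 < x then 1 else 0) := by
    intro n
    induction n using Nat.strong_induction_on with
    | _ n ih =>
      intro x hx hxP
      by_cases hn : x ≤ x₀
      · rw [PlanarA.pre_of_le β y₀ hn, if_neg (by omega), if_neg (by omega), add_zero]
      · have e1 := PlanarA.pre_succ hβ (x - 1) y₀
        have e2 := PlanarA.pre_succ hβ (x - 1 - 1) y₀
        rw [sub_add_cancel] at e1 e2
        have e3 := h4 (x - 1, y₀) (by simp only; omega)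
        unfold PlanarA.deg at e3
        simp only at e3
        rw [hβ0 (x - 1, y₀ - 1) (by rw [PlanarA.mem_RF]; simp only; omega),
          hβ0 (x - 1 - 1, y₀ - 1) (by rw [PlanarA.mem_RF]; simp only; omega), add_zero,
          add_zero] at e3
        have e4 : PlanarA.pre x₀ β (x - 1 - 1) y₀ =
            (if u.1 < x - 1 - 1 then 1 else 0) + (if w.1 < x - 1 - 1 then 1 else 0) := by
          by_cases h8 : x - 1 - 1 ≤ x₀
          · rw [PlanarA.pre_of_le β y₀ h8, if_neg (by omega), if_neg (by omega), add_zero]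
          · exact ih (n - 2) (by omega) (x - 1 - 1) (by omega) (by omega)
        rw [e1, e2, e4]
        have e5 : β (x - 1 - 1, y₀) + β (x - 1, y₀) = PlanarA.ind u (x - 1, y₀) +
            PlanarA.ind w (x - 1, y₀) := by rw [← e3, add_comm]
        rw [add_assoc, e5]
        have e6 : ∀ v : ℤ × ℤ, v.2 = y₀ → (v.1 + v.2 - P) % 2 = 0 →
            (if v.1 < x - 1 - 1 then (1 : ZMod 2) else 0) + PlanarA.ind v (x - 1, y₀) =
              if v.1 < x then 1 else 0 := by
          intro v hv hvP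
          unfold PlanarA.ind
          by_cases h9 : v.1 = x - 1
          · have h10 : (x - 1, y₀) = v := by rw [← h9, ← hv]
            rw [if_neg (by omega), if_pos h10, if_pos (by omega), zero_add]
          · have h10 : (x - 1, y₀) ≠ v := by
              intro h11
              rw [← h11] at h9
              exact h9 rfl
            rw [if_neg h10, add_zero]
            by_cases h11 : v.1 < x - 1 - 1
            · rw [if_pos h11, if_pos (by omega)]
            · rw [if_neg h11, if_neg (by omega)]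
        have hwpar := Conn.parity h
        rw [← e6 u hu (by omega), ← e6 w hw (by omega)]
        ring
  have hΦp : PlanarA.pre x₀ β p.1 p.2 = 1 := by
    rw [hp, hrow (p.1 - x₀ + 1).toNat p.1 (by omega) (by omega), if_pos hup,
      if_neg (by omega), add_zero]
  have hΦz : PlanarA.pre x₀ β z.1 z.2 = 0 := by
    rcases hz with h6 | h6 | h6
    · exact PlanarA.pre_of_le β z.2 h6.le
    · rw [h6]
      unfold PlanarA.pre
      rw [h5, hu, hw]
      exact PlanarA.zmod_add_self _
    · rw [h6]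
      unfold PlanarA.pre
      refine Finset.sum_eq_zero fun i _ => hβ0 _ ?_
      rw [PlanarA.mem_RF]
      simp only
      omega
  rw [hconst z hc, hΦz] at hΦp
  exact absurd hΦp (by decide)

/-- The faces of the squares of `T`. -/
def SqF (x y η : ℤ) (T : Set (ℤ × ℤ)) : Set (ℤ × ℤ) :=
  {f | ∃ t ∈ T, x + η * t.1 ≤ f.1 ∧ f.1 < x + η * (t.1 + 1) ∧ y + η * t.2 ≤ f.2 ∧
    f.2 < y + η * (t.2 + 1)}

/-- The vertex `p` is in the closed square `t`. -/
def InSq (x y η : ℤ) (t p : ℤ × ℤ) : Prop :=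
  x + η * t.1 ≤ p.1 ∧ p.1 ≤ x + η * (t.1 + 1) ∧ y + η * t.2 ≤ p.2 ∧ p.2 ≤ y + η * (t.2 + 1)

/-- The bond of the face `f` of the parity `col`. -/
def pb (col : ℤ) (f : ℤ × ℤ) : Bool := decide ((f.1 + f.2 - col) % 2 = 0)

/-- Adding bonds of the parity `col` preserves the connections of this parity. -/
theorem conn_add {col : ℤ} {K F : Set (ℤ × ℤ)} {ω ω' : Cfg} (h : ∀ f ∈ K, ω' f = pb col f)
    (h' : ∀ f, f ∉ K → ω' f = ω f) {p q : ℤ × ℤ} (hp : par p = col) (hc : Conn ω F p q) :
    Conn ω' F p q := by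
  induction hc with
  | refl => exact Relation.ReflTransGen.refl
  | tail hab hb ih =>
    rename_i a b
    refine ih.tail ?_
    have hpa := Conn.parity hab
    unfold par at hp
    obtain ⟨x, y, hxy, hb⟩ := hb
    refine ⟨x, y, hxy, ?_⟩
    by_cases hK : (x, y) ∈ K
    · have h1 := h _ hK
      rcases hb with ⟨hω, ⟨rfl, rfl⟩ | ⟨rfl, rfl⟩⟩ | ⟨hω, ⟨rfl, rfl⟩ | ⟨rfl, rfl⟩⟩
      · refine Or.inl ⟨?_, Or.inl ⟨rfl, rfl⟩⟩
        rw [h1]
        unfold pb
        simp only at hpa ⊢
        exact decide_eq_true (by omega)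
      · refine Or.inl ⟨?_, Or.inr ⟨rfl, rfl⟩⟩
        rw [h1]
        unfold pb
        simp only at hpa ⊢
        exact decide_eq_true (by omega)
      · refine Or.inr ⟨?_, Or.inl ⟨rfl, rfl⟩⟩
        rw [h1]
        unfold pb
        simp only at hpa ⊢
        exact decide_eq_false (by omega)
      · refine Or.inr ⟨?_, Or.inr ⟨rfl, rfl⟩⟩
        rw [h1]
        unfold pb
        simp only at hpa ⊢
        exact decide_eq_false (by omega)
    · rwa [h' _ hK]

/-- The vertices of one parity of a rectangle are connected if all bonds have this parity: down. -/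
theorem to_bottom {col : ℤ} {ω : Cfg} {F : Set (ℤ × ℤ)} {X Y η : ℤ} (hη : 1 ≤ η)
    (hF : ∀ f : ℤ × ℤ, X ≤ f.1 → f.1 < X + η → Y ≤ f.2 → f.2 < Y + η → f ∈ F ∧ ω f = pb col f) :
    ∀ n : ℕ, ∀ v : ℤ × ℤ, v.2 = Y + n → X ≤ v.1 → v.1 ≤ X + η → v.2 ≤ Y + η → par v = col →
      ∃ a, X ≤ a ∧ a ≤ X + η ∧ par (a, Y) = col ∧ Conn ω F v (a, Y) := by
  intro n
  induction n with
  | zero =>
    rintro ⟨a, b⟩ hb h1 h2 h3 hp
    simp only [Nat.cast_zero, add_zero] at hb h1 h2
    subst hb
    exact ⟨a, h1, h2, hp, Relation.ReflTransGen.refl⟩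
  | succ n ih =>
    rintro ⟨a, b⟩ hb h1 h2 h3 hp
    simp only at hb h1 h2 h3
    push_cast at hb
    unfold par at hp ih ⊢
    simp only at hp
    by_cases ha : X < a
    · obtain ⟨a', e1, e2, e3, e4⟩ := ih (a - 1, b - 1) (by simp only; omega) (by simp only; omega)
        (by simp only; omega) (by simp only; omega) (by simp only; omega)
      refine ⟨a', e1, e2, e3, Relation.ReflTransGen.head ?_ e4⟩
      obtain ⟨f1, f2⟩ := hF (a - 1, b - 1) (by simp only; omega) (by simp only; omega)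
        (by simp only; omega) (by simp only; omega)
      refine ⟨a - 1, b - 1, f1, Or.inl ⟨?_, Or.inr ⟨by rw [sub_add_cancel, sub_add_cancel], rfl⟩⟩⟩
      rw [f2]
      unfold pb
      exact decide_eq_true (by simp only; omega)
    · obtain ⟨a', e1, e2, e3, e4⟩ := ih (a + 1, b - 1) (by simp only; omega) (by simp only; omega)
        (by simp only; omega) (by simp only; omega) (by simp only; omega)
      refine ⟨a', e1, e2, e3, Relation.ReflTransGen.head ?_ e4⟩
      obtain ⟨f1, f2⟩ := hF (a, b - 1) (by simp only; omega) (by simp only; omega)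
        (by simp only; omega) (by simp only; omega)
      refine ⟨a, b - 1, f1, Or.inr ⟨?_, Or.inl ⟨by rw [sub_add_cancel], rfl⟩⟩⟩
      rw [f2]
      unfold pb
      exact decide_eq_false (by simp only; omega)

/-- Along the lower side. -/
theorem along_bottom {col : ℤ} {ω : Cfg} {F : Set (ℤ × ℤ)} {X Y η : ℤ}
    (hF : ∀ f : ℤ × ℤ, X ≤ f.1 → f.1 < X + η → Y ≤ f.2 → f.2 < Y + η → f ∈ F ∧ ω f = pb col f) :
    ∀ n : ℕ, ∀ a : ℤ, X ≤ a → a + 2 * n ≤ X + η → par (a, Y) = col →
      Conn ω F (a, Y) (a + 2 * n, Y) := by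
  intro n
  induction n with
  | zero =>
    intro a _ _ _
    simp only [Nat.cast_zero, mul_zero, add_zero]
    exact Relation.ReflTransGen.refl
  | succ n ih =>
    intro a h1 h2 hp
    push_cast at h2
    have h3 := ih a h1 (by omega) hp
    unfold par at hp
    simp only at hp
    have h4 : Conn ω F (a, Y) (a + 2 * n + 1, Y + 1) := by
      refine h3.tail ?_
      obtain ⟨f1, f2⟩ := hF (a + 2 * n, Y) (by simp only; omega) (by simp only; omega)
        (by simp only; omega) (by simp only; omega)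
      refine ⟨a + 2 * n, Y, f1, Or.inl ⟨?_, Or.inl ⟨rfl, rfl⟩⟩⟩
      rw [f2]
      unfold pb
      exact decide_eq_true (by simp only; omega)
    refine h4.tail ?_
    obtain ⟨f1, f2⟩ := hF (a + 2 * n + 1, Y) (by simp only; omega) (by simp only; omega)
      (by simp only; omega) (by simp only; omega)
    refine ⟨a + 2 * n + 1, Y, f1, Or.inr ⟨?_, Or.inl ⟨rfl, ?_⟩⟩⟩
    · rw [f2]
      unfold pb
      exact decide_eq_false (by simp only; omega)
    · push_cast
      rw [show a + 2 * (n + 1 : ℤ) = a + 2 * n + 1 + 1 by ring]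

/-- The vertices of one parity of a square with all bonds of this parity are connected. -/
theorem sq_conn {col : ℤ} {ω : Cfg} {F : Set (ℤ × ℤ)} {X Y η : ℤ} (hη : 1 ≤ η)
    (hF : ∀ f : ℤ × ℤ, X ≤ f.1 → f.1 < X + η → Y ≤ f.2 → f.2 < Y + η → f ∈ F ∧ ω f = pb col f)
    {v v' : ℤ × ℤ} (hv : X ≤ v.1 ∧ v.1 ≤ X + η ∧ Y ≤ v.2 ∧ v.2 ≤ Y + η) (hp : par v = col)
    (hv' : X ≤ v'.1 ∧ v'.1 ≤ X + η ∧ Y ≤ v'.2 ∧ v'.2 ≤ Y + η) (hp' : par v' = col) :
    Conn ω F v v' := by
  obtain ⟨a, a1, a2, a3, a4⟩ := to_bottom hη hF (v.2 - Y).toNat v (by omega) hv.1 hv.2.1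
    hv.2.2.2 hp
  obtain ⟨b, b1, b2, b3, b4⟩ := to_bottom hη hF (v'.2 - Y).toNat v' (by omega) hv'.1 hv'.2.1
    hv'.2.2.2 hp'
  have hab : (a - b) % 2 = 0 := by
    unfold par at a3 b3
    simp only at a3 b3
    omega
  have key : Conn ω F (a, Y) (b, Y) := by
    rcases le_total a b with h | h
    · have := along_bottom hF ((b - a) / 2).toNat a a1 (by omega) a3
      rwa [show a + 2 * (((b - a) / 2).toNat : ℤ) = b by omega] at this
    · have := along_bottom hF ((a - b) / 2).toNat b b1 (by omega) b3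
      rw [show b + 2 * (((a - b) / 2).toNat : ℤ) = a by omega] at this
      exact this.symm
  exact (a4.trans key).trans b4.symm

/-- The neighbour relation of squares of `T`. -/
def NbT (T : Set (ℤ × ℤ)) (t t' : ℤ × ℤ) : Prop :=
  ((t.1 = t'.1 ∧ |t.2 - t'.2| = 1) ∨ (t.2 = t'.2 ∧ |t.1 - t'.1| = 1)) ∧ t ∈ T ∧ t' ∈ T

/-- Neighbouring squares have a common vertex of every parity. -/
theorem common_vertex {col x y η : ℤ} (hη : 1 ≤ η) (hcol : col = 0 ∨ col = 1) {t t' : ℤ × ℤ}
    (h : (t.1 = t'.1 ∧ |t.2 - t'.2| = 1) ∨ (t.2 = t'.2 ∧ |t.1 - t'.1| = 1)) :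
    ∃ v, InSq x y η t v ∧ InSq x y η t' v ∧ par v = col := by
  have key : ∀ X Y X' Y' : ℤ, (par (X, Y) = col ∨ par (X', Y') = col) →
      (InSq x y η t (X, Y) ∧ InSq x y η t' (X, Y)) → (InSq x y η t (X', Y') ∧ InSq x y η t' (X', Y')) →
      ∃ v, InSq x y η t v ∧ InSq x y η t' v ∧ par v = col := by
    intro X Y X' Y' h1 h2 h3
    rcases h1 with h1 | h1
    · exact ⟨(X, Y), h2.1, h2.2, h1⟩
    · exact ⟨(X', Y'), h3.1, h3.2, h1⟩
  obtain ⟨a, b⟩ := t
  obtain ⟨a', b'⟩ := t'
  simp only at h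
  have hpar : ∀ X Y X' Y' : ℤ, (X' + Y' = X + Y + 1) → (par (X, Y) = col ∨ par (X', Y') = col) := by
    intro X Y X' Y' h1
    unfold par
    simp only
    omega
  have e1 : η * (a + 1) = η * a + η := by ring
  have e2 : η * (b + 1) = η * b + η := by ring
  rcases h with ⟨rfl, h⟩ | ⟨rfl, h⟩
  · rcases (abs_eq (by norm_num : (0 : ℤ) ≤ 1)).1 h with h | h
    · -- `b = b' + 1`
      obtain rfl : b = b' + 1 := by omega
      have e3 : η * (b' + 1) = η * b' + η := by ring
      have e4 : η * (b' + 1 + 1) = η * b' + η + η := by ring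
      refine key (x + η * a) (y + η * (b' + 1)) (x + η * a + 1) (y + η * (b' + 1))
        (hpar _ _ _ _ (by ring)) ?_ ?_ <;> unfold InSq <;> simp only <;> omega
    · obtain rfl : b' = b + 1 := by omega
      have e3 : η * (b + 1 + 1) = η * b + η + η := by ring
      refine key (x + η * a) (y + η * (b + 1)) (x + η * a + 1) (y + η * (b + 1))
        (hpar _ _ _ _ (by ring)) ?_ ?_ <;> unfold InSq <;> simp only <;> omega
  · rcases (abs_eq (by norm_num : (0 : ℤ) ≤ 1)).1 h with h | h
    · obtain rfl : a = a' + 1 := by omega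
      have e3 : η * (a' + 1) = η * a' + η := by ring
      have e4 : η * (a' + 1 + 1) = η * a' + η + η := by ring
      refine key (x + η * (a' + 1)) (y + η * b) (x + η * (a' + 1)) (y + η * b + 1)
        (hpar _ _ _ _ (by ring)) ?_ ?_ <;> unfold InSq <;> simp only <;> omega
    · obtain rfl : a' = a + 1 := by omega
      have e3 : η * (a + 1 + 1) = η * a + η + η := by ring
      refine key (x + η * (a + 1)) (y + η * b) (x + η * (a + 1)) (y + η * b + 1)
        (hpar _ _ _ _ (by ring)) ?_ ?_ <;> unfold InSq <;> simp only <;> omega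

/-- The barrier: the squares of a chain to the lower side which are enclosed by a path of the other
parity from the lower side to the lower side are free. -/
theorem seen_of_squares {ω : Cfg} {col x y s η : ℤ} (hη : 1 ≤ η) (hcol : col = 0 ∨ col = 1)
    {T : Set (ℤ × ℤ)} (hT : ∀ t ∈ T, 0 ≤ t.1 ∧ η * (t.1 + 1) ≤ s ∧ 0 ≤ t.2 ∧ η * (t.2 + 1) ≤ s)
    {t t₀ : ℤ × ℤ} (ht : t ∈ T) (hch : Relation.ReflTransGen (NbT T) t t₀) (h0 : t₀.2 = 0)
    {a₁ a₂ : ℤ} (ha : x ≤ a₁) (ha1 : a₁ < x + η * t₀.1) (ha2 : x + η * (t₀.1 + 1) < a₂)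
    (hpar : par (a₁, y) ≠ col)
    (hD : Conn ω ((RF x (x + s) y (y + s) : Set (ℤ × ℤ)) \ SqF x y η T) (a₁, y) (a₂, y)) :
    FreeSq ω col x y s η t ∧ Relation.ReflTransGen (SqStep ω col x y s η) t t₀ := by
  classical
  set K := SqF x y η T with hK
  set ω' : Cfg := fun f => if f ∈ K then pb col f else ω f with hω'
  have hK1 : ∀ f ∈ K, ω' f = pb col f := fun f hf => by rw [hω']; simp only [if_pos hf]
  have hK2 : ∀ f, f ∉ K → ω' f = ω f := fun f hf => by rw [hω']; simp only [if_neg hf]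
  set F : Finset (ℤ × ℤ) := RF x (x + s) y (y + s) with hF
  -- faces of the squares
  have hsq : ∀ t ∈ T, ∀ f : ℤ × ℤ, x + η * t.1 ≤ f.1 → f.1 < x + η * t.1 + η →
      y + η * t.2 ≤ f.2 → f.2 < y + η * t.2 + η → f ∈ (F : Set (ℤ × ℤ)) ∧ ω' f = pb col f := by
    intro t ht f h1 h2 h3 h4
    obtain ⟨c1, c2, c3, c4⟩ := hT t ht
    have e1 : η * (t.1 + 1) = η * t.1 + η := by ring
    have e2 : η * (t.2 + 1) = η * t.2 + η := by ring
    have m1 : 0 ≤ η * t.1 := mul_nonneg (by omega) c1
    have m2 : 0 ≤ η * t.2 := mul_nonneg (by omega) c3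
    refine ⟨?_, hK1 f ⟨t, ht, h1, by omega, h3, by omega⟩⟩
    rw [Finset.mem_coe, hF, PlanarA.mem_RF]
    omega
  have hconn : ∀ t ∈ T, ∀ v v', InSq x y η t v → InSq x y η t v' → par v = col → par v' = col →
      Conn ω' F v v' := by
    intro t ht v v' hv hv' hp hp'
    unfold InSq at hv hv'
    have e1 : η * (t.1 + 1) = η * t.1 + η := by ring
    have e2 : η * (t.2 + 1) = η * t.2 + η := by ring
    exact sq_conn hη (hsq t ht) (by omega) hp (by omega) hp'
  -- all vertices of the colour in the squares of a chain are connected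
  have hall : ∀ t, Relation.ReflTransGen (NbT T) t t₀ → t ∈ T → ∀ v v', InSq x y η t v →
      InSq x y η t₀ v' → par v = col → par v' = col → Conn ω' F v v' := by
    intro t hch
    induction hch using Relation.ReflTransGen.head_induction_on with
    | refl => exact fun ht v v' hv hv' hp hp' => hconn _ ht v v' hv hv' hp hp'
    | head hab _ ih =>
      intro ht v v' hv hv' hp hp'
      obtain ⟨hnb, hT1, hT2⟩ := hab
      obtain ⟨q, hq1, hq2, hq3⟩ := common_vertex (x := x) (y := y) hη hcol hnb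
      exact (hconn _ hT1 v q hv hq1 hp hq3).trans (ih hT2 q v' hq2 hv' hq3 hp')
  have ht₀ : t₀ ∈ T := by
    rcases Relation.ReflTransGen.cases_tail hch with h | ⟨c, -, hc⟩
    · rw [h]; exact ht
    · exact hc.2.2
  -- a vertex of the colour on the lower side
  obtain ⟨b, hb1, hb2, hb3⟩ : ∃ b, x + η * t₀.1 ≤ b ∧ b ≤ x + η * (t₀.1 + 1) ∧
      par (b, y) = col := by
    have e1 : η * (t₀.1 + 1) = η * t₀.1 + η := by ring
    by_cases h : par (x + η * t₀.1, y) = col
    · exact ⟨_, le_rfl, by omega, h⟩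
    · refine ⟨x + η * t₀.1 + 1, by omega, by omega, ?_⟩
      unfold par at h ⊢
      simp only at h ⊢
      omega
  have hbsq : InSq x y η t₀ (b, y) := by
    unfold InSq
    rw [h0]
    simp only [mul_zero, add_zero, zero_add, mul_one]
    omega
  have hD' : Conn ω' F (a₁, y) (a₂, y) :=
    (GridA.conn_congr _ (fun f hf => (hK2 f hf.2).symm) hD).mono Set.sdiff_subset
  have hfree : ∀ t, Relation.ReflTransGen (NbT T) t t₀ → t ∈ T → FreeSq ω col x y s η t := by
    intro t hch ht
    refine ⟨hT t ht, ?_⟩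
    rintro p h1 h2 h3 h4 hp ⟨z, hz, hz2⟩
    have hc1 := hall t hch ht p (b, y) ⟨h1, h2, h3, h4⟩ hbsq hp hb3
    have hc2 : Conn ω' F p z := conn_add hK1 hK2 hp hz
    refine no_alt (ω := ω') (x₀ := x) (x₁ := x + s) (y₀ := y) (y₁ := y + s) (u := (a₁, y))
      (w := (a₂, y)) (p := (b, y)) (z := z) ha rfl rfl (by simp only; omega) (by simp only; omega)
      rfl ?_ hD' (hc1.symm.trans hc2) hz2
    unfold par at hpar hb3
    simp only at hpar hb3 ⊢
    omega
  refine ⟨hfree t hch ht, ?_⟩
  have key : ∀ t, Relation.ReflTransGen (NbT T) t t₀ →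
      Relation.ReflTransGen (SqStep ω col x y s η) t t₀ := by
    intro t hch
    induction hch using Relation.ReflTransGen.head_induction_on with
    | refl => exact Relation.ReflTransGen.refl
    | head hab hbc ih =>
      refine Relation.ReflTransGen.head ⟨hab.1, ?_, ?_⟩ ih
      · exact hfree _ (Relation.ReflTransGen.head hab hbc) hab.2.1
      · exact hfree _ hbc hab.2.2
  exact key t hch

end Pool.Agent.Occ
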