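import Pool.Agent.Lib.MP_6bd702_occ.ZA
import Pool.Agent.Lib.MP_6bd702_occ.ZB

/-!
# Row ZC: the potentials in the window
-/

set_option autoImplicit false

namespace Pool.Agent.Occ

open Finset Pool.Agent.Perc Pool.Agent.Perc3 Pool.Agent.PercD

variable {g : Par} {ω η : Cfg} {ya yb : ℤ} {a₁ a₂ : ℤ × ℤ} {x₁ x₂ : UE} {k₁ k₂ kk : ℤ}
  {l₁ l₂ lk : List (ℤ × ℤ)} {S : Set (ℤ × ℤ)} {X₀ X₁ Y₀ Y₁ : ℤ} {Φ₁ Φ₂ : ℤ × ℤ → ZMod 2}

namespace ZCAux

/-! ### Potentials along lines -/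

theorem side_h {f : ℤ × ℤ} {x y : ℤ} : IsSide f (x, y, false) ↔ f.1 = x ∧ (f.2 = y ∨ f.2 = y - 1) := by
  obtain ⟨u, v⟩ := f
  unfold IsSide bo le' to' ri
  simp only [Prod.mk.injEq, and_false, and_true, or_false, false_or, reduceCtorEq]
  omega

theorem side_v {f : ℤ × ℤ} {x y : ℤ} : IsSide f (x, y, true) ↔ f.2 = y ∧ (f.1 = x ∨ f.1 = x - 1) := by
  obtain ⟨u, v⟩ := f
  unfold IsSide bo le' to' ri
  simp only [Prod.mk.injEq, and_false, and_true, false_or, reduceCtorEq]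
  omega

variable {c : Co} {Φ : ℤ × ℤ → ZMod 2}

theorem pot_h (h : PotC (RF X₀ X₁ Y₀ Y₁) c Φ) (hY : Y₀ < Y₁) {x y : ℤ} (h1 : X₀ ≤ x) (h2 : x < X₁)
    (h3 : Y₀ ≤ y) (h4 : y ≤ Y₁) : Φ (x + 1, y) = Φ (x, y) + c (x, y, false) := by
  rcases h4.lt_or_eq with h5 | h5
  · have := h (x, y) (mem_RF'.2 ⟨h1, h2, h3, h5⟩) (x, y, false) (side_h.2 ⟨rfl, Or.inl rfl⟩)
    rwa [ub_false, ua_mk] at this
  · have := h (x, y - 1) (mem_RF'.2 ⟨h1, h2, by dsimp only; omega, by dsimp only; omega⟩)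
      (x, y, false) (side_h.2 ⟨rfl, Or.inr rfl⟩)
    rwa [ub_false, ua_mk] at this

theorem pot_v (h : PotC (RF X₀ X₁ Y₀ Y₁) c Φ) (hX : X₀ < X₁) {x y : ℤ} (h1 : X₀ ≤ x) (h2 : x ≤ X₁)
    (h3 : Y₀ ≤ y) (h4 : y < Y₁) : Φ (x, y + 1) = Φ (x, y) + c (x, y, true) := by
  rcases h2.lt_or_eq with h5 | h5
  · have := h (x, y) (mem_RF'.2 ⟨h1, h5, h3, h4⟩) (x, y, true) (side_v.2 ⟨rfl, Or.inl rfl⟩)
    rwa [ub_true, ua_mk] at this
  · have := h (x - 1, y) (mem_RF'.2 ⟨by dsimp only; omega, by dsimp only; omega, h3, h4⟩)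
      (x, y, true) (side_v.2 ⟨rfl, Or.inr rfl⟩)
    rwa [ub_true, ua_mk] at this

/-- The potential is constant along a horizontal line which is not crossed. -/
theorem line_h (h : PotC (RF X₀ X₁ Y₀ Y₁) c Φ) (hY : Y₀ < Y₁) {x x' y : ℤ} (h1 : X₀ ≤ x)
    (hx : x ≤ x') (h2 : x' ≤ X₁) (h3 : Y₀ ≤ y) (h4 : y ≤ Y₁)
    (hc : ∀ t, x ≤ t → t < x' → c (t, y, false) = 0) : Φ (x', y) = Φ (x, y) := by
  induction x', hx using Int.leInduction with
  | base => rfl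
  | succ t ht ih =>
    rw [pot_h h hY (by omega) (by omega) h3 h4, hc t ht (by omega), add_zero]
    exact ih (by omega) fun s hs hs' => hc s hs (by omega)

theorem line_v (h : PotC (RF X₀ X₁ Y₀ Y₁) c Φ) (hX : X₀ < X₁) {x y y' : ℤ} (h1 : X₀ ≤ x)
    (h2 : x ≤ X₁) (h3 : Y₀ ≤ y) (hy : y ≤ y') (h4 : y' ≤ Y₁)
    (hc : ∀ t, y ≤ t → t < y' → c (x, t, true) = 0) : Φ (x, y') = Φ (x, y) := by
  induction y', hy using Int.leInduction with
  | base => rfl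
  | succ t ht ih =>
    rw [pot_v h hX h1 h2 (by omega) (by omega), hc t ht (by omega), add_zero]
    exact ih (by omega) fun s hs hs' => hc s hs (by omega)

theorem z2_add {a b : ZMod 2} (h : 0 = a + b) : a = b := by revert a b; decide

/-- The values of a potential with the crossings `t₁` on the right side and `t₂` on the left side. -/
theorem values {w A t : ℤ} {t₁ t₂ : ZMod 2} (h : PotC (RF X₀ X₁ Y₀ Y₁) c Φ) (hA : 100 ≤ A)
    (hw : 100 * A ≤ w) (w1 : X₀ ≤ -(w + 4 * A)) (w2 : w + 4 * A ≤ X₁) (w3 : Y₀ ≤ -(w + 4 * A))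
    (w4 : w + 4 * A ≤ Y₁) (ya1 : 0 ≤ ya) (ya2 : ya < w) (yb1 : 0 ≤ yb) (yb2 : yb < w)
    (ht : t = 0) (h0 : Φ (X₀, Y₁) = 0)
    (h1 : ∀ x, X₀ ≤ x → x < X₁ → c (x, Y₁, false) = 0)
    (h2 : ∀ y, ya < y → y < Y₁ → c (w + 2 * A, y, true) = 0)
    (h3 : ∀ x, w ≤ x → x < w + 2 * A → c (x, ya + 1, false) = 0)
    (h4 : c (w, ya, true) = t₁)
    (h2' : ∀ y, yb < y → y < Y₁ → c (-(w + 2 * A), y, true) = 0)
    (h3' : ∀ x, -(w + 2 * A) ≤ x → x < -(w + 2) → c (x, yb + 1, false) = 0)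
    (h4' : c (-(w + 2), yb, true) = t₂)
    (h5 : ∀ y, Y₀ ≤ y → y < Y₁ → c (X₁, y, true) = if y = ya then t₁ else 0)
    (h5' : ∀ y, Y₀ ≤ y → y < Y₁ → c (X₀, y, true) = if y = yb then t₂ else 0)
    (h6 : ∀ x, X₀ ≤ x → x < X₁ → x ≠ t → c (x, Y₀, false) = 0)
    (h7 : ∀ x, 1 ≤ x → x < X₁ → c (x, -(w + A), false) = 0) :
    (∀ x, X₀ ≤ x → x ≤ X₁ → Φ (x, Y₁) = 0) ∧
    (∀ y, ya < y → y ≤ Y₁ → Φ (w + 2 * A, y) = 0) ∧
    (∀ y, yb < y → y ≤ Y₁ → Φ (-(w + 2 * A), y) = 0) ∧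
    Φ (w, ya) = t₁ ∧ Φ (-(w + 2), yb) = t₂ ∧
    (∀ x, 1 ≤ x → x ≤ X₁ → Φ (x, Y₀) = t₁) ∧
    (∀ x, X₀ ≤ x → x ≤ 0 → Φ (x, Y₀) = t₂) ∧
    (∀ x, 1 ≤ x → x ≤ X₁ → Φ (x, -(w + A)) = t₁) := by
  have hX : X₀ < X₁ := by omega
  have hY : Y₀ < Y₁ := by omega
  have top : ∀ x, X₀ ≤ x → x ≤ X₁ → Φ (x, Y₁) = 0 := fun x hx hx' => by
    rw [line_h h hY (x := X₀) le_rfl hx hx' hY.le le_rfl fun t ht ht' => h1 t ht (by omega), h0]
  have right : ∀ y, ya < y → y ≤ Y₁ → Φ (w + 2 * A, y) = 0 := fun y hy hy' => by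
    rw [← line_v h hX (x := w + 2 * A) (y := y) (y' := Y₁) (by omega) (by omega) (by omega) hy'
      le_rfl fun t ht ht' => h2 t (by omega) ht', top _ (by omega) (by omega)]
  have left : ∀ y, yb < y → y ≤ Y₁ → Φ (-(w + 2 * A), y) = 0 := fun y hy hy' => by
    rw [← line_v h hX (x := -(w + 2 * A)) (y := y) (y' := Y₁) (by omega) (by omega) (by omega) hy'
      le_rfl fun t ht ht' => h2' t (by omega) ht', top _ (by omega) (by omega)]
  have v1 : Φ (w, ya) = t₁ := by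
    have e1 := line_h h hY (x := w) (x' := w + 2 * A) (y := ya + 1) (by omega) (by omega)
      (by omega) (by omega) (by omega) h3
    rw [right _ (by omega) (by omega)] at e1
    have e2 := pot_v h hX (x := w) (y := ya) (by omega) (by omega) (by omega) (by omega)
    rw [← e1, h4] at e2
    exact z2_add e2
  have v2 : Φ (-(w + 2), yb) = t₂ := by
    have e1 := line_h h hY (x := -(w + 2 * A)) (x' := -(w + 2)) (y := yb + 1) (by omega) (by omega)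
      (by omega) (by omega) (by omega) h3'
    rw [left _ (by omega) (by omega)] at e1
    have e2 := pot_v h hX (x := -(w + 2)) (y := yb) (by omega) (by omega) (by omega) (by omega)
    rw [e1, h4'] at e2
    exact z2_add e2
  have rx : ∀ y, Y₀ ≤ y → y ≤ ya → Φ (X₁, y) = t₁ := by
    intro y hy hy'
    have e1 := line_v h hX (x := X₁) (y := ya + 1) (y' := Y₁) (by omega) le_rfl (by omega)
      (by omega) le_rfl fun t ht ht' => by rw [h5 t (by omega) ht', if_neg (by omega)]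
    rw [top _ hX.le le_rfl] at e1
    have e2 := pot_v h hX (x := X₁) (y := ya) hX.le le_rfl (by omega) (by omega)
    rw [← e1, h5 ya (by omega) (by omega), if_pos rfl] at e2
    rw [← line_v h hX (x := X₁) (y := y) (y' := ya) hX.le le_rfl hy hy' (by omega)
      fun t ht ht' => by rw [h5 t (by omega) (by omega), if_neg (by omega)]]
    exact z2_add e2
  have lx : ∀ y, Y₀ ≤ y → y ≤ yb → Φ (X₀, y) = t₂ := by
    intro y hy hy'
    have e1 := line_v h hX (x := X₀) (y := yb + 1) (y' := Y₁) le_rfl hX.le (by omega)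
      (by omega) le_rfl fun t ht ht' => by rw [h5' t (by omega) ht', if_neg (by omega)]
    rw [h0] at e1
    have e2 := pot_v h hX (x := X₀) (y := yb) le_rfl hX.le (by omega) (by omega)
    rw [← e1, h5' yb (by omega) (by omega), if_pos rfl] at e2
    rw [← line_v h hX (x := X₀) (y := y) (y' := yb) le_rfl hX.le hy hy' (by omega)
      fun t ht ht' => by rw [h5' t (by omega) (by omega), if_neg (by omega)]]
    exact z2_add e2
  refine ⟨top, right, left, v1, v2, fun x hx hx' => ?_, fun x hx hx' => ?_, fun x hx hx' => ?_⟩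
  · rw [← line_h h hY (x := x) (x' := X₁) (y := Y₀) (by omega) hx' le_rfl le_rfl hY.le
      fun t ht ht' => h6 t (by omega) ht' (by omega)]
    exact rx _ le_rfl (by omega)
  · rw [line_h h hY (x := X₀) (x' := x) (y := Y₀) le_rfl hx (by omega) le_rfl hY.le
      fun t ht ht' => h6 t (by omega) (by omega) (by omega)]
    exact lx _ le_rfl (by omega)
  · rw [← line_h h hY (x := x) (x' := X₁) (y := -(w + A)) (by omega) hx' le_rfl (by omega)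
      (by omega) fun t ht ht' => h7 t (by omega) ht']
    exact rx _ (by omega) (by omega)

/-! ### The strands -/

theorem mm_side {F : Set (ℤ × ℤ)} {e a : UE} (h : a ∈ MM ω F e) :
    a = e ∨ ∃ f ∈ SS ω F e, IsSide f a := by
  rcases Relation.ReflTransGen.cases_tail h with h1 | ⟨b, h1, f, hf, hm⟩
  · exact Or.inl h1
  · exact Or.inr ⟨f, ⟨hf, b, h1, hm.left⟩, hm.right⟩

/-- Linear facts on the parameters. -/
theorem lin (hg : g.Ok) : 12 ≤ g.n ∧ 8 * g.n ≤ g.σ ∧ 100 * g.σ ≤ g.Ai ∧ g.d + 4 * g.Ai ≤ g.A ∧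
    g.R = g.d - g.Ai ∧ 100 * g.Ai ≤ g.d ∧ 100 * g.A ≤ g.w ∧ (g.N + 1) * g.A = g.w + g.A ∧
    (g.N + 2) * g.A = g.w + 2 * g.A ∧ (g.N + 4) * g.A = g.w + 4 * g.A := by
  obtain ⟨h1, h2, h3, h4, h5, h6⟩ := hg
  have hAi : 0 ≤ g.Ai := by linarith
  have hd : 100 * g.Ai ≤ g.d := by unfold Par.d; nlinarith
  have hA : g.d + 4 * g.Ai ≤ g.A := by
    have : (g.Ni + 4) * g.Ai = g.d + 4 * g.Ai := by unfold Par.d; ring
    linarith
  refine ⟨h3, h4, h5, hA, ?_, hd, ?_, ?_, ?_, ?_⟩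
  · unfold Par.R Par.d; ring
  · unfold Par.w
    have : 0 ≤ g.A := by linarith
    nlinarith
  all_goals unfold Par.w; ring

theorem port (h : (ya, yb) ∈ Ports g.w) : 0 ≤ ya ∧ ya < g.w ∧ g.w ≤ 4 * ya ∧ 2 * ya < g.w ∧
    0 ≤ yb ∧ yb < g.w ∧ g.w ≤ 4 * yb ∧ 2 * yb < g.w ∧ (ya + yb) % 2 = 0 := by
  unfold Ports at h
  rw [mem_filter, mem_product, mem_Ico, mem_Ico] at h
  obtain ⟨⟨⟨a1, a2⟩, a3, a4⟩, a5, a6, a7, a8, a9⟩ := h
  exact ⟨a1, a2, a5, a6, a3, a4, a7, a8, a9⟩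

theorem mem_box {l : List (ℤ × ℤ)} {a : ℤ × ℤ} {k : ℤ} (h : InL g S a k l) (hg : g.Ok)
    {f : ℤ × ℤ} (hf : f ∈ l) : -(g.d + 2 * g.n + 4) ≤ f.1 ∧ f.1 < g.d + 2 * g.n + 4 ∧
      -(g.d + 2 * g.n + 4) ≤ f.2 ∧ f.2 < g.d + 2 * g.n + 4 := by
  obtain ⟨f1, f2, f3, f4, f5, f6, f7, -⟩ := lin hg
  rcases h.loc f hf with h1 | ⟨-, h1⟩
  · have h1' := mem_BR.1 h1
    dsimp only at h1'
    omega
  · have h1' := mem_BR.1 h1
    dsimp only at h1'
    omega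

theorem head_mem {l : List (ℤ × ℤ)} {a : ℤ × ℤ} (h : l.head? = some a) : a ∈ l :=
  List.mem_of_mem_head? h

/-- The face ahead of the inner tip is in the row `k`. -/
theorem outR {l : List (ℤ × ℤ)} {a : ℤ × ℤ} {k : ℤ} {x e : UE} {F : Set (ℤ × ℤ)} (h : InL g S a k l)
    (hg : g.Ok) (hx : x ∈ MM ω F e) (hs : IsSide a x) (he : ¬ IsSide a e) (hS : SS ω F e ⊆ S)
    (hh : ∀ f ∈ S, f ∉ BR (0, 0) (g.d - g.n - 2)) : OutR g.R k a := by
  obtain ⟨f1, f2, f3, f4, f5, f6, f7, -⟩ := lin hg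
  rcases h.loc a (head_mem h.head) with h1 | ⟨h1, -⟩
  · exfalso
    rcases mm_side hx with rfl | ⟨f, hf, hfx⟩
    · exact he hs
    · have h2 := hh f (hS hf)
      rw [mem_BR] at h1 h2
      dsimp only at h1 h2
      obtain ⟨x, y, b⟩ := x
      cases b with
      | true =>
        rw [side_v] at hs hfx
        omega
      | false =>
        rw [side_h] at hs hfx
        omega
  · exact h1

/-- The boundary of a strand. -/
theorem bd_M {F : Set (ℤ × ℤ)} {t x : UE} {a a' p p' f : ℤ × ℤ}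
    (hin : ∀ f, f ≠ a → f ≠ a' → f ≠ p → f ≠ p' → f ∈ F) (hx : x ∈ MM ω F t) (hxs : IsSide a x)
    (ht : IsSide p t)
    (hone : ∀ e f, (f = a ∨ f = a' ∨ f = p ∨ f = p') → IsSide f e → e ∈ MM ω F t →
      (f = a ∧ e = x) ∨ (f = p ∧ e = t))
    (n1 : a ≠ p) (n2 : a' ≠ a) (n3 : a' ≠ p) (n4 : p' ≠ a) (n5 : p' ≠ p) :
    bdC (cM (MM ω F t)) f = ind2 (a = f) + ind2 (p = f) := by
  by_cases h1 : f = a
  · subst h1
    rw [ind2_pos rfl, ind2_neg n1.symm, add_zero]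
    refine bdC_cM_one hxs hx fun e he he' => ?_
    rcases hone e f (Or.inl rfl) he he' with h | h
    · exact h.2
    · exact absurd h.1 n1
  · by_cases h2 : f = p
    · subst h2
      rw [ind2_pos rfl, ind2_neg n1, zero_add]
      refine bdC_cM_one ht mem_MM_self fun e he he' => ?_
      rcases hone e f (Or.inr (Or.inr (Or.inl rfl))) he he' with h | h
      · exact absurd h.1 h1
      · exact h.2
    · rw [ind2_neg (Ne.symm h1), ind2_neg (Ne.symm h2), add_zero]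
      by_cases h3 : f = a'
      · subst h3
        refine bdC_cM_zero fun e he he' => ?_
        rcases hone e f (Or.inr (Or.inl rfl)) he he' with h | h
        · exact h1 h.1
        · exact h2 h.1
      · by_cases h4 : f = p'
        · subst h4
          refine bdC_cM_zero fun e he he' => ?_
          rcases hone e f (Or.inr (Or.inr (Or.inr rfl))) he he' with h | h
          · exact h1 h.1
          · exact h2 h.1
        · exact bdC_cM (hin f h1 h3 h2 h4)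

theorem closed {M : Set UE} {l row lk : List (ℤ × ℤ)} {a p o c o' f : ℤ × ℤ} (h1 : IsCh l)
    (h2 : IsCh row) (h3 : IsCh lk) (h4 : l.head? = some a) (h5 : l.getLast? = some c)
    (h6 : row.head? = some p) (h7 : row.getLast? = some o) (h8 : lk.head? = some c)
    (h9 : lk.getLast? = some o') (ho : o ≠ f) (ho' : o' ≠ f)
    (hM : bdC (cM M) f = ind2 (a = f) + ind2 (p = f)) :
    bdC (fun e => cM M e + xp l e + xp row e + xp lk e) f = 0 := by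
  rw [bdC_add (c := fun e => cM M e + xp l e + xp row e) (c' := xp lk),
    bdC_add (c := fun e => cM M e + xp l e) (c' := xp row),
    bdC_add (c := cM M) (c' := xp l), hM, bdC_xp h1, bdC_xp h2, bdC_xp h3, h4, h5, h6, h7, h8, h9]
  have e : ∀ u v : ℤ × ℤ, ind2 (some u = some v) = ind2 (u = v) := fun u v =>
    ind2_congr (by rw [Option.some.injEq])
  simp only [e]
  rw [ind2_neg ho, ind2_neg ho']
  generalize ind2 (a = f) = x
  generalize ind2 (p = f) = y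
  generalize ind2 (c = f) = z
  revert x y z
  decide

/-- The unit edge `e` is not near the strands, the inner rows and the corridor. -/
structure Clean (S : Set (ℤ × ℤ)) (l₁ l₂ lk : List (ℤ × ℤ)) (e : UE) : Prop where
  S : ∀ f ∈ S, ¬ IsSide f e
  l₁ : ∃ f, IsSide f e ∧ f ∉ l₁
  l₂ : ∃ f, IsSide f e ∧ f ∉ l₂
  lk : ∃ f, IsSide f e ∧ f ∉ lk

theorem c_eq {M : Set UE} {l lk : List (ℤ × ℤ)} {e : UE} {r : ZMod 2} (h1 : IsCh l)
    (h3 : IsCh lk) (hM : e ∉ M) (hl : ∃ f, IsSide f e ∧ f ∉ l) (hlk : ∃ f, IsSide f e ∧ f ∉ lk) :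
    cM M e + xp l e + r + xp lk e = r := by
  obtain ⟨f, hf, hf'⟩ := hl
  obtain ⟨f', hf2, hf3⟩ := hlk
  rw [xp_side h1 hf hf', xp_side h3 hf2 hf3, show cM M e = 0 from ind2_neg hM, add_zero, add_zero,
    zero_add]

theorem c_eq' {M : Set UE} {l lk : List (ℤ × ℤ)} {e : UE} {r : ZMod 2} (h1 : IsCh l)
    (h3 : IsCh lk) (hM : e ∈ M) (hl : ∃ f, IsSide f e ∧ f ∉ l) (hlk : ∃ f, IsSide f e ∧ f ∉ lk) :
    cM M e + xp l e + r + xp lk e = 1 + r := by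
  obtain ⟨f, hf, hf'⟩ := hl
  obtain ⟨f', hf2, hf3⟩ := hlk
  rw [xp_side h1 hf hf', xp_side h3 hf2 hf3, show cM M e = 1 from ind2_pos hM, add_zero, add_zero]

section clean

variable (hg : g.Ok) (hw : WinOk g X₀ X₁ Y₀ Y₁)
  (hS : StrZ g ω ya yb a₁ a₂ x₁ x₂ k₁ k₂ l₁ l₂ S) (hK : KapZ g Y₀ ya yb S l₁ l₂ kk lk)
include hg hw hS hK

/-- Unit edges far away. -/
theorem clean_of {e : UE} (f : ℤ × ℤ) (hf : IsSide f e) (hlk : f ∉ lk)
    (hfar : ¬ (-(g.w - 3) ≤ f.1 ∧ f.1 < g.w - 3 ∧ -(g.w - 3) ≤ f.2 ∧ f.2 < g.w - 3))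
    (hs : ∀ f ∈ S, ¬ IsSide f e) : Clean S l₁ l₂ lk e := by
  obtain ⟨f1, f2, f3, f4, f5, f6, f7, f8, f9, f10⟩ := lin hg
  refine ⟨hs, ⟨f, hf, fun h => ?_⟩, ⟨f, hf, fun h => ?_⟩, ⟨f, hf, hlk⟩⟩
  · have := mem_box hS.in₁ hg h
    omega
  · have := mem_box hS.in₂ hg h
    omega

theorem clean_top {x : ℤ} : Clean S l₁ l₂ lk (x, Y₁, false) := by
  obtain ⟨f1, f2, f3, f4, f5, f6, f7, f8, f9, f10⟩ := lin hg
  have w4 := hw.y₁
  rw [f10] at w4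
  refine clean_of hg hw hS hK (x, Y₁) (side_h.2 ⟨rfl, Or.inl rfl⟩) (fun h => ?_)
    (by dsimp only; omega) fun f hf hs => ?_
  · have := hK.box _ h
    dsimp only at this
    omega
  · have := hS.box f hf
    rw [side_h] at hs
    omega

theorem clean_v {x y : ℤ} (hx : g.w + 2 * g.A ≤ x ∨ x ≤ -(g.w + 2 * g.A)) :
    Clean S l₁ l₂ lk (x, y, true) := by
  obtain ⟨f1, f2, f3, f4, f5, f6, f7, f8, f9, f10⟩ := lin hg
  refine clean_of hg hw hS hK (x, y) (side_v.2 ⟨rfl, Or.inl rfl⟩) (fun h => ?_)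
    (by dsimp only; omega) fun f hf hs => ?_
  · have := hK.box _ h
    dsimp only at this
    omega
  · have := hS.box f hf
    rw [side_v] at hs
    omega

theorem clean_rh {x : ℤ} (h1 : g.w ≤ x) (h2 : x < g.w + 2 * g.A) :
    Clean S l₁ l₂ lk (x, ya + 1, false) := by
  obtain ⟨f1, f2, f3, f4, f5, f6, f7, f8, f9, f10⟩ := lin hg
  have hp := port hS.port
  refine clean_of hg hw hS hK (x, ya) (side_h.2 ⟨rfl, Or.inr (by ring)⟩) (fun h => ?_)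
    (by dsimp only; omega) fun f hf hs => ?_
  · refine hK.ball₁ _ h ?_
    dsimp only
    rw [abs_le, abs_le]
    omega
  · rw [side_h] at hs
    have := hS.near₁ f hf (by rw [abs_le]; omega) (by rw [abs_le]; omega)
    omega

theorem clean_lh {x : ℤ} (h1 : -(g.w + 2 * g.A) ≤ x) (h2 : x < -(g.w + 2)) :
    Clean S l₁ l₂ lk (x, yb + 1, false) := by
  obtain ⟨f1, f2, f3, f4, f5, f6, f7, f8, f9, f10⟩ := lin hg
  have hp := port hS.port
  refine clean_of hg hw hS hK (x, yb) (side_h.2 ⟨rfl, Or.inr (by ring)⟩) (fun h => ?_)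
    (by dsimp only; omega) fun f hf hs => ?_
  · refine hK.ball₂ _ h ?_
    dsimp only
    rw [abs_le, abs_le]
    omega
  · rw [side_h] at hs
    have := hS.near₂ f hf (by rw [abs_le]; omega) (by rw [abs_le]; omega)
    omega

theorem clean_bot {x : ℤ} (hx : x ≠ 0) : Clean S l₁ l₂ lk (x, Y₀, false) := by
  obtain ⟨f1, f2, f3, f4, f5, f6, f7, f8, f9, f10⟩ := lin hg
  have w3 := hw.y₀
  rw [f10] at w3
  refine clean_of hg hw hS hK (x, Y₀) (side_h.2 ⟨rfl, Or.inl rfl⟩) (fun h => ?_)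
    (by dsimp only; omega) fun f hf hs => ?_
  · exact hx (hK.low _ h (by dsimp only; omega))
  · have := hS.box f hf
    rw [side_h] at hs
    omega

theorem clean_strip {x : ℤ} (hx : 1 ≤ x) : Clean S l₁ l₂ lk (x, -(g.w + g.A), false) := by
  obtain ⟨f1, f2, f3, f4, f5, f6, f7, f8, f9, f10⟩ := lin hg
  refine clean_of hg hw hS hK (x, -(g.w + g.A) - 1) (side_h.2 ⟨rfl, Or.inr rfl⟩) (fun h => ?_)
    (by dsimp only; omega) fun f hf hs => ?_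
  · have := hK.low _ h (by dsimp only; omega)
    dsimp only at this
    omega
  · have := hS.box f hf
    rw [side_h] at hs
    omega

theorem tipR : (∃ f, IsSide f (tR g.w ya) ∧ f ∉ l₁) ∧ (∃ f, IsSide f (tR g.w ya) ∧ f ∉ l₂) ∧
    ∃ f, IsSide f (tR g.w ya) ∧ f ∉ lk := by
  obtain ⟨f1, f2, f3, f4, f5, f6, f7, f8, f9, f10⟩ := lin hg
  have hs : IsSide (g.w, ya) (tR g.w ya) := side_v.2 ⟨rfl, Or.inl rfl⟩
  refine ⟨⟨_, hs, fun h => ?_⟩, ⟨_, hs, fun h => ?_⟩, ⟨_, hs, fun h => ?_⟩⟩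
  · have := mem_box hS.in₁ hg h
    dsimp only at this
    omega
  · have := mem_box hS.in₂ hg h
    dsimp only at this
    omega
  · refine hK.ball₁ _ h ?_
    dsimp only
    rw [abs_le, abs_le]
    omega

theorem tipL : (∃ f, IsSide f (tL g.w yb) ∧ f ∉ l₁) ∧ (∃ f, IsSide f (tL g.w yb) ∧ f ∉ l₂) ∧
    ∃ f, IsSide f (tL g.w yb) ∧ f ∉ lk := by
  obtain ⟨f1, f2, f3, f4, f5, f6, f7, f8, f9, f10⟩ := lin hg
  have hs : IsSide (-(g.w + 2), yb) (tL g.w yb) := side_v.2 ⟨rfl, Or.inl rfl⟩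
  refine ⟨⟨_, hs, fun h => ?_⟩, ⟨_, hs, fun h => ?_⟩, ⟨_, hs, fun h => ?_⟩⟩
  · have := mem_box hS.in₁ hg h
    dsimp only at this
    omega
  · have := mem_box hS.in₂ hg h
    dsimp only at this
    omega
  · refine hK.ball₂ _ h ?_
    dsimp only
    rw [abs_le, abs_le]
    omega

omit hg hw hK in
theorem vis₁ : SS ω (DZ g.w ya yb a₁ a₂) (tR g.w ya) ⊆ S := fun f hf => by
  rw [← hS.vis]; exact Or.inl hf

omit hg hw hK in
theorem vis₂ : SS ω (DZ g.w ya yb a₁ a₂) (tL g.w yb) ⊆ S := fun f hf => by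
  rw [← hS.vis]; exact Or.inr hf

omit hg hw hK in
theorem notMem₁ {e : UE} (h : ∀ f ∈ S, ¬ IsSide f e) (he : e ≠ tR g.w ya) :
    e ∉ MM ω (DZ g.w ya yb a₁ a₂) (tR g.w ya) := by
  intro h1
  rcases mm_side h1 with h2 | ⟨f, hf, h2⟩
  · exact he h2
  · exact h f (vis₁ hS hf) h2

omit hg hw hK in
theorem notMem₂ {e : UE} (h : ∀ f ∈ S, ¬ IsSide f e) (he : e ≠ tL g.w yb) :
    e ∉ MM ω (DZ g.w ya yb a₁ a₂) (tL g.w yb) := by
  intro h1
  rcases mm_side h1 with h2 | ⟨f, hf, h2⟩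
  · exact he h2
  · exact h f (vis₂ hS hf) h2

omit hg hw hK in
theorem tR_notMem : tR g.w ya ∉ MM ω (DZ g.w ya yb a₁ a₂) (tL g.w yb) :=
  fun h => hS.ne (MM_symm h)

omit hw hK in
theorem places : (OutR g.R k₁ a₁ ∧ OutR g.R k₂ a₂) ∧ a₁ ≠ a₂ ∧
    (-(g.w - 3) ≤ a₁.1 ∧ a₁.1 < g.w - 3 ∧ -(g.w - 3) ≤ a₁.2 ∧ a₁.2 < g.w - 3) ∧
    (-(g.w - 3) ≤ a₂.1 ∧ a₂.1 < g.w - 3 ∧ -(g.w - 3) ≤ a₂.2 ∧ a₂.2 < g.w - 3) := by
  obtain ⟨f1, f2, f3, f4, f5, f6, f7, f8, f9, f10⟩ := lin hg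
  have b1 := mem_box hS.in₁ hg (head_mem hS.in₁.head)
  have b2 := mem_box hS.in₂ hg (head_mem hS.in₂.head)
  have e1 : OutR g.R k₁ a₁ := by
    refine outR hS.in₁ hg hS.xm₁ hS.xs₁ (fun h => ?_) (vis₁ hS) hS.hole
    unfold tR at h
    rw [side_v] at h
    omega
  have e2 : OutR g.R k₂ a₂ := by
    refine outR hS.in₂ hg hS.xm₂ hS.xs₂ (fun h => ?_) (vis₂ hS) hS.hole
    unfold tL at h
    rw [side_v] at h
    omega
  refine ⟨⟨e1, e2⟩, ?_, ⟨by omega, by omega, by omega, by omega⟩,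
    ⟨by omega, by omega, by omega, by omega⟩⟩
  intro h
  rw [← h] at e2
  have h3 := hS.sep.1
  have h4 : k₁ = k₂ := by
    unfold OutR at e1 e2
    omega
  rw [h4, sub_self, abs_zero] at h3
  omega

theorem exists₁ : ∃ Φ₁, PotC (RF X₀ X₁ Y₀ Y₁) (fun a =>
    cM (MM ω (DZ g.w ya yb a₁ a₂) (tR g.w ya)) a + xp l₁ a + xp (eRow g.w ya X₁) a + xp lk a) Φ₁ ∧
    (∀ x, X₀ ≤ x → x ≤ X₁ → Φ₁ (x, Y₁) = 0) ∧
    (∀ y, ya < y → y ≤ Y₁ → Φ₁ (g.w + 2 * g.A, y) = 0) ∧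
    (∀ y, yb < y → y ≤ Y₁ → Φ₁ (-(g.w + 2 * g.A), y) = 0) ∧
    Φ₁ (g.w, ya) = 1 ∧ Φ₁ (-(g.w + 2), yb) = 0 ∧
    (∀ x, 1 ≤ x → x ≤ X₁ → Φ₁ (x, Y₀) = 1) ∧
    (∀ x, X₀ ≤ x → x ≤ 0 → Φ₁ (x, Y₀) = 0) ∧
    (∀ x, 1 ≤ x → x ≤ X₁ → Φ₁ (x, -(g.w + g.A)) = 1) := by
  obtain ⟨f1, f2, f3, f4, f5, f6, f7, f8, f9, f10⟩ := lin hg
  have w1 := hw.x₀
  have w2 := hw.x₁
  have w3 := hw.y₀
  have w4 := hw.y₁
  rw [f10] at w1 w2 w3 w4
  have hp := port hS.port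
  obtain ⟨-, n0, b1, b2⟩ := places hg hS
  obtain ⟨r1, r2, r3, r4⟩ := isCh_eRow (w := g.w) (y := ya) (X := X₁) (by omega)
  have hcl : ∀ f ∈ RF X₀ X₁ Y₀ Y₁, bdC (fun a => cM (MM ω (DZ g.w ya yb a₁ a₂) (tR g.w ya)) a +
      xp l₁ a + xp (eRow g.w ya X₁) a + xp lk a) f = 0 := by
    intro f hf
    rw [mem_RF] at hf
    refine closed hS.in₁.chain r1 hK.chain hS.in₁.head hS.in₁.last r2 r3 hK.head hK.last ?_ ?_ ?_
    · rintro rfl
      dsimp only at hf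
      omega
    · rintro rfl
      dsimp only at hf
      omega
    · refine bd_M (a := a₁) (a' := a₂) (p := (g.w, ya)) (p' := (-(g.w + 3), yb)) (x := x₁)
        (fun f h1 h2 h3 h4 => ⟨h1, h2, h3, h4⟩) hS.xm₁ hS.xs₁ (side_v.2 ⟨rfl, Or.inl rfl⟩)
        hS.only₁ ?_ n0.symm ?_ ?_ ?_
      · rintro rfl; dsimp only at b1; omega
      · rintro rfl; dsimp only at b2; omega
      · rintro rfl; dsimp only at b1; omega
      · intro h; rw [Prod.mk.injEq] at h; omega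
  obtain ⟨Φ, hΦ, h0⟩ := exists_potC hcl (X₀, Y₁) 0
  have hne : ∀ {e : UE}, Clean S l₁ l₂ lk e → e ≠ tR g.w ya →
      cM (MM ω (DZ g.w ya yb a₁ a₂) (tR g.w ya)) e + xp l₁ e + xp (eRow g.w ya X₁) e + xp lk e =
        ind2 (e.2.2 = true ∧ e.2.1 = ya ∧ g.w < e.1 ∧ e.1 ≤ X₁) := by
    intro e he he'
    rw [xp_eRow (by omega)]
    exact c_eq hS.in₁.chain hK.chain (notMem₁ hS he.S he') he.l₁ he.lk
  obtain ⟨t1, -, t3⟩ := tipR hg hw hS hK
  obtain ⟨s1, -, s3⟩ := tipL hg hw hS hK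
  refine ⟨Φ, hΦ, values (w := g.w) (A := g.A) (t := 0) hΦ (by omega) f7 w1 w2 w3 w4 hp.1 hp.2.1
    hp.2.2.2.2.1 (by omega) rfl h0 ?_ ?_ ?_ ?_ ?_ ?_ ?_ ?_ ?_ ?_ ?_⟩
  · intro x _ _
    rw [hne (clean_top hg hw hS hK) (by intro h; simp [tR] at h), ind2_neg (by simp)]
  · intro y hy _
    rw [hne (clean_v hg hw hS hK (Or.inl le_rfl))
      (by intro h; unfold tR at h; rw [Prod.mk.injEq] at h; omega), ind2_neg]
    rintro ⟨-, h, -⟩
    dsimp only at h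
    omega
  · intro x h1 h2
    rw [hne (clean_rh hg hw hS hK h1 h2) (by intro h; simp [tR] at h), ind2_neg (by simp)]
  · have h1 := c_eq' (r := xp (eRow g.w ya X₁) (tR g.w ya)) hS.in₁.chain hK.chain
      (M := MM ω (DZ g.w ya yb a₁ a₂) (tR g.w ya)) mem_MM_self t1 t3
    have h2 : xp (eRow g.w ya X₁) (tR g.w ya) = 0 := by
      rw [xp_eRow (by omega), ind2_neg (fun h => absurd h.2.2.1 (by simp [tR]))]
    rw [h2, add_zero, add_zero] at h1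
    change cM (MM ω (DZ g.w ya yb a₁ a₂) (tR g.w ya)) (tR g.w ya) + xp l₁ (tR g.w ya) +
      xp (eRow g.w ya X₁) (tR g.w ya) + xp lk (tR g.w ya) = 1
    rw [h2, add_zero]
    exact h1
  · intro y hy _
    rw [hne (clean_v hg hw hS hK (Or.inr le_rfl))
      (by intro h; unfold tR at h; rw [Prod.mk.injEq] at h; omega), ind2_neg]
    rintro ⟨-, h, h1, -⟩
    dsimp only at h h1
    omega
  · intro x h1 h2
    rw [hne (clean_lh hg hw hS hK h1 h2) (by intro h; simp [tR] at h), ind2_neg (by simp)]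
  · have h1 := c_eq (r := xp (eRow g.w ya X₁) (tL g.w yb)) hS.in₁.chain hK.chain hS.ne s1 s3
    have h2 : xp (eRow g.w ya X₁) (tL g.w yb) = 0 := by
      rw [xp_eRow (by omega), ind2_neg (fun h => absurd h.2.2.1 (by simp only [tL]; omega))]
    rw [h2] at h1
    change cM (MM ω (DZ g.w ya yb a₁ a₂) (tR g.w ya)) (tL g.w yb) + xp l₁ (tL g.w yb) +
      xp (eRow g.w ya X₁) (tL g.w yb) + xp lk (tL g.w yb) = 0
    rw [h2]
    exact h1
  · intro y _ _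
    rw [hne (clean_v hg hw hS hK (Or.inl (by omega)))
      (by intro h; unfold tR at h; rw [Prod.mk.injEq] at h; omega)]
    by_cases hy : y = ya
    · rw [if_pos hy, ind2_pos ⟨rfl, hy, by dsimp only; omega, le_rfl⟩]
    · rw [if_neg hy, ind2_neg fun h => hy h.2.1]
  · intro y _ _
    rw [hne (clean_v hg hw hS hK (Or.inr (by omega)))
      (by intro h; unfold tR at h; rw [Prod.mk.injEq] at h; omega), ind2_neg, ite_self]
    rintro ⟨-, h, h1, -⟩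
    dsimp only at h h1
    omega
  · intro x _ _ hx
    rw [hne (clean_bot hg hw hS hK hx) (by intro h; simp [tR] at h), ind2_neg (by simp)]
  · intro x hx _
    rw [hne (clean_strip hg hw hS hK hx) (by intro h; simp [tR] at h), ind2_neg (by simp)]

theorem exists₂ : ∃ Φ₂, PotC (RF X₀ X₁ Y₀ Y₁) (fun a =>
    cM (MM ω (DZ g.w ya yb a₁ a₂) (tL g.w yb)) a + xp l₂ a + xp (wRow g.w yb X₀) a + xp lk a) Φ₂ ∧
    (∀ x, X₀ ≤ x → x ≤ X₁ → Φ₂ (x, Y₁) = 0) ∧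
    (∀ y, ya < y → y ≤ Y₁ → Φ₂ (g.w + 2 * g.A, y) = 0) ∧
    (∀ y, yb < y → y ≤ Y₁ → Φ₂ (-(g.w + 2 * g.A), y) = 0) ∧
    Φ₂ (g.w, ya) = 0 ∧ Φ₂ (-(g.w + 2), yb) = 1 ∧
    (∀ x, 1 ≤ x → x ≤ X₁ → Φ₂ (x, Y₀) = 0) ∧
    (∀ x, X₀ ≤ x → x ≤ 0 → Φ₂ (x, Y₀) = 1) ∧
    (∀ x, 1 ≤ x → x ≤ X₁ → Φ₂ (x, -(g.w + g.A)) = 0) := by
  obtain ⟨f1, f2, f3, f4, f5, f6, f7, f8, f9, f10⟩ := lin hg
  have w1 := hw.x₀
  have w2 := hw.x₁
  have w3 := hw.y₀
  have w4 := hw.y₁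
  rw [f10] at w1 w2 w3 w4
  have hp := port hS.port
  obtain ⟨-, n0, b1, b2⟩ := places hg hS
  obtain ⟨r1, r2, r3, r4⟩ := isCh_wRow (w := g.w) (y := yb) (X := X₀) (by omega)
  have hcl : ∀ f ∈ RF X₀ X₁ Y₀ Y₁, bdC (fun a => cM (MM ω (DZ g.w ya yb a₁ a₂) (tL g.w yb)) a +
      xp l₂ a + xp (wRow g.w yb X₀) a + xp lk a) f = 0 := by
    intro f hf
    rw [mem_RF] at hf
    refine closed hS.in₂.chain r1 hK.chain hS.in₂.head hS.in₂.last r2 r3 hK.head hK.last ?_ ?_ ?_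
    · rintro rfl
      dsimp only at hf
      omega
    · rintro rfl
      dsimp only at hf
      omega
    · refine bd_M (a := a₂) (a' := a₁) (p := (-(g.w + 3), yb)) (p' := (g.w, ya)) (x := x₂)
        (fun f h1 h2 h3 h4 => ⟨h2, h1, h4, h3⟩) hS.xm₂ hS.xs₂ (side_v.2 ⟨rfl, Or.inr (by ring)⟩)
        (fun e f hf => hS.only₂ e f (by tauto)) ?_ n0 ?_ ?_ ?_
      · rintro rfl; dsimp only at b2; omega
      · rintro rfl; dsimp only at b1; omega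
      · rintro rfl; dsimp only at b2; omega
      · intro h; rw [Prod.mk.injEq] at h; omega
  obtain ⟨Φ, hΦ, h0⟩ := exists_potC hcl (X₀, Y₁) 0
  have hne : ∀ {e : UE}, Clean S l₁ l₂ lk e → e ≠ tL g.w yb →
      cM (MM ω (DZ g.w ya yb a₁ a₂) (tL g.w yb)) e + xp l₂ e + xp (wRow g.w yb X₀) e + xp lk e =
        ind2 (e.2.2 = true ∧ e.2.1 = yb ∧ X₀ ≤ e.1 ∧ e.1 ≤ -(g.w + 3)) := by
    intro e he he'
    rw [xp_wRow (by omega)]
    exact c_eq hS.in₂.chain hK.chain (notMem₂ hS he.S he') he.l₂ he.lk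
  obtain ⟨-, t1, t3⟩ := tipR hg hw hS hK
  obtain ⟨-, s1, s3⟩ := tipL hg hw hS hK
  refine ⟨Φ, hΦ, values (w := g.w) (A := g.A) (t := 0) hΦ (by omega) f7 w1 w2 w3 w4 hp.1 hp.2.1
    hp.2.2.2.2.1 (by omega) rfl h0 ?_ ?_ ?_ ?_ ?_ ?_ ?_ ?_ ?_ ?_ ?_⟩
  · intro x _ _
    rw [hne (clean_top hg hw hS hK) (by intro h; simp [tL] at h), ind2_neg (by simp)]
  · intro y hy _
    rw [hne (clean_v hg hw hS hK (Or.inl le_rfl))
      (by intro h; unfold tL at h; rw [Prod.mk.injEq] at h; omega), ind2_neg]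
    rintro ⟨-, h, -, h1⟩
    dsimp only at h h1
    omega
  · intro x h1 h2
    rw [hne (clean_rh hg hw hS hK h1 h2) (by intro h; simp [tL] at h), ind2_neg (by simp)]
  · have h1 := c_eq (r := xp (wRow g.w yb X₀) (tR g.w ya)) hS.in₂.chain hK.chain (tR_notMem hS) t1 t3
    have h2 : xp (wRow g.w yb X₀) (tR g.w ya) = 0 := by
      rw [xp_wRow (by omega), ind2_neg (fun h => absurd h.2.2.2 (by simp only [tR]; omega))]
    rw [h2] at h1
    change cM (MM ω (DZ g.w ya yb a₁ a₂) (tL g.w yb)) (tR g.w ya) + xp l₂ (tR g.w ya) +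
      xp (wRow g.w yb X₀) (tR g.w ya) + xp lk (tR g.w ya) = 0
    rw [h2]
    exact h1
  · intro y hy _
    rw [hne (clean_v hg hw hS hK (Or.inr le_rfl))
      (by intro h; unfold tL at h; rw [Prod.mk.injEq] at h; omega), ind2_neg]
    rintro ⟨-, h, -, h1⟩
    dsimp only at h h1
    omega
  · intro x h1 h2
    rw [hne (clean_lh hg hw hS hK h1 h2) (by intro h; simp [tL] at h), ind2_neg (by simp)]
  · have h1 := c_eq' (r := xp (wRow g.w yb X₀) (tL g.w yb)) hS.in₂.chain hK.chain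
      (M := MM ω (DZ g.w ya yb a₁ a₂) (tL g.w yb)) mem_MM_self s1 s3
    have h2 : xp (wRow g.w yb X₀) (tL g.w yb) = 0 := by
      rw [xp_wRow (by omega), ind2_neg (fun h => absurd h.2.2.2 (by simp only [tL]; omega))]
    rw [h2, add_zero, add_zero] at h1
    change cM (MM ω (DZ g.w ya yb a₁ a₂) (tL g.w yb)) (tL g.w yb) + xp l₂ (tL g.w yb) +
      xp (wRow g.w yb X₀) (tL g.w yb) + xp lk (tL g.w yb) = 1
    rw [h2, add_zero]
    exact h1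
  · intro y _ _
    rw [hne (clean_v hg hw hS hK (Or.inl (by omega)))
      (by intro h; unfold tL at h; rw [Prod.mk.injEq] at h; omega), ind2_neg, ite_self]
    rintro ⟨-, h, -, h1⟩
    dsimp only at h h1
    omega
  · intro y _ _
    rw [hne (clean_v hg hw hS hK (Or.inr (by omega)))
      (by intro h; unfold tL at h; rw [Prod.mk.injEq] at h; omega)]
    by_cases hy : y = yb
    · rw [if_pos hy, ind2_pos ⟨rfl, hy, le_rfl, by dsimp only; omega⟩]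
    · rw [if_neg hy, ind2_neg fun h => hy h.2.1]
  · intro x _ _ hx
    rw [hne (clean_bot hg hw hS hK hx) (by intro h; simp [tL] at h), ind2_neg (by simp)]
  · intro x hx _
    rw [hne (clean_strip hg hw hS hK hx) (by intro h; simp [tL] at h), ind2_neg (by simp)]

end clean

theorem const_cor {Ψ : ℤ × ℤ → ZMod 2} {f : ℤ × ℤ} (h : ∀ a, IsSide f a → Ψ (ub a) = Ψ (ua a))
    {p q : ℤ × ℤ} (hp : IsCor f p) (hq : IsCor f q) : Ψ p = Ψ q := by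
  obtain ⟨x, y⟩ := f
  have h1 := h (bo (x, y)) (Or.inl rfl)
  have h2 := h (le' (x, y)) (Or.inr (Or.inl rfl))
  have h3 := h (to' (x, y)) (Or.inr (Or.inr (Or.inl rfl)))
  unfold bo at h1
  unfold le' at h2
  unfold to' at h3
  dsimp only at h1 h2 h3
  rw [ub_false, ua_mk] at h1 h3
  rw [ub_true, ua_mk] at h2
  have key : ∀ p, IsCor (x, y) p → Ψ p = Ψ (x, y) := by
    rintro ⟨u, v⟩ ⟨hu, hv⟩
    dsimp only at hu hv
    rcases hu with rfl | rfl <;> rcases hv with rfl | rfl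
    · rfl
    · exact h2
    · exact h1
    · exact h3.trans h2
  rw [key p hp, key q hq]

theorem isCh_tail {f : ℤ × ℤ} {l : List (ℤ × ℤ)} (h : IsCh (f :: l)) : IsCh l := by
  cases l with
  | nil => exact trivial
  | cons g l => exact h.2

theorem isCh_suffix {l' l : List (ℤ × ℤ)} (h : IsCh (l' ++ l)) : IsCh l := by
  induction l' with
  | nil => exact h
  | cons f l' ih => exact ih (isCh_tail h)

/-- The value along a dual path, from its end. -/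
theorem along {Ψ : ℤ × ℤ → ZMod 2} {Y : ℤ} (h0 : Ψ (0, Y) = 1) (l : List (ℤ × ℤ)) (hl : IsCh l)
    (hlast : l.getLast? = some (0, Y - 1))
    (hc : ∀ f ∈ l, f = (0, Y - 1) ∨ (Y ≤ f.2 ∧ ∀ p q, IsCor f p → IsCor f q → Ψ p = Ψ q))
    {f : ℤ × ℤ} (hf : f ∈ l) (hfY : Y ≤ f.2) {p : ℤ × ℤ} (hp : IsCor f p) : Ψ p = 1 := by
  induction l generalizing f p with
  | nil => exact absurd hf (List.not_mem_nil)
  | cons f₀ l ih =>
    cases l with
    | nil =>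
      rw [List.getLast?_singleton, Option.some.injEq] at hlast
      rw [List.mem_singleton] at hf
      rw [hf, hlast] at hfY
      dsimp only at hfY
      omega
    | cons f₁ l =>
      rw [List.getLast?_cons_cons] at hlast
      have ih' : ∀ {f : ℤ × ℤ}, f ∈ f₁ :: l → Y ≤ f.2 → ∀ {p : ℤ × ℤ}, IsCor f p → Ψ p = 1 :=
        fun {f} h1 h2 {p} h3 => ih hl.2 hlast (fun f hf => hc f (List.mem_cons_of_mem _ hf)) h1 h2 h3
      rcases List.mem_cons.1 hf with rfl | hf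
      · have hadj : Adj4 f f₁ := hl.1
        have hcf : ∀ p q, IsCor f p → IsCor f q → Ψ p = Ψ q := by
          rcases hc f (List.mem_cons_self) with h | h
          · rw [h] at hfY
            dsimp only at hfY
            omega
          · exact h.2
        rcases hc f₁ (List.mem_cons_of_mem _ (List.mem_cons_self)) with h | ⟨h, -⟩
        · rw [h] at hadj
          obtain ⟨x, y⟩ := f
          unfold Adj4 at hadj
          dsimp only at hadj hfY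
          have e1 : x = 0 ∧ y = Y := by omega
          obtain ⟨rfl, rfl⟩ := e1
          rw [hcf p (0, y) hp ⟨Or.inl rfl, Or.inl rfl⟩, h0]
        · obtain ⟨c, hc1, hc2⟩ : ∃ c, IsCor f c ∧ IsCor f₁ c := by
            refine ⟨(max f.1 f₁.1, max f.2 f₁.2), ?_, ?_⟩ <;> unfold IsCor Adj4 at * <;>
              dsimp only at * <;> omega
          rw [hcf p c hp hc1]
          exact ih' (List.mem_cons_self) h hc2
      · exact ih' hf hfY hp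

end ZCAux

open ZCAux

/-- The potentials exist (`Φᵢ (X₀, Y₁) = 0`). -/
theorem exists_pots (hg : g.Ok) (hw : WinOk g X₀ X₁ Y₀ Y₁)
    (hS : StrZ g ω ya yb a₁ a₂ x₁ x₂ k₁ k₂ l₁ l₂ S) (hK : KapZ g Y₀ ya yb S l₁ l₂ kk lk) :
    ∃ Φ₁ Φ₂, Pots g X₀ X₁ Y₀ Y₁ ω ya yb a₁ a₂ l₁ l₂ lk Φ₁ Φ₂ := by
  obtain ⟨Φ₁, p1, t1, r1, e1, v1, v1', b1, b1', s1⟩ := exists₁ hg hw hS hK
  obtain ⟨Φ₂, p2, t2, r2, e2, v2, v2', b2, b2', s2⟩ := exists₂ hg hw hS hK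
  obtain ⟨f1, f2, f3, f4, f5, f6, f7, f8, f9, f10⟩ := lin hg
  refine ⟨Φ₁, Φ₂, p1, p2, ⟨v1, v2⟩, ⟨v1', v2'⟩, fun x h h' => ⟨t1 x h h', t2 x h h'⟩,
    fun x h h' => ⟨b1 x h h', b2 x h h'⟩, fun x h h' => ⟨b1' x h h', b2' x h h'⟩, ?_, ?_, ?_⟩
  · rw [f9]; exact fun y h h' => ⟨r1 y h h', r2 y h h'⟩
  · rw [f9]; exact fun y h h' => ⟨e1 y h h', e2 y h h'⟩
  · rw [f8]; exact fun x h h' => ⟨s1 x h h', s2 x h h'⟩

/-- The strands of a configuration which agrees on the visited faces. -/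
theorem MM_agree (hS : StrZ g ω ya yb a₁ a₂ x₁ x₂ k₁ k₂ l₁ l₂ S) (h : ∀ f ∈ S, η f = ω f) :
    MM η (DZ g.w ya yb a₁ a₂) (tR g.w ya) = MM ω (DZ g.w ya yb a₁ a₂) (tR g.w ya) ∧
    MM η (DZ g.w ya yb a₁ a₂) (tL g.w yb) = MM ω (DZ g.w ya yb a₁ a₂) (tL g.w yb) ∧
    SS η (DZ g.w ya yb a₁ a₂) (tR g.w ya) ∪ SS η (DZ g.w ya yb a₁ a₂) (tL g.w yb) = S := by
  have h1 : ∀ f ∈ SS ω (DZ g.w ya yb a₁ a₂) (tR g.w ya), ω f = η f := fun f hf =>
    (h f (vis₁ hS hf)).symm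
  have h2 : ∀ f ∈ SS ω (DZ g.w ya yb a₁ a₂) (tL g.w yb), ω f = η f := fun f hf =>
    (h f (vis₂ hS hf)).symm
  refine ⟨MM_congr h1, MM_congr h2, ?_⟩
  rw [SS_congr h1, SS_congr h2, hS.vis]

theorem ZCAux.notMem_lk (hg : g.Ok) (hK : KapZ g Y₀ ya yb S l₁ l₂ kk lk) {f : ℤ × ℤ} (hf : f ∈ S) :
    f ∉ lk := by
  obtain ⟨f1, f2, f3, f4, f5, f6, f7, f8, f9, f10⟩ := lin hg
  intro h
  have h1 := hK.far f h f hf
  rw [sub_self, sub_self, abs_zero, max_self] at h1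
  omega

theorem ZCAux.row_e (hg : g.Ok)
    (hS : StrZ g ω ya yb a₁ a₂ x₁ x₂ k₁ k₂ l₁ l₂ S) {f : ℤ × ℤ} (hf : f ∈ S) :
    ¬ (f.2 = ya ∧ g.w ≤ f.1) := by
  obtain ⟨f1, f2, f3, f4, f5, f6, f7, f8, f9, f10⟩ := lin hg
  rintro ⟨h1, h2⟩
  have h3 := hS.box f hf
  have h4 := hS.near₁ f hf (by rw [abs_le]; omega) (by rw [abs_le]; omega)
  omega

theorem ZCAux.row_w (hg : g.Ok)
    (hS : StrZ g ω ya yb a₁ a₂ x₁ x₂ k₁ k₂ l₁ l₂ S) {f : ℤ × ℤ} (hf : f ∈ S) :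
    ¬ (f.2 = yb ∧ f.1 ≤ -(g.w + 3)) := by
  obtain ⟨f1, f2, f3, f4, f5, f6, f7, f8, f9, f10⟩ := lin hg
  rintro ⟨h1, h2⟩
  have h3 := hS.box f hf
  have h4 := hS.near₂ f hf (by rw [abs_le]; omega) (by rw [abs_le]; omega)
  omega

theorem ZCAux.rows_zero (hg : g.Ok) (hw : WinOk g X₀ X₁ Y₀ Y₁) {f : ℤ × ℤ}
    (h4 : ¬ (f.2 = ya ∧ g.w ≤ f.1)) (h5 : ¬ (f.2 = yb ∧ f.1 ≤ -(g.w + 3))) {a : UE}
    (ha : IsSide f a) : xp (eRow g.w ya X₁) a = 0 ∧ xp (wRow g.w yb X₀) a = 0 := by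
  obtain ⟨f1, f2, f3, f4, f5, f6, f7, f8, f9, f10⟩ := lin hg
  have w1 := hw.x₀
  have w2 := hw.x₁
  rw [f10] at w1 w2
  obtain ⟨r1, r2, r3, r4⟩ := isCh_eRow (w := g.w) (y := ya) (X := X₁) (by omega)
  obtain ⟨q1, q2, q3, q4⟩ := isCh_wRow (w := g.w) (y := yb) (X := X₀) (by omega)
  refine ⟨xp_side r1 ha fun h => ?_, xp_side q1 ha fun h => ?_⟩
  · rw [r4] at h
    exact h4 ⟨h.1, h.2.1⟩
  · rw [q4] at h
    exact h5 ⟨h.1, h.2.2⟩

/-- The sectors, for every configuration which agrees on the visited faces. -/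
theorem sec_of_pots (hg : g.Ok) (hw : WinOk g X₀ X₁ Y₀ Y₁)
    (hS : StrZ g ω ya yb a₁ a₂ x₁ x₂ k₁ k₂ l₁ l₂ S) (hK : KapZ g Y₀ ya yb S l₁ l₂ kk lk)
    (hP : Pots g X₀ X₁ Y₀ Y₁ ω ya yb a₁ a₂ l₁ l₂ lk Φ₁ Φ₂) (h : ∀ f ∈ S, η f = ω f) :
    Sec η (DZ g.w ya yb a₁ a₂) (tR g.w ya) (tL g.w yb) (g.w, ya + 1) (g.w, ya)
      (-(g.w + 2), yb + 1) (-(g.w + 2), yb) Φ₁ Φ₂ := by
  obtain ⟨f1, f2, f3, f4, f5, f6, f7, f8, f9, f10⟩ := lin hg
  have w1 := hw.x₀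
  have w2 := hw.x₁
  have w3 := hw.y₀
  have w4 := hw.y₁
  rw [f10] at w1 w2 w3 w4
  have hp := port hS.port
  obtain ⟨-, n0, b1, b2⟩ := places hg hS
  obtain ⟨m1, m2, m3⟩ := MM_agree hS h
  have hRF : ∀ f ∈ S, f ∈ (RF X₀ X₁ Y₀ Y₁ : Set (ℤ × ℤ)) := by
    intro f hf
    have := hS.box f hf
    rw [mem_RF']
    omega
  refine ⟨Or.inr ⟨?_, rfl⟩, Or.inr ⟨?_, rfl⟩, ?_, ⟨(g.w - 1, ya), ⟨?_, ?_, ?_, ?_⟩, ?_⟩,
    ⟨(-(g.w + 2), yb), ⟨?_, ?_, ?_, ?_⟩, ?_⟩, ?_, ?_, ?_, hP.v₁.1, hP.v₁.2, hP.v₂.1, hP.v₂.2⟩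
  · unfold tR; rw [ub_true]
  · unfold tL; rw [ub_true]
  · unfold par
    dsimp only
    omega
  · rintro rfl; dsimp only at b1; omega
  · rintro rfl; dsimp only at b2; omega
  · intro h; rw [Prod.mk.injEq] at h; omega
  · intro h; rw [Prod.mk.injEq] at h; omega
  · exact side_v.2 ⟨rfl, Or.inr rfl⟩
  · rintro rfl; dsimp only at b1; omega
  · rintro rfl; dsimp only at b2; omega
  · intro h; rw [Prod.mk.injEq] at h; omega
  · intro h; rw [Prod.mk.injEq] at h; omega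
  · exact side_v.2 ⟨rfl, Or.inl rfl⟩
  · rw [m1]; exact hS.ne
  · rw [m3]
    intro f hf a ha
    have e1 := hP.p₁ f (hRF f hf) a ha
    obtain ⟨e2, e3⟩ := rows_zero hg hw (row_e hg hS hf) (row_w hg hS hf) ha
    dsimp only at e1
    rw [xp_side hS.in₁.chain ha (fun h => hS.in₁.fresh f h hf), e2,
      xp_side hK.chain ha (notMem_lk hg hK hf), add_zero, add_zero, add_zero] at e1
    rw [e1, m1]
    rfl
  · rw [m3]
    intro f hf a ha
    have e1 := hP.p₂ f (hRF f hf) a ha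
    obtain ⟨e2, e3⟩ := rows_zero hg hw (row_e hg hS hf) (row_w hg hS hf) ha
    dsimp only at e1
    rw [xp_side hS.in₂.chain ha (fun h => hS.in₂.fresh f h hf), e3,
      xp_side hK.chain ha (notMem_lk hg hK hf), add_zero, add_zero, add_zero] at e1
    rw [e1, m2]
    rfl

/-- The potentials on a face which is not visited and not on the dual paths. -/
theorem pots_fresh (hS : StrZ g ω ya yb a₁ a₂ x₁ x₂ k₁ k₂ l₁ l₂ S) (hK : KapZ g Y₀ ya yb S l₁ l₂ kk lk)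
    (hw : WinOk g X₀ X₁ Y₀ Y₁) (hg : g.Ok)
    (hP : Pots g X₀ X₁ Y₀ Y₁ ω ya yb a₁ a₂ l₁ l₂ lk Φ₁ Φ₂) {f : ℤ × ℤ}
    (hf : f ∈ RF X₀ X₁ Y₀ Y₁) (h1 : f ∉ S) (h2 : f ∉ l₁) (h3 : f ∉ l₂)
    (h4 : ¬ (f.2 = ya ∧ g.w ≤ f.1)) (h5 : ¬ (f.2 = yb ∧ f.1 ≤ -(g.w + 3))) {p q : ℤ × ℤ}
    (hp : IsCor f p) (hq : IsCor f q) :
    Φ₁ p + Φ₂ p = Φ₁ q + Φ₂ q ∧ (f ∉ lk → Φ₁ p = Φ₁ q ∧ Φ₂ p = Φ₂ q) := by
  have hD : f ∈ DZ g.w ya yb a₁ a₂ := by
    refine ⟨?_, ?_, ?_, ?_⟩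
    · rintro rfl; exact h2 (head_mem hS.in₁.head)
    · rintro rfl; exact h3 (head_mem hS.in₂.head)
    · rintro rfl; exact h4 ⟨rfl, le_rfl⟩
    · rintro rfl; exact h5 ⟨rfl, le_rfl⟩
  have hc : ∀ a, IsSide f a → Φ₁ (ub a) = Φ₁ (ua a) + xp lk a ∧ Φ₂ (ub a) = Φ₂ (ua a) + xp lk a := by
    intro a ha
    have e1 := hP.p₁ f hf a ha
    have e1' := hP.p₂ f hf a ha
    obtain ⟨e2, e3⟩ := rows_zero hg hw h4 h5 ha
    have m1 : cM (MM ω (DZ g.w ya yb a₁ a₂) (tR g.w ya)) a = 0 :=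
      ind2_neg fun h => h1 (vis₁ hS ⟨hD, a, h, ha⟩)
    have m2 : cM (MM ω (DZ g.w ya yb a₁ a₂) (tL g.w yb)) a = 0 :=
      ind2_neg fun h => h1 (vis₂ hS ⟨hD, a, h, ha⟩)
    dsimp only at e1 e1'
    rw [xp_side hS.in₁.chain ha h2, e2, m1, add_zero, add_zero, zero_add] at e1
    rw [xp_side hS.in₂.chain ha h3, e3, m2, add_zero, add_zero, zero_add] at e1'
    exact ⟨e1, e1'⟩
  constructor
  · refine const_cor (Ψ := fun p => Φ₁ p + Φ₂ p) (fun a ha => ?_) hp hq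
    obtain ⟨e1, e2⟩ := hc a ha
    rw [e1, e2]
    generalize Φ₁ (ua a) = x
    generalize Φ₂ (ua a) = y
    generalize xp lk a = z
    revert x y z
    decide
  · intro hlk
    constructor
    · refine const_cor (fun a ha => ?_) hp hq
      rw [(hc a ha).1, xp_side hK.chain ha hlk, add_zero]
    · refine const_cor (fun a ha => ?_) hp hq
      rw [(hc a ha).2, xp_side hK.chain ha hlk, add_zero]

/-- The faces of the corridor outside the hole are on the D side. -/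
theorem pots_kap (hg : g.Ok) (hw : WinOk g X₀ X₁ Y₀ Y₁)
    (hS : StrZ g ω ya yb a₁ a₂ x₁ x₂ k₁ k₂ l₁ l₂ S) (hK : KapZ g Y₀ ya yb S l₁ l₂ kk lk)
    (hP : Pots g X₀ X₁ Y₀ Y₁ ω ya yb a₁ a₂ l₁ l₂ lk Φ₁ Φ₂) {f : ℤ × ℤ} (hf : f ∈ lk)
    (hf1 : f ∉ BR (0, 0) g.R) (hf2 : Y₀ ≤ f.2) {p : ℤ × ℤ} (hp : IsCor f p) :
    Φ₁ p + Φ₂ p = 1 := by
  obtain ⟨f1, f2, f3, f4, f5, f6, f7, f8, f9, f10⟩ := lin hg
  have w1 := hw.x₀
  have w2 := hw.x₁
  have w3 := hw.y₀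
  have w4 := hw.y₁
  rw [f10] at w1 w2 w3 w4
  obtain ⟨l', l'', hl, hl1, hl2⟩ := hK.split
  have hfl : f ∈ l'' := by
    rw [hl, List.mem_append] at hf
    rcases hf with hf | hf
    · exact absurd (hl1 f hf) hf1
    · exact hf
  have hch : IsCh l'' := isCh_suffix (l' := l') (by rw [← hl]; exact hK.chain)
  have hne : l'' ≠ [] := by
    rintro rfl
    exact absurd hfl List.not_mem_nil
  have hlast : l''.getLast? = some (0, Y₀ - 1) := by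
    have h1 := hK.last
    rw [hl, List.getLast?_append_of_ne_nil _ hne] at h1
    exact h1
  have h0 : Φ₁ (0, Y₀) + Φ₂ (0, Y₀) = 1 := by
    obtain ⟨e1, e2⟩ := hP.botL 0 (by omega) le_rfl
    rw [e1, e2, zero_add]
  refine along (Ψ := fun p => Φ₁ p + Φ₂ p) h0 l'' hch hlast (fun s hs => ?_) hfl hf2 hp
  have hslk : s ∈ lk := by rw [hl, List.mem_append]; exact Or.inr hs
  rcases hK.only s hslk with h | h
  · exact Or.inl h
  · refine Or.inr ⟨h, fun p q hp hq => ?_⟩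
    have hb := hK.box s hslk
    obtain ⟨n1, n2⟩ := hK.free s hslk (hl2 s hs)
    refine (pots_fresh hS hK hw hg hP ?_ (fun h => notMem_lk hg hK h hslk) n1 n2 ?_ ?_ hp hq).1
    · rw [mem_RF]; omega
    · rintro ⟨h1, h2⟩
      by_cases h3 : g.w + g.A / 4 + 2 ≤ s.1
      · have := (hK.side s hslk).1 h3
        omega
      · exact hK.ball₁ s hslk ⟨by rw [abs_le]; omega, by rw [abs_le]; omega⟩
    · rintro ⟨h1, h2⟩
      by_cases h3 : s.1 < -(g.w + g.A / 4 + 2)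
      · have := (hK.side s hslk).2 h3
        omega
      · exact hK.ball₂ s hslk ⟨by rw [abs_le]; omega, by rw [abs_le]; omega⟩

end Pool.Agent.Occ
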