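import Pool.Agent.Lib.MP_6bd702_occ.ZA
import Pool.Agent.Lib.MP_6bd702_perc3.T3Cmp

/-!
# Row ZD: reading of the lifted event in the square grid
-/

set_option autoImplicit false

namespace Pool.Agent.Occ

open Finset Pool.Agent.Perc Pool.Agent.Perc3 Pool.Agent.PercD

/-- The parameters of the event `PX`. -/
def parX (N A Ni Ai σ : ℤ) (m : ℕ) : Par := ⟨N, A, Ni, Ai, 2 * m + 12, σ⟩

namespace ZDAux

/-! ### Chains in rectangles -/

theorem row_chain {x₀ x₁ y₀ y₁ y : ℤ} (hy : y₀ ≤ y) (hy' : y < y₁) {a b : ℤ} (hab : a ≤ b)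
    (ha : x₀ ≤ a) (hb : b < x₁) : Relation.ReflTransGen
      (fun f g : ℤ × ℤ => Adj4 f g ∧ f ∈ RF x₀ x₁ y₀ y₁ ∧ g ∈ RF x₀ x₁ y₀ y₁) (a, y) (b, y) := by
  induction b, hab using Int.leInduction with
  | base => exact Relation.ReflTransGen.refl
  | succ b hb' ih =>
    refine (ih (by omega)).tail ⟨Or.inl ⟨rfl, Or.inl rfl⟩, ?_, ?_⟩ <;>
      (rw [mem_RF]; simp only; omega)

theorem col_chain {x₀ x₁ y₀ y₁ x : ℤ} (hx : x₀ ≤ x) (hx' : x < x₁) {a b : ℤ} (hab : a ≤ b)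
    (ha : y₀ ≤ a) (hb : b < y₁) : Relation.ReflTransGen
      (fun f g : ℤ × ℤ => Adj4 f g ∧ f ∈ RF x₀ x₁ y₀ y₁ ∧ g ∈ RF x₀ x₁ y₀ y₁) (x, a) (x, b) := by
  induction b, hab using Int.leInduction with
  | base => exact Relation.ReflTransGen.refl
  | succ b hb' ih =>
    refine (ih (by omega)).tail ⟨Or.inr ⟨rfl, Or.inl rfl⟩, ?_, ?_⟩ <;>
      (rw [mem_RF]; simp only; omega)

theorem sym_chain {x₀ x₁ y₀ y₁ : ℤ} {f g : ℤ × ℤ} (h : Relation.ReflTransGen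
      (fun f g : ℤ × ℤ => Adj4 f g ∧ f ∈ RF x₀ x₁ y₀ y₁ ∧ g ∈ RF x₀ x₁ y₀ y₁) f g) :
    Relation.ReflTransGen
      (fun f g : ℤ × ℤ => Adj4 f g ∧ f ∈ RF x₀ x₁ y₀ y₁ ∧ g ∈ RF x₀ x₁ y₀ y₁) g f := by
  induction h with
  | refl => exact Relation.ReflTransGen.refl
  | tail _ hs ih => exact Relation.ReflTransGen.head ⟨hs.1.symm, hs.2.2, hs.2.1⟩ ih

/-- A dual path between two faces of a rectangle. -/
theorem rect_list {x₀ x₁ y₀ y₁ : ℤ} {f g : ℤ × ℤ} (hf : f ∈ RF x₀ x₁ y₀ y₁)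
    (hg : g ∈ RF x₀ x₁ y₀ y₁) : ∃ l, IsCh l ∧ l.head? = some f ∧ l.getLast? = some g ∧
      ∀ k ∈ l, k ∈ RF x₀ x₁ y₀ y₁ := by
  refine exists_list (P := fun k => k ∈ RF x₀ x₁ y₀ y₁) hf ?_
  obtain ⟨a, b⟩ := f
  obtain ⟨c, d⟩ := g
  rw [mem_RF] at hf hg
  simp only at hf hg
  refine Relation.ReflTransGen.trans (b := (c, b)) ?_ ?_
  · rcases le_total a c with h | h
    · exact row_chain (by omega) (by omega) h (by omega) (by omega)
    · exact sym_chain (row_chain (by omega) (by omega) h (by omega) (by omega))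
  · rcases le_total b d with h | h
    · exact col_chain (by omega) (by omega) h (by omega) (by omega)
    · exact sym_chain (col_chain (by omega) (by omega) h (by omega) (by omega))

/-! ### The path into the hole -/

/-- The boundary unit edges of the hole. -/
theorem cycE_inj {R k k' : ℤ} (h0 : 0 ≤ k) (h1 : k < 8 * R) (h0' : 0 ≤ k') (h1' : k' < 8 * R)
    (h : Perc6.cycE 0 0 0 R k = Perc6.cycE 0 0 0 R k') : k = k' := by
  unfold Perc6.cycE at h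
  split_ifs at h <;> simp only [Prod.mk.injEq, Bool.true_eq_false, Bool.false_eq_true, and_true,
    and_false] at h <;> omega

theorem cycE_in {R k : ℤ} (hR : 0 < R) (h0 : 0 ≤ k) (h1 : k < 8 * R) :
    (∃ f ∈ BR (0, 0) R, IsSide f (Perc6.cycE 0 0 0 R k)) ∧
      ∃ f, f ∉ BR (0, 0) R ∧ IsSide f (Perc6.cycE 0 0 0 R k) := by
  unfold Perc6.cycE
  split_ifs with c1 c2 c3 c4
  · refine ⟨⟨(R - 1, k), ?_, Or.inr (Or.inr (Or.inr ?_))⟩, (R, k), ?_, Or.inr (Or.inl ?_)⟩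
    · rw [mem_BR]; simp only; omega
    · unfold ri; simp only [Prod.mk.injEq, and_true]; omega
    · rw [mem_BR]; simp only; omega
    · unfold le'; simp only [Prod.mk.injEq, and_true]; omega
  · refine ⟨⟨(2 * R - k - 1, R - 1), ?_, Or.inr (Or.inr (Or.inl ?_))⟩, (2 * R - k - 1, R), ?_,
      Or.inl ?_⟩
    · rw [mem_BR]; simp only; omega
    · unfold to'; simp only [Prod.mk.injEq, and_true]; omega
    · rw [mem_BR]; simp only; omega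
    · unfold bo; simp only [Prod.mk.injEq, and_true]; omega
  · refine ⟨⟨(-R, 4 * R - k - 1), ?_, Or.inr (Or.inl ?_)⟩, (-R - 1, 4 * R - k - 1), ?_,
      Or.inr (Or.inr (Or.inr ?_))⟩
    · rw [mem_BR]; simp only; omega
    · unfold le'; simp only [Prod.mk.injEq, and_true]; omega
    · rw [mem_BR]; simp only; omega
    · unfold ri; simp only [Prod.mk.injEq, and_true]; omega
  · refine ⟨⟨(k - 6 * R, -R), ?_, Or.inl ?_⟩, (k - 6 * R, -R - 1), ?_,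
      Or.inr (Or.inr (Or.inl ?_))⟩
    · rw [mem_BR]; simp only; omega
    · unfold bo; simp only [Prod.mk.injEq, and_true]; omega
    · rw [mem_BR]; simp only; omega
    · unfold to'; simp only [Prod.mk.injEq, and_true]; omega
  · refine ⟨⟨(R - 1, k - 8 * R), ?_, Or.inr (Or.inr (Or.inr ?_))⟩, (R, k - 8 * R), ?_,
      Or.inr (Or.inl ?_)⟩
    · rw [mem_BR]; simp only; omega
    · unfold ri; simp only [Prod.mk.injEq, and_true]; omega
    · rw [mem_BR]; simp only; omega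
    · unfold le'; simp only [Prod.mk.injEq, and_true]; omega

theorem cr_cases {f g : ℤ × ℤ} {R k : ℤ} (h0 : 0 ≤ k) (h1 : k < 8 * R)
    (h : (k < R ∧ f = (R, k) ∧ g = (R - 1, k)) ∨
      (R ≤ k ∧ k < 3 * R ∧ f = (2 * R - k - 1, R) ∧ g = (2 * R - k - 1, R - 1)) ∨
      (3 * R ≤ k ∧ k < 5 * R ∧ f = (-R - 1, 4 * R - k - 1) ∧ g = (-R, 4 * R - k - 1)) ∨
      (5 * R ≤ k ∧ k < 7 * R ∧ f = (k - 6 * R, -R - 1) ∧ g = (k - 6 * R, -R)) ∨
      (7 * R ≤ k ∧ f = (R, k - 8 * R) ∧ g = (R - 1, k - 8 * R))) :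
    Adj4 f g ∧ cr f g = Perc6.cycE 0 0 0 R k := by
  rcases h with ⟨h2, rfl, rfl⟩ | ⟨h2, h3, rfl, rfl⟩ | ⟨h2, h3, rfl, rfl⟩ | ⟨h2, h3, rfl, rfl⟩ |
    ⟨h2, rfl, rfl⟩
  · constructor
    · exact Or.inl ⟨rfl, Or.inr (by simp only; omega)⟩
    · unfold cr Perc6.cycE le' ri to' bo
      simp only
      split_ifs <;> first | omega | (simp only [Prod.mk.injEq, and_true]; omega)
  · constructor
    · exact Or.inr ⟨rfl, Or.inr (by simp only; omega)⟩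
    · unfold cr Perc6.cycE le' ri to' bo
      simp only
      split_ifs <;> first | omega | (simp only [Prod.mk.injEq, and_true]; omega)
  · constructor
    · exact Or.inl ⟨rfl, Or.inl (by simp only; omega)⟩
    · unfold cr Perc6.cycE le' ri to' bo
      simp only
      split_ifs <;> first | omega | (simp only [Prod.mk.injEq, and_true]; omega)
  · constructor
    · exact Or.inr ⟨rfl, Or.inl (by simp only; omega)⟩
    · unfold cr Perc6.cycE le' ri to' bo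
      simp only
      split_ifs <;> first | omega | (simp only [Prod.mk.injEq, and_true]; omega)
  · constructor
    · exact Or.inl ⟨rfl, Or.inr (by simp only; omega)⟩
    · unfold cr Perc6.cycE le' ri to' bo
      simp only
      split_ifs <;> first | omega | (simp only [Prod.mk.injEq, and_true]; omega)

/-- The path into the hole from a straight row. -/
theorem inL_of_row {g : Par} {S : Set (ℤ × ℤ)} {a f₀ g₀ : ℤ × ℤ} {k x₀ x₁ y₀ y₁ : ℤ}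
    (hR : 1 < g.R) (h0 : 0 ≤ k) (h1 : k < 8 * g.R)
    (h : (k < g.R ∧ f₀ = (g.R, k) ∧ g₀ = (g.R - 1, k)) ∨
      (g.R ≤ k ∧ k < 3 * g.R ∧ f₀ = (2 * g.R - k - 1, g.R) ∧ g₀ = (2 * g.R - k - 1, g.R - 1)) ∨
      (3 * g.R ≤ k ∧ k < 5 * g.R ∧ f₀ = (-g.R - 1, 4 * g.R - k - 1) ∧
        g₀ = (-g.R, 4 * g.R - k - 1)) ∨
      (5 * g.R ≤ k ∧ k < 7 * g.R ∧ f₀ = (k - 6 * g.R, -g.R - 1) ∧ g₀ = (k - 6 * g.R, -g.R)) ∨
      (7 * g.R ≤ k ∧ f₀ = (g.R, k - 8 * g.R) ∧ g₀ = (g.R - 1, k - 8 * g.R)))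
    (ha : a ∈ RF x₀ x₁ y₀ y₁) (hf₀ : f₀ ∈ RF x₀ x₁ y₀ y₁)
    (hrow : ∀ f ∈ RF x₀ x₁ y₀ y₁, OutR g.R k f ∧ f ∈ BR (0, 0) (g.d + 2 * g.n + 4) ∧ f ∉ S)
    (hH : ∀ f ∈ S, f ∉ BR (0, 0) g.R) : ∃ l, InL g S a k l := by
  obtain ⟨hadj, hcr⟩ := cr_cases h0 h1 h
  obtain ⟨l, hl1, hl2, hl3, hl4⟩ := rect_list ha hf₀
  have hg₀ : g₀ ∈ RF (-g.R) g.R (-g.R) g.R := by
    rw [mem_RF]
    rcases h with ⟨h2, -, rfl⟩ | ⟨h2, h3, -, rfl⟩ | ⟨h2, h3, -, rfl⟩ | ⟨h2, h3, -, rfl⟩ |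
      ⟨h2, -, rfl⟩ <;> simp only <;> omega
  obtain ⟨l', hl1', hl2', hl3', hl4'⟩ := rect_list (g := (-1, 0)) hg₀ (by
    rw [mem_RF]; simp only; omega)
  have hBR : ∀ f, f ∈ BR (0, 0) g.R ↔ f ∈ RF (-g.R) g.R (-g.R) g.R := by
    intro f
    rw [mem_BR, mem_RF]
    simp only
    omega
  have hout : ∀ f ∈ l, f ∉ BR (0, 0) g.R := by
    intro f hf hb
    have h2 := (hrow f (hl4 f hf)).1
    rw [mem_BR] at hb
    unfold OutR at h2
    simp only at hb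
    omega
  have hne : l ≠ [] := by
    rintro rfl
    simp at hl2
  have hne' : l' ≠ [] := by
    rintro rfl
    simp at hl2'
  refine ⟨l ++ l', ⟨⟨h0, h1⟩, ?_, ?_, ?_, ?_, ?_, ?_⟩⟩
  · refine IsCh.append hl1 hl1' ?_
    intro f f' e1 e2
    rw [hl3] at e1
    rw [hl2'] at e2
    simp only [Option.some.injEq] at e1 e2
    rw [← e1, ← e2]
    exact hadj
  · rw [List.head?_append_of_ne_nil _ hne]
    exact hl2
  · rw [List.getLast?_append_of_ne_nil _ hne']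
    exact hl3'
  · intro f hf
    rcases List.mem_append.1 hf with hf | hf
    · exact (hrow f (hl4 f hf)).2.2
    · intro hS
      exact hH f hS ((hBR f).2 (hl4' f hf))
  · intro f hf
    rcases List.mem_append.1 hf with hf | hf
    · exact Or.inr ⟨(hrow f (hl4 f hf)).1, (hrow f (hl4 f hf)).2.1⟩
    · exact Or.inl ((hBR f).2 (hl4' f hf))
  · intro k' h0' h1'
    rw [xp_append hl3 hl2', hcr]
    obtain ⟨⟨fi, hfi, hsi⟩, fo, hfo, hso⟩ := cycE_in (by omega) h0' h1'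
    rw [xp_side hl1 hsi (fun hh => hout _ hh hfi), xp_side hl1' hso
      (fun hh => hfo ((hBR _).2 (hl4' _ hh))), zero_add, add_zero]
    refine ind2_congr ⟨fun e => cycE_inj h0' h1' h0 h1 e, fun e => by rw [e]⟩


/-! ### The tips -/

theorem par_lin {g : Par} (hg : g.Ok) : g.R = g.d - g.Ai ∧ 100 * g.Ai ≤ g.d ∧ 100 * g.A ≤ g.w ∧
    g.d + 4 * g.Ai ≤ g.A ∧ 100 * g.σ ≤ g.Ai ∧ 8 * g.n ≤ g.σ ∧ 12 ≤ g.n := by
  obtain ⟨h1, h2, h3, h4, h5, h6⟩ := hg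
  have hAi : 0 ≤ g.Ai := by linarith
  have e1 : 100 * g.Ai ≤ g.Ni * g.Ai := mul_le_mul_of_nonneg_right h2 hAi
  have e2 : (g.Ni + 4) * g.Ai = g.Ni * g.Ai + 4 * g.Ai := by ring
  have hA : 0 ≤ g.A := by
    rw [e2] at h6
    linarith
  have e3 : 100 * g.A ≤ g.N * g.A := mul_le_mul_of_nonneg_right h1 hA
  refine ⟨?_, e1, e3, ?_, h5, h4, h3⟩
  · unfold Par.R Par.d
    ring
  · unfold Par.d
    linarith

/-- The relation of the positions on the boundaries of the two boxes. -/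
def KT (d Ai i t k : ℤ) : Prop :=
  (t < d ∧ k = t) ∨ (d ≤ t ∧ t < 3 * d + 2 ∧ k = t - 2 * Ai + i) ∨
  (3 * d + 2 ≤ t ∧ t < 5 * d + 2 ∧ k = t - 4 * Ai - 2) ∨
  (5 * d + 2 ≤ t ∧ t < 7 * d + 3 ∧ k = t - 6 * Ai - 3 - i) ∨
  (7 * d + 3 ≤ t ∧ k = t - 8 * Ai - 3)

theorem mem_LAT' {d w n : ℤ} {s : LF} (h : s ∈ LAT d w n) :
    (((-(w + 2) ≤ s.1.1 + s.2 ∧ s.1.1 + s.2 < w ∧ 0 ≤ s.1.2 ∧ s.1.2 < w) ∨
      (-(w + 1) ≤ s.1.1 + s.2 ∧ s.1.1 + s.2 < w ∧ -w ≤ s.1.2 ∧ s.1.2 < 0)) ∧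
    ¬ ((-(d + 2) ≤ s.1.1 + s.2 ∧ s.1.1 + s.2 < d ∧ 0 ≤ s.1.2 ∧ s.1.2 < d) ∨
      (-(d + 1) ≤ s.1.1 + s.2 ∧ s.1.1 + s.2 < d ∧ -d ≤ s.1.2 ∧ s.1.2 < 0))) ∧
    -n ≤ s.2 ∧ s.2 ≤ n := by
  obtain ⟨⟨h1, h2⟩, h3⟩ := mem_LAT.1 h
  rw [mem_BW] at h1 h2
  unfold pj at h1 h2
  simp only [one_mul] at h1 h2
  exact ⟨⟨h1, h2⟩, abs_le.1 h3⟩

theorem away_lin {d a t : ℤ} (h : Perc.Q.Away d a t) : (a ≤ t ∨ t ≤ -a) ∧
    (a ≤ t - d ∨ t - d ≤ -a) ∧ (a ≤ t - (3 * d + 2) ∨ t - (3 * d + 2) ≤ -a) ∧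
    (a ≤ t - (4 * d + 2) ∨ t - (4 * d + 2) ≤ -a) ∧ (a ≤ t - (5 * d + 2) ∨ t - (5 * d + 2) ≤ -a) ∧
    (a ≤ t - (7 * d + 3) ∨ t - (7 * d + 3) ≤ -a) ∧
    (a ≤ t - (8 * d + 3) ∨ t - (8 * d + 3) ≤ -a) := by
  have key : ∀ z ∈ Perc.Q.spec d, a ≤ t - z ∨ t - z ≤ -a := by
    intro z hz
    have h1 := h z hz
    rw [le_abs] at h1
    omega
  have h0 := key 0 (by simp [Perc.Q.spec])
  rw [sub_zero] at h0
  exact ⟨h0, key _ (by simp [Perc.Q.spec]), key _ (by simp [Perc.Q.spec]),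
    key _ (by simp [Perc.Q.spec]), key _ (by simp [Perc.Q.spec]), key _ (by simp [Perc.Q.spec]),
    key _ (by simp [Perc.Q.spec])⟩

/-- Visited faces in the same row. -/
theorem near_idx {σ : ℤ} {S : Set LF} (hsep : Perc3.Sep (σ - 1) S) {s s' : LF} (hs : s ∈ S)
    (hs' : s' ∈ S) (h2 : s'.1.2 = s.1.2) (h1 : -(σ - 1) ≤ s.1.1 - s'.1.1)
    (h1' : s.1.1 - s'.1.1 ≤ σ - 1) : s'.2 = s.2 := by
  have h3 := hsep s hs s' hs' (abs_le.2 ⟨h1, h1'⟩) (by rw [h2, sub_self, abs_zero]; omega)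
  rw [h2] at h3
  linarith

theorem bdU_cut {d t i : ℤ} (hd : 0 < d) : ¬ IsCut (shE i (bdU d t)) := by
  unfold IsCut shE bdU
  split_ifs <;> simp only [false_and, not_false_eq_true, true_and] <;> omega

/-- What is used of the visited faces. -/
structure Cx (g : Par) (S : Set LF) : Prop where
  eR : g.R = g.d - g.Ai
  hd : 100 * g.Ai ≤ g.d
  hσ : 100 * g.σ ≤ g.Ai
  hn : 8 * g.n ≤ g.σ
  hn1 : 12 ≤ g.n
  idx : ∀ s ∈ S, -g.n ≤ s.2 ∧ s.2 ≤ g.n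
  up : ∀ s ∈ S, 0 ≤ s.1.2 → s.1.2 < g.d → s.1.1 + s.2 < -(g.d + 2) ∨ g.d ≤ s.1.1 + s.2
  low : ∀ s ∈ S, -g.d ≤ s.1.2 → s.1.2 < 0 → s.1.1 + s.2 < -(g.d + 1) ∨ g.d ≤ s.1.1 + s.2
  sep : Perc3.Sep (g.σ - 1) S

theorem cx_of {g : Par} (hg : g.Ok) {S : Set LF} (hS : S ⊆ LAT g.d g.w g.n)
    (hsep : Perc3.Sep (g.σ - 1) S) : Cx g S := by
  obtain ⟨eR, hd, hw, hA, hσ, hn, hn1⟩ := par_lin hg
  refine ⟨eR, hd, hσ, hn, hn1, ?_, ?_, ?_, hsep⟩
  · intro s hs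
    exact (mem_LAT' (mem_coe.1 (hS hs))).2
  · intro s hs h1 h2
    have h3 := (mem_LAT' (mem_coe.1 (hS hs))).1.2
    clear hsep hS
    omega
  · intro s hs h1 h2
    have h3 := (mem_LAT' (mem_coe.1 (hS hs))).1.2
    clear hsep hS
    omega

theorem Cx.hole {g : Par} {S : Set LF} (h : Cx g S) {s : LF} (hs : s ∈ S) :
    s.1 ∉ BR (0, 0) (g.d - g.n - 2) := by
  intro hb
  rw [mem_BR] at hb
  simp only at hb
  have h1 := h.idx s hs
  have h2 := h.up s hs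
  have h3 := h.low s hs
  have h4 := h.hn1
  omega

theorem Cx.holeR {g : Par} {S : Set LF} (h : Cx g S) :
    ∀ f ∈ {f | ∃ s ∈ S, s.1 = f}, f ∉ BR (0, 0) g.R := by
  rintro f ⟨s, hs, rfl⟩ hb
  refine h.hole hs ?_
  have h1 := h.eR
  have h2 := h.hσ
  have h3 := h.hn
  have h4 := h.hn1
  rw [mem_BR] at hb ⊢
  simp only at hb ⊢
  omega

theorem caseR {g : Par} {S : Set LF} (h : Cx g S) {i y k : ℤ} (hi : -g.n ≤ i) (hi' : i ≤ g.n)
    (hk : (k = y ∧ 0 ≤ y ∧ y ≤ g.d - 20 * g.Ai) ∨ (k = y + 8 * g.R ∧ y < 0 ∧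
      -(g.d - 20 * g.Ai) ≤ y)) (hs₀ : ((g.d - i, y), i) ∈ S) :
    ∃ l, InL g {f | ∃ s ∈ S, s.1 = f} (g.d - 1 - i, y) k l := by
  have hH := h.holeR
  obtain ⟨eR, hd, hσ, hn, hn1, idx, up, low, sep⟩ := h
  refine inL_of_row (g := g) (f₀ := (g.R, y)) (g₀ := (g.R - 1, y)) (x₀ := g.R) (x₁ := g.d - i)
    (y₀ := y) (y₁ := y + 1) (by omega) (by omega) (by omega) ?_
      (by rw [mem_RF]; simp only; omega) (by rw [mem_RF]; simp only; omega) ?_ hH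
  · rcases hk with ⟨rfl, h1, h2⟩ | ⟨rfl, h1, h2⟩
    · exact Or.inl ⟨by omega, rfl, rfl⟩
    · exact Or.inr (Or.inr (Or.inr (Or.inr ⟨by omega, by rw [add_sub_cancel_right],
        by rw [add_sub_cancel_right]⟩)))
  · rintro ⟨x, y'⟩ hf
    rw [mem_RF] at hf
    simp only at hf
    obtain rfl : y' = y := by omega
    refine ⟨?_, ?_, ?_⟩
    · unfold OutR
      rcases hk with ⟨rfl, h1, h2⟩ | ⟨rfl, h1, h2⟩
      · exact Or.inl ⟨by omega, by omega, rfl, by simp only; omega⟩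
      · exact Or.inr (Or.inr (Or.inr (Or.inr ⟨by omega, by omega, by simp only; omega,
          by simp only; omega⟩)))
    · rw [mem_BR]; simp only; omega
    · rintro ⟨⟨⟨x', y''⟩, j⟩, hs', e⟩
      simp only [Prod.mk.injEq] at e
      obtain ⟨rfl, rfl⟩ := e
      have h2 := idx _ hs'
      have h3 := up _ hs'
      have h4 := low _ hs'
      simp only at h2 h3 h4
      have h5 := near_idx sep hs₀ hs' rfl (by simp only; omega) (by simp only; omega)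
      simp only at h5
      omega

theorem caseL {g : Par} {S : Set LF} (h : Cx g S) {i y z k : ℤ} (hi : -g.n ≤ i) (hi' : i ≤ g.n)
    (hk : k = 4 * g.R - y - 1) (hy : y ≤ g.d - 10 * g.Ai) (hy' : -(g.d - 10 * g.Ai) ≤ y)
    (hz : (0 ≤ y ∧ z = -(g.d + 2)) ∨ (y < 0 ∧ z = -(g.d + 1)))
    (hs₀ : ((z - 1 - i, y), i) ∈ S) :
    ∃ l, InL g {f | ∃ s ∈ S, s.1 = f} (z - i, y) k l := by
  have hH := h.holeR
  obtain ⟨eR, hd, hσ, hn, hn1, idx, up, low, sep⟩ := h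
  subst hk
  refine inL_of_row (g := g) (f₀ := (-g.R - 1, y)) (g₀ := (-g.R, y)) (x₀ := z - i) (x₁ := -g.R)
    (y₀ := y) (y₁ := y + 1) (by omega) (by omega) (by omega)
      (Or.inr (Or.inr (Or.inl ⟨by omega, by omega, by rw [Prod.mk.injEq]; omega,
        by rw [Prod.mk.injEq]; omega⟩)))
      (by rw [mem_RF]; simp only; omega) (by rw [mem_RF]; simp only; omega) ?_ hH
  rintro ⟨x, y'⟩ hf
  rw [mem_RF] at hf
  simp only at hf
  obtain rfl : y' = y := by omega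
  refine ⟨?_, ?_, ?_⟩
  · exact Or.inr (Or.inr (Or.inl ⟨by omega, by omega, by simp only; omega,
      by simp only; omega⟩))
  · rw [mem_BR]; simp only; omega
  · rintro ⟨⟨⟨x', y''⟩, j⟩, hs', e⟩
    simp only [Prod.mk.injEq] at e
    obtain ⟨rfl, rfl⟩ := e
    have h2 := idx _ hs'
    have h3 := up _ hs'
    have h4 := low _ hs'
    simp only at h2 h3 h4
    have h5 := near_idx sep hs₀ hs' rfl (by simp only; omega) (by simp only; omega)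
    simp only at h5
    omega

theorem caseT {g : Par} {S : Set LF} (h : Cx g S) {x k : ℤ}
    (hk : k = 2 * g.R - x - 1) (hx : x ≤ g.d - 10 * g.Ai) (hx' : -(g.d - 10 * g.Ai) ≤ x) :
    ∃ l, InL g {f | ∃ s ∈ S, s.1 = f} (x, g.d - 1) k l := by
  have hH := h.holeR
  obtain ⟨eR, hd, hσ, hn, hn1, idx, up, low, sep⟩ := h
  subst hk
  refine inL_of_row (g := g) (f₀ := (x, g.R)) (g₀ := (x, g.R - 1)) (x₀ := x) (x₁ := x + 1)
    (y₀ := g.R) (y₁ := g.d) (by omega) (by omega) (by omega)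
      (Or.inr (Or.inl ⟨by omega, by omega, by rw [Prod.mk.injEq]; omega,
        by rw [Prod.mk.injEq]; omega⟩))
      (by rw [mem_RF]; simp only; omega) (by rw [mem_RF]; simp only; omega) ?_ hH
  rintro ⟨x', y⟩ hf
  rw [mem_RF] at hf
  simp only at hf
  obtain rfl : x' = x := by omega
  refine ⟨?_, ?_, ?_⟩
  · exact Or.inr (Or.inl ⟨by omega, by omega, by simp only; omega, by simp only; omega⟩)
  · rw [mem_BR]; simp only; omega
  · rintro ⟨⟨⟨x'', y''⟩, j⟩, hs', e⟩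
    simp only [Prod.mk.injEq] at e
    obtain ⟨rfl, rfl⟩ := e
    have h2 := idx _ hs'
    have h3 := up _ hs'
    simp only at h2 h3
    omega

theorem caseB {g : Par} {S : Set LF} (h : Cx g S) {x k : ℤ}
    (hk : k = x + 6 * g.R) (hx : x ≤ g.d - 10 * g.Ai) (hx' : -(g.d - 10 * g.Ai) ≤ x) :
    ∃ l, InL g {f | ∃ s ∈ S, s.1 = f} (x, -g.d) k l := by
  have hH := h.holeR
  obtain ⟨eR, hd, hσ, hn, hn1, idx, up, low, sep⟩ := h
  subst hk
  refine inL_of_row (g := g) (f₀ := (x, -g.R - 1)) (g₀ := (x, -g.R)) (x₀ := x) (x₁ := x + 1)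
    (y₀ := -g.d) (y₁ := -g.R) (by omega) (by omega) (by omega)
      (Or.inr (Or.inr (Or.inr (Or.inl ⟨by omega, by omega, by rw [Prod.mk.injEq]; omega,
        by rw [Prod.mk.injEq]; omega⟩))))
      (by rw [mem_RF]; simp only; omega) (by rw [mem_RF]; simp only; omega) ?_ hH
  rintro ⟨x', y⟩ hf
  rw [mem_RF] at hf
  simp only at hf
  obtain rfl : x' = x := by omega
  refine ⟨?_, ?_, ?_⟩
  · exact Or.inr (Or.inr (Or.inr (Or.inl ⟨by omega, by omega, by simp only; omega,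
      by simp only; omega⟩)))
  · rw [mem_BR]; simp only; omega
  · rintro ⟨⟨⟨x'', y''⟩, j⟩, hs', e⟩
    simp only [Prod.mk.injEq] at e
    obtain ⟨rfl, rfl⟩ := e
    have h2 := idx _ hs'
    have h3 := low _ hs'
    simp only at h2 h3
    omega

/-- The path into the hole from a tip. -/
theorem tip_inL {g : Par} {S : Set LF} (h : Cx g S) {t i : ℤ} (h0 : 0 ≤ t)
    (h1 : t < 8 * g.d + 3) (haw : Perc.Q.Away g.d (20 * g.Ai) t) {s₀ : LF} (hs₀ : s₀ ∈ S) {a : UE}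
    (hside : IsSide s₀.1 a) (hl : lft s₀ a = bdL g.d t i) :
    ∃ a₁ k l, IsSide a₁ a ∧ KT g.d g.Ai i t k ∧ (-g.n ≤ i ∧ i ≤ g.n) ∧
      (0 ≤ k ∧ k < 8 * g.R) ∧ InL g {f | ∃ s ∈ S, s.1 = f} a₁ k l := by
  have hd := h.hd
  have hσ := h.hσ
  have hn := h.hn
  have hn1 := h.hn1
  obtain ⟨w0, w1, w3, w4, w5, w7, w8⟩ := away_lin haw
  clear haw
  unfold lft bdL at hl
  rw [Prod.mk.injEq] at hl
  obtain ⟨ea, ei⟩ := hl
  rw [if_neg (fun h => bdU_cut (d := g.d) (t := t) (i := -i) (by omega) (ea ▸ h.1))] at ei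
  have hi := h.idx _ hs₀
  have hu := h.up _ hs₀
  have hw := h.low _ hs₀
  obtain ⟨⟨x₀, y₀⟩, i₀⟩ := s₀
  simp only at ei hside hi hu hw
  subst ei
  have hR := h.eR
  suffices hh : ∃ a₁ k l, IsSide a₁ a ∧ KT g.d g.Ai i₀ t k ∧
      InL g {f | ∃ s ∈ S, s.1 = f} a₁ k l by
    obtain ⟨a₁, k, l, k1, k2, k3⟩ := hh
    exact ⟨a₁, k, l, k1, k2, hi, k3.rng, k3⟩
  unfold shE bdU at ea
  by_cases c1 : t < g.d
  · rw [if_pos c1] at ea
    simp only at ea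
    subst ea
    have e0 : x₀ = g.d - i₀ ∧ y₀ = t := by
      clear w0 w1 w3 w4 w5 w7 w8
      unfold IsSide bo le' to' ri at hside
      simp only [Prod.mk.injEq, Bool.true_eq_false, and_false, false_or, and_true] at hside
      omega
    clear hu hw w3 w4 w5 w7 w8
    obtain ⟨rfl, rfl⟩ := e0
    obtain ⟨l, hl⟩ := caseR h (k := y₀) hi.1 hi.2 (Or.inl ⟨rfl, h0, by omega⟩) hs₀
    exact ⟨_, _, l, Or.inr (Or.inr (Or.inr (by
        unfold ri; simp only [Prod.mk.injEq, and_true]; omega))), Or.inl ⟨c1, rfl⟩, hl⟩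
  rw [if_neg c1] at ea
  by_cases c2 : t < 3 * g.d + 2
  · rw [if_pos c2] at ea
    simp only at ea
    subst ea
    have e0 : x₀ = 2 * g.d - t - 1 - i₀ ∧ y₀ = g.d := by
      clear w0 w1 w3 w4 w5 w7 w8
      unfold IsSide bo le' to' ri at hside
      simp only [Prod.mk.injEq, Bool.false_eq_true, and_false, false_or, and_true, or_false]
        at hside
      omega
    clear hu hw w0 w4 w5 w7 w8
    obtain ⟨rfl, rfl⟩ := e0
    obtain ⟨l, hl⟩ := caseT h (x := 2 * g.d - t - 1 - i₀) rfl (by omega) (by omega)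
    exact ⟨_, _, l, Or.inr (Or.inr (Or.inl (by
        unfold to'; simp only [Prod.mk.injEq, and_true]; omega))),
        Or.inr (Or.inl ⟨by omega, c2, by omega⟩), hl⟩
  rw [if_neg c2] at ea
  by_cases c3 : t < 5 * g.d + 2
  · obtain ⟨z, hz, ez⟩ : ∃ z : ℤ, ((t < 4 * g.d + 2 ∧ z = -(g.d + 2)) ∨
        (4 * g.d + 2 ≤ t ∧ z = -(g.d + 1))) ∧ a = (z - i₀, 4 * g.d + 1 - t, true) := by
      by_cases c4 : t < 4 * g.d + 2
      · rw [if_pos c4] at ea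
        exact ⟨_, Or.inl ⟨c4, rfl⟩, by rw [ea]; rfl⟩
      · rw [if_neg c4, if_pos c3] at ea
        exact ⟨_, Or.inr ⟨by omega, rfl⟩, by rw [ea]; rfl⟩
    clear ea
    subst ez
    have e0 : x₀ = z - 1 - i₀ ∧ y₀ = 4 * g.d + 1 - t := by
      clear w0 w1 w3 w4 w5 w7 w8
      unfold IsSide bo le' to' ri at hside
      simp only [Prod.mk.injEq, Bool.true_eq_false, and_false, false_or, and_true] at hside
      omega
    clear hu hw w0 w1 w4 w7 w8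
    obtain ⟨rfl, rfl⟩ := e0
    obtain ⟨l, hl⟩ := caseL h (z := z) (k := 4 * g.R - (4 * g.d + 1 - t) - 1) hi.1 hi.2 rfl
      (by omega) (by omega) (by omega) hs₀
    exact ⟨_, _, l, Or.inr (Or.inl (by unfold le'; simp only)),
        Or.inr (Or.inr (Or.inl ⟨by omega, c3, by omega⟩)), hl⟩
  rw [if_neg (by omega), if_neg c3] at ea
  by_cases c5 : t < 7 * g.d + 3
  · rw [if_pos c5] at ea
    simp only at ea
    subst ea
    have e0 : x₀ = t - 6 * g.d - 3 - i₀ ∧ y₀ = -g.d - 1 := by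
      clear w0 w1 w3 w4 w5 w7 w8
      unfold IsSide bo le' to' ri at hside
      simp only [Prod.mk.injEq, Bool.false_eq_true, and_false, false_or, and_true, or_false]
        at hside
      omega
    clear hu hw w0 w1 w3 w4 w8
    obtain ⟨rfl, rfl⟩ := e0
    obtain ⟨l, hl⟩ := caseB h (x := t - 6 * g.d - 3 - i₀) rfl (by omega) (by omega)
    exact ⟨_, _, l, Or.inl (by
        unfold bo; simp only [Prod.mk.injEq, and_true]; omega),
        Or.inr (Or.inr (Or.inr (Or.inl ⟨by omega, c5, by omega⟩))), hl⟩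
  · rw [if_neg c5] at ea
    simp only at ea
    subst ea
    have e0 : x₀ = g.d - i₀ ∧ y₀ = t - 8 * g.d - 3 := by
      clear w0 w1 w3 w4 w5 w7 w8
      unfold IsSide bo le' to' ri at hside
      simp only [Prod.mk.injEq, Bool.true_eq_false, and_false, false_or, and_true] at hside
      omega
    clear hu hw w0 w1 w3 w4 w5
    obtain ⟨rfl, rfl⟩ := e0
    obtain ⟨l, hl⟩ := caseR h (y := t - 8 * g.d - 3) (k := t - 8 * g.d - 3 + 8 * g.R) hi.1 hi.2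
      (Or.inr ⟨rfl, by omega, by omega⟩) hs₀
    exact ⟨_, _, l, Or.inr (Or.inr (Or.inr (by
        unfold ri; simp only [Prod.mk.injEq, and_true]; omega))),
        Or.inr (Or.inr (Or.inr (Or.inr ⟨by omega, by omega⟩))), hl⟩

/-! ### The components -/

/-- The structure of a lifted component which is compatible with an index. -/
theorem comp {ω : Cfg} {F S₁ D : Set (ℤ × ℤ)} {Ft : Set LF} {N : ℤ × ℤ → ℤ} {ν : UE → ℤ}
    {b x : UE} {i : ℤ} {p₀ q₀ q : ℤ × ℤ} (hI : IsInd F N ν) (hF : ∀ f ∈ F, (f, N f) ∈ Ft)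
    (hS₁ : S₁ = {f | ∃ s ∈ SL (lcf 0 ω) Ft {(b, ν b)}, s.1 = f}) (hSF : S₁ ⊆ F) (hFD : F ⊆ D)
    (hx : (x, i) ∈ ML (lcf 0 ω) Ft {(b, ν b)}) (hxb : x ≠ b) (hp₀ : p₀ ∈ S₁) (hp₀b : IsSide p₀ b)
    (hq₀ : q₀ ∉ D) (hq₀b : IsSide q₀ b) (hq : q ∉ D) (hqx : IsSide q x) :
    (x ∈ MM ω D b) ∧ SS ω D b = S₁ ∧ (∀ a f, f ∉ D → IsSide f a → a ∈ MM ω D b →
      (f = q ∧ a = x) ∨ (f = q₀ ∧ a = b)) := by
  -- projection
  have hproj : ∀ c ∈ ML (lcf 0 ω) Ft {(b, ν b)}, c.1 ∈ MM ω S₁ b := by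
    refine ML_induction ?_ ?_
    · rintro c rfl
      exact mem_MM_self
    · rintro c c' s hs hm hc h1
      have hsS : s ∈ SL (lcf 0 ω) Ft {(b, ν b)} := SL_of_MtL hs hm hc
      obtain ⟨a, a', hm, rfl, rfl⟩ := hm
      rw [Mt_const (lcf_zero ω _)] at hm
      exact MM_step (hS₁ ▸ ⟨s, hsS, rfl⟩) hm h1
  -- lift
  have hlift : ∀ a ∈ MM ω S₁ b, (a, ν a) ∈ ML (lcf 0 ω) Ft {(b, ν b)} := by
    intro a ha
    refine ML_of_MM (hI.mono fun f hf => hSF hf.1) (fun f hf => hF f (hSF hf.1)) ha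
  -- each unit edge has a visited face
  have hadj : ∀ a ∈ MM ω S₁ b, ∃ f ∈ S₁, IsSide f a := by
    intro a ha
    rcases Relation.ReflTransGen.cases_tail ha with h | ⟨c, -, f, hf, hm⟩
    · subst h
      exact ⟨p₀, hp₀, hp₀b⟩
    · exact ⟨f, hf, hm.right⟩
  have hxM : x ∈ MM ω S₁ b := hproj _ hx
  have hS₁D : S₁ ⊆ D := hSF.trans hFD
  have hbD : Perc6.BdU D b := ⟨⟨p₀, hS₁D hp₀, hp₀b⟩, q₀, hq₀, hq₀b⟩
  have hxD : Perc6.BdU D x := by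
    obtain ⟨f, hf, hs⟩ := hadj x hxM
    exact ⟨⟨f, hS₁D hf, hs⟩, q, hq, hqx⟩
  have hbS : Perc6.BdU S₁ b := ⟨⟨p₀, hp₀, hp₀b⟩, q₀, fun h => hq₀ (hS₁D h), hq₀b⟩
  have hxS : Perc6.BdU S₁ x := by
    obtain ⟨f, hf, hs⟩ := hadj x hxM
    exact ⟨⟨f, hf, hs⟩, q, fun h => hq (hS₁D h), hqx⟩
  have heq : MM ω D b = MM ω S₁ b :=
    Perc6.MM_eq_of_two hS₁D mem_MM_self hxM hxb.symm hbD hxD
  -- the faces of a unit edge
  have htwo : ∀ {f g h : ℤ × ℤ} {a : UE}, IsSide f a → IsSide g a → IsSide h a → f ≠ g → h ≠ g →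
      f = h := by
    intro f g h a h1 h2 h3 h4 h5
    rcases Perc6.C2Aux.eq_ahead h1 with e1 | e1 <;> rcases Perc6.C2Aux.eq_ahead h2 with e2 | e2 <;>
      rcases Perc6.C2Aux.eq_ahead h3 with e3 | e3 <;> first
      | exact e1.trans e3.symm
      | exact absurd (e1.trans e2.symm) h4
      | exact absurd (e3.trans e2.symm) h5
  have hends : ∀ a f, f ∉ S₁ → IsSide f a → a ∈ MM ω S₁ b → (f = q ∧ a = x) ∨
      (f = q₀ ∧ a = b) := by
    intro a f hf hs ha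
    obtain ⟨g, hg, hgs⟩ := hadj a ha
    have haS : Perc6.BdU S₁ a := ⟨⟨g, hg, hgs⟩, f, hf, hs⟩
    have hfg : f ≠ g := fun h => hf (h ▸ hg)
    rcases Perc6.bdU_le_two mem_MM_self hxM ha hbS hxS haS with h | h | h
    · exact absurd h.symm hxb
    · subst h
      right
      refine ⟨htwo hs hgs hq₀b hfg ?_, rfl⟩
      intro h
      exact hq₀ (hS₁D (h ▸ hg))
    · subst h
      left
      refine ⟨htwo hs hgs hqx hfg ?_, rfl⟩
      intro h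
      exact hq (hS₁D (h ▸ hg))
  refine ⟨heq ▸ hxM, ?_, ?_⟩
  · ext f
    constructor
    · rintro ⟨hfD, a, ha, hs⟩
      rw [heq] at ha
      by_contra hf
      rcases hends a f hf hs ha with ⟨rfl, -⟩ | ⟨rfl, -⟩
      · exact hq hfD
      · exact hq₀ hfD
    · intro hf
      have hf' := hf
      rw [hS₁] at hf'
      obtain ⟨s, ⟨hs, a, ha, hl⟩, rfl⟩ := hf'
      refine ⟨hS₁D hf, a, ?_, ha⟩
      rw [heq]
      exact hproj _ hl
  · intro a f hf hs ha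
    rw [heq] at ha
    exact hends a f (fun h => hf (hS₁D h)) hs ha

/-- The index of the visited faces. -/
theorem exists_ind {S : Set LF} {σ : ℤ} (hσ : 2 ≤ σ) (hsep : Perc3.Sep (σ - 1) S)
    (h0 : ∀ s ∈ S, s.1 ≠ (-1, 0) ∧ s.1 ≠ (-1, -1)) :
    ∃ N ν, IsInd {f | ∃ s ∈ S, s.1 = f} N ν ∧ ∀ s ∈ S, N s.1 = s.2 := by
  classical
  have huniq : ∀ s ∈ S, ∀ s' ∈ S, s.1 = s'.1 → s.2 = s'.2 := by
    intro s hs s' hs' h
    refine near_idx hsep hs' hs (by rw [h]) ?_ ?_ <;> rw [h] <;> omega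
  have hcomp : ∀ s ∈ S, ∀ s' ∈ S, ∀ a, IsSide s.1 a → IsSide s'.1 a → lft s a = lft s' a := by
    have key : ∀ s ∈ S, ∀ s' ∈ S, ∀ a, IsSide s.1 a → IsSide s'.1 a → s.1.1 ≤ s'.1.1 →
        s'.1.2 ≤ s.1.2 → lft s a = lft s' a := by
      intro s hs s' hs' a h1 h2 h3 h4
      by_cases he : s.1 = s'.1
      · have h5 := huniq s hs s' hs' he
        rw [Prod.ext he h5]
      have hz := h0 s hs
      have hz' := h0 s' hs'
      obtain ⟨⟨x, y⟩, i⟩ := s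
      obtain ⟨⟨x', y'⟩, i'⟩ := s'
      simp only at h1 h2 h3 h4 he hz hz'
      have hne : x ≠ x' ∨ y ≠ y' := by
        by_contra hc
        rw [not_or, not_not, not_not] at hc
        exact he (by rw [hc.1, hc.2])
      have hgeo : (x' = x + 1 ∧ y' = y ∧ a = (x', y, true)) ∨
          (x' = x ∧ y' = y - 1 ∧ a = (x, y, false)) := by
        obtain ⟨u, v, c⟩ := a
        unfold IsSide bo le' to' ri at h1 h2
        simp only [Prod.mk.injEq] at h1 h2 ⊢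
        cases c
        · simp only [Bool.false_eq_true, and_false, false_or, and_true, or_false] at h1 h2 ⊢
          omega
        · simp only [Bool.true_eq_false, and_false, false_or, and_true, or_false] at h1 h2 ⊢
          omega
      rcases hgeo with ⟨rfl, rfl, rfl⟩ | ⟨rfl, rfl, rfl⟩
      · have h5 := near_idx hsep hs hs' rfl (by simp only; omega) (by simp only; omega)
        simp only at h5
        unfold lft IsCut
        simp only [Bool.true_eq_false, false_and, if_false, h5]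
      · have h5 := hsep _ hs _ hs' (by simp only; rw [abs_le]; omega)
          (by simp only; rw [abs_le]; omega)
        simp only [ne_eq, Prod.mk.injEq, not_and] at hz hz'
        unfold lft IsCut
        unfold lv at h5
        simp only [true_and, Prod.mk.injEq] at h5 ⊢
        split_ifs at h5 ⊢ <;> omega
    intro s hs s' hs' a h1 h2
    have hgeo : (s.1.1 ≤ s'.1.1 ∧ s'.1.2 ≤ s.1.2) ∨ (s'.1.1 ≤ s.1.1 ∧ s.1.2 ≤ s'.1.2) := by
      obtain ⟨⟨x, y⟩, i⟩ := s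
      obtain ⟨⟨x', y'⟩, i'⟩ := s'
      obtain ⟨u, v, c⟩ := a
      unfold IsSide bo le' to' ri at h1 h2
      simp only [Prod.mk.injEq] at h1 h2 ⊢
      cases c
      · simp only [Bool.false_eq_true, and_false, false_or, and_true, or_false] at h1 h2 ⊢
        omega
      · simp only [Bool.true_eq_false, and_false, false_or, and_true] at h1 h2 ⊢
        omega
    rcases hgeo with h | h
    · exact key s hs s' hs' a h1 h2 h.1 h.2
    · exact (key s' hs' s hs a h2 h1 h.1 h.2).symm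
  refine ⟨fun f => if h : ∃ i, (f, i) ∈ S then h.choose else 0,
    fun a => if h : ∃ s ∈ S, IsSide s.1 a then (lft h.choose a).2 else 0, ?_, ?_⟩
  · rintro f ⟨s, hs, rfl⟩ a ha
    have h1 : ∃ i, (s.1, i) ∈ S := ⟨s.2, hs⟩
    have h2 : ∃ s ∈ S, IsSide s.1 a := ⟨s, hs, ha⟩
    beta_reduce
    rw [dif_pos h1, dif_pos h2]
    have h3 := hcomp _ h1.choose_spec _ h2.choose_spec.1 a ha h2.choose_spec.2
    rw [h3]
    rfl
  · intro s hs
    have h1 : ∃ i, (s.1, i) ∈ S := ⟨s.2, hs⟩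
    simp only
    rw [dif_pos h1]
    exact huniq _ h1.choose_spec _ hs rfl

/-- An element of a component other than the start has a visited face. -/
theorem exists_face {ζ : LF → Bool} {Ft : Set LF} {e c : LE} (hc : c ∈ ML ζ Ft {e}) (hne : c ≠ e) :
    ∃ s ∈ SL ζ Ft {e}, ∃ a, IsSide s.1 a ∧ lft s a = c := by
  obtain ⟨e', he', hr⟩ := hc
  rw [Set.mem_singleton_iff] at he'
  subst he'
  rcases Relation.ReflTransGen.cases_tail hr with h | ⟨c', hc', s, hs, hm⟩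
  · exact absurd h hne
  · obtain ⟨a, a', hm, rfl, rfl⟩ := hm
    exact ⟨s, ⟨hs, a, hm.left, ⟨_, rfl, hc'⟩⟩, a', hm.right, rfl⟩

theorem sep_of_near {g : Par} (hg : g.Ok) {t₁ t₂ i₁ i₂ k₁ k₂ : ℤ} (h1 : KT g.d g.Ai i₁ t₁ k₁)
    (h2 : KT g.d g.Ai i₂ t₂ k₂) (hi₁ : -g.n ≤ i₁ ∧ i₁ ≤ g.n) (hi₂ : -g.n ≤ i₂ ∧ i₂ ≤ g.n)
    (hn : ¬ Perc.Q.Near g.d (20 * g.Ai) t₁ t₂) :
    10 * g.Ai ≤ |k₁ - k₂| ∧ |k₁ - k₂| ≤ 8 * g.R - 10 * g.Ai := by
  obtain ⟨eR, hd, -, -, hσ, hn1, hn2⟩ := par_lin hg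
  unfold Perc.Q.Near at hn
  rw [not_or, not_lt, not_lt, le_abs, abs_le] at hn
  rw [le_abs, abs_le, eR]
  unfold KT at h1 h2
  rcases h1 with h1 | h1 | h1 | h1 | h1 <;> rcases h2 with h2 | h2 | h2 | h2 | h2 <;> omega

/-- The positions are not near the corners of the hole. -/
theorem cor_of {g : Par} (hg : g.Ok) {t i k : ℤ} (h1 : KT g.d g.Ai i t k)
    (hi : -g.n ≤ i ∧ i ≤ g.n) (haw : Perc.Q.Away g.d (20 * g.Ai) t) :
    ∀ j : ℤ, (j = 1 ∨ j = 3 ∨ j = 5 ∨ j = 7) → 10 * g.Ai ≤ |k - j * g.R| := by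
  obtain ⟨eR, hd, -, -, hσ, hn1, hn2⟩ := par_lin hg
  obtain ⟨w0, w1, w3, w4, w5, w7, w8⟩ := away_lin haw
  clear haw
  rw [eR]
  unfold KT at h1
  intro j hj
  rw [le_abs]
  rcases hj with rfl | rfl | rfl | rfl <;> rcases h1 with h1 | h1 | h1 | h1 | h1 <;> omega

theorem bdU_bd {d t : ℤ} (hd : 0 < d) (h0 : 0 ≤ t) (h1 : t < 8 * d + 3) :
    -(d + 2) ≤ (bdU d t).1 ∧ (bdU d t).1 ≤ d := by
  unfold bdU
  split_ifs <;> simp only <;> omega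

/-- One of the two strands. -/
theorem path {g : Par} {ω : Cfg} {S : Set LF} (h : Cx g S) (hSL : S ⊆ LAT g.d g.w g.n) {b : UE}
    {p : ℤ × ℤ} {N : ℤ × ℤ → ℤ} {ν : UE → ℤ} (hb : g.d + g.n + 3 ≤ b.1 ∨ b.1 ≤ -(g.d + g.n + 3))
    (hsub : SL (lcf 0 ω) (LAT g.d g.w g.n) {(b, 0)} ⊆ S)
    (hI : IsInd {f | ∃ s ∈ S, s.1 = f} N ν) (hN : ∀ s ∈ S, N s.1 = s.2)
    (hR : RinT (lcf 0 ω) g.d g.w g.n (b, 0))
    (haw : ∀ s i, 0 ≤ s → s < 8 * g.d + 3 → bdL g.d s i ∈ ML (lcf 0 ω) (LAT g.d g.w g.n) {(b, 0)} →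
      Perc.Q.Away g.d (20 * g.Ai) s)
    (hp : (p, 0) ∈ LAT g.d g.w g.n) (hpb : IsSide p b) (hcut : ¬ IsCut b) :
    ∃ (a₁ : ℤ × ℤ) (x₁ : UE) (k₁ : ℤ) (l₁ : List (ℤ × ℤ)) (t i : ℤ),
      (0 ≤ t ∧ t < 8 * g.d + 3 ∧ bdL g.d t i ∈ ML (lcf 0 ω) (LAT g.d g.w g.n) {(b, 0)}) ∧
      (-(g.d + g.n + 2) ≤ x₁.1 ∧ x₁.1 ≤ g.d + g.n) ∧ IsSide a₁ x₁ ∧ KT g.d g.Ai i t k₁ ∧
      (-g.n ≤ i ∧ i ≤ g.n) ∧ InL g {f | ∃ s ∈ S, s.1 = f} a₁ k₁ l₁ ∧
      ∀ (D : Set (ℤ × ℤ)) (q₀ : ℤ × ℤ), {f | ∃ s ∈ S, s.1 = f} ⊆ D → q₀ ∉ D → IsSide q₀ b →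
        a₁ ∉ D → x₁ ∈ MM ω D b ∧
        SS ω D b = {f | ∃ s ∈ SL (lcf 0 ω) (LAT g.d g.w g.n) {(b, 0)}, s.1 = f} ∧
        (∀ a f, f ∉ D → IsSide f a → a ∈ MM ω D b → (f = a₁ ∧ a = x₁) ∨ (f = q₀ ∧ a = b)) := by
  obtain ⟨t, i, ⟨h0, h1⟩, hm⟩ := hR
  have hd := h.hd
  have hσ := h.hσ
  have hn := h.hn
  have hn1 := h.hn1
  have hbd := bdU_bd (d := g.d) (by omega) h0 h1
  have hne : bdL g.d t i ≠ (b, 0) := by
    intro he
    unfold bdL shE at he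
    rw [Prod.mk.injEq] at he
    obtain ⟨e1, e2⟩ := he
    subst e2
    rw [← e1] at hb
    simp only at hb
    omega
  obtain ⟨s₀, hs₀, a, hside, hl⟩ := exists_face hm hne
  obtain ⟨a₁, k, l, hs₁, hk, hi, hkr, hin⟩ := tip_inL h h0 h1 (haw t i h0 h1 hm) (hsub hs₀) hside hl
  have hax : a = (bdL g.d t i).1 := by
    rw [← hl]; rfl
  have hx : -(g.d + g.n + 2) ≤ a.1 ∧ a.1 ≤ g.d + g.n := by
    rw [hax]
    unfold bdL shE
    simp only
    omega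
  have hab : a ≠ b := by
    rintro rfl
    omega
  have hp₀ : (p, 0) ∈ SL (lcf 0 ω) (LAT g.d g.w g.n) {(b, 0)} := by
    refine ⟨mem_coe.2 hp, b, hpb, ?_⟩
    have : lft (p, 0) b = (b, 0) := by
      unfold lft
      rw [if_neg (fun hh => hcut hh.1)]
    rw [this]
    exact mem_ML_of_mem rfl
  have hν : ν b = 0 := by
    have h2 := hI p ⟨_, hsub hp₀, rfl⟩ b hpb
    have h3 := hN _ (hsub hp₀)
    simp only at h3
    rw [h3] at h2
    unfold lft at h2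
    rw [if_neg (fun hh => hcut hh.1), Prod.mk.injEq] at h2
    exact h2.2.symm
  refine ⟨a₁, a, k, l, t, i, ⟨h0, h1, hm⟩, hx, hs₁, hk, hi, hin, ?_⟩
  intro D q₀ hD hq₀ hq₀b ha₁
  refine comp (ω := ω) (F := {f | ∃ s ∈ S, s.1 = f})
    (S₁ := {f | ∃ s ∈ SL (lcf 0 ω) (LAT g.d g.w g.n) {(b, 0)}, s.1 = f})
    (Ft := LAT g.d g.w g.n) (N := N) (ν := ν) (i := i) (p₀ := p) hI ?_ (by rw [hν]) ?_ hD ?_ hab
    ⟨_, hp₀, rfl⟩ hpb hq₀ hq₀b ha₁ hs₁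
  · rintro f ⟨s, hs, rfl⟩
    rw [hN s hs]
    exact hSL hs
  · rintro f ⟨s, hs, rfl⟩
    exact ⟨s, hsub hs, rfl⟩
  · rw [hν]
    have : (a, i) = bdL g.d t i := by
      rw [hax]; rfl
    rw [this]
    exact hm

theorem eR_eq {w y : ℤ} (h : y < w) : eR w y = (tR w y, 0) := by
  unfold eR bdL bdU shE tR
  rw [if_pos h]
  simp

theorem eLf_eq {w y : ℤ} (h0 : 0 ≤ y) (h : y < w) : eLf w y = (tL w y, 0) := by
  unfold eLf bdL bdU shE tL
  rw [if_neg (by omega), if_neg (by omega), if_pos (by omega)]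
  simp

end ZDAux

open ZDAux

theorem reading {N A Ni Ai σ : ℤ} {m : ℕ} (hg : (parX N A Ni Ai σ m).Ok) {ω : Cfg} {ya yb : ℤ}
    (hp : (ya, yb) ∈ Ports (N * A)) (h : lcf 0 ω ∈ PX N A Ni Ai σ m ya yb) :
    ∃ a₁ a₂ x₁ x₂ k₁ k₂ l₁ l₂, StrZ (parX N A Ni Ai σ m) ω ya yb a₁ a₂ x₁ x₂ k₁ k₂ l₁ l₂
      (SPZ (N * A) (Ni * Ai) (2 * m + 12) ya yb ω) := by
  obtain ⟨hP, hX⟩ := h
  obtain ⟨eR', hd, hw, hA, hσ, hn, hn1⟩ := par_lin hg
  have hyp := hp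
  unfold Ports at hyp
  rw [mem_filter, mem_product, mem_Ico, mem_Ico] at hyp
  simp only at hyp
  obtain ⟨⟨⟨ya0, ya1⟩, yb0, yb1⟩, ya2, ya3, yb2, yb3, -⟩ := hyp
  set g := parX N A Ni Ai σ m with hgdef
  have gw : g.w = N * A := rfl
  have gd : g.d = Ni * Ai := rfl
  have gn : g.n = 2 * m + 12 := rfl
  have gσ : g.σ = σ := rfl
  have gA : g.A = A := rfl
  have gAi : g.Ai = Ai := rfl
  rw [← gw] at ya1 yb1 ya2 ya3 yb2 yb3
  -- the set of the visited lifted faces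
  obtain ⟨S, hSdef⟩ : ∃ S : Set LF, S = SL (lcf 0 ω) (LAT g.d g.w g.n)
    ({eR g.w ya} ∪ {eLf g.w yb}) := ⟨_, rfl⟩
  have hSL : S ⊆ LAT g.d g.w g.n := hSdef ▸ SL_sub
  have hsep : Perc3.Sep (g.σ - 1) S := by
    rw [hSdef]
    exact sep_pairT (L := g.w + g.σ) (d₀ := g.d - g.σ) (m := m) (t₁ := ya)
      (t₂ := 4 * g.w + 1 - yb) (ε := 0) (by omega) (by omega) (by omega) (by omega) hP
  have hcx : Cx g S := cx_of hg hSL hsep
  have hSPZ : SPZ (N * A) (Ni * Ai) (2 * m + 12) ya yb ω = {f | ∃ s ∈ S, s.1 = f} := by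
    rw [hSdef]; rfl
  rw [hSPZ]
  have hSu : S = SL (lcf 0 ω) (LAT g.d g.w g.n) {eR g.w ya} ∪
      SL (lcf 0 ω) (LAT g.d g.w g.n) {eLf g.w yb} := by
    rw [hSdef, SL_union]
  have hb₁ : ∀ s ∈ S, |s.1.1 - g.w| ≤ 6 * g.A → |s.1.2 - ya| ≤ 6 * g.A → s.2 = 0 := by
    rw [hSdef]; exact hX.ball₁
  have hb₂ : ∀ s ∈ S, |s.1.1 + g.w| ≤ 6 * g.A → |s.1.2 - yb| ≤ 6 * g.A → s.2 = 0 := by
    rw [hSdef]; exact hX.ball₂
  have near₁ : ∀ f ∈ {f | ∃ s ∈ S, s.1 = f}, |f.1 - g.w| ≤ 5 * g.A → |f.2 - ya| ≤ 5 * g.A →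
      f.1 < g.w := by
    rintro f ⟨s, hs, rfl⟩ h1 h2
    have h3 := hb₁ s hs (by linarith [abs_nonneg (s.1.1 - g.w)])
      (by linarith [abs_nonneg (s.1.1 - g.w)])
    have h4 := (mem_LAT' (mem_coe.1 (hSL hs))).1.1
    rw [h3] at h4
    omega
  have near₂ : ∀ f ∈ {f | ∃ s ∈ S, s.1 = f}, |f.1 + g.w| ≤ 5 * g.A → |f.2 - yb| ≤ 5 * g.A →
      -(g.w + 2) ≤ f.1 := by
    rintro f ⟨s, hs, rfl⟩ h1 h2
    have h3 := hb₂ s hs (by linarith [abs_nonneg (s.1.1 + g.w)])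
      (by linarith [abs_nonneg (s.1.1 + g.w)])
    have h4 := (mem_LAT' (mem_coe.1 (hSL hs))).1.1
    rw [h3] at h4
    omega
  obtain ⟨N', ν, hI, hN⟩ := exists_ind (S := S) (σ := g.σ) (by omega) hsep (fun s hs => by
    have h1 := hcx.hole hs
    rw [mem_BR] at h1
    simp only at h1
    constructor
    · intro he
      rw [he] at h1
      simp only at h1
      omega
    · intro he
      rw [he] at h1
      simp only at h1
      omega)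
  have heR : eR g.w ya = (tR g.w ya, 0) := eR_eq ya1
  have heL : eLf g.w yb = (tL g.w yb, 0) := eLf_eq yb0 yb1
  have hR₁ : RinT (lcf 0 ω) g.d g.w g.n (eR g.w ya) := hP.1
  have hR₂ : RinT (lcf 0 ω) g.d g.w g.n (eLf g.w yb) := hP.2.1
  rw [heR] at hR₁
  rw [heL] at hR₂
  have hin₁ : ((g.w - 1, ya), 0) ∈ LAT g.d g.w g.n := by
    rw [mem_LAT, mem_BW, mem_BW]
    unfold pj
    simp only [abs_zero]
    omega
  have hin₂ : ((-(g.w + 2), yb), 0) ∈ LAT g.d g.w g.n := by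
    rw [mem_LAT, mem_BW, mem_BW]
    unfold pj
    simp only [abs_zero]
    omega
  have hcR : ¬ IsCut (tR g.w ya) := by
    unfold IsCut tR
    simp
  have hcL : ¬ IsCut (tL g.w yb) := by
    unfold IsCut tL
    simp
  have haw₁ : ∀ s i, 0 ≤ s → s < 8 * g.d + 3 →
      bdL g.d s i ∈ ML (lcf 0 ω) (LAT g.d g.w g.n) {(tR g.w ya, 0)} →
      Perc.Q.Away g.d (20 * g.Ai) s := by
    rw [← heR]
    exact hX.away₁
  have haw₂ : ∀ s i, 0 ≤ s → s < 8 * g.d + 3 →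
      bdL g.d s i ∈ ML (lcf 0 ω) (LAT g.d g.w g.n) {(tL g.w yb, 0)} →
      Perc.Q.Away g.d (20 * g.Ai) s := by
    rw [← heL]
    exact hX.away₂
  have hsub₁ : SL (lcf 0 ω) (LAT g.d g.w g.n) {(tR g.w ya, 0)} ⊆ S := by
    rw [← heR, hSu]
    exact Set.subset_union_left
  have hsub₂ : SL (lcf 0 ω) (LAT g.d g.w g.n) {(tL g.w yb, 0)} ⊆ S := by
    rw [← heL, hSu]
    exact Set.subset_union_right
  obtain ⟨a₁, x₁, k₁, l₁, t₁, i₁, ⟨ht₁, ht₁', hm₁⟩, hx₁, hs₁, hK₁, hi₁, hl₁, hc₁⟩ :=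
    path (ω := ω) (b := tR g.w ya) (p := (g.w - 1, ya)) hcx hSL (by unfold tR; simp only; omega)
      hsub₁ hI hN hR₁ haw₁ hin₁ (Or.inr (Or.inr (Or.inr (by
        unfold tR ri; simp only [sub_add_cancel])))) hcR
  obtain ⟨a₂, x₂, k₂, l₂, t₂, i₂, ⟨ht₂, ht₂', hm₂⟩, hx₂, hs₂, hK₂, hi₂, hl₂, hc₂⟩ :=
    path (ω := ω) (b := tL g.w yb) (p := (-(g.w + 2), yb)) hcx hSL (by unfold tL; simp only; omega)
      hsub₂ hI hN hR₂ haw₂ hin₂ (Or.inr (Or.inl (by unfold tL le'; simp only))) hcL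
  have hD : {f | ∃ s ∈ S, s.1 = f} ⊆ DZ g.w ya yb a₁ a₂ := by
    intro f hf
    refine ⟨?_, ?_, ?_, ?_⟩
    · rintro rfl
      exact hl₁.fresh _ (List.mem_of_mem_head? hl₁.head) hf
    · rintro rfl
      exact hl₂.fresh _ (List.mem_of_mem_head? hl₂.head) hf
    · rintro rfl
      have h1 := near₁ _ hf (by simp only; rw [abs_le]; omega) (by simp only; rw [abs_le]; omega)
      simp only at h1
      omega
    · rintro rfl
      have h1 := near₂ _ hf (by simp only; rw [abs_le]; omega) (by simp only; rw [abs_le]; omega)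
      simp only at h1
      omega
  have hn₁ : a₁ ∉ DZ g.w ya yb a₁ a₂ := fun h => h.1 rfl
  have hn₂ : a₂ ∉ DZ g.w ya yb a₁ a₂ := fun h => h.2.1 rfl
  have hn₃ : (g.w, ya) ∉ DZ g.w ya yb a₁ a₂ := fun h => h.2.2.1 rfl
  have hn₄ : (-(g.w + 3), yb) ∉ DZ g.w ya yb a₁ a₂ := fun h => h.2.2.2 rfl
  have hsR : IsSide (g.w, ya) (tR g.w ya) := Or.inr (Or.inl rfl)
  have hsL : IsSide (-(g.w + 3), yb) (tL g.w yb) := by
    refine Or.inr (Or.inr (Or.inr ?_))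
    unfold tL ri
    simp only [Prod.mk.injEq, and_true]
    omega
  obtain ⟨m₁, v₁, e₁⟩ := hc₁ _ _ hD hn₃ hsR hn₁
  obtain ⟨m₂, v₂, e₂⟩ := hc₂ _ _ hD hn₄ hsL hn₂
  have hnot : ∀ f, (f = a₁ ∨ f = a₂ ∨ f = (g.w, ya) ∨ f = (-(g.w + 3), yb)) →
      f ∉ DZ g.w ya yb a₁ a₂ := by
    rintro f (rfl | rfl | rfl | rfl)
    · exact hn₁
    · exact hn₂
    · exact hn₃
    · exact hn₄
  refine ⟨a₁, a₂, x₁, x₂, k₁, k₂, l₁, l₂, ⟨hp, m₁, m₂, hs₁, hs₂,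
    fun a f hf hs ha => e₁ a f (hnot f hf) hs ha, fun a f hf hs ha => e₂ a f (hnot f hf) hs ha,
    ?_, ?_, ?_, ?_, near₁, near₂, hl₁, hl₂, ?_, fun j hj =>
      ⟨cor_of hg hK₁ hi₁ (haw₁ t₁ i₁ ht₁ ht₁' hm₁) j hj,
        cor_of hg hK₂ hi₂ (haw₂ t₂ i₂ ht₂ ht₂' hm₂) j hj⟩⟩⟩
  · intro hm
    rcases e₁ _ _ hn₄ hsL hm with ⟨-, h1⟩ | ⟨-, h1⟩
    · rw [← h1] at hx₁
      unfold tL at hx₁
      simp only at hx₁
      omega
    · unfold tL tR at h1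
      rw [Prod.mk.injEq] at h1
      omega
  · rw [v₁, v₂, hSu, heR, heL]
    ext f
    constructor
    · rintro (⟨s, hs, rfl⟩ | ⟨s, hs, rfl⟩)
      · exact ⟨s, Or.inl hs, rfl⟩
      · exact ⟨s, Or.inr hs, rfl⟩
    · rintro ⟨s, hs | hs, rfl⟩
      · exact Or.inl ⟨s, hs, rfl⟩
      · exact Or.inr ⟨s, hs, rfl⟩
  · rintro f ⟨s, hs, rfl⟩
    have h1 := mem_LAT' (mem_coe.1 (hSL hs))
    omega
  · rintro f ⟨s, hs, rfl⟩
    exact hcx.hole hs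
  · refine sep_of_near hg hK₁ hK₂ hi₁ hi₂ ?_
    rw [← heR] at hm₁
    rw [← heL] at hm₂
    exact hX.near t₁ i₁ t₂ i₂ ht₁ ht₁' hm₁ ht₂ ht₂' hm₂

/-- The visited faces form a stopping set. -/
theorem stop_SPZ (w d n ya yb : ℤ) (ω ω' : Cfg) (h : ∀ f ∈ SPZ w d n ya yb ω, ω f = ω' f) :
    SPZ w d n ya yb ω' = SPZ w d n ya yb ω := by
  have h1 := stopping_SL (LAT d w n : Set LF) ({eR w ya} ∪ {eLf w yb}) (lcf 0 ω) (lcf 0 ω')
    (fun s hs => by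
      rw [lcf_zero, lcf_zero]
      exact h s.1 ⟨s, hs, rfl⟩)
  unfold SPZ
  simp only at h1
  rw [h1]

end Pool.Agent.Occ
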