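import Pool.Agent.Lib.MP_6bd702_occ.PtDefs
import Pool.Agent.Lib.MP_6bd702_occ.XDefs
import Pool.Agent.Lib.MP_6bd702_perc6.Tube
import Pool.Agent.Lib.MP_6bd702_perc6.Core

/-!
# The window closing: definitions

Cochains mod 2 on the unit edges, dual paths, potentials; the reading of the lifted event in the
square grid (`StrZ`), the corridor as a list of faces (`KapZ`), the tubes.
-/

set_option autoImplicit false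

namespace Pool.Agent.Occ

open Finset Pool.Agent.Perc Pool.Agent.Perc3 Pool.Agent.PercD

/-! ### Cochains mod 2 -/

/-- Cochains. -/
abbrev Co := UE → ZMod 2

/-- The sum over the sides of a face. -/
def bdC (c : Co) (f : ℤ × ℤ) : ZMod 2 := c (bo f) + c (ri f) + (c (to' f) + c (le' f))

/-- `Φ` is a potential of `c` on the faces of `F`. -/
def PotC (F : Set (ℤ × ℤ)) (c : Co) (Φ : ℤ × ℤ → ZMod 2) : Prop :=
  ∀ f ∈ F, ∀ a, IsSide f a → Φ (ub a) = Φ (ua a) + c a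

/-- The indicator of a set of unit edges. -/
noncomputable def cM (M : Set UE) : Co := fun a => ind2 (a ∈ M)

/-- The common side of two neighbouring faces. -/
def cr (f g : ℤ × ℤ) : UE :=
  if g.1 = f.1 + 1 then ri f else if f.1 = g.1 + 1 then le' f else
    if g.2 = f.2 + 1 then to' f else bo f

/-- The unit edges crossed by a dual path, mod 2. -/
noncomputable def xp : List (ℤ × ℤ) → Co
  | [] => fun _ => 0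
  | [_] => fun _ => 0
  | f :: g :: l => fun a => ind2 (a = cr f g) + xp (g :: l) a

/-- The faces of the list are neighbours. -/
def IsCh : List (ℤ × ℤ) → Prop
  | [] => True
  | [_] => True
  | f :: g :: l => Adj4 f g ∧ IsCh (g :: l)

/-! ### Parameters -/

/-- Outer box of radius `w = N A`, inner box of radius `d = Ni Ai`, hole of radius
`R = (Ni - 1) Ai`, bound `n` of the indices, width `σ` of the corridor. -/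
structure Par where
  N : ℤ
  A : ℤ
  Ni : ℤ
  Ai : ℤ
  n : ℤ
  σ : ℤ

namespace Par

variable (g : Par)

/-- Outer radius. -/
def w : ℤ := g.N * g.A
/-- Inner radius. -/
def d : ℤ := g.Ni * g.Ai
/-- Radius of the hole. -/
def R : ℤ := (g.Ni - 1) * g.Ai

/-- Admissible parameters. -/
structure Ok : Prop where
  N1 : 100 ≤ g.N
  Ni1 : 100 ≤ g.Ni
  n1 : 12 ≤ g.n
  σn : 8 * g.n ≤ g.σ
  σA : 100 * g.σ ≤ g.Ai
  AA : (g.Ni + 4) * g.Ai ≤ g.A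

end Par

/-! ### The strands in the square grid -/

/-- The tip on the right side. -/
def tR (w y : ℤ) : UE := (w, y, true)

/-- The tip on the left side. -/
def tL (w y : ℤ) : UE := (-(w + 2), y, true)

/-- All faces except the two faces ahead of the inner tips and the two faces behind the outer
tips. -/
def DZ (w ya yb : ℤ) (a₁ a₂ : ℤ × ℤ) : Set (ℤ × ℤ) :=
  {f | f ≠ a₁ ∧ f ≠ a₂ ∧ f ≠ (w, ya) ∧ f ≠ (-(w + 3), yb)}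

/-- The face `f` is in the straight row outside the boundary unit edge `k` of the box of radius
`R`. -/
def OutR (R k : ℤ) (f : ℤ × ℤ) : Prop :=
  (0 ≤ k ∧ k < R ∧ f.2 = k ∧ R ≤ f.1) ∨
  (R ≤ k ∧ k < 3 * R ∧ f.1 = 2 * R - k - 1 ∧ R ≤ f.2) ∨
  (3 * R ≤ k ∧ k < 5 * R ∧ f.2 = 4 * R - k - 1 ∧ f.1 < -R) ∨
  (5 * R ≤ k ∧ k < 7 * R ∧ f.1 = k - 6 * R ∧ f.2 < -R) ∨
  (7 * R ≤ k ∧ k < 8 * R ∧ f.2 = k - 8 * R ∧ R ≤ f.1)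

/-- The dual path `l` leads from the face `a` straight into the hole, through the boundary unit edge
`k`, and to the centre. -/
structure InL (g : Par) (S : Set (ℤ × ℤ)) (a : ℤ × ℤ) (k : ℤ) (l : List (ℤ × ℤ)) : Prop where
  rng : 0 ≤ k ∧ k < 8 * g.R
  chain : IsCh l
  head : l.head? = some a
  last : l.getLast? = some (-1, 0)
  fresh : ∀ f ∈ l, f ∉ S
  loc : ∀ f ∈ l, f ∈ BR (0, 0) g.R ∨ (OutR g.R k f ∧ f ∈ BR (0, 0) (g.d + 2 * g.n + 4))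
  jump : ∀ k', 0 ≤ k' → k' < 8 * g.R → xp l (Perc6.cycE 0 0 0 g.R k') = ind2 (k' = k)

/-- The two strands in the square grid: `aᵢ` is the face ahead of the inner tip `xᵢ`, `S` the set of
the visited faces. -/
structure StrZ (g : Par) (ω : Cfg) (ya yb : ℤ) (a₁ a₂ : ℤ × ℤ) (x₁ x₂ : UE) (k₁ k₂ : ℤ)
    (l₁ l₂ : List (ℤ × ℤ)) (S : Set (ℤ × ℤ)) : Prop where
  port : (ya, yb) ∈ Ports g.w
  xm₁ : x₁ ∈ MM ω (DZ g.w ya yb a₁ a₂) (tR g.w ya)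
  xm₂ : x₂ ∈ MM ω (DZ g.w ya yb a₁ a₂) (tL g.w yb)
  xs₁ : IsSide a₁ x₁
  xs₂ : IsSide a₂ x₂
  only₁ : ∀ a f, (f = a₁ ∨ f = a₂ ∨ f = (g.w, ya) ∨ f = (-(g.w + 3), yb)) → IsSide f a →
    a ∈ MM ω (DZ g.w ya yb a₁ a₂) (tR g.w ya) → (f = a₁ ∧ a = x₁) ∨ (f = (g.w, ya) ∧ a = tR g.w ya)
  only₂ : ∀ a f, (f = a₁ ∨ f = a₂ ∨ f = (g.w, ya) ∨ f = (-(g.w + 3), yb)) → IsSide f a →
    a ∈ MM ω (DZ g.w ya yb a₁ a₂) (tL g.w yb) →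
      (f = a₂ ∧ a = x₂) ∨ (f = (-(g.w + 3), yb) ∧ a = tL g.w yb)
  ne : tL g.w yb ∉ MM ω (DZ g.w ya yb a₁ a₂) (tR g.w ya)
  vis : SS ω (DZ g.w ya yb a₁ a₂) (tR g.w ya) ∪ SS ω (DZ g.w ya yb a₁ a₂) (tL g.w yb) = S
  box : ∀ f ∈ S, -(g.w + 2 + g.n) ≤ f.1 ∧ f.1 < g.w + g.n ∧ -g.w ≤ f.2 ∧ f.2 < g.w
  hole : ∀ f ∈ S, f ∉ BR (0, 0) (g.d - g.n - 2)
  near₁ : ∀ f ∈ S, |f.1 - g.w| ≤ 5 * g.A → |f.2 - ya| ≤ 5 * g.A → f.1 < g.w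
  near₂ : ∀ f ∈ S, |f.1 + g.w| ≤ 5 * g.A → |f.2 - yb| ≤ 5 * g.A → -(g.w + 2) ≤ f.1
  in₁ : InL g S a₁ k₁ l₁
  in₂ : InL g S a₂ k₂ l₂
  sep : 10 * g.Ai ≤ |k₁ - k₂| ∧ |k₁ - k₂| ≤ 8 * g.R - 10 * g.Ai
  cor : ∀ j : ℤ, (j = 1 ∨ j = 3 ∨ j = 5 ∨ j = 7) →
    10 * g.Ai ≤ |k₁ - j * g.R| ∧ 10 * g.Ai ≤ |k₂ - j * g.R|

/-- The visited faces of the lifted components, in the square grid. -/
def SPZ (w d n : ℤ) (ya yb : ℤ) (ω : Cfg) : Set (ℤ × ℤ) :=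
  {f | ∃ s ∈ SL (lcf 0 ω) (LAT d w n) ({eR w ya} ∪ {eLf w yb}), s.1 = f}

/-- The corridor: a dual path from the centre to the face `(0, Y₀ - 1)` below the window. Outside the
hole it does not meet the dual paths `l₁`, `l₂`. -/
structure KapZ (g : Par) (Y₀ ya yb : ℤ) (S : Set (ℤ × ℤ)) (l₁ l₂ : List (ℤ × ℤ)) (k : ℤ)
    (l : List (ℤ × ℤ)) : Prop where
  rng : 0 ≤ k ∧ k < 8 * g.R
  chain : IsCh l
  head : l.head? = some (-1, 0)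
  last : l.getLast? = some (0, Y₀ - 1)
  only : ∀ f ∈ l, f = (0, Y₀ - 1) ∨ Y₀ ≤ f.2
  split : ∃ l' l'', l = l' ++ l'' ∧ (∀ f ∈ l', f ∈ BR (0, 0) g.R) ∧ ∀ f ∈ l'', f ∉ BR (0, 0) g.R
  far : ∀ f ∈ l, ∀ s ∈ S, g.σ / 2 - 2 < max |f.1 - s.1| |f.2 - s.2|
  ball₁ : ∀ f ∈ l, ¬ (|f.1 - g.w| ≤ 5 * g.A ∧ |f.2 - ya| ≤ 5 * g.A)
  ball₂ : ∀ f ∈ l, ¬ (|f.1 + g.w| ≤ 5 * g.A ∧ |f.2 - yb| ≤ 5 * g.A)
  box : ∀ f ∈ l, -(g.w + g.A / 2 + 8) ≤ f.1 ∧ f.1 ≤ g.w + g.A / 2 + 8 ∧ f.2 ≤ g.w + g.A - 2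
  free : ∀ f ∈ l, f ∉ BR (0, 0) g.R → f ∉ l₁ ∧ f ∉ l₂
  side : ∀ f ∈ l, (g.w + g.A / 4 + 2 ≤ f.1 → f.2 < ya) ∧ (f.1 < -(g.w + g.A / 4 + 2) → f.2 < yb)
  low : ∀ f ∈ l, f.2 < -(g.w + g.A) → f.1 = 0
  jump : ∀ k', 0 ≤ k' → k' < 8 * g.R → xp l (Perc6.cycE 0 0 0 g.R k') = ind2 (k' = k)

/-! ### Potentials in the window -/

/-- The row behind the tip on the right side, to the first face outside the window. -/
noncomputable def eRow (w y X : ℤ) : List (ℤ × ℤ) :=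
  (List.range (X - w + 1).toNat).map fun i => (w + i, y)

/-- The row behind the tip on the left side. -/
noncomputable def wRow (w y X : ℤ) : List (ℤ × ℤ) :=
  (List.range (-(w + 3) - (X - 1) + 1).toNat).map fun i => (-(w + 3) - i, y)

/-- The two potentials in the window `[X₀, X₁] × [Y₀, Y₁]`. -/
structure Pots (g : Par) (X₀ X₁ Y₀ Y₁ : ℤ) (ω : Cfg) (ya yb : ℤ) (a₁ a₂ : ℤ × ℤ)
    (l₁ l₂ lk : List (ℤ × ℤ)) (Φ₁ Φ₂ : ℤ × ℤ → ZMod 2) : Prop where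
  p₁ : PotC (RF X₀ X₁ Y₀ Y₁) (fun a => cM (MM ω (DZ g.w ya yb a₁ a₂) (tR g.w ya)) a + xp l₁ a +
    xp (eRow g.w ya X₁) a + xp lk a) Φ₁
  p₂ : PotC (RF X₀ X₁ Y₀ Y₁) (fun a => cM (MM ω (DZ g.w ya yb a₁ a₂) (tL g.w yb)) a + xp l₂ a +
    xp (wRow g.w yb X₀) a + xp lk a) Φ₂
  v₁ : Φ₁ (g.w, ya) = 1 ∧ Φ₂ (g.w, ya) = 0
  v₂ : Φ₁ (-(g.w + 2), yb) = 0 ∧ Φ₂ (-(g.w + 2), yb) = 1
  top : ∀ x, X₀ ≤ x → x ≤ X₁ → Φ₁ (x, Y₁) = 0 ∧ Φ₂ (x, Y₁) = 0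
  botR : ∀ x, 1 ≤ x → x ≤ X₁ → Φ₁ (x, Y₀) = 1 ∧ Φ₂ (x, Y₀) = 0
  botL : ∀ x, X₀ ≤ x → x ≤ 0 → Φ₁ (x, Y₀) = 0 ∧ Φ₂ (x, Y₀) = 1
  right : ∀ y, ya < y → y ≤ Y₁ → Φ₁ ((g.N + 2) * g.A, y) = 0 ∧ Φ₂ ((g.N + 2) * g.A, y) = 0
  left : ∀ y, yb < y → y ≤ Y₁ → Φ₁ (-((g.N + 2) * g.A), y) = 0 ∧ Φ₂ (-((g.N + 2) * g.A), y) = 0
  strip : ∀ x, 1 ≤ x → x ≤ X₁ → Φ₁ (x, -((g.N + 1) * g.A)) = 1 ∧ Φ₂ (x, -((g.N + 1) * g.A)) = 0

/-- The window is large enough. -/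
structure WinOk (g : Par) (X₀ X₁ Y₀ Y₁ : ℤ) : Prop where
  x₀ : X₀ ≤ -((g.N + 4) * g.A)
  x₁ : (g.N + 4) * g.A ≤ X₁
  y₀ : Y₀ ≤ -((g.N + 4) * g.A)
  y₁ : (g.N + 4) * g.A ≤ Y₁

/-! ### Tubes -/

/-- The lower end of the row of the tip. -/
def rw' (A y : ℤ) : ℤ := A * (y / A)

/-- The four rectangles of the leg on the right side. -/
noncomputable def F1 (g : Par) (Y₀ ya : ℤ) : Finset (ℤ × ℤ) :=
  RF ((g.N + 1) * g.A) ((g.N + 2) * g.A) Y₀ (rw' g.A ya - g.A) ∪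
  RF ((g.N - 3) * g.A) ((g.N + 2) * g.A) (rw' g.A ya - 2 * g.A) (rw' g.A ya - g.A) ∪
  RF ((g.N - 3) * g.A) ((g.N - 2) * g.A) (rw' g.A ya - 2 * g.A) (rw' g.A ya + 3 * g.A) ∪
  RF ((g.N - 3) * g.A) ((g.N + 2) * g.A) (rw' g.A ya + 2 * g.A) (rw' g.A ya + 3 * g.A)

/-- The leg on the right side. -/
def D1 (g : Par) (c Y₀ ya : ℤ) : Set Cfg :=
  BT c ((g.N + 1) * g.A) ((g.N + 2) * g.A) Y₀ (rw' g.A ya - g.A) ∩
  LR c ((g.N - 3) * g.A) ((g.N + 2) * g.A) (rw' g.A ya - 2 * g.A) (rw' g.A ya - g.A) ∩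
  BT c ((g.N - 3) * g.A) ((g.N - 2) * g.A) (rw' g.A ya - 2 * g.A) (rw' g.A ya + 3 * g.A) ∩
  LR c ((g.N - 3) * g.A) ((g.N + 2) * g.A) (rw' g.A ya + 2 * g.A) (rw' g.A ya + 3 * g.A)

/-- The four rectangles of the leg on the left side. -/
noncomputable def F2 (g : Par) (Y₀ yb : ℤ) : Finset (ℤ × ℤ) :=
  RF (-((g.N + 2) * g.A)) (-((g.N + 1) * g.A)) Y₀ (rw' g.A yb - g.A) ∪
  RF (-((g.N + 2) * g.A)) (-((g.N - 3) * g.A)) (rw' g.A yb - 2 * g.A) (rw' g.A yb - g.A) ∪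
  RF (-((g.N - 2) * g.A)) (-((g.N - 3) * g.A)) (rw' g.A yb - 2 * g.A) (rw' g.A yb + 3 * g.A) ∪
  RF (-((g.N + 2) * g.A)) (-((g.N - 3) * g.A)) (rw' g.A yb + 2 * g.A) (rw' g.A yb + 3 * g.A)

/-- The leg on the left side. -/
def D2 (g : Par) (c Y₀ yb : ℤ) : Set Cfg :=
  BT c (-((g.N + 2) * g.A)) (-((g.N + 1) * g.A)) Y₀ (rw' g.A yb - g.A) ∩
  LR c (-((g.N + 2) * g.A)) (-((g.N - 3) * g.A)) (rw' g.A yb - 2 * g.A) (rw' g.A yb - g.A) ∩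
  BT c (-((g.N - 2) * g.A)) (-((g.N - 3) * g.A)) (rw' g.A yb - 2 * g.A) (rw' g.A yb + 3 * g.A) ∩
  LR c (-((g.N + 2) * g.A)) (-((g.N - 3) * g.A)) (rw' g.A yb + 2 * g.A) (rw' g.A yb + 3 * g.A)

/-- The faces of the P strip. -/
noncomputable def FP (g : Par) (Y₁ : ℤ) : Finset (ℤ × ℤ) :=
  RF ((g.N - 20) * g.A) ((g.N - 19) * g.A) (-((g.N + 1) * g.A)) Y₁

/-- The P strip. -/
def PS (g : Par) (c Y₁ : ℤ) : Set Cfg :=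
  BT c ((g.N - 20) * g.A) ((g.N - 19) * g.A) (-((g.N + 1) * g.A)) Y₁

/-- The cell of the side `s` (right, upper, left, lower) in the layer `r` at the position `i`. -/
def ceS (s : Fin 4) (r i : ℤ) : ℤ × ℤ := ![(r, i), (i, r), (-r - 1, i), (i, -r - 1)] s

/-- The cells of the layer `r`. -/
noncomputable def lay (r : ℤ) : Finset (ℤ × ℤ) :=
  ((Icc (-r - 1) r) ×ˢ (Icc (-r - 1) r)).filter fun c =>
    c.1 = r ∨ c.1 = -r - 1 ∨ c.2 = r ∨ c.2 = -r - 1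

/-- The cells of the D ring with the gate at the position `i` of the side `s`. -/
noncomputable def RD (g : Par) (s : Fin 4) (i : ℤ) : Finset (ℤ × ℤ) :=
  (lay (g.Ni + 1)).erase (ceS s (g.Ni + 1) i) ∪
    {ceS s g.Ni (i - 1), ceS s (g.Ni - 1) (i - 1), ceS s g.Ni (i + 1), ceS s (g.Ni - 1) (i + 1)}

/-- The gate is not near a corner of the hole. -/
def GateOk (g : Par) (i : ℤ) : Prop := -(g.Ni - 1) + 2 ≤ i ∧ i ≤ g.Ni - 2 - 2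

/-- The faces of the D ring. -/
noncomputable def FR (g : Par) (s : Fin 4) (i : ℤ) : Finset (ℤ × ℤ) :=
  Perc6.cellsF 0 0 g.Ai (RD g s i)

end Pool.Agent.Occ
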