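import Pool.Agent.Lib.MP_6bd702_occ.ZD

/-!
# Row ZE: the corridor

`exists_corridor` (Duality.lean) with `ρ = σ / 2 - 2` and the set `SL` together with the index `0` lifts of
the two balls of radius `5 A` (around `(w, ya)` and `(-w, yb)`) and of the zone above: `f.2 ≥ w + A / 4`,
or `f.1 ≥ w + A / 4` and `f.2 ≥ ya - 4 A`, or `f.1 < -(w + A / 4)` and `f.2 ≥ yb - 4 A`. The chain is
cut at its first exit from the box of radius about `w + A / 2` (the exit is at the lower part), then it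
goes around to `x = 0` and straight down; before its last visit of the hole it is replaced by a path
in the hole.
-/

set_option autoImplicit false

namespace Pool.Agent.Occ

open Finset Pool.Agent.Perc Pool.Agent.Perc3 Pool.Agent.PercD

namespace ZEAux

open Relation

section general

variable {α : Type} {r : α → α → Prop} {B : α → Prop} {a b : α}

theorem first_exit (ha : B a) (hb : ¬ B b) (h : ReflTransGen r a b) :
    ∃ c, ¬ B c ∧ ReflTransGen (fun x y => r x y ∧ B x) a c := by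
  have key : (B b ∧ ReflTransGen (fun x y => r x y ∧ B x) a b) ∨
      ∃ c, ¬ B c ∧ ReflTransGen (fun x y => r x y ∧ B x) a c := by
    clear hb
    induction h with
    | refl => exact Or.inl ⟨ha, ReflTransGen.refl⟩
    | @tail b c _ hs ih =>
      rcases ih with ⟨h1, h2⟩ | h
      · by_cases hc : B c
        · exact Or.inl ⟨hc, h2.tail ⟨hs, h1⟩⟩
        · exact Or.inr ⟨c, hc, h2.tail ⟨hs, h1⟩⟩
      · exact Or.inr h
  rcases key with h | h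
  · exact absurd h.1 hb
  · exact h

theorem last_visit (ha : B a) (hb : ¬ B b) (h : ReflTransGen r a b) :
    ∃ x y, B x ∧ ¬ B y ∧ r x y ∧ ReflTransGen (fun x y => r x y ∧ ¬ B x ∧ ¬ B y) y b := by
  have key : B b ∨ ∃ x y, B x ∧ ¬ B y ∧ r x y ∧
      ReflTransGen (fun x y => r x y ∧ ¬ B x ∧ ¬ B y) y b := by
    clear hb
    induction h with
    | refl => exact Or.inl ha
    | @tail b c _ hs ih =>
      by_cases hc : B c
      · exact Or.inl hc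
      · right
        by_cases hb : B b
        · exact ⟨b, c, hb, hc, hs, ReflTransGen.refl⟩
        · rcases ih with h | ⟨x, y, h1, h2, h3, h4⟩
          · exact absurd h hb
          · exact ⟨x, y, h1, h2, h3, h4.tail ⟨hs, hb, hc⟩⟩
  rcases key with h | h
  · exact absurd h hb
  · exact h

end general

variable {Q : ℤ × ℤ → Prop}

/-- Steps between neighbouring faces with the property `Q`. -/
def St (Q : ℤ × ℤ → Prop) (f g : ℤ × ℤ) : Prop := Adj4 f g ∧ Q f ∧ Q g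

theorem St.symm {f g : ℤ × ℤ} (h : St Q f g) : St Q g f := ⟨h.1.symm, h.2.2, h.2.1⟩

theorem rt_symm {f g : ℤ × ℤ} (h : ReflTransGen (St Q) f g) : ReflTransGen (St Q) g f := by
  induction h with
  | refl => exact ReflTransGen.refl
  | tail _ hs ih => exact ReflTransGen.head hs.symm ih

theorem hmove_le {y x₁ x₂ : ℤ} (hx : x₁ ≤ x₂) (h : ∀ x, x₁ ≤ x → x ≤ x₂ → Q (x, y)) :
    ReflTransGen (St Q) (x₁, y) (x₂, y) := by
  induction x₂, hx using Int.leInduction with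
  | base => exact ReflTransGen.refl
  | succ x hx ih =>
    refine (ih fun z h1 h2 => h z h1 (by omega)).tail ⟨?_, h x hx (by omega), h _ (by omega) le_rfl⟩
    left
    exact ⟨rfl, Or.inl rfl⟩

theorem vmove_le {x y₁ y₂ : ℤ} (hy : y₁ ≤ y₂) (h : ∀ y, y₁ ≤ y → y ≤ y₂ → Q (x, y)) :
    ReflTransGen (St Q) (x, y₁) (x, y₂) := by
  induction y₂, hy using Int.leInduction with
  | base => exact ReflTransGen.refl
  | succ y hy ih =>
    refine (ih fun z h1 h2 => h z h1 (by omega)).tail ⟨?_, h y hy (by omega), h _ (by omega) le_rfl⟩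
    right
    exact ⟨rfl, Or.inl rfl⟩

theorem hmove {y x₁ x₂ : ℤ} (h : ∀ x, min x₁ x₂ ≤ x → x ≤ max x₁ x₂ → Q (x, y)) :
    ReflTransGen (St Q) (x₁, y) (x₂, y) := by
  rcases le_total x₁ x₂ with h1 | h1
  · exact hmove_le h1 fun x h2 h3 => h x (by omega) (by omega)
  · exact rt_symm (hmove_le h1 fun x h2 h3 => h x (by omega) (by omega))

theorem vmove {x y₁ y₂ : ℤ} (h : ∀ y, min y₁ y₂ ≤ y → y ≤ max y₁ y₂ → Q (x, y)) :
    ReflTransGen (St Q) (x, y₁) (x, y₂) := by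
  rcases le_total y₁ y₂ with h1 | h1
  · exact vmove_le h1 fun x h2 h3 => h x (by omega) (by omega)
  · exact rt_symm (vmove_le h1 fun x h2 h3 => h x (by omega) (by omega))

/-! ### The boundary of the hole -/

theorem cyc_of_step {R : ℤ} {f g : ℤ × ℤ} (ha : Adj4 f g) (hf : f ∈ BR (0, 0) R)
    (hg : g ∉ BR (0, 0) R) : ∃ k, 0 ≤ k ∧ k < 8 * R ∧ cr f g = Perc6.cycE 0 0 0 R k := by
  obtain ⟨x, y⟩ := f
  obtain ⟨x', y'⟩ := g
  rw [mem_BR] at hf hg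
  simp only at hf hg
  unfold Adj4 at ha
  simp only at ha
  unfold cr Perc6.cycE
  simp only
  rcases ha with ⟨h1, h2 | h2⟩ | ⟨h1, h2 | h2⟩
  · rw [if_pos h2]
    rcases le_or_gt 0 y with h3 | h3
    · refine ⟨y, h3, by omega, ?_⟩
      rw [if_pos (by omega)]
      unfold ri
      refine Prod.ext ?_ (Prod.ext ?_ rfl) <;> simp only <;> omega
    · refine ⟨y + 8 * R, by omega, by omega, ?_⟩
      rw [if_neg (by omega), if_neg (by omega), if_neg (by omega), if_neg (by omega)]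
      unfold ri
      refine Prod.ext ?_ (Prod.ext ?_ rfl) <;> simp only <;> omega
  · rw [if_neg (by omega), if_pos h2]
    refine ⟨4 * R - 1 - y, by omega, by omega, ?_⟩
    rw [if_neg (by omega), if_neg (by omega), if_pos (by omega)]
    unfold le'
    refine Prod.ext ?_ (Prod.ext ?_ rfl) <;> simp only <;> omega
  · rw [if_neg (by omega), if_neg (by omega), if_pos h2]
    refine ⟨2 * R - 1 - x, by omega, by omega, ?_⟩
    rw [if_neg (by omega), if_pos (by omega)]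
    unfold to'
    refine Prod.ext ?_ (Prod.ext ?_ rfl) <;> simp only <;> omega
  · rw [if_neg (by omega), if_neg (by omega), if_neg (by omega)]
    refine ⟨x + 6 * R, by omega, by omega, ?_⟩
    rw [if_neg (by omega), if_neg (by omega), if_neg (by omega), if_pos (by omega)]
    unfold bo
    refine Prod.ext ?_ (Prod.ext ?_ rfl) <;> simp only <;> omega

theorem cyc_ne_of_step {R k : ℤ} {f g : ℤ × ℤ} (ha : Adj4 f g)
    (h : (f ∈ BR (0, 0) R ∧ g ∈ BR (0, 0) R) ∨ (f ∉ BR (0, 0) R ∧ g ∉ BR (0, 0) R))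
    (h0 : 0 ≤ k) (h1 : k < 8 * R) : Perc6.cycE 0 0 0 R k ≠ cr f g := by
  obtain ⟨x, y⟩ := f
  obtain ⟨x', y'⟩ := g
  rw [mem_BR, mem_BR] at h
  simp only at h
  unfold Adj4 at ha
  simp only at ha
  unfold cr Perc6.cycE ri le' to' bo
  simp only
  intro he
  split_ifs at he <;> (simp only [Prod.mk.injEq, Bool.false_eq_true, Bool.true_eq_false, and_false,
    and_true] at he) <;> omega

theorem cyc_inj0 {R k k' : ℤ} (h0 : 0 ≤ k) (h1 : k < 8 * R) (h0' : 0 ≤ k') (h1' : k' < 8 * R)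
    (h : Perc6.cycE 0 0 0 R k = Perc6.cycE 0 0 0 R k') : k = k' := by
  unfold Perc6.cycE at h
  split_ifs at h <;> (simp only [Prod.mk.injEq, Bool.false_eq_true, Bool.true_eq_false, and_false,
    and_true] at h) <;> omega

/-- A list which does not cross the unit edge. -/
theorem xp_zero {P : ℤ × ℤ → Prop} {a : UE} (hP : ∀ f g, Adj4 f g → P f → P g → a ≠ cr f g) :
    ∀ l : List (ℤ × ℤ), IsCh l → (∀ f ∈ l, P f) → xp l a = 0 := by
  intro l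
  induction l with
  | nil => intro _ _; rfl
  | cons f l ih =>
    cases l with
    | nil => intro _ _; rfl
    | cons g l =>
      intro h1 h2
      have h3 : ind2 (a = cr f g) = 0 :=
        ind2_neg (hP f g h1.1 (h2 f (by simp)) (h2 g (by simp)))
      change ind2 (a = cr f g) + xp (g :: l) a = 0
      rw [h3, ih h1.2 fun f hf => h2 f (List.mem_cons_of_mem _ hf), add_zero]

/-! ### The zone -/

/-- The faces which the corridor must avoid. -/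
def Zone (w A ya yb : ℤ) (f : ℤ × ℤ) : Prop :=
  (|f.1 - w| ≤ 5 * A ∧ |f.2 - ya| ≤ 5 * A) ∨ (|f.1 + w| ≤ 5 * A ∧ |f.2 - yb| ≤ 5 * A) ∨
    w + A / 4 ≤ f.2 ∨ (w + A / 4 ≤ f.1 ∧ ya - 4 * A ≤ f.2) ∨
    (f.1 < -(w + A / 4) ∧ yb - 4 * A ≤ f.2)

/-- The visited lifted faces and the index `0` lifts of the zone. -/
def SZ (w A ya yb : ℤ) (T : Set LF) : Set LF := T ∪ {s | s.2 = 0 ∧ Zone w A ya yb s.1}

variable {w A R d n σ ya yb Y₀ : ℤ} {T : Set LF}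

/-- The numerical hypotheses. -/
structure Nums (w A R d n σ ya yb Y₀ : ℤ) : Prop where
  n1 : 12 ≤ n
  s1 : 8 * n ≤ σ
  r1 : R + 100 * σ ≤ d
  r2 : 100 * σ ≤ R
  a1 : d + 400 * σ ≤ A
  w1 : 100 * A ≤ w
  p1 : w ≤ 4 * ya
  p2 : 2 * ya < w
  p3 : w ≤ 4 * yb
  p4 : 2 * yb < w
  y1 : Y₀ ≤ -(w + 4 * A)

/-- The hypotheses on the visited lifted faces. -/
structure Vis0 (w A d n σ ya yb : ℤ) (T : Set LF) : Prop where
  box : ∀ s ∈ T, -(w + 2 + n) ≤ s.1.1 ∧ s.1.1 < w + n ∧ -w ≤ s.1.2 ∧ s.1.2 < w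
  out : ∀ s ∈ T, s.1 ∉ BR (0, 0) (d - n - 2)
  sep : Perc3.Sep (σ - 1) T
  ball₁ : ∀ s ∈ T, |s.1.1 - w| ≤ 6 * A → |s.1.2 - ya| ≤ 6 * A → s.2 = 0
  ball₂ : ∀ s ∈ T, |s.1.1 + w| ≤ 6 * A → |s.1.2 - yb| ≤ 6 * A → s.2 = 0

theorem zone_pos (N : Nums w A R d n σ ya yb Y₀) {f : ℤ × ℤ} (h : Zone w A ya yb f) : 0 < f.2 := by
  obtain ⟨h1, h2, h3, h4, h5, h6, h7, h8, h9, h10, h11⟩ := N
  unfold Zone at h
  rw [abs_le, abs_le, abs_le, abs_le] at h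
  omega

theorem sep_mix (N : Nums w A R d n σ ya yb Y₀) (V : Vis0 w A d n σ ya yb T) {s s' : LF}
    (hs : s ∈ T) (hs' : Zone w A ya yb s'.1) (h1 : |s.1.1 - s'.1.1| ≤ σ)
    (h2 : |s.1.2 - s'.1.2| ≤ σ) : s.2 = 0 ∧ 0 < s.1.2 := by
  have hb := V.box s hs
  have b1 := V.ball₁ s hs
  have b2 := V.ball₂ s hs
  obtain ⟨n1, n2, n3, n4, n5, n6, n7, n8, n9, n10, n11⟩ := N
  rw [abs_le] at h1 h2
  unfold Zone at hs'
  rcases hs' with ⟨z1, z2⟩ | ⟨z1, z2⟩ | z | z | z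
  · rw [abs_le] at z1 z2
    exact ⟨b1 (by rw [abs_le]; omega) (by rw [abs_le]; omega), by omega⟩
  · rw [abs_le] at z1 z2
    exact ⟨b2 (by rw [abs_le]; omega) (by rw [abs_le]; omega), by omega⟩
  · omega
  · omega
  · omega

theorem lv_pos {x y : ℤ} (h : 0 < y) : lv x y = 0 := by
  unfold lv
  exact if_neg (by omega)

theorem sep_SZ (N : Nums w A R d n σ ya yb Y₀) (V : Vis0 w A d n σ ya yb T) :
    Perc3.Sep (2 * (σ / 2 - 2) + 1) (SZ w A ya yb T) := by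
  have hle : 2 * (σ / 2 - 2) + 1 ≤ σ - 1 := by omega
  rintro s (hs | ⟨hs0, hs⟩) s' (hs' | ⟨hs0', hs'⟩) h1 h2
  · exact V.sep s hs s' hs' (h1.trans hle) (h2.trans hle)
  · obtain ⟨e1, e2⟩ := sep_mix N V hs hs' (by omega) (by omega)
    rw [hs0', e1, lv_pos (zone_pos N hs'), lv_pos e2]
  · obtain ⟨e1, e2⟩ := sep_mix N V hs' hs (by rw [abs_sub_comm]; omega)
      (by rw [abs_sub_comm]; omega)
    rw [hs0, e1, lv_pos (zone_pos N hs), lv_pos e2]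
  · rw [hs0, hs0', lv_pos (zone_pos N hs), lv_pos (zone_pos N hs')]

theorem out_SZ (N : Nums w A R d n σ ya yb Y₀) (V : Vis0 w A d n σ ya yb T) :
    ∀ s ∈ SZ w A ya yb T, ¬ (-R ≤ s.1.1 ∧ s.1.1 < R ∧ -R ≤ s.1.2 ∧ s.1.2 < R) := by
  rintro s (hs | ⟨-, hs⟩)
  · have h := V.out s hs
    rw [mem_BR] at h
    simp only at h
    obtain ⟨n1, n2, n3, n4, n5, n6, n7, n8, n9, n10, n11⟩ := N
    omega
  · have h := zone_pos N hs
    obtain ⟨n1, n2, n3, n4, n5, n6, n7, n8, n9, n10, n11⟩ := N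
    unfold Zone at hs
    rw [abs_le, abs_le, abs_le, abs_le] at hs
    omega

/-- The properties of the faces of the corridor. -/
structure Qk (w A σ ya yb Y₀ : ℤ) (S : Set (ℤ × ℤ)) (f : ℤ × ℤ) : Prop where
  far : ∀ s ∈ S, σ / 2 - 2 < max |f.1 - s.1| |f.2 - s.2|
  ball₁ : ¬ (|f.1 - w| ≤ 5 * A ∧ |f.2 - ya| ≤ 5 * A)
  ball₂ : ¬ (|f.1 + w| ≤ 5 * A ∧ |f.2 - yb| ≤ 5 * A)
  box : -(w + A / 2 + 8) ≤ f.1 ∧ f.1 ≤ w + A / 2 + 8 ∧ f.2 ≤ w + A - 2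
  side : (w + A / 4 + 2 ≤ f.1 → f.2 < ya) ∧ (f.1 < -(w + A / 4 + 2) → f.2 < yb)
  low : f.2 < -(w + A) → f.1 = 0
  only : f = (0, Y₀ - 1) ∨ Y₀ ≤ f.2

/-- The faces of the hole. -/
theorem qk_hole (N : Nums w A R d n σ ya yb Y₀) (V : Vis0 w A d n σ ya yb T) {f : ℤ × ℤ}
    (hf : f ∈ BR (0, 0) R) : Qk w A σ ya yb Y₀ {f | ∃ s ∈ T, s.1 = f} f := by
  rw [mem_BR] at hf
  simp only at hf
  have N' := N
  obtain ⟨n1, n2, n3, n4, n5, n6, n7, n8, n9, n10, n11⟩ := N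
  refine ⟨?_, ?_, ?_, ?_, ?_, ?_, ?_⟩
  · rintro _ ⟨s, hs, rfl⟩
    have h := V.out s hs
    rw [mem_BR] at h
    simp only at h
    rw [lt_max_iff, lt_abs, lt_abs]
    omega
  · rw [abs_le, abs_le]; omega
  · rw [abs_le, abs_le]; omega
  · omega
  · omega
  · omega
  · right; omega

/-- The free faces in the box of radius `w + A / 2`. -/
theorem qk_free (N : Nums w A R d n σ ya yb Y₀) {f : ℤ × ℤ}
    (hf : FreeF (σ / 2 - 2) (SZ w A ya yb T) f)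
    (hb : -(w + A / 2) - 1 ≤ f.1 ∧ f.1 ≤ w + A / 2 ∧ -(w + A / 2) - 1 ≤ f.2 ∧ f.2 ≤ w + A / 2) :
    Qk w A σ ya yb Y₀ {f | ∃ s ∈ T, s.1 = f} f ∧ ¬ Zone w A ya yb f := by
  obtain ⟨n1, n2, n3, n4, n5, n6, n7, n8, n9, n10, n11⟩ := N
  have hz : ¬ Zone w A ya yb f := by
    intro h
    have h1 := hf (f, 0) (Or.inr ⟨rfl, h⟩)
    simp only [sub_self, abs_zero, max_self] at h1
    omega
  have hz' := hz
  unfold Zone at hz'
  rw [not_or, not_or, not_or, not_or] at hz'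
  obtain ⟨z1, z2, z3, z4, z5⟩ := hz'
  refine ⟨⟨?_, z1, z2, ?_, ?_, ?_, ?_⟩, hz⟩
  · rintro _ ⟨s, hs, rfl⟩
    exact hf s (Or.inl hs)
  · omega
  · omega
  · omega
  · right; omega

/-- The faces far below or beside the box. -/
theorem qk_outer (N : Nums w A R d n σ ya yb Y₀) (V : Vis0 w A d n σ ya yb T) {f : ℤ × ℤ}
    (hf : (f.1 = w + A / 2 ∧ -(w + A / 2) - 1 ≤ f.2 ∧ f.2 < ya - 5 * A) ∨
      (f.1 = -(w + A / 2) - 1 ∧ -(w + A / 2) - 1 ≤ f.2 ∧ f.2 < yb - 5 * A) ∨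
      (f.2 = -(w + A / 2) - 1 ∧ -(w + A / 2) - 1 ≤ f.1 ∧ f.1 ≤ w + A / 2) ∨
      (f.1 = 0 ∧ f.2 ≤ -(w + A / 2) - 1 ∧ Y₀ - 1 ≤ f.2)) :
    Qk w A σ ya yb Y₀ {f | ∃ s ∈ T, s.1 = f} f ∧ f ∉ BR (0, 0) (d + 2 * n + 4) := by
  obtain ⟨n1, n2, n3, n4, n5, n6, n7, n8, n9, n10, n11⟩ := N
  refine ⟨⟨?_, ?_, ?_, ?_, ?_, ?_, ?_⟩, ?_⟩
  · rintro _ ⟨s, hs, rfl⟩
    have h := V.box s hs
    rw [lt_max_iff, lt_abs, lt_abs]
    omega
  · rw [abs_le, abs_le]; omega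
  · rw [abs_le, abs_le]; omega
  · omega
  · omega
  · omega
  · by_cases h : Y₀ ≤ f.2
    · exact Or.inr h
    · left
      refine Prod.ext ?_ ?_ <;> simp only <;> omega
  · rw [mem_BR]
    simp only
    omega

/-- The outer part of the corridor. -/
theorem outer_path (N : Nums w A R d n σ ya yb Y₀) (V : Vis0 w A d n σ ya yb T) {c : ℤ × ℤ}
    (hf : FreeF (σ / 2 - 2) (SZ w A ya yb T) c)
    (hb : -(w + A / 2) - 1 ≤ c.1 ∧ c.1 ≤ w + A / 2 ∧ -(w + A / 2) - 1 ≤ c.2 ∧ c.2 ≤ w + A / 2)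
    (hc : ¬ (-(w + A / 2) ≤ c.1 ∧ c.1 < w + A / 2 ∧ -(w + A / 2) ≤ c.2 ∧ c.2 < w + A / 2)) :
    ReflTransGen (St fun f => Qk w A σ ya yb Y₀ {f | ∃ s ∈ T, s.1 = f} f ∧ f ∉ BR (0, 0) (d + 2 * n + 4)) c
      (0, Y₀ - 1) := by
  have hz := (qk_free N hf hb).2
  have hq := fun f hf => qk_outer (f := f) N V hf
  have hz' := hz
  unfold Zone at hz'
  rw [abs_le, abs_le, abs_le, abs_le] at hz'
  obtain ⟨x, y⟩ := c
  simp only at hb hc hz'
  have N' := N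
  obtain ⟨n1, n2, n3, n4, n5, n6, n7, n8, n9, n10, n11⟩ := N
  have hdown : ReflTransGen (St fun f => Qk w A σ ya yb Y₀ {f | ∃ s ∈ T, s.1 = f} f ∧
      f ∉ BR (0, 0) (d + 2 * n + 4)) (0, -(w + A / 2) - 1) (0, Y₀ - 1) :=
    vmove fun y h1 h2 => hq _ (Or.inr (Or.inr (Or.inr ⟨rfl, by
      have : max (-(w + A / 2) - 1) (Y₀ - 1) = -(w + A / 2) - 1 := max_eq_left (by omega)
      rw [this] at h2; exact h2, by
      have : min (-(w + A / 2) - 1) (Y₀ - 1) = Y₀ - 1 := min_eq_right (by omega)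
      rw [this] at h1; exact h1⟩)))
  have hrow : ∀ x, -(w + A / 2) - 1 ≤ x → x ≤ w + A / 2 →
      ReflTransGen (St fun f => Qk w A σ ya yb Y₀ {f | ∃ s ∈ T, s.1 = f} f ∧
        f ∉ BR (0, 0) (d + 2 * n + 4)) (x, -(w + A / 2) - 1) (0, -(w + A / 2) - 1) := fun x h1 h2 =>
    hmove fun z h3 h4 => hq _ (Or.inr (Or.inr (Or.inl ⟨rfl, by
      have : -(w + A / 2) - 1 ≤ min x 0 := le_min h1 (by omega)
      exact this.trans h3, by
      have : max x 0 ≤ w + A / 2 := max_le h2 (by omega)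
      exact h4.trans this⟩)))
  have hcol : ReflTransGen (St fun f => Qk w A σ ya yb Y₀ {f | ∃ s ∈ T, s.1 = f} f ∧
      f ∉ BR (0, 0) (d + 2 * n + 4)) (x, y) (x, -(w + A / 2) - 1) := by
    by_cases h : y = -(w + A / 2) - 1
    · rw [h]
    · refine vmove fun z h3 h4 => hq _ ?_
      rw [min_eq_right (by omega)] at h3
      rw [max_eq_left (by omega)] at h4
      by_cases hx : x = w + A / 2
      · exact Or.inl ⟨hx, h3, by simp only; omega⟩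
      · exact Or.inr (Or.inl ⟨by simp only; omega, h3, by simp only; omega⟩)
  exact (hcol.trans (hrow x hb.1 hb.2.1)).trans hdown

/-! ### The inner part of the corridor -/

theorem mem0 {r : ℤ} {f : ℤ × ℤ} : f ∈ BR (0, 0) r ↔ (-r ≤ f.1 ∧ f.1 < r ∧ -r ≤ f.2 ∧ f.2 < r) := by
  rw [mem_BR]
  simp only [zero_sub, zero_add]

/-- The part of the row outside the boundary unit edge `k`, up to the radius `d + 2 n + 4`. -/
def Ray (R d n k : ℤ) (f : ℤ × ℤ) : Prop := OutR R k f ∧ f ∈ BR (0, 0) (d + 2 * n + 4)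

/-- The hypotheses on the row of a tip. -/
structure Rows (R d n σ k : ℤ) (S : Set (ℤ × ℤ)) (a : ℤ × ℤ) : Prop where
  c1 : 10 * σ ≤ |k - R|
  c3 : 10 * σ ≤ |k - 3 * R|
  c5 : 10 * σ ≤ |k - 5 * R|
  c7 : 10 * σ ≤ |k - 7 * R|
  out : OutR R k a
  inn : a ∈ BR (0, 0) (d + 2 * n + 4)
  far : a ∉ BR (0, 0) (d - n - 3)
  near : ∃ s ∈ S, |a.1 - s.1| ≤ 1 ∧ |a.2 - s.2| ≤ 1

/-- A face of the row between two boxes. -/
def Cl (R k lo hi : ℤ) (f : ℤ × ℤ) : Prop :=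
  (0 ≤ k ∧ k < R ∧ f.2 = k ∧ lo ≤ f.1 ∧ f.1 < hi) ∨
  (R ≤ k ∧ k < 3 * R ∧ f.1 = 2 * R - k - 1 ∧ lo ≤ f.2 ∧ f.2 < hi) ∨
  (3 * R ≤ k ∧ k < 5 * R ∧ f.2 = 4 * R - k - 1 ∧ -hi ≤ f.1 ∧ f.1 < -lo) ∨
  (5 * R ≤ k ∧ k < 7 * R ∧ f.1 = k - 6 * R ∧ -hi ≤ f.2 ∧ f.2 < -lo) ∨
  (7 * R ≤ k ∧ k < 8 * R ∧ f.2 = k - 8 * R ∧ lo ≤ f.1 ∧ f.1 < hi)

theorem cl_of {R k lo hi : ℤ} {f : ℤ × ℤ} (h : OutR R k f) (h1 : f ∈ BR (0, 0) hi)
    (h2 : f ∉ BR (0, 0) lo) (h3 : R ≤ lo) : Cl R k lo hi f := by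
  rw [mem0] at h1 h2
  unfold OutR at h
  rcases h with h | h | h | h | h
  · left; omega
  · right; left; omega
  · right; right; left; omega
  · right; right; right; left; omega
  · right; right; right; right; omega

/-- The faces of the row outside the box of radius `d - n - 4` are near the visited faces. -/
theorem ray_near (N : Nums w A R d n σ ya yb Y₀) {S : Set (ℤ × ℤ)} {k : ℤ} {a f : ℤ × ℤ}
    (H : Rows R d n σ k S a) (hf : Ray R d n k f) (hf' : f ∉ BR (0, 0) (d - n - 4)) :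
    ∃ s ∈ S, |f.1 - s.1| ≤ σ / 2 - 2 ∧ |f.2 - s.2| ≤ σ / 2 - 2 := by
  obtain ⟨n1, n2, n3, n4, n5, n6, n7, n8, n9, n10, n11⟩ := N
  obtain ⟨s, hs, h1, h2⟩ := H.near
  refine ⟨s, hs, ?_⟩
  have h3 := cl_of hf.1 hf.2 hf' (by omega)
  have h4 := cl_of H.out H.inn H.far (by omega)
  rw [abs_le] at h1 h2 ⊢
  rw [abs_le]
  have h5 : |f.1 - a.1| ≤ 3 * n + 8 ∧ |f.2 - a.2| ≤ 3 * n + 8 := by
    clear hf H hf' h1 h2
    rw [abs_le, abs_le]
    unfold Cl at h3 h4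
    rcases h3 with h3 | h3 | h3 | h3 | h3 <;>
      rcases h4 with h4 | h4 | h4 | h4 | h4 <;>
      first
      | (exfalso; omega)
      | omega
  rw [abs_le, abs_le] at h5
  clear h3 h4
  omega

theorem outR_r {R k x z y : ℤ} (hx : R ≤ x) (hz : R ≤ z) (h : OutR R k (z, y)) :
    (-R ≤ y ∧ y < R) → OutR R k (x, y) := by
  intro hy
  unfold OutR at h ⊢
  simp only at h ⊢
  rcases h with h | h | h | h | h
  · exact Or.inl (by omega)
  · omega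
  · omega
  · omega
  · exact Or.inr (Or.inr (Or.inr (Or.inr (by omega))))

theorem outR_l {R k x z y : ℤ} (hx : x < -R) (hz : z < -R) (h : OutR R k (z, y)) :
    (-R ≤ y ∧ y < R) → OutR R k (x, y) := by
  intro hy
  unfold OutR at h ⊢
  simp only at h ⊢
  rcases h with h | h | h | h | h
  · omega
  · omega
  · exact Or.inr (Or.inr (Or.inl (by omega)))
  · omega
  · omega

theorem outR_u {R k x z y : ℤ} (hx : R ≤ x) (hz : R ≤ z) (h : OutR R k (y, z)) :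
    (-R ≤ y ∧ y < R) → OutR R k (y, x) := by
  intro hy
  unfold OutR at h ⊢
  simp only at h ⊢
  rcases h with h | h | h | h | h
  · omega
  · exact Or.inr (Or.inl (by omega))
  · omega
  · omega
  · omega

theorem outR_d {R k x z y : ℤ} (hx : x < -R) (hz : z < -R) (h : OutR R k (y, z)) :
    (-R ≤ y ∧ y < R) → OutR R k (y, x) := by
  intro hy
  unfold OutR at h ⊢
  simp only at h ⊢
  rcases h with h | h | h | h | h
  · omega
  · omega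
  · omega
  · exact Or.inr (Or.inr (Or.inr (Or.inl (by omega))))
  · omega

/-- The properties of the faces of the corridor outside the hole. -/
def QQ (w A R d n σ ya yb Y₀ k₁ k₂ : ℤ) (S : Set (ℤ × ℤ)) (f : ℤ × ℤ) : Prop :=
  Qk w A σ ya yb Y₀ S f ∧ f ∉ BR (0, 0) R ∧ ¬ Ray R d n k₁ f ∧ ¬ Ray R d n k₂ f

theorem qk_in (N : Nums w A R d n σ ya yb Y₀) {S : Set (ℤ × ℤ)} {f : ℤ × ℤ}
    (hf : f ∈ BR (0, 0) d) (h : ∀ s ∈ S, σ / 2 - 2 < max |f.1 - s.1| |f.2 - s.2|) :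
    Qk w A σ ya yb Y₀ S f := by
  rw [mem0] at hf
  obtain ⟨n1, n2, n3, n4, n5, n6, n7, n8, n9, n10, n11⟩ := N
  refine ⟨h, ?_, ?_, ?_, ?_, ?_, ?_⟩
  · rw [abs_le, abs_le]; omega
  · rw [abs_le, abs_le]; omega
  · omega
  · omega
  · omega
  · right; omega

theorem far_in (N : Nums w A R d n σ ya yb Y₀) (V : Vis0 w A d n σ ya yb T) {f : ℤ × ℤ}
    (hf : f ∈ BR (0, 0) (d - n - 2 - σ / 2)) :
    ∀ s ∈ {f | ∃ s ∈ T, s.1 = f}, σ / 2 - 2 < max |f.1 - s.1| |f.2 - s.2| := by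
  rintro _ ⟨s, hs, rfl⟩
  have h := V.out s hs
  rw [mem0] at h hf
  obtain ⟨n1, n2, n3, n4, n5, n6, n7, n8, n9, n10, n11⟩ := N
  rw [lt_max_iff, lt_abs, lt_abs]
  clear V n1 n6 n7 n8 n9 n10 n11
  omega

/-- Visited faces ahead. -/
theorem far_ahead {u v x z y R D ρ : ℤ} (hD : ¬ (-D ≤ u ∧ u < D ∧ -D ≤ v ∧ v < D))
    (hz : R ≤ z) (hzx : z ≤ x) (hx : x < D - 1) (hy : -R ≤ y ∧ y < R) (hR : ρ < R)
    (hDR : ρ + R + 1 < D) (hρ : 0 ≤ ρ)
    (h : (ρ < x - u ∨ ρ < -(x - u)) ∨ (ρ < y - v ∨ ρ < -(y - v))) :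
    (ρ < z - u ∨ ρ < -(z - u)) ∨ (ρ < y - v ∨ ρ < -(y - v)) := by
  omega

theorem far_behind {u v x z y R D ρ : ℤ} (hD : ¬ (-D ≤ u ∧ u < D ∧ -D ≤ v ∧ v < D))
    (hz : z ≤ -R - 1) (hzx : x ≤ z) (hx : -(D - 1) ≤ x) (hy : -R ≤ y ∧ y < R) (hR : ρ < R)
    (hDR : ρ + R + 1 < D) (hρ : 0 ≤ ρ)
    (h : (ρ < x - u ∨ ρ < -(x - u)) ∨ (ρ < y - v ∨ ρ < -(y - v))) :
    (ρ < z - u ∨ ρ < -(z - u)) ∨ (ρ < y - v ∨ ρ < -(y - v)) := by
  omega

/-- From a face beside the hole straight into the hole. -/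
theorem side_path (N : Nums w A R d n σ ya yb Y₀) (V : Vis0 w A d n σ ya yb T) {k₁ k₂ : ℤ}
    {p : ℤ × ℤ} (hp : p ∈ BR (0, 0) (d - n - 3)) (hpR : p ∉ BR (0, 0) R)
    (hsd : (-R ≤ p.1 ∧ p.1 < R) ∨ (-R ≤ p.2 ∧ p.2 < R))
    (hfar : ∀ s ∈ {f | ∃ s ∈ T, s.1 = f}, σ / 2 - 2 < max |p.1 - s.1| |p.2 - s.2|)
    (h1 : ¬ OutR R k₁ p) (h2 : ¬ OutR R k₂ p) :
    ∃ h e, h ∈ BR (0, 0) R ∧ Adj4 h e ∧
      QQ w A R d n σ ya yb Y₀ k₁ k₂ {f | ∃ s ∈ T, s.1 = f} e ∧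
      ReflTransGen (St (QQ w A R d n σ ya yb Y₀ k₁ k₂ {f | ∃ s ∈ T, s.1 = f})) e p := by
  obtain ⟨x, y⟩ := p
  have N' := N
  obtain ⟨n1, n2, n3, n4, n5, n6, n7, n8, n9, n10, n11⟩ := N
  clear n6 n7 n8 n9 n10 n11
  rw [mem0] at hp hpR
  simp only at hp hpR hsd hfar
  have hcase : (R ≤ x ∧ -R ≤ y ∧ y < R) ∨ (x < -R ∧ -R ≤ y ∧ y < R) ∨
      (R ≤ y ∧ -R ≤ x ∧ x < R) ∨ (y < -R ∧ -R ≤ x ∧ x < R) := by
    clear h1 h2 V
    omega
  have key : ∀ f : ℤ × ℤ, f ∈ BR (0, 0) (d - n - 3) → f ∉ BR (0, 0) R →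
      (∀ s ∈ {f | ∃ s ∈ T, s.1 = f}, σ / 2 - 2 < max |f.1 - s.1| |f.2 - s.2|) →
      ¬ OutR R k₁ f → ¬ OutR R k₂ f →
      QQ w A R d n σ ya yb Y₀ k₁ k₂ {f | ∃ s ∈ T, s.1 = f} f := by
    intro f hf1 hf2 hf3 hf4 hf5
    refine ⟨qk_in N' ?_ hf3, hf2, fun h => hf4 h.1, fun h => hf5 h.1⟩
    rw [mem0] at hf1 ⊢
    clear hp hpR hsd hcase
    omega
  clear hsd
  rcases hcase with hc | hc | hc | hc
  · have hq : ∀ z, R ≤ z → z ≤ x →
        QQ w A R d n σ ya yb Y₀ k₁ k₂ {f | ∃ s ∈ T, s.1 = f} (z, y) := by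
      intro z hz1 hz2
      refine key _ ?_ ?_ ?_ (fun h => h1 (outR_r hc.1 hz1 h hc.2))
        fun h => h2 (outR_r hc.1 hz1 h hc.2)
      · rw [mem0]; simp only; clear hpR; omega
      · rw [mem0]; simp only; clear hpR; omega
      · rintro _ ⟨s, hs, rfl⟩
        have h3 := hfar s.1 ⟨s, hs, rfl⟩
        have h4 := V.out s hs
        rw [mem0] at h4
        rw [lt_max_iff, lt_abs, lt_abs] at h3 ⊢
        exact far_ahead (D := d - n - 2) h4 hz1 hz2 (by clear hpR h4 h3; omega) hc.2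
          (by clear hpR h4 h3; omega) (by clear hpR h4 h3; omega) (by clear hpR h4 h3; omega) h3
    refine ⟨(R - 1, y), (R, y), ?_, ?_, hq R le_rfl hc.1, hmove_le hc.1 hq⟩
    · rw [mem0]; simp only; clear hpR; omega
    · left
      refine ⟨rfl, Or.inl ?_⟩
      simp only
      ring
  · have hq : ∀ z, x ≤ z → z ≤ -R - 1 →
        QQ w A R d n σ ya yb Y₀ k₁ k₂ {f | ∃ s ∈ T, s.1 = f} (z, y) := by
      intro z hz1 hz2
      refine key _ ?_ ?_ ?_ (fun h => h1 (outR_l hc.1 (by clear hpR; omega) h hc.2))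
        fun h => h2 (outR_l hc.1 (by clear hpR; omega) h hc.2)
      · rw [mem0]; simp only; clear hpR; omega
      · rw [mem0]; simp only; clear hpR; omega
      · rintro _ ⟨s, hs, rfl⟩
        have h3 := hfar s.1 ⟨s, hs, rfl⟩
        have h4 := V.out s hs
        rw [mem0] at h4
        rw [lt_max_iff, lt_abs, lt_abs] at h3 ⊢
        exact far_behind (D := d - n - 2) h4 hz2 hz1 (by clear hpR h4 h3; omega) hc.2
          (by clear hpR h4 h3; omega) (by clear hpR h4 h3; omega) (by clear hpR h4 h3; omega) h3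
    refine ⟨(-R, y), (-R - 1, y), ?_, ?_, hq _ (by clear hpR; omega) le_rfl,
      rt_symm (hmove_le (by clear hpR; omega) hq)⟩
    · rw [mem0]; simp only; clear hpR; omega
    · left
      refine ⟨rfl, Or.inr ?_⟩
      simp only
      ring
  · have hq : ∀ z, R ≤ z → z ≤ y →
        QQ w A R d n σ ya yb Y₀ k₁ k₂ {f | ∃ s ∈ T, s.1 = f} (x, z) := by
      intro z hz1 hz2
      refine key _ ?_ ?_ ?_ (fun h => h1 (outR_u hc.1 hz1 h hc.2))
        fun h => h2 (outR_u hc.1 hz1 h hc.2)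
      · rw [mem0]; simp only; clear hpR; omega
      · rw [mem0]; simp only; clear hpR; omega
      · rintro _ ⟨s, hs, rfl⟩
        have h3 := hfar s.1 ⟨s, hs, rfl⟩
        have h4 := V.out s hs
        rw [mem0] at h4
        rw [lt_max_iff, lt_abs, lt_abs] at h3 ⊢
        exact (far_ahead (D := d - n - 2) (fun h => h4 ⟨h.2.2.1, h.2.2.2, h.1, h.2.1⟩) hz1 hz2
          (by clear hpR h4 h3; omega) hc.2
          (by clear hpR h4 h3; omega) (by clear hpR h4 h3; omega) (by clear hpR h4 h3; omega)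
          h3.symm).symm
    refine ⟨(x, R - 1), (x, R), ?_, ?_, hq R le_rfl hc.1, vmove_le hc.1 hq⟩
    · rw [mem0]; simp only; clear hpR; omega
    · right
      refine ⟨rfl, Or.inl ?_⟩
      simp only
      ring
  · have hq : ∀ z, y ≤ z → z ≤ -R - 1 →
        QQ w A R d n σ ya yb Y₀ k₁ k₂ {f | ∃ s ∈ T, s.1 = f} (x, z) := by
      intro z hz1 hz2
      refine key _ ?_ ?_ ?_ (fun h => h1 (outR_d hc.1 (by clear hpR; omega) h hc.2))
        fun h => h2 (outR_d hc.1 (by clear hpR; omega) h hc.2)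
      · rw [mem0]; simp only; clear hpR; omega
      · rw [mem0]; simp only; clear hpR; omega
      · rintro _ ⟨s, hs, rfl⟩
        have h3 := hfar s.1 ⟨s, hs, rfl⟩
        have h4 := V.out s hs
        rw [mem0] at h4
        rw [lt_max_iff, lt_abs, lt_abs] at h3 ⊢
        exact (far_behind (D := d - n - 2) (fun h => h4 ⟨h.2.2.1, h.2.2.2, h.1, h.2.1⟩) hz2 hz1
          (by clear hpR h4 h3; omega) hc.2
          (by clear hpR h4 h3; omega) (by clear hpR h4 h3; omega) (by clear hpR h4 h3; omega)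
          h3.symm).symm
    refine ⟨(x, -R), (x, -R - 1), ?_, ?_, hq _ (by clear hpR; omega) le_rfl,
      rt_symm (vmove_le (by clear hpR; omega) hq)⟩
    · rw [mem0]; simp only; clear hpR; omega
    · right
      refine ⟨rfl, Or.inr ?_⟩
      simp only
      ring

theorem outR_corner {S : Set (ℤ × ℤ)} {k x z : ℤ} {a : ℤ × ℤ} (H : Rows R d n σ k S a)
    (hσ : 1 ≤ σ) (hx : ¬ (-R ≤ x ∧ x < R)) (hz : ¬ (-R < z ∧ z < R - 1)) :
    ¬ OutR R k (x, z) := by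
  have c1 := H.c1
  have c3 := H.c3
  have c5 := H.c5
  have c7 := H.c7
  rw [le_abs] at c1 c3 c5 c7
  unfold OutR
  simp only
  rintro (h | h | h | h | h)
  · clear c3 c5 c7; omega
  · clear c1 c3 c5 c7; omega
  · clear c1 c7; omega
  · clear c1 c3 c5 c7; omega
  · clear c1 c3 c5; omega

/-- From a face of the box without visited faces into the hole. -/
theorem corner_path (N : Nums w A R d n σ ya yb Y₀) (V : Vis0 w A d n σ ya yb T) {k₁ k₂ : ℤ}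
    {a₁ a₂ : ℤ × ℤ} (H₁ : Rows R d n σ k₁ {f | ∃ s ∈ T, s.1 = f} a₁)
    (H₂ : Rows R d n σ k₂ {f | ∃ s ∈ T, s.1 = f} a₂)
    {p : ℤ × ℤ} (hp : p ∈ BR (0, 0) (d - n - 2 - σ / 2)) (hpR : p ∉ BR (0, 0) R)
    (h1 : ¬ OutR R k₁ p) (h2 : ¬ OutR R k₂ p) :
    ∃ h e, h ∈ BR (0, 0) R ∧ Adj4 h e ∧
      QQ w A R d n σ ya yb Y₀ k₁ k₂ {f | ∃ s ∈ T, s.1 = f} e ∧
      ReflTransGen (St (QQ w A R d n σ ya yb Y₀ k₁ k₂ {f | ∃ s ∈ T, s.1 = f})) e p := by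
  have hsub : ∀ f : ℤ × ℤ, f ∈ BR (0, 0) (d - n - 2 - σ / 2) → f ∈ BR (0, 0) (d - n - 3) ∧
      f ∈ BR (0, 0) d := by
    intro f hf
    rw [mem0] at hf
    rw [mem0, mem0]
    obtain ⟨n1, n2, n3, n4, n5, n6, n7, n8, n9, n10, n11⟩ := N
    omega
  by_cases hsd : (-R ≤ p.1 ∧ p.1 < R) ∨ (-R ≤ p.2 ∧ p.2 < R)
  · exact side_path N V (hsub p hp).1 hpR hsd (far_in N V hp) h1 h2
  have N' := N
  obtain ⟨n1, n2, n3, n4, n5, n6, n7, n8, n9, n10, n11⟩ := N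
  clear n6 n7 n8 n9 n10 n11
  have key : ∀ f : ℤ × ℤ, f ∈ BR (0, 0) (d - n - 2 - σ / 2) → f ∉ BR (0, 0) R →
      ¬ OutR R k₁ f → ¬ OutR R k₂ f →
      QQ w A R d n σ ya yb Y₀ k₁ k₂ {f | ∃ s ∈ T, s.1 = f} f := fun f hf1 hf2 hf4 hf5 =>
    ⟨qk_in N' (hsub f hf1).2 (far_in N' V hf1), hf2, fun h => hf4 h.1, fun h => hf5 h.1⟩
  obtain ⟨x, y⟩ := p
  rw [mem0] at hp hpR
  simp only at hp hpR hsd
  rw [not_or] at hsd
  obtain ⟨hsx, hsy⟩ := hsd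
  clear hpR h1 h2
  have hnr : ∀ z, ((x, z) : ℤ × ℤ) ∉ BR (0, 0) R := by
    intro z hz
    rw [mem0] at hz
    exact hsx ⟨hz.1, hz.2.1⟩
  rcases le_or_gt R y with hy | hy
  · have hq : ∀ z, R - 1 ≤ z → z ≤ y →
        QQ w A R d n σ ya yb Y₀ k₁ k₂ {f | ∃ s ∈ T, s.1 = f} (x, z) := by
      intro z hz1 hz2
      refine key _ ?_ (hnr z) (outR_corner H₁ (by omega) hsx (by omega))
        (outR_corner H₂ (by omega) hsx (by omega))
      rw [mem0]; simp only; clear hsx hsy; omega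
    have hb : (x, R - 1) ∈ BR (0, 0) (d - n - 2 - σ / 2) := by
      rw [mem0]; simp only; clear hsx hsy; omega
    obtain ⟨h, e, he1, he2, he3, he4⟩ := side_path (k₁ := k₁) (k₂ := k₂) N' V (p := (x, R - 1))
      (hsub _ hb).1 (hnr _) (Or.inr (by simp only; omega)) (far_in N' V hb)
      (outR_corner H₁ (by omega) hsx (by omega))
      (outR_corner H₂ (by omega) hsx (by omega))
    exact ⟨h, e, he1, he2, he3, he4.trans (vmove_le (by omega) hq)⟩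
  · have hy' : y < -R := by omega
    have hq : ∀ z, y ≤ z → z ≤ -R →
        QQ w A R d n σ ya yb Y₀ k₁ k₂ {f | ∃ s ∈ T, s.1 = f} (x, z) := by
      intro z hz1 hz2
      refine key _ ?_ (hnr z) (outR_corner H₁ (by omega) hsx (by omega))
        (outR_corner H₂ (by omega) hsx (by omega))
      rw [mem0]; simp only; clear hsx hsy; omega
    have hb : (x, -R) ∈ BR (0, 0) (d - n - 2 - σ / 2) := by
      rw [mem0]; simp only; clear hsx hsy; omega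
    obtain ⟨h, e, he1, he2, he3, he4⟩ := side_path (k₁ := k₁) (k₂ := k₂) N' V (p := (x, -R))
      (hsub _ hb).1 (hnr _) (Or.inr (by simp only; omega)) (far_in N' V hb)
      (outR_corner H₁ (by omega) hsx (by omega))
      (outR_corner H₂ (by omega) hsx (by omega))
    exact ⟨h, e, he1, he2, he3, he4.trans (rt_symm (vmove_le (by omega) hq))⟩

theorem step_aux {R ρ t f g f' g' : ℤ} (hR : R + 20 ≤ ρ) (ht : 1 ≤ t)
    (hf : -ρ ≤ f ∧ f < ρ) (hfR : R ≤ f) (hf' : -R + t ≤ f' ∧ f' < R - t)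
    (ha : (g' = f' ∧ (g = f + 1 ∨ f = g + 1)) ∨ (g = f ∧ (g' = f' + 1 ∨ f' = g' + 1)))
    (hg : ¬ (-ρ ≤ g ∧ g < ρ ∧ -ρ ≤ g' ∧ g' < ρ)) :
    g' = f' ∧ g = ρ := by
  omega

theorem step_aux' {R ρ t f g f' g' : ℤ} (hR : R + 20 ≤ ρ) (ht : 1 ≤ t)
    (hf : -ρ ≤ f ∧ f < ρ) (hfR : f < -R) (hf' : -R + t ≤ f' ∧ f' < R - t)
    (ha : (g' = f' ∧ (g = f + 1 ∨ f = g + 1)) ∨ (g = f ∧ (g' = f' + 1 ∨ f' = g' + 1)))
    (hg : ¬ (-ρ ≤ g ∧ g < ρ ∧ -ρ ≤ g' ∧ g' < ρ)) :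
    g' = f' ∧ g = -ρ - 1 := by
  omega

/-- A step out of a row. -/
theorem step_row (N : Nums w A R d n σ ya yb Y₀) {S : Set (ℤ × ℤ)} {k : ℤ} {a f g : ℤ × ℤ}
    (H : Rows R d n σ k S a) (hf : f ∈ BR (0, 0) (d - n - 2 - σ / 2))
    (hg : g ∉ BR (0, 0) (d - n - 2 - σ / 2)) (ha : Adj4 f g) (h : OutR R k f) :
    Ray R d n k g := by
  have c1 := H.c1
  have c3 := H.c3
  have c5 := H.c5
  have c7 := H.c7
  rw [le_abs] at c1 c3 c5 c7
  obtain ⟨n1, n2, n3, n4, n5, n6, n7, n8, n9, n10, n11⟩ := N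
  clear n6 n7 n8 n9 n10 n11
  obtain ⟨x, y⟩ := f
  obtain ⟨x', y'⟩ := g
  unfold Ray
  rw [mem0] at hf hg ⊢
  unfold OutR at h ⊢
  unfold Adj4 at ha
  simp only at hf hg h ha ⊢
  have hR : R + 20 ≤ d - n - 2 - σ / 2 := by clear hg ha c1 c3 c5 c7 h; omega
  have hg' : ¬ (-(d - n - 2 - σ / 2) ≤ y' ∧ y' < d - n - 2 - σ / 2 ∧
      -(d - n - 2 - σ / 2) ≤ x' ∧ x' < d - n - 2 - σ / 2) := fun h =>
    hg ⟨h.2.2.1, h.2.2.2, h.1, h.2.1⟩
  have ha1 : (y' = y ∧ (x' = x + 1 ∨ x = x' + 1)) ∨ (x' = x ∧ (y' = y + 1 ∨ y = y' + 1)) := by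
    clear hg hg' h c1 c3 c5 c7; omega
  have ha2 : (x' = x ∧ (y' = y + 1 ∨ y = y' + 1)) ∨ (y' = y ∧ (x' = x + 1 ∨ x = x' + 1)) := by
    clear hg hg' h c1 c3 c5 c7; omega
  rcases h with h | h | h | h | h
  · clear c3 c5 c7
    have := step_aux hR le_rfl ⟨hf.1, hf.2.1⟩ h.2.2.2 (by clear hg hg' ha ha1 ha2; omega) ha1 hg
    clear hg ha hg' ha1 ha2
    exact ⟨Or.inl (by omega), by omega⟩
  · clear c5 c7
    have := step_aux hR le_rfl hf.2.2 h.2.2.2 (by clear hg hg' ha ha1 ha2; omega) ha2 hg'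
    clear hg ha hg' ha1 ha2
    exact ⟨Or.inr (Or.inl (by omega)), by omega⟩
  · clear c1 c7
    have := step_aux' hR le_rfl ⟨hf.1, hf.2.1⟩ h.2.2.2 (by clear hg hg' ha ha1 ha2; omega) ha1 hg
    clear hg ha hg' ha1 ha2
    exact ⟨Or.inr (Or.inr (Or.inl (by omega))), by omega⟩
  · clear c1 c3
    have := step_aux' hR le_rfl hf.2.2 h.2.2.2 (by clear hg hg' ha ha1 ha2; omega) ha2 hg'
    clear hg ha hg' ha1 ha2
    exact ⟨Or.inr (Or.inr (Or.inr (Or.inl (by omega)))), by omega⟩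
  · clear c1 c3 c5
    have := step_aux hR le_rfl ⟨hf.1, hf.2.1⟩ h.2.2.2 (by clear hg hg' ha ha1 ha2; omega) ha1 hg
    clear hg ha hg' ha1 ha2
    exact ⟨Or.inr (Or.inr (Or.inr (Or.inr (by omega)))), by omega⟩

/-- A step from a row. -/
theorem step_side (N : Nums w A R d n σ ya yb Y₀) {S : Set (ℤ × ℤ)} {k : ℤ} {a f g : ℤ × ℤ}
    (H : Rows R d n σ k S a) (ha : Adj4 f g) (h : OutR R k f) :
    (-R ≤ g.1 ∧ g.1 < R) ∨ (-R ≤ g.2 ∧ g.2 < R) := by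
  have c1 := H.c1
  have c3 := H.c3
  have c5 := H.c5
  have c7 := H.c7
  rw [le_abs] at c1 c3 c5 c7
  obtain ⟨n1, n2, n3, n4, n5, n6, n7, n8, n9, n10, n11⟩ := N
  clear n6 n7 n8 n9 n10 n11
  have ha1 : f.1 - 1 ≤ g.1 ∧ g.1 ≤ f.1 + 1 ∧ f.2 - 1 ≤ g.2 ∧ g.2 ≤ f.2 + 1 := by
    clear h c1 c3 c5 c7
    unfold Adj4 at ha
    omega
  clear ha
  unfold OutR at h
  rcases h with h | h | h | h | h
  · clear c3 c5 c7
    exact Or.inr (by omega)
  · clear c5 c7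
    exact Or.inl (by omega)
  · clear c1 c7
    exact Or.inr (by omega)
  · clear c1 c3
    exact Or.inl (by omega)
  · clear c1 c3 c5
    exact Or.inr (by omega)

/-- The inner part of the corridor. -/
theorem inner_path (N : Nums w A R d n σ ya yb Y₀) (V : Vis0 w A d n σ ya yb T) {k₁ k₂ : ℤ}
    {a₁ a₂ : ℤ × ℤ} (H₁ : Rows R d n σ k₁ {f | ∃ s ∈ T, s.1 = f} a₁)
    (H₂ : Rows R d n σ k₂ {f | ∃ s ∈ T, s.1 = f} a₂) {h g : ℤ × ℤ}
    (hh : h ∈ BR (0, 0) (d - n - 2 - σ / 2) ∨ Ray R d n k₁ h ∨ Ray R d n k₂ h)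
    (hg : ¬ (g ∈ BR (0, 0) (d - n - 2 - σ / 2) ∨ Ray R d n k₁ g ∨ Ray R d n k₂ g))
    (hadj : Adj4 h g) (hfh : FreeF (σ / 2 - 2) (SZ w A ya yb T) h)
    (hfg : FreeF (σ / 2 - 2) (SZ w A ya yb T) g)
    (hgQ : QQ w A R d n σ ya yb Y₀ k₁ k₂ {f | ∃ s ∈ T, s.1 = f} g) :
    ∃ h₀ e, h₀ ∈ BR (0, 0) R ∧ Adj4 h₀ e ∧
      QQ w A R d n σ ya yb Y₀ k₁ k₂ {f | ∃ s ∈ T, s.1 = f} e ∧
      ReflTransGen (St (QQ w A R d n σ ya yb Y₀ k₁ k₂ {f | ∃ s ∈ T, s.1 = f})) e g := by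
  rw [not_or, not_or] at hg
  obtain ⟨hg1, hg2, hg3⟩ := hg
  have hfree : ∀ f, FreeF (σ / 2 - 2) (SZ w A ya yb T) f →
      ∀ s ∈ {f | ∃ s ∈ T, s.1 = f}, σ / 2 - 2 < max |f.1 - s.1| |f.2 - s.2| := by
    rintro f hf _ ⟨s, hs, rfl⟩
    exact hf s (Or.inl hs)
  have hnum : 12 ≤ n ∧ 8 * n ≤ σ ∧ R + 100 * σ ≤ d := ⟨N.n1, N.s1, N.r1⟩
  have ha1 : h.1 - 1 ≤ g.1 ∧ g.1 ≤ h.1 + 1 ∧ h.2 - 1 ≤ g.2 ∧ g.2 ≤ h.2 + 1 := by
    unfold Adj4 at hadj
    clear hh hg1 hg2 hg3 hfree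
    omega
  by_cases hh1 : h ∈ BR (0, 0) (d - n - 2 - σ / 2)
  · -- the chain comes from the box without visited faces
    have hr1 : ¬ OutR R k₁ h := fun hr => hg2 (step_row N H₁ hh1 hg1 hadj hr)
    have hr2 : ¬ OutR R k₂ h := fun hr => hg3 (step_row N H₂ hh1 hg1 hadj hr)
    have hhR : h ∉ BR (0, 0) R := by
      intro hc
      refine hg1 ?_
      rw [mem0] at hc ⊢
      clear hh
      omega
    have hhd : h ∈ BR (0, 0) d := by
      rw [mem0] at hh1 ⊢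
      clear hh
      omega
    obtain ⟨h₀, e, he1, he2, he3, he4⟩ := corner_path N V H₁ H₂ hh1 hhR hr1 hr2
    exact ⟨h₀, e, he1, he2, he3, he4.tail ⟨hadj,
      ⟨qk_in N hhd (far_in N V hh1), hhR, fun h => hr1 h.1, fun h => hr2 h.1⟩, hgQ⟩⟩
  · -- the chain comes from a row
    have key : ∀ k a, Rows R d n σ k {f | ∃ s ∈ T, s.1 = f} a → Ray R d n k h →
        g ∈ BR (0, 0) (d - n - 3) ∧ ((-R ≤ g.1 ∧ g.1 < R) ∨ (-R ≤ g.2 ∧ g.2 < R)) := by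
      intro k a H hr
      refine ⟨?_, step_side N H hadj hr.1⟩
      have hin : h ∈ BR (0, 0) (d - n - 4) := by
        by_contra hc
        obtain ⟨s, hs, h1, h2⟩ := ray_near N H hr hc
        exact absurd (hfree h hfh s hs) (not_lt.2 (max_le h1 h2))
      rw [mem0] at hin ⊢
      omega
    obtain ⟨hgd, hsd⟩ : g ∈ BR (0, 0) (d - n - 3) ∧
        ((-R ≤ g.1 ∧ g.1 < R) ∨ (-R ≤ g.2 ∧ g.2 < R)) := by
      rcases hh with hh | hh | hh
      · exact absurd hh hh1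
      · exact key _ _ H₁ hh
      · exact key _ _ H₂ hh
    have hin : g ∈ BR (0, 0) (d + 2 * n + 4) := by
      rw [mem0] at hgd ⊢
      clear hsd
      omega
    exact side_path N V hgd hgQ.2.1 hsd (hfree g hfg) (fun h => hg2 ⟨h, hin⟩)
      fun h => hg3 ⟨h, hin⟩

/-- The corridor. -/
theorem exists_kap0 (N : Nums w A R d n σ ya yb Y₀) (V : Vis0 w A d n σ ya yb T) {k₁ k₂ : ℤ}
    {a₁ a₂ : ℤ × ℤ} (H₁ : Rows R d n σ k₁ {f | ∃ s ∈ T, s.1 = f} a₁)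
    (H₂ : Rows R d n σ k₂ {f | ∃ s ∈ T, s.1 = f} a₂) :
    ∃ k l, (0 ≤ k ∧ k < 8 * R) ∧ IsCh l ∧ l.head? = some (-1, 0) ∧
      l.getLast? = some (0, Y₀ - 1) ∧ (∀ f ∈ l, Qk w A σ ya yb Y₀ {f | ∃ s ∈ T, s.1 = f} f) ∧
      (∃ l' l'', l = l' ++ l'' ∧ (∀ f ∈ l', f ∈ BR (0, 0) R) ∧ ∀ f ∈ l'', f ∉ BR (0, 0) R) ∧
      (∀ f ∈ l, f ∉ BR (0, 0) R → ¬ Ray R d n k₁ f ∧ ¬ Ray R d n k₂ f) ∧
      ∀ k', 0 ≤ k' → k' < 8 * R → xp l (Perc6.cycE 0 0 0 R k') = ind2 (k' = k) := by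
  have N' := N
  obtain ⟨n1, n2, n3, n4, n5, n6, n7, n8, n9, n10, n11⟩ := N
  obtain ⟨f₀, hf₀, hch⟩ := exists_corridor (S := SZ w A ya yb T) (L := w + A / 2)
    (w := w + A / 2) (d := R) (ρ := σ / 2 - 2) (by omega) (by omega) (out_SZ N' V) (sep_SZ N' V)
  obtain ⟨c, hc, hch1⟩ := first_exit
    (B := fun f : ℤ × ℤ => -(w + A / 2) ≤ f.1 ∧ f.1 < w + A / 2 ∧ -(w + A / 2) ≤ f.2 ∧
      f.2 < w + A / 2) (by simp only; omega) hf₀ hch
  have hcO : c ∉ BR (0, 0) (d + 2 * n + 4) := by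
    rw [mem0]
    clear n7 n8 n9 n10 n11 hf₀
    omega
  have hsubO : ∀ f : ℤ × ℤ, f ∉ BR (0, 0) (d + 2 * n + 4) →
      ¬ (f ∈ BR (0, 0) (d - n - 2 - σ / 2) ∨ Ray R d n k₁ f ∨ Ray R d n k₂ f) := by
    rintro f hf (h | h | h)
    · refine hf ?_
      rw [mem0] at h ⊢
      clear n6 n7 n8 n9 n10 n11 hf₀ hc
      omega
    · exact hf h.2
    · exact hf h.2
  have hBR : ∀ f : ℤ × ℤ, f ∉ BR (0, 0) (d - n - 2 - σ / 2) → f ∉ BR (0, 0) R := by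
    intro f h h'
    refine h ?_
    rw [mem0] at h' ⊢
    clear n6 n7 n8 n9 n10 n11 hf₀ hc
    omega
  obtain ⟨h, g, hh, hg, hhg, hch2⟩ := last_visit
    (B := fun f : ℤ × ℤ => f ∈ BR (0, 0) (d - n - 2 - σ / 2) ∨ Ray R d n k₁ f ∨ Ray R d n k₂ f)
    (Or.inl (by rw [mem0]; simp only; clear n6 n7 n8 n9 n10 n11 hf₀ hc; omega)) (hsubO c hcO) hch1
  obtain ⟨⟨hadj, hfh, hfg⟩, hbh⟩ := hhg
  have hstep : ∀ x y : ℤ × ℤ, Adj4 x y → (-(w + A / 2) ≤ x.1 ∧ x.1 < w + A / 2 ∧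
      -(w + A / 2) ≤ x.2 ∧ x.2 < w + A / 2) →
      -(w + A / 2) - 1 ≤ y.1 ∧ y.1 ≤ w + A / 2 ∧ -(w + A / 2) - 1 ≤ y.2 ∧ y.2 ≤ w + A / 2 := by
    intro x y h1 h2
    unfold Adj4 at h1
    clear n6 n7 n8 n9 n10 n11 hf₀ hc
    omega
  have hQ : ∀ f : ℤ × ℤ, ¬ (f ∈ BR (0, 0) (d - n - 2 - σ / 2) ∨ Ray R d n k₁ f ∨ Ray R d n k₂ f) →
      Qk w A σ ya yb Y₀ {f | ∃ s ∈ T, s.1 = f} f →
      QQ w A R d n σ ya yb Y₀ k₁ k₂ {f | ∃ s ∈ T, s.1 = f} f := by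
    intro f hf hq
    rw [not_or, not_or] at hf
    exact ⟨hq, hBR f hf.1, hf.2.1, hf.2.2⟩
  -- the middle part
  have hmid : ReflTransGen (St (QQ w A R d n σ ya yb Y₀ k₁ k₂ {f | ∃ s ∈ T, s.1 = f})) g c ∧
      FreeF (σ / 2 - 2) (SZ w A ya yb T) c ∧
      (-(w + A / 2) - 1 ≤ c.1 ∧ c.1 ≤ w + A / 2 ∧ -(w + A / 2) - 1 ≤ c.2 ∧ c.2 ≤ w + A / 2) := by
    clear hc hcO hch1
    induction hch2 with
    | refl => exact ⟨ReflTransGen.refl, hfg, hstep _ _ hadj hbh⟩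
    | @tail b c _ hs ih =>
      obtain ⟨⟨⟨ha, hfb, hfc⟩, hbb⟩, hb, hc⟩ := hs
      have hcb := hstep _ _ ha hbb
      refine ⟨ih.1.tail ⟨ha, hQ _ hb (qk_free N' hfb (by omega)).1,
        hQ _ hc (qk_free N' hfc hcb).1⟩, hfc, hcb⟩
  have hout : ReflTransGen (St (QQ w A R d n σ ya yb Y₀ k₁ k₂ {f | ∃ s ∈ T, s.1 = f})) c
      (0, Y₀ - 1) := by
    refine ReflTransGen.mono ?_ _ _ (outer_path N' V hmid.2.1 hmid.2.2 hc)
    rintro x y ⟨h1, h2, h3⟩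
    exact ⟨h1, hQ _ (hsubO _ h2.2) h2.1, hQ _ (hsubO _ h3.2) h3.1⟩
  have hgQ := hQ g hg (qk_free N' hfg (hstep _ _ hadj hbh)).1
  obtain ⟨h₀, e, he1, he2, he3, he4⟩ := inner_path N' V H₁ H₂ hh hg hadj hfh hfg hgQ
  obtain ⟨l₂, hl1, hl2, hl3, hl4⟩ := exists_list
    (P := QQ w A R d n σ ya yb Y₀ k₁ k₂ {f | ∃ s ∈ T, s.1 = f}) he3
    ((he4.trans hmid.1).trans hout)
  -- the path in the hole
  have hhole : ReflTransGen (St fun f => f ∈ BR (0, 0) R) (-1, 0) h₀ := by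
    obtain ⟨x, y⟩ := h₀
    rw [mem_BR] at he1
    simp only at he1
    refine (hmove (x₁ := -1) (x₂ := x) (y := 0) ?_).trans (vmove (y₁ := 0) (y₂ := y) ?_)
    · intro z h1 h2
      rw [mem_BR]
      simp only
      omega
    · intro z h1 h2
      rw [mem_BR]
      simp only
      omega
  have h0R : ((-1, 0) : ℤ × ℤ) ∈ BR (0, 0) R := by
    rw [mem_BR]
    simp only
    omega
  obtain ⟨l₁, hm1, hm2, hm3, hm4⟩ := exists_list (P := fun f => f ∈ BR (0, 0) R) h0R hhole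
  obtain ⟨k, hk0, hk1, hk⟩ := cyc_of_step he2 he1 he3.2.1
  refine ⟨k, l₁ ++ l₂, ⟨hk0, hk1⟩, ?_, ?_, ?_, ?_,
    ⟨l₁, l₂, rfl, hm4, fun f hf => (hl4 f hf).2.1⟩, ?_, ?_⟩
  · refine hm1.append hl1 ?_
    intro f g' h1 h2
    rw [hm3] at h1
    rw [hl2] at h2
    obtain rfl := Option.some.inj h1
    obtain rfl := Option.some.inj h2
    exact he2
  · rw [List.head?_append, hm2]
    rfl
  · rw [List.getLast?_append, hl3]
    rfl
  · intro f hf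
    rcases List.mem_append.1 hf with hf | hf
    · exact qk_hole N' V (hm4 f hf)
    · exact (hl4 f hf).1
  · intro f hf hfR
    rcases List.mem_append.1 hf with hf | hf
    · exact absurd (hm4 f hf) hfR
    · exact (hl4 f hf).2.2
  · intro k' h0 h1
    rw [xp_append hm3 hl2, xp_zero (P := fun f => f ∈ BR (0, 0) R) ?_ l₁ hm1 hm4,
      xp_zero (P := fun f => f ∉ BR (0, 0) R) ?_ l₂ hl1 fun f hf => (hl4 f hf).2.1, zero_add,
      add_zero, hk]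
    · by_cases hkk : k' = k
      · rw [ind2_pos (by rw [hkk]), ind2_pos hkk]
      · rw [ind2_neg fun h => hkk (cyc_inj0 h0 h1 hk0 hk1 h), ind2_neg hkk]
    · intro f g' h2 h3 h4
      exact cyc_ne_of_step h2 (Or.inr ⟨h3, h4⟩) h0 h1
    · intro f g' h2 h3 h4
      exact cyc_ne_of_step h2 (Or.inl ⟨h3, h4⟩) h0 h1

/-! ### The tips -/

/-- Two faces with a common side are at distance at most one. -/
theorem near_of_sides {f g : ℤ × ℤ} {a : UE} (hf : IsSide f a) (hg : IsSide g a) :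
    |f.1 - g.1| ≤ 1 ∧ |f.2 - g.2| ≤ 1 := by
  obtain ⟨x, y⟩ := f
  obtain ⟨x', y'⟩ := g
  unfold IsSide bo le' to' ri at hf hg
  simp only at hf hg ⊢
  rw [abs_le, abs_le]
  rcases hf with rfl | rfl | rfl | rfl <;>
    simp only [Prod.mk.injEq, and_true, and_false, Bool.false_eq_true, Bool.true_eq_false, or_false,
      false_or] at hg <;> omega

/-- A side of a component which is not the first one is a side of a visited face. -/
theorem visited_of_mem {ω : Cfg} {F : Set (ℤ × ℤ)} {e a : UE} (ha : a ∈ MM ω F e) (hne : a ≠ e) :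
    ∃ f ∈ SS ω F e, IsSide f a := by
  have h : ReflTransGen (fun a a' => ∃ f ∈ F, Mt ω f a a') e a := ha
  rcases ReflTransGen.cases_tail h with h | ⟨b, hb, f, hf, hm⟩
  · exact absurd h hne
  · exact ⟨f, ⟨hf, a, ha, hm.right⟩, hm.right⟩

theorem rows_of {g : Par} {S F : Set (ℤ × ℤ)} {a : ℤ × ℤ} {k : ℤ} {l : List (ℤ × ℤ)} {ω : Cfg}
    {e x : UE} {σ : ℤ} (hi : InL g S a k l) (hx : x ∈ MM ω F e) (hs : IsSide a x)
    (hsub : SS ω F e ⊆ S) (he : ∀ f, IsSide f e → f ∉ BR (0, 0) (g.d + 2 * g.n + 4))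
    (hole : ∀ f ∈ S, f ∉ BR (0, 0) (g.d - g.n - 2)) (hR : g.R ≤ g.d - g.n - 3)
    (hn : 0 ≤ g.n) (hσ : 10 * σ ≤ 10 * g.Ai)
    (hc : ∀ j : ℤ, (j = 1 ∨ j = 3 ∨ j = 5 ∨ j = 7) → 10 * g.Ai ≤ |k - j * g.R|) :
    Rows g.R g.d g.n σ k S a := by
  have hmem : a ∈ l := by
    have := hi.head
    cases l with
    | nil => simp at this
    | cons b l => simp only [List.head?_cons, Option.some.injEq] at this; simp [this]
  have hin : a ∈ BR (0, 0) (g.d + 2 * g.n + 4) := by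
    rcases hi.loc a hmem with h | h
    · rw [mem_BR] at h ⊢
      simp only at h ⊢
      omega
    · exact h.2
  obtain ⟨f, hf, hfs⟩ := visited_of_mem hx (by
    rintro rfl
    exact he a hs hin)
  have hnear := near_of_sides hs hfs
  have hfar : a ∉ BR (0, 0) (g.d - g.n - 3) := by
    have h1 := hole f (hsub hf)
    rw [mem_BR] at h1 ⊢
    rw [abs_le, abs_le] at hnear
    simp only at h1 ⊢
    omega
  have h1 := hc 1 (by simp)
  have h3 := hc 3 (by simp)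
  have h5 := hc 5 (by simp)
  have h7 := hc 7 (by simp)
  rw [one_mul] at h1
  refine ⟨by omega, by omega, by omega, by omega, ?_, hin, hfar, ⟨f, hsub hf, hnear⟩⟩
  rcases hi.loc a hmem with h | h
  · exfalso
    rw [mem_BR] at h hfar
    simp only at h hfar
    omega
  · exact h.1

end ZEAux

open ZEAux in
theorem exists_kap {N A Ni Ai σ : ℤ} {m : ℕ} (hg : (parX N A Ni Ai σ m).Ok) {ω : Cfg} {ya yb : ℤ}
    (hp : (ya, yb) ∈ Ports (N * A)) (h : lcf 0 ω ∈ PX N A Ni Ai σ m ya yb) {Y₀ : ℤ}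
    (hY : Y₀ ≤ -((N + 4) * A)) {a₁ a₂ : ℤ × ℤ} {x₁ x₂ : UE} {k₁ k₂ : ℤ} {l₁ l₂ : List (ℤ × ℤ)}
    (hS : StrZ (parX N A Ni Ai σ m) ω ya yb a₁ a₂ x₁ x₂ k₁ k₂ l₁ l₂
      (SPZ (N * A) (Ni * Ai) (2 * m + 12) ya yb ω)) :
    ∃ k l, KapZ (parX N A Ni Ai σ m) Y₀ ya yb (SPZ (N * A) (Ni * Ai) (2 * m + 12) ya yb ω)
      l₁ l₂ k l := by
  obtain ⟨g1, g2, g3, g4, g5, g6⟩ := hg
  change 100 ≤ N at g1
  change 100 ≤ Ni at g2
  change (12 : ℤ) ≤ 2 * m + 12 at g3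
  change 8 * (2 * (m : ℤ) + 12) ≤ σ at g4
  change 100 * σ ≤ Ai at g5
  change (Ni + 4) * Ai ≤ A at g6
  unfold Ports at hp
  rw [mem_filter] at hp
  obtain ⟨-, p1, p2, p3, p4, -⟩ := hp
  simp only at p1 p2 p3 p4
  obtain ⟨hPT, hAX⟩ := h
  have hAi : 0 ≤ Ai := by omega
  have e1 : 100 * Ai ≤ Ni * Ai := mul_le_mul_of_nonneg_right g2 hAi
  have e2 : (Ni + 4) * Ai = Ni * Ai + 4 * Ai := by ring
  have e3 : (Ni - 1) * Ai = Ni * Ai - Ai := by ring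
  have hA : 0 ≤ A := by omega
  have e4 : 100 * A ≤ N * A := mul_le_mul_of_nonneg_right g1 hA
  have e5 : (N + 4) * A = N * A + 4 * A := by ring
  have hR : (parX N A Ni Ai σ m).R = Ni * Ai - Ai := e3
  have hN : Nums (N * A) A (Ni * Ai - Ai) (Ni * Ai) (2 * m + 12) σ ya yb Y₀ := by
    refine ⟨g3, g4, by omega, by omega, by omega, e4, p1, p2, p3, p4, by omega⟩
  have hbox : ∀ s ∈ SL (lcf 0 ω) (LAT (Ni * Ai) (N * A) (2 * m + 12))
      ({eR (N * A) ya} ∪ {eLf (N * A) yb}),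
      (-(N * A + 2 + (2 * m + 12)) ≤ s.1.1 ∧ s.1.1 < N * A + (2 * m + 12) ∧ -(N * A) ≤ s.1.2 ∧
        s.1.2 < N * A) ∧ s.1 ∉ BR (0, 0) (Ni * Ai - (2 * m + 12) - 2) :=
    fun s hs => ⟨hS.box _ ⟨s, hs, rfl⟩, hS.hole _ ⟨s, hs, rfl⟩⟩
  have hV : Vis0 (N * A) A (Ni * Ai) (2 * m + 12) σ ya yb
      (SL (lcf 0 ω) (LAT (Ni * Ai) (N * A) (2 * m + 12))
        ({eR (N * A) ya} ∪ {eLf (N * A) yb})) := by
    refine ⟨fun s hs => (hbox s hs).1, fun s hs => (hbox s hs).2, ?_, hAX.ball₁, hAX.ball₂⟩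
    exact sep_pairT (d₀ := Ni * Ai - σ) (L := N * A + σ) (D := σ) (by omega) (by omega) (by omega)
      (by omega) hPT
  have hd : (parX N A Ni Ai σ m).d = Ni * Ai := rfl
  have hw : (parX N A Ni Ai σ m).w = N * A := rfl
  have hn : (parX N A Ni Ai σ m).n = 2 * m + 12 := rfl
  have hAi' : (parX N A Ni Ai σ m).Ai = Ai := rfl
  have H₁ := rows_of (σ := σ) hS.in₁ hS.xm₁ hS.xs₁ (subset_trans Set.subset_union_left hS.vis.subset)
    (by
      intro f hf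
      rw [hd, hn, mem_BR]
      unfold IsSide bo le' to' ri tR at hf
      rw [hw] at hf
      simp only [Prod.mk.injEq, and_true, and_false, Bool.false_eq_true, Bool.true_eq_false,
        or_false, false_or] at hf ⊢
      omega)
    hS.hole (by rw [hR, hd, hn]; omega) (by rw [hn]; omega) (by rw [hAi']; omega)
    fun j hj => (hS.cor j hj).1
  have H₂ := rows_of (σ := σ) hS.in₂ hS.xm₂ hS.xs₂ (subset_trans Set.subset_union_right hS.vis.subset)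
    (by
      intro f hf
      rw [hd, hn, mem_BR]
      unfold IsSide bo le' to' ri tL at hf
      rw [hw] at hf
      simp only [Prod.mk.injEq, and_true, and_false, Bool.false_eq_true, Bool.true_eq_false,
        or_false, false_or] at hf ⊢
      omega)
    hS.hole (by rw [hR, hd, hn]; omega) (by rw [hn]; omega) (by rw [hAi']; omega)
    fun j hj => (hS.cor j hj).2
  rw [hR, hd, hn] at H₁ H₂
  obtain ⟨k, l, hk, hl1, hl2, hl3, hl4, hl5, hl6, hl7⟩ := exists_kap0 hN hV H₁ H₂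
  have hloc : ∀ {a : ℤ × ℤ} {k : ℤ} {l' : List (ℤ × ℤ)}, InL (parX N A Ni Ai σ m)
      (SPZ (N * A) (Ni * Ai) (2 * m + 12) ya yb ω) a k l' → ∀ f, f ∉ BR (0, 0) (Ni * Ai - Ai) →
      ¬ Ray (Ni * Ai - Ai) (Ni * Ai) (2 * m + 12) k f → f ∉ l' := by
    intro a k l' hi f h1 h2 h3
    have h4 := hi.loc f h3
    rw [hR, hd, hn] at h4
    rcases h4 with h4 | h4
    · exact h1 h4
    · exact h2 h4
  refine ⟨k, l, ?_⟩
  constructor
  · rw [hR]; exact hk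
  · exact hl1
  · exact hl2
  · exact hl3
  · exact fun f hf => (hl4 f hf).only
  · rw [hR]; exact hl5
  · exact fun f hf => (hl4 f hf).far
  · exact fun f hf => (hl4 f hf).ball₁
  · exact fun f hf => (hl4 f hf).ball₂
  · exact fun f hf => (hl4 f hf).box
  · rw [hR]
    exact fun f hf hfR => ⟨hloc hS.in₁ f hfR (hl6 f hf hfR).1, hloc hS.in₂ f hfR (hl6 f hf hfR).2⟩
  · exact fun f hf => (hl4 f hf).side
  · exact fun f hf => (hl4 f hf).low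
  · rw [hR]; exact hl7

end Pool.Agent.Occ
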