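import Pool.Agent.Lib.MP_6bd702_occ.ZC

/-!
# Row ZF: the legs and the P strip land
-/

set_option autoImplicit false

namespace Pool.Agent.Occ

open Finset Pool.Agent.Perc Pool.Agent.Perc3 Pool.Agent.PercD

namespace ZFaux

/-- The heights of the vertices of a path in a rectangle. -/
theorem conn_bd {η : Cfg} {x₀ x₁ y₀ y₁ : ℤ} {u v : ℤ × ℤ} (hu : y₀ ≤ u.2 ∧ u.2 ≤ y₁)
    (h : Conn η (RF x₀ x₁ y₀ y₁) u v) : y₀ ≤ v.2 ∧ v.2 ≤ y₁ := by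
  induction h with
  | refl => exact hu
  | tail _ hb _ =>
    obtain ⟨f, hf, -, -, c⟩ := hb.exists_face
    have hf' := mem_RFi.1 (Finset.mem_coe.1 hf)
    unfold IsCor at c
    omega

/-- The path around a tip: four crossings, the channel is contained in the first column
`[x₁, x₁']`, the inner arm in the second column `[x₂, x₂']`. -/
theorem four {ξ : Cfg} {F : Set (ℤ × ℤ)} {c X X' x₁ x₁' x₂ x₂' y₀ y₁ y₁' y₂ y₂' : ℤ}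
    (h1 : X ≤ x₁ ∧ x₁ < x₁' ∧ x₁' ≤ X') (h2 : X ≤ x₂ ∧ x₂ < x₂' ∧ x₂' ≤ X')
    (h3 : y₀ ≤ y₁ ∧ y₁ < y₁' ∧ y₁' ≤ y₂ ∧ y₂ < y₂')
    (a1 : ξ ∈ BT c x₁ x₁' y₀ y₁') (a2 : ξ ∈ LR c X X' y₁ y₁') (a3 : ξ ∈ BT c x₂ x₂' y₁ y₂')
    (a4 : ξ ∈ LR c X X' y₂ y₂') (f1 : (RF x₁ x₁' y₀ y₁' : Set (ℤ × ℤ)) ⊆ F)
    (f2 : (RF X X' y₁ y₁' : Set (ℤ × ℤ)) ⊆ F) (f3 : (RF x₂ x₂' y₁ y₂' : Set (ℤ × ℤ)) ⊆ F)
    (f4 : (RF X X' y₂ y₂' : Set (ℤ × ℤ)) ⊆ F) :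
    ∃ p q q' : ℤ × ℤ, p.2 = y₀ ∧ x₁ ≤ p.1 ∧ p.1 ≤ x₁' ∧ (p.1 + p.2 - c) % 2 = 0 ∧
      q.1 = X' ∧ y₂ ≤ q.2 ∧ q.2 ≤ y₂' ∧ q'.1 = X ∧ y₂ ≤ q'.2 ∧ q'.2 ≤ y₂' ∧
      Conn ξ F p q ∧ Conn ξ F p q' := by
  obtain ⟨p, p', p1, p2, p3, p4, p5, pc⟩ := a1
  obtain ⟨r, r', r1, r2, r3, r4, r5, rc⟩ := a2
  obtain ⟨s, s', s1, s2, s3, s4, s5, sc⟩ := a3
  obtain ⟨t, t', t1, t2, t3, t4, t5, tc⟩ := a4
  obtain ⟨z1, -, -, -, -, b1, b2⟩ := PercT.cross_meet h1.1 h1.2.1 h1.2.2 h3.1 h3.2.1 le_rfl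
    ⟨r1, r2, r3⟩ r4 ⟨p1, p2, p3⟩ p4 (by omega) rc pc
  obtain ⟨z2, -, -, -, -, b3, b4⟩ := PercT.cross_meet h2.1 h2.2.1 h2.2.2 le_rfl h3.2.1
    (by omega) ⟨r1, r2, r3⟩ r4 ⟨s1, s2, s3⟩ s4 (by omega) rc sc
  obtain ⟨z3, -, -, -, -, b5, b6⟩ := PercT.cross_meet h2.1 h2.2.1 h2.2.2 (by omega) h3.2.2.2
    le_rfl ⟨t1, t2, t3⟩ t4 ⟨s1, s2, s3⟩ s4 (by omega) tc sc
  have hp : Conn ξ F p t :=
    ((((b2.mono f1).trans (Conn.symm (b1.mono f2))).trans (b3.mono f2)).trans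
      (Conn.symm (b4.mono f3))).trans ((b6.mono f3).trans (Conn.symm (b5.mono f4)))
  exact ⟨p, t', t, p1, p2, p3, p5, t4, (conn_bd ⟨t2, t3⟩ tc).1, (conn_bd ⟨t2, t3⟩ tc).2, t1, t2, t3,
    hp.trans (tc.mono f4), hp⟩

theorem rw_spec {A y : ℤ} (hA : 0 < A) (hy : 0 ≤ y) : 0 ≤ rw' A y ∧ rw' A y ≤ y ∧ y < rw' A y + A := by
  unfold rw'
  have h1 := Int.mul_ediv_self_le (x := y) (k := A) hA.ne'
  have h2 := Int.lt_mul_ediv_self_add (x := y) (k := A) hA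
  refine ⟨mul_nonneg hA.le (Int.ediv_nonneg hy hA.le), h1, h2⟩

theorem mem_ports {w : ℤ} {p : ℤ × ℤ} (h : p ∈ Ports w) : (0 ≤ p.1 ∧ p.1 < w) ∧ (0 ≤ p.2 ∧ p.2 < w) ∧
    w ≤ 4 * p.1 ∧ 2 * p.1 < w ∧ w ≤ 4 * p.2 ∧ 2 * p.2 < w ∧ (p.1 + p.2) % 2 = 0 := by
  unfold Ports at h
  rw [mem_filter, mem_product, mem_Ico, mem_Ico] at h
  exact ⟨h.1.1, h.1.2, h.2⟩

/-- The numbers. -/
theorem nums {g : Par} (hg : g.Ok) : (0 < g.A ∧ 100 < g.A) ∧ 100 * g.A ≤ g.w ∧ g.d + 2 * g.n + 4 < g.A ∧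
    g.R < g.A ∧ (g.N + 1) * g.A = g.w + g.A ∧ (g.N + 2) * g.A = g.w + 2 * g.A ∧
    (g.N + 4) * g.A = g.w + 4 * g.A ∧ (g.N - 3) * g.A = g.w - 3 * g.A ∧
    (g.N - 2) * g.A = g.w - 2 * g.A ∧ (g.N - 20) * g.A = g.w - 20 * g.A ∧
    (g.N - 19) * g.A = g.w - 19 * g.A := by
  obtain ⟨h1, h2, h3, h4, h5, h6⟩ := hg
  have hAi : 0 < g.Ai := by omega
  have hd : 100 * g.Ai ≤ g.Ni * g.Ai := mul_le_mul_of_nonneg_right h2 hAi.le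
  rw [add_mul] at h6
  have hA : 0 < g.A := by omega
  have hw : 100 * g.A ≤ g.N * g.A := mul_le_mul_of_nonneg_right h1 hA.le
  unfold Par.w Par.d Par.R
  rw [sub_mul, one_mul]
  refine ⟨⟨hA, by omega⟩, hw, by omega, by omega, ?_, ?_, ?_, ?_, ?_, ?_, ?_⟩ <;> ring

/-- The dual paths into the hole are near the hole. -/
theorem notIn {g : Par} (hg : g.Ok) {S : Set (ℤ × ℤ)} {a : ℤ × ℤ} {k : ℤ} {l : List (ℤ × ℤ)}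
    (h : InL g S a k l) {f : ℤ × ℤ} (hf : g.A ≤ f.1 ∨ f.1 < -g.A) : f ∉ l := by
  obtain ⟨h1, h2, h3, h4, -⟩ := nums hg
  intro hl
  rcases h.loc f hl with h5 | ⟨-, h5⟩
  · rw [mem_BR] at h5
    simp only at h5
    omega
  · rw [mem_BR] at h5
    simp only at h5
    omega

end ZFaux

open ZFaux

variable {g : Par} {ω η ξ : Cfg} {ya yb : ℤ} {a₁ a₂ : ℤ × ℤ} {x₁ x₂ : UE} {k₁ k₂ kk : ℤ}
  {l₁ l₂ lk : List (ℤ × ℤ)} {S : Set (ℤ × ℤ)} {X₀ X₁ Y₀ Y₁ : ℤ} {Φ₁ Φ₂ : ℤ × ℤ → ZMod 2}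

theorem leg₁ (hg : g.Ok) (hw : WinOk g X₀ X₁ Y₀ Y₁)
    (hS : StrZ g ω ya yb a₁ a₂ x₁ x₂ k₁ k₂ l₁ l₂ S) (hK : KapZ g Y₀ ya yb S l₁ l₂ kk lk)
    (hP : Pots g X₀ X₁ Y₀ Y₁ ω ya yb a₁ a₂ l₁ l₂ lk Φ₁ Φ₂) (h1 : ∀ f ∈ S, η f = ω f)
    (h2 : ∀ f ∈ F1 g Y₀ ya, f ∉ S → η f = ξ f) (hξ : ξ ∈ D1 g (par (g.w, ya)) Y₀ ya) :
    ∃ b : ℤ × ℤ, b.2 = Y₀ ∧ (g.N + 1) * g.A ≤ b.1 ∧ b.1 ≤ (g.N + 2) * g.A ∧
      par b = par (g.w, ya) ∧ Conn η ((F1 g Y₀ ya : Set (ℤ × ℤ)) ∪ S) b (g.w, ya) := by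
  obtain ⟨⟨n1, n1'⟩, n2, n3, n4, e1, e2, e4, e3, e2', -, -⟩ := nums hg
  have hport := mem_ports hS.port
  simp only at hport
  obtain ⟨r0, r1, r2⟩ := rw_spec n1 (y := ya) (by omega)
  have hx₁ := hw.x₁
  have hy₀ := hw.y₀
  have hy₁ := hw.y₁
  have hx₀ := hw.x₀
  rw [e4] at hx₁ hy₀ hy₁ hx₀
  obtain ⟨⟨⟨c1, c2⟩, c3⟩, c4⟩ := hξ
  have hF : ∀ f : ℤ × ℤ, f ∈ (F1 g Y₀ ya : Set (ℤ × ℤ)) ↔
      (f ∈ RF ((g.N + 1) * g.A) ((g.N + 2) * g.A) Y₀ (rw' g.A ya - g.A) ∨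
      f ∈ RF ((g.N - 3) * g.A) ((g.N + 2) * g.A) (rw' g.A ya - 2 * g.A) (rw' g.A ya - g.A)) ∨
      f ∈ RF ((g.N - 3) * g.A) ((g.N - 2) * g.A) (rw' g.A ya - 2 * g.A) (rw' g.A ya + 3 * g.A) ∨
      f ∈ RF ((g.N - 3) * g.A) ((g.N + 2) * g.A) (rw' g.A ya + 2 * g.A) (rw' g.A ya + 3 * g.A) := by
    intro f
    unfold F1
    rw [Finset.mem_coe, mem_union, mem_union, mem_union, or_assoc]
  obtain ⟨p, q, -, p1, p2, p3, p4, q1, q2, q3, -, -, -, hc, -⟩ := four (F := (F1 g Y₀ ya : Set (ℤ × ℤ)))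
    (by omega) (by omega) (by omega) c1 c2 c3 c4
    (fun f hf => (hF f).2 (Or.inl (Or.inl (Finset.mem_coe.1 hf))))
    (fun f hf => (hF f).2 (Or.inl (Or.inr (Finset.mem_coe.1 hf))))
    (fun f hf => (hF f).2 (Or.inr (Or.inl (Finset.mem_coe.1 hf))))
    (fun f hf => (hF f).2 (Or.inr (Or.inr (Finset.mem_coe.1 hf))))
  have hpar : par p = par (g.w, ya) := by
    unfold par at p4 ⊢
    omega
  have hss := (MM_agree hS h1).2.2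
  have H := sec_of_pots hg hw hS hK hP h1
  have hb := hP.botR p.1 (by omega) (by omega)
  have hr := hP.right q.2 (by omega) (by omega)
  have ep : p = (p.1, Y₀) := Prod.ext rfl p1
  have eq' : q = ((g.N + 2) * g.A, q.2) := Prod.ext q1 rfl
  rw [← ep] at hb
  rw [← eq'] at hr
  refine ⟨p, p1, p2, p3, hpar, ?_⟩
  refine (H.landD₁ ?_ ?_ hc hpar hb.1 hb.2 (by rw [hr.1, hr.2, add_zero])).mono ?_
  · intro f hf hf'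
    rw [hss] at hf'
    exact h2 f (Finset.mem_coe.1 hf) hf'
  · intro f hf hf' p q hp hq
    rw [hss] at hf'
    have hf2 := (hF f).1 hf
    rw [mem_RFi, mem_RFi, mem_RFi, mem_RFi] at hf2
    refine (pots_fresh hS hK hw hg hP (f := f) (mem_RFi.2 (by omega)) hf'
      (notIn hg hS.in₁ (by omega)) (notIn hg hS.in₂ (by omega)) (by omega) (by omega) hp hq).2 ?_
    intro hl
    have k1 := hK.ball₁ f hl
    have k2 := (hK.box f hl).2.1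
    apply k1
    rw [abs_le, abs_le]
    omega
  · rintro f (hf | hf)
    · exact Or.inl hf
    · refine Or.inr ?_
      rw [← hss]
      exact Or.inl hf

theorem leg₂ (hg : g.Ok) (hw : WinOk g X₀ X₁ Y₀ Y₁)
    (hS : StrZ g ω ya yb a₁ a₂ x₁ x₂ k₁ k₂ l₁ l₂ S) (hK : KapZ g Y₀ ya yb S l₁ l₂ kk lk)
    (hP : Pots g X₀ X₁ Y₀ Y₁ ω ya yb a₁ a₂ l₁ l₂ lk Φ₁ Φ₂) (h1 : ∀ f ∈ S, η f = ω f)
    (h2 : ∀ f ∈ F2 g Y₀ yb, f ∉ S → η f = ξ f) (hξ : ξ ∈ D2 g (par (g.w, ya)) Y₀ yb) :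
    ∃ b : ℤ × ℤ, b.2 = Y₀ ∧ -((g.N + 2) * g.A) ≤ b.1 ∧ b.1 ≤ -((g.N + 1) * g.A) ∧
      par b = par (g.w, ya) ∧ Conn η ((F2 g Y₀ yb : Set (ℤ × ℤ)) ∪ S) b (-(g.w + 2), yb) := by
  obtain ⟨⟨n1, n1'⟩, n2, n3, n4, e1, e2, e4, e3, e2', -, -⟩ := nums hg
  have hport := mem_ports hS.port
  simp only at hport
  obtain ⟨r0, r1, r2⟩ := rw_spec n1 (y := yb) (by omega)
  have hx₁ := hw.x₁
  have hy₀ := hw.y₀
  have hy₁ := hw.y₁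
  have hx₀ := hw.x₀
  rw [e4] at hx₁ hy₀ hy₁ hx₀
  obtain ⟨⟨⟨c1, c2⟩, c3⟩, c4⟩ := hξ
  have hF : ∀ f : ℤ × ℤ, f ∈ (F2 g Y₀ yb : Set (ℤ × ℤ)) ↔
      (f ∈ RF (-((g.N + 2) * g.A)) (-((g.N + 1) * g.A)) Y₀ (rw' g.A yb - g.A) ∨
      f ∈ RF (-((g.N + 2) * g.A)) (-((g.N - 3) * g.A)) (rw' g.A yb - 2 * g.A)
        (rw' g.A yb - g.A)) ∨
      f ∈ RF (-((g.N - 2) * g.A)) (-((g.N - 3) * g.A)) (rw' g.A yb - 2 * g.A)
        (rw' g.A yb + 3 * g.A) ∨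
      f ∈ RF (-((g.N + 2) * g.A)) (-((g.N - 3) * g.A)) (rw' g.A yb + 2 * g.A)
        (rw' g.A yb + 3 * g.A) := by
    intro f
    unfold F2
    rw [Finset.mem_coe, mem_union, mem_union, mem_union, or_assoc]
  obtain ⟨p, -, q, p1, p2, p3, p4, -, -, -, q1, q2, q3, -, hc⟩ := four (F := (F2 g Y₀ yb : Set (ℤ × ℤ)))
    (by omega) (by omega) (by omega) c1 c2 c3 c4
    (fun f hf => (hF f).2 (Or.inl (Or.inl (Finset.mem_coe.1 hf))))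
    (fun f hf => (hF f).2 (Or.inl (Or.inr (Finset.mem_coe.1 hf))))
    (fun f hf => (hF f).2 (Or.inr (Or.inl (Finset.mem_coe.1 hf))))
    (fun f hf => (hF f).2 (Or.inr (Or.inr (Finset.mem_coe.1 hf))))
  have hpar : par p = par (g.w, ya) := by
    unfold par at p4 ⊢
    omega
  have hss := (MM_agree hS h1).2.2
  have H := sec_of_pots hg hw hS hK hP h1
  have hb := hP.botL p.1 (by omega) (by omega)
  have hr := hP.left q.2 (by omega) (by omega)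
  have ep : p = (p.1, Y₀) := Prod.ext rfl p1
  have eq' : q = (-((g.N + 2) * g.A), q.2) := Prod.ext q1 rfl
  rw [← ep] at hb
  rw [← eq'] at hr
  refine ⟨p, p1, p2, p3, hpar, ?_⟩
  refine (H.landD₂ ?_ ?_ hc hpar hb.1 hb.2 (by rw [hr.1, hr.2, add_zero])).mono ?_
  · intro f hf hf'
    rw [hss] at hf'
    exact h2 f (Finset.mem_coe.1 hf) hf'
  · intro f hf hf' p q hp hq
    rw [hss] at hf'
    have hf2 := (hF f).1 hf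
    rw [mem_RFi, mem_RFi, mem_RFi, mem_RFi] at hf2
    refine (pots_fresh hS hK hw hg hP (f := f) (mem_RFi.2 (by omega)) hf'
      (notIn hg hS.in₁ (by omega)) (notIn hg hS.in₂ (by omega)) (by omega) (by omega) hp hq).2 ?_
    intro hl
    have k1 := hK.ball₂ f hl
    have k2 := (hK.box f hl).1
    apply k1
    rw [abs_le, abs_le]
    omega
  · rintro f (hf | hf)
    · exact Or.inl hf
    · refine Or.inr ?_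
      rw [← hss]
      exact Or.inr hf

theorem strip (hg : g.Ok) (hw : WinOk g X₀ X₁ Y₀ Y₁)
    (hS : StrZ g ω ya yb a₁ a₂ x₁ x₂ k₁ k₂ l₁ l₂ S) (hK : KapZ g Y₀ ya yb S l₁ l₂ kk lk)
    (hP : Pots g X₀ X₁ Y₀ Y₁ ω ya yb a₁ a₂ l₁ l₂ lk Φ₁ Φ₂) (h1 : ∀ f ∈ S, η f = ω f)
    (h2 : ∀ f ∈ FP g Y₁, f ∉ S → η f = ξ f) (hξ : ξ ∈ PS g (par (g.w, ya + 1)) Y₁) :
    ∃ t : ℤ × ℤ, t.2 = Y₁ ∧ (Conn η ((FP g Y₁ : Set (ℤ × ℤ)) ∪ S) t (g.w, ya + 1) ∨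
      Conn η ((FP g Y₁ : Set (ℤ × ℤ)) ∪ S) t (-(g.w + 2), yb + 1)) := by
  obtain ⟨⟨n1, n1'⟩, n2, n3, n4, e1, e2, e4, e3, e2', e20, e19⟩ := nums hg
  have hx₁ := hw.x₁
  have hy₀ := hw.y₀
  have hy₁ := hw.y₁
  have hx₀ := hw.x₀
  rw [e4] at hx₁ hy₀ hy₁ hx₀
  obtain ⟨q, p, q1, q2, q3, p1, q4, hc⟩ := hξ
  have hpp := Conn.parity hc
  have hpx : (g.N - 20) * g.A ≤ p.1 ∧ p.1 ≤ (g.N - 19) * g.A := by
    have key : ∀ {v : ℤ × ℤ}, Conn ξ (RF ((g.N - 20) * g.A) ((g.N - 19) * g.A)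
        (-((g.N + 1) * g.A)) Y₁) q v → (g.N - 20) * g.A ≤ v.1 ∧ v.1 ≤ (g.N - 19) * g.A := by
      intro v h
      induction h with
      | refl => exact ⟨q2, q3⟩
      | tail _ hb _ =>
        obtain ⟨f, hf, -, -, c⟩ := hb.exists_face
        have hf' := mem_RFi.1 (Finset.mem_coe.1 hf)
        unfold IsCor at c
        omega
    exact key hc
  have hpar : par p = par (g.w, ya + 1) := by
    unfold par at q4 ⊢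
    omega
  have hss := (MM_agree hS h1).2.2
  have H := sec_of_pots hg hw hS hK hP h1
  have hb := hP.strip q.1 (by omega) (by omega)
  have ht := hP.top p.1 (by omega) (by omega)
  have ep : p = (p.1, Y₁) := Prod.ext rfl p1
  have eq' : q = (q.1, -((g.N + 1) * g.A)) := Prod.ext rfl q1
  rw [← eq'] at hb
  rw [← ep] at ht
  refine ⟨p, p1, ?_⟩
  have hFP : ∀ f : ℤ × ℤ, f ∈ (FP g Y₁ : Set (ℤ × ℤ)) ↔ f ∈ RF ((g.N - 20) * g.A)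
      ((g.N - 19) * g.A) (-((g.N + 1) * g.A)) Y₁ := fun f => by
    unfold FP
    exact Finset.mem_coe
  have hc' : Conn ξ (FP g Y₁ : Set (ℤ × ℤ)) p q :=
    Conn.symm (hc.mono fun f hf => (hFP f).2 (Finset.mem_coe.1 hf))
  have t1 : ∀ f ∈ (FP g Y₁ : Set (ℤ × ℤ)), f ∉ SS η (DZ g.w ya yb a₁ a₂) (tR g.w ya) ∪
      SS η (DZ g.w ya yb a₁ a₂) (tL g.w yb) → η f = ξ f := by
    intro f hf hf'
    rw [hss] at hf'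
    exact h2 f (Finset.mem_coe.1 hf) hf'
  have t2 : ∀ f ∈ (FP g Y₁ : Set (ℤ × ℤ)), f ∉ SS η (DZ g.w ya yb a₁ a₂) (tR g.w ya) ∪
      SS η (DZ g.w ya yb a₁ a₂) (tL g.w yb) → ∀ p q, IsCor f p → IsCor f q →
      Φ₁ p + Φ₂ p = Φ₁ q + Φ₂ q := by
    intro f hf hf' p q hp hq
    rw [hss] at hf'
    have hf2 := (hFP f).1 hf
    rw [mem_RFi] at hf2
    exact (pots_fresh hS hK hw hg hP (f := f) (mem_RFi.2 (by omega)) hf'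
      (notIn hg hS.in₁ (by omega)) (notIn hg hS.in₂ (by omega)) (by omega) (by omega) hp hq).1
  rcases H.landP t1 t2 hc' hpar (by rw [ht.1, ht.2, add_zero])
    (by rw [hb.1, hb.2, add_zero]) with h3 | h3
  · refine Or.inl (h3.mono ?_)
    rintro f (hf | hf)
    · exact Or.inl hf
    · refine Or.inr ?_
      rw [← hss]
      exact Or.inl hf
  · refine Or.inr (h3.mono ?_)
    rintro f (hf | hf)
    · exact Or.inl hf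
    · refine Or.inr ?_
      rw [← hss]
      exact Or.inr hf

end Pool.Agent.Occ
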