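import Pool.Agent.Lib.MP_6bd702_occ.ZGC

/-!
# Row ZG, the geometry of the gate: the ends of the legs
-/

set_option autoImplicit false

namespace Pool.Agent.Occ

open Finset Pool.Agent.Perc Pool.Agent.Perc3 Pool.Agent.PercD Pool.Agent.Perc6

namespace ZGAux

variable {g : Par} {ξ : Cfg} {s : Fin 4} {i : ℤ} {f : ℤ × ℤ}

/-! ### The ends of the legs -/

/-- The vertex of the boundary of the hole on the side `s` at the position `y`. -/
def vS (s : Fin 4) (R y : ℤ) : ℤ × ℤ := ![(R, y), (y, R), (-R, y), (y, -R)] s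

theorem end_s {K : Finset (ℤ × ℤ)} {col j : ℤ} (ha : 1 ≤ g.Ai) (s : Fin 4)
    (hω : ξ ∈ TubeEv col 0 0 g.Ai K) (hk : ceS s (g.Ni - 1) j ∈ K) :
    ∃ y, g.Ai * j ≤ y ∧ y ≤ g.Ai * j + g.Ai ∧
      Spine ξ col 0 0 g.Ai (ceS s (g.Ni - 1) j) (vS s g.R y) := by
  have eR : g.R = g.Ai * (g.Ni - 1) := by unfold Par.R; ring
  have eN : g.Ai * (-(g.Ni - 1) - 1 + 1) = -g.R := by rw [eR]; ring
  have eJ : g.Ai * (j + 1) = g.Ai * j + g.Ai := by ring
  fin_cases s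
  · change (g.Ni - 1, j) ∈ K at hk
    change ∃ y, _ ∧ _ ∧ Spine ξ col 0 0 g.Ai (g.Ni - 1, j) (g.R, y)
    obtain ⟨u, v, hu, -, hs, -, -⟩ := exists_spine_LR ha hω hk
    simp only [zero_add, ← eR] at hu
    have h2 := hs.2.1
    simp only [zero_add, eJ] at h2
    have he : u = (g.R, u.2) := Prod.ext hu rfl
    exact ⟨u.2, h2.2.2.1, h2.2.2.2, by rw [← he]; exact hs⟩
  · change (j, g.Ni - 1) ∈ K at hk
    change ∃ y, _ ∧ _ ∧ Spine ξ col 0 0 g.Ai (j, g.Ni - 1) (y, g.R)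
    obtain ⟨u, v, hu, -, hs, -, -⟩ := exists_spine_BT ha hω hk
    simp only [zero_add, ← eR] at hu
    have h2 := hs.2.1
    simp only [zero_add, eJ] at h2
    have he : u = (u.1, g.R) := Prod.ext rfl hu
    exact ⟨u.1, h2.1, h2.2.1, by rw [← he]; exact hs⟩
  · change (-(g.Ni - 1) - 1, j) ∈ K at hk
    change ∃ y, _ ∧ _ ∧ Spine ξ col 0 0 g.Ai (-(g.Ni - 1) - 1, j) (-g.R, y)
    obtain ⟨u, v, -, hv, -, hs, -⟩ := exists_spine_LR ha hω hk
    simp only [zero_add, eN] at hv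
    have h2 := hs.2.1
    simp only [zero_add, eJ] at h2
    have he : v = (-g.R, v.2) := Prod.ext hv rfl
    exact ⟨v.2, h2.2.2.1, h2.2.2.2, by rw [← he]; exact hs⟩
  · change (j, -(g.Ni - 1) - 1) ∈ K at hk
    change ∃ y, _ ∧ _ ∧ Spine ξ col 0 0 g.Ai (j, -(g.Ni - 1) - 1) (y, -g.R)
    obtain ⟨u, v, -, hv, -, hs, -⟩ := exists_spine_BT ha hω hk
    simp only [zero_add, eN] at hv
    have h2 := hs.2.1
    simp only [zero_add, eJ] at h2
    have he : v = (v.1, -g.R) := Prod.ext rfl hv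
    exact ⟨v.1, h2.1, h2.2.1, by rw [← he]; exact hs⟩

/-! ### Connection of the cells -/

theorem cconn_symm {K : Finset (ℤ × ℤ)} {k k' : ℤ × ℤ} (h : CConn K k k') : CConn K k' k := by
  unfold CConn at h ⊢
  induction h with
  | refl => exact Relation.ReflTransGen.refl
  | tail _ hs ih =>
    refine Relation.ReflTransGen.head ⟨hs.2.1, hs.1, ?_⟩ ih
    rcases hs.2.2 with ⟨h1, h2⟩ | ⟨h1, h2⟩
    · exact Or.inl ⟨h1.symm, by rw [abs_sub_comm]; exact h2⟩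
    · exact Or.inr ⟨h1.symm, by rw [abs_sub_comm]; exact h2⟩

theorem seg_V {K : Finset (ℤ × ℤ)} {x a b : ℤ} (hab : a ≤ b)
    (h : ∀ j, a ≤ j → j ≤ b → (x, j) ∈ K) : CConn K (x, a) (x, b) := by
  induction b, hab using Int.leInduction with
  | base => exact Relation.ReflTransGen.refl
  | succ b hb ih =>
    refine (ih fun j h1 h2 => h j h1 (by omega)).tail ⟨h b hb (by omega), h _ (by omega) le_rfl,
      Or.inl ⟨rfl, ?_⟩⟩
    simp only
    rw [show b - (b + 1) = -1 by ring]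
    norm_num

theorem seg_H {K : Finset (ℤ × ℤ)} {y a b : ℤ} (hab : a ≤ b)
    (h : ∀ j, a ≤ j → j ≤ b → (j, y) ∈ K) : CConn K (a, y) (b, y) := by
  induction b, hab using Int.leInduction with
  | base => exact Relation.ReflTransGen.refl
  | succ b hb ih =>
    refine (ih fun j h1 h2 => h j h1 (by omega)).tail ⟨h b hb (by omega), h _ (by omega) le_rfl,
      Or.inr ⟨rfl, ?_⟩⟩
    simp only
    rw [show b - (b + 1) = -1 by ring]
    norm_num

theorem conn_cells (hN : 100 ≤ g.Ni) (hi : GateOk g i) (s : Fin 4) :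
    CConn (RD g s i) (ceS s (g.Ni - 1) (i - 1)) (ceS s (g.Ni - 1) (i + 1)) ∧
      ceS s (g.Ni - 1) (i - 1) ∈ RD g s i ∧ ceS s (g.Ni - 1) (i + 1) ∈ RD g s i := by
  obtain ⟨i1, i2⟩ := hi
  refine ⟨?_, mem_RD.2 (Or.inr (Or.inr (Or.inl rfl))),
    mem_RD.2 (Or.inr (Or.inr (Or.inr (Or.inr rfl))))⟩
  generalize hN' : g.Ni = N at *
  fin_cases s
  · change CConn (RD g 0 i) (N - 1, i - 1) (N - 1, i + 1)
    have hm : ∀ x y, (((-(N + 1) - 1 ≤ x ∧ x ≤ N + 1 ∧ -(N + 1) - 1 ≤ y ∧ y ≤ N + 1) ∧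
        (x = N + 1 ∨ x = -(N + 1) - 1 ∨ y = N + 1 ∨ y = -(N + 1) - 1)) ∧ ¬ (x = N + 1 ∧ y = i)) ∨
        ((x = N ∨ x = N - 1) ∧ (y = i - 1 ∨ y = i + 1)) → (x, y) ∈ RD g 0 i := by
      intro x y h
      rw [mem_RD, mem_lay, hN']
      change ((x, y) ≠ (N + 1, i) ∧ _) ∨ (x, y) = (N, i - 1) ∨ (x, y) = (N - 1, i - 1) ∨
        (x, y) = (N, i + 1) ∨ (x, y) = (N - 1, i + 1)
      simp only [ne_eq, Prod.mk.injEq]
      omega
    have c1 : CConn (RD g 0 i) (N - 1, i - 1) (N + 1, i - 1) :=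
      seg_H (by omega) fun j _ _ => hm _ _ (by omega)
    have c2 : CConn (RD g 0 i) (N + 1, -(N + 1) - 1) (N + 1, i - 1) :=
      seg_V (by omega) fun j _ _ => hm _ _ (by omega)
    have c3 : CConn (RD g 0 i) (-(N + 1) - 1, -(N + 1) - 1) (N + 1, -(N + 1) - 1) :=
      seg_H (by omega) fun j _ _ => hm _ _ (by omega)
    have c4 : CConn (RD g 0 i) (-(N + 1) - 1, -(N + 1) - 1) (-(N + 1) - 1, N + 1) :=
      seg_V (by omega) fun j _ _ => hm _ _ (by omega)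
    have c5 : CConn (RD g 0 i) (-(N + 1) - 1, N + 1) (N + 1, N + 1) :=
      seg_H (by omega) fun j _ _ => hm _ _ (by omega)
    have c6 : CConn (RD g 0 i) (N + 1, i + 1) (N + 1, N + 1) :=
      seg_V (by omega) fun j _ _ => hm _ _ (by omega)
    have c7 : CConn (RD g 0 i) (N - 1, i + 1) (N + 1, i + 1) :=
      seg_H (by omega) fun j _ _ => hm _ _ (by omega)
    exact c1.trans ((cconn_symm c2).trans ((cconn_symm c3).trans (c4.trans (c5.trans
      ((cconn_symm c6).trans (cconn_symm c7))))))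
  · change CConn (RD g 1 i) (i - 1, N - 1) (i + 1, N - 1)
    have hm : ∀ x y, (((-(N + 1) - 1 ≤ x ∧ x ≤ N + 1 ∧ -(N + 1) - 1 ≤ y ∧ y ≤ N + 1) ∧
        (x = N + 1 ∨ x = -(N + 1) - 1 ∨ y = N + 1 ∨ y = -(N + 1) - 1)) ∧ ¬ (x = i ∧ y = N + 1)) ∨
        ((y = N ∨ y = N - 1) ∧ (x = i - 1 ∨ x = i + 1)) → (x, y) ∈ RD g 1 i := by
      intro x y h
      rw [mem_RD, mem_lay, hN']
      change ((x, y) ≠ (i, N + 1) ∧ _) ∨ (x, y) = (i - 1, N) ∨ (x, y) = (i - 1, N - 1) ∨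
        (x, y) = (i + 1, N) ∨ (x, y) = (i + 1, N - 1)
      simp only [ne_eq, Prod.mk.injEq]
      omega
    have c1 : CConn (RD g 1 i) (i - 1, N - 1) (i - 1, N + 1) :=
      seg_V (by omega) fun j _ _ => hm _ _ (by omega)
    have c2 : CConn (RD g 1 i) (-(N + 1) - 1, N + 1) (i - 1, N + 1) :=
      seg_H (by omega) fun j _ _ => hm _ _ (by omega)
    have c3 : CConn (RD g 1 i) (-(N + 1) - 1, -(N + 1) - 1) (-(N + 1) - 1, N + 1) :=
      seg_V (by omega) fun j _ _ => hm _ _ (by omega)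
    have c4 : CConn (RD g 1 i) (-(N + 1) - 1, -(N + 1) - 1) (N + 1, -(N + 1) - 1) :=
      seg_H (by omega) fun j _ _ => hm _ _ (by omega)
    have c5 : CConn (RD g 1 i) (N + 1, -(N + 1) - 1) (N + 1, N + 1) :=
      seg_V (by omega) fun j _ _ => hm _ _ (by omega)
    have c6 : CConn (RD g 1 i) (i + 1, N + 1) (N + 1, N + 1) :=
      seg_H (by omega) fun j _ _ => hm _ _ (by omega)
    have c7 : CConn (RD g 1 i) (i + 1, N - 1) (i + 1, N + 1) :=
      seg_V (by omega) fun j _ _ => hm _ _ (by omega)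
    exact c1.trans ((cconn_symm c2).trans ((cconn_symm c3).trans (c4.trans (c5.trans
      ((cconn_symm c6).trans (cconn_symm c7))))))
  · change CConn (RD g 2 i) (-(N - 1) - 1, i - 1) (-(N - 1) - 1, i + 1)
    have hm : ∀ x y, (((-(N + 1) - 1 ≤ x ∧ x ≤ N + 1 ∧ -(N + 1) - 1 ≤ y ∧ y ≤ N + 1) ∧
        (x = N + 1 ∨ x = -(N + 1) - 1 ∨ y = N + 1 ∨ y = -(N + 1) - 1)) ∧
          ¬ (x = -(N + 1) - 1 ∧ y = i)) ∨
        ((x = -N - 1 ∨ x = -(N - 1) - 1) ∧ (y = i - 1 ∨ y = i + 1)) → (x, y) ∈ RD g 2 i := by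
      intro x y h
      rw [mem_RD, mem_lay, hN']
      change ((x, y) ≠ (-(N + 1) - 1, i) ∧ _) ∨ (x, y) = (-N - 1, i - 1) ∨
        (x, y) = (-(N - 1) - 1, i - 1) ∨ (x, y) = (-N - 1, i + 1) ∨ (x, y) = (-(N - 1) - 1, i + 1)
      simp only [ne_eq, Prod.mk.injEq]
      omega
    have c1 : CConn (RD g 2 i) (-(N + 1) - 1, i - 1) (-(N - 1) - 1, i - 1) :=
      seg_H (by omega) fun j _ _ => hm _ _ (by omega)
    have c2 : CConn (RD g 2 i) (-(N + 1) - 1, -(N + 1) - 1) (-(N + 1) - 1, i - 1) :=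
      seg_V (by omega) fun j _ _ => hm _ _ (by omega)
    have c3 : CConn (RD g 2 i) (-(N + 1) - 1, -(N + 1) - 1) (N + 1, -(N + 1) - 1) :=
      seg_H (by omega) fun j _ _ => hm _ _ (by omega)
    have c4 : CConn (RD g 2 i) (N + 1, -(N + 1) - 1) (N + 1, N + 1) :=
      seg_V (by omega) fun j _ _ => hm _ _ (by omega)
    have c5 : CConn (RD g 2 i) (-(N + 1) - 1, N + 1) (N + 1, N + 1) :=
      seg_H (by omega) fun j _ _ => hm _ _ (by omega)
    have c6 : CConn (RD g 2 i) (-(N + 1) - 1, i + 1) (-(N + 1) - 1, N + 1) :=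
      seg_V (by omega) fun j _ _ => hm _ _ (by omega)
    have c7 : CConn (RD g 2 i) (-(N + 1) - 1, i + 1) (-(N - 1) - 1, i + 1) :=
      seg_H (by omega) fun j _ _ => hm _ _ (by omega)
    exact (cconn_symm c1).trans ((cconn_symm c2).trans (c3.trans (c4.trans ((cconn_symm c5).trans
      ((cconn_symm c6).trans c7)))))
  · change CConn (RD g 3 i) (i - 1, -(N - 1) - 1) (i + 1, -(N - 1) - 1)
    have hm : ∀ x y, (((-(N + 1) - 1 ≤ x ∧ x ≤ N + 1 ∧ -(N + 1) - 1 ≤ y ∧ y ≤ N + 1) ∧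
        (x = N + 1 ∨ x = -(N + 1) - 1 ∨ y = N + 1 ∨ y = -(N + 1) - 1)) ∧
          ¬ (x = i ∧ y = -(N + 1) - 1)) ∨
        ((y = -N - 1 ∨ y = -(N - 1) - 1) ∧ (x = i - 1 ∨ x = i + 1)) → (x, y) ∈ RD g 3 i := by
      intro x y h
      rw [mem_RD, mem_lay, hN']
      change ((x, y) ≠ (i, -(N + 1) - 1) ∧ _) ∨ (x, y) = (i - 1, -N - 1) ∨
        (x, y) = (i - 1, -(N - 1) - 1) ∨ (x, y) = (i + 1, -N - 1) ∨ (x, y) = (i + 1, -(N - 1) - 1)
      simp only [ne_eq, Prod.mk.injEq]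
      omega
    have c1 : CConn (RD g 3 i) (i - 1, -(N + 1) - 1) (i - 1, -(N - 1) - 1) :=
      seg_V (by omega) fun j _ _ => hm _ _ (by omega)
    have c2 : CConn (RD g 3 i) (-(N + 1) - 1, -(N + 1) - 1) (i - 1, -(N + 1) - 1) :=
      seg_H (by omega) fun j _ _ => hm _ _ (by omega)
    have c3 : CConn (RD g 3 i) (-(N + 1) - 1, -(N + 1) - 1) (-(N + 1) - 1, N + 1) :=
      seg_V (by omega) fun j _ _ => hm _ _ (by omega)
    have c4 : CConn (RD g 3 i) (-(N + 1) - 1, N + 1) (N + 1, N + 1) :=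
      seg_H (by omega) fun j _ _ => hm _ _ (by omega)
    have c5 : CConn (RD g 3 i) (N + 1, -(N + 1) - 1) (N + 1, N + 1) :=
      seg_V (by omega) fun j _ _ => hm _ _ (by omega)
    have c6 : CConn (RD g 3 i) (i + 1, -(N + 1) - 1) (N + 1, -(N + 1) - 1) :=
      seg_H (by omega) fun j _ _ => hm _ _ (by omega)
    have c7 : CConn (RD g 3 i) (i + 1, -(N + 1) - 1) (i + 1, -(N - 1) - 1) :=
      seg_V (by omega) fun j _ _ => hm _ _ (by omega)
    exact (cconn_symm c1).trans ((cconn_symm c2).trans (c3.trans (c4.trans ((cconn_symm c5).trans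
      ((cconn_symm c6).trans c7)))))

/-- The two ends of the ring. -/
theorem ends (hg : g.Ok) (hi : GateOk g i) {col : ℤ} (hω : ξ ∈ TubeEv col 0 0 g.Ai (RD g s i)) :
    ∃ y y', g.Ai * i - g.Ai ≤ y ∧ y ≤ g.Ai * i ∧ g.Ai * i + g.Ai ≤ y' ∧
      y' ≤ g.Ai * i + 2 * g.Ai ∧ ((vS s g.R y).1 + (vS s g.R y).2 - col) % 2 = 0 ∧
      Conn ξ (FR g s i) (vS s g.R y) (vS s g.R y') := by
  obtain ⟨f1, f2, f3, f4, f5, f6, f7, -⟩ := ZCAux.lin hg
  have ha : 1 ≤ g.Ai := by omega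
  obtain ⟨h1, h2, h3⟩ := conn_cells hg.Ni1 hi s
  obtain ⟨y, y1, y2, hy⟩ := end_s ha s hω h2
  obtain ⟨y', y1', y2', hy'⟩ := end_s ha s hω h3
  have e1 : g.Ai * (i - 1) = g.Ai * i - g.Ai := by ring
  have e2 : g.Ai * (i + 1) = g.Ai * i + g.Ai := by ring
  rw [e1] at y1 y2
  rw [e2] at y1' y2'
  exact ⟨y, y', y1, by omega, y1', by omega, hy.1, tube_conn ha hω h1 h2 hy hy'⟩

end ZGAux

end Pool.Agent.Occ
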