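import Pool.Agent.Lib.MP_6bd702_occ.ZGB
import Pool.Agent.Lib.MP_6bd702_occ.ZGD
import Pool.Agent.Lib.MP_6bd702_occ.ZGE

/-!
# Row ZG, the geometry of the gate: the gate
-/

set_option autoImplicit false

namespace Pool.Agent.Occ

open Finset Pool.Agent.Perc Pool.Agent.Perc3 Pool.Agent.PercD Pool.Agent.Perc6

namespace ZGAux

variable {g : Par} {ξ : Cfg} {s : Fin 4} {i : ℤ} {f : ℤ × ℤ}

/-! ### The gate -/

/-- The gate at the positions `[κ, κ + 3 Ai]` of the boundary of the hole. -/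
structure GD (g : Par) (s : Fin 4) (i κ : ℤ) : Prop where
  ok : GateOk g i
  r0 : 0 ≤ κ
  r1 : κ + 3 * g.Ai ≤ 8 * g.R
  out : ∀ f ∈ FR g s i, f ∈ BR (0, 0) (g.R + 3 * g.Ai) ∧ f ∉ BR (0, 0) g.R ∧
    ¬ OutR g.R (κ + g.Ai) f ∧ (f ∈ BR (0, 0) (g.d + g.Ai) → ∀ k, OutR g.R k f →
      κ ≤ k ∧ k < κ + 3 * g.Ai)
  ends : ∀ ξ col, ξ ∈ TubeEv col 0 0 g.Ai (RD g s i) → ∃ k k', κ ≤ k ∧ k ≤ κ + g.Ai ∧
    κ + 2 * g.Ai ≤ k' ∧ k' ≤ κ + 3 * g.Ai ∧
    ((cyc 0 0 0 g.R k).1 + (cyc 0 0 0 g.R k).2 - col) % 2 = 0 ∧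
    Conn ξ (FR g s i) (cyc 0 0 0 g.R k) (cyc 0 0 0 g.R k')
  gate : ∃ a L, InL { g with n := g.Ai } ∅ a (κ + g.Ai) L ∧ a ∉ BR (0, 0) (g.R + 3 * g.Ai)

theorem csymm {η : Cfg} {F₁ : Set (ℤ × ℤ)} {p q : ℤ × ℤ} (hc : Conn η F₁ p q) :
    Conn η F₁ q p := by
  induction hc with
  | refl => exact Relation.ReflTransGen.refl
  | tail _ hb ih => exact Relation.ReflTransGen.head hb.symm' ih

theorem gd_of (hg : g.Ok) {κ : ℤ} (hi : GateOk g i)
    (h : (s = 0 ∧ g.Ai * i = κ + g.Ai ∧ g.Ai ≤ κ ∧ κ + 4 * g.Ai ≤ g.R) ∨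
      (s = 1 ∧ g.Ai * i = 2 * g.R - κ - 2 * g.Ai ∧ g.R + g.Ai ≤ κ ∧ κ + 4 * g.Ai ≤ 3 * g.R) ∨
      (s = 2 ∧ g.Ai * i = 4 * g.R - κ - 2 * g.Ai ∧ 3 * g.R + g.Ai ≤ κ ∧
        κ + 4 * g.Ai ≤ 5 * g.R) ∨
      (s = 3 ∧ g.Ai * i = κ + g.Ai - 6 * g.R ∧ 5 * g.R + g.Ai ≤ κ ∧ κ + 4 * g.Ai ≤ 7 * g.R) ∨
      (s = 0 ∧ g.Ai * i = κ + g.Ai - 8 * g.R ∧ 7 * g.R + g.Ai ≤ κ ∧ κ + 4 * g.Ai ≤ 8 * g.R)) :
    GD g s i κ := by
  obtain ⟨f1, f2, f3, f4, f5, f6, f7, -⟩ := ZCAux.lin hg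
  have gn : ({ g with n := g.Ai } : Par).R = g.R := rfl
  have gd : ({ g with n := g.Ai } : Par).d = g.d := rfl
  refine ⟨hi, ?_, ?_, ?_, ?_, ?_⟩
  · rcases h with h | h | h | h | h <;> omega
  · rcases h with h | h | h | h | h <;> omega
  · intro f hf
    obtain ⟨h1, h2⟩ := mem_FR_lin hg hi hf
    rw [mem_BR, mem_BR] at *
    rw [mem_BR]
    unfold OutR
    simp only at h1 h2 ⊢
    rcases h with ⟨rfl, h3, h4, h5⟩ | ⟨rfl, h3, h4, h5⟩ | ⟨rfl, h3, h4, h5⟩ | ⟨rfl, h3, h4, h5⟩ |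
      ⟨rfl, h3, h4, h5⟩
    · change (_ ∧ ¬ (g.R + 2 * g.Ai ≤ f.1 ∧ g.Ai * i ≤ f.2 ∧ f.2 < g.Ai * i + g.Ai)) ∨
        (g.R ≤ f.1 ∧ f.1 < g.R + 2 * g.Ai ∧ ((g.Ai * i - g.Ai ≤ f.2 ∧ f.2 < g.Ai * i) ∨
        (g.Ai * i + g.Ai ≤ f.2 ∧ f.2 < g.Ai * i + 2 * g.Ai))) at h2
      refine ⟨h1, by omega, fun h9 => ?_, fun h6 k h7 => ?_⟩
      · rcases h2 with ⟨h2', h2⟩ | h2 <;> rcases h9 with h9 | h9 | h9 | h9 | h9 <;> omega
      · have h8 := h2.resolve_left fun h => h.1 (by omega)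
        clear h2
        rcases h7 with h7 | h7 | h7 | h7 | h7 <;> omega
    · change (_ ∧ ¬ (g.R + 2 * g.Ai ≤ f.2 ∧ g.Ai * i ≤ f.1 ∧ f.1 < g.Ai * i + g.Ai)) ∨
        (g.R ≤ f.2 ∧ f.2 < g.R + 2 * g.Ai ∧ ((g.Ai * i - g.Ai ≤ f.1 ∧ f.1 < g.Ai * i) ∨
        (g.Ai * i + g.Ai ≤ f.1 ∧ f.1 < g.Ai * i + 2 * g.Ai))) at h2
      refine ⟨h1, by omega, fun h9 => ?_, fun h6 k h7 => ?_⟩
      · rcases h2 with ⟨h2', h2⟩ | h2 <;> rcases h9 with h9 | h9 | h9 | h9 | h9 <;> omega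
      · have h8 := h2.resolve_left fun h => h.1 (by omega)
        clear h2
        rcases h7 with h7 | h7 | h7 | h7 | h7 <;> omega
    · change (_ ∧ ¬ (g.R + 2 * g.Ai ≤ -1 - f.1 ∧ g.Ai * i ≤ f.2 ∧ f.2 < g.Ai * i + g.Ai)) ∨
        (g.R ≤ -1 - f.1 ∧ -1 - f.1 < g.R + 2 * g.Ai ∧ ((g.Ai * i - g.Ai ≤ f.2 ∧
        f.2 < g.Ai * i) ∨ (g.Ai * i + g.Ai ≤ f.2 ∧ f.2 < g.Ai * i + 2 * g.Ai))) at h2
      refine ⟨h1, by omega, fun h9 => ?_, fun h6 k h7 => ?_⟩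
      · rcases h2 with ⟨h2', h2⟩ | h2 <;> rcases h9 with h9 | h9 | h9 | h9 | h9 <;> omega
      · have h8 := h2.resolve_left fun h => h.1 (by omega)
        clear h2
        rcases h7 with h7 | h7 | h7 | h7 | h7 <;> omega
    · change (_ ∧ ¬ (g.R + 2 * g.Ai ≤ -1 - f.2 ∧ g.Ai * i ≤ f.1 ∧ f.1 < g.Ai * i + g.Ai)) ∨
        (g.R ≤ -1 - f.2 ∧ -1 - f.2 < g.R + 2 * g.Ai ∧ ((g.Ai * i - g.Ai ≤ f.1 ∧
        f.1 < g.Ai * i) ∨ (g.Ai * i + g.Ai ≤ f.1 ∧ f.1 < g.Ai * i + 2 * g.Ai))) at h2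
      refine ⟨h1, by omega, fun h9 => ?_, fun h6 k h7 => ?_⟩
      · rcases h2 with ⟨h2', h2⟩ | h2 <;> rcases h9 with h9 | h9 | h9 | h9 | h9 <;> omega
      · have h8 := h2.resolve_left fun h => h.1 (by omega)
        clear h2
        rcases h7 with h7 | h7 | h7 | h7 | h7 <;> omega
    · change (_ ∧ ¬ (g.R + 2 * g.Ai ≤ f.1 ∧ g.Ai * i ≤ f.2 ∧ f.2 < g.Ai * i + g.Ai)) ∨
        (g.R ≤ f.1 ∧ f.1 < g.R + 2 * g.Ai ∧ ((g.Ai * i - g.Ai ≤ f.2 ∧ f.2 < g.Ai * i) ∨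
        (g.Ai * i + g.Ai ≤ f.2 ∧ f.2 < g.Ai * i + 2 * g.Ai))) at h2
      refine ⟨h1, by omega, fun h9 => ?_, fun h6 k h7 => ?_⟩
      · rcases h2 with ⟨h2', h2⟩ | h2 <;> rcases h9 with h9 | h9 | h9 | h9 | h9 <;> omega
      · have h8 := h2.resolve_left fun h => h.1 (by omega)
        clear h2
        rcases h7 with h7 | h7 | h7 | h7 | h7 <;> omega
  · intro ξ col hω
    obtain ⟨y, y', y1, y2, y3, y4, y5, y6⟩ := ends hg hi hω
    have par' : ((vS s g.R y').1 + (vS s g.R y').2 - col) % 2 = 0 := by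
      have := Conn.parity y6
      clear * - this y5
      omega
    rcases h with ⟨rfl, h3, h4, h5⟩ | ⟨rfl, h3, h4, h5⟩ | ⟨rfl, h3, h4, h5⟩ | ⟨rfl, h3, h4, h5⟩ |
      ⟨rfl, h3, h4, h5⟩
    · have e : ∀ y, 0 ≤ y → y ≤ g.R → vS 0 g.R y = cyc 0 0 0 g.R y := by
        intro y a1 a2
        change (g.R, y) = _
        unfold cyc
        rw [if_pos (by omega), Prod.mk.injEq]
        omega
      rw [e y (by omega) (by omega)] at y5 y6
      rw [e y' (by omega) (by omega)] at y6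
      exact ⟨y, y', by omega, by omega, by omega, by omega, y5, y6⟩
    · have e : ∀ y, -g.R < y → y < g.R → vS 1 g.R y = cyc 0 0 0 g.R (2 * g.R - y) := by
        intro y a1 a2
        change (y, g.R) = _
        unfold cyc
        rw [if_neg (by omega), if_pos (by omega), Prod.mk.injEq]
        omega
      rw [e y (by omega) (by omega)] at y6
      rw [e y' (by omega) (by omega)] at y6 par'
      exact ⟨2 * g.R - y', 2 * g.R - y, by omega, by omega, by omega, by omega, par', csymm y6⟩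
    · have e : ∀ y, -g.R < y → y < g.R → vS 2 g.R y = cyc 0 0 0 g.R (4 * g.R - y) := by
        intro y a1 a2
        change (-g.R, y) = _
        unfold cyc
        rw [if_neg (by omega), if_neg (by omega), if_pos (by omega), Prod.mk.injEq]
        omega
      rw [e y (by omega) (by omega)] at y6
      rw [e y' (by omega) (by omega)] at y6 par'
      exact ⟨4 * g.R - y', 4 * g.R - y, by omega, by omega, by omega, by omega, par', csymm y6⟩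
    · have e : ∀ y, -g.R < y → y < g.R → vS 3 g.R y = cyc 0 0 0 g.R (y + 6 * g.R) := by
        intro y a1 a2
        change (y, -g.R) = _
        unfold cyc
        rw [if_neg (by omega), if_neg (by omega), if_neg (by omega), if_pos (by omega),
          Prod.mk.injEq]
        omega
      rw [e y (by omega) (by omega)] at y5 y6
      rw [e y' (by omega) (by omega)] at y6
      exact ⟨y + 6 * g.R, y' + 6 * g.R, by omega, by omega, by omega, by omega, y5, y6⟩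
    · have e : ∀ y, -g.R < y → y ≤ 0 → vS 0 g.R y = cyc 0 0 0 g.R (y + 8 * g.R) := by
        intro y a1 a2
        change (g.R, y) = _
        unfold cyc
        rw [if_neg (by omega), if_neg (by omega), if_neg (by omega), if_neg (by omega),
          Prod.mk.injEq]
        omega
      rw [e y (by omega) (by omega)] at y5 y6
      rw [e y' (by omega) (by omega)] at y6
      exact ⟨y + 8 * g.R, y' + 8 * g.R, by omega, by omega, by omega, by omega, y5, y6⟩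
  · have hE : ∀ f ∈ (∅ : Set (ℤ × ℤ)), f ∉ BR (0, 0) ({ g with n := g.Ai } : Par).R :=
      fun f hf => absurd hf (Set.notMem_empty f)
    rcases h with ⟨-, h3, h4, h5⟩ | ⟨-, h3, h4, h5⟩ | ⟨-, h3, h4, h5⟩ | ⟨-, h3, h4, h5⟩ |
      ⟨-, h3, h4, h5⟩
    · have := inL_of_row (g := { g with n := g.Ai }) (S := ∅) (a := (g.R + 3 * g.Ai, κ + g.Ai))
        (f₀ := (g.R, κ + g.Ai)) (g₀ := (g.R - 1, κ + g.Ai)) (k := κ + g.Ai) (x₀ := g.R)
        (x₁ := g.R + 3 * g.Ai + 1) (y₀ := κ + g.Ai) (y₁ := κ + g.Ai + 1)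
        (by rw [gn]; omega) (by omega) (by rw [gn]; omega)
        (by rw [gn]; exact Or.inl ⟨by omega, rfl, rfl⟩)
        (by rw [mem_RF]; simp only; omega) (by rw [mem_RF]; simp only; omega)
        (fun f hf => ?_) hE
      · obtain ⟨l, hl⟩ := this
        refine ⟨_, l, hl, ?_⟩
        rw [mem_BR]
        simp only
        omega
      · rw [mem_RF] at hf
        rw [mem_BR, gn, gd]
        unfold OutR
        simp only
        refine ⟨by omega, by omega, Set.notMem_empty f⟩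
    · have := inL_of_row (g := { g with n := g.Ai }) (S := ∅)
        (a := (2 * g.R - (κ + g.Ai) - 1, g.R + 3 * g.Ai))
        (f₀ := (2 * g.R - (κ + g.Ai) - 1, g.R)) (g₀ := (2 * g.R - (κ + g.Ai) - 1, g.R - 1))
        (k := κ + g.Ai) (x₀ := 2 * g.R - (κ + g.Ai) - 1)
        (x₁ := 2 * g.R - (κ + g.Ai)) (y₀ := g.R) (y₁ := g.R + 3 * g.Ai + 1)
        (by rw [gn]; omega) (by omega) (by rw [gn]; omega)
        (by rw [gn]; exact Or.inr (Or.inl ⟨by omega, by omega, rfl, rfl⟩))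
        (by rw [mem_RF]; simp only; omega) (by rw [mem_RF]; simp only; omega)
        (fun f hf => ?_) hE
      · obtain ⟨l, hl⟩ := this
        refine ⟨_, l, hl, ?_⟩
        rw [mem_BR]
        simp only
        omega
      · rw [mem_RF] at hf
        rw [mem_BR, gn, gd]
        unfold OutR
        simp only
        refine ⟨by omega, by omega, Set.notMem_empty f⟩
    · have := inL_of_row (g := { g with n := g.Ai }) (S := ∅)
        (a := (-g.R - 1 - 3 * g.Ai, 4 * g.R - (κ + g.Ai) - 1))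
        (f₀ := (-g.R - 1, 4 * g.R - (κ + g.Ai) - 1)) (g₀ := (-g.R, 4 * g.R - (κ + g.Ai) - 1))
        (k := κ + g.Ai) (x₀ := -g.R - 1 - 3 * g.Ai)
        (x₁ := -g.R) (y₀ := 4 * g.R - (κ + g.Ai) - 1) (y₁ := 4 * g.R - (κ + g.Ai))
        (by rw [gn]; omega) (by omega) (by rw [gn]; omega)
        (by rw [gn]; exact Or.inr (Or.inr (Or.inl ⟨by omega, by omega, rfl, rfl⟩)))
        (by rw [mem_RF]; simp only; omega) (by rw [mem_RF]; simp only; omega)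
        (fun f hf => ?_) hE
      · obtain ⟨l, hl⟩ := this
        refine ⟨_, l, hl, ?_⟩
        rw [mem_BR]
        simp only
        omega
      · rw [mem_RF] at hf
        rw [mem_BR, gn, gd]
        unfold OutR
        simp only
        refine ⟨by omega, by omega, Set.notMem_empty f⟩
    · have := inL_of_row (g := { g with n := g.Ai }) (S := ∅)
        (a := (κ + g.Ai - 6 * g.R, -g.R - 1 - 3 * g.Ai))
        (f₀ := (κ + g.Ai - 6 * g.R, -g.R - 1)) (g₀ := (κ + g.Ai - 6 * g.R, -g.R))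
        (k := κ + g.Ai) (x₀ := κ + g.Ai - 6 * g.R)
        (x₁ := κ + g.Ai - 6 * g.R + 1) (y₀ := -g.R - 1 - 3 * g.Ai) (y₁ := -g.R)
        (by rw [gn]; omega) (by omega) (by rw [gn]; omega)
        (by rw [gn]; exact Or.inr (Or.inr (Or.inr (Or.inl ⟨by omega, by omega, rfl, rfl⟩))))
        (by rw [mem_RF]; simp only; omega) (by rw [mem_RF]; simp only; omega)
        (fun f hf => ?_) hE
      · obtain ⟨l, hl⟩ := this
        refine ⟨_, l, hl, ?_⟩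
        rw [mem_BR]
        simp only
        omega
      · rw [mem_RF] at hf
        rw [mem_BR, gn, gd]
        unfold OutR
        simp only
        refine ⟨by omega, by omega, Set.notMem_empty f⟩
    · have := inL_of_row (g := { g with n := g.Ai }) (S := ∅)
        (a := (g.R + 3 * g.Ai, κ + g.Ai - 8 * g.R))
        (f₀ := (g.R, κ + g.Ai - 8 * g.R)) (g₀ := (g.R - 1, κ + g.Ai - 8 * g.R))
        (k := κ + g.Ai) (x₀ := g.R)
        (x₁ := g.R + 3 * g.Ai + 1) (y₀ := κ + g.Ai - 8 * g.R) (y₁ := κ + g.Ai - 8 * g.R + 1)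
        (by rw [gn]; omega) (by omega) (by rw [gn]; omega)
        (by rw [gn]; exact Or.inr (Or.inr (Or.inr (Or.inr ⟨by omega, rfl, rfl⟩))))
        (by rw [mem_RF]; simp only; omega) (by rw [mem_RF]; simp only; omega)
        (fun f hf => ?_) hE
      · obtain ⟨l, hl⟩ := this
        refine ⟨_, l, hl, ?_⟩
        rw [mem_BR]
        simp only
        omega
      · rw [mem_RF] at hf
        rw [mem_BR, gn, gd]
        unfold OutR
        simp only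
        refine ⟨by omega, by omega, Set.notMem_empty f⟩

/-- A gate in a part of a side of the hole. -/
theorem exists_gd (hg : g.Ok) {b b' α β : ℤ}
    (hb : (b = 0 ∧ b' = g.R) ∨ (b = g.R ∧ b' = 3 * g.R) ∨ (b = 3 * g.R ∧ b' = 5 * g.R) ∨
      (b = 5 * g.R ∧ b' = 7 * g.R) ∨ (b = 7 * g.R ∧ b' = 8 * g.R)) (h1 : b ≤ α)
    (h2 : α + 5 * g.Ai - 1 ≤ β) (h3 : β ≤ b') :
    ∃ s i κ, GD g s i κ ∧ α ≤ κ ∧ κ + 3 * g.Ai ≤ β := by
  obtain ⟨f1, f2, f3, f4, f5, f6, f7, -⟩ := ZCAux.lin hg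
  have ha : 0 < g.Ai := by omega
  have eR : g.R = g.Ai * (g.Ni - 1) := by unfold Par.R; ring
  -- the multiples of the mesh
  obtain ⟨B, hB⟩ : ∃ B, b = g.Ai * B := by
    rcases hb with ⟨rfl, -⟩ | ⟨rfl, -⟩ | ⟨rfl, -⟩ | ⟨rfl, -⟩ | ⟨rfl, -⟩
    · exact ⟨0, by ring⟩
    · exact ⟨g.Ni - 1, eR⟩
    · exact ⟨3 * (g.Ni - 1), by rw [eR]; ring⟩
    · exact ⟨5 * (g.Ni - 1), by rw [eR]; ring⟩
    · exact ⟨7 * (g.Ni - 1), by rw [eR]; ring⟩
  obtain ⟨B', hB'⟩ : ∃ B', b' = g.Ai * B' := by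
    rcases hb with ⟨-, rfl⟩ | ⟨-, rfl⟩ | ⟨-, rfl⟩ | ⟨-, rfl⟩ | ⟨-, rfl⟩
    · exact ⟨g.Ni - 1, eR⟩
    · exact ⟨3 * (g.Ni - 1), by rw [eR]; ring⟩
    · exact ⟨5 * (g.Ni - 1), by rw [eR]; ring⟩
    · exact ⟨7 * (g.Ni - 1), by rw [eR]; ring⟩
    · exact ⟨8 * (g.Ni - 1), by rw [eR]; ring⟩
  obtain ⟨t, t1, t2, t3⟩ : ∃ t, α ≤ g.Ai * t ∧ g.Ai * t ≤ α + g.Ai ∧ b + g.Ai ≤ g.Ai * t := by
    rcases h1.eq_or_lt with h | h
    · refine ⟨B + 1, ?_, ?_, ?_⟩ <;> rw [mul_add, mul_one, ← hB] <;> omega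
    · have d1 := Int.mul_ediv_add_emod (α + g.Ai - 1) g.Ai
      have d2 := Int.emod_nonneg (α + g.Ai - 1) ha.ne'
      have d3 := Int.emod_lt_of_pos (α + g.Ai - 1) ha
      refine ⟨(α + g.Ai - 1) / g.Ai, by omega, by omega, ?_⟩
      have d4 : B < (α + g.Ai - 1) / g.Ai := cell_lt (x := b) ha hB.ge (by omega)
      have d5 := mul_le ha (show B + 1 ≤ (α + g.Ai - 1) / g.Ai by omega)
      rw [mul_add, mul_one, ← hB] at d5
      exact d5
  have t4 : g.Ai * t + 4 * g.Ai ≤ b' := by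
    have d6 : g.Ai * (t + 3) = g.Ai * t + 3 * g.Ai := by ring
    have d7 : g.Ai * (B' - 1) = b' - g.Ai := by rw [hB']; ring
    by_contra hc
    have d8 : B' - 1 < t + 3 := cell_lt (x := b' - g.Ai) ha (by rw [d7]) (by rw [d6]; omega)
    have d9 := mul_le ha (show B' ≤ t + 3 by omega)
    rw [d6, ← hB'] at d9
    omega
  have key : ∀ (s : Fin 4) (i : ℤ),
      ((s = 0 ∧ g.Ai * i = g.Ai * t + g.Ai ∧ g.Ai ≤ g.Ai * t ∧ g.Ai * t + 4 * g.Ai ≤ g.R) ∨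
      (s = 1 ∧ g.Ai * i = 2 * g.R - g.Ai * t - 2 * g.Ai ∧ g.R + g.Ai ≤ g.Ai * t ∧
        g.Ai * t + 4 * g.Ai ≤ 3 * g.R) ∨
      (s = 2 ∧ g.Ai * i = 4 * g.R - g.Ai * t - 2 * g.Ai ∧ 3 * g.R + g.Ai ≤ g.Ai * t ∧
        g.Ai * t + 4 * g.Ai ≤ 5 * g.R) ∨
      (s = 3 ∧ g.Ai * i = g.Ai * t + g.Ai - 6 * g.R ∧ 5 * g.R + g.Ai ≤ g.Ai * t ∧
        g.Ai * t + 4 * g.Ai ≤ 7 * g.R) ∨
      (s = 0 ∧ g.Ai * i = g.Ai * t + g.Ai - 8 * g.R ∧ 7 * g.R + g.Ai ≤ g.Ai * t ∧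
        g.Ai * t + 4 * g.Ai ≤ 8 * g.R)) →
      ∃ s i κ, GD g s i κ ∧ α ≤ κ ∧ κ + 3 * g.Ai ≤ β := by
    intro s i h
    have e1 : g.Ai * (-(g.Ni - 1) + 2) = -g.R + 2 * g.Ai := by rw [eR]; ring
    have e2 : g.Ai * (g.Ni - 2 - 2) = g.R - 3 * g.Ai := by rw [eR]; ring
    have hi : GateOk g i := by
      constructor
      · by_contra hc
        have := mul_le ha (show i ≤ -(g.Ni - 1) + 2 - 1 by omega)
        rw [mul_sub, mul_one, e1] at this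
        omega
      · by_contra hc
        have := mul_le ha (show g.Ni - 2 - 2 + 1 ≤ i by omega)
        rw [mul_add, mul_one, e2] at this
        omega
    exact ⟨s, i, g.Ai * t, gd_of hg hi h, t1, by omega⟩
  rcases hb with ⟨rfl, rfl⟩ | ⟨rfl, rfl⟩ | ⟨rfl, rfl⟩ | ⟨rfl, rfl⟩ | ⟨rfl, rfl⟩
  · exact key 0 (t + 1) (Or.inl ⟨rfl, by ring, by omega, t4⟩)
  · exact key 1 (2 * (g.Ni - 1) - t - 2) (Or.inr (Or.inl ⟨rfl, by rw [eR]; ring, by omega, t4⟩))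
  · exact key 2 (4 * (g.Ni - 1) - t - 2)
      (Or.inr (Or.inr (Or.inl ⟨rfl, by rw [eR]; ring, by omega, t4⟩)))
  · exact key 3 (t + 1 - 6 * (g.Ni - 1))
      (Or.inr (Or.inr (Or.inr (Or.inl ⟨rfl, by rw [eR]; ring, by omega, t4⟩))))
  · exact key 0 (t + 1 - 8 * (g.Ni - 1))
      (Or.inr (Or.inr (Or.inr (Or.inr ⟨rfl, by rw [eR]; ring, by omega, t4⟩))))

end ZGAux

end Pool.Agent.Occ
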