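import Pool.Agent.Lib.MP_6bd702_occ.ZC

/-!
# Row ZG, the geometry of the gate: paths into the hole, the boundary of the hole
-/

set_option autoImplicit false

namespace Pool.Agent.Occ

open Finset Pool.Agent.Perc Pool.Agent.Perc3 Pool.Agent.PercD Pool.Agent.Perc6

namespace ZGAux

/-! ### Chains in rectangles -/

theorem row_chain {x₀ x₁ y₀ y₁ y : ℤ} (hy : y₀ ≤ y) (hy' : y < y₁) {a b : ℤ} (hab : a ≤ b)
    (ha : x₀ ≤ a) (hb : b < x₁) : Relation.ReflTransGen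
      (fun f g : ℤ × ℤ => Adj4 f g ∧ f ∈ RF x₀ x₁ y₀ y₁ ∧ g ∈ RF x₀ x₁ y₀ y₁) (a, y) (b, y) := by
  induction b, hab using Int.leInduction with
  | base => exact Relation.ReflTransGen.refl
  | succ b hb' ih =>
    refine (ih (by omega)).tail ⟨Or.inl ⟨rfl, Or.inl rfl⟩, ?_, ?_⟩ <;>
      (rw [mem_RF]; simp only; omega)

theorem col_chain {x₀ x₁ y₀ y₁ x : ℤ} (hx : x₀ ≤ x) (hx' : x < x₁) {a b : ℤ} (hab : a ≤ b)
    (ha : y₀ ≤ a) (hb : b < y₁) : Relation.ReflTransGen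
      (fun f g : ℤ × ℤ => Adj4 f g ∧ f ∈ RF x₀ x₁ y₀ y₁ ∧ g ∈ RF x₀ x₁ y₀ y₁) (x, a) (x, b) := by
  induction b, hab using Int.leInduction with
  | base => exact Relation.ReflTransGen.refl
  | succ b hb' ih =>
    refine (ih (by omega)).tail ⟨Or.inr ⟨rfl, Or.inl rfl⟩, ?_, ?_⟩ <;>
      (rw [mem_RF]; simp only; omega)

theorem sym_chain {x₀ x₁ y₀ y₁ : ℤ} {f g : ℤ × ℤ} (h : Relation.ReflTransGen
      (fun f g : ℤ × ℤ => Adj4 f g ∧ f ∈ RF x₀ x₁ y₀ y₁ ∧ g ∈ RF x₀ x₁ y₀ y₁) f g) :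
    Relation.ReflTransGen
      (fun f g : ℤ × ℤ => Adj4 f g ∧ f ∈ RF x₀ x₁ y₀ y₁ ∧ g ∈ RF x₀ x₁ y₀ y₁) g f := by
  induction h with
  | refl => exact Relation.ReflTransGen.refl
  | tail _ hs ih => exact Relation.ReflTransGen.head ⟨hs.1.symm, hs.2.2, hs.2.1⟩ ih

/-- A dual path between two faces of a rectangle. -/
theorem rect_list {x₀ x₁ y₀ y₁ : ℤ} {f g : ℤ × ℤ} (hf : f ∈ RF x₀ x₁ y₀ y₁)
    (hg : g ∈ RF x₀ x₁ y₀ y₁) : ∃ l, IsCh l ∧ l.head? = some f ∧ l.getLast? = some g ∧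
      ∀ k ∈ l, k ∈ RF x₀ x₁ y₀ y₁ := by
  refine exists_list (P := fun k => k ∈ RF x₀ x₁ y₀ y₁) hf ?_
  obtain ⟨a, b⟩ := f
  obtain ⟨c, d⟩ := g
  rw [mem_RF] at hf hg
  simp only at hf hg
  refine Relation.ReflTransGen.trans (b := (c, b)) ?_ ?_
  · rcases le_total a c with h | h
    · exact row_chain (by omega) (by omega) h (by omega) (by omega)
    · exact sym_chain (row_chain (by omega) (by omega) h (by omega) (by omega))
  · rcases le_total b d with h | h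
    · exact col_chain (by omega) (by omega) h (by omega) (by omega)
    · exact sym_chain (col_chain (by omega) (by omega) h (by omega) (by omega))

/-! ### The path into the hole -/

/-- The boundary unit edges of the hole. -/
theorem cycE_inj {R k k' : ℤ} (h0 : 0 ≤ k) (h1 : k < 8 * R) (h0' : 0 ≤ k') (h1' : k' < 8 * R)
    (h : Perc6.cycE 0 0 0 R k = Perc6.cycE 0 0 0 R k') : k = k' := by
  unfold Perc6.cycE at h
  split_ifs at h <;> simp only [Prod.mk.injEq, Bool.true_eq_false, Bool.false_eq_true, and_true,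
    and_false] at h <;> omega

theorem cycE_in {R k : ℤ} (hR : 0 < R) (h0 : 0 ≤ k) (h1 : k < 8 * R) :
    (∃ f ∈ BR (0, 0) R, IsSide f (Perc6.cycE 0 0 0 R k)) ∧
      ∃ f, f ∉ BR (0, 0) R ∧ IsSide f (Perc6.cycE 0 0 0 R k) := by
  unfold Perc6.cycE
  split_ifs with c1 c2 c3 c4
  · refine ⟨⟨(R - 1, k), ?_, Or.inr (Or.inr (Or.inr ?_))⟩, (R, k), ?_, Or.inr (Or.inl ?_)⟩
    · rw [mem_BR]; simp only; omega
    · unfold ri; simp only [Prod.mk.injEq, and_true]; omega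
    · rw [mem_BR]; simp only; omega
    · unfold le'; simp only [Prod.mk.injEq, and_true]; omega
  · refine ⟨⟨(2 * R - k - 1, R - 1), ?_, Or.inr (Or.inr (Or.inl ?_))⟩, (2 * R - k - 1, R), ?_,
      Or.inl ?_⟩
    · rw [mem_BR]; simp only; omega
    · unfold to'; simp only [Prod.mk.injEq, and_true]; omega
    · rw [mem_BR]; simp only; omega
    · unfold bo; simp only [Prod.mk.injEq, and_true]; omega
  · refine ⟨⟨(-R, 4 * R - k - 1), ?_, Or.inr (Or.inl ?_)⟩, (-R - 1, 4 * R - k - 1), ?_,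
      Or.inr (Or.inr (Or.inr ?_))⟩
    · rw [mem_BR]; simp only; omega
    · unfold le'; simp only [Prod.mk.injEq, and_true]; omega
    · rw [mem_BR]; simp only; omega
    · unfold ri; simp only [Prod.mk.injEq, and_true]; omega
  · refine ⟨⟨(k - 6 * R, -R), ?_, Or.inl ?_⟩, (k - 6 * R, -R - 1), ?_,
      Or.inr (Or.inr (Or.inl ?_))⟩
    · rw [mem_BR]; simp only; omega
    · unfold bo; simp only [Prod.mk.injEq, and_true]; omega
    · rw [mem_BR]; simp only; omega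
    · unfold to'; simp only [Prod.mk.injEq, and_true]; omega
  · refine ⟨⟨(R - 1, k - 8 * R), ?_, Or.inr (Or.inr (Or.inr ?_))⟩, (R, k - 8 * R), ?_,
      Or.inr (Or.inl ?_)⟩
    · rw [mem_BR]; simp only; omega
    · unfold ri; simp only [Prod.mk.injEq, and_true]; omega
    · rw [mem_BR]; simp only; omega
    · unfold le'; simp only [Prod.mk.injEq, and_true]; omega

theorem cr_cases {f g : ℤ × ℤ} {R k : ℤ} (h0 : 0 ≤ k) (h1 : k < 8 * R)
    (h : (k < R ∧ f = (R, k) ∧ g = (R - 1, k)) ∨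
      (R ≤ k ∧ k < 3 * R ∧ f = (2 * R - k - 1, R) ∧ g = (2 * R - k - 1, R - 1)) ∨
      (3 * R ≤ k ∧ k < 5 * R ∧ f = (-R - 1, 4 * R - k - 1) ∧ g = (-R, 4 * R - k - 1)) ∨
      (5 * R ≤ k ∧ k < 7 * R ∧ f = (k - 6 * R, -R - 1) ∧ g = (k - 6 * R, -R)) ∨
      (7 * R ≤ k ∧ f = (R, k - 8 * R) ∧ g = (R - 1, k - 8 * R))) :
    Adj4 f g ∧ cr f g = Perc6.cycE 0 0 0 R k := by
  rcases h with ⟨h2, rfl, rfl⟩ | ⟨h2, h3, rfl, rfl⟩ | ⟨h2, h3, rfl, rfl⟩ | ⟨h2, h3, rfl, rfl⟩ |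
    ⟨h2, rfl, rfl⟩
  · constructor
    · exact Or.inl ⟨rfl, Or.inr (by simp only; omega)⟩
    · unfold cr Perc6.cycE le' ri to' bo
      simp only
      split_ifs <;> first | omega | (simp only [Prod.mk.injEq, and_true]; omega)
  · constructor
    · exact Or.inr ⟨rfl, Or.inr (by simp only; omega)⟩
    · unfold cr Perc6.cycE le' ri to' bo
      simp only
      split_ifs <;> first | omega | (simp only [Prod.mk.injEq, and_true]; omega)
  · constructor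
    · exact Or.inl ⟨rfl, Or.inl (by simp only; omega)⟩
    · unfold cr Perc6.cycE le' ri to' bo
      simp only
      split_ifs <;> first | omega | (simp only [Prod.mk.injEq, and_true]; omega)
  · constructor
    · exact Or.inr ⟨rfl, Or.inl (by simp only; omega)⟩
    · unfold cr Perc6.cycE le' ri to' bo
      simp only
      split_ifs <;> first | omega | (simp only [Prod.mk.injEq, and_true]; omega)
  · constructor
    · exact Or.inl ⟨rfl, Or.inr (by simp only; omega)⟩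
    · unfold cr Perc6.cycE le' ri to' bo
      simp only
      split_ifs <;> first | omega | (simp only [Prod.mk.injEq, and_true]; omega)

/-- The path into the hole from a straight row. -/
theorem inL_of_row {g : Par} {S : Set (ℤ × ℤ)} {a f₀ g₀ : ℤ × ℤ} {k x₀ x₁ y₀ y₁ : ℤ}
    (hR : 1 < g.R) (h0 : 0 ≤ k) (h1 : k < 8 * g.R)
    (h : (k < g.R ∧ f₀ = (g.R, k) ∧ g₀ = (g.R - 1, k)) ∨
      (g.R ≤ k ∧ k < 3 * g.R ∧ f₀ = (2 * g.R - k - 1, g.R) ∧ g₀ = (2 * g.R - k - 1, g.R - 1)) ∨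
      (3 * g.R ≤ k ∧ k < 5 * g.R ∧ f₀ = (-g.R - 1, 4 * g.R - k - 1) ∧
        g₀ = (-g.R, 4 * g.R - k - 1)) ∨
      (5 * g.R ≤ k ∧ k < 7 * g.R ∧ f₀ = (k - 6 * g.R, -g.R - 1) ∧ g₀ = (k - 6 * g.R, -g.R)) ∨
      (7 * g.R ≤ k ∧ f₀ = (g.R, k - 8 * g.R) ∧ g₀ = (g.R - 1, k - 8 * g.R)))
    (ha : a ∈ RF x₀ x₁ y₀ y₁) (hf₀ : f₀ ∈ RF x₀ x₁ y₀ y₁)
    (hrow : ∀ f ∈ RF x₀ x₁ y₀ y₁, OutR g.R k f ∧ f ∈ BR (0, 0) (g.d + 2 * g.n + 4) ∧ f ∉ S)
    (hH : ∀ f ∈ S, f ∉ BR (0, 0) g.R) : ∃ l, InL g S a k l := by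
  obtain ⟨hadj, hcr⟩ := cr_cases h0 h1 h
  obtain ⟨l, hl1, hl2, hl3, hl4⟩ := rect_list ha hf₀
  have hg₀ : g₀ ∈ RF (-g.R) g.R (-g.R) g.R := by
    rw [mem_RF]
    rcases h with ⟨h2, -, rfl⟩ | ⟨h2, h3, -, rfl⟩ | ⟨h2, h3, -, rfl⟩ | ⟨h2, h3, -, rfl⟩ |
      ⟨h2, -, rfl⟩ <;> simp only <;> omega
  obtain ⟨l', hl1', hl2', hl3', hl4'⟩ := rect_list (g := (-1, 0)) hg₀ (by
    rw [mem_RF]; simp only; omega)
  have hBR : ∀ f, f ∈ BR (0, 0) g.R ↔ f ∈ RF (-g.R) g.R (-g.R) g.R := by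
    intro f
    rw [mem_BR, mem_RF]
    simp only
    omega
  have hout : ∀ f ∈ l, f ∉ BR (0, 0) g.R := by
    intro f hf hb
    have h2 := (hrow f (hl4 f hf)).1
    rw [mem_BR] at hb
    unfold OutR at h2
    simp only at hb
    omega
  have hne : l ≠ [] := by
    rintro rfl
    simp at hl2
  have hne' : l' ≠ [] := by
    rintro rfl
    simp at hl2'
  refine ⟨l ++ l', ⟨⟨h0, h1⟩, ?_, ?_, ?_, ?_, ?_, ?_⟩⟩
  · refine IsCh.append hl1 hl1' ?_
    intro f f' e1 e2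
    rw [hl3] at e1
    rw [hl2'] at e2
    simp only [Option.some.injEq] at e1 e2
    rw [← e1, ← e2]
    exact hadj
  · rw [List.head?_append_of_ne_nil _ hne]
    exact hl2
  · rw [List.getLast?_append_of_ne_nil _ hne']
    exact hl3'
  · intro f hf
    rcases List.mem_append.1 hf with hf | hf
    · exact (hrow f (hl4 f hf)).2.2
    · intro hS
      exact hH f hS ((hBR f).2 (hl4' f hf))
  · intro f hf
    rcases List.mem_append.1 hf with hf | hf
    · exact Or.inr ⟨(hrow f (hl4 f hf)).1, (hrow f (hl4 f hf)).2.1⟩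
    · exact Or.inl ((hBR f).2 (hl4' f hf))
  · intro k' h0' h1'
    rw [xp_append hl3 hl2', hcr]
    obtain ⟨⟨fi, hfi, hsi⟩, fo, hfo, hso⟩ := cycE_in (by omega) h0' h1'
    rw [xp_side hl1 hsi (fun hh => hout _ hh hfi), xp_side hl1' hso
      (fun hh => hfo ((hBR _).2 (hl4' _ hh))), zero_add, add_zero]
    refine ind2_congr ⟨fun e => cycE_inj h0' h1' h0 h1 e, fun e => by rw [e]⟩



variable {g : Par} {ξ : Cfg} {s : Fin 4} {i : ℤ} {f : ℤ × ℤ}

/-! ### The boundary of the hole -/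

theorem joins_cyc {R k : ℤ} (hR : 0 < R) (h0 : 0 ≤ k) (h1 : k < 8 * R) :
    Joins (cycE 0 0 0 R k) (cyc 0 0 0 R k) (cyc 0 0 0 R (k + 1)) := by
  unfold cycE cyc
  split_ifs <;> first | (exfalso; omega) | skip
  all_goals
    unfold Joins
    simp only [ua_mk, ub_false, ub_true, Prod.mk.injEq, true_and, and_true]
    omega

theorem step {Ψ : ℤ × ℤ → ZMod 2} {z : ZMod 2} {a : UE} {u v : ℤ × ℤ}
    (h : Ψ (ub a) = Ψ (ua a) + z) (hj : Joins a u v) : Ψ v = Ψ u + z := by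
  rcases hj with ⟨rfl, rfl⟩ | ⟨rfl, rfl⟩
  · exact h
  · rw [h, add_assoc]
    have : ∀ z : ZMod 2, z + z = 0 := by decide
    rw [this, add_zero]

theorem ind2_lt_succ {m k : ℤ} : ind2 (m < k + 1) = ind2 (m < k) + ind2 (k = m) := by
  rcases lt_trichotomy m k with h | h | h
  · rw [ind2_pos (show m < k + 1 by omega), ind2_pos h, ind2_neg (show ¬ k = m by omega), add_zero]
  · rw [ind2_pos (show m < k + 1 by omega), ind2_neg (show ¬ m < k by omega),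
      ind2_pos h.symm, zero_add]
  · rw [ind2_neg (show ¬ m < k + 1 by omega), ind2_neg (show ¬ m < k by omega),
      ind2_neg (show ¬ k = m by omega), zero_add]

/-- A function on the boundary of the hole which jumps at `m` and `m'`. -/
theorem jumps {Ψ : ℤ × ℤ → ZMod 2} {R m m' : ℤ} (hR : 0 < R)
    (h : ∀ k, 0 ≤ k → k < 8 * R → Ψ (ub (cycE 0 0 0 R k)) = Ψ (ua (cycE 0 0 0 R k)) +
      (ind2 (k = m) + ind2 (k = m'))) (hm : 0 ≤ m) (hm' : 0 ≤ m') {k : ℤ} (h0 : 0 ≤ k)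
    (h1 : k ≤ 8 * R) :
    Ψ (cyc 0 0 0 R k) = Ψ (cyc 0 0 0 R 0) + (ind2 (m < k) + ind2 (m' < k)) := by
  induction k, h0 using Int.leInduction with
  | base =>
    rw [ind2_neg (show ¬ m < 0 by omega), ind2_neg (show ¬ m' < 0 by omega), add_zero, add_zero]
  | succ k hk ih =>
    rw [step (h k hk (by omega)) (joins_cyc hR hk (by omega)), ih (by omega), ind2_lt_succ,
      ind2_lt_succ]
    ring

end ZGAux

end Pool.Agent.Occ
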