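import Pool.Agent.Lib.MP_6bd702_occ.ZC

/-!
# Row ZG, the geometry of the gate: cells
-/

set_option autoImplicit false

namespace Pool.Agent.Occ

open Finset Pool.Agent.Perc Pool.Agent.Perc3 Pool.Agent.PercD Pool.Agent.Perc6

namespace ZGAux

variable {g : Par} {ξ : Cfg} {s : Fin 4} {i : ℤ} {f : ℤ × ℤ}

/-! ### Cells -/

theorem cell_lt {a c x m : ℤ} (ha : 0 < a) (h1 : a * c ≤ x) (h2 : x < a * m) : c < m := by
  have : a * c < a * m := lt_of_le_of_lt h1 h2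
  exact lt_of_mul_lt_mul_left this ha.le

theorem mul_le {a c m : ℤ} (ha : 0 < a) (h : c ≤ m) : a * c ≤ a * m :=
  mul_le_mul_of_nonneg_left h ha.le

/-- The radial coordinate of a face on the side `s`. -/
def rad (s : Fin 4) (f : ℤ × ℤ) : ℤ := ![f.1, f.2, -1 - f.1, -1 - f.2] s

/-- The position of a face on the side `s`. -/
def pos (s : Fin 4) (f : ℤ × ℤ) : ℤ := ![f.2, f.1, f.2, f.1] s

theorem mem_cellF {a : ℤ} {c : ℤ × ℤ} : f ∈ cellF 0 0 a c ↔ a * c.1 ≤ f.1 ∧ f.1 < a * c.1 + a ∧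
    a * c.2 ≤ f.2 ∧ f.2 < a * c.2 + a := by
  unfold cellF
  rw [mem_RFi, mul_add, mul_add, mul_one, zero_add, zero_add, zero_add, zero_add]

theorem mem_lay {r : ℤ} {c : ℤ × ℤ} : c ∈ lay r ↔ (-r - 1 ≤ c.1 ∧ c.1 ≤ r ∧ -r - 1 ≤ c.2 ∧
    c.2 ≤ r) ∧ (c.1 = r ∨ c.1 = -r - 1 ∨ c.2 = r ∨ c.2 = -r - 1) := by
  unfold lay
  rw [mem_filter, mem_product, mem_Icc, mem_Icc]
  tauto

theorem mem_RD {c : ℤ × ℤ} : c ∈ RD g s i ↔ (c ≠ ceS s (g.Ni + 1) i ∧ c ∈ lay (g.Ni + 1)) ∨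
    c = ceS s g.Ni (i - 1) ∨ c = ceS s (g.Ni - 1) (i - 1) ∨ c = ceS s g.Ni (i + 1) ∨
    c = ceS s (g.Ni - 1) (i + 1) := by
  unfold RD
  rw [mem_union, mem_erase, mem_insert, mem_insert, mem_insert, mem_singleton]

theorem lay_box {a R r : ℤ} (ha : 0 < a) (hR : R = a * r) {c : ℤ × ℤ} (hc : c ∈ lay r)
    (hf : f ∈ cellF 0 0 a c) : f ∈ BR (0, 0) (R + a) ∧ f ∉ BR (0, 0) R := by
  rw [mem_lay] at hc
  rw [mem_cellF] at hf
  obtain ⟨⟨h1, h2, h3, h4⟩, h5⟩ := hc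
  have e1 := mul_le ha h1
  have e2 := mul_le ha h2
  have e3 := mul_le ha h3
  have e4 := mul_le ha h4
  have e5 : a * (-r - 1) = -R - a := by rw [hR]; ring
  rw [e5] at e1 e3
  rw [← hR] at e2 e4
  rw [mem_BR, mem_BR]
  simp only
  have h6 : a * c.1 = R ∨ a * c.1 = -R - a ∨ a * c.2 = R ∨ a * c.2 = -R - a := by
    rcases h5 with h | h | h | h
    · left; rw [h, hR]
    · right; left; rw [h, e5]
    · right; right; left; rw [h, hR]
    · right; right; right; rw [h, e5]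
  omega

end ZGAux

end Pool.Agent.Occ
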