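import Pool.Agent.Lib.MP_6bd702_occ.ZDefs

/-!
# Row ZG, the geometry of the gate: the arc
-/

set_option autoImplicit false

namespace Pool.Agent.Occ

open Finset Pool.Agent.Perc Pool.Agent.Perc3 Pool.Agent.PercD Pool.Agent.Perc6

namespace ZGAux

/-- A part of a side of the hole on the P arc. -/
theorem exists_arc {R a k₁ k₂ kk : ℤ} (ha : 0 < a) (hR : 99 * a ≤ R) (r1 : 0 ≤ k₁ ∧ k₁ < 8 * R)
    (r2 : 0 ≤ k₂ ∧ k₂ < 8 * R) (hs : 10 * a ≤ |k₁ - k₂| ∧ |k₁ - k₂| ≤ 8 * R - 10 * a)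
    (hc : ∀ j : ℤ, (j = 1 ∨ j = 3 ∨ j = 5 ∨ j = 7) →
      10 * a ≤ |k₁ - j * R| ∧ 10 * a ≤ |k₂ - j * R|) :
    ∃ b b' α β, ((b = 0 ∧ b' = R) ∨ (b = R ∧ b' = 3 * R) ∨ (b = 3 * R ∧ b' = 5 * R) ∨
      (b = 5 * R ∧ b' = 7 * R) ∨ (b = 7 * R ∧ b' = 8 * R)) ∧ b ≤ α ∧ α + 5 * a - 1 ≤ β ∧
      β ≤ b' ∧ ∀ k, α ≤ k → k ≤ β →
        ((kk ≤ k₁ ∧ kk ≤ k₂ ∨ k₁ < kk ∧ k₂ < kk) ∧ (k₁ < k ∧ k ≤ k₂ ∨ k₂ < k ∧ k ≤ k₁)) ∨
        ((k₁ < kk ∧ kk ≤ k₂ ∨ k₂ < kk ∧ kk ≤ k₁) ∧ (k ≤ k₁ ∧ k ≤ k₂ ∨ k₁ < k ∧ k₂ < k)) := by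
  have c1 := hc 1 (by omega)
  have c3 := hc 3 (by omega)
  have c5 := hc 5 (by omega)
  have c7 := hc 7 (by omega)
  clear hc
  rw [one_mul] at c1
  simp only [le_abs'] at c1 c3 c5 c7
  rw [le_abs', abs_le] at hs
  wlog hlt : k₁ < k₂ generalizing k₁ k₂ with H
  · obtain ⟨b, b', α, β, h1, h2, h3, h4, h5⟩ := H r2 r1 (by omega) ⟨c1.2, c1.1⟩ ⟨c3.2, c3.1⟩
      ⟨c5.2, c5.1⟩ ⟨c7.2, c7.1⟩ (by omega)
    exact ⟨b, b', α, β, h1, h2, h3, h4, fun k h6 h7 => by have := h5 k h6 h7; omega⟩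
  by_cases hA : kk ≤ k₁ ∨ k₂ < kk
  · -- the arc between `k₁` and `k₂`
    by_cases g1 : k₁ < R ∧ R < k₂
    · exact ⟨R, 3 * R, R, R + 5 * a, by omega, by omega, by omega, by omega, fun k _ _ => by omega⟩
    by_cases g3 : k₁ < 3 * R ∧ 3 * R < k₂
    · exact ⟨3 * R, 5 * R, 3 * R, 3 * R + 5 * a, by omega, by omega, by omega, by omega,
        fun k _ _ => by omega⟩
    by_cases g5 : k₁ < 5 * R ∧ 5 * R < k₂
    · exact ⟨5 * R, 7 * R, 5 * R, 5 * R + 5 * a, by omega, by omega, by omega, by omega,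
        fun k _ _ => by omega⟩
    by_cases g7 : k₁ < 7 * R ∧ 7 * R < k₂
    · exact ⟨5 * R, 7 * R, 7 * R - 5 * a, 7 * R, by omega, by omega, by omega, by omega,
        fun k _ _ => by omega⟩
    by_cases q1 : k₂ < R
    · exact ⟨0, R, k₁ + 1, k₂, by omega, by omega, by omega, by omega, fun k _ _ => by omega⟩
    by_cases q3 : k₂ < 3 * R
    · exact ⟨R, 3 * R, k₁ + 1, k₂, by omega, by omega, by omega, by omega, fun k _ _ => by omega⟩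
    by_cases q5 : k₂ < 5 * R
    · exact ⟨3 * R, 5 * R, k₁ + 1, k₂, by omega, by omega, by omega, by omega,
        fun k _ _ => by omega⟩
    by_cases q7 : k₂ < 7 * R
    · exact ⟨5 * R, 7 * R, k₁ + 1, k₂, by omega, by omega, by omega, by omega,
        fun k _ _ => by omega⟩
    exact ⟨7 * R, 8 * R, k₁ + 1, k₂, by omega, by omega, by omega, by omega, fun k _ _ => by omega⟩
  · by_cases q1 : R < k₁
    · exact ⟨0, R, 0, R, by omega, by omega, by omega, by omega, fun k _ _ => by omega⟩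
    by_cases q2 : k₂ < 7 * R
    · exact ⟨7 * R, 8 * R, 7 * R, 8 * R, by omega, by omega, by omega, by omega,
        fun k _ _ => by omega⟩
    by_cases q3 : 5 * a ≤ k₁
    · exact ⟨0, R, 0, k₁, by omega, by omega, by omega, by omega, fun k _ _ => by omega⟩
    · exact ⟨7 * R, 8 * R, k₂ + 1, 8 * R, by omega, by omega, by omega, by omega,
        fun k _ _ => by omega⟩

end ZGAux

end Pool.Agent.Occ
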