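import Pool.Agent.Lib.MP_6bd702_occ.ZA
import Pool.Agent.Lib.MP_6bd702_occ.ZBar

/-!
# Row ZH: four alternating boundary points, squares which are seen from the lower side
-/

set_option autoImplicit false

namespace Pool.Agent.Occ

open Finset Pool.Agent.Perc Pool.Agent.Perc3 Pool.Agent.PercD Pool.Agent.Perc6

/-- A path of one colour between two vertices of the lower side and a path of the other colour from a
vertex of the lower side between them to the left, right or upper side. -/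
theorem alt4 {ω : Cfg} {x₀ x₁ y₀ y₁ : ℤ} {b₁ b₂ c z : ℤ × ℤ} (hb₁ : b₁.2 = y₀) (hb₂ : b₂.2 = y₀)
    (hc : c.2 = y₀) (h1 : x₀ ≤ b₂.1) (h2 : b₂.1 < c.1) (h3 : c.1 < b₁.1) (h4 : b₁.1 ≤ x₁)
    (hy : y₀ < y₁) (hp : par b₁ ≠ par c) (hD : Conn ω (RF x₀ x₁ y₀ y₁) b₁ b₂)
    (hP : Conn ω (RF x₀ x₁ y₀ y₁) c z) (hz : z.1 = x₀ ∨ z.1 = x₁ ∨ z.2 = y₁) : False := by
  refine no_alt (u := b₂) (w := b₁) (p := c) (z := z) h1 hb₂ hb₁ h2 h3 hc ?_ hD.symm hP hz
  have h5 := Conn.parity hD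
  unfold par at hp
  omega

/-- The square of the face `f`. -/
def sqi (x y e : ℤ) (f : ℤ × ℤ) : ℤ × ℤ := ((f.1 - x) / e, (f.2 - y) / e)

theorem sqi_adj {x y e : ℤ} (he : 1 ≤ e) {f f' : ℤ × ℤ} (h : Adj4 f f') :
    sqi x y e f = sqi x y e f' ∨ ((sqi x y e f).1 = (sqi x y e f').1 ∧
      |(sqi x y e f).2 - (sqi x y e f').2| = 1) ∨ ((sqi x y e f).2 = (sqi x y e f').2 ∧
      |(sqi x y e f).1 - (sqi x y e f').1| = 1) := by
  have key : ∀ a b : ℤ, a = b + 1 ∨ b = a + 1 → a / e = b / e ∨ |a / e - b / e| = 1 := by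
    have k2 : ∀ a : ℤ, (a + 1) / e = a / e ∨ (a + 1) / e = a / e + 1 := by
      intro a
      have e1 : a / e ≤ (a + 1) / e := Int.ediv_le_ediv (by omega) (by omega)
      have e2 : (a + 1) / e ≤ (a + e) / e := Int.ediv_le_ediv (by omega) (by omega)
      have e3 : (a + e) / e = a / e + 1 := by
        rw [Int.add_ediv_of_dvd_right (dvd_refl e), Int.ediv_self (by omega)]
      omega
    intro a b hab
    rcases hab with rfl | rfl
    · rcases k2 b with h1 | h1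
      · exact Or.inl h1
      · right; rw [h1]; simp
    · rcases k2 a with h1 | h1
      · exact Or.inl h1.symm
      · right; rw [h1]; simp
  unfold sqi
  simp only [Prod.mk.injEq]
  rcases h with ⟨h1, h2⟩ | ⟨h1, h2⟩
  · rcases key (f.1 - x) (f'.1 - x) (by omega) with h3 | h3
    · left; exact ⟨h3, by rw [h1]⟩
    · right; right; exact ⟨by rw [h1], h3⟩
  · rcases key (f.2 - y) (f'.2 - y) (by omega) with h3 | h3
    · left; exact ⟨by rw [h1], h3⟩
    · right; left; exact ⟨by rw [h1], h3⟩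

/-- A chain of faces gives a chain of squares. -/
theorem ch_squares {x y e : ℤ} (he : 1 ≤ e) {T : Set (ℤ × ℤ)} : ∀ {l : List (ℤ × ℤ)}, IsCh l →
    (∀ f ∈ l, sqi x y e f ∈ T) → ∀ {f₀ f₁ : ℤ × ℤ}, l.head? = some f₀ → l.getLast? = some f₁ →
    Relation.ReflTransGen (NbT T) (sqi x y e f₀) (sqi x y e f₁)
  | [], _, _, _, _, h, _ => absurd h (by simp)
  | [a], _, _, _, _, h, h' => by
    simp only [List.head?_cons, Option.some.injEq, List.getLast?_singleton] at h h'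
    rw [← h, ← h']
  | a :: b :: l, hl, hT, f₀, f₁, h, h' => by
    simp only [List.head?_cons, Option.some.injEq] at h
    subst h
    have ih := ch_squares he (l := b :: l) hl.2 (fun f hf => hT f (List.mem_cons_of_mem _ hf))
      (f₀ := b) (f₁ := f₁) rfl (by rw [← h']; simp [List.getLast?_cons_cons])
    rcases sqi_adj (x := x) (y := y) he hl.1 with h1 | h1
    · rw [h1]; exact ih
    · exact Relation.ReflTransGen.head ⟨h1, hT a (by simp), hT b (by simp)⟩ ih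

/-- The bounds of the square of a face. -/
theorem sqi_bd {e x a : ℤ} (he : 1 ≤ e) : x + e * ((a - x) / e) ≤ a ∧
    a < x + e * ((a - x) / e) + e := by
  have e1 := Int.emod_add_mul_ediv (a - x) e
  have e2 := Int.emod_nonneg (a - x) (by omega : e ≠ 0)
  have e3 := Int.emod_lt_of_pos (a - x) (by omega : 0 < e)
  constructor <;> linarith

/-- The cell is seen: the barrier `Λ` joins two vertices of the lower side, the dual path `l` leads
from the cell to the lower side between them, at distance more than `2 e` of `Λ`. -/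
theorem seen_of_barrier {ω : Cfg} {col x y M q e : ℤ} {z : ℤ × ℤ} (hcol : col = 0 ∨ col = 1)
    (he : 1 ≤ e) (hM : 1 ≤ M) (hq : 1 ≤ q) {Λ : Set (ℤ × ℤ)}
    (hΛ : ∀ f ∈ Λ, f ∈ RF x (x + 4 * (M * q * e)) y (y + 4 * (M * q * e))) {b₁ b₂ : ℤ × ℤ}
    (hb₁ : b₁.2 = y) (hb₂ : b₂.2 = y) (hr₁ : b₁.1 ≤ x + 4 * (M * q * e)) (hr₂ : x ≤ b₂.1)
    (hpar : par b₁ = (col + 1) % 2) (hc : Conn ω Λ b₁ b₂) {l : List (ℤ × ℤ)} (hl : IsCh l)
    (hlw : ∀ f ∈ l, f ∈ RF x (x + 4 * (M * q * e)) y (y + 4 * (M * q * e)))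
    (hfar : ∀ f ∈ l, ∀ s ∈ Λ, 2 * e < max |f.1 - s.1| |f.2 - s.2|) {f₀ f₁ : ℤ × ℤ}
    (h₀ : l.head? = some f₀) (h₁ : l.getLast? = some f₁)
    (hcell : x + q * e * (M + z.1) ≤ f₀.1 ∧ f₀.1 < x + q * e * (M + z.1 + 1) ∧
      y + q * e * (M + z.2) ≤ f₀.2 ∧ f₀.2 < y + q * e * (M + z.2 + 1))
    (hlow : f₁.2 = y ∧ b₂.1 + 2 * e < f₁.1 ∧ f₁.1 + 2 * e < b₁.1) :
    Seen ω col x y M q e z := by
  set T : Set (ℤ × ℤ) := {t | ∃ f ∈ l, sqi x y e f = t} with hT
  have hMq : 4 * (M * q * e) = e * (4 * (M * q)) := by ring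
  have hTw : ∀ t ∈ T, 0 ≤ t.1 ∧ e * (t.1 + 1) ≤ 4 * (M * q * e) ∧ 0 ≤ t.2 ∧
      e * (t.2 + 1) ≤ 4 * (M * q * e) := by
    rintro t ⟨f, hf, rfl⟩
    have h1 := PlanarA.mem_RF.1 (hlw f hf)
    have key : ∀ a x : ℤ, x ≤ a → a < x + 4 * (M * q * e) →
        0 ≤ (a - x) / e ∧ e * ((a - x) / e + 1) ≤ 4 * (M * q * e) := by
      intro a x h2 h3
      refine ⟨Int.ediv_nonneg (by omega) (by omega), ?_⟩
      rw [hMq] at h3 ⊢
      refine mul_le_mul_of_nonneg_left ?_ (by omega)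
      have h4 : (a - x) / e < 4 * (M * q) := by
        rw [Int.ediv_lt_iff_lt_mul (by omega)]
        linarith
      omega
    exact ⟨(key f.1 x h1.1.1 h1.1.2).1, (key f.1 x h1.1.1 h1.1.2).2,
      (key f.2 y h1.2.1 h1.2.2).1, (key f.2 y h1.2.1 h1.2.2).2⟩
  have hmem : ∀ f ∈ l, sqi x y e f ∈ T := fun f hf => ⟨f, hf, rfl⟩
  have hf₀ : f₀ ∈ l := by
    cases l with
    | nil => simp at h₀
    | cons a l =>
      simp only [List.head?_cons, Option.some.injEq] at h₀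
      rw [← h₀]; simp
  have hch := ch_squares (x := x) (y := y) he hl hmem h₀ h₁
  have hb1 := sqi_bd (x := x) (a := f₁.1) he
  have hD : Conn ω ((RF x (x + 4 * (M * q * e)) y (y + 4 * (M * q * e)) : Set (ℤ × ℤ)) \
      SqF x y e T) (b₂.1, y) (b₁.1, y) := by
    have h2 : Conn ω Λ (b₂.1, y) (b₁.1, y) := by
      have e1 : b₂ = (b₂.1, y) := by rw [← hb₂]
      have e2 : b₁ = (b₁.1, y) := by rw [← hb₁]
      rw [← e1, ← e2]
      exact hc.symm
    refine Conn.mono ?_ h2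
    intro s hs
    refine ⟨hΛ s hs, ?_⟩
    rintro ⟨t, ⟨f, hf, rfl⟩, g1, g2, g3, g4⟩
    have h3 := hfar f hf s hs
    have k1 := sqi_bd (x := x) (a := f.1) he
    have k2 := sqi_bd (x := y) (a := f.2) he
    unfold sqi at g1 g2 g3 g4
    simp only at g1 g2 g3 g4
    have r1 : e * ((f.1 - x) / e + 1) = e * ((f.1 - x) / e) + e := by ring
    have r2 : e * ((f.2 - y) / e + 1) = e * ((f.2 - y) / e) + e := by ring
    rw [r1] at g2
    rw [r2] at g4
    rw [lt_max_iff, lt_abs, lt_abs] at h3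
    omega
  have h0 : (sqi x y e f₁).2 = 0 := by
    unfold sqi
    simp only
    rw [hlow.1, sub_self, Int.zero_ediv]
  have hsn := seen_of_squares (col := col) (t := sqi x y e f₀) (t₀ := sqi x y e f₁) he hcol hTw
    (hmem f₀ hf₀) hch h0 (a₁ := b₂.1) (a₂ := b₁.1) hr₂ (by
      unfold sqi
      simp only
      omega) (by
      unfold sqi
      simp only
      have r1 : e * ((f₁.1 - x) / e + 1) = e * ((f₁.1 - x) / e) + e := by ring
      rw [r1]
      omega) (by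
      have h5 := Conn.parity hc
      unfold par at hpar ⊢
      simp only
      rw [hb₁, hb₂] at h5
      rw [hb₁] at hpar
      omega) hD
  refine ⟨sqi x y e f₀, sqi x y e f₁, ?_, h0, hsn.1, hsn.2⟩
  obtain ⟨c1, c2, c3, c4⟩ := hcell
  have key : ∀ a x k : ℤ, x + q * e * k ≤ a → a < x + q * e * (k + 1) →
      q * k ≤ (a - x) / e ∧ (a - x) / e < q * (k + 1) := by
    intro a x k h2 h3
    constructor
    · rw [Int.le_ediv_iff_mul_le (by omega)]
      linarith [show q * k * e = q * e * k by ring]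
    · rw [Int.ediv_lt_iff_lt_mul (by omega)]
      linarith [show q * (k + 1) * e = q * e * (k + 1) by ring]
  unfold sqi
  simp only
  exact ⟨(key f₀.1 x _ c1 c2).1, (key f₀.1 x _ c1 c2).2, (key f₀.2 y _ c3 c4).1,
    (key f₀.2 y _ c3 c4).2⟩

end Pool.Agent.Occ
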