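import Pool.Agent.Lib.MP_6bd702_occ.ZH
import Pool.Agent.Lib.MP_6bd702_occ.ZC

/-!
# Row ZI: the cell is occupied
-/

set_option autoImplicit false

namespace Pool.Agent.Occ

open Finset Pool.Agent.Perc Pool.Agent.Perc3 Pool.Agent.PercD Pool.Agent.Perc6

/-- A chain of faces as a relation. -/
theorem ch_rel : ∀ {l : List (ℤ × ℤ)}, IsCh l → ∀ {a b : ℤ × ℤ}, l.head? = some a →
    l.getLast? = some b →
    Relation.ReflTransGen (fun f g => Adj4 f g ∧ f ∈ l ∧ g ∈ l) a b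
  | [], _, _, _, h, _ => absurd h (by simp)
  | [c], _, a, b, h, h' => by
    simp only [List.head?_cons, Option.some.injEq, List.getLast?_singleton] at h h'
    rw [← h, ← h']
  | c :: c' :: l, hl, a, b, h, h' => by
    simp only [List.head?_cons, Option.some.injEq] at h
    subst h
    have ih := ch_rel (l := c' :: l) hl.2 (a := c') (b := b) rfl
      (by rw [← h']; simp [List.getLast?_cons_cons])
    refine Relation.ReflTransGen.head ⟨hl.1, by simp, by simp⟩ (Perc.Q.rtg_mono ?_ ih)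
    rintro f g ⟨h1, h2, h3⟩
    exact ⟨h1, List.mem_cons_of_mem _ h2, List.mem_cons_of_mem _ h3⟩

/-- The part of a chain between its last visit of a box and its first visit of its end. -/
theorem cut_chain {L : Set (ℤ × ℤ)} {r : ℤ} {a b : ℤ × ℤ} (hb : b ∉ BR (0, 0) (r + 1))
    (h : Relation.ReflTransGen (fun f g => Adj4 f g ∧ f ∈ L ∧ g ∈ L) a b)
    (ha : a ∈ BR (0, 0) r) :
    ∃ f₀ f₁, f₀ ∈ BR (0, 0) (r + 1) ∧ (f₀ ∈ L ∧ f₀ ≠ b ∧ f₀ ∉ BR (0, 0) r) ∧ Adj4 f₁ b ∧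
      (f₁ ∈ L ∧ f₁ ≠ b ∧ f₁ ∉ BR (0, 0) r) ∧
      Relation.ReflTransGen (fun f g => Adj4 f g ∧ (f ∈ L ∧ f ≠ b ∧ f ∉ BR (0, 0) r) ∧
        (g ∈ L ∧ g ≠ b ∧ g ∉ BR (0, 0) r)) f₀ f₁ := by
  set G : ℤ × ℤ → Prop := fun f => f ∈ L ∧ f ≠ b ∧ f ∉ BR (0, 0) r with hG
  have key : ∀ f, Relation.ReflTransGen (fun f g => Adj4 f g ∧ f ∈ L ∧ g ∈ L) f b → f ≠ b →
      (G f ∧ ∃ f₁, Adj4 f₁ b ∧ G f₁ ∧
        Relation.ReflTransGen (fun f g => Adj4 f g ∧ G f ∧ G g) f f₁) ∨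
      ∃ f₀ f₁, f₀ ∈ BR (0, 0) (r + 1) ∧ G f₀ ∧ Adj4 f₁ b ∧ G f₁ ∧
        Relation.ReflTransGen (fun f g => Adj4 f g ∧ G f ∧ G g) f₀ f₁ := by
    intro f hf
    induction hf using Relation.ReflTransGen.head_induction_on with
    | refl => exact fun h => absurd rfl h
    | head hab hbc ih =>
      rename_i f g
      intro hfb
      obtain ⟨hadj, hfL, hgL⟩ := hab
      by_cases hgb : g = b
      · subst hgb
        have hfr : f ∉ BR (0, 0) r := by
          rw [mem_BR] at hb ⊢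
          unfold Adj4 at hadj
          simp only at hb ⊢
          omega
        exact Or.inl ⟨⟨hfL, hfb, hfr⟩, f, hadj, ⟨hfL, hfb, hfr⟩, Relation.ReflTransGen.refl⟩
      · rcases ih hgb with ⟨hGg, f₁, h1, h2, h3⟩ | h4
        · by_cases hfr : f ∈ BR (0, 0) r
          · right
            refine ⟨g, f₁, ?_, hGg, h1, h2, h3⟩
            rw [mem_BR] at hfr ⊢
            unfold Adj4 at hadj
            simp only at hfr ⊢
            omega
          · exact Or.inl ⟨⟨hfL, hfb, hfr⟩, f₁, h1, h2,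
              Relation.ReflTransGen.head ⟨hadj, ⟨hfL, hfb, hfr⟩, hGg⟩ h3⟩
        · exact Or.inr h4
  have hab : a ≠ b := by
    rintro rfl
    rw [mem_BR] at hb ha
    simp only at hb ha
    omega
  rcases key a h hab with ⟨h1, -⟩ | ⟨f₀, f₁, h1, h2, h3, h4, h5⟩
  · exact absurd ha h1.2.2
  · exact ⟨f₀, f₁, h1, h2, h3, h4, h5⟩

/-- The cells of the ring are in a box. -/
theorem FR_box {g : Par} (hAi : 0 ≤ g.Ai) (hNi : 100 ≤ g.Ni) {s : Fin 4} {i : ℤ} (hi : GateOk g i)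
    {f : ℤ × ℤ} (hf : f ∈ FR g s i) :
    -(g.d + 2 * g.Ai) ≤ f.1 ∧ f.1 < g.d + 2 * g.Ai ∧ -(g.d + 2 * g.Ai) ≤ f.2 ∧
      f.2 < g.d + 2 * g.Ai := by
  unfold FR Perc6.cellsF at hf
  rw [Finset.mem_biUnion] at hf
  obtain ⟨k, hk, hf⟩ := hf
  have hkb : -(g.Ni + 2) ≤ k.1 ∧ k.1 ≤ g.Ni + 1 ∧ -(g.Ni + 2) ≤ k.2 ∧ k.2 ≤ g.Ni + 1 := by
    unfold RD at hk
    unfold GateOk at hi
    rw [Finset.mem_union] at hk
    rcases hk with hk | hk
    · have h1 := (Finset.mem_erase.1 hk).2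
      unfold lay at h1
      rw [Finset.mem_filter, Finset.mem_product, Finset.mem_Icc, Finset.mem_Icc] at h1
      omega
    · simp only [Finset.mem_insert, Finset.mem_singleton] at hk
      rcases hk with rfl | rfl | rfl | rfl <;> fin_cases s <;>
        simp only [ceS, Fin.zero_eta, Fin.mk_one, Fin.reduceFinMk, Matrix.cons_val_zero,
          Matrix.cons_val_one, Matrix.cons_val] <;> omega
  unfold Perc6.cellF at hf
  rw [PlanarA.mem_RF] at hf
  obtain ⟨⟨f1, f2⟩, f3, f4⟩ := hf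
  have hd : g.d = g.Ni * g.Ai := rfl
  have key : ∀ a k : ℤ, 0 + g.Ai * k ≤ a → a < 0 + g.Ai * (k + 1) → -(g.Ni + 2) ≤ k →
      k ≤ g.Ni + 1 → -(g.d + 2 * g.Ai) ≤ a ∧ a < g.d + 2 * g.Ai := by
    intro a k h1 h2 h3 h4
    rw [hd]
    constructor
    · have h5 : g.Ai * (-(g.Ni + 2)) ≤ g.Ai * k := mul_le_mul_of_nonneg_left h3 hAi
      linarith [show g.Ai * (-(g.Ni + 2)) = -(g.Ni * g.Ai + 2 * g.Ai) by ring]
    · have h5 : g.Ai * (k + 1) ≤ g.Ai * (g.Ni + 1 + 1) :=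
        mul_le_mul_of_nonneg_left (by omega) hAi
      linarith [show g.Ai * (g.Ni + 1 + 1) = g.Ni * g.Ai + 2 * g.Ai by ring]
  have k1 := key f.1 k.1 f1 f2 hkb.1 hkb.2.1
  have k2 := key f.2 k.2 f3 f4 hkb.2.2.1 hkb.2.2.2
  exact ⟨k1.1, k1.2, k2.1, k2.2⟩

theorem closing {g : Par} (hg : g.Ok) {ω η : Cfg} {ya yb : ℤ} {a₁ a₂ : ℤ × ℤ} {x₁ x₂ : UE}
    {k₁ k₂ kk : ℤ} {l₁ l₂ lk : List (ℤ × ℤ)} {S : Set (ℤ × ℤ)} {col x y M q e : ℤ} {z : ℤ × ℤ}
    (hcol : col = 0 ∨ col = 1) (he : 1 ≤ e) (heσ : 16 * e ≤ g.σ) (hM : 1 ≤ M) (hq : 1 ≤ q)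
    (hpar : par (g.w, ya) = (col + 1) % 2)
    (hw : WinOk g x (x + 4 * (M * q * e)) y (y + 4 * (M * q * e)))
    (hcell : x + q * e * (M + z.1) ≤ -(g.d + 4 * g.Ai) ∧
      g.d + 4 * g.Ai ≤ x + q * e * (M + z.1 + 1) ∧ y + q * e * (M + z.2) ≤ -(g.d + 4 * g.Ai) ∧
      g.d + 4 * g.Ai ≤ y + q * e * (M + z.2 + 1))
    (hS : StrZ g ω ya yb a₁ a₂ x₁ x₂ k₁ k₂ l₁ l₂ S) (hK : KapZ g y ya yb S l₁ l₂ kk lk)
    (h1 : ∀ f ∈ S, η f = ω f) {b₁ b₂ t : ℤ × ℤ} (hb₁ : b₁.2 = y)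
    (hb₁' : (g.N + 1) * g.A ≤ b₁.1 ∧ b₁.1 ≤ (g.N + 2) * g.A) (hb₂ : b₂.2 = y)
    (hb₂' : -((g.N + 2) * g.A) ≤ b₂.1 ∧ b₂.1 ≤ -((g.N + 1) * g.A))
    (c₁ : Conn η ((F1 g y ya : Set (ℤ × ℤ)) ∪ S) b₁ (g.w, ya))
    (c₂ : Conn η ((F2 g y yb : Set (ℤ × ℤ)) ∪ S) b₂ (-(g.w + 2), yb))
    (ht : t.2 = y + 4 * (M * q * e))
    (c₃ : Conn η ((FP g (y + 4 * (M * q * e)) : Set (ℤ × ℤ)) ∪ S) t (g.w, ya + 1) ∨
      Conn η ((FP g (y + 4 * (M * q * e)) : Set (ℤ × ℤ)) ∪ S) t (-(g.w + 2), yb + 1))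
    {s : Fin 4} {i : ℤ} (hi : GateOk g i)
    (c₄ : Conn η ((FR g s i : Set (ℤ × ℤ)) ∪ S) (g.w, ya) (-(g.w + 2), yb)) :
    OccAt η col x y M q e z := by
  obtain ⟨N1, Ni1, n1, σn, σA, AA⟩ := hg
  obtain ⟨w0, w1, w2, w3⟩ := hw
  -- numerical facts
  have hσ : 16 ≤ g.σ := by omega
  have hAi : 1600 ≤ g.Ai := by omega
  have hA : 104 * g.Ai ≤ g.A := by nlinarith
  have hwA : g.w = g.N * g.A := rfl
  have hd : g.d = g.Ni * g.Ai := rfl
  have eN1 : (g.N + 1) * g.A = g.w + g.A := by rw [hwA]; ring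
  have eN2 : (g.N + 2) * g.A = g.w + 2 * g.A := by rw [hwA]; ring
  have eN4 : (g.N + 4) * g.A = g.w + 4 * g.A := by rw [hwA]; ring
  have eN3 : (g.N - 3) * g.A = g.w - 3 * g.A := by rw [hwA]; ring
  have eN2' : (g.N - 2) * g.A = g.w - 2 * g.A := by rw [hwA]; ring
  have eN19 : (g.N - 19) * g.A = g.w - 19 * g.A := by rw [hwA]; ring
  have eN20 : (g.N - 20) * g.A = g.w - 20 * g.A := by rw [hwA]; ring
  have hw100 : 100 * g.A ≤ g.w := by rw [hwA]; nlinarith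
  have hdA : g.d + 4 * g.Ai ≤ g.A := by rw [hd]; nlinarith
  have hd100 : 100 * g.Ai ≤ g.d := by rw [hd]; nlinarith
  rw [eN4] at w0 w1 w2 w3
  rw [eN1, eN2] at hb₁' hb₂'
  set X₁ := x + 4 * (M * q * e) with hX₁
  set Y₁ := y + 4 * (M * q * e) with hY₁
  obtain ⟨port, xm₁, xm₂, xs₁, xs₂, -, -, -, vis, box, hole, near₁, near₂, in₁, in₂, -, -⟩ := id hS
  unfold Ports at port
  rw [Finset.mem_filter, Finset.mem_product, Finset.mem_Ico, Finset.mem_Ico] at port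
  obtain ⟨⟨⟨p1, p2⟩, p3, p4⟩, p5, p6, p7, p8, p9⟩ := port
  simp only at p1 p2 p3 p4 p5 p6 p7 p8 p9
  obtain ⟨mm₁, mm₂, ssU⟩ := MM_agree hS h1
  -- the rows of the tips
  have hrw : ∀ v : ℤ, rw' g.A v ≤ v ∧ v < rw' g.A v + g.A := by
    intro v
    unfold rw'
    have e1 := Int.emod_add_mul_ediv v g.A
    have e2 := Int.emod_nonneg v (by omega : g.A ≠ 0)
    have e3 := Int.emod_lt_of_pos v (by omega : 0 < g.A)
    constructor <;> linarith
  have ra := hrw ya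
  have rb := hrw yb
  -- the face sets are in the window
  have hSw : ∀ f ∈ S, f ∈ RF x X₁ y Y₁ := by
    intro f hf
    have := box f hf
    rw [PlanarA.mem_RF]
    omega
  have hF1 : ∀ f ∈ F1 g y ya, (g.w + g.A ≤ f.1 ∧ f.1 < g.w + 2 * g.A ∧ y ≤ f.2 ∧ f.2 < ya) ∨
      (g.w - 3 * g.A ≤ f.1 ∧ f.1 < g.w + 2 * g.A ∧ ya - 3 * g.A ≤ f.2 ∧
        f.2 < ya + 3 * g.A) := by
    intro f hf
    unfold F1 at hf
    rw [Finset.mem_union, Finset.mem_union, Finset.mem_union, PlanarA.mem_RF, PlanarA.mem_RF,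
      PlanarA.mem_RF, PlanarA.mem_RF, eN1, eN2, eN3, eN2'] at hf
    omega
  have hF2 : ∀ f ∈ F2 g y yb,
      (-(g.w + 2 * g.A) ≤ f.1 ∧ f.1 < -(g.w + g.A) ∧ y ≤ f.2 ∧ f.2 < yb) ∨
      (-(g.w + 2 * g.A) ≤ f.1 ∧ f.1 < -(g.w - 3 * g.A) ∧ yb - 3 * g.A ≤ f.2 ∧
        f.2 < yb + 3 * g.A) := by
    intro f hf
    unfold F2 at hf
    rw [Finset.mem_union, Finset.mem_union, Finset.mem_union, PlanarA.mem_RF, PlanarA.mem_RF,
      PlanarA.mem_RF, PlanarA.mem_RF, eN1, eN2, eN3, eN2'] at hf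
    omega
  have hF1w : ∀ f ∈ F1 g y ya, f ∈ RF x X₁ y Y₁ := by
    intro f hf
    have := hF1 f hf
    rw [PlanarA.mem_RF]
    omega
  have hF2w : ∀ f ∈ F2 g y yb, f ∈ RF x X₁ y Y₁ := by
    intro f hf
    have := hF2 f hf
    rw [PlanarA.mem_RF]
    omega
  have hFPw : ∀ f ∈ FP g Y₁, f ∈ RF x X₁ y Y₁ := by
    intro f hf
    unfold FP at hf
    rw [PlanarA.mem_RF, eN1, eN19, eN20] at hf
    rw [PlanarA.mem_RF]
    omega
  have hFRb := fun f hf => FR_box (g := g) (s := s) (f := f) (by omega) Ni1 hi hf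
  have hFRw : ∀ f ∈ FR g s i, f ∈ RF x X₁ y Y₁ := by
    intro f hf
    have := hFRb f hf
    rw [PlanarA.mem_RF]
    omega
  have win : ∀ {F : Finset (ℤ × ℤ)}, (∀ f ∈ F, f ∈ RF x X₁ y Y₁) →
      ((F : Set (ℤ × ℤ)) ∪ S) ⊆ (RF x X₁ y Y₁ : Set (ℤ × ℤ)) := by
    rintro F hF f (hf | hf)
    · exact hF f hf
    · exact hSw f hf
  -- parities
  have hparP : par (g.w, ya + 1) = col := by
    unfold par at hpar ⊢
    simp only at hpar ⊢
    omega
  have hpar2 : par (-(g.w + 2), yb) = (col + 1) % 2 := by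
    unfold par at hpar ⊢
    simp only at hpar ⊢
    omega
  have hparP2 : par (-(g.w + 2), yb + 1) = col := by
    unfold par at hpar2 ⊢
    simp only at hpar2 ⊢
    omega
  have hj₁ : Joins (tR g.w ya) (g.w, ya + 1) (g.w, ya) := by
    right
    exact ⟨rfl, rfl⟩
  have hj₂ : Joins (tL g.w yb) (-(g.w + 2), yb + 1) (-(g.w + 2), yb) := by
    right
    exact ⟨rfl, rfl⟩
  have ss₁ : SS η (DZ g.w ya yb a₁ a₂) (tR g.w ya) ⊆ S := by
    rw [← ssU]; exact Set.subset_union_left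
  have ss₂ : SS η (DZ g.w ya yb a₁ a₂) (tL g.w yb) ⊆ S := by
    rw [← ssU]; exact Set.subset_union_right
  have hSset : S ⊆ (RF x X₁ y Y₁ : Set (ℤ × ℤ)) := hSw
  -- the box of the inner tips
  have hcor : ∀ {a : ℤ × ℤ} {k : ℤ} {l : List (ℤ × ℤ)} {b : UE} {u v : ℤ × ℤ}, InL g S a k l →
      IsSide a b → Joins b u v → InCell x y M q e z u := by
    intro a k l b u v hin hb hj
    have ha : a ∈ l := by
      have := hin.head
      cases l with
      | nil => simp at this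
      | cons c l =>
        simp only [List.head?_cons, Option.some.injEq] at this
        rw [← this]; simp
    have h2 : -(g.d + 2 * g.n + 4) ≤ a.1 ∧ a.1 < g.d + 2 * g.n + 4 ∧
        -(g.d + 2 * g.n + 4) ≤ a.2 ∧ a.2 < g.d + 2 * g.n + 4 := by
      rcases hin.loc a ha with h3 | ⟨-, h3⟩
      · rw [mem_BR] at h3
        have hR : g.R = g.d - g.Ai := by
          rw [hd]
          unfold Par.R
          ring
        simp only at h3
        omega
      · rw [mem_BR] at h3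
        simp only at h3
        omega
    have hu : (u.1 = a.1 ∨ u.1 = a.1 + 1) ∧ (u.2 = a.2 ∨ u.2 = a.2 + 1) := by
      unfold Joins ua ub at hj
      unfold IsSide bo le' to' ri at hb
      rcases hb with rfl | rfl | rfl | rfl <;>
        simp only [Bool.false_eq_true, if_false, if_true] at hj <;>
        rcases hj with ⟨rfl, rfl⟩ | ⟨rfl, rfl⟩ <;> simp
    unfold InCell
    omega
  refine ⟨?_, ?_⟩
  · -- the unit edge
    rcases c₃ with c₃ | c₃
    · obtain ⟨p, p', j1, j2, j3⟩ := MM_conn (ω := η) (F := DZ g.w ya yb a₁ a₂) (a := x₁) hj₁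
        (by rw [mm₁]; exact xm₁)
      obtain ⟨r, r', k1, k2, k3⟩ := MM_conn (ω := η) (F := DZ g.w ya yb a₁ a₂) (a := x₁) hj₁.symm
        (by rw [mm₁]; exact xm₁)
      have hrp : r = p' := by
        have h3 : par r = par p' := by
          have := j1.par_ne
          have e1 := par_cases r
          have e2 := par_cases p
          have e3 := par_cases p'
          rw [hparP] at j2
          rw [hpar] at k2
          omega
        exact (k1.of_par j1.symm h3).1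
      subst hrp
      refine ⟨x₁, p, r, j1, j2.trans hparP, hcor in₁ xs₁ j1, hcor in₁ xs₁ j1.symm, ⟨t, ?_, ht⟩,
        ⟨b₁, ?_, hb₁⟩⟩
      · exact (j3.symm.mono (ss₁.trans hSset)).trans (c₃.symm.mono (win hFPw))
      · exact (k3.symm.mono (ss₁.trans hSset)).trans (c₁.symm.mono (win hF1w))
    · obtain ⟨p, p', j1, j2, j3⟩ := MM_conn (ω := η) (F := DZ g.w ya yb a₁ a₂) (a := x₂) hj₂
        (by rw [mm₂]; exact xm₂)
      obtain ⟨r, r', k1, k2, k3⟩ := MM_conn (ω := η) (F := DZ g.w ya yb a₁ a₂) (a := x₂) hj₂.symm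
        (by rw [mm₂]; exact xm₂)
      have hrp : r = p' := by
        have h3 : par r = par p' := by
          have := j1.par_ne
          have e1 := par_cases r
          have e2 := par_cases p
          have e3 := par_cases p'
          rw [hparP2] at j2
          rw [hpar2] at k2
          omega
        exact (k1.of_par j1.symm h3).1
      subst hrp
      refine ⟨x₂, p, r, j1, j2.trans hparP2, hcor in₂ xs₂ j1, hcor in₂ xs₂ j1.symm, ⟨t, ?_, ht⟩,
        ⟨b₂, ?_, hb₂⟩⟩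
      · exact (j3.symm.mono (ss₂.trans hSset)).trans (c₃.symm.mono (win hFPw))
      · exact (k3.symm.mono (ss₂.trans hSset)).trans (c₂.symm.mono (win hF2w))
  · -- the corridor
    have hrel := ch_rel hK.chain hK.head hK.last
    obtain ⟨f₀, f₁, g1, g2, g3, g4, g5⟩ := cut_chain (L := {f | f ∈ lk}) (r := g.d + 3 * g.Ai - 1)
      (a := (-1, 0)) (b := (0, y - 1)) (by rw [mem_BR]; simp only; omega) hrel
      (by rw [mem_BR]; simp only; omega)
    obtain ⟨m, m1, m2, m3, m4⟩ := exists_list (P := fun f => f ∈ {f | f ∈ lk} ∧ f ≠ (0, y - 1) ∧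
      f ∉ BR (0, 0) (g.d + 3 * g.Ai - 1)) g2 g5
    set Λ : Set (ℤ × ℤ) := ((F1 g y ya : Set (ℤ × ℤ)) ∪ (F2 g y yb : Set (ℤ × ℤ))) ∪
      ((FR g s i : Set (ℤ × ℤ)) ∪ S) with hΛ
    have hconn : Conn η Λ b₁ b₂ := by
      refine ((c₁.mono ?_).trans (c₄.mono ?_)).trans (c₂.symm.mono ?_)
      · rintro f (hf | hf)
        · exact Or.inl (Or.inl hf)
        · exact Or.inr (Or.inr hf)
      · rintro f (hf | hf)
        · exact Or.inr (Or.inl hf)
        · exact Or.inr (Or.inr hf)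
      · rintro f (hf | hf)
        · exact Or.inl (Or.inr hf)
        · exact Or.inr (Or.inr hf)
    have hy : ∀ f ∈ m, y ≤ f.2 := by
      intro f hf
      obtain ⟨h2, h3, -⟩ := m4 f hf
      rcases hK.only f h2 with h4 | h4
      · exact absurd h4 h3
      · exact h4
    have hparb : par b₁ = (col + 1) % 2 := by
      have h5 := Conn.parity c₁
      unfold par at hpar ⊢
      simp only at hpar h5
      omega
    refine seen_of_barrier (Λ := Λ) hcol he hM hq ?_ hb₁ hb₂ (by omega) (by omega) hparb hconn m1 ?_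
      ?_ m2 m3 ?_ ?_
    · rintro f ((hf | hf) | (hf | hf))
      · exact hF1w f hf
      · exact hF2w f hf
      · exact hFRw f hf
      · exact hSw f hf
    · intro f hf
      obtain ⟨h2, h3, -⟩ := m4 f hf
      have h4 := hy f hf
      have h5 := hK.box f h2
      rw [PlanarA.mem_RF]
      omega
    · intro f hf s' hs'
      obtain ⟨h2, h3, h4⟩ := m4 f hf
      have h5 := hK.box f h2
      rcases hs' with (hs' | hs') | (hs' | hs')
      · have h6 := hF1 s' hs'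
        have h7 := hK.ball₁ f h2
        rw [abs_le, abs_le] at h7
        rw [lt_max_iff, lt_abs, lt_abs]
        omega
      · have h6 := hF2 s' hs'
        have h7 := hK.ball₂ f h2
        rw [abs_le, abs_le] at h7
        rw [lt_max_iff, lt_abs, lt_abs]
        omega
      · have h6 := hFRb s' hs'
        rw [mem_BR] at h4
        simp only at h4
        rw [lt_max_iff, lt_abs, lt_abs]
        omega
      · have h6 := hK.far f h2 s' hs'
        omega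
    · rw [mem_BR] at g1
      simp only at g1
      omega
    · have h6 : f₁.2 = y ∧ f₁.1 = 0 := by
        obtain ⟨h2, h3, -⟩ := g4
        rcases hK.only f₁ h2 with h4 | h4
        · exact absurd h4 h3
        · unfold Adj4 at g3
          simp only at g3
          omega
      refine ⟨h6.1, ?_, ?_⟩ <;> rw [h6.2] <;> omega

end Pool.Agent.Occ
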