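import Pool.Agent.Lib.MP_6bd702_occ.ZDefs
import Pool.Agent.Lib.MP_6bd702_perc.TwoArm

/-!
# Row ZJ: translations
-/

set_option autoImplicit false

namespace Pool.Agent.Occ

open Finset Pool.Agent.Perc Pool.Agent.Perc3 Pool.Agent.PercD Pool.Agent.Perc6

namespace ZJAux

variable {ω : Cfg} {a b col x y M q e s : ℤ} {z : ℤ × ℤ}

/-- Translation of a point. -/
def sh (a b : ℤ) (p : ℤ × ℤ) : ℤ × ℤ := (p.1 + a, p.2 + b)

theorem rfs (x₀ x₁ y₀ y₁ a b : ℤ) :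
    {f : ℤ × ℤ | (f.1 - a, f.2 - b) ∈ (RF x₀ x₁ y₀ y₁ : Set (ℤ × ℤ))} =
      (RF (x₀ + a) (x₁ + a) (y₀ + b) (y₁ + b) : Set (ℤ × ℤ)) := by
  ext f
  simp only [RF, Set.mem_ofPred_eq, Finset.coe_product, Set.mem_prod, Finset.coe_Ico, Set.mem_Ico]
  constructor
  · rintro ⟨⟨h1, h2⟩, h3, h4⟩
    exact ⟨⟨by linarith, by linarith⟩, by linarith, by linarith⟩
  · rintro ⟨⟨h1, h2⟩, h3, h4⟩
    exact ⟨⟨by linarith, by linarith⟩, by linarith, by linarith⟩

theorem conn_sh {p t : ℤ × ℤ} :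
    Conn (shiftC a b ω) (RF (x - a) (x - a + s) (y - b) (y - b + s)) p t ↔
      Conn ω (RF x (x + s) y (y + s)) (sh a b p) (sh a b t) := by
  rw [conn_shift, rfs]
  have e1 : x - a + a = x := by ring
  have e2 : x - a + s + a = x + s := by ring
  have e3 : y - b + b = y := by ring
  have e4 : y - b + s + b = y + s := by ring
  rw [e1, e2, e3, e4]
  rfl

theorem par_sh (hcol : col = 0 ∨ col = 1) (p : ℤ × ℤ) :
    par p = (col + a + b) % 2 ↔ par (sh a b p) = col := by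
  unfold par sh
  dsimp only
  constructor
  · intro h
    rcases hcol with rfl | rfl <;> omega
  · intro h
    rcases hcol with rfl | rfl <;> omega

theorem sh_neg (p : ℤ × ℤ) : sh a b (p.1 - a, p.2 - b) = p := by
  unfold sh
  ext <;> simp

theorem rim_sh {p : ℤ × ℤ} (h : Rim ω x y s p) :
    Rim (shiftC a b ω) (x - a) (y - b) s (p.1 - a, p.2 - b) := by
  obtain ⟨t, h1, h2⟩ := h
  refine ⟨(t.1 - a, t.2 - b), ?_, ?_⟩
  · rw [conn_sh, sh_neg, sh_neg]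
    exact h1
  · dsimp only
    omega

theorem free_sh (hcol : col = 0 ∨ col = 1) {t : ℤ × ℤ}
    (h : FreeSq (shiftC a b ω) ((col + a + b) % 2) (x - a) (y - b) s e t) :
    FreeSq ω col x y s e t := by
  obtain ⟨h1, h2⟩ := h
  refine ⟨h1, fun p hp1 hp2 hp3 hp4 hpc hr => ?_⟩
  refine h2 (p.1 - a, p.2 - b) (by dsimp only; linarith) (by dsimp only; linarith)
    (by dsimp only; linarith) (by dsimp only; linarith) ?_ (rim_sh hr)
  rw [par_sh hcol, sh_neg]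
  exact hpc

theorem seen_sh (hcol : col = 0 ∨ col = 1)
    (h : Seen (shiftC a b ω) ((col + a + b) % 2) (x - a) (y - b) M q e z) :
    Seen ω col x y M q e z := by
  obtain ⟨t, t', h1, h2, h3, h4⟩ := h
  refine ⟨t, t', h1, h2, free_sh hcol h3, ?_⟩
  clear h2
  induction h4 with
  | refl => exact Relation.ReflTransGen.refl
  | tail _ h ih =>
    obtain ⟨h5, h6, h7⟩ := h
    exact Relation.ReflTransGen.tail ih ⟨h5, free_sh hcol h6, free_sh hcol h7⟩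

theorem inCell_sh {p : ℤ × ℤ} (h : InCell (x - a) (y - b) M q e z p) :
    InCell x y M q e z (sh a b p) := by
  obtain ⟨h1, h2, h3, h4⟩ := h
  refine ⟨?_, ?_, ?_, ?_⟩ <;> unfold sh <;> dsimp only <;> linarith

theorem joins_sh {d : UE} {p p' : ℤ × ℤ} (h : Joins d p p') :
    Joins (d.1 + a, d.2.1 + b, d.2.2) (sh a b p) (sh a b p') := by
  have e1 : ua (d.1 + a, d.2.1 + b, d.2.2) = sh a b (ua d) := rfl
  have e2 : ub (d.1 + a, d.2.1 + b, d.2.2) = sh a b (ub d) := by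
    obtain ⟨u, v, w⟩ := d
    unfold ub sh
    rcases w with _ | _
    · ext
      · dsimp; ring
      · rfl
    · ext
      · rfl
      · dsimp; ring
  unfold Joins
  rw [e1, e2]
  rcases h with ⟨rfl, rfl⟩ | ⟨rfl, rfl⟩
  · exact Or.inl ⟨rfl, rfl⟩
  · exact Or.inr ⟨rfl, rfl⟩

end ZJAux

theorem occAt_shift {ω : Cfg} {a b col x y M q e : ℤ} {z : ℤ × ℤ} (hcol : col = 0 ∨ col = 1)
    (h : OccAt (shiftC a b ω) ((col + a + b) % 2) (x - a) (y - b) M q e z) :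
    OccAt ω col x y M q e z := by
  obtain ⟨⟨d, p, p', h1, h2, h3, h4, ⟨t, h5, h6⟩, ⟨t', h7, h8⟩⟩, h9⟩ := h
  refine ⟨⟨_, ZJAux.sh a b p, ZJAux.sh a b p', ZJAux.joins_sh h1, (ZJAux.par_sh hcol p).1 h2,
    ZJAux.inCell_sh h3, ZJAux.inCell_sh h4, ⟨ZJAux.sh a b t, ZJAux.conn_sh.1 h5, ?_⟩,
    ⟨ZJAux.sh a b t', ZJAux.conn_sh.1 h7, ?_⟩⟩, ZJAux.seen_sh hcol h9⟩
  · show t.2 + b = _
    rw [h6]
    ring
  · show t'.2 + b = _
    rw [h8]
    ring

/-- Translation invariance of the measure for events of a window. -/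
theorem pr_shiftC {W W' : Finset (ℤ × ℤ)} {X : Set Cfg} {a b : ℤ}
    (hX : DepOn (W : Set (ℤ × ℤ)) X) (hW : ∀ f ∈ W, (f.1 + a, f.2 + b) ∈ W') :
    pr W' {ω | shiftC a b ω ∈ X} = pr W X :=
  TwoArm.pr_shift hX a b hW

end Pool.Agent.Occ
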