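import Pool.Agent.Lib.MP_6bd702_occ.ZJ

/-!
# Row ZK: the tubes together with the walls have positive probability
-/

set_option autoImplicit false

namespace Pool.Agent.Occ

open Finset Pool.Agent.Perc Pool.Agent.Perc3 Pool.Agent.PercD Pool.Agent.Perc6 Pool.Agent.PercL

namespace ZKA

/-- The shifted event. -/
def Sh (a b : ℤ) (X : Set Cfg) : Set Cfg := {ξ | shiftC a b ξ ∈ X}

/-- The shifted set of faces. -/
noncomputable def shF (a b : ℤ) (F : Finset (ℤ × ℤ)) : Finset (ℤ × ℤ) :=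
  F.image fun f => (f.1 + a, f.2 + b)

theorem mem_shF {a b : ℤ} {F : Finset (ℤ × ℤ)} {f : ℤ × ℤ} :
    f ∈ shF a b F ↔ (f.1 - a, f.2 - b) ∈ F := by
  unfold shF
  rw [mem_image]
  constructor
  · rintro ⟨g, hg, rfl⟩
    simpa using hg
  · intro h
    exact ⟨_, h, by ext <;> simp⟩

theorem depOn_Sh {a b : ℤ} {F : Finset (ℤ × ℤ)} {X : Set Cfg} (h : DepOn (F : Set (ℤ × ℤ)) X) :
    DepOn (shF a b F : Set (ℤ × ℤ)) (Sh a b X) := by
  intro ω ω' hω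
  refine h _ _ fun f hf => ?_
  refine hω _ ?_
  rw [mem_coe, mem_shF]
  simpa using hf

theorem incD_Sh {a b col : ℤ} {X : Set Cfg} (h : IncD (parD col) X) :
    IncD (parD (col + a + b)) (Sh a b X) := by
  intro ω ω' hle hω
  refine h _ _ (fun f => ?_) hω
  have := hle (f.1 + a, f.2 + b)
  unfold Perc.flip parD shiftC at *
  have e : f.1 + a + (f.2 + b) - (col + a + b) = f.1 + f.2 - col := by ring
  simp only [e] at this
  exact this

/-- Events with a lower bound. -/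
structure Gd (W : Finset (ℤ × ℤ)) (D : ℤ × ℤ → Bool) (δ : ℝ) (X : Set Cfg) : Prop where
  dep : DepOn (W : Set (ℤ × ℤ)) X
  inc : IncD D X
  low : δ ≤ pr W X

theorem Gd.inter {W : Finset (ℤ × ℤ)} {D : ℤ × ℤ → Bool} {δ δ' : ℝ} {X Y : Set Cfg}
    (hX : Gd W D δ X) (hY : Gd W D δ' Y) (hδ : 0 ≤ δ') : Gd W D (δ * δ') (X ∩ Y) where
  dep := depOn_inter' hX.dep hY.dep
  inc := incD_inter' hX.inc hY.inc
  low := (mul_le_mul hX.low hY.low hδ (pr_nonneg _ _)).trans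
    (harris D hX.dep hY.dep hX.inc hY.inc)

end ZKA

open ZKA

/-- The tubes of colour P (`col`) and D (`col + 1`) in the window shifted by `(a, b)`. -/
theorem pr_tubes (N Ni H : ℤ) : ∃ c : ℝ, 0 < c ∧ ∀ g : Par, g.N = N → g.Ni = Ni → g.Ok →
    ∀ (a b X₀ X₁ Y₀ Y₁ ya yb col : ℤ) (s : Fin 4) (i : ℤ), WinOk g X₀ X₁ Y₀ Y₁ →
    X₁ - X₀ ≤ H * g.A → Y₁ - Y₀ ≤ H * g.A → (ya, yb) ∈ Ports g.w → GateOk g i →
    ∀ (W SP SD : Finset (ℤ × ℤ)) (P D : Set Cfg), SP ⊆ W → SD ⊆ W → Disjoint SP SD →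
    DepOn SP P → DepOn SD D → IncD (parD (col + a + b)) P → IncD (parD (col + a + b + 1)) D →
    (∀ f ∈ RF X₀ X₁ Y₀ Y₁, (f.1 + a, f.2 + b) ∈ W) →
    (∀ f ∈ RF X₀ X₁ Y₀ Y₁, (f.1 + a, f.2 + b) ∈ SP → (g.N + 4) * g.A ≤ f.2) →
    (∀ f ∈ RF X₀ X₁ Y₀ Y₁, (f.1 + a, f.2 + b) ∈ SD → f.2 < -((g.N + 4) * g.A)) →
    c * (pr W P * pr W D) ≤ pr W ((P ∩ D) ∩ {ξ | shiftC a b ξ ∈ PS g col Y₁ ∧
      shiftC a b ξ ∈ D1 g (col + 1) Y₀ ya ∧ shiftC a b ξ ∈ D2 g (col + 1) Y₀ yb ∧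
      shiftC a b ξ ∈ TubeEv (col + 1) 0 0 g.Ai (RD g s i)}) := by
  classical
  set k : ℕ := max H.toNat 5 with hk
  obtain ⟨c₁, hc1, hL⟩ := rswF k
  obtain ⟨c₂, hc2, hB⟩ := rswF' k
  obtain ⟨δ, hδ, hT⟩ := pr_tube ((2 * Ni + 5).toNat * (2 * Ni + 5).toNat + 4)
  set c' := min c₁ c₂ with hc'
  have hc0 : 0 < c' := lt_min hc1 hc2
  refine ⟨c' * (c' * c' * c' * c' * (c' * c' * c' * c') * δ), by positivity, ?_⟩
  intro g hgN hgNi hg a b X₀ X₁ Y₀ Y₁ ya yb col s i hW hX hY hp hgate W SP SD P D hSP hSD hdis hP hD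
    hPi hDi hRW hRP hRD
  obtain ⟨hN1, hNi1, hn1, hσn, hσA, hAA⟩ := hg
  obtain ⟨w1, w2, w3, w4⟩ := hW
  have hAi : 1 ≤ g.Ai := by omega
  have hAiA : 104 * g.Ai ≤ g.A := le_trans (mul_le_mul_of_nonneg_right (by omega) (by omega)) hAA
  have hA : 104 ≤ g.A := by omega
  have hA0 : 0 < g.A := by omega
  -- products
  have q1 : (g.N + 1) * g.A = g.N * g.A + g.A := by ring
  have q2 : (g.N + 2) * g.A = g.N * g.A + 2 * g.A := by ring
  have q3 : (g.N - 3) * g.A = g.N * g.A - 3 * g.A := by ring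
  have q4 : (g.N + 4) * g.A = g.N * g.A + 4 * g.A := by ring
  have q5 : (g.N - 2) * g.A = g.N * g.A - 2 * g.A := by ring
  have q6 : (g.N - 20) * g.A = g.N * g.A - 20 * g.A := by ring
  have q7 : (g.N - 19) * g.A = g.N * g.A - 19 * g.A := by ring
  have q8 : 100 * g.A ≤ g.N * g.A := mul_le_mul_of_nonneg_right hN1 hA0.le
  -- rows of the ports
  have hw : g.w = g.N * g.A := rfl
  have hp' : 0 ≤ ya ∧ g.N * g.A ≤ 4 * ya ∧ 2 * ya < g.N * g.A ∧ 0 ≤ yb ∧ g.N * g.A ≤ 4 * yb ∧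
      2 * yb < g.N * g.A := by
    unfold Ports at hp
    rw [mem_filter, mem_product, mem_Ico, mem_Ico, hw] at hp
    simp only at hp
    omega
  have hra : rw' g.A ya ≤ ya ∧ ya - g.A < rw' g.A ya := by
    unfold rw'
    have h1 := Int.mul_ediv_self_le (x := ya) (k := g.A) hA0.ne'
    have h2 := Int.lt_mul_ediv_self_add (x := ya) (k := g.A) hA0
    omega
  have hrb : rw' g.A yb ≤ yb ∧ yb - g.A < rw' g.A yb := by
    unfold rw'
    have h1 := Int.mul_ediv_self_le (x := yb) (k := g.A) hA0.ne'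
    have h2 := Int.lt_mul_ediv_self_add (x := yb) (k := g.A) hA0
    omega
  -- the bound by `k`
  have hkA : Y₁ - Y₀ ≤ (k : ℤ) * g.A := by
    refine hY.trans (mul_le_mul_of_nonneg_right ?_ hA0.le)
    rw [hk]
    push_cast
    exact le_max_of_le_left (Int.self_le_toNat H)
  have hk5 : 5 * g.A ≤ (k : ℤ) * g.A := by
    refine mul_le_mul_of_nonneg_right ?_ hA0.le
    rw [hk]
    push_cast
    exact le_max_right _ _
  set R := RF X₀ X₁ Y₀ Y₁ with hR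
  have memR : ∀ f : ℤ × ℤ, f ∈ R ↔ X₀ ≤ f.1 ∧ f.1 < X₁ ∧ Y₀ ≤ f.2 ∧ f.2 < Y₁ := fun f => mem_RFi
  set FPs := FP g Y₁ with hFPs
  have memFP : ∀ f : ℤ × ℤ, f ∈ FPs ↔ g.N * g.A - 20 * g.A ≤ f.1 ∧ f.1 < g.N * g.A - 19 * g.A ∧
      -(g.N * g.A + g.A) ≤ f.2 ∧ f.2 < Y₁ := by
    intro f
    rw [hFPs, FP, mem_RFi, q6, q7, q1]
  have hFPR : FPs ⊆ R := by
    intro f hf
    rw [memFP] at hf
    rw [memR]
    omega
  set FD : Finset (ℤ × ℤ) := R.filter fun f => f.2 < g.N * g.A + 4 * g.A ∧ f ∉ FPs with hFD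
  have memFD : ∀ f : ℤ × ℤ, f ∈ FD ↔ (X₀ ≤ f.1 ∧ f.1 < X₁ ∧ Y₀ ≤ f.2 ∧ f.2 < Y₁) ∧
      f.2 < g.N * g.A + 4 * g.A ∧ ¬ (g.N * g.A - 20 * g.A ≤ f.1 ∧ f.1 < g.N * g.A - 19 * g.A ∧
      -(g.N * g.A + g.A) ≤ f.2 ∧ f.2 < Y₁) := by
    intro f
    rw [hFD, mem_filter, memR, memFP]
  have hFDR : FD ⊆ R := filter_subset _ _
  -- rectangles in `FD`
  have gL : ∀ x₀ x₁ y₀ y₁ : ℤ, x₀ < x₁ → y₀ < y₁ → x₁ - x₀ ≤ k * (y₁ - y₀) →
      (∀ f : ℤ × ℤ, x₀ ≤ f.1 ∧ f.1 < x₁ ∧ y₀ ≤ f.2 ∧ f.2 < y₁ → f ∈ FD) →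
      Gd FD (parD (col + 1)) c' (LR (col + 1) x₀ x₁ y₀ y₁) := by
    intro x₀ x₁ y₀ y₁ hx hy hk hs
    have hsub : RF x₀ x₁ y₀ y₁ ⊆ FD := fun f hf => hs f (mem_RFi.1 hf)
    refine ⟨depOn_mono' (depOn_LR _ _ _ _ _) (by exact_mod_cast hsub), incD_LR _ _ _ _ _, ?_⟩
    rw [pr_eq_of_depOn (depOn_LR _ _ _ _ _) hsub]
    exact (min_le_left _ _).trans (hL _ _ _ _ _ hx hy hk)
  have gB : ∀ x₀ x₁ y₀ y₁ : ℤ, x₀ < x₁ → y₀ < y₁ → y₁ - y₀ ≤ k * (x₁ - x₀) →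
      (∀ f : ℤ × ℤ, x₀ ≤ f.1 ∧ f.1 < x₁ ∧ y₀ ≤ f.2 ∧ f.2 < y₁ → f ∈ FD) →
      Gd FD (parD (col + 1)) c' (BT (col + 1) x₀ x₁ y₀ y₁) := by
    intro x₀ x₁ y₀ y₁ hx hy hk hs
    have hsub : RF x₀ x₁ y₀ y₁ ⊆ FD := fun f hf => hs f (mem_RFi.1 hf)
    refine ⟨depOn_mono' (depOn_BT _ _ _ _ _) (by exact_mod_cast hsub), incD_BT' _ _ _ _ _, ?_⟩
    rw [pr_eq_of_depOn (depOn_BT _ _ _ _ _) hsub]
    exact (min_le_right _ _).trans (hB _ _ _ _ _ hx hy hk)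
  have kk : ∀ z : ℤ, z = g.A → (k : ℤ) * z = k * g.A := fun z hz => by rw [hz]
  -- the right leg
  have gD1 : Gd FD (parD (col + 1)) (c' * c' * c' * c') (D1 g (col + 1) Y₀ ya) := by
    unfold D1
    refine (((gB _ _ _ _ ?_ ?_ ?_ ?_).inter (gL _ _ _ _ ?_ ?_ ?_ ?_) hc0.le).inter
      (gB _ _ _ _ ?_ ?_ ?_ ?_) hc0.le).inter (gL _ _ _ _ ?_ ?_ ?_ ?_) hc0.le
    · omega
    · omega
    · rw [kk _ (by omega)]; omega
    · intro f hf
      rw [memFD]; omega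
    · omega
    · omega
    · rw [kk _ (by omega)]; omega
    · intro f hf
      rw [memFD]; omega
    · omega
    · omega
    · rw [kk _ (by omega)]; omega
    · intro f hf
      rw [memFD]; omega
    · omega
    · omega
    · rw [kk _ (by omega)]; omega
    · intro f hf
      rw [memFD]; omega
  have gD2 : Gd FD (parD (col + 1)) (c' * c' * c' * c') (D2 g (col + 1) Y₀ yb) := by
    unfold D2
    refine (((gB _ _ _ _ ?_ ?_ ?_ ?_).inter (gL _ _ _ _ ?_ ?_ ?_ ?_) hc0.le).inter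
      (gB _ _ _ _ ?_ ?_ ?_ ?_) hc0.le).inter (gL _ _ _ _ ?_ ?_ ?_ ?_) hc0.le
    · omega
    · omega
    · rw [kk _ (by omega)]; omega
    · intro f hf
      rw [memFD]; omega
    · omega
    · omega
    · rw [kk _ (by omega)]; omega
    · intro f hf
      rw [memFD]; omega
    · omega
    · omega
    · rw [kk _ (by omega)]; omega
    · intro f hf
      rw [memFD]; omega
    · omega
    · omega
    · rw [kk _ (by omega)]; omega
    · intro f hf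
      rw [memFD]; omega
  -- the ring
  have hcell : ∀ c ∈ RD g s i, -(g.Ni + 2) ≤ c.1 ∧ c.1 ≤ g.Ni + 1 ∧ -(g.Ni + 2) ≤ c.2 ∧
      c.2 ≤ g.Ni + 1 := by
    intro c hc
    unfold RD at hc
    rw [mem_union] at hc
    obtain ⟨g1, g2⟩ := hgate
    rcases hc with hc | hc
    · have := mem_of_mem_erase hc
      unfold lay at this
      rw [mem_filter, mem_product, mem_Icc, mem_Icc] at this
      omega
    · simp only [mem_insert, mem_singleton] at hc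
      fin_cases s <;> simp [ceS] at hc <;> rcases hc with rfl | rfl | rfl | rfl <;>
        refine ⟨?_, ?_, ?_, ?_⟩ <;> simp only <;> omega
  have hRcard : (RD g s i).card ≤ (2 * Ni + 5).toNat * (2 * Ni + 5).toNat + 4 := by
    have h1 : RD g s i ⊆ (Icc (-(g.Ni + 2)) (g.Ni + 2)) ×ˢ (Icc (-(g.Ni + 2)) (g.Ni + 2)) := by
      intro c hc
      have := hcell c hc
      rw [mem_product, mem_Icc, mem_Icc]
      omega
    have h2 := card_le_card h1
    rw [card_product, Int.card_Icc] at h2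
    have h3 : (g.Ni + 2 + 1 - -(g.Ni + 2)).toNat = (2 * Ni + 5).toNat := by
      congr 1
      omega
    rw [h3] at h2
    omega
  have hRF : cellsF 0 0 g.Ai (RD g s i) ⊆ FD := by
    intro f hf
    obtain ⟨c, hc, hf⟩ := mem_biUnion.1 hf
    have hcr := hcell c hc
    unfold cellF at hf
    rw [mem_RFi] at hf
    have e1 : g.Ai * (c.1 + 1) ≤ g.Ai * (g.Ni + 2) :=
      mul_le_mul_of_nonneg_left (by omega) (by omega)
    have e2 : g.Ai * (c.2 + 1) ≤ g.Ai * (g.Ni + 2) :=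
      mul_le_mul_of_nonneg_left (by omega) (by omega)
    have e3 : g.Ai * (-(g.Ni + 2)) ≤ g.Ai * c.1 :=
      mul_le_mul_of_nonneg_left (by omega) (by omega)
    have e4 : g.Ai * (-(g.Ni + 2)) ≤ g.Ai * c.2 :=
      mul_le_mul_of_nonneg_left (by omega) (by omega)
    have e5 : g.Ai * (g.Ni + 2) = (g.Ni + 4) * g.Ai - 2 * g.Ai := by ring
    have e6 : g.Ai * (-(g.Ni + 2)) = -((g.Ni + 4) * g.Ai - 2 * g.Ai) := by ring
    rw [memFD]
    omega
  have gT : Gd FD (parD (col + 1)) δ (TubeEv (col + 1) 0 0 g.Ai (RD g s i)) :=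
    ⟨depOn_mono' (depOn_tube _ _ _ _ _ hAi) (by exact_mod_cast hRF), incD_tube _ _ _ _ _,
      hT _ _ _ _ _ _ hAi hRcard hRF⟩
  have gDD := (gD1.inter gD2 (by positivity)).inter gT hδ.le
  set XD : Set Cfg := D1 g (col + 1) Y₀ ya ∩ D2 g (col + 1) Y₀ yb ∩
    TubeEv (col + 1) 0 0 g.Ai (RD g s i) with hXD
  -- the strip
  have gP : Gd FPs (parD col) c' (PS g col Y₁) := by
    refine ⟨?_, incD_BT' _ _ _ _ _, ?_⟩
    · exact depOn_BT _ _ _ _ _
    · refine (min_le_right _ _).trans (hB col _ _ _ _ ?_ ?_ ?_)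
      · omega
      · omega
      · rw [kk _ (by omega)]; omega
  -- shift
  have sW : ∀ F : Finset (ℤ × ℤ), F ⊆ R → shF a b F ⊆ W := by
    intro F hF f hf
    rw [mem_shF] at hf
    have := hRW _ (hF hf)
    simpa using this
  have sP : pr W (Sh a b (PS g col Y₁)) = pr FPs (PS g col Y₁) :=
    pr_shiftC gP.dep fun f hf => hRW f (hFPR hf)
  have sD : pr W (Sh a b XD) = pr FD XD := pr_shiftC gDD.dep fun f hf => hRW f (hFDR hf)
  have d1 := depOn_Sh (a := a) (b := b) gP.dep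
  have d2 := depOn_Sh (a := a) (b := b) gDD.dep
  have i1 := incD_Sh (a := a) (b := b) gP.inc
  have i2 : IncD (parD (col + a + b + 1)) (Sh a b XD) := by
    have := incD_Sh (a := a) (b := b) gDD.inc
    rwa [show col + 1 + a + b = col + a + b + 1 by ring] at this
  -- windows
  set S1 := SP ∪ shF a b FPs with hS1
  set S2 := SD ∪ shF a b FD with hS2
  have hS1W : S1 ⊆ W := union_subset hSP (sW _ hFPR)
  have hS2W : S2 ⊆ W := union_subset hSD (sW _ hFDR)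
  have hd : Disjoint S1 S2 := by
    rw [disjoint_left]
    intro f h1 h2
    rw [hS1, mem_union] at h1
    rw [hS2, mem_union] at h2
    rcases h1 with h1 | h1 <;> rcases h2 with h2 | h2
    · exact disjoint_left.1 hdis h1 h2
    · rw [mem_shF] at h2
      have h3 := hRP _ (hFDR h2) (by simpa using h1)
      rw [memFD] at h2
      simp only at h3 h2
      omega
    · rw [mem_shF] at h1
      have h3 := hRD _ (hFPR h1) (by simpa using h2)
      rw [memFP] at h1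
      simp only at h3 h1
      omega
    · rw [mem_shF] at h1 h2
      rw [memFP] at h1
      rw [memFD] at h2
      exact h2.2.2 h1
  have D1' : DepOn (S1 : Set (ℤ × ℤ)) (P ∩ Sh a b (PS g col Y₁)) :=
    depOn_inter' (depOn_mono' hP (by exact_mod_cast subset_union_left))
      (depOn_mono' d1 (by exact_mod_cast subset_union_right))
  have D2' : DepOn (S2 : Set (ℤ × ℤ)) (D ∩ Sh a b XD) :=
    depOn_inter' (depOn_mono' hD (by exact_mod_cast subset_union_left))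
      (depOn_mono' d2 (by exact_mod_cast subset_union_right))
  have hi := pr_indep D1' D2' hd hS1W hS2W
  have e1 := pr_eq_of_depOn D1' hS1W
  have e2 := pr_eq_of_depOn D2' hS2W
  rw [← e1, ← e2] at hi
  have hSPW : DepOn (W : Set (ℤ × ℤ)) P := depOn_mono' hP (by exact_mod_cast hSP)
  have hSDW : DepOn (W : Set (ℤ × ℤ)) D := depOn_mono' hD (by exact_mod_cast hSD)
  have f1 : pr W P * c' ≤ pr W (P ∩ Sh a b (PS g col Y₁)) := by
    refine le_trans ?_ (harris _ hSPW (depOn_mono' d1 (by exact_mod_cast sW _ hFPR)) hPi i1)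
    rw [sP]
    exact mul_le_mul_of_nonneg_left gP.low (pr_nonneg _ _)
  have f2 : pr W D * (c' * c' * c' * c' * (c' * c' * c' * c') * δ) ≤ pr W (D ∩ Sh a b XD) := by
    refine le_trans ?_ (harris _ hSDW (depOn_mono' d2 (by exact_mod_cast sW _ hFDR)) hDi i2)
    rw [sD]
    exact mul_le_mul_of_nonneg_left gDD.low (pr_nonneg _ _)
  calc c' * (c' * c' * c' * c' * (c' * c' * c' * c') * δ) * (pr W P * pr W D)
      = (pr W P * c') * (pr W D * (c' * c' * c' * c' * (c' * c' * c' * c') * δ)) := by ring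
    _ ≤ pr W (P ∩ Sh a b (PS g col Y₁)) * pr W (D ∩ Sh a b XD) :=
        mul_le_mul f1 f2 (mul_nonneg (pr_nonneg _ _) (by positivity)) (pr_nonneg _ _)
    _ = pr W ((P ∩ Sh a b (PS g col Y₁)) ∩ (D ∩ Sh a b XD)) := hi.symm
    _ ≤ _ := pr_mono _ ?_
  rintro ω ⟨⟨h1, h2⟩, h3, ⟨h4, h5⟩, h6⟩
  exact ⟨⟨h1, h3⟩, h2, h4, h5, h6⟩

end Pool.Agent.Occ
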