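import Pool.Agent.Lib.MP_6bd702_occ.ZD
import Pool.Agent.Lib.MP_6bd702_occ.TwoPt
import Pool.Agent.Lib.MP_6bd702_perc6_h22.CountZ

/-!
# Row ZL: second moment of the number of pairs of ports

`lcf 0 ω ∈ PX` implies that the strands from the two ports leave the half boxes of radius `2 A` at the
ports, and the annulus event `Av` (two strands and a corridor with at most `m` corners) in
`BR w / 2 \ BR (d + 2 n + 4)`, independent of the half boxes.
-/

set_option autoImplicit false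

namespace Pool.Agent.Occ

open Finset Pool.Agent.Perc Pool.Agent.Perc3 Pool.Agent.PercD
open Pool.Agent.PercN (BdF other_unique NP mem_NP moment_NC mem_An)

/-! ### The half boxes -/

/-- The tip at the height `y` of the half box `V (y / A)` on the line `x = x₀` reaches the boundary
of the box of radius `2 A`. -/
def XH (V : ℤ → Finset (ℤ × ℤ)) (x₀ A y : ℤ) : Set Cfg :=
  {ω | ∃ a ∈ MM ω (V (y / A)) ((x₀, y, true) : UE), BdR (x₀, A * (y / A)) (2 * A) a}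

theorem depOn_XH (V : ℤ → Finset (ℤ × ℤ)) (x₀ A y : ℤ) :
    DepOn (V (y / A) : Set (ℤ × ℤ)) (XH V x₀ A y) := by
  intro ω ω' h
  unfold XH
  simp only [Set.mem_ofPred_eq, MM_congr' h]

theorem not_bdR_of_inE {v : ℤ × ℤ} {r R : ℤ} {a : UE} (h : InE v r a) (hr : r < R) :
    ¬ BdR v R a := by
  intro h'
  obtain ⟨x, y, c⟩ := a
  unfold BdR BdE at h'
  unfold InE InR at h
  cases c
  · rw [ua_mk, ub_false] at h
    simp at h h'
    omega
  · rw [ua_mk, ub_true] at h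
    simp at h h'
    omega

theorem bdF_of_sub {v : ℤ × ℤ} {R : ℤ} {V : Finset (ℤ × ℤ)} (hV : V ⊆ BR v R) {a : UE}
    (h : BdR v R a) : BdF (V : Set (ℤ × ℤ)) a := by
  intro d h1 h2
  have h1' := hV (mem_coe.1 h1)
  have h2' := hV (mem_coe.1 h2)
  rw [mem_BR] at h1' h2'
  obtain ⟨x, y, c⟩ := a
  unfold BdR BdE at h
  cases c <;> cases d <;> simp [Tips.ahead] at h h1' h2' <;> omega

/-- The number of tips of one half box whose strand reaches the boundary. -/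
theorem card_half {ω : Cfg} {x₀ c r R : ℤ} {V : Finset (ℤ × ℤ)} (hr : 0 < r) (hrR : r < R)
    (hV : V ⊆ BR (x₀, c) R) (hside : (∀ f ∈ V, f.1 < x₀) ∨ ∀ f ∈ V, x₀ ≤ f.1)
    (I : Finset ℤ) (hI : ∀ y ∈ I, c - r ≤ y ∧ y < c + r ∧
      ∃ a ∈ MM ω V ((x₀, y, true) : UE), BdR (x₀, c) R a) :
    I.card ≤ PercN.NC (x₀, c) r R ω := by
  classical
  have hB : ∀ y, BdF (V : Set (ℤ × ℤ)) ((x₀, y, true) : UE) := by
    intro y d h1 h2
    rcases hside with hs | hs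
    · have h1' := hs _ (mem_coe.1 h1)
      have h2' := hs _ (mem_coe.1 h2)
      cases d <;> simp [Tips.ahead] at h1' h2'
    · have h1' := hs _ (mem_coe.1 h1)
      have h2' := hs _ (mem_coe.1 h2)
      cases d <;> simp [Tips.ahead] at h1' h2'
  have hin : ∀ y, c - r ≤ y → y < c + r → InE (x₀, c) r ((x₀, y, true) : UE) := by
    intro y h1 h2
    unfold InE InR
    rw [ua_mk, ub_true]
    simp only
    omega
  have H : ∀ y ∈ I, ∃ b : UE, BdR (x₀, c) r b ∧ b ∈ MM ω V ((x₀, y, true) : UE) ∧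
      b ∈ NP (fun _ => True) (x₀, c) r R ω := by
    intro y hy
    obtain ⟨h1, h2, a, ha, hab⟩ := hI y hy
    rcases PercS5.last_exit' (hin y h1 h2) ha with h | ⟨b, hb, hbb, hba⟩
    · exact absurd hab (not_bdR_of_inE h hrR)
    · refine ⟨b, hbb, hb, (mem_NP hr.le).2 ⟨hbb, a, MM_mono ?_ hba, hab, trivial⟩⟩
      rintro f ⟨hf, hf'⟩
      exact mem_coe.2 (mem_An.2 ⟨hV (mem_coe.1 hf), fun h => hf' (mem_coe.2 h)⟩)
  choose! b hb1 hb2 hb3 using H
  unfold PercN.NC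
  refine Finset.card_le_card_of_injOn b (fun y hy => mem_coe.2 (hb3 y hy)) ?_
  intro y hy y' hy' hbb
  obtain ⟨h1, h2, a, ha, hab⟩ := hI y hy
  obtain ⟨h1', h2', -⟩ := hI y' hy'
  by_contra hne
  have ht : ((x₀, y', true) : UE) ∈ MM ω V ((x₀, y, true) : UE) := by
    have k1 := hb2 y hy
    have k2 := hb2 y' hy'
    rw [← hbb] at k2
    exact MM_trans k1 (MM_symm k2)
  have hae : a ≠ ((x₀, y, true) : UE) := by
    rintro rfl
    exact not_bdR_of_inE (hin y h1 h2) hrR hab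
  have e1 := other_unique (hB y) ha ht (bdF_of_sub hV hab) (hB y') hae (by
    simp only [ne_eq, Prod.mk.injEq, not_and]
    intro _ h
    exact absurd h.symm hne)
  rw [e1] at hab
  exact not_bdR_of_inE (hin y' h1' h2') hrR hab

/-- The second moment of the number of tips whose strand reaches the boundary of the box. -/
theorem sum_XH : ∃ C : ℝ, 0 < C ∧ ∀ (x₀ A : ℤ) (N : ℕ) (V : ℤ → Finset (ℤ × ℤ)) (S : Finset (ℤ × ℤ))
    (I : Finset ℤ), 0 < A → (∀ j, V j ⊆ BR (x₀, A * j) (2 * A)) →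
    (∀ j, (∀ f ∈ V j, f.1 < x₀) ∨ ∀ f ∈ V j, x₀ ≤ f.1) → (∀ y ∈ I, 0 ≤ y ∧ y < N * A) →
    (∀ y ∈ I, V (y / A) ⊆ S) →
    ∑ y ∈ I, ∑ y' ∈ I, pr S (XH V x₀ A y ∩ XH V x₀ A y') ≤ C * N ^ 2 := by
  classical
  obtain ⟨C, hC, H⟩ := moment_NC 2
  refine ⟨C, hC, fun x₀ A N V S I hA hV hside hI hS => ?_⟩
  set W : Finset (ℤ × ℤ) := S ∪ (range N).biUnion fun j => BR (x₀, A * (j : ℤ)) (2 * A) with hW
  have hSW : S ⊆ W := subset_union_left
  have hVW : ∀ j ∈ range N, BR (x₀, A * (j : ℤ)) (2 * A) ⊆ W := by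
    intro j hj
    exact (subset_biUnion_of_mem (fun j : ℕ => BR (x₀, A * (j : ℤ)) (2 * A)) hj).trans
      subset_union_right
  -- the number of tips
  set M : Cfg → Finset ℤ := fun ω => I.filter fun y => ω ∈ XH V x₀ A y with hM
  have hcard : ∀ ω, (M ω).card ≤ ∑ j ∈ range N, PercN.NC (x₀, A * (j : ℤ)) A (2 * A) ω := by
    intro ω
    have h1 : M ω ⊆ (range N).biUnion fun j : ℕ => (M ω).filter fun y => y / A = j := by
      intro y hy
      have hyI := (mem_filter.1 hy).1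
      obtain ⟨h1, h2⟩ := hI y hyI
      rw [mem_biUnion]
      have h3 : 0 ≤ y / A := Int.ediv_nonneg h1 hA.le
      have h4 : y / A < N := Int.ediv_lt_of_lt_mul hA h2
      refine ⟨(y / A).toNat, ?_, ?_⟩
      · rw [mem_range]; omega
      · rw [mem_filter]
        exact ⟨hy, by omega⟩
    refine (card_le_card h1).trans (card_biUnion_le.trans (sum_le_sum fun j _ => ?_))
    refine card_half hA (by omega) (hV j) (hside j) _ fun y hy => ?_
    obtain ⟨hy1, hy2⟩ := mem_filter.1 hy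
    obtain ⟨-, hy3⟩ := mem_filter.1 hy1
    unfold XH at hy3
    rw [Set.mem_ofPred_eq, hy2] at hy3
    have h3 := Int.mul_ediv_add_emod y A
    have h4 := Int.emod_nonneg y hA.ne'
    have h5 := Int.emod_lt_of_pos y hA
    rw [hy2] at h3
    exact ⟨by omega, by omega, hy3⟩
  have hsq : ∀ ω, ((M ω).card : ℝ) ^ 2 ≤
      N * ∑ j ∈ range N, (PercN.NC (x₀, A * (j : ℤ)) A (2 * A) ω : ℝ) ^ 2 := by
    intro ω
    have h1 : ((M ω).card : ℝ) ≤ ∑ j ∈ range N, (PercN.NC (x₀, A * (j : ℤ)) A (2 * A) ω : ℝ) := by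
      exact_mod_cast hcard ω
    have h2 := sq_sum_le_card_mul_sum_sq (s := range N)
      (f := fun j => (PercN.NC (x₀, A * (j : ℤ)) A (2 * A) ω : ℝ))
    rw [card_range] at h2
    exact (pow_le_pow_left₀ (Nat.cast_nonneg _) h1 2).trans h2
  have e1 : ∑ y ∈ I, ∑ y' ∈ I, pr S (XH V x₀ A y ∩ XH V x₀ A y') =
      (∑ T ∈ W.powerset, ((M (cfg T)).card : ℝ) ^ 2) / 2 ^ W.card := by
    have h1 : ∀ y ∈ I, ∀ y' ∈ I, pr S (XH V x₀ A y ∩ XH V x₀ A y') =
        (∑ T ∈ W.powerset, (if cfg T ∈ XH V x₀ A y then (1 : ℝ) else 0) *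
          (if cfg T ∈ XH V x₀ A y' then (1 : ℝ) else 0)) / 2 ^ W.card := by
      intro y hy y' hy'
      have hd : DepOn (S : Set (ℤ × ℤ)) (XH V x₀ A y ∩ XH V x₀ A y') := by
        intro ω ω' h
        exact and_congr (depOn_XH V x₀ A y ω ω' fun f hf => h f (mem_coe.2 (hS y hy (mem_coe.1 hf))))
          (depOn_XH V x₀ A y' ω ω' fun f hf => h f (mem_coe.2 (hS y' hy' (mem_coe.1 hf))))
      rw [← pr_eq_of_depOn hd hSW, ProbA.pr_eq_sum]
      congr 1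
      refine sum_congr rfl fun T _ => ?_
      by_cases k1 : cfg T ∈ XH V x₀ A y <;> by_cases k2 : cfg T ∈ XH V x₀ A y' <;>
        simp [k1, k2]
    rw [sum_congr rfl fun y hy => sum_congr rfl fun y' hy' => h1 y hy y' hy']
    simp_rw [← sum_div]
    congr 1
    have h2 : ∀ T, ((M (cfg T)).card : ℝ) ^ 2 = ∑ y ∈ I, ∑ y' ∈ I,
        (if cfg T ∈ XH V x₀ A y then (1 : ℝ) else 0) *
          (if cfg T ∈ XH V x₀ A y' then (1 : ℝ) else 0) := by
      intro T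
      rw [← Finset.sum_mul_sum, sum_boole, pow_two]
    rw [sum_congr rfl fun T _ => h2 T]
    symm
    refine (Finset.sum_comm).trans (sum_congr rfl fun y _ => Finset.sum_comm)
  rw [e1]
  calc (∑ T ∈ W.powerset, ((M (cfg T)).card : ℝ) ^ 2) / 2 ^ W.card
      ≤ (∑ T ∈ W.powerset, N * ∑ j ∈ range N,
          (PercN.NC (x₀, A * (j : ℤ)) A (2 * A) (cfg T) : ℝ) ^ 2) / 2 ^ W.card :=
        div_le_div_of_nonneg_right (sum_le_sum fun T _ => hsq (cfg T)) (by positivity)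
    _ = N * ∑ j ∈ range N, (∑ T ∈ W.powerset,
          (PercN.NC (x₀, A * (j : ℤ)) A (2 * A) (cfg T) : ℝ) ^ 2) / 2 ^ W.card := by
        rw [← mul_sum, sum_comm, mul_div_assoc, sum_div]
    _ ≤ N * ∑ j ∈ range N, C := by
        refine mul_le_mul_of_nonneg_left (sum_le_sum fun j hj => ?_) (Nat.cast_nonneg _)
        exact H (x₀, A * (j : ℤ)) A W hA (hVW j hj)
    _ = C * N ^ 2 := by
        rw [sum_const, card_range, nsmul_eq_mul]
        ring

/-! ### The deterministic part -/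

/-- The half boxes on the right side. -/
noncomputable def VR (w A j : ℤ) : Finset (ℤ × ℤ) := RF (w - 2 * A) w (A * j - 2 * A) (A * j + 2 * A)

/-- The half boxes on the left side. -/
noncomputable def VL (w A j : ℤ) : Finset (ℤ × ℤ) :=
  RF (-(w + 2)) (-(w + 2) + 2 * A) (A * j - 2 * A) (A * j + 2 * A)

theorem corr_mono {L w d d' : ℤ} {u : ℤ × ℤ} {l : List (ℤ × ℤ)} (h : Corr L w d u l) (hd : d ≤ d') :
    Corr L w d' u l := ⟨h.rect, ⟨lt_of_lt_of_le h.inn.1 hd, lt_of_lt_of_le h.inn.2 hd⟩, h.mid, h.out⟩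

theorem inR_MM {ω : Cfg} {x₀ x₁ y₀ y₁ : ℤ} {e a : UE}
    (he : InR x₀ x₁ y₀ y₁ (ua e) ∧ InR x₀ x₁ y₀ y₁ (ub e)) (ha : a ∈ MM ω (RF x₀ x₁ y₀ y₁) e) :
    InR x₀ x₁ y₀ y₁ (ua a) ∧ InR x₀ x₁ y₀ y₁ (ub a) := by
  induction ha with
  | refl => exact he
  | tail _ hs _ =>
    obtain ⟨f, hf, hm⟩ := hs
    exact ⟨IsCor.inR hf hm.right.cor.1, IsCor.inR hf hm.right.cor.2⟩

/-- A side of a face outside the half box, which is not behind the line of the tips. -/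
theorem bd_half {x₀ x₁ y₀ y₁ s : ℤ} {f : ℤ × ℤ} {a : UE}
    (ha : InR x₀ x₁ y₀ y₁ (ua a) ∧ InR x₀ x₁ y₀ y₁ (ub a)) (hs : IsSide f a)
    (hf : f ∉ (RF x₀ x₁ y₀ y₁ : Set (ℤ × ℤ))) (h : (s = x₁ ∧ f.1 < x₁) ∨ (s = x₀ ∧ x₀ ≤ f.1))
    (hxy : 0 < x₁ - x₀) :
    BdE (s - (x₁ - x₀)) (s + (x₁ - x₀)) y₀ y₁ a := by
  rw [mem_RF'] at hf
  obtain ⟨x, y⟩ := f
  unfold InR at ha
  unfold BdE
  rcases hs with rfl | rfl | rfl | rfl
  · simp only [bo, ua_mk, ub_false] at ha ⊢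
    simp at hf h ⊢
    omega
  · simp only [le', ua_mk, ub_true] at ha ⊢
    simp at hf h ⊢
    omega
  · simp only [to', ua_mk, ub_false] at ha ⊢
    simp at hf h ⊢
    omega
  · simp only [ri, ua_mk, ub_true] at ha ⊢
    simp at hf h ⊢
    omega

theorem near_side {x₀ x₁ y₀ y₁ : ℤ} {f : ℤ × ℤ} {a : UE}
    (ha : InR x₀ x₁ y₀ y₁ (ua a) ∧ InR x₀ x₁ y₀ y₁ (ub a)) (hs : IsSide f a) :
    x₀ - 1 ≤ f.1 ∧ f.1 ≤ x₁ ∧ y₀ - 1 ≤ f.2 ∧ f.2 ≤ y₁ := by
  obtain ⟨x, y⟩ := f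
  unfold InR at ha
  rcases hs with rfl | rfl | rfl | rfl
  · simp only [bo, ua_mk, ub_false] at ha ⊢
    omega
  · simp only [le', ua_mk, ub_true] at ha ⊢
    omega
  · simp only [to', ua_mk, ub_false] at ha ⊢
    omega
  · simp only [ri, ua_mk, ub_true] at ha ⊢
    omega

/-- A strand which starts in the inner box and leaves the outer box crosses the annulus. -/
theorem cross_ann {ω : Cfg} {F : Set (ℤ × ℤ)} {d w : ℤ} {x t : UE} (hdw : d < w)
    (hx : InE (0, 0) d x) (ht : t ∈ MM ω F x) (hout : ¬ PercS5.InK w w t) :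
    ∃ b ∈ MM ω F x, BdE (-d) d (-d) d b ∧ ∃ c ∈ MM ω (AnF w w d) b, BdE (-w) w (-w) w c := by
  have hK : ∀ b, BdE (-d) d (-d) d b → PercS5.InK w w b := fun b hb =>
    PercS5.inK_of_bd hb (by omega) (by omega)
  rcases PercS5.last_exit' hx ht with h | ⟨b, hb, hbb, hbt⟩
  · exfalso
    apply hout
    unfold InE InR at h
    unfold PercS5.InK InR
    simp only at h
    omega
  · have hb' : BdE (-d) d (-d) d b := by
      unfold BdR at hbb
      simpa using hbb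
    rcases PercS5.first_exit' (F := (AnF w w d : Set (ℤ × ℤ))) hbt with h | ⟨c, hc, f, hf, hf', hs⟩
    · exact absurd (PercS5.MM_inK (hK b hb') h) hout
    · refine ⟨b, hb, hb', c, hc, PercS5.bdE_of_side (PercS5.MM_inK (hK b hb') hc) hs ?_⟩
      obtain ⟨-, hf2⟩ := hf
      rw [mem_coe, mem_AnF] at hf'
      rw [mem_BR'] at hf2
      simp only at hf2
      omega

section det

variable {N A Ni Ai σ : ℤ} {m : ℕ} {ω : Cfg} {ya yb : ℤ}

/-- The inclusion of the events. -/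
theorem incl (hg : (parX N A Ni Ai σ m).Ok) {d w : ℤ} (hm : 16 * ((m : ℤ) + 7) ≤ σ)
    (hd : Ni * Ai + 2 * (2 * m + 12) + 4 = d) (hdw : d < w) (hw : 2 * w ≤ N * A)
    (hp : (ya, yb) ∈ Ports (N * A)) (h : lcf 0 ω ∈ PX N A Ni Ai σ m ya yb) :
    ω ∈ XH (VR (N * A) A) (N * A) A ya ∩ (XH (VL (N * A) A) (-(N * A + 2)) A yb ∩
      XA (0, 0) d w (8 * (m + 6)) m) := by
  obtain ⟨a₁, a₂, x₁, x₂, k₁, k₂, l₁, l₂, H⟩ := reading hg hp h
  set g := parX N A Ni Ai σ m with hgd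
  have gw : g.w = N * A := rfl
  have gd : g.d = Ni * Ai := rfl
  have gR : g.R = (Ni - 1) * Ai := rfl
  have gn : g.n = 2 * m + 12 := rfl
  have gA : g.A = A := rfl
  have o1 : 100 ≤ N := hg.N1
  have o2 : 100 ≤ Ni := hg.Ni1
  have o3 : 100 * σ ≤ Ai := hg.σA
  have o4 : (Ni + 4) * Ai ≤ A := hg.AA
  have hAi : 0 < Ai := by omega
  have hA0 : Ai ≤ A := by nlinarith
  have hAp : 0 < A := by omega
  have hNA : 100 * A ≤ N * A := by nlinarith
  have hRd : (Ni - 1) * Ai ≤ Ni * Ai := by nlinarith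
  have hRp : 0 ≤ (Ni - 1) * Ai := by nlinarith
  -- the ports
  have hpt : (0 ≤ ya ∧ ya < N * A ∧ N * A ≤ 4 * ya ∧ 2 * ya < N * A) ∧
      (0 ≤ yb ∧ yb < N * A ∧ N * A ≤ 4 * yb ∧ 2 * yb < N * A) := by
    unfold Ports at hp
    rw [mem_filter, mem_product, mem_Ico, mem_Ico] at hp
    simp only at hp
    omega
  -- the inner tips
  have hin : ∀ (a : ℤ × ℤ) (k : ℤ) (l : List (ℤ × ℤ)),
      InL g (SPZ (N * A) (Ni * Ai) (2 * m + 12) ya yb ω) a k l → a ∈ (BR (0, 0) d : Set (ℤ × ℤ)) := by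
    intro a k l hl
    have hal : a ∈ l := List.mem_of_head? hl.head
    rcases hl.loc a hal with h1 | ⟨-, h1⟩
    · rw [mem_BR, gR] at h1
      rw [mem_BR']
      simp only at h1 ⊢
      omega
    · rw [mem_BR, gd, gn] at h1
      rw [mem_BR']
      simp only at h1 ⊢
      omega
  have ha₁ := hin _ _ _ H.in₁
  have ha₂ := hin _ _ _ H.in₂
  have hx₁ : InE (0, 0) d x₁ := inE_of_side ha₁ H.xs₁
  have hx₂ : InE (0, 0) d x₂ := inE_of_side ha₂ H.xs₂
  rw [mem_BR'] at ha₁ ha₂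
  simp only at ha₁ ha₂
  set F : Set (ℤ × ℤ) := DZ (N * A) ya yb a₁ a₂ with hF
  have xm₁ : x₁ ∈ MM ω F (tR (N * A) ya) := H.xm₁
  have xm₂ : x₂ ∈ MM ω F (tL (N * A) yb) := H.xm₂
  have hne : tL (N * A) yb ∉ MM ω F (tR (N * A) ya) := H.ne
  have hvis : SS ω F (tR (N * A) ya) ∪ SS ω F (tL (N * A) yb) =
      SPZ (N * A) (Ni * Ai) (2 * m + 12) ya yb ω := H.vis
  have near₁ : ∀ f ∈ SPZ (N * A) (Ni * Ai) (2 * m + 12) ya yb ω, |f.1 - N * A| ≤ 5 * A →
      |f.2 - ya| ≤ 5 * A → f.1 < N * A := H.near₁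
  have near₂ : ∀ f ∈ SPZ (N * A) (Ni * Ai) (2 * m + 12) ya yb ω, |f.1 + N * A| ≤ 5 * A →
      |f.2 - yb| ≤ 5 * A → -(N * A + 2) ≤ f.1 := H.near₂
  have hFm : ∀ f : ℤ × ℤ, f ∈ F ↔ f ≠ a₁ ∧ f ≠ a₂ ∧ f ≠ (N * A, ya) ∧ f ≠ (-(N * A + 3), yb) :=
    fun f => Iff.rfl
  -- the boxes are in `F`
  have hsub : ∀ V : Set (ℤ × ℤ), (∀ f ∈ V, ¬ (-d ≤ f.1 ∧ f.1 < d ∧ -d ≤ f.2 ∧ f.2 < d) ∧
      f.1 < N * A ∧ -(N * A + 3) < f.1) → V ⊆ F := by
    intro V hV f hf
    obtain ⟨h1, h2, h3⟩ := hV f hf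
    rw [hFm]
    refine ⟨?_, ?_, ?_, ?_⟩
    · rintro rfl; omega
    · rintro rfl; omega
    · rintro rfl; simp only at h2; omega
    · rintro rfl; simp only at h3; omega
  have hAn : (AnF w w d : Set (ℤ × ℤ)) ⊆ F := by
    refine hsub _ fun f hf => ?_
    rw [mem_coe, mem_AnF] at hf
    omega
  have hVR : ((VR (N * A) A (ya / A) : Finset (ℤ × ℤ)) : Set (ℤ × ℤ)) ⊆ F := by
    refine hsub _ fun f hf => ?_
    unfold VR at hf
    rw [mem_RF'] at hf
    omega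
  have hVL : ((VL (N * A) A (yb / A) : Finset (ℤ × ℤ)) : Set (ℤ × ℤ)) ⊆ F := by
    refine hsub _ fun f hf => ?_
    unfold VL at hf
    rw [mem_RF'] at hf
    omega
  -- the heights of the half boxes
  have hdiv : ∀ y : ℤ, A * (y / A) ≤ y ∧ y < A * (y / A) + A := by
    intro y
    have h3 := Int.mul_ediv_add_emod y A
    have h4 := Int.emod_nonneg y hAp.ne'
    have h5 := Int.emod_lt_of_pos y hAp
    omega
  have hda := hdiv ya
  have hdb := hdiv yb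
  have hnx : ∀ {x : UE} {x₀ x₁' y₀ y₁ : ℤ}, InE (0, 0) d x → (d < x₀ ∨ x₁' < -d) →
      ¬ (InR x₀ x₁' y₀ y₁ (ua x) ∧ InR x₀ x₁' y₀ y₁ (ub x)) := by
    rintro x x₀ x₁' y₀ y₁ h1 h2 ⟨h3, -⟩
    unfold InE at h1
    unfold InR at h1 h3
    simp only at h1
    omega
  refine ⟨?_, ?_, ?_⟩
  · -- the right half box
    have hst : InR (N * A - 2 * A) (N * A) (A * (ya / A) - 2 * A) (A * (ya / A) + 2 * A)
        (ua (tR (N * A) ya)) ∧ InR (N * A - 2 * A) (N * A) (A * (ya / A) - 2 * A)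
        (A * (ya / A) + 2 * A) (ub (tR (N * A) ya)) := by
      unfold tR InR
      rw [ua_mk, ub_true]
      simp only
      omega
    rcases PercS5.first_exit' (F := ((VR (N * A) A (ya / A) : Finset (ℤ × ℤ)) : Set (ℤ × ℤ))) xm₁ with
      h1 | ⟨b, hb, f, hf, hf', hs⟩
    · exact absurd (inR_MM hst h1) (hnx hx₁ (by omega))
    · have hbR := inR_MM hst hb
      have hfn := near_side hbR hs
      have hfS : f ∈ SPZ (N * A) (Ni * Ai) (2 * m + 12) ya yb ω := by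
        rw [← hvis]
        exact Or.inl ⟨hf, b, MM_mono hVR hb, hs⟩
      have hf1 := near₁ f hfS (by rw [abs_le]; omega) (by rw [abs_le]; omega)
      refine ⟨b, hb, ?_⟩
      have h2 := bd_half (s := N * A) hbR hs hf' (Or.inl ⟨rfl, hf1⟩) (by omega)
      have e1 : N * A - (N * A - 2 * A) = 2 * A := by ring
      rw [e1] at h2
      exact h2
  · -- the left half box
    have hst : InR (-(N * A + 2)) (-(N * A + 2) + 2 * A) (A * (yb / A) - 2 * A)
        (A * (yb / A) + 2 * A) (ua (tL (N * A) yb)) ∧ InR (-(N * A + 2)) (-(N * A + 2) + 2 * A)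
        (A * (yb / A) - 2 * A) (A * (yb / A) + 2 * A) (ub (tL (N * A) yb)) := by
      unfold tL InR
      rw [ua_mk, ub_true]
      simp only
      omega
    rcases PercS5.first_exit' (F := ((VL (N * A) A (yb / A) : Finset (ℤ × ℤ)) : Set (ℤ × ℤ))) xm₂ with
      h1 | ⟨b, hb, f, hf, hf', hs⟩
    · exact absurd (inR_MM hst h1) (hnx hx₂ (by omega))
    · have hbR := inR_MM hst hb
      have hfn := near_side hbR hs
      have hfS : f ∈ SPZ (N * A) (Ni * Ai) (2 * m + 12) ya yb ω := by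
        rw [← hvis]
        exact Or.inr ⟨hf, b, MM_mono hVL hb, hs⟩
      have hf1 := near₂ f hfS (by rw [abs_le]; omega) (by rw [abs_le]; omega)
      refine ⟨b, hb, ?_⟩
      have h2 := bd_half (s := -(N * A + 2)) hbR hs hf' (Or.inr ⟨rfl, hf1⟩) (by omega)
      have e1 : -(N * A + 2) + 2 * A - -(N * A + 2) = 2 * A := by ring
      rw [e1] at h2
      exact h2
  · -- the annulus
    intro _
    have hsh : shiftC ((0, 0) : ℤ × ℤ).1 ((0, 0) : ℤ × ℤ).2 ω = ω := by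
      funext f
      unfold shiftC
      simp
    rw [hsh]
    have hout : ∀ t : UE, (t = tR (N * A) ya ∨ t = tL (N * A) yb) → ¬ PercS5.InK w w t := by
      rintro t ht ⟨h1, -⟩
      unfold InR at h1
      rcases ht with rfl | rfl
      · unfold tR at h1
        rw [ua_mk] at h1
        simp only at h1
        omega
      · unfold tL at h1
        rw [ua_mk] at h1
        simp only at h1
        omega
    obtain ⟨s, hs, hsb, hst⟩ := cross_ann hdw hx₁ (MM_symm xm₁) (hout _ (Or.inl rfl))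
    obtain ⟨s', hs', hsb', hst'⟩ := cross_ann hdw hx₂ (MM_symm xm₂) (hout _ (Or.inr rfl))
    have hs1 : s ∈ MM ω F (tR (N * A) ya) := MM_trans xm₁ hs
    have hs2 : s' ∈ MM ω F (tL (N * A) yb) := MM_trans xm₂ hs'
    obtain ⟨⟨-, -, u, l, μ, hc, hl, -, hall⟩, -⟩ := h
    obtain ⟨l', k1, k2, k3⟩ := PercS5.corr_trim (L' := w) (w' := w) (corr_mono (d' := d) hc
      (by omega)) (by omega) (by omega) (by omega) (by omega)
    refine ⟨s, s', hsb, hsb', ?_, hst, hst', u, l', k1, k2.trans hl, ?_⟩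
    · intro h1
      apply hne
      exact MM_trans (MM_trans hs1 (MM_mono hAn h1)) (MM_symm hs2)
    · intro f hf
      have hfS : f ∈ SPZ (N * A) (Ni * Ai) (2 * m + 12) ya yb ω := by
        rw [← hvis]
        rcases hf with ⟨hf, a, ha, hsd⟩ | ⟨hf, a, ha, hsd⟩
        · exact Or.inl ⟨hAn hf, a, MM_trans hs1 (MM_mono hAn ha), hsd⟩
        · exact Or.inr ⟨hAn hf, a, MM_trans hs2 (MM_mono hAn ha), hsd⟩
      obtain ⟨t, ht, rfl⟩ := hfS
      have h1 := (hall t ht).1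
      intro a ha
      refine lt_of_le_of_lt ?_ (h1 a (k3 a ha))
      omega

end det

/-! ### The second moment -/

theorem sum_prod4 (I : Finset ℤ) (R L : ℤ → ℤ → ℝ) (a : ℝ) :
    ∑ p ∈ I ×ˢ I, ∑ p' ∈ I ×ˢ I, R p.1 p'.1 * (L p.2 p'.2 * a) =
      (∑ y ∈ I, ∑ y' ∈ I, R y y') * ((∑ y ∈ I, ∑ y' ∈ I, L y y') * a) := by
  have h1 : ∀ r : ℝ, ∑ z ∈ I, ∑ z' ∈ I, r * (L z z' * a) =
      r * ((∑ y ∈ I, ∑ y' ∈ I, L y y') * a) := by
    intro r
    rw [sum_mul, mul_sum]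
    refine sum_congr rfl fun z _ => ?_
    rw [sum_mul, mul_sum]
  rw [sum_product, sum_mul]
  refine sum_congr rfl fun y _ => ?_
  rw [sum_mul]
  have h2 : ∀ z ∈ I, ∑ p' ∈ I ×ˢ I, R (y, z).1 p'.1 * (L (y, z).2 p'.2 * a) =
      ∑ y' ∈ I, ∑ z' ∈ I, R y y' * (L z z' * a) := fun z _ => sum_product _ _ _
  rw [sum_congr rfl h2, sum_comm]
  exact sum_congr rfl fun y' _ => h1 (R y y')

theorem mom_bound (hTT : PercS5.TTBound) (N Ni : ℕ) (hN : 100 ≤ N) (hNi : 100 ≤ Ni) :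
    ∃ C : ℝ, 0 < C ∧ ∀ Q m A Ai : ℕ, 100 ≤ Q → 1 ≤ Ai → (Ni + 4) * Ai ≤ A →
    16 * (m + 7) ≤ Ai / Q → ∀ W : Finset (ℤ × ℤ),
    RF (-(N * A + 2 * m + 14)) (N * A + 2 * m + 12) (-(N * A)) (N * A) ⊆ W →
    ∑ p ∈ Ports (N * A), ∑ p' ∈ Ports (N * A),
      pr W ({ω | lcf 0 ω ∈ PX N A Ni Ai ((Ai / Q : ℕ) : ℤ) m p.1 p.2} ∩
        {ω | lcf 0 ω ∈ PX N A Ni Ai ((Ai / Q : ℕ) : ℤ) m p'.1 p'.2}) ≤
      C * ((Ai : ℝ) / A) ^ ((2 : ℝ) / 3) := by
  classical
  obtain ⟨C, hC, H⟩ := pr_XA hTT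
  obtain ⟨C', hC', H'⟩ := sum_XH
  have hN0 : (0 : ℝ) < N := by
    have : 0 < N := by omega
    exact_mod_cast this
  have hC0 : 0 < C := by linarith
  refine ⟨(C' * N ^ 2) * ((C' * N ^ 2) * (C * (4 * (Ni + 1) / N) ^ (2 / 3 : ℝ))), by positivity, ?_⟩
  intro Q m A Ai hQ hAi hA hm W hW
  set σ : ℤ := ((Ai / Q : ℕ) : ℤ) with hσ
  have hm' : 16 * ((m : ℤ) + 7) ≤ σ := by rw [hσ]; exact_mod_cast hm
  have hσA : 100 * σ ≤ Ai := by
    have h1 : Ai / Q * Q ≤ Ai := Nat.div_mul_le_self Ai Q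
    have h2 : Ai / Q * 100 ≤ Ai / Q * Q := Nat.mul_le_mul_left _ hQ
    have h3 : 100 * (Ai / Q) ≤ Ai := by omega
    rw [hσ]
    exact_mod_cast h3
  have hN' : (100 : ℤ) ≤ N := by exact_mod_cast hN
  have hNi' : (100 : ℤ) ≤ Ni := by exact_mod_cast hNi
  have hAi' : (1 : ℤ) ≤ Ai := by exact_mod_cast hAi
  have hA' : ((Ni : ℤ) + 4) * Ai ≤ A := by exact_mod_cast hA
  have hg : (parX N A Ni Ai σ m).Ok := by
    refine ⟨hN', hNi', ?_, ?_, hσA, hA'⟩
    · show (12 : ℤ) ≤ 2 * m + 12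
      omega
    · show 8 * (2 * (m : ℤ) + 12) ≤ σ
      omega
  set d : ℤ := Ni * Ai + 2 * (2 * m + 12) + 4 with hd
  set w : ℤ := N * A / 2 with hw
  have hA0 : (Ai : ℤ) ≤ A := by nlinarith
  have hNA : 100 * (A : ℤ) ≤ N * A := by nlinarith
  have hdA : d ≤ (Ni + 1) * Ai := by
    have : ((Ni : ℤ) + 1) * Ai = Ni * Ai + Ai := by ring
    omega
  have hdA' : ((Ni : ℤ) + 1) * Ai ≤ A := by
    have : ((Ni : ℤ) + 4) * Ai = (Ni + 1) * Ai + 3 * Ai := by ring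
    omega
  have hNiAi : 0 ≤ (Ni : ℤ) * Ai := by positivity
  have hdw : d < w := by omega
  set I : Finset ℤ := (Ico (0 : ℤ) (N * A)).filter fun y => 2 * y < N * A with hI
  have hPI : Ports (N * A) ⊆ I ×ˢ I := by
    intro p hp
    unfold Ports at hp
    rw [mem_filter, mem_product, mem_Ico, mem_Ico] at hp
    rw [mem_product, hI, mem_filter, mem_filter, mem_Ico, mem_Ico]
    omega
  -- the supports
  set SR : Finset (ℤ × ℤ) := RF (N * A - 2 * A) (N * A) (-(N * A)) (N * A) with hSR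
  set SL' : Finset (ℤ × ℤ) := RF (-(N * A + 2)) (-(N * A + 2) + 2 * A) (-(N * A)) (N * A) with hSL
  have hdiv : ∀ y : ℤ, A * (y / A) ≤ y ∧ y < A * (y / A) + A := by
    intro y
    have h3 := Int.mul_ediv_add_emod y A
    have h4 := Int.emod_nonneg y (show (A : ℤ) ≠ 0 by omega)
    have h5 := Int.emod_lt_of_pos y (show 0 < (A : ℤ) by omega)
    omega
  have hIm : ∀ y ∈ I, 0 ≤ y ∧ y < N * A ∧ 2 * y < N * A := by
    intro y hy
    rw [hI, mem_filter, mem_Ico] at hy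
    omega
  have sR : ∀ y ∈ I, VR (N * A) A (y / A) ⊆ SR := by
    intro y hy f hf
    have h1 := hIm y hy
    have h2 := hdiv y
    unfold VR at hf
    rw [Perc.mem_RF] at hf ⊢
    omega
  have sL : ∀ y ∈ I, VL (N * A) A (y / A) ⊆ SL' := by
    intro y hy f hf
    have h1 := hIm y hy
    have h2 := hdiv y
    unfold VL at hf
    rw [Perc.mem_RF] at hf ⊢
    omega
  have wR : SR ⊆ W := by
    refine subset_trans ?_ hW
    intro f hf
    rw [Perc.mem_RF] at hf ⊢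
    omega
  have wL : SL' ⊆ W := by
    refine subset_trans ?_ hW
    intro f hf
    rw [Perc.mem_RF] at hf ⊢
    omega
  have wA : AZ (0, 0) d w ⊆ W := by
    refine subset_trans ?_ hW
    intro f hf
    rw [mem_AZ] at hf
    rw [Perc.mem_RF]
    simp only at hf
    omega
  have dRL : Disjoint SR SL' := by
    rw [Finset.disjoint_left]
    intro f hf hf'
    rw [Perc.mem_RF] at hf hf'
    omega
  have dRA : Disjoint SR (AZ (0, 0) d w) := by
    rw [Finset.disjoint_left]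
    intro f hf hf'
    rw [Perc.mem_RF] at hf
    rw [mem_AZ] at hf'
    simp only at hf'
    omega
  have dLA : Disjoint SL' (AZ (0, 0) d w) := by
    rw [Finset.disjoint_left]
    intro f hf hf'
    rw [Perc.mem_RF] at hf
    rw [mem_AZ] at hf'
    simp only at hf'
    omega
  have depI : ∀ {S V V' : Finset (ℤ × ℤ)} {A A' : Set Cfg}, DepOn (V : Set (ℤ × ℤ)) A →
      DepOn (V' : Set (ℤ × ℤ)) A' → V ⊆ S → V' ⊆ S → DepOn (S : Set (ℤ × ℤ)) (A ∩ A') := by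
    intro S V V' A A' h1 h2 h3 h4 ω ω' h
    exact and_congr (h1 ω ω' fun f hf => h f (mem_coe.2 (h3 (mem_coe.1 hf))))
      (h2 ω ω' fun f hf => h f (mem_coe.2 (h4 (mem_coe.1 hf))))
  set a : ℝ := pr (AZ (0, 0) d w) (XA (0, 0) d w (8 * (m + 6)) m) with ha
  have ha0 : 0 ≤ a := pr_nonneg _ _
  set R : ℤ → ℤ → ℝ := fun y y' => pr SR (XH (VR (N * A) A) (N * A) A y ∩
    XH (VR (N * A) A) (N * A) A y') with hR
  set L : ℤ → ℤ → ℝ := fun y y' => pr SL' (XH (VL (N * A) A) (-(N * A + 2)) A y ∩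
    XH (VL (N * A) A) (-(N * A + 2)) A y') with hL
  have key : ∀ p ∈ Ports (N * A), ∀ p' ∈ Ports (N * A),
      pr W ({ω | lcf 0 ω ∈ PX N A Ni Ai σ m p.1 p.2} ∩
        {ω | lcf 0 ω ∈ PX N A Ni Ai σ m p'.1 p'.2}) ≤ R p.1 p'.1 * (L p.2 p'.2 * a) := by
    intro p hp p' hp'
    have hI1 := mem_product.1 (hPI hp)
    have hI2 := mem_product.1 (hPI hp')
    have h3 := pr_three (W := W) (depI (depOn_XH (VR (N * A) A) (N * A) A p.1)
      (depOn_XH (VR (N * A) A) (N * A) A p'.1) (sR _ hI1.1) (sR _ hI2.1))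
      (depI (depOn_XH (VL (N * A) A) (-(N * A + 2)) A p.2)
      (depOn_XH (VL (N * A) A) (-(N * A + 2)) A p'.2) (sL _ hI1.2) (sL _ hI2.2))
      (depOn_XA (0, 0) d w (8 * (m + 6)) m) wR wL wA dRL dRA dLA
    refine le_trans (pr_mono _ ?_) h3.le
    rintro ω ⟨h1, h2⟩
    have e1 := incl hg hm' hd.symm hdw (by omega) (show (p.1, p.2) ∈ Ports (N * A) from hp) h1
    have e2 := incl hg hm' hd.symm hdw (by omega) (show (p'.1, p'.2) ∈ Ports (N * A) from hp') h2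
    exact ⟨⟨e1.1, e2.1⟩, ⟨e1.2.1, e2.2.1⟩, e1.2.2⟩
  have bR : ∑ y ∈ I, ∑ y' ∈ I, R y y' ≤ C' * N ^ 2 := by
    refine H' (N * A) A N (VR (N * A) A) SR I (by omega) ?_ ?_ (fun y hy => ?_) sR
    · intro j f hf
      unfold VR at hf
      rw [Perc.mem_RF] at hf
      rw [mem_BR]
      simp only
      omega
    · intro j
      left
      intro f hf
      unfold VR at hf
      rw [Perc.mem_RF] at hf
      omega
    · have := hIm y hy
      exact ⟨this.1, this.2.1⟩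
  have bL : ∑ y ∈ I, ∑ y' ∈ I, L y y' ≤ C' * N ^ 2 := by
    refine H' (-(N * A + 2)) A N (VL (N * A) A) SL' I (by omega) ?_ ?_ (fun y hy => ?_) sL
    · intro j f hf
      unfold VL at hf
      rw [Perc.mem_RF] at hf
      rw [mem_BR]
      simp only
      omega
    · intro j
      right
      intro f hf
      unfold VL at hf
      rw [Perc.mem_RF] at hf
      omega
    · have := hIm y hy
      exact ⟨this.1, this.2.1⟩
  have hA0' : (0 : ℝ) < A := by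
    have : 0 < (A : ℤ) := by omega
    exact_mod_cast this
  have hAi0 : (0 : ℝ) < Ai := by exact_mod_cast hAi
  have ba : a ≤ C * (4 * (Ni + 1) / N) ^ (2 / 3 : ℝ) * ((Ai : ℝ) / A) ^ ((2 : ℝ) / 3) := by
    have h1 := H (0, 0) d w m (AZ (0, 0) d w) (4 * (Ni + 1) / N * (Ai / A)) (by positivity)
      (by omega) (Finset.Subset.refl _) (fun _ => ?_) (fun h => absurd h (by omega))
    · refine h1.trans (le_of_eq ?_)
      rw [Real.mul_rpow (by positivity) (by positivity)]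
      ring
    · have h2 : (d : ℝ) ≤ (Ni + 1) * Ai := by exact_mod_cast hdA
      have h3 : (N * A : ℤ) ≤ 4 * w := by omega
      have h4 : (N : ℝ) * A ≤ 4 * w := by exact_mod_cast h3
      have h5 : (4 * (Ni + 1) / N * (Ai / A) * w : ℝ) = (Ni + 1) * Ai * (4 * w) / (N * A) := by
        field_simp
      rw [h5, le_div_iff₀ (by positivity)]
      exact mul_le_mul h2 h4 (by positivity) (by positivity)
  calc ∑ p ∈ Ports (N * A), ∑ p' ∈ Ports (N * A),
      pr W ({ω | lcf 0 ω ∈ PX N A Ni Ai σ m p.1 p.2} ∩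
        {ω | lcf 0 ω ∈ PX N A Ni Ai σ m p'.1 p'.2})
      ≤ ∑ p ∈ Ports (N * A), ∑ p' ∈ Ports (N * A), R p.1 p'.1 * (L p.2 p'.2 * a) :=
        sum_le_sum fun p hp => sum_le_sum fun p' hp' => key p hp p' hp'
    _ ≤ ∑ p ∈ I ×ˢ I, ∑ p' ∈ I ×ˢ I, R p.1 p'.1 * (L p.2 p'.2 * a) := by
        have hnn : ∀ p p' : ℤ × ℤ, 0 ≤ R p.1 p'.1 * (L p.2 p'.2 * a) := fun p p' =>
          mul_nonneg (pr_nonneg _ _) (mul_nonneg (pr_nonneg _ _) ha0)
        refine (sum_le_sum fun p _ => sum_le_sum_of_subset_of_nonneg hPI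
          fun p' _ _ => hnn p p').trans ?_
        exact sum_le_sum_of_subset_of_nonneg hPI fun p _ _ => sum_nonneg fun p' _ => hnn p p'
    _ = (∑ y ∈ I, ∑ y' ∈ I, R y y') * ((∑ y ∈ I, ∑ y' ∈ I, L y y') * a) := sum_prod4 I R L a
    _ ≤ (C' * N ^ 2) * ((C' * N ^ 2) * (C * (4 * (Ni + 1) / N) ^ (2 / 3 : ℝ) *
          ((Ai : ℝ) / A) ^ ((2 : ℝ) / 3))) := by
        have hL0 : 0 ≤ ∑ y ∈ I, ∑ y' ∈ I, L y y' :=
          sum_nonneg fun _ _ => sum_nonneg fun _ _ => pr_nonneg _ _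
        exact mul_le_mul bR (mul_le_mul bL ba ha0 (by positivity)) (mul_nonneg hL0 ha0)
          (by positivity)
    _ = _ := by ring

end Pool.Agent.Occ
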