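import Pool.Agent.Lib.MP_6bd702_occ.ZE
import Pool.Agent.Lib.MP_6bd702_occ.ZF
import Pool.Agent.Lib.MP_6bd702_occ.ZG
import Pool.Agent.Lib.MP_6bd702_occ.ZI
import Pool.Agent.Lib.MP_6bd702_occ.ZK
import Pool.Agent.Lib.MP_6bd702_occ.ZL
import Pool.Agent.Lib.MP_6bd702_occ.XZ

/-!
# Row ZM: assembly of the one point lower bound
-/

set_option autoImplicit false

namespace Pool.Agent.Occ

open Finset Pool.Agent.Perc Pool.Agent.Perc3 Pool.Agent.PercD Pool.Agent.Perc6 Pool.Agent.PercL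

namespace ZM

/-! ### The event `PX` is determined by the visited faces -/

theorem px_congr {N A Ni Ai σ : ℤ} {m : ℕ} {ya yb : ℤ} {ω ω' : Cfg}
    (h : ∀ f ∈ SPZ (N * A) (Ni * Ai) (2 * m + 12) ya yb ω, ω f = ω' f)
    (hω : lcf 0 ω ∈ PX N A Ni Ai σ m ya yb) : lcf 0 ω' ∈ PX N A Ni Ai σ m ya yb := by
  have h' : ∀ s ∈ SL (lcf 0 ω) (LAT (Ni * Ai) (N * A) (2 * m + 12))
      (ST (N * A) ya (4 * (N * A) + 1 - yb) 0), lcf 0 ω s = lcf 0 ω' s := by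
    intro s hs
    rw [lcf_zero, lcf_zero]
    exact h s.1 ⟨s, hs, rfl⟩
  refine ⟨(detBy_pairT _ _ h').1 hω.1, (detBy_AX A (20 * Ai) (Ni * Ai) (N * A) (2 * m + 12) ya yb
    _ _ h').1 hω.2⟩

theorem spz_sub {w d n ya yb : ℤ} {ω : Cfg} {f : ℤ × ℤ} (hf : f ∈ SPZ w d n ya yb ω) :
    f ∈ RF (-(w + n + 2)) (w + n) (-w) w := by
  obtain ⟨s, hs, rfl⟩ := hf
  obtain ⟨⟨h1, -⟩, h3⟩ := mem_LAT.1 (mem_coe.1 (SL_sub hs))
  rw [mem_BW] at h1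
  unfold pj at h1
  rw [abs_le] at h3
  rw [mem_RF]
  simp only [one_mul] at h1 ⊢
  omega

theorem depOn_px {N A Ni Ai σ : ℤ} {m : ℕ} {ya yb : ℤ} :
    DepOn (RF (-(N * A + 2 * m + 14)) (N * A + 2 * m + 12) (-(N * A)) (N * A) : Set (ℤ × ℤ))
      {ω | lcf 0 ω ∈ PX N A Ni Ai σ m ya yb} := by
  have key : ∀ ω ω' : Cfg, (∀ f ∈ (RF (-(N * A + 2 * m + 14)) (N * A + 2 * m + 12) (-(N * A))
      (N * A) : Set (ℤ × ℤ)), ω f = ω' f) → lcf 0 ω ∈ PX N A Ni Ai σ m ya yb →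
      lcf 0 ω' ∈ PX N A Ni Ai σ m ya yb := by
    intro ω ω' h
    refine px_congr fun f hf => h f ?_
    have := spz_sub hf
    rw [mem_coe]
    rw [mem_RF] at this ⊢
    omega
  intro ω ω' h
  exact ⟨key ω ω' h, key ω' ω fun f hf => (h f hf).symm⟩

/-! ### One pair of ports -/

theorem tubeEv_congr {c c' : ℤ} (h : (c - c') % 2 = 0) (x y a : ℤ) (K : Finset (ℤ × ℤ)) :
    TubeEv c x y a K = TubeEv c' x y a K := by
  unfold TubeEv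
  simp only [LR_congr h, BT_congr h]

theorem d1_congr {g : Par} {c c' : ℤ} (h : (c - c') % 2 = 0) (Y ya : ℤ) :
    D1 g c Y ya = D1 g c' Y ya := by
  unfold D1
  simp only [LR_congr h, BT_congr h]

theorem d2_congr {g : Par} {c c' : ℤ} (h : (c - c') % 2 = 0) (Y ya : ℤ) :
    D2 g c Y ya = D2 g c' Y ya := by
  unfold D2
  simp only [LR_congr h, BT_congr h]

theorem ps_congr {g : Par} {c c' : ℤ} (h : (c - c') % 2 = 0) (Y : ℤ) :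
    PS g c Y = PS g c' Y := by
  unfold PS
  rw [BT_congr h]

/-- The visited faces, shifted. -/
def Sv (w d n ya yb a b : ℤ) (ω : Cfg) : Set (ℤ × ℤ) :=
  {f | (f.1 - a, f.2 - b) ∈ SPZ w d n ya yb (shiftC a b ω)}

theorem stop_Sv (w d n ya yb a b : ℤ) (ω ω' : Cfg) (h : ∀ f ∈ Sv w d n ya yb a b ω, ω f = ω' f) :
    Sv w d n ya yb a b ω' = Sv w d n ya yb a b ω := by
  have h1 : SPZ w d n ya yb (shiftC a b ω') = SPZ w d n ya yb (shiftC a b ω) := by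
    refine stop_SPZ w d n ya yb _ _ fun f hf => ?_
    refine h (f.1 + a, f.2 + b) ?_
    change ((f.1 + a - a, f.2 + b - b) : ℤ × ℤ) ∈ SPZ w d n ya yb (shiftC a b ω)
    rw [add_sub_cancel_right, add_sub_cancel_right]
    exact hf
  unfold Sv
  rw [h1]

theorem shift_mix {w d n ya yb a b : ℤ} {ω ξ : Cfg} {f : ℤ × ℤ} :
    (f ∈ SPZ w d n ya yb (shiftC a b ω) →
      shiftC a b (mixC (Sv w d n ya yb a b ω) ω ξ) f = shiftC a b ω f) ∧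
    (f ∉ SPZ w d n ya yb (shiftC a b ω) →
      shiftC a b (mixC (Sv w d n ya yb a b ω) ω ξ) f = shiftC a b ξ f) := by
  have h : ((f.1 + a, f.2 + b) : ℤ × ℤ) ∈ Sv w d n ya yb a b ω ↔
      f ∈ SPZ w d n ya yb (shiftC a b ω) := by
    change ((f.1 + a - a, f.2 + b - b) : ℤ × ℤ) ∈ SPZ w d n ya yb (shiftC a b ω) ↔ _
    rw [add_sub_cancel_right, add_sub_cancel_right]
  constructor
  · intro hf
    unfold shiftC mixC
    rw [if_pos (h.2 hf)]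
  · intro hf
    unfold shiftC mixC
    rw [if_neg (fun hc => hf (h.1 hc))]

/-- One pair of ports. -/
theorem one_pair {N A Ni Ai σ : ℤ} {m : ℕ} (hg : (parX N A Ni Ai σ m).Ok) {c₁ : ℝ} {H : ℤ}
    (hc : ∀ g : Par, g.N = N → g.Ni = Ni → g.Ok →
    ∀ (a b X₀ X₁ Y₀ Y₁ ya yb col : ℤ) (s : Fin 4) (i : ℤ), WinOk g X₀ X₁ Y₀ Y₁ →
    X₁ - X₀ ≤ H * g.A → Y₁ - Y₀ ≤ H * g.A → (ya, yb) ∈ Ports g.w → GateOk g i →
    ∀ (W SP SD : Finset (ℤ × ℤ)) (P D : Set Cfg), SP ⊆ W → SD ⊆ W → Disjoint SP SD →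
    DepOn SP P → DepOn SD D → IncD (parD (col + a + b)) P → IncD (parD (col + a + b + 1)) D →
    (∀ f ∈ RF X₀ X₁ Y₀ Y₁, (f.1 + a, f.2 + b) ∈ W) →
    (∀ f ∈ RF X₀ X₁ Y₀ Y₁, (f.1 + a, f.2 + b) ∈ SP → (g.N + 4) * g.A ≤ f.2) →
    (∀ f ∈ RF X₀ X₁ Y₀ Y₁, (f.1 + a, f.2 + b) ∈ SD → f.2 < -((g.N + 4) * g.A)) →
    c₁ * (pr W P * pr W D) ≤ pr W ((P ∩ D) ∩ {ξ | shiftC a b ξ ∈ PS g col Y₁ ∧
      shiftC a b ξ ∈ D1 g (col + 1) Y₀ ya ∧ shiftC a b ξ ∈ D2 g (col + 1) Y₀ yb ∧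
      shiftC a b ξ ∈ TubeEv (col + 1) 0 0 g.Ai (RD g s i)}))
    {col x y M q e : ℤ} {z : ℤ × ℤ} {a b : ℤ} (hcol : col = 0 ∨ col = 1) (he : 1 ≤ e)
    (heσ : 16 * e ≤ σ) (hM : 1 ≤ M) (hq : 1 ≤ q)
    (hw : WinOk (parX N A Ni Ai σ m) (x - a) (x - a + 4 * (M * q * e)) (y - b)
      (y - b + 4 * (M * q * e)))
    (hH : 4 * (M * q * e) ≤ H * A)
    (hcell : x - a + q * e * (M + z.1) ≤ -(Ni * Ai + 4 * Ai) ∧
      Ni * Ai + 4 * Ai ≤ x - a + q * e * (M + z.1 + 1) ∧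
      y - b + q * e * (M + z.2) ≤ -(Ni * Ai + 4 * Ai) ∧
      Ni * Ai + 4 * Ai ≤ y - b + q * e * (M + z.2 + 1))
    {W SP SD : Finset (ℤ × ℤ)} {P D : Set Cfg} {δ : ℝ} (hW : Walls col x y M q e δ W SP SD P D)
    (hSP : b + (N + 4) * A ≤ y + 3 * (M * q * e)) (hSD : 2 * y + M * q * e ≤ 2 * (b - (N + 4) * A))
    {ya yb : ℤ} (hp : (ya, yb) ∈ Ports (N * A))
    (hpar : par (N * A, ya) = ((col + a + b) % 2 + 1) % 2) :
    c₁ * (pr W P * pr W D) * pr W {ω | lcf 0 (shiftC a b ω) ∈ PX N A Ni Ai σ m ya yb} ≤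
      pr W ({ω | lcf 0 (shiftC a b ω) ∈ PX N A Ni Ai σ m ya yb} ∩
        (P ∩ D ∩ {ω | OccAt ω col x y M q e z})) := by
  obtain ⟨k, hk⟩ : ∃ k, k = (col + a + b) % 2 := ⟨_, rfl⟩
  rw [← hk] at hpar
  have hk01 : k = 0 ∨ k = 1 := by omega
  obtain ⟨μ, hμ⟩ : ∃ μ, μ = M * q * e := ⟨_, rfl⟩
  have hn : (parX N A Ni Ai σ m).n = 2 * m + 12 := rfl
  have hwA : (parX N A Ni Ai σ m).w = N * A := rfl
  obtain ⟨o1, o2, o3, o4, o5, o6⟩ := hg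
  have hg : (parX N A Ni Ai σ m).Ok := ⟨o1, o2, o3, o4, o5, o6⟩
  simp only [parX] at o1 o2 o3 o4 o5 o6
  have hAi : 1 ≤ Ai := by omega
  have hAA : Ai ≤ A := by nlinarith
  have hwin := hw
  obtain ⟨w1, w2, w3, w4⟩ := hwin
  simp only [parX] at w1 w2 w3 w4
  rw [← hμ] at w2 w4
  have eN : (N + 4) * A = N * A + 4 * A := by ring
  rw [eN] at w1 w2 w3 w4 hSP hSD
  have data : ∀ ω ∈ {ω | lcf 0 (shiftC a b ω) ∈ PX N A Ni Ai σ m ya yb}, ∃ (s : Fin 4) (i : ℤ),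
      GateOk (parX N A Ni Ai σ m) i ∧ ∀ ξ : Cfg,
      (shiftC a b ξ ∈ PS (parX N A Ni Ai σ m) k (y - b + 4 * (M * q * e)) ∧
      shiftC a b ξ ∈ D1 (parX N A Ni Ai σ m) (k + 1) (y - b) ya ∧
      shiftC a b ξ ∈ D2 (parX N A Ni Ai σ m) (k + 1) (y - b) yb ∧
      shiftC a b ξ ∈ TubeEv (k + 1) 0 0 (parX N A Ni Ai σ m).Ai (RD (parX N A Ni Ai σ m) s i)) →
      OccAt (mixC (Sv (N * A) (Ni * Ai) (2 * m + 12) ya yb a b ω) ω ξ) col x y M q e z := by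
    intro ω hω
    obtain ⟨a₁, a₂, x₁, x₂, k₁, k₂, l₁, l₂, hS⟩ := reading hg hp hω
    obtain ⟨kk, lk, hK⟩ := exists_kap hg hp hω (Y₀ := y - b) (by omega) hS
    obtain ⟨Φ₁, Φ₂, hP⟩ := exists_pots hg hw hS hK
    obtain ⟨s, i, hi, hring⟩ := ring_close hg hw hS hK hP
    refine ⟨s, i, hi, ?_⟩
    rintro ξ ⟨t1, t2, t3, t4⟩
    have hcc : ((k + 1) - par (N * A, ya)) % 2 = 0 := by
      have := par_cases (N * A, ya)
      omega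
    have hcp : (k - par (N * A, ya + 1)) % 2 = 0 := by
      unfold par at hpar ⊢
      simp only at hpar ⊢
      omega
    have h1 : ∀ f ∈ SPZ (N * A) (Ni * Ai) (2 * m + 12) ya yb (shiftC a b ω),
        shiftC a b (mixC (Sv (N * A) (Ni * Ai) (2 * m + 12) ya yb a b ω) ω ξ) f =
          shiftC a b ω f := fun f hf => shift_mix.1 hf
    have h2 : ∀ f, f ∉ SPZ (N * A) (Ni * Ai) (2 * m + 12) ya yb (shiftC a b ω) →
        shiftC a b (mixC (Sv (N * A) (Ni * Ai) (2 * m + 12) ya yb a b ω) ω ξ) f =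
          shiftC a b ξ f := fun f hf => shift_mix.2 hf
    rw [ps_congr hcp] at t1
    rw [d1_congr hcc] at t2
    rw [d2_congr hcc] at t3
    rw [tubeEv_congr hcc] at t4
    obtain ⟨b₁, b11, b12, b13, -, c1⟩ := leg₁ hg hw hS hK hP h1 (fun f _ hf => h2 f hf) t2
    obtain ⟨b₂, b21, b22, b23, -, c2⟩ := leg₂ hg hw hS hK hP h1 (fun f _ hf => h2 f hf) t3
    obtain ⟨t, ht, c3⟩ := strip hg hw hS hK hP h1 (fun f _ hf => h2 f hf) t1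
    have c4 := hring _ _ h1 (fun f _ hf => h2 f hf) t4
    refine occAt_shift (a := a) (b := b) hcol ?_
    rw [← hk]
    exact closing hg hk01 he heσ hM hq (by rw [← hpar]; rfl) hw hcell hS hK h1 b11 ⟨b12, b13⟩ b21
      ⟨b22, b23⟩ c1 c2 ht c3 hi c4
  choose! s i hi hocc using data
  refine pr_mixC (W := W) (fun ω => Sv (N * A) (Ni * Ai) (2 * m + 12) ya yb a b ω)
    (fun ω ω' h => stop_Sv _ _ _ _ _ _ _ ω ω' h) _ _
    (fun ω => (P ∩ D) ∩ {ξ | shiftC a b ξ ∈ PS (parX N A Ni Ai σ m) k (y - b + 4 * (M * q * e)) ∧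
      shiftC a b ξ ∈ D1 (parX N A Ni Ai σ m) (k + 1) (y - b) ya ∧
      shiftC a b ξ ∈ D2 (parX N A Ni Ai σ m) (k + 1) (y - b) yb ∧
      shiftC a b ξ ∈ TubeEv (k + 1) 0 0 (parX N A Ni Ai σ m).Ai
        (RD (parX N A Ni Ai σ m) (s ω) (i ω))}) ?_ ?_
  · intro ω hω
    have hD' : ∀ c c' : ℤ, (c - c') % 2 = 0 → parD c = parD c' := by
      intro c c' h
      funext f
      unfold parD
      congr 1
      simp only [eq_iff_iff]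
      constructor <;> intro h' <;> omega
    refine hc (parX N A Ni Ai σ m) rfl rfl hg a b _ _ _ _ ya yb k (s ω) (i ω) hw ?_ ?_ hp
      (hi ω hω) W SP SD P D hW.subP hW.subD hW.disj hW.depP hW.depD ?_ ?_ ?_ ?_ ?_
    · simp only [parX]
      linarith
    · simp only [parX]
      linarith
    · rw [hD' (k + a + b) col (by omega)]
      exact hW.incP
    · rw [hD' (k + a + b + 1) (col + 1) (by omega)]
      exact hW.incD
    · intro f hf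
      refine hW.sub ?_
      unfold Wd
      rw [mem_RF] at hf ⊢
      simp only
      omega
    · intro f hf hf'
      have h1 := hW.upP _ hf' (by
        unfold Wd
        rw [mem_RF] at hf ⊢
        simp only
        omega)
      simp only [parX] at h1 ⊢
      rw [eN]
      omega
    · intro f hf hf'
      have h1 := hW.lowD _ hf' (by
        unfold Wd
        rw [mem_RF] at hf ⊢
        simp only
        omega)
      simp only [parX] at h1 ⊢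
      rw [eN]
      omega
  · intro ω hω ξ hξ
    have hSw : ∀ f ∈ Sv (N * A) (Ni * Ai) (2 * m + 12) ya yb a b ω, f ∈ Wd x y M q e ∧
        b - N * A ≤ f.2 ∧ f.2 < b + N * A := by
      intro f hf
      have h1 := spz_sub hf
      rw [mem_RF] at h1
      simp only at h1
      refine ⟨?_, by omega, by omega⟩
      unfold Wd
      rw [mem_RF, ← hμ]
      omega
    refine ⟨?_, ⟨?_, ?_⟩, ?_⟩
    · refine px_congr (fun f hf => (shift_mix.1 hf).symm) hω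
    · refine (hW.depP _ _ fun f hf => ?_).1 hξ.1.1
      unfold mixC
      rw [if_neg]
      intro hc'
      have h1 := hSw f hc'
      have h2 := hW.upP f hf h1.1
      omega
    · refine (hW.depD _ _ fun f hf => ?_).1 hξ.1.2
      unfold mixC
      rw [if_neg]
      intro hc'
      have h1 := hSw f hc'
      have h2 := hW.lowD f hf h1.1
      omega
    · exact hocc ω hω ξ hξ.2

/-! ### The numbers -/

/-- The parameters of the cells: `r = Q e`, `n = N + 5`, `k = Ni + 5`. -/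
theorem nums {N Ni M Q e : ℕ} (hM : N + 5 ≤ M) (hQ : 100 ≤ Q)
    (he : 1 ≤ e) : ∃ A Ai : ℕ, Ai = 32 * (N + 5) * (Q * e) ∧ A = 64 * M * (Ni + 5) * (Q * e) ∧
    e ≤ Ai ∧ (Ni + 4) * Ai ≤ A ∧ A ≤ 2 * M * (Ni + 5) * Ai ∧ Ai / Q = 32 * (N + 5) * e ∧
    M * (128 * (Ni + 5) * (N + 5) * Q) * e = 2 * (N + 5) * A ∧
    128 * (Ni + 5) * (N + 5) * Q * e = 4 * (Ni + 5) * Ai := by
  refine ⟨_, _, rfl, rfl, ?_, ?_, ?_, ?_, ?_, ?_⟩
  · nlinarith [Nat.mul_le_mul hQ he]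
  · have h1 : (Ni + 4) * (32 * (N + 5) * (Q * e)) ≤ (Ni + 5) * (32 * M * (Q * e)) :=
      Nat.mul_le_mul (by omega) (Nat.mul_le_mul_right _ (by omega))
    refine h1.trans ?_
    have : 64 * M * (Ni + 5) * (Q * e) = 2 * ((Ni + 5) * (32 * M * (Q * e))) := by ring
    omega
  · have : 2 * M * (Ni + 5) * (32 * (N + 5) * (Q * e)) = 64 * M * (Ni + 5) * (Q * e) * (N + 5) := by
      ring
    rw [this]
    exact Nat.le_mul_of_pos_right _ (by omega)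
  · have : 32 * (N + 5) * (Q * e) = 32 * (N + 5) * e * Q := by ring
    rw [this, Nat.mul_div_cancel _ (by omega)]
  · ring
  · ring

theorem sig1 {N Q Ai e : ℕ} (h : Ai / Q = 32 * (N + 5) * e) : 16 * e ≤ Ai / Q := by
  rw [h]
  exact Nat.mul_le_mul_right e (by omega)

theorem sig2 {Q Ai : ℕ} (hQ : 100 ≤ Q) : 100 * (Ai / Q) ≤ Ai := by
  have h1 : Ai / Q * Q ≤ Ai := Nat.div_mul_le_self _ _
  have h2 : Ai / Q * 100 ≤ Ai / Q * Q := Nat.mul_le_mul_left _ hQ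
  omega

/-- The position of the cell. -/
theorem geo {NA A NiAi Ai B M q e x y z₁ z₂ θ u₁ u₂ : ℤ} (hNA : 0 ≤ NA) (hA : 1 ≤ A)
    (hNi : 0 ≤ NiAi) (hAi : 1 ≤ Ai) (hB : B = NiAi + 5 * Ai) (z6 : q * e = 4 * B)
    (z5 : M * q * e = 2 * NA + 10 * A) (hM : 105 ≤ M) (h1 : 3 * M ≤ 4 * z₁) (h2 : 4 * z₁ < 5 * M)
    (h3 : 3 * M ≤ 4 * z₂) (h4 : 4 * z₂ < 5 * M) (hθ : 0 ≤ θ ∧ θ ≤ 1)
    (hu₁ : u₁ = q * e * (M + z₁)) (hu₂ : u₂ = q * e * (M + z₂)) :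
    (x - (x + u₁ + 2 * B + θ) ≤ -(NA + 4 * A) ∧
      NA + 4 * A ≤ x - (x + u₁ + 2 * B + θ) + 4 * (M * q * e) ∧
      y - (y + u₂ + 2 * B) ≤ -(NA + 4 * A) ∧
      NA + 4 * A ≤ y - (y + u₂ + 2 * B) + 4 * (M * q * e)) ∧
    (x - (x + u₁ + 2 * B + θ) + q * e * (M + z₁) ≤ -(NiAi + 4 * Ai) ∧
      NiAi + 4 * Ai ≤ x - (x + u₁ + 2 * B + θ) + q * e * (M + z₁ + 1) ∧
      y - (y + u₂ + 2 * B) + q * e * (M + z₂) ≤ -(NiAi + 4 * Ai) ∧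
      NiAi + 4 * Ai ≤ y - (y + u₂ + 2 * B) + q * e * (M + z₂ + 1)) ∧
    y + u₂ + 2 * B + (NA + 4 * A) ≤ y + 3 * (M * q * e) ∧
    2 * y + M * q * e ≤ 2 * (y + u₂ + 2 * B - (NA + 4 * A)) := by
  have z5' : M * (4 * B) = 2 * NA + 10 * A := by
    rw [← z6, ← z5]
    ring
  have hB0 : 0 ≤ B := by omega
  have hMB : 105 * (4 * B) ≤ 2 * NA + 10 * A := by
    rw [← z5']
    exact mul_le_mul_of_nonneg_right hM (by omega)
  have hmid : ∀ t : ℤ, 3 * M ≤ 4 * t → 4 * t < 5 * M →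
      7 * (2 * NA + 10 * A) ≤ 4 * (q * e * (M + t)) ∧
      4 * (q * e * (M + t)) + 4 * B ≤ 9 * (2 * NA + 10 * A) := by
    intro t h1 h2
    rw [z6, ← z5']
    constructor
    · have : 4 * B * (7 * M) ≤ 4 * B * (4 * (M + t)) :=
        mul_le_mul_of_nonneg_left (by linarith) (by omega)
      linarith
    · have : 4 * B * (4 * (M + t)) ≤ 4 * B * (9 * M - 1) :=
        mul_le_mul_of_nonneg_left (by linarith) (by omega)
      linarith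
  obtain ⟨m1, m2⟩ := hmid z₁ h1 h2
  obtain ⟨m3, m4⟩ := hmid z₂ h3 h4
  rw [← hu₁] at m1 m2
  rw [← hu₂] at m3 m4
  rw [mul_add (q * e) (M + z₁) 1, mul_add (q * e) (M + z₂) 1, mul_one, ← hu₁, ← hu₂, z6, z5]
  clear hmid z5' z5 z6 hu₁ hu₂ h1 h2 h3 h4
  refine ⟨⟨?_, ?_, ?_, ?_⟩, ⟨?_, ?_, ?_, ?_⟩, ?_, ?_⟩ <;> omega

theorem shift_one {W W' : Finset (ℤ × ℤ)} {Y : Set (LF → Bool)} {a b : ℤ}
    (hX : DepOn (W : Set (ℤ × ℤ)) {ω | lcf 0 ω ∈ Y}) (hW : ∀ f ∈ W, (f.1 + a, f.2 + b) ∈ W') :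
    pr W' {ω | lcf 0 (shiftC a b ω) ∈ Y} = pr W {ω | lcf 0 ω ∈ Y} :=
  pr_shiftC (X := {ω | lcf 0 ω ∈ Y}) hX hW

theorem shift_two {W W' : Finset (ℤ × ℤ)} {Y Y' : Set (LF → Bool)} {a b : ℤ}
    (hX : DepOn (W : Set (ℤ × ℤ)) {ω | lcf 0 ω ∈ Y})
    (hX' : DepOn (W : Set (ℤ × ℤ)) {ω | lcf 0 ω ∈ Y'}) (hW : ∀ f ∈ W, (f.1 + a, f.2 + b) ∈ W') :
    pr W' ({ω | lcf 0 (shiftC a b ω) ∈ Y} ∩ {ω | lcf 0 (shiftC a b ω) ∈ Y'}) =
      pr W ({ω | lcf 0 ω ∈ Y} ∩ {ω | lcf 0 ω ∈ Y'}) :=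
  pr_shiftC (X := {ω | lcf 0 ω ∈ Y} ∩ {ω | lcf 0 ω ∈ Y'})
    (fun ω ω' h => and_congr (hX ω ω' h) (hX' ω ω' h)) hW

end ZM

open ZM in
theorem onePt (hTT : PercS5.TTBound) (h : ZLow) {col : ℤ} (hcol : col = 0 ∨ col = 1) :
    OnePt col := by
  obtain ⟨N, Ni, c, hc, hN, hNi, h⟩ := h
  obtain ⟨c₁, hc₁, htub⟩ := pr_tubes N Ni (8 * (N + 5))
  obtain ⟨C, hC, hmom⟩ := mom_bound hTT N Ni hN hNi
  intro δ hδ
  obtain ⟨ρ, hρ⟩ : ∃ ρ : ℝ, ρ = ((N : ℝ) + 5) / (2 * (Ni + 5)) := ⟨_, rfl⟩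
  have hρ0 : 0 < ρ := by rw [hρ]; positivity
  obtain ⟨c₂, hc₂⟩ : ∃ c₂ : ℝ, c₂ = (c₁ * (δ * δ) * (c / 2)) ^ 2 / (4 * C) := ⟨_, rfl⟩
  have hc20 : 0 < c₂ := by rw [hc₂]; positivity
  refine ⟨c₂ * ρ ^ ((2 : ℝ) / 3), N + 5, by positivity, by omega, fun M hM => ?_⟩
  obtain ⟨Q, m, a₀, hQ, h⟩ := h (2 * M * (Ni + 5))
  have hQ0 : 0 < Q := by omega
  refine ⟨128 * (Ni + 5) * (N + 5) * Q, a₀, Nat.succ_le_of_lt (by positivity), ?_⟩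
  intro η x y hη0 hη1 W SP SD P D hW z hz
  obtain ⟨e, rfl⟩ := Int.eq_ofNat_of_zero_le (by omega : 0 ≤ η)
  have he : 1 ≤ e := by omega
  have hea : a₀ ≤ e := by omega
  obtain ⟨A, Ai, hAi, hA, n1, n2, n3, n4, n5, n6⟩ := nums (Ni := Ni) hM hQ he
  obtain ⟨hm, h⟩ := h A Ai (hea.trans n1) n2 n3
  have hAi0 : 1 ≤ Ai := he.trans n1
  have hA0 : 1 ≤ A := by nlinarith
  -- integers
  obtain ⟨q, hq⟩ : ∃ q : ℤ, q = ((128 * (Ni + 5) * (N + 5) * Q : ℕ) : ℤ) := ⟨_, rfl⟩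
  rw [← hq] at hW ⊢
  have hq1 : 1 ≤ q := by
    rw [hq]
    have : 0 < 128 * (Ni + 5) * (N + 5) * Q := by positivity
    exact_mod_cast this
  obtain ⟨B, hB⟩ : ∃ B : ℤ, B = ((Ni : ℤ) + 5) * Ai := ⟨_, rfl⟩
  have z6 : q * (e : ℤ) = 4 * B := by
    rw [hq, hB]
    have := congrArg (fun n : ℕ => (n : ℤ)) n6
    push_cast at this ⊢
    linarith
  have z5 : (M : ℤ) * q * e = 2 * (N * A) + 10 * A := by
    rw [hq]
    have := congrArg (fun n : ℕ => (n : ℤ)) n5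
    push_cast at this ⊢
    linarith
  have hMz : (105 : ℤ) ≤ M := by exact_mod_cast (by omega : 105 ≤ M)
  have hB' : B = (Ni : ℤ) * Ai + 5 * Ai := by rw [hB]; ring
  have hv0 : (0 : ℤ) ≤ (Ni : ℤ) * Ai := by positivity
  have hAiz : (1 : ℤ) ≤ Ai := by exact_mod_cast hAi0
  have hNA0 : (0 : ℤ) ≤ (N : ℤ) * A := by positivity
  have hAz : (1 : ℤ) ≤ A := by exact_mod_cast hA0
  obtain ⟨u₁, hu₁⟩ : ∃ u : ℤ, u = q * e * (M + z.1) := ⟨_, rfl⟩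
  obtain ⟨u₂, hu₂⟩ : ∃ u : ℤ, u = q * e * (M + z.2) := ⟨_, rfl⟩
  obtain ⟨zz1, zz2, zz3, zz4⟩ := hz
  -- the sums
  obtain ⟨t, ht⟩ : ∃ t : ℝ, t = ((Ai : ℝ) / A) ^ ((2 : ℝ) / 3) := ⟨_, rfl⟩
  have hAiR : (0 : ℝ) < Ai := by exact_mod_cast hAi0
  have hAR : (0 : ℝ) < A := by exact_mod_cast hA0
  have ht0 : 0 < t := by rw [ht]; positivity
  obtain ⟨W₀, hW₀⟩ : ∃ W₀ : Finset (ℤ × ℤ), W₀ = RF (-((N : ℤ) * A + 2 * m + 14))
    ((N : ℤ) * A + 2 * m + 12) (-((N : ℤ) * A)) ((N : ℤ) * A) := ⟨_, rfl⟩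
  have hlow := h W₀ hW₀.ge
  have hupp := hmom Q m A Ai hQ hAi0 n2 hm W₀ hW₀.ge
  rw [← ht] at hlow hupp
  obtain ⟨σ, hσ⟩ : ∃ σ : ℤ, σ = ((Ai / Q : ℕ) : ℤ) := ⟨_, rfl⟩
  rw [← hσ] at hlow hupp
  have hσm : 16 * ((m : ℤ) + 7) ≤ σ := by rw [hσ]; exact_mod_cast hm
  have hσe : 16 * (e : ℤ) ≤ σ := by
    rw [hσ]
    exact_mod_cast sig1 n4
  have hσA : 100 * σ ≤ Ai := by
    rw [hσ]
    exact_mod_cast sig2 hQ
  have hAA : ((Ni : ℤ) + 4) * Ai ≤ A := by exact_mod_cast n2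
  have hmA : 2 * (m : ℤ) + 14 ≤ 4 * A := by
    have h1 : (Ni : ℤ) * Ai + 4 * Ai ≤ A := by linarith
    omega
  have hg : (parX N A Ni Ai σ m).Ok := by
    refine ⟨?_, ?_, ?_, ?_, ?_, ?_⟩
    · exact (by exact_mod_cast hN : (100 : ℤ) ≤ N)
    · exact (by exact_mod_cast hNi : (100 : ℤ) ≤ Ni)
    · simp only [parX]; omega
    · simp only [parX]; omega
    · exact hσA
    · exact hAA
  -- the class of the heights
  obtain ⟨κ, hκ01, hκ⟩ : ∃ κ : ℤ, (κ = 0 ∨ κ = 1) ∧ c / 2 * t ≤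
      ∑ p ∈ (Ports (N * A)).filter (fun p => p.1 % 2 = κ),
        pr W₀ {ω | lcf 0 ω ∈ PX N A Ni Ai σ m p.1 p.2} := by
    have h1 := sum_filter_add_sum_filter_not (Ports ((N : ℤ) * A)) (fun p => p.1 % 2 = 0)
      (fun p => pr W₀ {ω | lcf 0 ω ∈ PX N A Ni Ai σ m p.1 p.2})
    have h2 : (Ports ((N : ℤ) * A)).filter (fun p => ¬ p.1 % 2 = 0) =
        (Ports ((N : ℤ) * A)).filter (fun p => p.1 % 2 = 1) := by
      refine filter_congr fun p _ => ?_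
      omega
    rw [h2] at h1
    by_cases h3 : c / 2 * t ≤ ∑ p ∈ (Ports ((N : ℤ) * A)).filter (fun p => p.1 % 2 = 0),
        pr W₀ {ω | lcf 0 ω ∈ PX N A Ni Ai σ m p.1 p.2}
    · exact ⟨0, Or.inl rfl, h3⟩
    · refine ⟨1, Or.inr rfl, ?_⟩
      linarith
  -- the centre
  obtain ⟨θ, hθ⟩ : ∃ θ : ℤ, θ = (col + (x + u₁ + 2 * B) + (y + u₂ + 2 * B) + 1 + N * A + κ) % 2 :=
    ⟨_, rfl⟩
  have hθ01 : 0 ≤ θ ∧ θ ≤ 1 := by omega
  obtain ⟨a, ha⟩ : ∃ a : ℤ, a = x + u₁ + 2 * B + θ := ⟨_, rfl⟩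
  obtain ⟨b, hb⟩ : ∃ b : ℤ, b = y + u₂ + 2 * B := ⟨_, rfl⟩
  have eN : ((N : ℤ) + 4) * A = N * A + 4 * A := by ring
  have eM : (M : ℤ) * q * e = 2 * (N * A) + 10 * A := z5
  obtain ⟨⟨g1, g2, g3, g4⟩, hcell, hSP, hSD⟩ := geo (x := x) (y := y) hNA0 hAz hv0 hAiz hB' z6 z5
    hMz zz1 zz2 zz3 zz4 hθ01 hu₁ hu₂
  rw [← ha] at g1 g2
  rw [← hb] at g3 g4
  rw [← ha, ← hb] at hcell
  rw [← hb, ← eN] at hSP hSD
  have hw : WinOk (parX N A Ni Ai σ m) (x - a) (x - a + 4 * (M * q * e)) (y - b)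
      (y - b + 4 * (M * q * e)) := by
    refine ⟨?_, ?_, ?_, ?_⟩
    · simp only [parX]
      rw [eN]
      exact g1
    · simp only [parX]
      rw [eN]
      exact g2
    · simp only [parX]
      rw [eN]
      exact g3
    · simp only [parX]
      rw [eN]
      exact g4
  have hW₀W : ∀ f ∈ W₀, (f.1 + a, f.2 + b) ∈ W := by
    intro f hf
    refine hW.sub ?_
    rw [hW₀, mem_RF] at hf
    unfold Wd
    rw [mem_RF]
    simp only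
    clear hlow hupp hmom htub h hW hκ hcell hSP hSD hw hθ ha hb hu₁ hu₂ n2 n3 n4 n5 n6 hm hAi hA
    omega
  have hdep : ∀ ya yb : ℤ, DepOn (W₀ : Set (ℤ × ℤ))
      {ω | lcf 0 ω ∈ PX (N : ℤ) A Ni Ai σ m ya yb} := by
    intro ya yb
    rw [hW₀]
    exact depOn_px
  have hGp : ∀ p : ℤ × ℤ, pr W {ω | lcf 0 (shiftC a b ω) ∈ PX (N : ℤ) A Ni Ai σ m p.1 p.2} =
      pr W₀ {ω | lcf 0 ω ∈ PX (N : ℤ) A Ni Ai σ m p.1 p.2} :=
    fun p => shift_one (hdep p.1 p.2) hW₀W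
  have hGG : ∀ p p' : ℤ × ℤ, pr W ({ω | lcf 0 (shiftC a b ω) ∈ PX (N : ℤ) A Ni Ai σ m p.1 p.2} ∩
      {ω | lcf 0 (shiftC a b ω) ∈ PX (N : ℤ) A Ni Ai σ m p'.1 p'.2}) =
      pr W₀ ({ω | lcf 0 ω ∈ PX (N : ℤ) A Ni Ai σ m p.1 p.2} ∩
        {ω | lcf 0 ω ∈ PX (N : ℤ) A Ni Ai σ m p'.1 p'.2}) :=
    fun p p' => shift_two (hdep p.1 p.2) (hdep p'.1 p'.2) hW₀W
  obtain ⟨E, hE⟩ : ∃ E : ℤ × ℤ → Set Cfg, E = fun p =>
      {ω | lcf 0 (shiftC a b ω) ∈ PX (N : ℤ) A Ni Ai σ m p.1 p.2} ∩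
        (P ∩ D ∩ {ω | OccAt ω col x y M q e z}) := ⟨_, rfl⟩
  obtain ⟨I, hI⟩ : ∃ I : Finset (ℤ × ℤ), I = (Ports ((N : ℤ) * A)).filter (fun p => p.1 % 2 = κ) :=
    ⟨_, rfl⟩
  rw [← hI] at hκ
  have hone : ∀ p ∈ I, c₁ * (δ * δ) *
      pr W₀ {ω | lcf 0 ω ∈ PX (N : ℤ) A Ni Ai σ m p.1 p.2} ≤ pr W (E p) := by
    intro p hp
    rw [hI, mem_filter] at hp
    have h1 := one_pair (H := 8 * ((N : ℤ) + 5)) hg htub hcol (by omega : (1 : ℤ) ≤ e) hσe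
      (by omega : (1 : ℤ) ≤ M) hq1 hw (by rw [eM]; linarith) hcell hW hSP hSD (ya := p.1)
      (yb := p.2) hp.1 (by unfold par; simp only; omega)
    rw [hGp p] at h1
    rw [hE]
    refine le_trans ?_ h1
    refine mul_le_mul_of_nonneg_right ?_ (pr_nonneg _ _)
    refine mul_le_mul_of_nonneg_left ?_ hc₁.le
    exact mul_le_mul hW.prP hW.prD hδ.le (pr_nonneg _ _)
  have hm1 : c₁ * (δ * δ) * (c / 2) * t ≤ ∑ p ∈ I, pr W (E p) := by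
    refine le_trans ?_ (sum_le_sum hone)
    rw [← mul_sum, mul_assoc (c₁ * (δ * δ))]
    exact mul_le_mul_of_nonneg_left hκ (by positivity)
  have hm2 : ∑ p ∈ I, ∑ p' ∈ I, pr W (E p ∩ E p') ≤ C * t := by
    refine le_trans ?_ hupp
    have hIP : I ⊆ Ports ((N : ℤ) * A) := by rw [hI]; exact filter_subset _ _
    refine (sum_le_sum_of_subset_of_nonneg hIP fun p _ _ =>
      sum_nonneg fun _ _ => pr_nonneg _ _).trans ?_
    refine sum_le_sum fun p _ => ?_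
    refine (sum_le_sum_of_subset_of_nonneg hIP fun p _ _ => pr_nonneg _ _).trans ?_
    refine sum_le_sum fun p' _ => ?_
    rw [← hGG p p', hE]
    exact pr_mono W fun ω hω => ⟨hω.1.1, hω.2.1⟩
  have hfin := paley_zygmund (W := W) I E (by positivity) hm1 hm2
  have hrat : (Ai : ℝ) / A = ρ / M := by
    have hQR : (0 : ℝ) < Q := by exact_mod_cast hQ0
    have heR : (0 : ℝ) < e := by exact_mod_cast he
    have hMR : (0 : ℝ) < M := by exact_mod_cast (by omega : 0 < M)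
    rw [hρ, hAi, hA]
    push_cast
    field_simp
    ring
  have htρ : t = ρ ^ ((2 : ℝ) / 3) * (M : ℝ) ^ (-(2 / 3) : ℝ) := by
    rw [ht, hrat, Real.div_rpow hρ0.le (Nat.cast_nonneg _), Real.rpow_neg (Nat.cast_nonneg _),
      div_eq_mul_inv]
  have hval : c₂ * ρ ^ ((2 : ℝ) / 3) * (M : ℝ) ^ (-(2 / 3) : ℝ) =
      (c₁ * (δ * δ) * (c / 2) * t) ^ 2 / (4 * (C * t)) := by
    rw [mul_assoc, ← htρ, hc₂]
    field_simp
  rw [hval]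
  refine hfin.trans (pr_mono W ?_)
  classical
  intro ω hω
  have h1 : (0 : ℝ) < _ := lt_of_lt_of_le (by positivity) hω
  obtain ⟨p, hp⟩ := card_pos.1 (Nat.cast_pos.1 h1)
  rw [mem_filter, hE] at hp
  exact hp.2.2

end Pool.Agent.Occ
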